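import Pool.Agent.Lib.MP_f1646b_al.Defs

set_option autoImplicit false

namespace Pool.Agent.Lib.MP_f1646b_al

variable {X : Type*} {d : X → X → ℕ}

theorem Btw.comm (h : IsGeo d) {x w y : X} (hw : Btw d x w y) : Btw d y w x := by
  unfold Btw at *
  rw [h.symm y w, h.symm w x, h.symm y x]; omega

theorem btw_comm (h : IsGeo d) {x w y : X} : Btw d x w y ↔ Btw d y w x :=
  ⟨fun hw => hw.comm h, fun hw => hw.comm h⟩

theorem btw_left (h : IsGeo d) (x y : X) : Btw d x x y := by
  unfold Btw; rw [h.self]; omega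

theorem btw_right (h : IsGeo d) (x y : X) : Btw d x y y := by
  unfold Btw; rw [h.self]; omega

/-- (T1) `a ∈ [x,b]`, `b ∈ [x,y]` implies `a ∈ [x,y]` and `b ∈ [a,y]` -/
theorem btw_T1 (h : IsGeo d) {x a b y : X} (h1 : Btw d x a b) (h2 : Btw d x b y) :
    Btw d x a y ∧ Btw d a b y := by
  unfold Btw at *
  have h3 := h.tri a b y
  have h4 := h.tri x a y
  constructor <;> omega

/-- (T1') `a ∈ [b,y]`, `b ∈ [x,y]` implies `a ∈ [x,y]` and `b ∈ [x,a]` -/
theorem btw_T1' (h : IsGeo d) {x a b y : X} (h1 : Btw d b a y) (h2 : Btw d x b y) :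
    Btw d x a y ∧ Btw d x b a := by
  unfold Btw at *
  have h3 := h.tri x b a
  have h4 := h.tri x a y
  constructor <;> omega

/-- (T3) -/
theorem btw_T3 (h : IsGeo d) {x t s y : X} (h1 : Btw d x t s) (h2 : Btw d s t y)
    (h3 : Btw d x s y) : t = s := by
  have h4 := h.tri x t y
  have h5 := h.symm s t
  unfold Btw at *
  exact h.eq_of _ _ (by omega)

/-- two points which are each between the other and an end coincide -/
theorem btw_antisymm (h : IsGeo d) {a b y : X} (h1 : Btw d a b y) (h2 : Btw d b a y) : a = b := by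
  have h5 := h.symm a b
  unfold Btw at *
  exact h.eq_of _ _ (by omega)

theorem dist_pos_of_ne (h : IsGeo d) {x y : X} (hxy : x ≠ y) : 0 < d x y := by
  rcases Nat.eq_zero_or_pos (d x y) with h0 | h0
  · exact absurd (h.eq_of _ _ h0) hxy
  · exact h0

theorem btw_of_le_one (h : IsGeo d) {x w y : X} (hd : d x y ≤ 1) (hw : Btw d x w y) :
    w = x ∨ w = y := by
  unfold Btw at hw
  rcases Nat.eq_zero_or_pos (d x w) with h0 | h0
  · exact Or.inl (h.eq_of _ _ h0).symm
  · exact Or.inr (h.eq_of _ _ (by omega))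

/-- a point of the interval at a given distance -/
theorem geo_btw (h : IsGeo d) (x y : X) (i : ℕ) (hi : i ≤ d x y) :
    ∃ w, Btw d x w y ∧ d x w = i := by
  obtain ⟨w, h1, h2⟩ := h.geo x y i hi
  exact ⟨w, by unfold Btw; omega, h1⟩

theorem exists_adj (h : IsGeo d) {x y : X} (hxy : x ≠ y) :
    ∃ w, Btw d x w y ∧ d x w = 1 := geo_btw h x y 1 (dist_pos_of_ne h hxy)

variable {S : Set X} {α : X → X → X → ℕ} {θ e : ℕ}

/-- contrapositive of `k1` -/
theorem CAS.small (h : CAS d S α θ e) {s x y : X} (hs : s ∈ S) (hx : x ≠ s) (hy : y ≠ s)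
    (hn : ¬ Btw d x s y) : α s x y ≤ θ := by
  by_contra hc
  exact hn (h.k1 s hs x y hx hy (by omega))

theorem CAS.small_adj (h : CAS d S α θ e) {s x y : X} (hs : s ∈ S) (hx : x ≠ s) (hy : y ≠ s)
    (hd : d x y ≤ 1) : α s x y ≤ θ := by
  apply h.small hs hx hy
  intro hb
  rcases btw_of_le_one h.geo hd hb with h1 | h1
  · exact hx h1.symm
  · exact hy h1.symm

theorem pair_lemma (h : CAS d S α θ e) (a b x y : X) (ha : a ∈ S) (hb : b ∈ S) (hab : a ≠ b)
    (hax : a ≠ x) (hay : a ≠ y) (hbx : b ≠ x) (hby : b ≠ y) (h1 : Btw d x a b) (h2 : Btw d x b y)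
    (hA : 2 * θ + e < α a x y) : α b a x = 0 ∧ (θ + e < α b x y → α a b y = 0) := by
  have h3 : Btw d a b y := (btw_T1 h.geo h1 h2).2
  have h4 : α a b y ≤ θ := by
    apply h.small ha hab.symm hay.symm
    intro h5
    exact hab (btw_antisymm h.geo h3 h5)
  have h5 := h.a_tri a ha x b y hax.symm hab.symm hay.symm
  have h6 := h.a_symm a ha x b hax.symm hab.symm
  have h7 : α b a x = 0 := h.k2 b hb a ha x hab.symm hbx.symm hax.symm (by omega)
  refine ⟨h7, fun h8 => ?_⟩
  have h9 := h.a_tri b hb x a y hbx.symm hab hby.symm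
  have h10 := h.a_symm b hb x a hbx.symm hab
  exact h.k2 a ha b hb y hab hay.symm hby.symm (by omega)

end Pool.Agent.Lib.MP_f1646b_al
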