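import Pool.Agent.Lib.MP_f1646b_al.Betw

/-!
Piece P01: elementary geometry of thin integer valued geodesic metrics.
-/

set_option autoImplicit false

namespace Pool.Agent.Lib.MP_f1646b_al

namespace P01

variable {X : Type*} {d : X → X → ℕ} {δ : ℕ}

theorem fat_eq (h : IsGeo d) (hδ : Hyp d δ) {x y w w' : X}
    (hw : Btw d x w y) (hw' : Btw d x w' y) (he : d x w = d x w') : d w w' ≤ 2 * δ := by
  obtain ⟨v, hv, hd⟩ := hδ x y w' w hw
  have h1 := h.tri w v w'
  have h2 := h.symm v w
  rcases hv with hv | hv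
  · have h3 := h.tri x v w
    unfold Btw at *
    omega
  · have h3 := h.tri w v y
    have h4 := h.symm w' v
    unfold Btw at *
    omega

theorem fat_le (h : IsGeo d) (hδ : Hyp d δ) {x y w w' : X}
    (hw : Btw d x w y) (hw' : Btw d x w' y) (he : d x w ≤ d x w') :
    d w w' ≤ 2 * δ + (d x w' - d x w) := by
  obtain ⟨u, hu, hd⟩ := geo_btw h x w' (d x w) he
  have h1 := (btw_T1 h hu hw').1
  have h2 := fat_eq h hδ hw h1 hd.symm
  have h3 := h.tri w u w'
  unfold Btw at hu
  omega

/-- a unit step path of the right length is a geodesic path -/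
theorem geoPath_of (h : IsGeo d) {x y : X} {γ : ℕ → X} (h0 : γ 0 = x) (h1 : γ (d x y) = y)
    (hs : ∀ i < d x y, d (γ i) (γ (i + 1)) ≤ 1) : GeoPath d γ x y := by
  have key : ∀ i k, i + k ≤ d x y → d (γ i) (γ (i + k)) ≤ k := by
    intro i k
    induction k with
    | zero => intro _; rw [Nat.add_zero, h.self]
    | succ k ih =>
      intro hk
      have h2 := ih (by omega)
      have h3 := hs (i + k) (by omega)
      have h4 := h.tri (γ i) (γ (i + k)) (γ (i + k + 1))
      have h5 : i + (k + 1) = i + k + 1 := by omega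
      rw [h5]
      omega
  refine ⟨h0, h1, fun i j hij hj => ?_⟩
  have h2 := key i (j - i) (by omega)
  have h3 := key 0 i (by omega)
  have h4 := key j (d x y - j) (by omega)
  rw [Nat.add_sub_cancel' hij] at h2
  rw [Nat.zero_add, h0] at h3
  rw [Nat.add_sub_cancel' hj, h1] at h4
  have h5 := h.tri x (γ i) y
  have h6 := h.tri (γ i) (γ j) y
  omega

theorem exists_path (h : IsGeo d) (n : ℕ) : ∀ x y : X, d x y = n →
    ∃ γ : ℕ → X, γ 0 = x ∧ γ n = y ∧ ∀ i < n, d (γ i) (γ (i + 1)) ≤ 1 := by
  induction n with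
  | zero =>
    intro x y hxy
    refine ⟨fun _ => x, rfl, h.eq_of _ _ hxy, fun i hi => absurd hi (Nat.not_lt_zero _)⟩
  | succ n ih =>
    intro x y hxy
    obtain ⟨w, hw, hd⟩ := geo_btw h x y 1 (by omega)
    have hwy : d w y = n := by unfold Btw at hw; omega
    obtain ⟨γ, h0, h1, hs⟩ := ih w y hwy
    refine ⟨fun i => Nat.casesOn i x γ, rfl, h1, fun i hi => ?_⟩
    rcases i with _ | i
    · change d x (γ 0) ≤ 1
      rw [h0, hd]
    · exact hs i (by omega)

/-- the index on a geodesic closest to a third point -/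
theorem center (h : IsGeo d) (hδ : Hyp d δ) {x z : X} {γ : ℕ → X} (hγ : GeoPath d γ x z) (p : X) :
    ∃ i ≤ d x z, i + d (γ i) p ≤ d x p + 2 * δ ∧
      d p (γ i) + (d x z - i) ≤ d p z + 2 * δ + 2 := by
  obtain ⟨h0, h1, h2⟩ := hγ
  have hx : ∀ i ≤ d x z, d x (γ i) = i := by
    intro i hi
    have := h2 0 i (Nat.zero_le _) hi
    rw [h0] at this
    omega
  have hz : ∀ i ≤ d x z, d (γ i) z = d x z - i := by
    intro i hi
    have := h2 i (d x z) hi le_rfl
    rwa [h1] at this
  have hex : ∃ i ≤ d x z, (∃ v, Btw d x v p ∧ d (γ i) v ≤ δ) ∧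
      (i = d x z ∨ (i < d x z ∧ ¬ ∃ v, Btw d x v p ∧ d (γ (i + 1)) v ≤ δ)) := by
    by_contra hne
    push Not at hne
    have hall : ∀ i ≤ d x z, ∃ v, Btw d x v p ∧ d (γ i) v ≤ δ := by
      intro i
      induction i with
      | zero =>
        intro _
        refine ⟨x, btw_left h x p, ?_⟩
        rw [h0, h.self]
        exact Nat.zero_le _
      | succ i ih =>
        intro hi
        exact (hne i (by omega) (ih (by omega))).2 (by omega)
    exact (hne _ le_rfl (hall _ le_rfl)).1 rfl
  obtain ⟨i, hi, ⟨v, hv, hd⟩, hlast⟩ := hex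
  refine ⟨i, hi, ?_, ?_⟩
  · have h3 := h.tri x v (γ i)
    have h4 := h.tri (γ i) v p
    have h5 := h.symm v (γ i)
    have h6 := hx i hi
    unfold Btw at hv
    omega
  · rcases hlast with hl | ⟨hlt, hl⟩
    · rw [hl, h1]
      omega
    · have hb : Btw d x (γ (i + 1)) z := by
        unfold Btw
        rw [hx (i + 1) (by omega), hz (i + 1) (by omega)]
        omega
      obtain ⟨u, hu, hdu⟩ := hδ x z p _ hb
      rcases hu with hu | hu
      · exact absurd ⟨u, hu, hdu⟩ hl
      · have h3 := h2 i (i + 1) (by omega) (by omega)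
        have h4 := h.tri p u (γ (i + 1))
        have h5 := h.tri p (γ (i + 1)) (γ i)
        have h6 := h.symm u (γ (i + 1))
        have h7 := h.symm (γ (i + 1)) (γ i)
        have h8 := hz (i + 1) (by omega)
        have h9 := h.tri (γ (i + 1)) u z
        unfold Btw at hu
        omega

end P01

theorem fat {X : Type*} {d : X → X → ℕ} {δ : ℕ} (h : IsGeo d) (hδ : Hyp d δ) {x y w w' : X}
    (hw : Btw d x w y) (hw' : Btw d x w' y) :
    d w w' ≤ 2 * δ + ((d x w : ℤ) - d x w').natAbs := by
  rcases le_total (d x w) (d x w') with h1 | h1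
  · have h2 := P01.fat_le h hδ hw hw' h1
    omega
  · have h2 := P01.fat_le h hδ hw' hw h1
    rw [h.symm w' w] at h2
    omega

theorem quad {X : Type*} {d : X → X → ℕ} {δ : ℕ} (h : IsGeo d) (hδ : Hyp d δ) {x y w : X}
    (hw : Btw d x w y) (u v : X) :
    ∃ p, (Btw d x p u ∨ Btw d u p v ∨ Btw d v p y) ∧ d w p ≤ 2 * δ := by
  obtain ⟨q, hq, hd⟩ := hδ x y u w hw
  rcases hq with hq | hq
  · exact ⟨q, Or.inl hq, by omega⟩
  · obtain ⟨p, hp, hd'⟩ := hδ u y v q hq
    have h1 := h.tri w q p
    rcases hp with hp | hp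
    · exact ⟨p, Or.inr (Or.inl hp), by omega⟩
    · exact ⟨p, Or.inr (Or.inr hp), by omega⟩

/-- logarithmic polygon lemma -/
theorem polylog {X : Type*} {d : X → X → ℕ} {δ : ℕ} (h : IsGeo d) (hδ : Hyp d δ) (m : ℕ)
    (hm : 0 < m) (p : ℕ → X) (w : X) (hw : Btw d (p 0) w (p m)) :
    ∃ i < m, ∃ v, Btw d (p i) v (p (i + 1)) ∧ d w v ≤ δ * Nat.clog 2 m := by
  induction m using Nat.strong_induction_on generalizing p w with
  | _ m ih =>
    rcases Nat.lt_or_ge m 2 with h2 | h2
    · have hm1 : m = 1 := by omega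
      subst hm1
      refine ⟨0, by omega, w, hw, ?_⟩
      rw [h.self]
      exact Nat.zero_le _
    · have hc : Nat.clog 2 m = Nat.clog 2 ((m + 2 - 1) / 2) + 1 :=
        Nat.clog_of_two_le (by norm_num) h2
      set k := (m + 2 - 1) / 2 with hk
      have hk1 : 0 < k := by omega
      have hk2 : k < m := by omega
      obtain ⟨w', hw', hd⟩ := hδ (p 0) (p m) (p k) w hw
      rcases hw' with hw' | hw'
      · obtain ⟨i, hi, v, hv, hdv⟩ := ih k hk2 hk1 p w' hw'
        refine ⟨i, by omega, v, hv, ?_⟩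
        have h3 := h.tri w w' v
        rw [hc, Nat.mul_add, Nat.mul_one]
        omega
      · have hw'' : Btw d ((fun j => p (k + j)) 0) w' ((fun j => p (k + j)) (m - k)) := by
          have : k + (m - k) = m := by omega
          simp only [Nat.add_zero, this]
          exact hw'
        obtain ⟨i, hi, v, hv, hdv⟩ := ih (m - k) (by omega) (by omega) (fun j => p (k + j)) w' hw''
        refine ⟨k + i, by omega, v, hv, ?_⟩
        have h3 := h.tri w w' v
        have h4 : δ * Nat.clog 2 (m - k) ≤ δ * Nat.clog 2 k :=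
          Nat.mul_le_mul_left _ (Nat.clog_mono_right 2 (by omega))
        rw [hc, Nat.mul_add, Nat.mul_one]
        omega

/-- fellow travelling -/
theorem fellow {X : Type*} {d : X → X → ℕ} {δ : ℕ} (h : IsGeo d) (hδ : Hyp d δ) {x y x' y' w : X}
    (hw : Btw d x w y) (h1 : d x x' + 2 * δ < d x w) (h2 : d y y' + 2 * δ < d w y) :
    ∃ w', Btw d x' w' y' ∧ d w w' ≤ 2 * δ := by
  obtain ⟨p, hp, hd⟩ := quad h hδ hw x' y'
  rcases hp with hp | hp | hp
  · exfalso
    have h3 := h.tri x p w
    have h4 := h.symm p w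
    unfold Btw at hp
    omega
  · exact ⟨p, hp, hd⟩
  · exfalso
    have h3 := h.tri w p y
    have h4 := h.symm y y'
    unfold Btw at hp
    omega

/-- every point of an interval is on a geodesic path -/
theorem exists_geoPath {X : Type*} {d : X → X → ℕ} (h : IsGeo d) (x y w : X) (hw : Btw d x w y) :
    ∃ γ, GeoPath d γ x y ∧ γ (d x w) = w := by
  obtain ⟨γ₁, a0, a1, as⟩ := P01.exists_path h (d x w) x w rfl
  obtain ⟨γ₂, b0, b1, bs⟩ := P01.exists_path h (d w y) w y rfl
  have hD : d x w + d w y = d x y := hw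
  refine ⟨fun i => if i ≤ d x w then γ₁ i else γ₂ (i - d x w), P01.geoPath_of h ?_ ?_ ?_, ?_⟩
  · simp [a0]
  · rcases Nat.eq_zero_or_pos (d w y) with h0 | h0
    · have h1 : d x y ≤ d x w := by omega
      have h2 : d x y = d x w := by omega
      simp only [h1, if_true]
      rw [h2, a1]
      exact h.eq_of _ _ h0
    · have h1 : ¬ d x y ≤ d x w := by omega
      simp only [h1, if_false]
      have h2 : d x y - d x w = d w y := by omega
      rw [h2, b1]
  · intro i hi
    rcases Nat.lt_trichotomy i (d x w) with h1 | h1 | h1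
    · have h2 : i ≤ d x w := by omega
      have h3 : i + 1 ≤ d x w := by omega
      simp only [h2, h3, if_true]
      exact as i h1
    · have h2 : i ≤ d x w := by omega
      have h3 : ¬ i + 1 ≤ d x w := by omega
      simp only [h2, h3, if_true, if_false]
      have h4 : i + 1 - d x w = 0 + 1 := by omega
      rw [h4, h1, a1]
      have h5 := bs 0 (by omega)
      rwa [b0] at h5
    · have h2 : ¬ i ≤ d x w := by omega
      have h3 : ¬ i + 1 ≤ d x w := by omega
      simp only [h2, h3, if_false]
      have h4 : i + 1 - d x w = (i - d x w) + 1 := by omega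
      rw [h4]
      exact bs _ (by omega)
  · simp [a1]

theorem fourpt {X : Type*} {d : X → X → ℕ} {δ : ℕ} (h : IsGeo d) (hδ : Hyp d δ) (x y z w : X) :
    d x z + d y w ≤ max (d x y + d z w) (d x w + d y z) + (4 * δ + 4) := by
  obtain ⟨γ, hγ, -⟩ := exists_geoPath h x z x (btw_left h x z)
  obtain ⟨i, hi, i1, i2⟩ := P01.center h hδ hγ y
  obtain ⟨j, hj, j1, j2⟩ := P01.center h hδ hγ w
  have e1 := h.symm (γ i) y
  have e2 := h.symm (γ j) w
  have e3 := h.symm z w
  have e4 := h.tri y (γ i) w
  have e5 := h.tri (γ i) (γ j) w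
  rcases le_total i j with hij | hij
  · have e6 := hγ.2.2 i j hij hj
    have e7 : d x z + d y w ≤ (d x w + d y z) + (4 * δ + 4) := by omega
    exact e7.trans (Nat.add_le_add_right (le_max_right _ _) _)
  · have e6 := hγ.2.2 j i hij hi
    have e8 := h.symm (γ i) (γ j)
    have e7 : d x z + d y w ≤ (d x y + d z w) + (4 * δ + 4) := by omega
    exact e7.trans (Nat.add_le_add_right (le_max_left _ _) _)

/-- an isometry which moves a point twice as far along has unbounded orbits -/
theorem doubling {X : Type*} {d : X → X → ℕ} {δ : ℕ} (h : IsGeo d) (hδ : Hyp d δ)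
    (g : X → X) (hg : ∀ x y, d (g x) (g y) = d x y) (x : X)
    (hx : d x (g x) + (4 * δ + 5) ≤ d x (g (g x))) (k : ℕ) : k ≤ d x (g^[k] x) := by
  have hit : ∀ k, ∀ u v, d (g^[k] u) (g^[k] v) = d u v := by
    intro k
    induction k with
    | zero => intro u v; rfl
    | succ k ih =>
      intro u v
      rw [Function.iterate_succ_apply, Function.iterate_succ_apply, ih, hg]
  have key : ∀ k, d x (g^[k] x) + 1 ≤ d x (g^[k + 1] x) := by
    intro k
    induction k with
    | zero =>
      have h1 := h.tri x (g x) (g (g x))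
      have h2 := hg x (g x)
      have h3 := h.self x
      simp only [Function.iterate_zero, id_eq, Nat.zero_add, Function.iterate_one]
      omega
    | succ k ih =>
      have h1 := fourpt h hδ x (g^[k] x) (g^[k + 1] x) (g^[k + 2] x)
      have h2 : d (g^[k] x) (g^[k + 2] x) = d x (g (g x)) := by
        rw [Function.iterate_add_apply g k 2, hit]
        rfl
      have h3 : d (g^[k + 1] x) (g^[k + 2] x) = d x (g x) := by
        rw [show k + 2 = (k + 1) + 1 from rfl, Function.iterate_add_apply g (k + 1) 1, hit]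
        rfl
      have h4 : d (g^[k] x) (g^[k + 1] x) = d x (g x) := by
        rw [Function.iterate_add_apply g k 1, hit]
        rfl
      rw [h2, h3, h4] at h1
      rw [show k + 1 + 1 = k + 2 from rfl]
      rcases le_total (d x (g^[k] x) + d x (g x)) (d x (g^[k + 2] x) + d x (g x)) with h5 | h5
      · rw [max_eq_right h5] at h1
        omega
      · rw [max_eq_left h5] at h1
        omega
  induction k with
  | zero => exact Nat.zero_le _
  | succ k ih => exact (Nat.succ_le_succ ih).trans (key k)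

end Pool.Agent.Lib.MP_f1646b_al
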