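import Pool.Agent.Lib.MP_f1646b_al.Betw

/-!
Graph metrics: the distance of a connected graph is an integer valued geodesic metric, and a left
invariant connected locally finite graph on a group gives a proper metric.
-/

set_option autoImplicit false

namespace Pool.Agent.Lib.MP_f1646b_al

open scoped Pointwise

theorem isGeo_dist {V : Type*} (Γ : SimpleGraph V) (h : Γ.Connected) : IsGeo Γ.dist where
  self := fun _ => SimpleGraph.dist_self
  eq_of := fun _ _ hxy => h.dist_eq_zero_iff.1 hxy
  symm := fun _ _ => SimpleGraph.dist_comm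
  tri := fun _ _ _ => h.dist_triangle
  geo := by
    intro x y i hi
    obtain ⟨p, hp⟩ := h.exists_walk_length_eq_dist x y
    have h1 := SimpleGraph.dist_le (p.take i)
    have h2 := SimpleGraph.dist_le (p.drop i)
    have h3 : (p.take i).length ≤ i := by
      rw [SimpleGraph.Walk.take_length]; exact min_le_left _ _
    have h4 : (p.drop i).length = Γ.dist x y - i := by
      rw [SimpleGraph.Walk.drop_length, hp]
    have h5 := h.dist_triangle (u := x) (v := p.getVert i) (w := y)
    exact ⟨p.getVert i, by omega, by omega⟩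

/-- a left invariant connected locally finite graph on a group gives a proper metric -/
theorem fin_balls {G : Type*} [Group G] (Γ : SimpleGraph G) (h : Γ.Connected)
    (hinv : ∀ g x y, Γ.Adj x y → Γ.Adj (g * x) (g * y)) (hfin : {x | Γ.Adj 1 x}.Finite) :
    (∀ g x y, Γ.dist (g * x) (g * y) = Γ.dist x y) ∧ ∀ r, {g : G | Γ.dist 1 g ≤ r}.Finite := by
  have hle : ∀ g x y, Γ.dist (g * x) (g * y) ≤ Γ.dist x y := by
    intro g x y
    obtain ⟨p, hp⟩ := h.exists_walk_length_eq_dist x y
    let f : Γ →g Γ := ⟨fun z => g * z, fun {a b} hab => hinv g a b hab⟩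
    have h1 := SimpleGraph.dist_le (p.map f)
    rw [SimpleGraph.Walk.length_map, hp] at h1
    exact h1
  have heq : ∀ g x y, Γ.dist (g * x) (g * y) = Γ.dist x y := by
    intro g x y
    refine le_antisymm (hle g x y) ?_
    have := hle g⁻¹ (g * x) (g * y)
    simpa using this
  refine ⟨heq, ?_⟩
  intro r
  induction r with
  | zero =>
    refine (Set.finite_singleton (1 : G)).subset ?_
    intro g hg
    have : Γ.dist 1 g = 0 := Nat.le_zero.1 hg
    exact (h.dist_eq_zero_iff.1 this).symm
  | succ r ih =>
    refine (((ih.mul hfin).union (Set.finite_singleton (1 : G)))).subset ?_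
    intro g hg
    by_cases hg1 : g = 1
    · exact Or.inr hg1
    left
    have hpos : 0 < Γ.dist 1 g := h.pos_dist_of_ne (Ne.symm hg1)
    have hg' : Γ.dist 1 g ≤ r + 1 := hg
    obtain ⟨w, hw1, hw2⟩ := (isGeo_dist Γ h).geo 1 g (Γ.dist 1 g - 1) (by omega)
    have hw3 : Γ.dist w g = 1 := by omega
    have hadj : Γ.Adj w g := SimpleGraph.dist_eq_one_iff_adj.1 hw3
    refine Set.mem_mul.2 ⟨w, ?_, w⁻¹ * g, ?_, by group⟩
    · show Γ.dist 1 w ≤ r
      omega
    · have := hinv w⁻¹ w g hadj
      rwa [inv_mul_cancel] at this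

end Pool.Agent.Lib.MP_f1646b_al
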