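import Pool.Agent.Lib.MP_f1646b_al.P01

/-!
# P02: the guessing geodesics criterion
-/

set_option autoImplicit false

namespace Pool.Agent.Lib.MP_f1646b_al

namespace P02

variable {X : Type*} {d : X → X → ℕ}

theorem geoPath_sub {γ : ℕ → X} {x y : X} (hγ : GeoPath d γ x y) {a b : ℕ} (hab : a ≤ b)
    (hb : b ≤ d x y) :
    d (γ a) (γ b) = b - a ∧ GeoPath d (fun i => γ (a + i)) (γ a) (γ b) := by
  have h1 : d (γ a) (γ b) = b - a := hγ.2.2 a b hab hb
  refine ⟨h1, rfl, ?_, ?_⟩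
  · show γ (a + d (γ a) (γ b)) = γ b
    rw [h1]; congr 1; omega
  · intro i j hij hj
    rw [h1] at hj
    show d (γ (a + i)) (γ (a + j)) = j - i
    rw [hγ.2.2 (a + i) (a + j) (by omega) (by omega)]
    omega

theorem geoPath_left {γ : ℕ → X} {x y : X} (hγ : GeoPath d γ x y) {b : ℕ} (hb : b ≤ d x y) :
    d x (γ b) = b ∧ GeoPath d γ x (γ b) := by
  have h := geoPath_sub hγ (Nat.zero_le b) hb
  rw [hγ.1, Nat.sub_zero] at h
  refine ⟨h.1, ?_⟩
  have h2 := h.2
  have e : (fun i => γ (0 + i)) = γ := by funext i; rw [Nat.zero_add]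
  rwa [e] at h2

theorem geoPath_right {γ : ℕ → X} {x y : X} (hγ : GeoPath d γ x y) {a : ℕ} (ha : a ≤ d x y) :
    d (γ a) y = d x y - a ∧ GeoPath d (fun i => γ (a + i)) (γ a) y := by
  have h := geoPath_sub hγ ha (le_refl _)
  rw [hγ.2.1] at h
  exact h

/-- (1) the logarithmic bound -/
theorem log_bound (hg : IsGeo d) (L : X → X → Set X) (h : ℕ)
    (h1 : ∀ x y z, ∀ w ∈ L x y, ∃ v, (v ∈ L x z ∨ v ∈ L z y) ∧ d w v ≤ h)
    (h2 : ∀ x y, d x y ≤ 1 → ∀ w ∈ L x y, d x w ≤ h) (D : ℕ) :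
    ∀ x y, d x y = D → ∀ w ∈ L x y, ∀ γ, GeoPath d γ x y →
      ∃ i ≤ d x y, d w (γ i) ≤ h * (Nat.clog 2 D + 1) := by
  induction D using Nat.strong_induction_on with
  | _ D ih =>
    intro x y hD w hw γ hγ
    by_cases hD1 : D ≤ 1
    · refine ⟨0, Nat.zero_le _, ?_⟩
      rw [hγ.1, hg.symm w x]
      have := h2 x y (by omega) w hw
      calc d x w ≤ h := this
        _ ≤ h * (Nat.clog 2 D + 1) := Nat.le_mul_of_pos_right _ (Nat.succ_pos _)
    · have hD2 : 2 ≤ D := by omega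
      have hclog : Nat.clog 2 D = Nat.clog 2 ((D + 1) / 2) + 1 := by
        rw [Nat.clog_of_two_le (by norm_num) hD2, show D + 2 - 1 = D + 1 by omega]
      set k := (D + 1) / 2 with hk
      have hkD : k < D := by omega
      have hkD' : k ≤ d x y := by omega
      obtain ⟨v, hv, hwv⟩ := h1 x y (γ k) w hw
      rcases hv with hv | hv
      · have hl := geoPath_left hγ hkD'
        obtain ⟨i, hi, hiv⟩ := ih k hkD x (γ k) hl.1 v hv γ hl.2
        rw [hl.1] at hi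
        refine ⟨i, by omega, ?_⟩
        calc d w (γ i) ≤ d w v + d v (γ i) := hg.tri _ _ _
          _ ≤ h + h * (Nat.clog 2 k + 1) := by omega
          _ = h * (Nat.clog 2 D + 1) := by rw [hclog]; ring
      · have hr := geoPath_right hγ hkD'
        obtain ⟨i, hi, hiv⟩ := ih (D - k) (by omega) (γ k) y (by rw [hr.1, hD]) v hv _ hr.2
        rw [hr.1] at hi
        refine ⟨k + i, by omega, ?_⟩
        have hmono : Nat.clog 2 (D - k) ≤ Nat.clog 2 k := Nat.clog_mono_right 2 (by omega)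
        calc d w (γ (k + i)) ≤ d w v + d v (γ (k + i)) := hg.tri _ _ _
          _ ≤ h + h * (Nat.clog 2 (D - k) + 1) := by
              have : d v (γ (k + i)) ≤ h * (Nat.clog 2 (D - k) + 1) := hiv
              omega
          _ ≤ h + h * (Nat.clog 2 k + 1) := by
              have := Nat.mul_le_mul_left h (Nat.add_le_add_right hmono 1)
              omega
          _ = h * (Nat.clog 2 D + 1) := by rw [hclog]; ring

/-- the threshold -/
theorem exists_T0 (h : ℕ) : ∃ T0, 3 * h + 1 ≤ T0 ∧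
    ∀ t, T0 < t → 2 * h + h * (Nat.clog 2 (8 * t) + 1) < t := by
  refine ⟨h * (14 * h + 8) + 3 * h + 1, by nlinarith, fun t ht => ?_⟩
  set s := Nat.clog 2 (8 * t) with hs
  have ht0 : 0 < t := by omega
  by_cases hcase : s ≤ 14 * h + 5
  · have : h * (s + 3) ≤ h * (14 * h + 8) := Nat.mul_le_mul_left h (by omega)
    nlinarith
  · push Not at hcase
    have h3 : 2 ^ (s - 1) < 8 * t := by
      have := Nat.pow_pred_clog_lt_self (b := 2) (by norm_num) (x := 8 * t) (by omega)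
      rwa [← hs] at this
    set a := (s - 4) / 2 with ha
    set b := s - 4 - a with hb
    have hsab : s - 1 = a + b + 3 := by omega
    have hba : a ≤ b := by omega
    have ha7 : 7 * h ≤ a := by omega
    have h4 : 7 * h ≤ 2 ^ a := ha7.trans (Nat.lt_two_pow_self).le
    have h5 : b + 1 ≤ 2 ^ b := Nat.lt_two_pow_self
    have h6 : s + 3 ≤ 7 * (b + 1) := by omega
    have h7 : h * (s + 3) ≤ 2 ^ a * 2 ^ b := by
      calc h * (s + 3) ≤ h * (7 * (b + 1)) := Nat.mul_le_mul_left h h6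
        _ = (7 * h) * (b + 1) := by ring
        _ ≤ 2 ^ a * 2 ^ b := Nat.mul_le_mul h4 h5
    have h8 : 2 ^ (s - 1) = 8 * (2 ^ a * 2 ^ b) := by
      rw [hsab, pow_add, pow_add]; ring
    rw [h8] at h3
    have h9 : 2 ^ a * 2 ^ b < t := by omega
    have h10 : 2 * h + h * (s + 1) = h * (s + 3) := by ring
    omega

/-- (2) the uniform bound -/
theorem uniform_bound (hg : IsGeo d) (L : X → X → Set X) (h : ℕ)
    (h1 : ∀ x y z, ∀ w ∈ L x y, ∃ v, (v ∈ L x z ∨ v ∈ L z y) ∧ d w v ≤ h)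
    (h2 : ∀ x y, d x y ≤ 1 → ∀ w ∈ L x y, d x w ≤ h) {T0 : ℕ} (hT0 : 3 * h + 1 ≤ T0)
    (hT : ∀ t, T0 < t → 2 * h + h * (Nat.clog 2 (8 * t) + 1) < t)
    (x y : X) (w : X) (hw : w ∈ L x y) (γ : ℕ → X) (hγ : GeoPath d γ x y) :
    ∃ i ≤ d x y, d w (γ i) ≤ T0 := by
  classical
  by_contra hcon
  push Not at hcon
  set D := d x y with hD
  -- the property there is a configuration at distance at least `t`
  let Q : ℕ → Prop := fun t => ∃ (x' y' : X) (w' : X) (γ' : ℕ → X), d x' y' ≤ D ∧ w' ∈ L x' y' ∧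
    GeoPath d γ' x' y' ∧ ∀ i ≤ d x' y', t ≤ d w' (γ' i)
  set B := h * (Nat.clog 2 D + 1) with hB
  have hQB : ∀ t, Q t → t ≤ B := by
    rintro t ⟨x', y', w', γ', hd, hw', hγ', hall⟩
    obtain ⟨i, hi, hiw⟩ := log_bound hg L h h1 h2 (d x' y') x' y' rfl w' hw' γ' hγ'
    have := hall i hi
    have hmono : Nat.clog 2 (d x' y') ≤ Nat.clog 2 D := Nat.clog_mono_right 2 hd
    have h3 := Nat.mul_le_mul_left h (Nat.add_le_add_right hmono 1)
    omega
  have hQ0 : Q (T0 + 1) := ⟨x, y, w, γ, le_refl _, hw, hγ, fun i hi => hcon i hi⟩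
  set t := Nat.findGreatest Q B with ht
  have hQt : Q t := Nat.findGreatest_spec (hQB _ hQ0) hQ0
  have htT : T0 < t := Nat.le_findGreatest (hQB _ hQ0) hQ0
  have hnot : ¬ Q (t + 1) := by
    intro hQ1
    have := Nat.le_findGreatest (hQB _ hQ1) hQ1
    omega
  -- maximality
  have hmax : ∀ (x' y' : X) (w' : X) (γ' : ℕ → X), d x' y' ≤ D → w' ∈ L x' y' →
      GeoPath d γ' x' y' → ∃ i ≤ d x' y', d w' (γ' i) ≤ t := by
    intro x' y' w' γ' hd hw' hγ'
    by_contra hc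
    push Not at hc
    exact hnot ⟨x', y', w', γ', hd, hw', hγ', fun i hi => hc i hi⟩
  obtain ⟨x', y', w', γ', hd, hw', hγ', hall⟩ := hQt
  obtain ⟨r, hr, hrt⟩ := hmax x' y' w' γ' hd hw' hγ'
  have htt := hT t htT
  set p := r - 4 * t with hp
  set q := min (d x' y') (r + 4 * t) with hq
  have hpr : p ≤ r := by omega
  have hrq : r ≤ q := by omega
  have hqD : q ≤ d x' y' := by omega
  have hpD : p ≤ d x' y' := by omega
  have hpq : p ≤ q := by omega
  -- distances between points on the path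
  have hdist : ∀ i j, i ≤ j → j ≤ d x' y' → d (γ' i) (γ' j) = j - i := hγ'.2.2
  obtain ⟨v, hv, hwv⟩ := h1 x' y' (γ' p) w' hw'
  rcases hv with hv | hv
  · -- v ∈ L x' (γ' p)
    have hl := geoPath_left hγ' hpD
    by_cases hp0 : p = 0
    · have e : γ' p = x' := by rw [hp0]; exact hγ'.1
      have h3 : d x' v ≤ h := h2 x' (γ' p) (by rw [hl.1, hp0]; omega) v hv
      have h4 := hall 0 (Nat.zero_le _)
      rw [hγ'.1] at h4
      have h5 := hg.tri w' v x'
      have h6 := hg.symm v x'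
      omega
    · obtain ⟨i, hi, hiv⟩ := hmax x' (γ' p) v γ' (by rw [hl.1]; omega) hv hl.2
      rw [hl.1] at hi
      have h3 := hdist i r (by omega) hr
      have h4 := hg.tri (γ' i) w' (γ' r)
      have h5 := hg.tri (γ' i) v w'
      have h6 := hg.symm v w'
      have h7 := hg.symm (γ' i) v
      omega
  · obtain ⟨v2, hv2, hvv2⟩ := h1 (γ' p) y' (γ' q) v hv
    rcases hv2 with hv2 | hv2
    · -- the middle part
      have hm := geoPath_sub hγ' hpq hqD
      obtain ⟨i, hi, hiv⟩ := log_bound hg L h h1 h2 (d (γ' p) (γ' q)) (γ' p) (γ' q) rfl v2 hv2 _ hm.2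
      rw [hm.1] at hi hiv
      have hmono : Nat.clog 2 (q - p) ≤ Nat.clog 2 (8 * t) := Nat.clog_mono_right 2 (by omega)
      have h3 := Nat.mul_le_mul_left h (Nat.add_le_add_right hmono 1)
      have h4 := hall (p + i) (by omega)
      have h5 := hg.tri w' v (γ' (p + i))
      have h6 := hg.tri v v2 (γ' (p + i))
      have h7 : d v2 (γ' (p + i)) ≤ h * (Nat.clog 2 (q - p) + 1) := hiv
      omega
    · -- v2 ∈ L (γ' q) y'
      have hrr := geoPath_right hγ' hqD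
      by_cases hqe : q = d x' y'
      · have e : γ' q = y' := by rw [hqe]; exact hγ'.2.1
        have h3 : d (γ' q) v2 ≤ h := h2 (γ' q) y' (by rw [hrr.1, hqe]; omega) v2 hv2
        have h4 := hall q hqD
        have h5 := hg.tri w' v (γ' q)
        have h6 := hg.tri v v2 (γ' q)
        have h7 := hg.symm v2 (γ' q)
        omega
      · obtain ⟨i, hi, hiv⟩ := hmax (γ' q) y' v2 _ (by rw [hrr.1]; omega) hv2 hrr.2
        rw [hrr.1] at hi
        have hiv' : d v2 (γ' (q + i)) ≤ t := hiv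
        have h3 := hdist r (q + i) (by omega) (by omega)
        have h4 := hg.tri (γ' r) w' (γ' (q + i))
        have h5 := hg.tri w' v (γ' (q + i))
        have h6 := hg.tri v v2 (γ' (q + i))
        have h7 := hg.symm (γ' r) w'
        omega

/-- (3) geodesics are near `L` -/
theorem near_L (hg : IsGeo d) (L : X → X → Set X)
    (h3 : ∀ x y, ∃ (m : ℕ) (p : ℕ → X), p 0 = x ∧ p m = y ∧ (∀ i ≤ m, p i ∈ L x y) ∧
      ∀ i < m, d (p i) (p (i + 1)) ≤ 1) {T0 : ℕ}
    (hub : ∀ x y, ∀ w ∈ L x y, ∀ γ, GeoPath d γ x y → ∃ i ≤ d x y, d w (γ i) ≤ T0)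
    (x y : X) (γ : ℕ → X) (hγ : GeoPath d γ x y) (i : ℕ) (hi : i ≤ d x y) :
    ∃ u ∈ L x y, d (γ i) u ≤ 3 * T0 + 1 := by
  classical
  obtain ⟨m, p, hp0, hpm, hpL, hstep⟩ := h3 x y
  -- the set of indices `j` such that some `k ≥ i` has `d (p j) (γ k) ≤ T0`
  have hex : ∃ j, j ≤ m ∧ ∃ k, i ≤ k ∧ k ≤ d x y ∧ d (p j) (γ k) ≤ T0 := by
    refine ⟨m, le_refl _, d x y, hi, le_refl _, ?_⟩
    rw [hpm, hγ.2.1, hg.self]
    exact Nat.zero_le _
  obtain ⟨hjm, k, hik, hkD, hjk⟩ := Nat.find_spec hex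
  set j := Nat.find hex with hj
  by_cases hj0 : j = 0
  · -- `p 0 = x`
    rw [hj0, hp0] at hjk
    have h4 := geoPath_left hγ hkD
    have h5 := hγ.2.2 i k hik hkD
    have h6 := (geoPath_left hγ hi).1
    refine ⟨p 0, hpL 0 (Nat.zero_le _), ?_⟩
    rw [hp0, hg.symm, h6]
    rw [h4.1] at hjk
    omega
  · have hjm' : j - 1 ≤ m := by omega
    obtain ⟨k', hk'D, hk'⟩ := hub x y (p (j - 1)) (hpL _ hjm') γ hγ
    have hk'i : k' < i := by
      by_contra hc
      push Not at hc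
      have := Nat.find_min hex (m := j - 1) (by omega)
      exact this ⟨hjm', k', hc, hk'D, hk'⟩
    have h4 := hstep (j - 1) (by omega)
    have e1 : j - 1 + 1 = j := by omega
    rw [e1] at h4
    have h5 := hγ.2.2 k' k (by omega) hkD
    have h6 := hγ.2.2 i k hik hkD
    have h7 := hg.tri (γ k') (p (j - 1)) (γ k)
    have h8 := hg.tri (p (j - 1)) (p j) (γ k)
    have h9 := hg.symm (γ k') (p (j - 1))
    have h10 := hg.tri (γ i) (γ k) (p j)
    have h11 := hg.symm (γ k) (p j)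
    exact ⟨p j, hpL j hjm, by omega⟩

end P02

/-! ### M1 : guessing geodesics -/

theorem guess {X : Type*} (d : X → X → ℕ) (hg : IsGeo d) (L : X → X → Set X) (h : ℕ)
    (h1 : ∀ x y z, ∀ w ∈ L x y, ∃ v, (v ∈ L x z ∨ v ∈ L z y) ∧ d w v ≤ h)
    (h2 : ∀ x y, d x y ≤ 1 → ∀ w ∈ L x y, d x w ≤ h)
    (h3 : ∀ x y, ∃ (m : ℕ) (p : ℕ → X), p 0 = x ∧ p m = y ∧ (∀ i ≤ m, p i ∈ L x y) ∧
      ∀ i < m, d (p i) (p (i + 1)) ≤ 1) :
    ∃ T, (∀ x y, ∀ w ∈ L x y, ∀ γ, GeoPath d γ x y → ∃ i ≤ d x y, d w (γ i) ≤ T) ∧ Hyp d T := by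
  obtain ⟨T0, hT0, hT⟩ := P02.exists_T0 h
  have hub : ∀ x y, ∀ w ∈ L x y, ∀ γ, GeoPath d γ x y → ∃ i ≤ d x y, d w (γ i) ≤ T0 :=
    fun x y w hw γ hγ => P02.uniform_bound hg L h h1 h2 hT0 hT x y w hw γ hγ
  refine ⟨4 * T0 + 1 + h, ?_, ?_⟩
  · intro x y w hw γ hγ
    obtain ⟨i, hi, hiw⟩ := hub x y w hw γ hγ
    exact ⟨i, hi, by omega⟩
  · intro x y z w hw
    obtain ⟨γ, hγ, hγw⟩ := exists_geoPath hg x y w hw
    have hdw : d x w ≤ d x y := by unfold Btw at hw; omega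
    obtain ⟨u, hu, hwu⟩ := P02.near_L hg L h3 hub x y γ hγ (d x w) hdw
    rw [hγw] at hwu
    obtain ⟨v, hv, huv⟩ := h1 x y z u hu
    have hfin : ∀ a b, v ∈ L a b → ∃ v', Btw d a v' b ∧ d v v' ≤ T0 := by
      intro a b hvab
      obtain ⟨γ', hγ', _⟩ := exists_geoPath hg a b a (btw_left hg a b)
      obtain ⟨i, hi, hiv⟩ := hub a b v hvab γ' hγ'
      refine ⟨γ' i, ?_, hiv⟩
      have h4 := (P02.geoPath_left hγ' hi).1
      have h5 := (P02.geoPath_right hγ' hi).1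
      unfold Btw
      omega
    rcases hv with hv | hv
    · obtain ⟨v', hv', hvv'⟩ := hfin x z hv
      refine ⟨v', Or.inl hv', ?_⟩
      have h4 := hg.tri w u v'
      have h5 := hg.tri u v v'
      omega
    · obtain ⟨v', hv', hvv'⟩ := hfin z y hv
      refine ⟨v', Or.inr hv', ?_⟩
      have h4 := hg.tri w u v'
      have h5 := hg.tri u v v'
      omega

end Pool.Agent.Lib.MP_f1646b_al
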