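import Pool.Agent.Lib.MP_f1646b_al.P12a

/-!
Peak reduction (piece P12b).
-/

set_option autoImplicit false

namespace Pool.Agent.Lib.MP_f1646b_al

namespace P12b

variable {G X : Type*} [Group G] [MulAction G X] {d : X → X → ℕ} {S : Set X}
  {α : X → X → X → ℕ} {θ n : ℕ} {R : X → Subgroup G}

theorem mu_lt_of_eq {x y y' : X} (h1 : d x y' = d x y)
    (h2 : Psi S α θ x y' < Psi S α θ x y) : mu d S α θ x y' < mu d S α θ x y := by
  unfold mu
  rw [Prod.Lex.toLex_lt_toLex]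
  exact Or.inr ⟨h1, h2⟩

theorem mu_lt_of_lt {x y y' : X} (h1 : d x y' < d x y) :
    mu d S α θ x y' < mu d S α θ x y := by
  unfold mu
  rw [Prod.Lex.toLex_lt_toLex]
  exact Or.inl h1

theorem psi_lt_of {x y y' : X} (h1 : d x y' = d x y)
    (h2 : mu d S α θ x y' < mu d S α θ x y) : Psi S α θ x y' < Psi S α θ x y := by
  unfold mu at h2
  rw [Prod.Lex.toLex_lt_toLex] at h2
  rcases h2 with h2 | h2
  · omega
  · exact h2.2

theorem psi_le_of {x y y' : X} (h1 : d x y' = d x y)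
    (h2 : mu d S α θ x y' ≤ mu d S α θ x y) : Psi S α θ x y' ≤ Psi S α θ x y := by
  unfold mu at h2
  rw [Prod.Lex.toLex_le_toLex] at h2
  rcases h2 with h2 | h2
  · omega
  · exact h2.2

theorem fixinv (h : RotFam G d S α θ n R) {s : X} (hs : s ∈ S) {ρ : G} (hρ : ρ ∈ R s) :
    ρ⁻¹ • s = s := h.fix s hs _ ((R s).inv_mem hρ)

theorem smul_ne (h : RotFam G d S α θ n R) {s y : X} (hs : s ∈ S) {ρ : G} (hρ : ρ ∈ R s)
    (hy : y ≠ s) : ρ • y ≠ s := by
  intro hc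
  apply hy
  have h1 : ρ • y = ρ • s := by rw [hc, h.fix s hs ρ hρ]
  exact smul_left_cancel ρ h1

/-- `2n ≤ α s x y + α s x (ρ y)` -/
theorem two_n_le (h : RotFam G d S α θ n R) {x y s : X} (hs : s ∈ S) (hx : s ≠ x) (hy : s ≠ y)
    {ρ : G} (hρ : ρ ∈ R s) (hρ1 : ρ ≠ 1) : 2 * n ≤ α s x y + α s x (ρ • y) := by
  have h1 := h.big s hs ρ hρ hρ1 y hy.symm
  have h2 := h.act.cas.a_tri s hs y x (ρ • y) hy.symm hx.symm (smul_ne h hs hρ hy.symm)
  have h3 := h.act.cas.a_symm s hs y x hy.symm hx.symm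
  omega

/-- strict decrease of the angle decreases the measure -/
theorem mu_lt_of_angle (h : RotFam G d S α θ n R) {x y s : X} (hs : s ∈ S) (hx : s ≠ x)
    (hy : s ≠ y) {ρ : G} (hρ : ρ ∈ R s) (h1 : 2 * θ < α s x y)
    (h2 : α s x (ρ • y) < α s x y) : mu d S α θ x (ρ • y) < mu d S α θ x y := by
  have hbs : s ∈ BigSet S α θ x y := ⟨hs, hx, hy, h1⟩
  by_cases h3 : 2 * θ < α s x (ρ • y)
  · obtain ⟨h4, h5, -, -⟩ := nonfold h x y s hbs ρ hρ h3
    exact mu_lt_of_eq h4 (by omega)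
  · refine fold h x y s hbs ρ hρ ?_ (by omega)
    rintro rfl
    rw [one_smul] at h2
    exact lt_irrefl _ h2

/-- (F1b) -/
theorem mu_lt_of_not_big (h : RotFam G d S α θ n R) {x y s : X} (hs : s ∈ S) (hx : s ≠ x)
    (hy : s ≠ y) {ρ : G} (hρ : ρ ∈ R s) (hρ1 : ρ ≠ 1) (h1 : ¬ 2 * θ < α s x y) :
    mu d S α θ x y < mu d S α θ x (ρ • y) := by
  have h2 := two_n_le h hs hx hy hρ hρ1
  have h3 := h.large
  have h4 : (ρ • y) ≠ s := smul_ne h hs hρ hy.symm
  have h5 := fold h x (ρ • y) s ⟨hs, hx, h4.symm, by omega⟩ ρ⁻¹ ((R s).inv_mem hρ)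
    (inv_ne_one.2 hρ1) (by rw [inv_smul_smul]; omega)
  rwa [inv_smul_smul] at h5

/-- (F1c) -/
theorem mu_eq_of_eq (h : RotFam G d S α θ n R) {x y : X} (hs : x ∈ S) {ρ : G} (hρ : ρ ∈ R x) :
    mu d S α θ x (ρ • y) = mu d S α θ x y := by
  have h1 := mu_inv h.act ρ x y
  rwa [h.fix x hs ρ hρ] at h1

/-- non-strict version -/
theorem big_of_le (h : RotFam G d S α θ n R) {x y s : X} (hs : s ∈ S) (hx : s ≠ x)
    (hy : s ≠ y) {ρ : G} (hρ : ρ ∈ R s) (hρ1 : ρ ≠ 1)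
    (h1 : mu d S α θ x (ρ • y) ≤ mu d S α θ x y) :
    s ∈ BigSet S α θ x y ∧ α s x (ρ • y) ≤ α s x y := by
  have h2 : 2 * θ < α s x y := by
    by_contra hc
    exact absurd (mu_lt_of_not_big h hs hx hy hρ hρ1 hc) (not_lt.2 h1)
  have hbs : s ∈ BigSet S α θ x y := ⟨hs, hx, hy, h2⟩
  refine ⟨hbs, ?_⟩
  by_contra hc
  push Not at hc
  obtain ⟨h4, h5, -, -⟩ := nonfold h x y s hbs ρ hρ (by omega)
  have h6 := psi_le_of h4 h1
  omega

/-- (F1) -/
theorem big_of_lt (h : RotFam G d S α θ n R) {x y s : X} (hs : s ∈ S) {ρ : G} (hρ : ρ ∈ R s)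
    (h1 : mu d S α θ x (ρ • y) < mu d S α θ x y) :
    s ∈ BigSet S α θ x y ∧ ρ ≠ 1 ∧ α s x (ρ • y) < α s x y ∧ n ≤ α s x y := by
  have hx : s ≠ x := by
    rintro rfl
    rw [mu_eq_of_eq h hs hρ] at h1
    exact lt_irrefl _ h1
  have hy : s ≠ y := by
    rintro rfl
    rw [h.fix s hs ρ hρ] at h1
    exact lt_irrefl _ h1
  have hρ1 : ρ ≠ 1 := by
    rintro rfl
    rw [one_smul] at h1
    exact lt_irrefl _ h1
  obtain ⟨hbs, h2⟩ := big_of_le h hs hx hy hρ hρ1 h1.le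
  have h3 := two_n_le h hs hx hy hρ hρ1
  have h4 : α s x (ρ • y) < α s x y := by
    rcases lt_or_eq_of_le h2 with h4 | h4
    · exact h4
    · exfalso
      obtain ⟨h5, h6, -, -⟩ := nonfold h x y s hbs ρ hρ (by rw [h4]; exact hbs.2.2.2)
      have h7 := psi_lt_of h5 h1
      omega
  exact ⟨hbs, hρ1, h4, by omega⟩

theorem ainv (h : RotFam G d S α θ n R) {a s u v : X} (hs : s ∈ S) {ρ : G}
    (hu : u ≠ s) (hv : v ≠ s) (ha : ρ • s = a) : α a (ρ • u) (ρ • v) = α s u v := by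
  rw [← ha]
  exact h.act.a_inv ρ s hs u v hu hv

/-- (F2) -/
theorem f2 (h : RotFam G d S α θ n R) {x y a b : X} (ha : a ∈ BigSet S α θ x y)
    (hb : b ∈ BigSet S α θ x y) (hab : a ≠ b) (hxab : Btw d x a b) {ρa ρb : G}
    (hρa : ρa ∈ R a) (hρb : ρb ∈ R b) (h1 : mu d S α θ x (ρa • y) ≤ mu d S α θ x y)
    (h2 : mu d S α θ x (ρb • y) ≤ mu d S α θ x y)
    (h12 : mu d S α θ x (ρa • y) < mu d S α θ x y ∨ mu d S α θ x (ρb • y) < mu d S α θ x y) :
    mu d S α θ x (ρa • ρb • y) < mu d S α θ x y := by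
  by_cases hρa1 : ρa = 1
  · subst hρa1
    rw [one_smul] at h12 ⊢
    rcases h12 with h3 | h3
    · exact absurd h3 (lt_irrefl _)
    · exact h3
  by_cases hρb1 : ρb = 1
  · subst hρb1
    rw [one_smul] at h12 ⊢
    rcases h12 with h3 | h3
    · exact h3
    · exact absurd h3 (lt_irrefl _)
  obtain ⟨haS, hax, hay, haθ⟩ := ha
  obtain ⟨hbS, hbx, hby, hbθ⟩ := hb
  have ha : a ∈ BigSet S α θ x y := ⟨haS, hax, hay, haθ⟩
  have hb : b ∈ BigSet S α θ x y := ⟨hbS, hbx, hby, hbθ⟩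
  have hc := h.act.cas
  have hg := hc.geo
  have hL := h.large
  have hxby : Btw d x b y := hc.k1 b hbS x y hbx.symm hby.symm (by omega)
  have hxay : Btw d x a y := hc.k1 a haS x y hax.symm hay.symm (by omega)
  obtain ⟨hbax, haby⟩ := pair_lemma hc a b x y haS hbS hab hax hay hbx hby hxab hxby (by omega)
  have haby : α a b y = 0 := haby (by omega)
  have haya : a ≠ ρa • y := (smul_ne h haS hρa hay.symm).symm
  have hbyb : b ≠ ρb • y := (smul_ne h hbS hρb hby.symm).symm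
  have hfa : ρa • a = a := h.fix a haS ρa hρa
  have hfb : ρb • b = b := h.fix b hbS ρb hρb
  -- the angles
  have hA : α a x (ρa • y) ≤ α a x y ∧
      (mu d S α θ x (ρa • y) < mu d S α θ x y → α a x (ρa • y) < α a x y) :=
    ⟨(big_of_le h haS hax hay hρa hρa1 h1).2, fun h3 => (big_of_lt h haS hρa h3).2.2.1⟩
  have hB : α b x (ρb • y) ≤ α b x y ∧
      (mu d S α θ x (ρb • y) < mu d S α θ x y → α b x (ρb • y) < α b x y) :=
    ⟨(big_of_le h hbS hbx hby hρb hρb1 h2).2, fun h3 => (big_of_lt h hbS hρb h3).2.2.1⟩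
  have hA2 := two_n_le h haS hax hay hρa hρa1
  have hB2 := two_n_le h hbS hbx hby hρb hρb1
  have hbxa : α b x a = 0 := by rw [hc.a_symm b hbS x a hbx.symm hab]; exact hbax
  by_cases hB' : 2 * θ < α b x (ρb • y)
  · -- Case 1
    obtain ⟨h3, h4, h5, -⟩ := nonfold h x y b hb ρb hρb hB'
    obtain ⟨h6, h7⟩ := h5 a ha hab hxab
    have h8 : a ≠ ρb • y := h6.2.2.1
    have h9 := hc.a_tri b hbS x a (ρb • y) hbx.symm hab hbyb.symm
    have h10 : α a b (ρb • y) = 0 :=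
      hc.k2 a haS b hbS (ρb • y) hab h8.symm hbyb.symm (by omega)
    have hab' : ρa • b ≠ a := smul_ne h haS hρa hab.symm
    have haq : ρa • ρb • y ≠ a := smul_ne h haS hρa h8.symm
    -- α a b' q = 0
    have h11 : α a (ρa • b) (ρa • ρb • y) = 0 := by
      rw [ainv h haS hab.symm h8.symm hfa]; exact h10
    have h12' : α a (ρa • b) (ρa • y) = 0 := by
      rw [ainv h haS hab.symm hay.symm hfa]; exact haby
    have h13 : α a x (ρa • ρb • y) = α a x (ρa • y) := by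
      have e1 := hc.a_tri a haS x (ρa • y) (ρa • b) hax.symm haya.symm hab'
      have e2 := hc.a_tri a haS x (ρa • b) (ρa • ρb • y) hax.symm hab' haq
      have e3 := hc.a_tri a haS x (ρa • b) (ρa • y) hax.symm hab' haya.symm
      have e4 := hc.a_tri a haS x (ρa • ρb • y) (ρa • b) hax.symm haq hab'
      have e5 := hc.a_symm a haS (ρa • y) (ρa • b) haya.symm hab'
      have e6 := hc.a_symm a haS (ρa • ρb • y) (ρa • b) haq hab'
      omega
    by_cases hA' : 2 * θ < α a x (ρa • y)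
    · obtain ⟨h14, h15, -, -⟩ := nonfold h x (ρb • y) a h6 ρa hρa (by rw [h13]; exact hA')
      apply mu_lt_of_eq (by omega)
      rw [h13, h7] at h15
      rcases h12 with h16 | h16
      · have := hA.2 h16
        have := hB.1
        omega
      · have := hB.2 h16
        have := hA.1
        omega
    · exact lt_of_lt_of_le (fold h x (ρb • y) a h6 ρa hρa hρa1 (by rw [h13]; omega)) h2
  · by_cases hayb : a = ρb • y
    · rw [← hayb, hfa]
      apply mu_lt_of_lt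
      have e1 := dist_pos_of_ne hg hay
      unfold Btw at hxay
      omega
    have hbayb : α b a (ρb • y) ≤ α b x (ρb • y) := by
      have e1 := hc.a_tri b hbS a x (ρb • y) hab hbx.symm hbyb.symm
      omega
    have hbS' : ρa • b ∈ S := h.act.inS ρa b hbS
    have hρ' : ρa * ρb * ρa⁻¹ ∈ R (ρa • b) := h.conj ρa b hbS ρb hρb
    have hρ'1 : ρa * ρb * ρa⁻¹ ≠ 1 := by
      intro hcon
      apply hρb1
      have e1 : ρb = ρa⁻¹ * (ρa * ρb * ρa⁻¹) * ρa := by group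
      rw [e1, hcon]; group
    have hq : (ρa * ρb * ρa⁻¹) • ρa • y = ρa • ρb • y := by
      rw [smul_smul, smul_smul]; congr 1; group
    have hb'a : ρa • b ≠ a := smul_ne h haS hρa hab.symm
    have hb'q : ρa • ρb • y ≠ ρa • b := fun hcon => hbyb (smul_left_cancel ρa hcon).symm
    have hb'y : ρa • y ≠ ρa • b := fun hcon => hby (smul_left_cancel ρa hcon).symm
    have e1 : α (ρa • b) a (ρa • ρb • y) = α b a (ρb • y) := by
      have := ainv h hbS (ρ := ρa) hab hbyb.symm rfl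
      rwa [hfa] at this
    by_cases hA' : 2 * θ < α a x (ρa • y)
    · -- Case 2
      obtain ⟨h3, h4, -, h5⟩ := nonfold h x y a ha ρa hρa hA'
      obtain ⟨h6, h7, h8⟩ := h5 b hb hab.symm (btw_T1 hg hxab hxby).2
      have e2 := hc.a_tri (ρa • b) hbS' x a (ρa • ρb • y) h6.2.1.symm hb'a.symm hb'q
      have e3 := hc.a_symm (ρa • b) hbS' x a h6.2.1.symm hb'a.symm
      have h9 := fold h x (ρa • y) (ρa • b) h6 _ hρ' hρ'1 (by rw [hq]; omega)
      rw [hq] at h9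
      exact lt_of_lt_of_le h9 h1
    · -- Case 3
      have hdab : d a (ρa • b) = d a b := by
        have := h.act.isom ρa a b
        rwa [hfa] at this
      have hdbq : d (ρa • b) (ρa • ρb • y) = d b y := by
        rw [h.act.isom]
        have := h.act.isom ρb b y
        rwa [hfb] at this
      have t1 := hg.tri x a (ρa • b)
      have t2 := hg.tri x (ρa • b) (ρa • ρb • y)
      by_cases hlt : d x (ρa • ρb • y) < d x y
      · exact mu_lt_of_lt hlt
      have h3 : Btw d x a (ρa • b) := by unfold Btw at *; omega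
      have h4 : Btw d x (ρa • b) (ρa • ρb • y) := by unfold Btw at *; omega
      have hb'x : ρa • b ≠ x := by
        intro hcon
        rw [hcon] at h3
        unfold Btw at h3
        rw [hg.self] at h3
        exact hax (hg.eq_of _ _ (by omega)).symm
      have h5 : α (ρa • b) x a ≤ θ := by
        apply hc.small hbS' hb'x.symm hb'a.symm
        intro hcon
        exact hb'a (btw_antisymm hg (h3.comm hg) (hcon.comm hg))
      have h6 : α (ρa • b) a (ρa • y) = α b a y := by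
        have := ainv h hbS (ρ := ρa) (a := ρa • b) hab hby.symm rfl
        rwa [hfa] at this
      have e2 := hc.a_tri b hbS x a y hbx.symm hab hby.symm
      have e3 := hc.a_tri (ρa • b) hbS' a x (ρa • y) hb'a.symm hb'x.symm hb'y
      have e4 := hc.a_symm (ρa • b) hbS' a x hb'a.symm hb'x.symm
      have e5 := hc.a_tri (ρa • b) hbS' x a (ρa • ρb • y) hb'x.symm hb'a.symm hb'q
      have h7 := mu_lt_of_angle h (x := x) (y := ρa • y) hbS' hb'x hb'y.symm hρ' (by omega)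
        (by rw [hq]; omega)
      rw [hq] at h7
      exact lt_trans h7 (fold h x y a ha ρa hρa hρa1 (by omega))

/-- adjacency by a rotation -/
def Adj (S : Set X) (R : X → Subgroup G) (u v : X) : Prop := ∃ s ∈ S, ∃ ρ ∈ R s, v = ρ • u

theorem Adj.symm {u v : X} (h : Adj S R u v) : Adj S R v u := by
  obtain ⟨s, hs, ρ, hρ, rfl⟩ := h
  exact ⟨s, hs, ρ⁻¹, (R s).inv_mem hρ, by rw [inv_smul_smul]⟩

/-- the last case of the peak lemma -/
theorem peak_aux (h : RotFam G d S α θ n R) {x g a b : X} (ha : a ∈ BigSet S α θ x g)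
    (hb : b ∈ BigSet S α θ x g) (hab : a ≠ b) (hxab : Btw d x a b) {ρa ρb : G}
    (hρa : ρa ∈ R a) (hρb : ρb ∈ R b) (h1 : mu d S α θ x (ρa • g) ≤ mu d S α θ x g)
    (h2 : mu d S α θ x (ρb • g) ≤ mu d S α θ x g)
    (h12 : mu d S α θ x (ρa • g) < mu d S α θ x g ∨ mu d S α θ x (ρb • g) < mu d S α θ x g) :
    ∃ q, Adj S R (ρa • g) q ∧ Adj S R (ρb • g) q ∧ mu d S α θ x q < mu d S α θ x g := by
  refine ⟨ρa • ρb • g, ?_, ⟨a, ha.1, ρa, hρa, rfl⟩, f2 h ha hb hab hxab hρa hρb h1 h2 h12⟩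
  refine ⟨ρa • b, h.act.inS ρa b hb.1, ρa * ρb * ρa⁻¹, h.conj ρa b hb.1 ρb hρb, ?_⟩
  rw [smul_smul, smul_smul]; congr 1; group

/-- PEAK LEMMA -/
theorem peak (h : RotFam G d S α θ n R) {x u g v : X} (hu : Adj S R u g) (hv : Adj S R g v)
    (h1 : mu d S α θ x u < mu d S α θ x g) (h2 : mu d S α θ x v ≤ mu d S α θ x g) :
    Adj S R u v ∨ ∃ q, Adj S R u q ∧ Adj S R q v ∧ mu d S α θ x q < mu d S α θ x g := by
  obtain ⟨s1, hs1, ρ1, hρ1, rfl⟩ := hu.symm
  obtain ⟨s2, hs2, ρ2, hρ2, rfl⟩ := hv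
  obtain ⟨hb1, hne1, -, -⟩ := big_of_lt h hs1 hρ1 h1
  by_cases h12 : s1 = s2
  · subst h12
    left
    exact ⟨s1, hs1, ρ2 * ρ1⁻¹, (R s1).mul_mem hρ2 ((R s1).inv_mem hρ1), by
      rw [smul_smul]; congr 1; group⟩
  by_cases hρ21 : ρ2 = 1
  · subst hρ21
    left
    rw [one_smul]; exact hu
  by_cases h2g : s2 = g
  · subst h2g
    left
    rw [h.fix s2 hs2 ρ2 hρ2]; exact hu
  by_cases h2x : s2 = x
  · subst h2x
    right
    refine ⟨ρ2 • ρ1 • g, ⟨s2, hs2, ρ2, hρ2, rfl⟩, ?_, ?_⟩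
    · apply Adj.symm
      refine ⟨ρ2 • s1, h.act.inS ρ2 s1 hs1, ρ2 * ρ1 * ρ2⁻¹, h.conj ρ2 s1 hs1 ρ1 hρ1, ?_⟩
      rw [smul_smul, smul_smul]; congr 1; group
    · rw [mu_eq_of_eq h hs2 hρ2]; exact h1
  right
  obtain ⟨hb2, -⟩ := big_of_le h hs2 h2x h2g hρ2 hρ21 h2
  have hc := h.act.cas
  have hg := hc.geo
  have hB1 : Btw d x s1 g := hc.k1 s1 hs1 x g hb1.2.1.symm hb1.2.2.1.symm (by
    have := hb1.2.2.2; omega)
  have hB2 : Btw d x s2 g := hc.k1 s2 hs2 x g hb2.2.1.symm hb2.2.2.1.symm (by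
    have := hb2.2.2.2; omega)
  rcases hc.k1' s1 hs1 x g s2 hb1.2.1.symm hb1.2.2.1.symm (by have := hb1.2.2.2; omega) hB2
    with h3 | h3
  · obtain ⟨q, h4, h5, h6⟩ := peak_aux h hb1 hb2 h12 h3 hρ1 hρ2 h1.le h2 (Or.inl h1)
    exact ⟨q, h4, h5.symm, h6⟩
  · have h4 : Btw d x s2 s1 := (btw_T1' hg h3 hB2).2
    obtain ⟨q, h5, h6, h7⟩ := peak_aux h hb2 hb1 (Ne.symm h12) h4 hρ2 hρ1 h2 h1.le (Or.inr h1)
    exact ⟨q, h6, h5.symm, h7⟩

/-- reachable from `x` by a path of rotations along which the measure strictly increases -/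
def Inc (d : X → X → ℕ) (S : Set X) (α : X → X → X → ℕ) (θ : ℕ) (R : X → Subgroup G)
    (x v : X) : Prop :=
  Relation.ReflTransGen (fun a b => Adj S R a b ∧ mu d S α θ x a < mu d S α θ x b) x v

theorem inc_step (h : RotFam G d S α θ n R) (x : X) : ∀ (m : ℕ ×ₗ ℕ) (u : X),
    mu d S α θ x u = m → Inc d S α θ R x u → ∀ v, Adj S R u v → Inc d S α θ R x v := by
  intro m
  induction m using WellFoundedLT.induction with
  | ind m ih =>
    rintro u rfl hu v huv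
    by_cases hlt : mu d S α θ x u < mu d S α θ x v
    · exact Relation.ReflTransGen.tail hu ⟨huv, hlt⟩
    · push Not at hlt
      rcases Relation.ReflTransGen.cases_tail hu with h1 | ⟨w, hw, hwu, hlt2⟩
      · subst h1
        have h2 : d u v = 0 := by
          by_contra hcon
          apply not_lt.2 hlt
          apply mu_lt_of_lt
          rw [h.act.cas.geo.self]; omega
        rw [← h.act.cas.geo.eq_of _ _ h2]
        exact Relation.ReflTransGen.refl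
      · rcases peak h hwu huv hlt2 hlt with h3 | ⟨q, h3, h4, h5⟩
        · exact ih _ hlt2 w rfl hw v h3
        · exact ih _ h5 q rfl (ih _ hlt2 w rfl hw q h3) v h4

theorem inc_closure (h : RotFam G d S α θ n R) (x : X) (g : G)
    (hg : g ∈ Subgroup.closure (⋃ s ∈ S, (R s : Set G))) :
    (∀ v, Inc d S α θ R x v → Inc d S α θ R x (g • v)) ∧
      ∀ v, Inc d S α θ R x v → Inc d S α θ R x (g⁻¹ • v) := by
  induction hg using Subgroup.closure_induction with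
  | mem g hg =>
    simp only [Set.mem_iUnion, SetLike.mem_coe] at hg
    obtain ⟨s, hs, hρ⟩ := hg
    exact ⟨fun v hv => inc_step h x _ v rfl hv _ ⟨s, hs, g, hρ, rfl⟩,
      fun v hv => inc_step h x _ v rfl hv _ ⟨s, hs, g⁻¹, (R s).inv_mem hρ, rfl⟩⟩
  | one => simp
  | mul g k _ _ ih1 ih2 =>
    refine ⟨fun v hv => ?_, fun v hv => ?_⟩
    · rw [mul_smul]; exact ih1.1 _ (ih2.1 _ hv)
    · rw [mul_inv_rev, mul_smul]; exact ih2.2 _ (ih1.2 _ hv)
  | inv g _ ih => rw [inv_inv]; exact ⟨ih.2, ih.1⟩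

end P12b

open P12b in
theorem wg {G X : Type*} [Group G] [MulAction G X] {d : X → X → ℕ} {S : Set X}
    {α : X → X → X → ℕ} {θ n : ℕ} {R : X → Subgroup G} (h : RotFam G d S α θ n R) :
    ∃ μ : X → X → ℕ ×ₗ ℕ,
      (∀ (g : G) x y, μ (g • x) (g • y) = μ x y) ∧
      (∀ x y, (ofLex (μ x y)).1 = d x y) ∧
      (∀ x y, ∀ s ∈ S, s ≠ x → s ≠ y → ∀ ρ ∈ R s, 2 * θ < α s x y →
        α s x (ρ • y) < α s x y → μ x (ρ • y) < μ x y) ∧
      ∀ x y, ∀ g ∈ Subgroup.closure (⋃ s ∈ S, (R s : Set G)), g • x = y → x ≠ y →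
        ∃ s ∈ S, s ≠ x ∧ s ≠ y ∧ n ≤ α s x y ∧
          ∃ ρ ∈ R s, α s x (ρ • y) < α s x y ∧ μ x (ρ • y) < μ x y := by
  refine ⟨mu d S α θ, fun g x y => mu_inv h.act g x y, fun x y => rfl,
    fun x y s hs hx hy ρ hρ h1 h2 => mu_lt_of_angle h hs hx hy hρ h1 h2, ?_⟩
  rintro x y g hg rfl hxy
  have h1 : Inc d S α θ R x (g • x) := (inc_closure h x g hg).1 x Relation.ReflTransGen.refl
  rcases Relation.ReflTransGen.cases_tail h1 with h2 | ⟨w, -, hw, hlt⟩
  · exact absurd h2.symm hxy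
  · obtain ⟨s, hs, ρ, hρ, hw⟩ := hw.symm
    rw [hw] at hlt
    obtain ⟨hb, -, h3, h4⟩ := big_of_lt h hs hρ hlt
    exact ⟨s, hs, hb.2.1, hb.2.2.1, h4, ρ, hρ, h3, hlt⟩

end Pool.Agent.Lib.MP_f1646b_al
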