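import Pool.Agent.Lib.MP_f1646b_al.P13a
import Pool.Agent.Lib.MP_f1646b_al.P12b

set_option autoImplicit false
set_option linter.unusedSectionVars false

namespace Pool.Agent.Lib.MP_f1646b_al

open scoped Pointwise

namespace P13b

/-- the quotient metric -/
noncomputable def qD {X Z : Type*} (d : X → X → ℕ) (π : X → Z) (a b : Z) : ℕ :=
  sInf {m | ∃ x y, π x = a ∧ π y = b ∧ d x y = m}

/-- the quotient angle -/
noncomputable def qB {X Z : Type*} (d : X → X → ℕ) (S : Set X) (α : X → X → X → ℕ) (π : X → Z)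
    (a b c : Z) : ℕ :=
  sInf {m | ∃ s x y, s ∈ S ∧ π s = a ∧ π x = b ∧ π y = c ∧ d s x = qD d π a b ∧
    d s y = qD d π a c ∧ α s x y = m}

section

variable {G X Z : Type*} [Group G] [MulAction G X] {d : X → X → ℕ}

theorem qD_le (π : X → Z) (x y : X) : qD d π (π x) (π y) ≤ d x y :=
  Nat.sInf_le ⟨x, y, rfl, rfl, rfl⟩

theorem qD_att {π : X → Z} (hs : Function.Surjective π) (a b : Z) :
    ∃ x y, π x = a ∧ π y = b ∧ d x y = qD d π a b := by
  obtain ⟨x, rfl⟩ := hs a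
  obtain ⟨y, rfl⟩ := hs b
  exact Nat.sInf_mem (s := {m | ∃ x' y', π x' = π x ∧ π y' = π y ∧ d x' y' = m})
    ⟨d x y, x, y, rfl, rfl, rfl⟩

variable {N : Subgroup G} {π : X → Z} (hd : IsGeo d) (hiso : ∀ (g : G) x y, d (g • x) (g • y) = d x y)
  (hsurj : Function.Surjective π) (hπ : ∀ x y, π x = π y ↔ ∃ g ∈ N, g • x = y)

include hπ in
theorem pi_smul {g : G} (hg : g ∈ N) (x : X) : π (g • x) = π x :=
  ((hπ x (g • x)).2 ⟨g, hg, rfl⟩).symm

include hiso hsurj hπ in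
theorem qD_lift (x : X) (b : Z) : ∃ y, π y = b ∧ d x y = qD d π (π x) b := by
  obtain ⟨x0, y0, h1, h2, h3⟩ := qD_att (d := d) hsurj (π x) b
  obtain ⟨g, hg, hgx⟩ := (hπ x0 x).1 h1
  refine ⟨g • y0, by rw [pi_smul hπ hg, h2], ?_⟩
  rw [← h3, ← hgx, hiso]

include hiso hsurj hπ in
theorem ngeo_iff (x y : X) : NGeo d N x y ↔ d x y = qD d π (π x) (π y) := by
  constructor
  · intro h
    obtain ⟨y', h1, h2⟩ := qD_lift hiso hsurj hπ x (π y)
    obtain ⟨g, hg, hgy⟩ := (hπ y y').1 h1.symm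
    have h3 := h g hg
    rw [hgy, h2] at h3
    exact le_antisymm h3 (qD_le π x y)
  · intro h g hg
    rw [h, ← pi_smul hπ hg y]
    exact qD_le π x _

include hd hiso hsurj hπ in
theorem qD_geo : IsGeo (qD d π) := by
  have hself : ∀ a, qD d π a a = 0 := by
    intro a
    obtain ⟨x, rfl⟩ := hsurj a
    have := qD_le (d := d) π x x
    rw [hd.self] at this
    omega
  have hsymm : ∀ a b, qD d π a b ≤ qD d π b a := by
    intro a b
    obtain ⟨x, rfl⟩ := hsurj b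
    obtain ⟨y, rfl, h2⟩ := qD_lift hiso hsurj hπ x a
    have h3 := qD_le (d := d) π y x
    rw [hd.symm y x, h2] at h3
    exact h3
  have htri : ∀ a b c, qD d π a c ≤ qD d π a b + qD d π b c := by
    intro a b c
    obtain ⟨x, rfl⟩ := hsurj a
    obtain ⟨y, rfl, h2⟩ := qD_lift hiso hsurj hπ x b
    obtain ⟨z, rfl, h3⟩ := qD_lift hiso hsurj hπ y c
    have h4 := qD_le (d := d) π x z
    have h5 := hd.tri x y z
    omega
  refine ⟨hself, ?_, fun a b => le_antisymm (hsymm a b) (hsymm b a), htri, ?_⟩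
  · intro a b h
    obtain ⟨x, rfl⟩ := hsurj a
    obtain ⟨y, rfl, h2⟩ := qD_lift hiso hsurj hπ x b
    rw [hd.eq_of x y (by omega)]
  · intro a b i hi
    obtain ⟨x, rfl⟩ := hsurj a
    obtain ⟨y, rfl, h2⟩ := qD_lift hiso hsurj hπ x b
    obtain ⟨w, h3, h4⟩ := hd.geo x y i (by omega)
    refine ⟨π w, ?_, ?_⟩
    · have h5 := qD_le (d := d) π x w
      have h6 := qD_le (d := d) π w y
      have h7 := htri (π x) (π w) (π y)
      omega
    · have h5 := qD_le (d := d) π x w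
      have h6 := qD_le (d := d) π w y
      have h7 := htri (π x) (π w) (π y)
      omega

include hd hiso hsurj hπ in
theorem sub {x w y : X} (h : d x y = qD d π (π x) (π y)) (hw : Btw d x w y) :
    d x w = qD d π (π x) (π w) ∧ d w y = qD d π (π w) (π y) ∧
      Btw (qD d π) (π x) (π w) (π y) := by
  have h1 := (qD_geo hd hiso hsurj hπ).tri (π x) (π w) (π y)
  have h2 := qD_le (d := d) π x w
  have h3 := qD_le (d := d) π w y
  unfold Btw at *
  refine ⟨by omega, by omega, by omega⟩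

end

section

variable {G X Z : Type*} [Group G] [MulAction G X] {d : X → X → ℕ} {S : Set X}
    {α : X → X → X → ℕ} {θ n : ℕ} {R : X → Subgroup G} (h : RotFam G d S α θ n R)
    (N : Subgroup G) [N.Normal] (hN : N = Subgroup.closure (⋃ s ∈ S, (R s : Set G)))
    {π : X → Z} (hsurj : Function.Surjective π)
    (hπ : ∀ x y, π x = π y ↔ ∃ g ∈ N, g • x = y)

include h hN hsurj hπ

theorem poly (k : ℕ) (hk : k ≤ 5) (c : ℕ → Z) (hc : c k = c 0) (x0 : X) (hx0 : π x0 = c 0) :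
    ∃ x' : ℕ → X, x' 0 = x0 ∧ x' k = x0 ∧ (∀ i ≤ k, π (x' i) = c i) ∧
      ∀ i < k, d (x' i) (x' (i + 1)) = qD d π (c i) (c (i + 1)) := by
  have hl := qD_lift (d := d) h.act.isom hsurj hπ
  choose f hf1 hf2 using hl
  let x : ℕ → X := fun i => Nat.rec x0 (fun j y => f y (c (j + 1))) i
  have hx : ∀ i, π (x i) = c i := by
    intro i
    induction i with
    | zero => exact hx0
    | succ i _ => exact hf1 _ _
  have hxd : ∀ i, d (x i) (x (i + 1)) = qD d π (c i) (c (i + 1)) := by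
    intro i
    have := hf2 (x i) (c (i + 1))
    rw [hx i] at this
    exact this
  obtain ⟨x', h1, h2, h3, h4, -⟩ := closing h N hN k hk x
    (fun i _ => (ngeo_iff h.act.isom hsurj hπ _ _).2
      ((hxd i).trans (congrArg₂ (qD d π) (hx i).symm (hx (i + 1)).symm)))
    (by
      obtain ⟨g, hg, hgx⟩ := (hπ (x 0) (x k)).1 (((hx 0).trans hc.symm).trans (hx k).symm)
      exact ⟨g, hg, hgx.symm⟩)
  refine ⟨x', h1, h2, fun i hi => ?_, fun i hi => ?_⟩
  · obtain ⟨g, hg, hgx⟩ := h3 i hi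
    rw [hgx, pi_smul hπ hg, hx]
  · rw [(h4 i hi).2, hxd]

theorem poly3 (x : X) (b c : Z) : ∃ y z, π y = b ∧ π z = c ∧ d x y = qD d π (π x) b ∧
    d y z = qD d π b c ∧ d z x = qD d π c (π x) := by
  obtain ⟨x', h1, h2, h3, h4⟩ := poly h N hN hsurj hπ 3 (by norm_num)
    (fun i => if i = 1 then b else if i = 2 then c else π x) (by simp) x (by simp)
  have a1 := h3 1 (by norm_num)
  have a2 := h3 2 (by norm_num)
  have b0 := h4 0 (by norm_num)
  have b1 := h4 1 (by norm_num)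
  have b2 := h4 2 (by norm_num)
  simp only [h1] at b0
  simp only [h2] at b2
  norm_num at a1 a2 b0 b1 b2
  exact ⟨x' 1, x' 2, a1, a2, b0, b1, b2⟩

theorem poly4 (x : X) (b c e : Z) : ∃ y z w, π y = b ∧ π z = c ∧ π w = e ∧
    d x y = qD d π (π x) b ∧ d y z = qD d π b c ∧ d z w = qD d π c e ∧
    d w x = qD d π e (π x) := by
  obtain ⟨x', h1, h2, h3, h4⟩ := poly h N hN hsurj hπ 4 (by norm_num)
    (fun i => if i = 1 then b else if i = 2 then c else if i = 3 then e else π x) (by simp) x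
    (by simp)
  have a1 := h3 1 (by norm_num)
  have a2 := h3 2 (by norm_num)
  have a3 := h3 3 (by norm_num)
  have b0 := h4 0 (by norm_num)
  have b1 := h4 1 (by norm_num)
  have b2 := h4 2 (by norm_num)
  have b3 := h4 3 (by norm_num)
  simp only [h1] at b0
  norm_num at a1 a2 a3 b0 b1 b2 b3
  rw [h2] at b3
  exact ⟨x' 1, x' 2, x' 3, a1, a2, a3, b0, b1, b2, b3⟩

theorem R_le : ∀ s ∈ S, ∀ ρ ∈ R s, ρ ∈ N := by
  intro s hs ρ hρ
  rw [hN]
  exact Subgroup.subset_closure (Set.mem_biUnion hs hρ)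

omit [N.Normal] hN h in
theorem qB_le {s x y : X} (hs : s ∈ S) (hx : d s x = qD d π (π s) (π x))
    (hy : d s y = qD d π (π s) (π y)) : qB d S α π (π s) (π x) (π y) ≤ α s x y :=
  Nat.sInf_le ⟨s, x, y, hs, rfl, rfl, rfl, hx, hy, rfl⟩

theorem qB_att {s : X} (hs : s ∈ S) {b c : Z} (hb : b ≠ π s) (hc : c ≠ π s) :
    ∃ x y, π x = b ∧ π y = c ∧ d s x = qD d π (π s) b ∧ d s y = qD d π (π s) c ∧
      x ≠ s ∧ y ≠ s ∧ α s x y = qB d S α π (π s) b c := by
  have hne : {m | ∃ s' x y, s' ∈ S ∧ π s' = π s ∧ π x = b ∧ π y = c ∧ d s' x = qD d π (π s) b ∧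
    d s' y = qD d π (π s) c ∧ α s' x y = m}.Nonempty := by
    obtain ⟨x, h1, h2⟩ := qD_lift (d := d) h.act.isom hsurj hπ s b
    obtain ⟨y, h3, h4⟩ := qD_lift (d := d) h.act.isom hsurj hπ s c
    exact ⟨α s x y, s, x, y, hs, rfl, h1, h3, h2, h4, rfl⟩
  obtain ⟨s', x', y', hs', h1, h2, h3, h4, h5, h6⟩ := Nat.sInf_mem hne
  obtain ⟨g, hg, rfl⟩ := (hπ s' s).1 h1
  have hx' : x' ≠ s' := fun hh => hb (by rw [← h2, hh, h1])
  have hy' : y' ≠ s' := fun hh => hc (by rw [← h3, hh, h1])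
  refine ⟨g • x', g • y', by rw [pi_smul hπ hg, h2], by rw [pi_smul hπ hg, h3], ?_, ?_, ?_, ?_, ?_⟩
  · rw [h.act.isom, h4]
  · rw [h.act.isom, h5]
  · intro hh; exact hx' (smul_left_cancel g hh)
  · intro hh; exact hy' (smul_left_cancel g hh)
  · rw [h.act.a_inv g s' hs' x' y' hx' hy', h6]; rfl

/-- rotations at `s` preserve angles at `s` -/
theorem rot_inv {s : X} (hs : s ∈ S) {ρ : G} (hρ : ρ ∈ R s) {x y : X} (hx : x ≠ s) (hy : y ≠ s) :
    α s (ρ • x) (ρ • y) = α s x y := by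
  have := h.act.a_inv ρ s hs x y hx hy
  rwa [h.fix s hs ρ hρ] at this

theorem rot_ne {s : X} (hs : s ∈ S) {ρ : G} (hρ : ρ ∈ R s) {x : X} (hx : x ≠ s) : ρ • x ≠ s := by
  intro hh
  have h1 := h.fix s hs ρ hρ
  rw [← h1] at hh
  exact hx (smul_left_cancel ρ hh)

theorem rot_dist {s : X} (hs : s ∈ S) {ρ : G} (hρ : ρ ∈ R s) (x : X) : d s (ρ • x) = d s x := by
  have := h.act.isom ρ s x
  rwa [h.fix s hs ρ hρ] at this

theorem q1_second {s x y : X} (hs : s ∈ S) (hsx : s ≠ x) (hsy : s ≠ y)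
    (hx : d s x = qD d π (π s) (π x)) (hy : d s y = qD d π (π s) (π y)) :
    ∃ ρ ∈ R s, α s x (ρ • y) ≤ qB d S α π (π s) (π x) (π y) + 8 * θ := by
  have hc := h.act.cas
  have hgeo := qD_geo hc.geo h.act.isom hsurj hπ
  have hne : ∀ z, s ≠ z → d s z = qD d π (π s) (π z) → π z ≠ π s := by
    intro z hz hz' hh
    rw [hh, hgeo.self] at hz'
    exact hz (hc.geo.eq_of _ _ hz')
  obtain ⟨x1, y1, e1, e2, e3, e4, hx1, hy1, e5⟩ :=
    qB_att h N hN hsurj hπ hs (hne x hsx hx) (hne y hsy hy)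
  have ng := ngeo_iff (d := d) h.act.isom hsurj hπ
  obtain ⟨ρ1, hρ1, h1⟩ := dir h N hN s x1 x hs hx1 ((ng _ _).2 (by rw [e3, e1]))
    ((ng _ _).2 hx) (by
      obtain ⟨g, hg, hh⟩ := (hπ x1 x).1 e1
      exact ⟨g, hg, hh.symm⟩)
  obtain ⟨ρ2, hρ2, h2⟩ := dir h N hN s y1 y hs hy1 ((ng _ _).2 (by rw [e4, e2]))
    ((ng _ _).2 hy) (by
      obtain ⟨g, hg, hh⟩ := (hπ y1 y).1 e2
      exact ⟨g, hg, hh.symm⟩)
  refine ⟨ρ1 * ρ2⁻¹, (R s).mul_mem hρ1 ((R s).inv_mem hρ2), ?_⟩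
  have hρ2' := (R s).inv_mem hρ2
  have hy2 : ρ2⁻¹ • y ≠ s := rot_ne h N hN hsurj hπ hs hρ2' hsy.symm
  have t1 := hc.a_tri s hs x (ρ1 • x1) ((ρ1 * ρ2⁻¹) • y) hsx.symm
    (rot_ne h N hN hsurj hπ hs hρ1 hx1) (rot_ne h N hN hsurj hπ hs ((R s).mul_mem hρ1 hρ2')
      hsy.symm)
  have t2 : α s (ρ1 • x1) ((ρ1 * ρ2⁻¹) • y) = α s x1 (ρ2⁻¹ • y) := by
    rw [mul_smul]
    exact rot_inv h N hN hsurj hπ hs hρ1 hx1 hy2
  have t3 := hc.a_tri s hs x1 y1 (ρ2⁻¹ • y) hx1 hy1 hy2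
  have t4 : α s y1 (ρ2⁻¹ • y) = α s (ρ2 • y1) y := by
    have := rot_inv h N hN hsurj hπ hs hρ2 hy1 hy2
    rw [smul_inv_smul] at this
    exact this.symm
  have t5 := hc.a_symm s hs (ρ2 • y1) y (rot_ne h N hN hsurj hπ hs hρ2 hy1) hsy.symm
  omega

theorem qAct [MulAction (G ⧸ N) Z] (hequiv : ∀ (g : G) x, π (g • x) = (g : G ⧸ N) • π x) :
    ActCAS (G ⧸ N) (qD d π) (π '' S) (qB d S α π) θ (4 * θ) := by
  have hc := h.act.cas
  have hgeo := qD_geo hc.geo h.act.isom hsurj hπ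
  have ng := ngeo_iff (d := d) h.act.isom hsurj hπ
  have hlift := qD_lift (d := d) h.act.isom hsurj hπ
  have hatt := fun {s : X} (hs : s ∈ S) {b c : Z} => qB_att h N hN hsurj hπ hs (b := b) (c := c)
  have hle := fun {s x y : X} (hs : s ∈ S) => qB_le (d := d) (α := α) N hsurj hπ hs (x := x) (y := y)
  have hsub := fun {x w y : X} => sub hc.geo h.act.isom hsurj hπ (x := x) (w := w) (y := y)
  refine ⟨⟨hgeo, ?_, ?_, ?_, ?_, ?_, ?_, ?_, ?_⟩, ?_, ?_, ?_⟩
  · -- nadj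
    rintro _ ⟨s, hs, rfl⟩ _ ⟨t, ht, rfl⟩
    obtain ⟨y, h1, h2⟩ := hlift s (π t)
    obtain ⟨g, hg, rfl⟩ := (hπ t y).1 h1.symm
    rw [← h2]
    exact hc.nadj s hs _ (h.act.inS g t ht)
  · -- a_self
    rintro _ ⟨s, hs, rfl⟩ b hb
    obtain ⟨y, rfl, h2⟩ := hlift s b
    have hy : y ≠ s := fun hh => hb (by rw [hh])
    have h3 := hle hs h2 h2
    rw [hc.a_self s hs y hy] at h3
    omega
  · -- a_symm
    have key : ∀ s ∈ S, ∀ x y, x ≠ π s → y ≠ π s →
        qB d S α π (π s) x y ≤ qB d S α π (π s) y x := by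
      intro s hs x y hx hy
      obtain ⟨y1, x1, e1, e2, e3, e4, hy1, hx1, e5⟩ := hatt hs hy hx
      subst e1 e2
      have h3 := hle hs e4 e3
      rw [← e5, hc.a_symm s hs y1 x1 hy1 hx1]
      exact h3
    rintro _ ⟨s, hs, rfl⟩ x y hx hy
    exact le_antisymm (key s hs x y hx hy) (key s hs y x hy hx)
  · -- a_tri
    rintro _ ⟨s, hs, rfl⟩ x y z hx hy hz
    obtain ⟨x0, y0, e1, e2, e3, e4, hx0, hy0, e5⟩ := hatt hs hx hy
    obtain ⟨y1, z1, f1, f2, f3, f4, hy1, hz1, f5⟩ := hatt hs hy hz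
    obtain ⟨ρ, hρ, h1⟩ := dir h N hN s y1 y0 hs hy1 ((ng _ _).2 (by rw [f3, f1]))
      ((ng _ _).2 (by rw [e4, e2])) (by
        obtain ⟨g, hg, hh⟩ := (hπ y1 y0).1 (by rw [f1, e2])
        exact ⟨g, hg, hh.symm⟩)
    have hρN := R_le h N hN hsurj hπ s hs ρ hρ
    have hz2 := rot_ne h N hN hsurj hπ hs hρ hz1
    have hy2 := rot_ne h N hN hsurj hπ hs hρ hy1
    have t1 := hc.a_tri s hs x0 y0 (ρ • z1) hx0 hy0 hz2
    have t2 := hc.a_tri s hs y0 (ρ • y1) (ρ • z1) hy0 hy2 hz2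
    have t3 := rot_inv h N hN hsurj hπ hs hρ hy1 hz1
    have t4 := hle (x := x0) (y := ρ • z1) hs (by rw [e3, e1])
      (by rw [rot_dist h N hN hsurj hπ hs hρ, f4, pi_smul hπ hρN, f2])
    rw [pi_smul hπ hρN, e1, f2] at t4
    omega
  · -- k1
    rintro _ ⟨s, hs, rfl⟩ x y hx hy hlt
    obtain ⟨x0, y0, rfl, rfl, e1, e2, e3⟩ := poly3 h N hN hsurj hπ s x y
    have hx0 : x0 ≠ s := fun hh => hx (by rw [hh])
    have hy0 : y0 ≠ s := fun hh => hy (by rw [hh])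
    have h1 := hle hs e1 (by rw [hc.geo.symm, e3, hgeo.symm])
    exact (hsub e2 (hc.k1 s hs x0 y0 hx0 hy0 (by omega))).2.2
  · -- k1'
    rintro _ ⟨s, hs, rfl⟩ x y w hx hy hlt hw
    obtain ⟨x0, w0, y0, rfl, rfl, rfl, e1, e2, e3, e4⟩ := poly4 h N hN hsurj hπ s x w y
    have hx0 : x0 ≠ s := fun hh => hx (by rw [hh])
    have hy0 : y0 ≠ s := fun hh => hy (by rw [hh])
    have h1 := hle hs e1 (by rw [hc.geo.symm, e4, hgeo.symm])
    have h2 : Btw d x0 w0 y0 := by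
      have h3 := hc.geo.tri x0 w0 y0
      have h4 := qD_le (d := d) π x0 y0
      unfold Btw at *
      omega
    rcases hc.k1' s hs x0 y0 w0 hx0 hy0 (by omega) h2 with h5 | h5
    · exact Or.inl (hsub e2 h5).2.2
    · exact Or.inr (hsub e3 h5).2.2
  · -- k2
    rintro _ ⟨s, hs, rfl⟩ _ ⟨t', ht', rfl⟩ x hst hxs hxt hlt
    obtain ⟨t, x0, e0, rfl, e1, e2, e3⟩ := poly3 h N hN hsurj hπ s (π t') x
    have ht : t ∈ S := by
      obtain ⟨g, hg, rfl⟩ := (hπ t' t).1 e0.symm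
      exact h.act.inS g t' ht'
    rw [← e0] at hst hxt hlt e1 e2 ⊢
    have h1 : s ≠ t := fun hh => hst (by rw [hh])
    have h2 : x0 ≠ s := fun hh => hxs (by rw [hh])
    have h3 : x0 ≠ t := fun hh => hxt (by rw [hh])
    have h4 := hle ht (x := s) (y := x0) (by rw [hc.geo.symm, e1, hgeo.symm]) e2
    have h5 := hc.k2 s hs t ht x0 h1 h2 h3 (by omega)
    have h6 := hle hs (x := t) (y := x0) e1 (by rw [hc.geo.symm, e3, hgeo.symm])
    omega
  · -- k3
    rintro _ ⟨s, hs, rfl⟩ w x hw hx hb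
    obtain ⟨w0, rfl, e1⟩ := hlift s w
    obtain ⟨x0, rfl, e2⟩ := hlift w0 x
    have hw0 : w0 ≠ s := fun hh => hw (by rw [hh])
    have hx0 : x0 ≠ s := fun hh => hx (by rw [hh])
    have h3 := hc.geo.tri s w0 x0
    have h4 := qD_le (d := d) π s x0
    have h5 : Btw d s w0 x0 := by unfold Btw at *; omega
    have h6 := hc.k3 s hs w0 x0 hw0 hx0 h5
    have h7 := hle hs (x := w0) (y := x0) e1 (by unfold Btw at *; omega)
    omega
  · -- isom
    have key : ∀ (g : G) a b, qD d π ((g : G ⧸ N) • a) ((g : G ⧸ N) • b) ≤ qD d π a b := by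
      intro g a b
      obtain ⟨x, rfl⟩ := hsurj a
      obtain ⟨y, rfl, h2⟩ := hlift x b
      rw [← hequiv, ← hequiv, ← h2, ← h.act.isom g x y]
      exact qD_le π _ _
    intro q a b
    obtain ⟨g, rfl⟩ := QuotientGroup.mk_surjective q
    refine le_antisymm (key g a b) ?_
    have := key g⁻¹ ((g : G ⧸ N) • a) ((g : G ⧸ N) • b)
    rwa [QuotientGroup.mk_inv, inv_smul_smul, inv_smul_smul] at this
  · -- inS
    rintro q _ ⟨s, hs, rfl⟩
    obtain ⟨g, rfl⟩ := QuotientGroup.mk_surjective q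
    exact ⟨g • s, h.act.inS g s hs, hequiv g s⟩
  · -- a_inv
    have key : ∀ (g : G), ∀ s ∈ S, ∀ x y, x ≠ π s → y ≠ π s →
        qB d S α π ((g : G ⧸ N) • π s) ((g : G ⧸ N) • x) ((g : G ⧸ N) • y) ≤
          qB d S α π (π s) x y := by
      intro g s hs x y hx hy
      obtain ⟨x1, y1, e1, e2, e3, e4, hx1, hy1, e5⟩ := hatt hs hx hy
      subst e1 e2
      have hisq : ∀ a b, qD d π (π (g • a)) (π (g • b)) ≥ qD d π (π a) (π b) := by
        intro a b
        obtain ⟨z, h6, h7⟩ := hlift (g • a) (π (g • b))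
        rw [← h7]
        have h8 : d (g • a) z = d a (g⁻¹ • z) := by
          rw [← h.act.isom g a (g⁻¹ • z), smul_inv_smul]
        rw [h8]
        have h9 : π (g⁻¹ • z) = π b := by
          rw [hequiv, h6, hequiv, QuotientGroup.mk_inv, inv_smul_smul]
        rw [← h9]
        exact qD_le π _ _
      have e6 : d (g • s) (g • x1) = qD d π (π (g • s)) (π (g • x1)) := by
        refine le_antisymm ?_ (qD_le π _ _)
        rw [h.act.isom, e3]
        exact hisq _ _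
      have e7 : d (g • s) (g • y1) = qD d π (π (g • s)) (π (g • y1)) := by
        refine le_antisymm ?_ (qD_le π _ _)
        rw [h.act.isom, e4]
        exact hisq _ _
      have h3 := hle (h.act.inS g s hs) e6 e7
      rw [h.act.a_inv g s hs x1 y1 hx1 hy1, e5, hequiv, hequiv, hequiv] at h3
      exact h3
    rintro q _ ⟨s, hs, rfl⟩ x y hx hy
    obtain ⟨g, rfl⟩ := QuotientGroup.mk_surjective q
    refine le_antisymm (key g s hs x y hx hy) ?_
    have hx' : (g : G ⧸ N) • x ≠ π (g • s) := by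
      rw [hequiv]; intro hh; exact hx (smul_left_cancel _ hh)
    have hy' : (g : G ⧸ N) • y ≠ π (g • s) := by
      rw [hequiv]; intro hh; exact hy (smul_left_cancel _ hh)
    have h1 := key g⁻¹ (g • s) (h.act.inS g s hs) _ _ hx' hy'
    rwa [hequiv, QuotientGroup.mk_inv, inv_smul_smul, inv_smul_smul, inv_smul_smul] at h1

end

end P13b

open P13b

theorem exists_quotPkg {G X Z : Type*} [Group G] [MulAction G X] {d : X → X → ℕ} {S : Set X}
    {α : X → X → X → ℕ} {θ n : ℕ} {R : X → Subgroup G} (h : RotFam G d S α θ n R)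
    (N : Subgroup G) [N.Normal] (hN : N = Subgroup.closure (⋃ s ∈ S, (R s : Set G)))
    [MulAction (G ⧸ N) Z] (π : X → Z) (hsurj : Function.Surjective π)
    (hπ : ∀ x y, π x = π y ↔ ∃ g ∈ N, g • x = y)
    (hequiv : ∀ (g : G) x, π (g • x) = (g : G ⧸ N) • π x) :
    ∃ D β, QuotPkg d S α θ n R N π D β := by
  have hc := h.act.cas
  have hgeo := qD_geo hc.geo h.act.isom hsurj hπ
  have hlift := qD_lift (d := d) h.act.isom hsurj hπ
  have hsub := fun {x w y : X} => sub hc.geo h.act.isom hsurj hπ (x := x) (w := w) (y := y)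
  obtain ⟨μ, w1, w2, w3, w4⟩ := wg h
  refine ⟨qD d π, qB d S α π, qAct h N hN hsurj hπ hequiv, ?_, qD_le π, hlift, ?_, ?_, ?_⟩
  · -- hyp
    intro δ hδ a b c w hw
    obtain ⟨x, rfl⟩ := hsurj a
    obtain ⟨y, z, u, rfl, rfl, rfl, e1, e2, e3, e4⟩ := poly4 h N hN hsurj hπ x w b c
    have h2 : Btw d x y z := by
      have h3 := hc.geo.tri x y z
      have h4 := qD_le (d := d) π x z
      unfold Btw at *
      omega
    obtain ⟨v, hv, hv'⟩ := hδ x z u y h2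
    have e5 : d x u = qD d π (π x) (π u) := by rw [hc.geo.symm, e4, hgeo.symm]
    have e6 : d u z = qD d π (π u) (π z) := by rw [hc.geo.symm, e3, hgeo.symm]
    refine ⟨π v, ?_, le_trans (qD_le π _ _) hv'⟩
    rcases hv with hv | hv
    · exact Or.inl (hsub e5 hv).2.2
    · exact Or.inr (hsub e6 hv).2.2
  · -- q1
    intro s hs x y hsx hsy hx hy
    refine ⟨fun ρ hρ => ?_, q1_second h N hN hsurj hπ hs hsx hsy hx hy⟩
    have hρN := R_le h N hN hsurj hπ s hs ρ hρ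
    have h1 := qB_le (α := α) N hsurj hπ hs (x := x) (y := ρ • y) hx
      (by rw [rot_dist h N hN hsurj hπ hs hρ, hy, pi_smul hπ hρN])
    rwa [pi_smul hπ hρN] at h1
  · -- q2
    intro x b
    have hne : {y | π y = b ∧ d x y = qD d π (π x) b}.Nonempty := hlift x b
    obtain ⟨y, ⟨hy1, hy2⟩, hmin⟩ : ∃ y ∈ {y | π y = b ∧ d x y = qD d π (π x) b},
        ∀ y' ∈ {y | π y = b ∧ d x y = qD d π (π x) b}, ¬ μ x y' < μ x y := by
      have hwf : WellFounded (fun y y' : X => μ x y < μ x y') := InvImage.wf (μ x) wellFounded_lt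
      exact ⟨hwf.min _ hne, hwf.min_mem _ hne, fun y' hy' => hwf.not_lt_min _ hy'⟩
    refine ⟨y, hy1, hy2, fun s hs hsx hsy => ?_⟩
    by_contra hcon
    rw [not_le] at hcon
    subst hy1
    have h1 := hc.k1 s hs x y hsx.symm hsy.symm (by omega)
    obtain ⟨h2, h3, -⟩ := hsub hy2 h1
    obtain ⟨ρ, hρ, h4⟩ := q1_second h N hN hsurj hπ hs hsx hsy
      (by rw [hc.geo.symm, h2, hgeo.symm]) h3
    have hρN := R_le h N hN hsurj hπ s hs ρ hρ
    refine hmin (ρ • y) ⟨pi_smul hπ hρN y, ?_⟩ (w3 x y s hs hsx hsy ρ hρ (by omega) (by omega))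
    have h5 := hc.geo.tri x s (ρ • y)
    rw [rot_dist h N hN hsurj hπ hs hρ] at h5
    have h6 := qD_le (d := d) π x (ρ • y)
    rw [pi_smul hπ hρN] at h6
    unfold Btw at h1
    omega
  · -- q3
    intro g hg x hgx
    obtain ⟨s, hs, h1, h2, h3, ρ, hρ, h4, -⟩ := w4 x (g • x) g (hN ▸ hg) rfl hgx.symm
    exact ⟨s, hs, h1, h2, h3, ρ, hρ, h4⟩

end Pool.Agent.Lib.MP_f1646b_al
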