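import Mathlib

set_option autoImplicit false

namespace Pool.Agent.Lib.MP_f1646b_al

open scoped Pointwise

/-- integer valued geodesic metric -/
structure IsGeo {X : Type*} (d : X → X → ℕ) : Prop where
  self : ∀ x, d x x = 0
  eq_of : ∀ x y, d x y = 0 → x = y
  symm : ∀ x y, d x y = d y x
  tri : ∀ x y z, d x z ≤ d x y + d y z
  geo : ∀ x y (i : ℕ), i ≤ d x y → ∃ w, d x w = i ∧ d w y = d x y - i

/-- `w` lies between `x` and `y` -/
def Btw {X : Type*} (d : X → X → ℕ) (x w y : X) : Prop := d x w + d w y = d x y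

/-- hyperbolicity: intervals are thin -/
def Hyp {X : Type*} (d : X → X → ℕ) (δ : ℕ) : Prop :=
  ∀ x y z w, Btw d x w y → ∃ v, (Btw d x v z ∨ Btw d z v y) ∧ d w v ≤ δ

/-- left invariant proper hyperbolic geodesic metric on a group -/
structure HypMet (G : Type*) [Group G] (d : G → G → ℕ) (δ : ℕ) : Prop where
  geo : IsGeo d
  inv : ∀ g x y, d (g * x) (g * y) = d x y
  fin : ∀ r, {g : G | d 1 g ≤ r}.Finite
  hyp : Hyp d δ

def IsHyp (G : Type*) [Group G] : Prop := ∃ d δ, HypMet G d δ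

/-- elementary closure of `y` -/
def ElemRel {G : Type*} [Group G] (y g : G) : Prop :=
  ∃ m : ℕ, 0 < m ∧ (g * y ^ m * g⁻¹ = y ^ m ∨ g * y ^ m * g⁻¹ = (y ^ m)⁻¹)

/-- infinite order -/
def InfOrd {G : Type*} [Group G] (y : G) : Prop := ∀ m : ℕ, 0 < m → y ^ m ≠ 1

/-- the conjugate of the frame `(w, w')` by some `g` is one of the three rotations of `(u, u')` -/
def FrEq {G : Type*} [Group G] (w w' u u' : G) : Prop :=
  ∃ g : G, (g * w * g⁻¹ = u ∧ g * w' * g⁻¹ = u') ∨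
    (g * w * g⁻¹ = u' ∧ g * w' * g⁻¹ = u * u') ∨
    (g * w * g⁻¹ = u * u' ∧ g * w' * g⁻¹ = u)

/-- a frame: an ordered pair of distinct commuting involutions -/
def Frame {G : Type*} [Group G] (w w' : G) : Prop :=
  w ^ 2 = 1 ∧ w' ^ 2 = 1 ∧ w * w' = w' * w ∧ w ≠ 1 ∧ w' ≠ 1 ∧ w ≠ w'

/-- the algebraic invariants -/
structure AInv (G : Type*) [Group G] : Prop where
  i1 : ∀ x : G, x ^ 4 = 1 → x ^ 2 = 1
  i2 : ∀ a b c : G, Frame a b → c ^ 2 = 1 → a * c = c * a → b * c = c * b →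
    c = 1 ∨ c = a ∨ c = b ∨ c = a * b
  i3 : ∀ w w' x : G, Frame w w' → x * w * x⁻¹ = w' → x * w' * x⁻¹ ≠ w
  i4 : ∀ f : G, f ≠ 1 → Odd (orderOf f) → {c : G | c * f = f * c}.Finite

/-- data describing the elementary subgroup `E` : it acts on the line `ℤ` by `t ↦ τ e + ε e * t` -/
structure EData {G : Type*} [Group G] (E : Subgroup G) (ε τ : G → ℤ) (y0 : G) : Prop where
  y0_mem : y0 ∈ E
  eps_sq : ∀ e ∈ E, ε e = 1 ∨ ε e = -1
  eps_mul : ∀ e ∈ E, ∀ f ∈ E, ε (e * f) = ε e * ε f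
  tau_mul : ∀ e ∈ E, ∀ f ∈ E, τ (e * f) = τ e + ε e * τ f
  eps_y0 : ε y0 = 1
  tau_y0 : τ y0 = 1
  ker_sq : ∀ k ∈ E, ε k = 1 → τ k = 0 → k ^ 2 = 1
  ker_fin : {k : G | k ∈ E ∧ ε k = 1 ∧ τ k = 0}.Finite
  refl_sq : ∀ r ∈ E, ε r = -1 → r ^ 2 = 1
  cube : ∀ k ∈ E, ε k = 1 → τ k = 0 → y0 ^ 3 * k = k * y0 ^ 3
  ori : ∀ k ∈ E, ∀ r ∈ E, ε k = 1 → τ k = 0 → k ≠ 1 → ε r = -1 → ¬ FrEq k r (r * y0) k

/-- a metric space with cut apices; `e` is the error in the triangle inequality of `α s` -/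
structure CAS {X : Type*} (d : X → X → ℕ) (S : Set X) (α : X → X → X → ℕ) (θ e : ℕ) : Prop where
  geo : IsGeo d
  nadj : ∀ s ∈ S, ∀ t ∈ S, d s t ≠ 1
  a_self : ∀ s ∈ S, ∀ x, x ≠ s → α s x x = 0
  a_symm : ∀ s ∈ S, ∀ x y, x ≠ s → y ≠ s → α s x y = α s y x
  a_tri : ∀ s ∈ S, ∀ x y z, x ≠ s → y ≠ s → z ≠ s → α s x z ≤ α s x y + α s y z + e
  k1 : ∀ s ∈ S, ∀ x y, x ≠ s → y ≠ s → θ < α s x y → Btw d x s y
  k1' : ∀ s ∈ S, ∀ x y w, x ≠ s → y ≠ s → θ < α s x y → Btw d x w y →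
    Btw d x s w ∨ Btw d w s y
  k2 : ∀ s ∈ S, ∀ t ∈ S, ∀ x, s ≠ t → x ≠ s → x ≠ t → θ < α t s x → α s t x = 0
  k3 : ∀ s ∈ S, ∀ w x, w ≠ s → x ≠ s → Btw d s w x → α s w x ≤ θ

/-- a group acting on a space with cut apices -/
structure ActCAS (H : Type*) [Group H] {X : Type*} [MulAction H X] (d : X → X → ℕ) (S : Set X)
    (α : X → X → X → ℕ) (θ e : ℕ) : Prop where
  cas : CAS d S α θ e
  isom : ∀ (h : H) x y, d (h • x) (h • y) = d x y
  inS : ∀ (h : H), ∀ s ∈ S, h • s ∈ S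
  a_inv : ∀ (h : H), ∀ s ∈ S, ∀ x y, x ≠ s → y ≠ s → α (h • s) (h • x) (h • y) = α s x y

/-- a rotation family -/
structure RotFam (G : Type*) [Group G] {X : Type*} [MulAction G X] (d : X → X → ℕ) (S : Set X)
    (α : X → X → X → ℕ) (θ n : ℕ) (R : X → Subgroup G) : Prop where
  act : ActCAS G d S α θ 0
  fix : ∀ s ∈ S, ∀ ρ ∈ R s, ρ • s = s
  conj : ∀ (h : G), ∀ s ∈ S, ∀ ρ ∈ R s, h * ρ * h⁻¹ ∈ R (h • s)
  big : ∀ s ∈ S, ∀ ρ ∈ R s, ρ ≠ 1 → ∀ x, x ≠ s → 2 * n ≤ α s x (ρ • x)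
  large : 8 * θ < n

/-- the cone-off of a Cayley graph over the left cosets of `E` -/
abbrev Cone (G : Type*) [Group G] (E : Subgroup G) := G ⊕ (G ⧸ E)

def ConeAdj {G : Type*} [Group G] (d : G → G → ℕ) (E : Subgroup G) (x y : Cone G E) : Prop :=
  (∃ g h : G, x = Sum.inl g ∧ y = Sum.inl h ∧ d g h = 1) ∨
  (∃ g : G, x = Sum.inl g ∧ y = Sum.inr (g : G ⧸ E))

def coneGraph {G : Type*} [Group G] (d : G → G → ℕ) (E : Subgroup G) : SimpleGraph (Cone G E) :=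
  SimpleGraph.fromRel (ConeAdj d E)

/-- the metric of the cone-off -/
noncomputable def cd {G : Type*} [Group G] (d : G → G → ℕ) (E : Subgroup G) :
    Cone G E → Cone G E → ℕ := (coneGraph d E).dist

/-- the set of apices -/
def Apx (G : Type*) [Group G] (E : Subgroup G) : Set (Cone G E) := Set.range Sum.inr

/-- everything about the cone-off needed later -/
structure ConePkg {G : Type*} [Group G] (d : G → G → ℕ) (E : Subgroup G) (ε τ : G → ℤ)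
    (θ δ : ℕ) (α : Cone G E → Cone G E → Cone G E → ℕ) : Prop where
  act : ActCAS G (cd d E) (Apx G E) α θ 0
  hyp : Hyp (cd d E) δ
  rot : ∀ e ∈ E, ε e = 1 → ∀ x : Cone G E, x ≠ Sum.inr ((1 : G) : G ⧸ E) →
    α (Sum.inr ((1 : G) : G ⧸ E)) x (e • x) = 2 * (τ e).natAbs
  pos : ∀ e ∈ E, α (Sum.inr ((1 : G) : G ⧸ E)) (Sum.inl 1) (Sum.inl e) = 2 * (τ e).natAbs
  adj_ll : ∀ g h : G, cd d E (Sum.inl g) (Sum.inl h) = 1 ↔ d g h = 1
  adj_lr : ∀ (g : G) (c : G ⧸ E), cd d E (Sum.inl g) (Sum.inr c) = 1 ↔ (g : G ⧸ E) = c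
  lb : ∀ D A : ℕ, ∃ B : ℕ, ∀ g : G, cd d E (Sum.inl 1) (Sum.inl g) ≤ D →
    (∀ c : G ⧸ E, α (Sum.inr c) (Sum.inl 1) (Sum.inl g) ≤ A) → d 1 g ≤ B

/-- the projection of the cone-off onto the cone-off of the quotient group -/
def conePi {G : Type*} [Group G] (E N : Subgroup G) [N.Normal] :
    Cone G E → Cone (G ⧸ N) (E.map (QuotientGroup.mk' N)) :=
  Sum.map (fun g => (g : G ⧸ N))
    (Quotient.map' (fun g : G => (g : G ⧸ N)) (by
      intro a b hab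
      rw [QuotientGroup.leftRel_apply] at hab ⊢
      exact ⟨a⁻¹ * b, hab, by simp⟩))

/-- everything about the Dehn filling by `z` (`z = y0 ^ n`) -/
structure FillPkg {G : Type*} [Group G] (d : G → G → ℕ) (E : Subgroup G) (θ δ n : ℕ)
    (α : Cone G E → Cone G E → Cone G E → ℕ) (z : G) (N : Subgroup G) [N.Normal]
    (D : Cone (G ⧸ N) (E.map (QuotientGroup.mk' N)) → Cone (G ⧸ N) (E.map (QuotientGroup.mk' N)) → ℕ)
    (β : Cone (G ⧸ N) (E.map (QuotientGroup.mk' N)) → Cone (G ⧸ N) (E.map (QuotientGroup.mk' N)) →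
      Cone (G ⧸ N) (E.map (QuotientGroup.mk' N)) → ℕ) : Prop where
  nc : N = Subgroup.normalClosure {z}
  large : 8 * θ < n
  act : ActCAS (G ⧸ N) D (Apx (G ⧸ N) (E.map (QuotientGroup.mk' N))) β θ (4 * θ)
  hyp : Hyp D δ
  le : ∀ x y, D (conePi E N x) (conePi E N y) ≤ cd d E x y
  lift : ∀ x b, ∃ y, conePi E N y = b ∧ cd d E x y = D (conePi E N x) b
  q1 : ∀ s ∈ Apx G E, ∀ x y, s ≠ x → s ≠ y → cd d E s x = D (conePi E N s) (conePi E N x) →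
    cd d E s y = D (conePi E N s) (conePi E N y) →
    (∀ g : G, s = Sum.inr (g : G ⧸ E) → ∀ i : ℤ,
      β (conePi E N s) (conePi E N x) (conePi E N y) ≤ α s x ((g * z ^ i * g⁻¹) • y)) ∧
    ∀ g : G, s = Sum.inr (g : G ⧸ E) → ∃ i : ℤ,
      α s x ((g * z ^ i * g⁻¹) • y) ≤ β (conePi E N s) (conePi E N x) (conePi E N y) + 8 * θ
  q2 : ∀ x b, ∃ y, conePi E N y = b ∧ cd d E x y = D (conePi E N x) b ∧
    ∀ s ∈ Apx G E, s ≠ x → s ≠ y → α s x y ≤ β (conePi E N s) (conePi E N x) b + 8 * θ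
  q3 : ∀ g ∈ N, ∀ x : Cone G E, g • x ≠ x →
    ∃ a : G, Sum.inr (a : G ⧸ E) ≠ x ∧ Sum.inr (a : G ⧸ E) ≠ g • x ∧
      n ≤ α (Sum.inr (a : G ⧸ E)) x (g • x) ∧
      ∃ i : ℤ, α (Sum.inr (a : G ⧸ E)) x ((a * z ^ i * a⁻¹) • g • x) <
        α (Sum.inr (a : G ⧸ E)) x (g • x)

/-- a point almost fixed by all elements of `F` -/
def Good {H X : Type*} [Group H] [MulAction H X] (d : X → X → ℕ) (S : Set X)
    (α : X → X → X → ℕ) (F : Subgroup H) (D A : ℕ) (p : X) : Prop :=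
  (p ∈ S → ∀ f ∈ F, f • p = p) ∧ (∀ f ∈ F, d p (f • p) ≤ D) ∧
    ∀ f ∈ F, ∀ s ∈ S, s ≠ p → s ≠ f • p → α s p (f • p) ≤ A

/-- a geodesic path -/
def GeoPath {X : Type*} (d : X → X → ℕ) (γ : ℕ → X) (x y : X) : Prop :=
  γ 0 = x ∧ γ (d x y) = y ∧ ∀ i j, i ≤ j → j ≤ d x y → d (γ i) (γ j) = j - i

/-- `a` is a nearest point to `x` in the coset `g E` -/
def Near {G : Type*} [Group G] (d : G → G → ℕ) (E : Subgroup G) (g x a : G) : Prop :=
  g⁻¹ * a ∈ E ∧ ∀ b, g⁻¹ * b ∈ E → d x a ≤ d x b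

/-- quasiconvexity and separation of a subgroup -/
structure QCSep {G : Type*} [Group G] (d : G → G → ℕ) (E : Subgroup G) : Prop where
  qc : ∃ q, ∀ u ∈ E, ∀ v ∈ E, ∀ w, Btw d u w v → ∃ e ∈ E, d w e ≤ q
  sep : ∀ r, ∃ B, ∀ g, g ∉ E → ∀ u₁ ∈ E, ∀ u₂ ∈ E, ∀ v₁ ∈ E, ∀ v₂ ∈ E,
    d u₁ (g * v₁) ≤ r → d u₂ (g * v₂) ≤ r → d u₁ u₂ ≤ B

/-- the constants of nearest point projections to the cosets -/
structure ProjConst {G : Type*} [Group G] (d : G → G → ℕ) (E : Subgroup G) (κ : ℕ) : Prop where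
  adj : ∀ g x x' a a', d x x' ≤ 1 → Near d E g x a → Near d E g x' a' → d a a' ≤ κ
  coset : ∀ g g' u v a b, g⁻¹ * g' ∉ E → g'⁻¹ * u ∈ E → g'⁻¹ * v ∈ E →
    Near d E g u a → Near d E g v b → d a b ≤ κ
  contr : ∀ g x y a b, Near d E g x a → Near d E g y b → κ < d a b →
    (∃ w, Btw d x w y ∧ d a w ≤ κ) ∧ ∃ w, Btw d x w y ∧ d b w ≤ κ
  qc : ∀ g u v w, g⁻¹ * u ∈ E → g⁻¹ * v ∈ E → Btw d u w v → ∃ e, g⁻¹ * e ∈ E ∧ d w e ≤ κ

/-- hyperbolicity of the cone-off -/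
structure ConeHyp {G : Type*} [Group G] (d : G → G → ℕ) (E : Subgroup G) (T : ℕ) : Prop where
  geo : IsGeo (cd d E)
  inv : ∀ (g : G) x y, cd d E (g • x) (g • y) = cd d E x y
  adj_ll : ∀ g h : G, cd d E (Sum.inl g) (Sum.inl h) = 1 ↔ d g h = 1
  adj_lr : ∀ (g : G) (c : G ⧸ E), cd d E (Sum.inl g) (Sum.inr c) = 1 ↔ (g : G ⧸ E) = c
  adj_rr : ∀ c c' : G ⧸ E, cd d E (Sum.inr c) (Sum.inr c') ≠ 1
  hyp : Hyp (cd d E) T
  near : ∀ x y w : G, Btw d x w y → ∀ γ, GeoPath (cd d E) γ (Sum.inl x) (Sum.inl y) →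
    ∃ i ≤ cd d E (Sum.inl x) (Sum.inl y), cd d E (Sum.inl w) (γ i) ≤ T

/-- the quotient of a space by a rotation family -/
structure QuotPkg {G X Z : Type*} [Group G] [MulAction G X] (d : X → X → ℕ) (S : Set X)
    (α : X → X → X → ℕ) (θ n : ℕ) (R : X → Subgroup G) (N : Subgroup G) [N.Normal]
    [MulAction (G ⧸ N) Z] (π : X → Z) (D : Z → Z → ℕ) (β : Z → Z → Z → ℕ) : Prop where
  act : ActCAS (G ⧸ N) D (π '' S) β θ (4 * θ)
  hyp : ∀ δ, Hyp d δ → Hyp D δ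
  le : ∀ x y, D (π x) (π y) ≤ d x y
  lift : ∀ x b, ∃ y, π y = b ∧ d x y = D (π x) b
  q1 : ∀ s ∈ S, ∀ x y, s ≠ x → s ≠ y → d s x = D (π s) (π x) → d s y = D (π s) (π y) →
    (∀ ρ ∈ R s, β (π s) (π x) (π y) ≤ α s x (ρ • y)) ∧
      ∃ ρ ∈ R s, α s x (ρ • y) ≤ β (π s) (π x) (π y) + 8 * θ
  q2 : ∀ x b, ∃ y, π y = b ∧ d x y = D (π x) b ∧
    ∀ s ∈ S, s ≠ x → s ≠ y → α s x y ≤ β (π s) (π x) b + 8 * θ
  q3 : ∀ g ∈ N, ∀ x, g • x ≠ x → ∃ s ∈ S, s ≠ x ∧ s ≠ g • x ∧ n ≤ α s x (g • x) ∧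
    ∃ ρ ∈ R s, α s x (ρ • g • x) < α s x (g • x)

/-- the relation between frames generated by conjugation, rotation and the identification of
the two classes of reflections of `E` -/
inductive FrRel {G : Type*} [Group G] (E : Subgroup G) (ε τ : G → ℤ) (y0 : G) :
    G → G → G → G → Prop
  | eq (w w' u u' : G) : FrEq w w' u u' → FrRel E ε τ y0 w w' u u'
  | kr (k r : G) : k ∈ E → r ∈ E → ε k = 1 → τ k = 0 → k ≠ 1 → ε r = -1 →
      FrRel E ε τ y0 k r k (r * y0)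
  | rk (k r : G) : k ∈ E → r ∈ E → ε k = 1 → τ k = 0 → k ≠ 1 → ε r = -1 →
      FrRel E ε τ y0 r k (r * y0) k
  | symm (w w' u u' : G) : FrRel E ε τ y0 w w' u u' → FrRel E ε τ y0 u u' w w'
  | trans (w w' u u' v v' : G) : FrRel E ε τ y0 w w' u u' → FrRel E ε τ y0 u u' v v' →
      FrRel E ε τ y0 w w' v v'

/-- an involution of the alternating group of degree 5 -/
def a5 : alternatingGroup (Fin 5) :=
  ⟨Equiv.swap 0 1 * Equiv.swap 2 3, Equiv.Perm.mem_alternatingGroup.2 (by decide)⟩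

/-- an element of order 5 -/
def d5 : alternatingGroup (Fin 5) := ⟨finRotate 5, Equiv.Perm.mem_alternatingGroup.2 (by decide)⟩

/-! ### auxiliary definitions for single pieces -/

/-- big apices for a pair of points (piece P12) -/
def BigSet {X : Type*} (S : Set X) (α : X → X → X → ℕ) (θ : ℕ) (x y : X) : Set X :=
  {s | s ∈ S ∧ s ≠ x ∧ s ≠ y ∧ 2 * θ < α s x y}

/-- the second component of the complexity (piece P12) -/
noncomputable def Psi {X : Type*} (S : Set X) (α : X → X → X → ℕ) (θ : ℕ) (x y : X) : ℕ :=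
  ∑ᶠ s ∈ BigSet S α θ x y, (α s x y - 2 * θ)

/-- the complexity of a pair of points (piece P12) -/
noncomputable def mu {X : Type*} (d : X → X → ℕ) (S : Set X) (α : X → X → X → ℕ) (θ : ℕ)
    (x y : X) : ℕ ×ₗ ℕ := toLex (d x y, Psi S α θ x y)

/-- `(x, y)` realises the distance of the orbits (piece P13) -/
def NGeo {G X : Type*} [Group G] [MulAction G X] (d : X → X → ℕ) (N : Subgroup G) (x y : X) :
    Prop := ∀ g ∈ N, d x y ≤ d x (g • y)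

/-- the points of the coset `c` through which geodesics from the apex of `c` to `x` leave
(piece P11) -/
def InS {G : Type*} [Group G] (d : G → G → ℕ) (E : Subgroup G) (x : Cone G E) (c : G ⧸ E) :
    Set G :=
  {u | (u : G ⧸ E) = c ∧ cd d E (Sum.inl u) x + 1 = cd d E (Sum.inr c) x}

/-- position of a point of the coset `c` (piece P11) -/
noncomputable def posE {G : Type*} [Group G] (E : Subgroup G) (τ : G → ℤ) (c : G ⧸ E) (u : G) :
    ℤ := τ (c.out⁻¹ * u)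

/-- twice the position of the projection of `x` (piece P11) -/
noncomputable def mS {G : Type*} [Group G] (d : G → G → ℕ) (E : Subgroup G) (τ : G → ℤ)
    (c : G ⧸ E) (x : Cone G E) : ℤ :=
  sInf (posE E τ c '' InS d E x c) + sSup (posE E τ c '' InS d E x c)

/-- the angle function of the cone-off (piece P11) -/
noncomputable def alphaC {G : Type*} [Group G] (d : G → G → ℕ) (E : Subgroup G) (τ : G → ℤ) :
    Cone G E → Cone G E → Cone G E → ℕ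
  | Sum.inl _, _, _ => 0
  | Sum.inr c, x, y => (mS d E τ c x - mS d E τ c y).natAbs

end Pool.Agent.Lib.MP_f1646b_al
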