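import Pool.Agent.Lib.MP_f1646b_al.Betw

set_option autoImplicit false

namespace Pool.Agent.Lib.MP_f1646b_al

open scoped Pointwise

/-! ### algebra of `EData`, the rotation family and `conePi` -/

namespace P14

variable {G : Type*} [Group G] {E : Subgroup G} {ε τ : G → ℤ} {y0 : G}

theorem eps_one (hE : EData E ε τ y0) : ε 1 = 1 := by
  have h := hE.eps_mul 1 E.one_mem 1 E.one_mem
  rw [mul_one] at h
  rcases hE.eps_sq 1 E.one_mem with h1 | h1
  · exact h1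
  · rw [h1] at h; norm_num at h

theorem tau_one (hE : EData E ε τ y0) : τ 1 = 0 := by
  have h := hE.tau_mul 1 E.one_mem 1 E.one_mem
  rw [mul_one, eps_one hE] at h
  linarith

theorem eps_inv (hE : EData E ε τ y0) {e : G} (he : e ∈ E) : ε e⁻¹ = ε e := by
  have h := hE.eps_mul e he e⁻¹ (E.inv_mem he)
  rw [mul_inv_cancel, eps_one hE] at h
  rcases hE.eps_sq e he with h1 | h1 <;> rcases hE.eps_sq _ (E.inv_mem he) with h2 | h2 <;>
    rw [h1, h2] at h <;> rw [h1, h2] <;> norm_num at h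

theorem tau_inv (hE : EData E ε τ y0) {e : G} (he : e ∈ E) : τ e⁻¹ = - (ε e * τ e) := by
  have h := hE.tau_mul e he e⁻¹ (E.inv_mem he)
  rw [mul_inv_cancel, tau_one hE] at h
  rcases hE.eps_sq e he with h1 | h1 <;> rw [h1] at h ⊢ <;> linarith

theorem eps_y0_pow (hE : EData E ε τ y0) (n : ℕ) : ε (y0 ^ n) = 1 := by
  induction n with
  | zero => rw [pow_zero]; exact eps_one hE
  | succ n ih =>
    rw [pow_succ, hE.eps_mul _ (E.pow_mem hE.y0_mem n) _ hE.y0_mem, ih, hE.eps_y0]; norm_num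

theorem tau_y0_pow (hE : EData E ε τ y0) (n : ℕ) : τ (y0 ^ n) = n := by
  induction n with
  | zero => rw [pow_zero, tau_one hE]; simp
  | succ n ih =>
    rw [pow_succ, hE.tau_mul _ (E.pow_mem hE.y0_mem n) _ hE.y0_mem, ih, hE.tau_y0,
      eps_y0_pow hE]
    push_cast; ring

theorem eps_y0_zpow (hE : EData E ε τ y0) (i : ℤ) : ε (y0 ^ i) = 1 := by
  rcases i with i | i
  · simpa using eps_y0_pow hE i
  · rw [zpow_negSucc, eps_inv hE (E.pow_mem hE.y0_mem _)]; exact eps_y0_pow hE _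

theorem tau_y0_zpow (hE : EData E ε τ y0) (i : ℤ) : τ (y0 ^ i) = i := by
  rcases i with i | i
  · simpa using tau_y0_pow hE i
  · rw [zpow_negSucc, tau_inv hE (E.pow_mem hE.y0_mem _), eps_y0_pow hE, tau_y0_pow hE]
    rw [Int.negSucc_eq]; push_cast; ring

/-- `y0 ^ n` commutes with the kernel if `3 ∣ n` -/
theorem comm_ker (hE : EData E ε τ y0) {n : ℕ} (h3 : 3 ∣ n) {k : G} (hk : k ∈ E)
    (h1 : ε k = 1) (h2 : τ k = 0) : Commute k (y0 ^ n) := by
  obtain ⟨m, rfl⟩ := h3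
  rw [pow_mul]
  have : Commute k (y0 ^ 3) := (hE.cube k hk h1 h2).symm
  exact this.pow_right m

/-- conjugation of `z = y0 ^ n` by elements of `E` -/
theorem conj_z (hE : EData E ε τ y0) {n : ℕ} (h3 : 3 ∣ n) {e : G} (he : e ∈ E) :
    e * y0 ^ n * e⁻¹ = y0 ^ n ∨ e * y0 ^ n * e⁻¹ = (y0 ^ n)⁻¹ := by
  rcases hE.eps_sq e he with h1 | h1
  · left
    have hyi : y0 ^ (-(τ e)) ∈ E := E.zpow_mem hE.y0_mem _
    have hk : y0 ^ (-(τ e)) * e ∈ E := E.mul_mem hyi he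
    have hke : ε (y0 ^ (-(τ e)) * e) = 1 := by
      rw [hE.eps_mul _ hyi _ he, eps_y0_zpow hE, h1, mul_one]
    have hkt : τ (y0 ^ (-(τ e)) * e) = 0 := by
      rw [hE.tau_mul _ hyi _ he, eps_y0_zpow hE, tau_y0_zpow hE]; ring
    have hc := comm_ker hE h3 hk hke hkt
    have hc2 : Commute (y0 ^ (τ e)) (y0 ^ n) := by
      rw [← zpow_natCast]
      exact (Commute.refl y0).zpow_zpow _ _
    have hee : e = y0 ^ (τ e) * (y0 ^ (-(τ e)) * e) := by group
    have : Commute e (y0 ^ n) := by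
      rw [hee]; exact hc2.mul_left hc
    rw [this.eq, mul_inv_cancel_right]
  · right
    have h2 := hE.refl_sq e he h1
    have hey : e * y0 ∈ E := E.mul_mem he hE.y0_mem
    have h3' : ε (e * y0) = -1 := by rw [hE.eps_mul _ he _ hE.y0_mem, h1, hE.eps_y0, mul_one]
    have h4 := hE.refl_sq _ hey h3'
    have hinv : e⁻¹ = e := by rw [inv_eq_iff_mul_eq_one, ← sq, h2]
    have h5 : e * y0 * e⁻¹ = y0⁻¹ := by
      rw [eq_inv_iff_mul_eq_one]
      rw [hinv, mul_assoc, ← sq]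
      exact h4
    have h6 : e * y0 ^ n * e⁻¹ = (e * y0 * e⁻¹) ^ n := by rw [conj_pow]
    rw [h6, h5, inv_pow]

theorem conj_z_zpow (hE : EData E ε τ y0) {n : ℕ} (h3 : 3 ∣ n) {e : G} (he : e ∈ E) (i : ℤ) :
    ∃ j : ℤ, e * (y0 ^ n) ^ i * e⁻¹ = (y0 ^ n) ^ j := by
  rw [← conj_zpow]
  rcases conj_z hE h3 he with h | h
  · exact ⟨i, by rw [h]⟩
  · exact ⟨-i, by rw [h, inv_zpow, zpow_neg]⟩

/-- the rotation subgroup of the apex of the coset `c` -/
noncomputable def Rc (E : Subgroup G) (z : G) : Cone G E → Subgroup G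
  | Sum.inl _ => ⊥
  | Sum.inr c => (Subgroup.zpowers z).map (MulAut.conj c.out).toMonoidHom

theorem mem_Rc (hE : EData E ε τ y0) {n : ℕ} (h3 : 3 ∣ n) (g ρ : G) :
    ρ ∈ Rc E (y0 ^ n) (Sum.inr (g : G ⧸ E)) ↔ ∃ i : ℤ, ρ = g * (y0 ^ n) ^ i * g⁻¹ := by
  have hout : g⁻¹ * (g : G ⧸ E).out ∈ E := by
    rw [← QuotientGroup.eq]; exact (QuotientGroup.out_eq' _).symm
  set e := g⁻¹ * (g : G ⧸ E).out with he
  have ho : (g : G ⧸ E).out = g * e := by rw [he]; group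
  constructor
  · rintro ⟨x, ⟨i, rfl⟩, rfl⟩
    obtain ⟨j, hj⟩ := conj_z_zpow hE h3 hout i
    refine ⟨j, ?_⟩
    rw [← hj]
    simp only [MulEquiv.coe_toMonoidHom, MulAut.conj_apply, ho]
    group
  · rintro ⟨i, rfl⟩
    obtain ⟨j, hj⟩ := conj_z_zpow hE h3 (E.inv_mem hout) i
    refine ⟨(y0 ^ n) ^ j, ⟨j, rfl⟩, ?_⟩
    rw [← hj]
    simp only [MulEquiv.coe_toMonoidHom, MulAut.conj_apply, ho]
    group

theorem smul_inr (g : G) (h : G) : g • (Sum.inr (h : G ⧸ E) : Cone G E) = Sum.inr ((g * h : G) : G ⧸ E) :=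
  rfl

theorem apx_cases {s : Cone G E} (hs : s ∈ Apx G E) : ∃ g : G, s = Sum.inr (g : G ⧸ E) := by
  obtain ⟨c, rfl⟩ := hs
  obtain ⟨g, rfl⟩ := QuotientGroup.mk_surjective c
  exact ⟨g, rfl⟩

theorem rotFam {d : G → G → ℕ} (hE : EData E ε τ y0) {θ δ : ℕ}
    {α : Cone G E → Cone G E → Cone G E → ℕ} (hC : ConePkg d E ε τ θ δ α) {n : ℕ} (h3 : 3 ∣ n)
    (hn : 8 * θ < n) : RotFam G (cd d E) (Apx G E) α θ n (Rc E (y0 ^ n)) := by
  refine ⟨hC.act, ?_, ?_, ?_, hn⟩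
  · intro s hs ρ hρ
    obtain ⟨g, rfl⟩ := apx_cases hs
    rw [mem_Rc hE h3] at hρ
    obtain ⟨i, rfl⟩ := hρ
    rw [smul_inr]
    congr 1
    rw [QuotientGroup.eq]
    have : (g * (y0 ^ n) ^ i * g⁻¹ * g)⁻¹ * g = ((y0 ^ n) ^ i)⁻¹ := by group
    rw [this]
    exact E.inv_mem (E.zpow_mem (E.pow_mem hE.y0_mem n) i)
  · intro h s hs ρ hρ
    obtain ⟨g, rfl⟩ := apx_cases hs
    rw [mem_Rc hE h3] at hρ
    obtain ⟨i, rfl⟩ := hρ
    rw [smul_inr, mem_Rc hE h3]
    exact ⟨i, by group⟩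
  · intro s hs ρ hρ hρ1 x hx
    obtain ⟨g, rfl⟩ := apx_cases hs
    rw [mem_Rc hE h3] at hρ
    obtain ⟨i, rfl⟩ := hρ
    have hi : i ≠ 0 := by
      rintro rfl
      apply hρ1
      simp
    have hx' : g⁻¹ • x ≠ Sum.inr ((1 : G) : G ⧸ E) := by
      intro h
      apply hx
      rw [inv_smul_eq_iff, smul_inr, mul_one] at h
      exact h
    have he : (y0 ^ n) ^ i ∈ E := E.zpow_mem (E.pow_mem hE.y0_mem n) i
    have hze : (y0 ^ n) ^ i = y0 ^ ((n : ℤ) * i) := by rw [zpow_mul, zpow_natCast]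
    have hs1 : (Sum.inr (g : G ⧸ E) : Cone G E) = g • Sum.inr ((1 : G) : G ⧸ E) := by
      rw [smul_inr, mul_one]
    have hmem1 : (Sum.inr ((1 : G) : G ⧸ E) : Cone G E) ∈ Apx G E := ⟨_, rfl⟩
    have hrot := hC.rot _ he (by rw [hze]; exact eps_y0_zpow hE _) (g⁻¹ • x) hx'
    have hne2 : (y0 ^ n) ^ i • g⁻¹ • x ≠ Sum.inr ((1 : G) : G ⧸ E) := by
      intro h
      apply hx'
      rw [← inv_smul_eq_iff.2 h.symm]
      rw [smul_inr]
      congr 1
      rw [eq_comm, QuotientGroup.eq]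
      simpa using he
    have hinv := hC.act.a_inv g (Sum.inr ((1 : G) : G ⧸ E)) hmem1 (g⁻¹ • x)
      ((y0 ^ n) ^ i • g⁻¹ • x) hx' hne2
    rw [← hs1, smul_inv_smul, hrot] at hinv
    have : (g * (y0 ^ n) ^ i * g⁻¹) • x = g • (y0 ^ n) ^ i • g⁻¹ • x := by
      simp only [mul_smul]
    rw [this, hinv, hze, tau_y0_zpow hE]
    have h1 : 1 ≤ i.natAbs := Int.natAbs_pos.2 hi
    rw [Int.natAbs_mul, Int.natAbs_natCast]
    nlinarith

theorem closure_eq (hE : EData E ε τ y0) {n : ℕ} (h3 : 3 ∣ n) :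
    Subgroup.normalClosure {y0 ^ n} =
      Subgroup.closure (⋃ s ∈ Apx G E, (Rc E (y0 ^ n) s : Set G)) := by
  apply le_antisymm
  · rw [Subgroup.normalClosure, Subgroup.closure_le]
    intro x hx
    obtain ⟨y, hy, hc⟩ := Group.mem_conjugatesOfSet_iff.1 hx
    rw [Set.mem_singleton_iff] at hy
    subst hy
    obtain ⟨g, hg⟩ := isConj_iff.1 hc
    apply Subgroup.subset_closure
    simp only [Set.mem_iUnion]
    refine ⟨Sum.inr (g : G ⧸ E), ⟨_, rfl⟩, ?_⟩
    rw [SetLike.mem_coe, mem_Rc hE h3]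
    exact ⟨1, by rw [zpow_one, hg]⟩
  · rw [Subgroup.closure_le]
    intro x hx
    simp only [Set.mem_iUnion] at hx
    obtain ⟨s, hs, hx⟩ := hx
    obtain ⟨g, rfl⟩ := apx_cases hs
    rw [SetLike.mem_coe, mem_Rc hE h3] at hx
    obtain ⟨i, rfl⟩ := hx
    have hz : y0 ^ n ∈ Subgroup.normalClosure {y0 ^ n} :=
      Subgroup.subset_normalClosure (Set.mem_singleton _)
    have hz' : (y0 ^ n) ^ i ∈ Subgroup.normalClosure {y0 ^ n} := Subgroup.zpow_mem _ hz i
    exact Subgroup.normalClosure_normal.conj_mem _ hz' g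

variable (N : Subgroup G) [N.Normal]

theorem conePi_inl (g : G) : conePi E N (Sum.inl g) = Sum.inl (g : G ⧸ N) := rfl

theorem conePi_inr (g : G) : conePi E N (Sum.inr (g : G ⧸ E)) =
    Sum.inr (((g : G ⧸ N) : G ⧸ N) : (G ⧸ N) ⧸ (E.map (QuotientGroup.mk' N))) := rfl

theorem conePi_surj : Function.Surjective (conePi E N) := by
  rintro (q | c)
  · obtain ⟨g, rfl⟩ := QuotientGroup.mk_surjective q
    exact ⟨Sum.inl g, rfl⟩
  · obtain ⟨q, rfl⟩ := QuotientGroup.mk_surjective c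
    obtain ⟨g, rfl⟩ := QuotientGroup.mk_surjective q
    exact ⟨Sum.inr (g : G ⧸ E), rfl⟩

theorem conePi_smul (g : G) (x : Cone G E) : conePi E N (g • x) = (g : G ⧸ N) • conePi E N x := by
  rcases x with h | c
  · rfl
  · obtain ⟨h, rfl⟩ := QuotientGroup.mk_surjective c
    rfl

theorem conePi_eq (x y : Cone G E) : conePi E N x = conePi E N y ↔ ∃ g ∈ N, g • x = y := by
  constructor
  · intro h
    rcases x with g | c <;> rcases y with g' | c'
    · rw [conePi_inl, conePi_inl] at h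
      have h1 := Sum.inl_injective h
      rw [QuotientGroup.eq] at h1
      refine ⟨g' * g⁻¹, ?_, ?_⟩
      · have := Subgroup.Normal.conj_mem (inferInstance : N.Normal) _ h1 g
        have e : g * (g⁻¹ * g') * g⁻¹ = g' * g⁻¹ := by group
        rwa [e] at this
      · change Sum.inl (g' * g⁻¹ * g) = _
        rw [inv_mul_cancel_right]
    · obtain ⟨h', rfl⟩ := QuotientGroup.mk_surjective c'
      rw [conePi_inl, conePi_inr] at h
      exact absurd h (by simp)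
    · obtain ⟨h', rfl⟩ := QuotientGroup.mk_surjective c
      rw [conePi_inl, conePi_inr] at h
      exact absurd h (by simp)
    · obtain ⟨g, rfl⟩ := QuotientGroup.mk_surjective c
      obtain ⟨g', rfl⟩ := QuotientGroup.mk_surjective c'
      rw [conePi_inr, conePi_inr] at h
      have h1 := Sum.inr_injective h
      rw [QuotientGroup.eq] at h1
      obtain ⟨e, he, h2⟩ := h1
      have h3 : ((g * e : G) : G ⧸ N) = (g' : G ⧸ N) := by
        rw [QuotientGroup.mk_mul]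
        have : (e : G ⧸ N) = (g : G ⧸ N)⁻¹ * (g' : G ⧸ N) := h2
        rw [this, mul_inv_cancel_left]
      rw [QuotientGroup.eq] at h3
      refine ⟨g' * (g * e)⁻¹, ?_, ?_⟩
      · have := Subgroup.Normal.conj_mem (inferInstance : N.Normal) _ h3 (g * e)
        have e : g * e * ((g * e)⁻¹ * g') * (g * e)⁻¹ = g' * (g * e)⁻¹ := by group
        rwa [e] at this
      · rw [smul_inr]
        congr 1
        rw [QuotientGroup.eq]
        have : (g' * (g * e)⁻¹ * g)⁻¹ * g' = g⁻¹ * (g * e) := by group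
        rw [this, inv_mul_cancel_left]
        exact he
  · rintro ⟨g, hg, rfl⟩
    rw [conePi_smul, (QuotientGroup.eq_one_iff g).2 hg, one_smul]

theorem conePi_image : conePi E N '' Apx G E = Apx (G ⧸ N) (E.map (QuotientGroup.mk' N)) := by
  ext x
  constructor
  · rintro ⟨s, hs, rfl⟩
    obtain ⟨g, rfl⟩ := apx_cases hs
    exact ⟨_, rfl⟩
  · intro hx
    obtain ⟨q, rfl⟩ := apx_cases hx
    obtain ⟨g, rfl⟩ := QuotientGroup.mk_surjective q
    exact ⟨Sum.inr (g : G ⧸ E), ⟨_, rfl⟩, rfl⟩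

end P14

end Pool.Agent.Lib.MP_f1646b_al
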