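import Pool.Agent.Lib.MP_f1646b_al.P01

/-!
# MP_f1646b_al, piece P04: the shift lemma
-/

set_option autoImplicit false

namespace Pool.Agent.Lib.MP_f1646b_al

namespace P04

variable {X : Type*} {d : X → X → ℕ} {δ : ℕ}

/-- Busemann-like difference is almost constant on deep points of `[P,Q]` -/
theorem bus (h : IsGeo d) (hδ : Hyp d δ) {P P' Q x x' : X} {M : ℕ} (hP : d P P' ≤ M)
    (hx : Btw d P x Q) (hx' : Btw d P x' Q) (h1 : M + 3 * δ + 3 ≤ d P x)
    (h2 : M + 3 * δ + 3 ≤ d P x') :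
    d P x' + d P' x ≤ d P x + d P' x' + (4 * δ + 4) := by
  have h3 := fourpt h hδ P P' x' x
  have h4 := fat h hδ hx' hx
  have h5 := h.tri P P' x
  rcases le_total (d P P' + d x' x) (d P x + d P' x') with h6 | h6
  · rw [max_eq_right h6] at h3
    exact h3
  · rw [max_eq_left h6] at h3
    omega

end P04

theorem shift {X : Type*} {d : X → X → ℕ} {δ : ℕ} (h : IsGeo d) (hδ : Hyp d δ) (g : X → X)
    (hg : ∀ x y, d (g x) (g y) = d x y) (P Q v : X) (M : ℕ) (hP : d P (g P) ≤ M)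
    (hQ : d Q (g Q) ≤ M) (hv : Btw d P v Q) (h1 : 10 * M + 100 * δ + 100 ≤ d P v)
    (h2 : 10 * M + 100 * δ + 100 ≤ d v Q) :
    d v (g v) ≤ 40 * δ + 40 ∨ d v (g v) + (4 * δ + 5) ≤ d v (g (g v)) := by
  have hP' : d (g P) P ≤ M := by rw [h.symm]; exact hP
  have hQ' : d (g Q) Q ≤ M := by rw [h.symm]; exact hQ
  -- first translate
  have b1 : Btw d (g P) (g v) (g Q) := by
    unfold Btw at *; rw [hg, hg, hg]; exact hv
  obtain ⟨v1, hv1, e1⟩ := fellow h hδ b1 (x' := P) (y' := Q) (by rw [hg]; omega)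
    (by rw [hg]; omega)
  have a1 := h.tri (g P) P (g v)
  have a2 := h.tri P v1 (g v)
  have a3 := h.tri (g v) v1 Q
  have a4 := h.tri (g v) Q (g Q)
  have a5 := h.symm v1 (g v)
  have a6 := hg P v
  have a7 := hg v Q
  have a8 := h.tri (g P) (g v) v1
  have a9 := h.tri (g P) v1 (g v)
  -- second translate
  have b2 : Btw d (g P) (g v1) (g Q) := by
    unfold Btw at *; rw [hg, hg, hg]; exact hv1
  obtain ⟨v2, hv2, e2⟩ := fellow h hδ b2 (x' := P) (y' := Q) (by rw [hg]; omega)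
    (by rw [hg]; omega)
  have c1 := h.tri (g P) P (g v1)
  have c2 := h.tri P v2 (g v1)
  have c5 := h.symm v2 (g v1)
  have c6 := hg P v1
  have c8 := h.tri (g P) (g v1) v2
  have c9 := h.tri (g P) v2 (g v1)
  -- Busemann comparison
  have f1 := P04.bus h hδ hP hv1 hv2 (by omega) (by omega)
  have f2 := P04.bus h hδ hP hv2 hv1 (by omega) (by omega)
  -- displacement
  have g1 := fat h hδ hv hv1
  have g2 := h.tri v v1 (g v)
  have g3 := h.tri P v v2
  have g4 := h.tri P v2 v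
  have g5 := h.symm v v2
  have g6 := h.tri v (g (g v)) v2
  have g7 := h.tri (g (g v)) (g v1) v2
  have g8 := hg (g v) v1
  omega

end Pool.Agent.Lib.MP_f1646b_al
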