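import Pool.Agent.Lib.MP_f1646b_al.P01
import Pool.Agent.Lib.MP_f1646b_al.P04

set_option autoImplicit false

namespace Pool.Agent.Lib.MP_f1646b_al

namespace P05

variable {G : Type*} [Group G] {d : G → G → ℕ} {δ : ℕ}

theorem norm_inv (h : HypMet G d δ) (a b : G) : d a b = d 1 (a⁻¹ * b) := by
  have := h.inv a⁻¹ a b
  rw [inv_mul_cancel] at this
  exact this.symm

theorem norm_pow (h : HypMet G d δ) (y : G) (r : ℕ) : d 1 (y ^ r) ≤ r * d 1 y := by
  induction r with
  | zero => simp [h.geo.self]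
  | succ r ih =>
    have h1 := h.geo.tri 1 (y ^ r) (y ^ (r + 1))
    have h2 : d (y ^ r) (y ^ (r + 1)) = d 1 y := by
      rw [norm_inv h, pow_succ, inv_mul_cancel_left]
    rw [h2] at h1
    calc d 1 (y ^ (r + 1)) ≤ d 1 (y ^ r) + d 1 y := h1
      _ ≤ r * d 1 y + d 1 y := by omega
      _ = (r + 1) * d 1 y := by ring

theorem iter_mul (g x : G) (k : ℕ) : (fun z => g * z)^[k] x = g ^ k * x := by
  induction k with
  | zero => simp
  | succ k ih => rw [Function.iterate_succ_apply', ih, pow_succ', mul_assoc]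

/-- case A -/
theorem caseA (h : HypMet G d δ) (y : G) (j : ℕ) (hj : 0 < j) (x : G)
    (hx : d x (y ^ j * x) + (4 * δ + 5) ≤ d x (y ^ j * (y ^ j * x))) :
    ∃ m c : ℕ, 0 < m ∧ ∀ k : ℕ, k ≤ m * d 1 (y ^ k) + c := by
  refine ⟨j, j * (2 * d 1 x + j * d 1 y + 1), hj, fun K => ?_⟩
  have h1 := doubling h.geo h.hyp (fun z => y ^ j * z) (fun a b => h.inv _ _ _) x hx (K / j)
  rw [iter_mul, ← pow_mul] at h1
  have hK : j * (K / j) + K % j = K := Nat.div_add_mod K j
  have hr : K % j < j := Nat.mod_lt _ hj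
  set q := K / j
  set r := K % j
  have h2 : d x (y ^ (j * q) * x) ≤ 2 * d 1 x + d 1 (y ^ (j * q)) := by
    have e1 := h.geo.tri x 1 (y ^ (j * q) * x)
    have e2 := h.geo.tri 1 (y ^ (j * q)) (y ^ (j * q) * x)
    have e3 : d (y ^ (j * q)) (y ^ (j * q) * x) = d 1 x := by
      rw [norm_inv h, inv_mul_cancel_left]
    have e4 := h.geo.symm x 1
    omega
  have h3 : d 1 (y ^ (j * q)) ≤ d 1 (y ^ K) + j * d 1 y := by
    have e1 := h.geo.tri 1 (y ^ K) (y ^ (j * q))
    have e2 : d (y ^ K) (y ^ (j * q)) = d 1 (y ^ r) := by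
      rw [h.geo.symm, norm_inv h]
      congr 1
      rw [← hK, pow_add, inv_mul_cancel_left]
    have e3 := norm_pow h y r
    have e4 : r * d 1 y ≤ j * d 1 y := Nat.mul_le_mul_right _ hr.le
    omega
  have h4 : q ≤ d 1 (y ^ K) + (2 * d 1 x + j * d 1 y) := by omega
  calc K = j * q + r := hK.symm
    _ ≤ j * (d 1 (y ^ K) + (2 * d 1 x + j * d 1 y)) + j := by
        have := Nat.mul_le_mul_left j h4
        omega
    _ = j * d 1 (y ^ K) + j * (2 * d 1 x + j * d 1 y + 1) := by ring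

theorem pow_inj (y : G) (hy : InfOrd y) : Function.Injective (fun k : ℕ => y ^ k) := by
  have key : ∀ a b : ℕ, a < b → y ^ a ≠ y ^ b := by
    intro a b hab hne
    refine hy (b - a) (by omega) ?_
    have h1 : y ^ b = y ^ a * y ^ (b - a) := by
      rw [← pow_add]; congr 1; omega
    rw [h1] at hne
    exact (mul_eq_left.1 hne.symm)
  intro a b hab
  rcases lt_trichotomy a b with h | h | h
  · exact absurd hab (key a b h)
  · exact h
  · exact absurd hab.symm (key b a h)

theorem unbounded (h : HypMet G d δ) (y : G) (hy : InfOrd y) (R : ℕ) :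
    ∃ k : ℕ, R ≤ d 1 (y ^ k) := by
  by_contra hcon
  push Not at hcon
  have h1 : Set.range (fun k : ℕ => y ^ k) ⊆ {g : G | d 1 g ≤ R} := by
    rintro _ ⟨k, rfl⟩
    exact (hcon k).le
  exact Set.infinite_range_of_injective (pow_inj y hy) ((h.fin R).subset h1)

theorem caseB (h : HypMet G d δ) (y : G) (hy : InfOrd y)
    (hB : ∀ j : ℕ, 0 < j → ∀ x : G,
      ¬ d x (y ^ j * x) + (4 * δ + 5) ≤ d x (y ^ j * (y ^ j * x))) : False := by
  classical
  set F := (h.fin (40 * δ + 40)).toFinset with hF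
  set M := F.card with hM
  set D := M * d 1 y with hD
  obtain ⟨k, hk⟩ := unbounded h y hy (2 * (10 * D + 100 * δ + 101))
  obtain ⟨v, hv, hv1⟩ := geo_btw h.geo 1 (y ^ k) (d 1 (y ^ k) / 2) (Nat.div_le_self _ _)
  have hv2 : d 1 v + d v (y ^ k) = d 1 (y ^ k) := hv
  have hmem : ∀ m ∈ Finset.range (M + 1), v⁻¹ * y ^ m * v ∈ F := by
    intro m hm
    have hm' : m ≤ M := by
      have := Finset.mem_range.1 hm
      omega
    rw [hF, Set.Finite.mem_toFinset]
    change d 1 (v⁻¹ * y ^ m * v) ≤ 40 * δ + 40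
    rw [mul_assoc, ← norm_inv h]
    rcases Nat.eq_zero_or_pos m with h0 | h0
    · subst h0
      rw [pow_zero, one_mul, h.geo.self]
      omega
    have hle : d 1 (y ^ m) ≤ D := by
      refine (norm_pow h y m).trans ?_
      exact Nat.mul_le_mul_right _ hm'
    have h1 := shift h.geo h.hyp (fun z => y ^ m * z) (fun a b => h.inv _ _ _) 1 (y ^ k) v D
      (by rw [mul_one]; exact hle)
      (by
        have : d (y ^ k) (y ^ m * y ^ k) = d 1 (y ^ m) := by
          rw [← pow_add, add_comm, pow_add, norm_inv h, inv_mul_cancel_left]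
        rw [this]; exact hle) hv (by omega) (by omega)
    rcases h1 with h1 | h1
    · exact h1
    · exact absurd h1 (hB m h0 v)
  have hcard : (Finset.range (M + 1)).card ≤ F.card := by
    refine Finset.card_le_card_of_injOn (fun m => v⁻¹ * y ^ m * v) hmem ?_
    intro a _ b _ hab
    apply pow_inj y hy
    have : v⁻¹ * y ^ a * v = v⁻¹ * y ^ b * v := hab
    simpa using this
  rw [Finset.card_range] at hcard
  omega

end P05

theorem lin_growth {G : Type*} [Group G] {d : G → G → ℕ} {δ : ℕ} (h : HypMet G d δ) (y : G)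
    (hy : InfOrd y) : ∃ m c : ℕ, 0 < m ∧ ∀ k : ℕ, k ≤ m * d 1 (y ^ k) + c := by
  by_cases hA : ∃ j : ℕ, 0 < j ∧ ∃ x : G,
      d x (y ^ j * x) + (4 * δ + 5) ≤ d x (y ^ j * (y ^ j * x))
  · obtain ⟨j, hj, x, hx⟩ := hA
    exact P05.caseA h y j hj x hx
  · push Not at hA
    exact (P05.caseB h y hy (fun j hj x => not_le.2 (hA j hj x))).elim

end Pool.Agent.Lib.MP_f1646b_al
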