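import Pool.Agent.Lib.MP_f1646b_al.Betw
import Pool.Agent.Lib.MP_f1646b_al.P01

set_option autoImplicit false

/-!
# MP_f1646b_al, piece P06: cyclic subgroups with linear growth are quasi-geodesics (Morse lemma)
-/

namespace Pool.Agent.Lib.MP_f1646b_al

namespace P06

theorem clog_le (k x : ℕ) : Nat.clog 2 x ≤ k + x / 2 ^ k + 1 := by
  apply Nat.clog_le_of_le_pow
  have h1 : x < 2 ^ k * (x / 2 ^ k + 1) := Nat.lt_mul_div_succ x (by positivity)
  have h2 : x / 2 ^ k + 1 < 2 ^ (x / 2 ^ k + 1) := Nat.lt_two_pow_self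
  calc x ≤ 2 ^ k * (x / 2 ^ k + 1) := h1.le
    _ ≤ 2 ^ k * 2 ^ (x / 2 ^ k + 1) := Nat.mul_le_mul_left _ h2.le
    _ = _ := by rw [← pow_add, Nat.add_assoc]

theorem bound (A δ m c : ℕ) (hm : 0 < m) :
    ∃ B, ∀ D, D ≤ A + δ * Nat.clog 2 (6 * m * D + c + 2) → D ≤ B := by
  refine ⟨2 * A + 2 * δ * (12 * m * δ + 1) + c + 2, fun D hD => ?_⟩
  set k := 12 * m * δ with hk
  set q := (6 * m * D + c + 2) / 2 ^ k with hq
  have h1 : Nat.clog 2 (6 * m * D + c + 2) ≤ k + q + 1 := clog_le k _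
  have h2 : q * 2 ^ k ≤ 6 * m * D + c + 2 := Nat.div_mul_le_self _ _
  have h3 : k ≤ 2 ^ k := Nat.lt_two_pow_self.le
  have h4 : q * k ≤ 6 * m * D + c + 2 := (Nat.mul_le_mul_left _ h3).trans h2
  have h5 : 2 * δ * q ≤ D + c + 2 := by
    have h6 : 6 * m * (2 * δ * q) ≤ 6 * m * (D + c + 2) := by
      calc 6 * m * (2 * δ * q) = q * k := by rw [hk]; ring
        _ ≤ 6 * m * D + c + 2 := h4
        _ ≤ 6 * m * D + 6 * m * (c + 2) := by nlinarith
        _ = _ := by ring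
    exact Nat.le_of_mul_le_mul_left h6 (by positivity)
  have h7 : 2 * (δ * Nat.clog 2 (6 * m * D + c + 2)) ≤ 2 * δ * (k + 1) + 2 * δ * q := by
    calc 2 * (δ * Nat.clog 2 (6 * m * D + c + 2)) ≤ 2 * (δ * (k + q + 1)) := by gcongr
      _ = _ := by ring
  omega

variable {G : Type*} [Group G] {d : G → G → ℕ} {δ : ℕ}

theorem dzz (h : HypMet G d δ) (y : G) (a b : ℤ) : d (y ^ a) (y ^ b) = d 1 (y ^ (b - a)) := by
  have h1 := h.inv (y ^ a) 1 (y ^ (b - a))
  rw [mul_one, ← zpow_add] at h1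
  rw [← h1]
  congr 2
  ring

theorem dinv (h : HypMet G d δ) (y : G) (a : ℤ) : d 1 (y ^ (-a)) = d 1 (y ^ a) := by
  have h1 := dzz h y a 0
  rw [zpow_zero, zero_sub] at h1
  rw [← h1, h.geo.symm]

theorem dabs (h : HypMet G d δ) (y : G) (a : ℤ) : d 1 (y ^ a) = d 1 (y ^ a.natAbs) := by
  rcases Int.natAbs_eq a with h1 | h1
  · conv_lhs => rw [h1, zpow_natCast]
  · conv_lhs => rw [h1, dinv h, zpow_natCast]

theorem growth (h : HypMet G d δ) (y : G) {m c : ℕ} (hy : ∀ k : ℕ, k ≤ m * d 1 (y ^ k) + c) (a b : ℤ) :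
    (b - a).natAbs ≤ m * d (y ^ a) (y ^ b) + c := by
  rw [dzz h, dabs h]
  exact hy _

theorem upper_nat (h : HypMet G d δ) (y : G) (n : ℕ) : d 1 (y ^ n) ≤ n * d 1 y := by
  induction n with
  | zero => rw [pow_zero, h.geo.self]; omega
  | succ n ih =>
    have h1 := h.geo.tri 1 (y ^ n) (y ^ (n + 1))
    have h2 := h.inv (y ^ n) 1 y
    rw [mul_one, ← pow_succ] at h2
    rw [Nat.add_mul, Nat.one_mul]
    omega

theorem upper (h : HypMet G d δ) (y : G) (a b : ℤ) : d (y ^ a) (y ^ b) ≤ (b - a).natAbs * d 1 y := by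
  rw [dzz h, dabs h]
  exact upper_nat h y _

/-- the main estimate -/
theorem main (h : HypMet G d δ) (y : G) {m c : ℕ} (hm : 0 < m)
    (hy : ∀ k : ℕ, k ≤ m * d 1 (y ^ k) + c) :
    ∃ D, ∀ (N : ℕ) (w : G), Btw d 1 w (y ^ N) → ∃ l ≤ N, d w (y ^ l) ≤ D := by
  obtain ⟨B, hB⟩ := bound (d 1 y) δ m c hm
  refine ⟨B, fun N => ?_⟩
  have hgeo := h.geo
  classical
  set P : ℕ → Prop := fun D => ∃ w, Btw d 1 w (y ^ N) ∧ ∀ l ≤ N, D ≤ d w (y ^ l) with hP
  have hP0 : P 0 := ⟨1, btw_left hgeo _ _, fun l _ => Nat.zero_le _⟩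
  have hPb : ∀ D, P D → D ≤ d 1 (y ^ N) := by
    rintro D ⟨w, hw, hl⟩
    have h1 := hl 0 (Nat.zero_le _)
    rw [pow_zero, hgeo.symm] at h1
    unfold Btw at hw
    omega
  obtain ⟨D0, hD0, hD1⟩ : ∃ D0, P D0 ∧ ¬ P (D0 + 1) := by
    by_contra hcon
    push Not at hcon
    have hall : ∀ D, P D := by
      intro D
      induction D with
      | zero => exact hP0
      | succ D ih => exact hcon D ih
    have := hPb _ (hall (d 1 (y ^ N) + 1))
    omega
  have hnear : ∀ w, Btw d 1 w (y ^ N) → ∃ l ≤ N, d w (y ^ l) ≤ D0 := by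
    intro w hw
    by_contra hcon
    push Not at hcon
    exact hD1 ⟨w, hw, fun l hl => hcon l hl⟩
  suffices hmain : D0 ≤ B by
    intro w hw
    obtain ⟨l, hl, h1⟩ := hnear w hw
    exact ⟨l, hl, h1.trans hmain⟩
  apply hB
  obtain ⟨w, hw, hwl⟩ := hD0
  -- the point `x'`, on the left of `w`
  obtain ⟨x', i, hi, hx'w, hx'1, hx'2, hx'3, hx'i⟩ : ∃ (x' : G) (i : ℕ), i ≤ N ∧ Btw d 1 x' w ∧
      d x' w ≤ 2 * D0 ∧ d x' (y ^ i) ≤ D0 ∧ (∀ v, Btw d x' v (y ^ i) → D0 ≤ d w v) ∧ True := by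
    by_cases hc : d 1 w ≤ 2 * D0
    · refine ⟨1, 0, Nat.zero_le _, btw_left hgeo _ _, hc, ?_, ?_, trivial⟩
      · rw [pow_zero, hgeo.self]; exact Nat.zero_le _
      · intro v hv
        rw [pow_zero] at hv
        have h1 : v = 1 := by
          unfold Btw at hv
          rw [hgeo.self] at hv
          exact (hgeo.eq_of _ _ (by omega)).symm
        have := hwl 0 (Nat.zero_le _)
        rw [pow_zero] at this
        rwa [h1]
    · obtain ⟨x', h1, h2⟩ := hgeo.geo 1 w (d 1 w - 2 * D0) (by omega)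
      have h3 : Btw d 1 x' w := by unfold Btw; omega
      obtain ⟨i, hi, h4⟩ := hnear x' (btw_T1 hgeo h3 hw).1
      refine ⟨x', i, hi, h3, by omega, h4, ?_, trivial⟩
      intro v hv
      unfold Btw at hv
      have h5 := hgeo.tri x' v w
      have h6 := hgeo.symm v w
      omega
  obtain ⟨y', j, hj, hy'w, hy'1, hy'2, hy'3⟩ : ∃ (y' : G) (j : ℕ), j ≤ N ∧ Btw d w y' (y ^ N) ∧
      d w y' ≤ 2 * D0 ∧ d y' (y ^ j) ≤ D0 ∧ (∀ v, Btw d (y ^ j) v y' → D0 ≤ d w v) := by
    by_cases hc : d w (y ^ N) ≤ 2 * D0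
    · refine ⟨y ^ N, N, le_rfl, btw_right hgeo _ _, hc, ?_, ?_⟩
      · rw [hgeo.self]; exact Nat.zero_le _
      · intro v hv
        have h1 : v = y ^ N := by
          unfold Btw at hv
          rw [hgeo.self] at hv
          exact (hgeo.eq_of _ _ (by omega)).symm
        rw [h1]
        exact hwl N le_rfl
    · obtain ⟨y', h1, h2⟩ := hgeo.geo w (y ^ N) (2 * D0) (by omega)
      have h3 : Btw d w y' (y ^ N) := by unfold Btw; omega
      obtain ⟨j, hj, h4⟩ := hnear y' (btw_T1' hgeo h3 hw).1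
      refine ⟨y', j, hj, h3, by omega, h4, ?_⟩
      intro v hv
      unfold Btw at hv
      have h5 := hgeo.tri w v y'
      have h6 := hgeo.symm v y'
      have h7 := hgeo.symm y' (y ^ j)
      have h8 := hgeo.symm v (y ^ j)
      omega
  have hwxy : Btw d x' w y' := by
    have h1 := (btw_T1 hgeo hx'w hw).2
    exact (btw_T1' hgeo hy'w h1).2
  -- the chain
  obtain ⟨n, q, hq0, hqn, hqN, hqs, hnn⟩ : ∃ (n : ℕ) (q : ℕ → ℕ), q 0 = i ∧ q n = j ∧ (∀ t ≤ n, q t ≤ N) ∧
      (∀ t < n, d (y ^ (q t)) (y ^ (q (t + 1))) ≤ d 1 y) ∧ n ≤ m * d (y ^ i) (y ^ j) + c := by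
    have hstep : ∀ a : ℕ, d (y ^ a) (y ^ (a + 1)) = d 1 y := by
      intro a
      have h2 := h.inv (y ^ a) 1 y
      rwa [mul_one, ← pow_succ] at h2
    have hgr := growth h y hy i j
    rw [zpow_natCast, zpow_natCast] at hgr
    rcases le_total i j with hij | hij
    · refine ⟨j - i, fun t => i + t, rfl, by dsimp only; omega, fun t ht => by dsimp only; omega,
        fun t _ => ?_, by omega⟩
      have := hstep (i + t)
      dsimp only
      rw [← Nat.add_assoc]
      exact this.le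
    · refine ⟨i - j, fun t => i - t, rfl, by dsimp only; omega, fun t ht => by dsimp only; omega,
        fun t ht => ?_, by omega⟩
      dsimp only
      have h1 := hstep (i - (t + 1))
      have h2 : i - (t + 1) + 1 = i - t := by omega
      rw [h2, hgeo.symm] at h1
      exact h1.le
  set p : ℕ → G := fun t => if t = 0 then x' else if t = n + 2 then y' else y ^ (q (t - 1)) with hp
  have hp0 : p 0 = x' := by simp [hp]
  have hpn : p (n + 2) = y' := by simp [hp]
  have hpt : ∀ t ≤ n, p (t + 1) = y ^ (q t) := by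
    intro t ht
    simp only [hp]
    rw [if_neg (by omega), if_neg (by omega), Nat.add_sub_cancel]
  obtain ⟨t, ht, v, hv, hwv⟩ := polylog hgeo h.hyp (n + 2) (by omega) p w (by rw [hp0, hpn]; exact hwxy)
  have hclog : Nat.clog 2 (n + 2) ≤ Nat.clog 2 (6 * m * D0 + c + 2) := by
    apply Nat.clog_mono_right
    have h1 := hgeo.tri (y ^ i) x' (y ^ j)
    have h2 := hgeo.tri x' w (y ^ j)
    have h3 := hgeo.tri w y' (y ^ j)
    have h4 := hgeo.symm (y ^ i) x'
    have h5 : d (y ^ i) (y ^ j) ≤ 6 * D0 := by omega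
    have h6 : m * d (y ^ i) (y ^ j) ≤ 6 * m * D0 := by
      calc m * d (y ^ i) (y ^ j) ≤ m * (6 * D0) := Nat.mul_le_mul_left _ h5
        _ = _ := by ring
    omega
  have hlow : D0 ≤ d 1 y + d w v := by
    rcases Nat.eq_zero_or_pos t with h0 | h0
    · subst h0
      rw [hp0, hpt 0 (Nat.zero_le _), hq0] at hv
      have := hx'3 v hv
      omega
    · obtain ⟨t', rfl⟩ : ∃ t', t = t' + 1 := ⟨t - 1, by omega⟩
      rcases Nat.lt_or_ge t' n with h1 | h1
      · rw [hpt t' h1.le, hpt (t' + 1) h1] at hv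
        have h2 := hqs t' h1
        have h3 := hwl (q t') (hqN t' h1.le)
        have h4 := hgeo.tri w v (y ^ (q t'))
        have h5 := hgeo.symm v (y ^ (q t'))
        unfold Btw at hv
        omega
      · have h2 : t' = n := by omega
        subst h2
        rw [hpt _ le_rfl, hqn, hpn] at hv
        have := hy'3 v hv
        omega
  calc D0 ≤ d 1 y + d w v := hlow
    _ ≤ d 1 y + δ * Nat.clog 2 (n + 2) := Nat.add_le_add_left hwv _
    _ ≤ _ := by gcongr

theorem main_int (h : HypMet G d δ) (y : G) {D : ℕ}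
    (hD : ∀ (N : ℕ) (w : G), Btw d 1 w (y ^ N) → ∃ l ≤ N, d w (y ^ l) ≤ D) (i j : ℤ) (hij : i ≤ j)
    (w : G) (hw : Btw d (y ^ i) w (y ^ j)) : ∃ l : ℤ, i ≤ l ∧ l ≤ j ∧ d w (y ^ l) ≤ D := by
  obtain ⟨N, hN⟩ : ∃ N : ℕ, j = i + N := ⟨(j - i).toNat, by omega⟩
  subst hN
  have h1 : Btw d 1 ((y ^ i)⁻¹ * w) (y ^ N) := by
    unfold Btw at *
    have e1 := h.inv (y ^ i) 1 ((y ^ i)⁻¹ * w)
    have e2 := h.inv (y ^ i) ((y ^ i)⁻¹ * w) (y ^ N)
    have e3 := h.inv (y ^ i) 1 (y ^ N)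
    rw [mul_inv_cancel_left, mul_one] at e1
    rw [mul_inv_cancel_left, ← zpow_natCast, ← zpow_add] at e2
    rw [mul_one, ← zpow_natCast, ← zpow_add] at e3
    rw [← zpow_natCast]
    omega
  obtain ⟨l, hl, h2⟩ := hD N _ h1
  refine ⟨i + l, by omega, by omega, ?_⟩
  have e2 := h.inv (y ^ i) ((y ^ i)⁻¹ * w) (y ^ l)
  rw [mul_inv_cancel_left, ← zpow_natCast, ← zpow_add] at e2
  rw [e2, zpow_natCast]
  exact h2

end P06

open P06 in
theorem morse {G : Type*} [Group G] {d : G → G → ℕ} {δ : ℕ} (h : HypMet G d δ) (y : G)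
    (hy : ∃ m c : ℕ, 0 < m ∧ ∀ k : ℕ, k ≤ m * d 1 (y ^ k) + c) :
    ∃ D, (∀ i j : ℤ, ∀ w, Btw d (y ^ i) w (y ^ j) → ∃ l : ℤ, d w (y ^ l) ≤ D) ∧
      ∀ i l j : ℤ, i ≤ l → l ≤ j → ∃ w, Btw d (y ^ i) w (y ^ j) ∧ d (y ^ l) w ≤ D := by
  obtain ⟨m, c, hm, hk⟩ := hy
  obtain ⟨D, hD⟩ := P06.main h y hm hk
  have hgeo := h.geo
  have hint := main_int h y hD
  set J := m * (2 * D + 1) + c with hJ
  refine ⟨D + J * d 1 y, ?_, ?_⟩
  · intro i j w hw
    rcases le_total i j with hij | hij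
    · obtain ⟨l, _, _, h1⟩ := hint i j hij w hw
      exact ⟨l, by omega⟩
    · obtain ⟨l, _, _, h1⟩ := hint j i hij w (hw.comm hgeo)
      exact ⟨l, by omega⟩
  · intro i l j hil hlj
    obtain ⟨γ, ⟨hγ0, hγ1, hγ⟩, -⟩ := exists_geoPath hgeo (y ^ i) (y ^ j) (y ^ i) (btw_left hgeo _ _)
    set L := d (y ^ i) (y ^ j) with hL
    have hb : ∀ t ≤ L, Btw d (y ^ i) (γ t) (y ^ j) := by
      intro t ht
      have h1 := hγ 0 t (Nat.zero_le _) ht
      have h2 := hγ t L ht le_rfl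
      rw [hγ0] at h1
      rw [hγ1] at h2
      unfold Btw
      omega
    have hex : ∀ t : ℕ, ∃ l' : ℤ, t ≤ L → (d (γ t) (y ^ l') ≤ D ∧ (t = L → l' = j) ∧ (t = 0 → l' = i ∨ L = 0)) := by
      intro t
      by_cases ht : t ≤ L
      · by_cases htL : t = L
        · refine ⟨j, fun _ => ⟨?_, fun _ => rfl, fun h0 => Or.inr (by omega)⟩⟩
          rw [htL, hγ1, hgeo.self]
          exact Nat.zero_le _
        · by_cases ht0 : t = 0
          · refine ⟨i, fun _ => ⟨?_, fun h1 => absurd h1 htL, fun _ => Or.inl rfl⟩⟩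
            rw [ht0, hγ0, hgeo.self]
            exact Nat.zero_le _
          · obtain ⟨l', _, _, h1⟩ := hint i j (by omega) (γ t) (hb t ht)
            exact ⟨l', fun _ => ⟨h1, fun h2 => absurd h2 htL, fun h2 => absurd h2 ht0⟩⟩
      · exact ⟨0, fun h1 => absurd h1 ht⟩
    choose f hf using hex
    -- jumps
    have hjump : ∀ t, t + 1 ≤ L → (f (t + 1) - f t).natAbs ≤ J := by
      intro t ht
      have h1 := (hf t (by omega)).1
      have h2 := (hf (t + 1) ht).1
      have h3 := hγ t (t + 1) (by omega) ht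
      have h4 := hgeo.tri (y ^ (f t)) (γ t) (y ^ (f (t + 1)))
      have h5 := hgeo.tri (γ t) (γ (t + 1)) (y ^ (f (t + 1)))
      have h6 := hgeo.symm (y ^ (f t)) (γ t)
      have h7 := growth h y hk (f t) (f (t + 1))
      have h8 : d (y ^ (f t)) (y ^ (f (t + 1))) ≤ 2 * D + 1 := by omega
      have h9 : m * d (y ^ (f t)) (y ^ (f (t + 1))) ≤ m * (2 * D + 1) := Nat.mul_le_mul_left _ h8
      omega
    have hgood : ∃ t ≤ L, (l - f t).natAbs ≤ J := by
      by_cases hL0 : L = 0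
      · -- then `y ^ i = y ^ j`
        refine ⟨0, Nat.zero_le _, ?_⟩
        have h1 : f 0 = j := (hf 0 (Nat.zero_le _)).2.1 hL0.symm
        have h2 := growth h y hk i j
        rw [← hL, hL0] at h2
        rw [h1]
        have h3 : (l - j).natAbs ≤ (j - i).natAbs := by omega
        have : J = m * (2 * D + 1) + c := hJ
        omega
      · by_contra hcon
        push Not at hcon
        have hlt : ∀ t ≤ L, f t < l := by
          intro t
          induction t with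
          | zero =>
            intro _
            have h1 := (hf 0 (Nat.zero_le _)).2.2 rfl
            rcases h1 with h1 | h1
            · have := hcon 0 (Nat.zero_le _)
              omega
            · exact absurd h1 hL0
          | succ t ih =>
            intro ht
            have h1 := ih (by omega)
            have h2 := hjump t ht
            have h3 := hcon t (by omega)
            have h4 := hcon (t + 1) ht
            omega
        have h1 := hlt L le_rfl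
        have h2 := (hf L le_rfl).2.1 rfl
        omega
    obtain ⟨t, ht, h1⟩ := hgood
    refine ⟨γ t, hb t ht, ?_⟩
    have h2 := hgeo.tri (y ^ l) (y ^ (f t)) (γ t)
    have h3 := (hf t ht).1
    have h4 := hgeo.symm (y ^ (f t)) (γ t)
    have h5 := upper h y l (f t)
    have h6 : (f t - l).natAbs * d 1 y ≤ J * d 1 y := Nat.mul_le_mul_right _ (by omega)
    omega

end Pool.Agent.Lib.MP_f1646b_al
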