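import Pool.Agent.Lib.MP_f1646b_al.Betw
import Pool.Agent.Lib.MP_f1646b_al.P05

/-!
# MP_f1646b_al, piece P07a: the elementary closure is a subgroup; conjugate powers (helper24)
-/

set_option autoImplicit false

namespace Pool.Agent.Lib.MP_f1646b_al

namespace P07a

section Elem
variable {G : Type*} [Group G] {y : G}

theorem elemRel_iff (g : G) : ElemRel y g ↔
    ∃ m : ℤ, ∃ s : ℤ, m ≠ 0 ∧ (s = 1 ∨ s = -1) ∧ g * y ^ m * g⁻¹ = y ^ (s * m) := by
  constructor
  · rintro ⟨m, hm, h | h⟩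
    · exact ⟨m, 1, by exact_mod_cast hm.ne', Or.inl rfl, by simpa using h⟩
    · exact ⟨m, -1, by exact_mod_cast hm.ne', Or.inr rfl, by simpa using h⟩
  · rintro ⟨m, s, hm, hs, h⟩
    have key : ∀ m : ℤ, 0 < m → g * y ^ m * g⁻¹ = y ^ (s * m) → ElemRel y g := by
      intro m hm h
      obtain ⟨n, rfl⟩ := Int.eq_ofNat_of_zero_le hm.le
      refine ⟨n, by exact_mod_cast hm, ?_⟩
      rcases hs with rfl | rfl
      · left
        simpa using h
      · right
        simpa using h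
    rcases lt_or_gt_of_ne hm with h0 | h0
    · refine key (-m) (by omega) ?_
      have h1 := congrArg (fun z => z⁻¹) h
      simp only [← zpow_neg, conj_inv] at h1
      rw [mul_neg]
      exact h1
    · exact key m h0 h

theorem elem_one : ElemRel y 1 := ⟨1, one_pos, Or.inl (by simp)⟩

theorem elem_mul {g h : G} (hg : ElemRel y g) (hh : ElemRel y h) : ElemRel y (g * h) := by
  rw [elemRel_iff] at *
  obtain ⟨m, s, hm, hs, h1⟩ := hg
  obtain ⟨l, t, hl, ht, h2⟩ := hh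
  refine ⟨l * m, s * t, mul_ne_zero hl hm, ?_, ?_⟩
  · rcases hs with rfl | rfl <;> rcases ht with rfl | rfl <;> simp
  · have e1 : h * y ^ (l * m) * h⁻¹ = y ^ (t * l * m) := by
      rw [zpow_mul, ← conj_zpow, h2, ← zpow_mul]
    have e2 : g * y ^ (t * l * m) * g⁻¹ = y ^ (s * t * (l * m)) := by
      rw [show t * l * m = m * (t * l) by ring, zpow_mul, ← conj_zpow, h1, ← zpow_mul]
      congr 1
      ring
    calc g * h * y ^ (l * m) * (g * h)⁻¹ = g * (h * y ^ (l * m) * h⁻¹) * g⁻¹ := by group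
      _ = _ := by rw [e1, e2]

theorem elem_inv {g : G} (hg : ElemRel y g) : ElemRel y g⁻¹ := by
  rw [elemRel_iff] at *
  obtain ⟨m, s, hm, hs, h1⟩ := hg
  refine ⟨m, s, hm, hs, ?_⟩
  have hss : s * s = 1 := by rcases hs with rfl | rfl <;> norm_num
  have h2 : g * y ^ (s * m) * g⁻¹ = y ^ m := by
    rw [mul_comm s m, zpow_mul, ← conj_zpow, h1, ← zpow_mul]
    congr 1
    calc s * m * s = s * s * m := by ring
      _ = m := by rw [hss, one_mul]
  rw [← h2]
  group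

end Elem

section Norm
variable {G : Type*} [Group G] {d : G → G → ℕ} {δ : ℕ}

theorem nm_mul (h : HypMet G d δ) (x z : G) : d 1 (x * z) ≤ d 1 x + d 1 z := by
  have h1 := h.geo.tri 1 x (x * z)
  have h2 := h.inv x 1 z
  rw [mul_one] at h2
  omega

theorem nm_inv (h : HypMet G d δ) (x : G) : d 1 x⁻¹ = d 1 x := by
  have h2 := h.inv x 1 x⁻¹
  rw [mul_one, mul_inv_cancel] at h2
  rw [← h2, h.geo.symm]

theorem nm_pow (h : HypMet G d δ) (x : G) (n : ℕ) : d 1 (x ^ n) ≤ n * d 1 x := by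
  induction n with
  | zero => rw [pow_zero, h.geo.self]; exact Nat.zero_le _
  | succ n ih =>
    rw [pow_succ]
    have := nm_mul h (x ^ n) x
    rw [Nat.succ_mul]
    omega

theorem nm_zpow (h : HypMet G d δ) (x : G) (z : ℤ) : d 1 (x ^ z) = d 1 (x ^ z.natAbs) := by
  rcases Int.natAbs_eq z with h1 | h1
  · conv_lhs => rw [h1]
    rw [zpow_natCast]
  · conv_lhs => rw [h1]
    rw [zpow_neg, zpow_natCast, nm_inv h]

theorem bern (a s : ℕ) : a ^ s * (a + s) ≤ a * (a + 1) ^ s := by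
  induction s with
  | zero => simp
  | succ s ih =>
    calc a ^ (s + 1) * (a + (s + 1)) = a * (a ^ s * (a + s)) + a ^ s * a := by ring
      _ ≤ a * (a ^ s * (a + s)) + a ^ s * (a + s) := by gcongr; omega
      _ = (a + 1) * (a ^ s * (a + s)) := by ring
      _ ≤ (a + 1) * (a * (a + 1) ^ s) := by gcongr
      _ = _ := by ring

theorem beats (a A B C : ℕ) (ha : 0 < a) : ∃ r : ℕ, A * a ^ r + B * r + C < (a + 1) ^ r := by
  set s := a ^ 2 * (A + 2 * B + C) + 1 with hs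
  refine ⟨2 * s, ?_⟩
  have h1 : s * a ^ s ≤ a * (a + 1) ^ s := by
    refine le_trans ?_ (bern a s)
    rw [mul_comm]
    gcongr
    omega
  have h2 : s ^ 2 * a ^ (2 * s) ≤ a ^ 2 * (a + 1) ^ (2 * s) := by
    calc s ^ 2 * a ^ (2 * s) = (s * a ^ s) ^ 2 := by ring
      _ ≤ (a * (a + 1) ^ s) ^ 2 := Nat.pow_le_pow_left h1 2
      _ = _ := by ring
  have h3 : a ^ 2 * (A + 2 * B * s + C) < s ^ 2 := by
    have h4 : a ^ 2 * (A + 2 * B * s + C) ≤ a ^ 2 * ((A + 2 * B + C) * s) := by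
      gcongr
      have : 1 ≤ s := by omega
      nlinarith [Nat.zero_le (A * (s - 1)), Nat.mul_le_mul_left A this, Nat.mul_le_mul_left C this]
    calc a ^ 2 * (A + 2 * B * s + C) ≤ a ^ 2 * ((A + 2 * B + C) * s) := h4
      _ = (a ^ 2 * (A + 2 * B + C)) * s := by ring
      _ < s * s := by
        apply Nat.mul_lt_mul_of_pos_right
        · omega
        · omega
      _ = s ^ 2 := by ring
  have hpos : 0 < a ^ (2 * s) := pow_pos ha _
  have h5 : a ^ 2 * (A * a ^ (2 * s) + B * (2 * s) + C) < a ^ 2 * (a + 1) ^ (2 * s) := by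
    calc a ^ 2 * (A * a ^ (2 * s) + B * (2 * s) + C)
        ≤ a ^ 2 * ((A + 2 * B * s + C) * a ^ (2 * s)) := by
          gcongr
          nlinarith [Nat.mul_le_mul_left (2 * B * s) hpos, Nat.mul_le_mul_left C hpos]
      _ = (a ^ 2 * (A + 2 * B * s + C)) * a ^ (2 * s) := by ring
      _ < s ^ 2 * a ^ (2 * s) := Nat.mul_lt_mul_of_pos_right h3 hpos
      _ ≤ _ := h2
  exact Nat.lt_of_mul_lt_mul_left h5

theorem conj_iter {g y : G} {k l : ℤ} (hkl : g * y ^ l * g⁻¹ = y ^ k) (r : ℕ) :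
    g ^ r * y ^ (l ^ r) * (g ^ r)⁻¹ = y ^ (k ^ r) := by
  induction r with
  | zero => simp
  | succ r ih =>
    have e1 : g * y ^ (l ^ (r + 1)) * g⁻¹ = (y ^ (l ^ r)) ^ k := by
      rw [pow_succ', zpow_mul, ← conj_zpow, hkl, ← zpow_mul, ← zpow_mul, mul_comm]
    calc g ^ (r + 1) * y ^ (l ^ (r + 1)) * (g ^ (r + 1))⁻¹
        = g ^ r * (g * y ^ (l ^ (r + 1)) * g⁻¹) * (g ^ r)⁻¹ := by
          rw [pow_succ g r]; group
      _ = (g ^ r * y ^ (l ^ r) * (g ^ r)⁻¹) ^ k := by rw [e1, conj_zpow]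
      _ = y ^ (k ^ (r + 1)) := by rw [ih, ← zpow_mul, ← pow_succ]

theorem no_larger (h : HypMet G d δ) (y : G) (hy : InfOrd y) (g : G) (k l : ℤ) (hl : l ≠ 0)
    (hlt : l.natAbs < k.natAbs) (hkl : g * y ^ l * g⁻¹ = y ^ k) : False := by
  obtain ⟨m, c, hm, hmc⟩ := lin_growth h y hy
  obtain ⟨r, hr⟩ := beats l.natAbs (m * d 1 y) (2 * (m * d 1 g)) c (Int.natAbs_pos.2 hl)
  have h1 := conj_iter hkl r
  have h2 : d 1 (y ^ (k ^ r)) ≤ r * d 1 g + l.natAbs ^ r * d 1 y + r * d 1 g := by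
    rw [← h1]
    have e1 := nm_mul h (g ^ r * y ^ (l ^ r)) (g ^ r)⁻¹
    have e2 := nm_mul h (g ^ r) (y ^ (l ^ r))
    have e3 := nm_pow h g r
    have e4 := nm_inv h (g ^ r)
    have e5 : d 1 (y ^ (l ^ r)) ≤ l.natAbs ^ r * d 1 y := by
      rw [nm_zpow h, Int.natAbs_pow]
      exact nm_pow h y _
    omega
  have h3 := hmc (k.natAbs ^ r)
  rw [nm_zpow h, Int.natAbs_pow] at h2
  have h4 : (l.natAbs + 1) ^ r ≤ k.natAbs ^ r := Nat.pow_le_pow_left hlt r
  have h5 : m * d 1 (y ^ k.natAbs ^ r) ≤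
      m * (r * d 1 g + l.natAbs ^ r * d 1 y + r * d 1 g) := Nat.mul_le_mul_left m h2
  have h6 : m * (r * d 1 g + l.natAbs ^ r * d 1 y + r * d 1 g) =
      m * d 1 y * l.natAbs ^ r + 2 * (m * d 1 g) * r := by ring
  omega

end Norm
end P07a

/-- the elementary closure is a subgroup -/
theorem elem_subgroup {G : Type*} [Group G] (y : G) : ∃ E : Subgroup G, ∀ g, g ∈ E ↔ ElemRel y g :=
  ⟨{ carrier := {g | ElemRel y g}
     one_mem' := P07a.elem_one
     mul_mem' := fun ha hb => P07a.elem_mul ha hb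
     inv_mem' := fun ha => P07a.elem_inv ha }, fun _ => Iff.rfl⟩

theorem conj_pow_eq {G : Type*} [Group G] {d : G → G → ℕ} {δ : ℕ} (h : HypMet G d δ) (y : G)
    (hy : InfOrd y) (g : G) (k l : ℤ) (hk : k ≠ 0) (hkl : g * y ^ l * g⁻¹ = y ^ k) :
    ElemRel y g := by
  have hz : ∀ z : ℤ, z ≠ 0 → y ^ z ≠ 1 := by
    intro z hz h1
    refine hy z.natAbs (Int.natAbs_pos.2 hz) ?_
    rcases Int.natAbs_eq z with h2 | h2
    · rw [h2, zpow_natCast] at h1; exact h1
    · rw [h2, zpow_neg, zpow_natCast, inv_eq_one] at h1; exact h1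
  have hl : l ≠ 0 := by
    rintro rfl
    rw [zpow_zero, mul_one, mul_inv_cancel] at hkl
    exact hz k hk hkl.symm
  rcases lt_trichotomy l.natAbs k.natAbs with h1 | h1 | h1
  · exact (P07a.no_larger h y hy g k l hl h1 hkl).elim
  · rw [P07a.elemRel_iff]
    rcases Int.natAbs_eq_natAbs_iff.1 h1 with h2 | h2
    · exact ⟨l, 1, hl, Or.inl rfl, by rw [one_mul, hkl, h2]⟩
    · exact ⟨l, -1, hl, Or.inr rfl, by rw [hkl]; congr 1; omega⟩
  · refine (P07a.no_larger h y hy g⁻¹ l k hk h1 ?_).elim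
    rw [← hkl]
    group

end Pool.Agent.Lib.MP_f1646b_al
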