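import Pool.Agent.Lib.MP_f1646b_al.Betw
import Pool.Agent.Lib.MP_f1646b_al.P01
import Pool.Agent.Lib.MP_f1646b_al.P05
import Pool.Agent.Lib.MP_f1646b_al.P06
import Pool.Agent.Lib.MP_f1646b_al.P07a

/-!
# MP_f1646b_al, piece P07b: elementary closures are close to the cyclic subgroup, quasiconvex and
separated (helper57)
-/

set_option autoImplicit false

namespace Pool.Agent.Lib.MP_f1646b_al

namespace P07b

variable {G : Type*} [Group G] {d : G → G → ℕ} {δ : ℕ}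

theorem dist_zpow (h : HypMet G d δ) (y : G) (a b : ℤ) :
    d (y ^ a) (y ^ b) = d 1 (y ^ (b - a).natAbs) := by
  have h1 : ∀ a b : ℤ, a ≤ b → d (y ^ a) (y ^ b) = d 1 (y ^ (b - a).natAbs) := by
    intro a b hab
    have h2 := h.inv (y ^ a) 1 (y ^ (b - a).natAbs)
    rw [mul_one] at h2
    rw [← h2, ← zpow_natCast y, ← zpow_add]
    congr 2
    omega
  rcases le_total a b with hab | hab
  · exact h1 a b hab
  · rw [h.geo.symm, h1 b a hab]
    congr 2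
    omega

theorem growth (h : HypMet G d δ) (y : G) {m c : ℕ}
    (hmc : ∀ k : ℕ, k ≤ m * d 1 (y ^ k) + c) (a b : ℤ) :
    (b - a).natAbs ≤ m * d (y ^ a) (y ^ b) + c := by
  rw [dist_zpow h]
  exact hmc _

theorem dist_pow_le (h : HypMet G d δ) (y : G) (k : ℕ) : d 1 (y ^ k) ≤ k * d 1 y := by
  induction k with
  | zero => simp [h.geo.self]
  | succ k ih =>
    have h1 := h.geo.tri 1 (y ^ k) (y ^ (k + 1))
    have h2 := h.inv (y ^ k) 1 y
    rw [mul_one, ← pow_succ] at h2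
    rw [h2] at h1
    rw [add_mul, one_mul]
    omega

theorem dist_right (h : HypMet G d δ) (x g : G) : d x (x * g) = d 1 g := by
  have h2 := h.inv x 1 g
  rwa [mul_one] at h2

theorem btw_mul (h : HypMet G d δ) (g x w z : G) (hb : Btw d x w z) :
    Btw d (g * x) (g * w) (g * z) := by
  unfold Btw at *
  rw [h.inv, h.inv, h.inv]
  exact hb

theorem self_rel (y : G) : ElemRel y y := ⟨1, one_pos, Or.inl (by group)⟩

end P07b

open P07b

theorem elem_near {G : Type*} [Group G] {d : G → G → ℕ} {δ : ℕ} (h : HypMet G d δ) (y : G)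
    (hy : InfOrd y) : ∃ D, ∀ g, ElemRel y g → ∃ l : ℤ, d g (y ^ l) ≤ D := by
  obtain ⟨m, c, hm, hmc⟩ := lin_growth h y hy
  obtain ⟨D₁, hD1, hD2⟩ := morse h y ⟨m, c, hm, hmc⟩
  refine ⟨2 * D₁ + 2 * δ, ?_⟩
  rintro g ⟨l, hl, hgl⟩
  -- a large multiple of `l`
  obtain ⟨N, hN⟩ : ∃ N : ℕ, N = l * (m * (d 1 g + 2 * δ + D₁ + 1) + c) := ⟨_, rfl⟩
  have hNbig : m * (d 1 g + 2 * δ + D₁ + 1) + c ≤ N := by
    rw [hN]
    exact Nat.le_mul_of_pos_left _ hl
  -- conjugation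
  have hconj : ∃ s : ℤ, (s = 1 ∨ s = -1) ∧ ∀ a : ℤ, g * y ^ ((N : ℤ) * a) = y ^ (s * N * a) * g := by
    have key : ∀ s : ℤ, g * y ^ (l : ℤ) * g⁻¹ = y ^ (s * l) →
        ∀ a : ℤ, g * y ^ ((N : ℤ) * a) = y ^ (s * N * a) * g := by
      intro s hs a
      have h1 := congrArg (fun z => z ^ (((m * (d 1 g + 2 * δ + D₁ + 1) + c : ℕ) : ℤ) * a)) hs
      rw [conj_zpow, ← zpow_mul, ← zpow_mul] at h1
      have h2 : ((N : ℤ) * a) = (l : ℤ) * (((m * (d 1 g + 2 * δ + D₁ + 1) + c : ℕ) : ℤ) * a) := by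
        rw [hN, Nat.cast_mul]; ring
      have h3 : (s * N * a) = (s * l : ℤ) * (((m * (d 1 g + 2 * δ + D₁ + 1) + c : ℕ) : ℤ) * a) := by
        rw [hN, Nat.cast_mul]; ring
      rw [h2, h3, ← h1]
      group
    rcases hgl with h1 | h1
    · refine ⟨1, Or.inl rfl, key 1 ?_⟩
      rw [one_mul, zpow_natCast]; exact h1
    · refine ⟨-1, Or.inr rfl, key (-1) ?_⟩
      rw [zpow_natCast, h1, neg_one_mul, zpow_neg, zpow_natCast]
  obtain ⟨s, hs, hconj⟩ := hconj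
  obtain ⟨w, hw, hwD⟩ := hD2 (-(N : ℤ)) 0 N (by omega) (by omega)
  rw [zpow_zero] at hwD
  -- the translate of `w`
  have hgw := btw_mul h g _ _ _ hw
  have e1 : g * y ^ (-(N : ℤ)) = y ^ (-(s * N)) * g := by
    have := hconj (-1)
    rwa [mul_neg_one, mul_neg_one] at this
  have e2 : g * y ^ (N : ℤ) = y ^ (s * N) * g := by
    have := hconj 1
    rwa [mul_one, mul_one] at this
  have f1 : d (y ^ (-(s * N)) * g) (y ^ (-(s * N))) = d 1 g := by
    rw [h.geo.symm, dist_right h]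
  have f2 : d (y ^ (s * N) * g) (y ^ (s * N)) = d 1 g := by
    rw [h.geo.symm, dist_right h]
  have g1 : d 1 g + 2 * δ + 1 ≤ d (y ^ (-(N : ℤ))) w := by
    have t1 := growth h y hmc (-(N : ℤ)) 0
    rw [zpow_zero] at t1
    have t2 := h.geo.tri (y ^ (-(N : ℤ))) w 1
    rw [h.geo.symm w 1] at t2
    have t3 : m * (d 1 g + 2 * δ + D₁ + 1) ≤ m * d (y ^ (-(N : ℤ))) 1 := by
      have : (0 - (-(N : ℤ))).natAbs = N := by omega
      omega
    have t4 := Nat.le_of_mul_le_mul_left t3 hm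
    omega
  have g2 : d 1 g + 2 * δ + 1 ≤ d w (y ^ (N : ℤ)) := by
    have t1 := growth h y hmc 0 (N : ℤ)
    rw [zpow_zero] at t1
    have t2 := h.geo.tri 1 w (y ^ (N : ℤ))
    have t3 : m * (d 1 g + 2 * δ + D₁ + 1) ≤ m * d 1 (y ^ (N : ℤ)) := by
      have : ((N : ℤ) - 0).natAbs = N := by omega
      omega
    have t4 := Nat.le_of_mul_le_mul_left t3 hm
    omega
  obtain ⟨w', hw', hww'⟩ := fellow h.geo h.hyp (x := g * y ^ (-(N : ℤ))) (y := g * y ^ (N : ℤ))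
    (x' := y ^ (-(s * N))) (y' := y ^ (s * N)) (w := g * w) hgw
    (by rw [h.inv, e1, f1]; omega) (by rw [h.inv, e2, f2]; omega)
  obtain ⟨l', hl'⟩ := hD1 _ _ _ hw'
  refine ⟨l', ?_⟩
  have t1 := h.geo.tri g (g * w) (y ^ l')
  have t2 := h.geo.tri (g * w) w' (y ^ l')
  have t3 : d g (g * w) = d 1 w := dist_right h g w
  omega

theorem elem_qcsep {G : Type*} [Group G] {d : G → G → ℕ} {δ : ℕ} (h : HypMet G d δ) (y : G)
    (hy : InfOrd y) (E : Subgroup G) (hE : ∀ g, g ∈ E ↔ ElemRel y g) : QCSep d E := by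
  classical
  obtain ⟨m, c, hm, hmc⟩ := lin_growth h y hy
  obtain ⟨D₁, hD1, hD1'⟩ := morse h y ⟨m, c, hm, hmc⟩
  obtain ⟨D₂, hD2⟩ := elem_near h y hy
  have hyE : ∀ l : ℤ, y ^ l ∈ E := fun l => E.zpow_mem ((hE y).2 (self_rel y)) l
  constructor
  · refine ⟨2 * δ + D₁ + D₂, ?_⟩
    intro u hu v hv w hw
    obtain ⟨i, hi⟩ := hD2 u ((hE u).1 hu)
    obtain ⟨j, hj⟩ := hD2 v ((hE v).1 hv)
    obtain ⟨p, hp, hwp⟩ := quad h.geo h.hyp hw (y ^ i) (y ^ j)
    rcases hp with hp | hp | hp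
    · refine ⟨u, hu, ?_⟩
      unfold Btw at hp
      have t1 := h.geo.tri w p u
      have t2 := h.geo.symm p u
      omega
    · obtain ⟨l, hl⟩ := hD1 _ _ _ hp
      refine ⟨y ^ l, hyE l, ?_⟩
      have t1 := h.geo.tri w p (y ^ l)
      omega
    · refine ⟨v, hv, ?_⟩
      unfold Btw at hp
      have t1 := h.geo.tri w p v
      have t2 := h.geo.symm (y ^ j) v
      omega
  · intro r
    obtain ⟨r₁, hr1⟩ : ∃ r₁ : ℕ, r₁ = r + 2 * D₂ := ⟨_, rfl⟩
    obtain ⟨Λ, hΛ⟩ : ∃ Λ : ℕ, Λ = m * (r₁ + 2 * δ + D₁ + 1) + c := ⟨_, rfl⟩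
    obtain ⟨K, hK⟩ : ∃ K : ℕ, K = (h.fin (2 * D₁ + 2 * δ)).toFinset.card := ⟨_, rfl⟩
    -- the exponents are close
    have key : ∀ g, g ∉ E → ∀ a₁ a₂ b₁ b₂ : ℤ, a₁ ≤ a₂ → d (y ^ a₁) (g * y ^ b₁) ≤ r₁ →
        d (y ^ a₂) (g * y ^ b₂) ≤ r₁ → a₂ - a₁ ≤ 2 * Λ + K := by
      intro g hg a₁ a₂ b₁ b₂ ha h1 h2
      by_contra hcon
      push Not at hcon
      have hab : ∀ a : ℤ, a₁ + Λ ≤ a → a ≤ a₂ - Λ → ∃ b : ℤ, d (y ^ a) (g * y ^ b) ≤ 2 * D₁ + 2 * δ := by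
        intro a ha1 ha2
        obtain ⟨w, hw, hwD⟩ := hD1' a₁ a a₂ (by omega) (by omega)
        have g1 : r₁ + 2 * δ + 1 ≤ d (y ^ a₁) w := by
          have t1 := growth h y hmc a₁ a
          have t2 := h.geo.tri (y ^ a₁) w (y ^ a)
          rw [h.geo.symm w] at t2
          have t3 : m * (r₁ + 2 * δ + D₁ + 1) ≤ m * d (y ^ a₁) (y ^ a) := by omega
          have t4 := Nat.le_of_mul_le_mul_left t3 hm
          omega
        have g2 : r₁ + 2 * δ + 1 ≤ d w (y ^ a₂) := by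
          have t1 := growth h y hmc a a₂
          have t2 := h.geo.tri (y ^ a) w (y ^ a₂)
          have t3 : m * (r₁ + 2 * δ + D₁ + 1) ≤ m * d (y ^ a) (y ^ a₂) := by omega
          have t4 := Nat.le_of_mul_le_mul_left t3 hm
          omega
        obtain ⟨w', hw', hww'⟩ := fellow h.geo h.hyp (x' := g * y ^ b₁) (y' := g * y ^ b₂) hw
          (by omega) (by omega)
        have hw2 := btw_mul h g⁻¹ _ _ _ hw'
        rw [inv_mul_cancel_left, inv_mul_cancel_left] at hw2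
        obtain ⟨b, hb⟩ := hD1 _ _ _ hw2
        refine ⟨b, ?_⟩
        have t0 : d w' (g * y ^ b) = d (g⁻¹ * w') (y ^ b) := by
          have := h.inv g (g⁻¹ * w') (y ^ b)
          rwa [mul_inv_cancel_left] at this
        have t1 := h.geo.tri (y ^ a) w (g * y ^ b)
        have t2 := h.geo.tri w w' (g * y ^ b)
        omega
      -- pigeonhole
      choose! β hβ using hab
      have hmaps : ∀ a ∈ Finset.Icc (a₁ + Λ) (a₂ - Λ),
          y ^ (-a) * (g * y ^ (β a)) ∈ (h.fin (2 * D₁ + 2 * δ)).toFinset := by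
        intro a ha
        rw [Finset.mem_Icc] at ha
        rw [Set.Finite.mem_toFinset, Set.mem_ofPred_eq]
        have t0 := h.inv (y ^ (-a)) (y ^ a) (g * y ^ (β a))
        rw [← zpow_add, neg_add_cancel, zpow_zero] at t0
        rw [t0]
        exact hβ a ha.1 ha.2
      have hcard : (h.fin (2 * D₁ + 2 * δ)).toFinset.card < (Finset.Icc (a₁ + Λ) (a₂ - Λ)).card := by
        rw [Int.card_Icc, ← hK]
        omega
      obtain ⟨a, -, a', -, hne, heq⟩ := Finset.exists_ne_map_eq_of_card_lt_of_maps_to hcard hmaps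
      apply hg
      rw [hE]
      refine conj_pow_eq h y hy g (a - a') (β a - β a') (sub_ne_zero.2 hne) ?_
      have e1 : g * y ^ (β a) = y ^ a * (y ^ (-a) * (g * y ^ (β a))) := by group
      have e2 : g * y ^ (β a') = y ^ a' * (y ^ (-a') * (g * y ^ (β a'))) := by group
      rw [heq] at e1
      have e3 : g * y ^ (β a - β a') * g⁻¹ = (g * y ^ (β a)) * (g * y ^ (β a'))⁻¹ := by group
      rw [e3, e1, e2]
      group
    refine ⟨2 * D₂ + (2 * Λ + K) * d 1 y, ?_⟩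
    intro g hg u₁ hu1 u₂ hu2 v₁ hv1 v₂ hv2 h1 h2
    obtain ⟨a₁, ha1⟩ := hD2 u₁ ((hE _).1 hu1)
    obtain ⟨a₂, ha2⟩ := hD2 u₂ ((hE _).1 hu2)
    obtain ⟨b₁, hb1⟩ := hD2 v₁ ((hE _).1 hv1)
    obtain ⟨b₂, hb2⟩ := hD2 v₂ ((hE _).1 hv2)
    have close : ∀ (u v : G) (a b : ℤ), d u (y ^ a) ≤ D₂ → d v (y ^ b) ≤ D₂ → d u (g * v) ≤ r →
        d (y ^ a) (g * y ^ b) ≤ r₁ := by
      intro u v a b hu hv huv
      have t1 := h.geo.tri (y ^ a) u (g * y ^ b)
      have t2 := h.geo.tri u (g * v) (g * y ^ b)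
      have t3 := h.inv g v (y ^ b)
      have t4 := h.geo.symm (y ^ a) u
      omega
    have c1 := close _ _ _ _ ha1 hb1 h1
    have c2 := close _ _ _ _ ha2 hb2 h2
    have habs : (a₂ - a₁).natAbs ≤ 2 * Λ + K := by
      rcases le_total a₁ a₂ with hle | hle
      · have := key g hg a₁ a₂ b₁ b₂ hle c1 c2
        omega
      · have := key g hg a₂ a₁ b₂ b₁ hle c2 c1
        omega
    have t1 := h.geo.tri u₁ (y ^ a₁) u₂
    have t2 := h.geo.tri (y ^ a₁) (y ^ a₂) u₂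
    have t3 := h.geo.symm (y ^ a₂) u₂
    have t4 := dist_zpow h y a₁ a₂
    have t5 := dist_pow_le h y (a₂ - a₁).natAbs
    have t6 := Nat.mul_le_mul_right (d 1 y) habs
    omega

end Pool.Agent.Lib.MP_f1646b_al
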