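import Pool.Agent.Lib.MP_f1646b_al.Betw

set_option autoImplicit false

/-!
# MP_f1646b_al, piece P08a : the line homomorphism of an elementary closure (helper41)
-/

namespace Pool.Agent.Lib.MP_f1646b_al

namespace P08a

/-- the power map of exponent the index of a central cyclic subgroup is multiplicative -/
lemma pow_mul_of_central {P : Type*} [Group P] (z : P) (hz : ∀ g : P, g * z = z * g)
    [hfi : (Subgroup.zpowers z).FiniteIndex] (a b : P) :
    (a * b) ^ (Subgroup.zpowers z).index =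
      a ^ (Subgroup.zpowers z).index * b ^ (Subgroup.zpowers z).index ∧
    a ^ (Subgroup.zpowers z).index ∈ Subgroup.zpowers z := by
  set H := Subgroup.zpowers z with hH
  have hcen : ∀ h ∈ H, ∀ g : P, g * h = h * g := by
    intro h hh g
    obtain ⟨i, rfl⟩ := Subgroup.mem_zpowers_iff.1 hh
    have : Commute g z := hz g
    exact this.zpow_right i
  have key : ∀ g : P, ∀ (k : ℕ) (g₀ : P), g₀⁻¹ * g ^ k * g₀ ∈ H → g₀⁻¹ * g ^ k * g₀ = g ^ k := by
    intro g k g₀ hh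
    have h1 := hcen _ hh g₀
    have h2 : g₀ * (g₀⁻¹ * g ^ k * g₀) = g ^ k * g₀ := by group
    rw [h2] at h1
    exact (mul_right_cancel h1).symm
  let _ : CommGroup H := { (inferInstance : Group H) with
    mul_comm := fun x y => Subtype.ext (hcen _ y.2 x.1) }
  have h1 : ∀ g, MonoidHom.transfer (MonoidHom.id H) g = _ := fun g =>
    MonoidHom.transfer_eq_pow (MonoidHom.id H) g (key g)
  have h2 := (MonoidHom.transfer (MonoidHom.id H)).map_mul a b
  rw [h1, h1, h1] at h2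
  have h3 := congrArg (fun x : H => (x : P)) h2
  refine ⟨by simpa using h3, MonoidHom.transfer_eq_pow_aux a (key a)⟩

variable {G : Type*} [Group G]

lemma zpow_inj {y : G} (hy : InfOrd y) {a b : ℤ} (h : y ^ a = y ^ b) : a = b := by
  have hinj : Function.Injective (fun n : ℤ => y ^ n) := by
    rw [injective_zpow_iff_not_isOfFinOrder, isOfFinOrder_iff_pow_eq_one]
    rintro ⟨n, hn, h⟩
    exact hy n hn h
  exact hinj h

lemma fix_pow {g y : G} {m : ℕ} (h : g * y ^ m * g⁻¹ = y ^ m) (n : ℕ) :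
    g * y ^ (m * n) * g⁻¹ = y ^ (m * n) := by
  rw [pow_mul, ← conj_pow, h]

lemma inv_pow' {g y : G} {m : ℕ} (h : g * y ^ m * g⁻¹ = (y ^ m)⁻¹) (n : ℕ) :
    g * y ^ (m * n) * g⁻¹ = (y ^ (m * n))⁻¹ := by
  rw [pow_mul, ← conj_pow, h, inv_pow]

/-- the orientation preserving part of the elementary closure -/
def EpS (y : G) : Subgroup G where
  carrier := {g | ∃ m : ℕ, 0 < m ∧ g * y ^ m * g⁻¹ = y ^ m}
  one_mem' := ⟨1, one_pos, by simp⟩
  mul_mem' := by
    rintro a b ⟨m, hm, h⟩ ⟨n, hn, h'⟩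
    refine ⟨m * n, Nat.mul_pos hm hn, ?_⟩
    have h1 := fix_pow h n
    have h2 := fix_pow h' m
    rw [mul_comm n m] at h2
    calc a * b * y ^ (m * n) * (a * b)⁻¹ = a * (b * y ^ (m * n) * b⁻¹) * a⁻¹ := by group
      _ = y ^ (m * n) := by rw [h2, h1]
  inv_mem' := by
    rintro a ⟨m, hm, h⟩
    refine ⟨m, hm, ?_⟩
    calc a⁻¹ * y ^ m * a⁻¹⁻¹ = a⁻¹ * (a * y ^ m * a⁻¹) * a⁻¹⁻¹ := by rw [h]
      _ = y ^ m := by group

lemma mem_EpS {y g : G} : g ∈ EpS y ↔ ∃ m : ℕ, 0 < m ∧ g * y ^ m * g⁻¹ = y ^ m := Iff.rfl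

/-- a uniform exponent -/
lemma exists_unif (y : G) (E : Subgroup G) (hyE : y ∈ E) (hE : ∀ g, g ∈ E ↔ ElemRel y g)
    (F : Finset G) (hF : ∀ g ∈ E, ∃ l : ℤ, ∃ f ∈ F, g = y ^ l * f) :
    ∃ M : ℕ, 0 < M ∧ ∀ g ∈ E, g * y ^ M * g⁻¹ = y ^ M ∨ g * y ^ M * g⁻¹ = (y ^ M)⁻¹ := by
  classical
  have h1 : ∀ f : G, ∃ m : ℕ, 0 < m ∧ (f ∈ E → f * y ^ m * f⁻¹ = y ^ m ∨
      f * y ^ m * f⁻¹ = (y ^ m)⁻¹) := by
    intro f
    by_cases hf : f ∈ E
    · obtain ⟨m, hm, h⟩ := (hE f).1 hf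
      exact ⟨m, hm, fun _ => h⟩
    · exact ⟨1, one_pos, fun h => absurd h hf⟩
  choose m hm hm' using h1
  refine ⟨∏ f ∈ F, m f, Finset.prod_pos fun f _ => hm f, ?_⟩
  intro g hg
  obtain ⟨l, f, hf, rfl⟩ := hF g hg
  have hfE : f ∈ E := by
    have := E.mul_mem (E.inv_mem (E.zpow_mem hyE l)) hg
    simpa using this
  obtain ⟨n, hn⟩ : m f ∣ ∏ f ∈ F, m f := Finset.dvd_prod_of_mem m hf
  rw [hn]
  have hc : ∀ k : ℤ, y ^ l * y ^ k * (y ^ l)⁻¹ = y ^ k := by
    intro k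
    rw [← zpow_add, ← zpow_neg, ← zpow_add]; congr 1; ring
  have hc1 := hc ((m f * n : ℕ) : ℤ)
  have hc2 := hc (-((m f * n : ℕ) : ℤ))
  rw [zpow_natCast] at hc1
  rw [zpow_neg, zpow_natCast] at hc2
  have h0 : y ^ l * f * y ^ (m f * n) * (y ^ l * f)⁻¹ =
      y ^ l * (f * y ^ (m f * n) * f⁻¹) * (y ^ l)⁻¹ := by group
  rcases hm' f hfE with h | h
  · left
    rw [h0, fix_pow h, hc1]
  · right
    rw [h0, inv_pow' h, hc2]

/-- torsion elements of the orientation preserving part are involutions -/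
lemma torsion_sq (hA : AInv G) {y : G} (hy : InfOrd y) {k : G} {M : ℕ} (hM : 0 < M)
    (hk : k * y ^ M * k⁻¹ = y ^ M) {n : ℕ} (hn : 0 < n) (hkn : k ^ n = 1) : k ^ 2 = 1 := by
  have hfo : IsOfFinOrder k := isOfFinOrder_iff_pow_eq_one.2 ⟨n, hn, hkn⟩
  have ho : orderOf k ≠ 0 := (orderOf_pos_iff.2 hfo).ne'
  obtain ⟨a, m, hmodd, ham⟩ := Nat.exists_eq_two_pow_mul_odd ho
  have hf : orderOf (k ^ (2 ^ a)) = m := by
    rw [orderOf_pow' k (by positivity), ham, Nat.gcd_mul_right_left,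
      Nat.mul_div_cancel_left _ (by positivity)]
  have hkc : Commute k (y ^ M) := by
    have := congrArg (· * k) hk
    show k * y ^ M = y ^ M * k
    simpa using this
  have h1 : k ^ (2 ^ a) = 1 := by
    by_contra hne
    have hfin := hA.i4 (k ^ (2 ^ a)) hne (by rw [hf]; exact hmodd)
    have hinj : Function.Injective (fun j : ℤ => (y ^ M) ^ j) := by
      intro i j hij
      have h2 : y ^ ((M : ℤ) * i) = y ^ ((M : ℤ) * j) := by
        rw [zpow_mul, zpow_mul, zpow_natCast]; exact hij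
      have h3 := zpow_inj hy h2
      exact mul_left_cancel₀ (by exact_mod_cast hM.ne') h3
    have hinf := Set.infinite_range_of_injective hinj
    apply hinf
    apply hfin.subset
    rintro _ ⟨j, rfl⟩
    exact ((hkc.pow_left (2 ^ a)).zpow_right j).symm
  -- descend
  have h2 : ∀ a : ℕ, k ^ (2 ^ a) = 1 → k ^ 2 = 1 := by
    intro a
    induction a with
    | zero => intro h; rw [pow_zero, pow_one] at h; rw [h, one_pow]
    | succ a ih =>
      intro h
      cases a with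
      | zero => simpa using h
      | succ b =>
        apply ih
        have h3 : (k ^ (2 ^ b)) ^ 4 = 1 := by
          rw [← pow_mul]
          have : 2 ^ b * 4 = 2 ^ (b + 1 + 1) := by ring
          rw [this, h]
        have h4 := hA.i1 _ h3
        rw [← pow_mul] at h4
        rw [pow_succ]
        exact h4
  exact h2 a h1

end P08a

open P08a in
theorem exists_psi {G : Type*} [Group G] (hA : AInv G) (y : G) (hy : InfOrd y)
    (E : Subgroup G) (hE : ∀ g, g ∈ E ↔ ElemRel y g)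
    (hfin : ∃ F : Finset G, ∀ g ∈ E, ∃ l : ℤ, ∃ f ∈ F, g = y ^ l * f) :
    ∃ (Ep : Subgroup G) (ψ : G → ℤ), Ep ≤ E ∧ y ∈ Ep ∧
      (∀ g ∈ E, ∀ h ∈ E, g ∉ Ep → h ∉ Ep → g * h ∈ Ep) ∧
      (∀ g ∈ E, ∀ h ∈ Ep, g * h * g⁻¹ ∈ Ep) ∧
      (∀ g ∈ Ep, ∀ h ∈ Ep, ψ (g * h) = ψ g + ψ h) ∧ ψ y ≠ 0 ∧ (∃ y0 ∈ Ep, ψ y0 = 1) ∧
      (∀ k ∈ Ep, ψ k = 0 → k ^ 2 = 1) ∧ {k : G | k ∈ Ep ∧ ψ k = 0}.Finite ∧
      ∀ r ∈ E, r ∉ Ep → r ^ 2 = 1 := by
  classical
  obtain ⟨F, hF⟩ := hfin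
  have hyEp : y ∈ EpS y := ⟨1, one_pos, by group⟩
  have hle : EpS y ≤ E := by
    rintro g ⟨m, hm, h⟩
    exact (hE g).2 ⟨m, hm, Or.inl h⟩
  obtain ⟨M, hM, hM'⟩ := exists_unif y E (hle hyEp) hE F hF
  have hMZ : (M : ℤ) ≠ 0 := by exact_mod_cast hM.ne'
  -- elements of Ep centralise y ^ M
  have hcen : ∀ g ∈ EpS y, g * y ^ M * g⁻¹ = y ^ M := by
    rintro g hg
    rcases hM' g (hle hg) with h | h
    · exact h
    · exfalso
      obtain ⟨m, hm, h'⟩ := hg
      have h1 := inv_pow' h m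
      have h2 := fix_pow h' M
      rw [mul_comm m M] at h2
      rw [h2] at h1
      have h3 : y ^ (((M * m : ℕ) : ℤ)) = y ^ (-((M * m : ℕ) : ℤ)) := by
        rw [zpow_neg, zpow_natCast]; exact h1
      have h4 := zpow_inj hy h3
      have h5 : 0 < M * m := Nat.mul_pos hM hm
      omega
  have hinv : ∀ g ∈ E, g ∉ EpS y → g * y ^ M * g⁻¹ = (y ^ M)⁻¹ := by
    intro g hg hg'
    rcases hM' g hg with h | h
    · exact absurd ⟨M, hM, h⟩ hg'
    · exact h
  have hprod : ∀ g ∈ E, ∀ h ∈ E, g ∉ EpS y → h ∉ EpS y → g * h ∈ EpS y := by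
    intro g hg h hh hg' hh'
    refine ⟨M, hM, ?_⟩
    have h1 := hinv g hg hg'
    have h2 := hinv h hh hh'
    calc g * h * y ^ M * (g * h)⁻¹ = g * (h * y ^ M * h⁻¹) * g⁻¹ := by group
      _ = (g * y ^ M * g⁻¹)⁻¹ := by rw [h2]; group
      _ = y ^ M := by rw [h1, inv_inv]
  have hnorm : ∀ g ∈ E, ∀ h ∈ EpS y, g * h * g⁻¹ ∈ EpS y := by
    intro g hg h hh
    refine ⟨M, hM, ?_⟩
    have h1 := hcen h hh
    have h1' : h * (y ^ M)⁻¹ * h⁻¹ = (y ^ M)⁻¹ := by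
      have := congrArg (·⁻¹) h1
      simpa [mul_assoc] using this
    have e0 : g * h * g⁻¹ * y ^ M * (g * h * g⁻¹)⁻¹ = g * (h * (g⁻¹ * y ^ M * g) * h⁻¹) * g⁻¹ := by
      group
    rw [e0]
    rcases hM' g hg with h2 | h2
    · have e1 : g⁻¹ * y ^ M * g = y ^ M := by
        nth_rewrite 1 [← h2]; group
      rw [e1, h1, h2]
    · have e1 : g⁻¹ * y ^ M * g = (y ^ M)⁻¹ := by
        have h3 : g * (y ^ M)⁻¹ * g⁻¹ = y ^ M := by
          have := congrArg (·⁻¹) h2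
          simpa [mul_assoc] using this
        nth_rewrite 1 [← h3]; group
      rw [e1, h1']
      have := congrArg (·⁻¹) h2
      simpa [mul_assoc] using this
  -- the group P and the central element z
  let P : Type _ := ↥(EpS y)
  let z : P := ⟨y ^ M, (EpS y).pow_mem hyEp M⟩
  have hz : ∀ g : P, g * z = z * g := by
    intro g
    apply Subtype.ext
    have h1 := hcen g.1 g.2
    have := congrArg (· * g.1) h1
    show g.1 * y ^ M = y ^ M * g.1
    simpa using this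
  -- finite index
  have hfi : (Subgroup.zpowers z).FiniteIndex := by
    have hsurj : ∀ g : P, ∃ (r : Fin M) (f : F), ∃ hf : y ^ (r : ℕ) * (f : G) ∈ EpS y,
        (QuotientGroup.mk g : P ⧸ Subgroup.zpowers z) =
          QuotientGroup.mk (⟨y ^ (r : ℕ) * (f : G), hf⟩ : P) := by
      intro g
      obtain ⟨l, f, hf, hg⟩ := hF g.1 (hle g.2)
      have hr0 : 0 ≤ l % M := Int.emod_nonneg _ hMZ
      have hr1 : l % M < M := Int.emod_lt_of_pos _ (by exact_mod_cast hM)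
      obtain ⟨r, hr⟩ := Int.eq_ofNat_of_zero_le hr0
      have hrM : r < M := by rw [hr] at hr1; exact_mod_cast hr1
      have hl : l = M * (l / M) + r := by
        have := Int.mul_ediv_add_emod l M
        rw [hr] at this; exact this.symm
      have hgz : g.1 = (y ^ M) ^ (l / M) * (y ^ r * f) := by
        rw [hg, ← mul_assoc]
        congr 1
        calc y ^ l = y ^ ((M : ℤ) * (l / M) + r) := by rw [← hl]
          _ = _ := by rw [zpow_add, zpow_mul, zpow_natCast, zpow_natCast]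
      have hmem : y ^ r * f ∈ EpS y := by
        have h1 : y ^ r * f = ((y ^ M) ^ (l / M))⁻¹ * g.1 := by rw [hgz]; group
        rw [h1]
        exact (EpS y).mul_mem ((EpS y).inv_mem ((EpS y).zpow_mem z.2 _)) g.2
      refine ⟨⟨r, hrM⟩, ⟨f, hf⟩, hmem, ?_⟩
      rw [QuotientGroup.eq]
      have h2 : g = z ^ (l / M) * (⟨y ^ r * f, hmem⟩ : P) := Subtype.ext hgz
      have h3 : z ^ (-(l / M)) * (⟨y ^ r * f, hmem⟩ : P) =
          (⟨y ^ r * f, hmem⟩ : P) * z ^ (-(l / M)) :=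
        (((show Commute (⟨y ^ r * f, hmem⟩ : P) z from hz _).zpow_right _).symm).eq
      have h4 : g⁻¹ * (⟨y ^ r * f, hmem⟩ : P) = z ^ (-(l / M)) := by
        calc g⁻¹ * (⟨y ^ r * f, hmem⟩ : P)
            = (z ^ (l / M) * (⟨y ^ r * f, hmem⟩ : P))⁻¹ * (⟨y ^ r * f, hmem⟩ : P) := by rw [← h2]
          _ = (⟨y ^ r * f, hmem⟩ : P)⁻¹ * (z ^ (-(l / M)) * (⟨y ^ r * f, hmem⟩ : P)) := by
              rw [mul_inv_rev, zpow_neg, mul_assoc]
          _ = z ^ (-(l / M)) := by rw [h3, inv_mul_cancel_left]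
      show g⁻¹ * (⟨y ^ r * f, hmem⟩ : P) ∈ Subgroup.zpowers z
      rw [h4]
      exact Subgroup.zpow_mem _ (Subgroup.mem_zpowers z) _
    have hfq : Finite (P ⧸ Subgroup.zpowers z) := by
      have : ∀ q : P ⧸ Subgroup.zpowers z, ∃ rf : Fin M × F,
          ∃ hf : y ^ (rf.1 : ℕ) * (rf.2 : G) ∈ EpS y,
          q = QuotientGroup.mk (⟨y ^ (rf.1 : ℕ) * (rf.2 : G), hf⟩ : P) := by
        intro q
        obtain ⟨g, rfl⟩ := QuotientGroup.mk_surjective q
        obtain ⟨r, f, hf, h⟩ := hsurj g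
        exact ⟨(r, f), hf, h⟩
      choose φ hφ hφ' using this
      apply Finite.of_injective φ
      intro a b hab
      rw [hφ' a, hφ' b]
      simp only [hab]
    exact Subgroup.finiteIndex_of_finite_quotient
  set n := (Subgroup.zpowers z).index with hn
  have hnpos : 0 < n := Nat.pos_of_ne_zero hfi.index_ne_zero
  -- the exponent function
  have hex : ∀ g : G, ∃ t : ℤ, g ∈ EpS y → g ^ n = y ^ ((M : ℤ) * t) := by
    intro g
    by_cases hg : g ∈ EpS y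
    · have h1 := (pow_mul_of_central z hz (⟨g, hg⟩ : P) 1).2
      obtain ⟨t, ht⟩ := Subgroup.mem_zpowers_iff.1 h1
      refine ⟨t, fun _ => ?_⟩
      have h2 : (y ^ M) ^ t = g ^ n := congrArg (fun x : P => (x : G)) ht
      rw [zpow_mul, zpow_natCast]
      exact h2.symm
    · exact ⟨0, fun h => absurd h hg⟩
  choose ψ₀ hψ₀ using hex
  have huniq : ∀ g ∈ EpS y, ∀ t : ℤ, g ^ n = y ^ ((M : ℤ) * t) → ψ₀ g = t := by
    intro g hg t ht
    have h1 := hψ₀ g hg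
    rw [h1] at ht
    exact mul_left_cancel₀ hMZ (zpow_inj hy ht)
  have hadd : ∀ g ∈ EpS y, ∀ h ∈ EpS y, ψ₀ (g * h) = ψ₀ g + ψ₀ h := by
    intro g hg h hh
    apply huniq _ ((EpS y).mul_mem hg hh)
    have h1 := (pow_mul_of_central z hz (⟨g, hg⟩ : P) (⟨h, hh⟩ : P)).1
    have h2 : (g * h) ^ n = g ^ n * h ^ n := congrArg (fun x : P => (x : G)) h1
    rw [h2, hψ₀ g hg, hψ₀ h hh, ← zpow_add]
    congr 1; ring
  have hψy : (M : ℤ) * ψ₀ y = n := by
    have h1 := hψ₀ y hyEp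
    rw [← zpow_natCast] at h1
    exact (zpow_inj hy h1).symm
  have hψy0 : ψ₀ y ≠ 0 := by
    intro h
    rw [h, mul_zero] at hψy
    have : (0 : ℤ) < n := by exact_mod_cast hnpos
    omega
  have hone : ψ₀ 1 = 0 := by
    have := hadd 1 (EpS y).one_mem 1 (EpS y).one_mem
    rw [mul_one] at this
    omega
  have hinvψ : ∀ g ∈ EpS y, ψ₀ g⁻¹ = -ψ₀ g := by
    intro g hg
    have := hadd g hg g⁻¹ ((EpS y).inv_mem hg)
    rw [mul_inv_cancel, hone] at this
    omega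
  -- the image
  let I : AddSubgroup ℤ :=
    { carrier := {t | ∃ g ∈ EpS y, ψ₀ g = t}
      zero_mem' := ⟨1, (EpS y).one_mem, hone⟩
      add_mem' := by
        rintro _ _ ⟨g, hg, rfl⟩ ⟨h, hh, rfl⟩
        exact ⟨g * h, (EpS y).mul_mem hg hh, hadd g hg h hh⟩
      neg_mem' := by
        rintro _ ⟨g, hg, rfl⟩
        exact ⟨g⁻¹, (EpS y).inv_mem hg, hinvψ g hg⟩ }
  obtain ⟨dd, hdd⟩ := Int.subgroup_cyclic I
  have hddI : ∀ t, t ∈ I ↔ dd ∣ t := by
    intro t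
    rw [hdd, ← AddSubgroup.zmultiples_eq_closure, Int.mem_zmultiples_iff]
  have hdd0 : dd ≠ 0 := by
    intro h
    have h1 : ψ₀ y ∈ I := ⟨y, hyEp, rfl⟩
    rw [hddI, h, zero_dvd_iff] at h1
    exact hψy0 h1
  obtain ⟨y0, hy0, hy0'⟩ : dd ∈ I := (hddI dd).2 dvd_rfl
  have hdvd : ∀ g ∈ EpS y, dd ∣ ψ₀ g := fun g hg => (hddI _).1 ⟨g, hg, rfl⟩
  have hker : ∀ k ∈ EpS y, ψ₀ k / dd = 0 → ψ₀ k = 0 := by
    intro k hk h
    have h1 := Int.ediv_mul_cancel (hdvd k hk)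
    rw [h, zero_mul] at h1
    exact h1.symm
  have hsq : ∀ k ∈ EpS y, ψ₀ k = 0 → k ^ 2 = 1 := by
    intro k hk h
    have h1 := hψ₀ k hk
    rw [h, mul_zero, zpow_zero] at h1
    exact torsion_sq hA hy hM (hcen k hk) hnpos h1
  have hzp : ∀ l : ℤ, ψ₀ (y ^ l) = l * ψ₀ y := by
    intro l
    apply huniq _ ((EpS y).zpow_mem hyEp l)
    rw [← zpow_natCast, ← zpow_mul]
    congr 1
    rw [← hψy]; ring
  refine ⟨EpS y, fun g => ψ₀ g / dd, hle, hyEp, hprod, hnorm, ?_, ?_, ⟨y0, hy0, ?_⟩, ?_, ?_, ?_⟩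
  · intro g hg h hh
    show ψ₀ (g * h) / dd = ψ₀ g / dd + ψ₀ h / dd
    rw [hadd g hg h hh]
    exact Int.add_ediv_of_dvd_left (hdvd g hg)
  · intro h
    exact hψy0 (hker y hyEp h)
  · show ψ₀ y0 / dd = 1
    rw [hy0']; exact Int.ediv_self hdd0
  · intro k hk h
    exact hsq k hk (hker k hk h)
  · -- finiteness of the kernel
    have h1 : ∀ k : G, ∃ f : G, k ∈ EpS y → ∃ l : ℤ, f ∈ F ∧ k = y ^ l * f := by
      intro k
      by_cases hk : k ∈ EpS y
      · obtain ⟨l, f, hf, h⟩ := hF k (hle hk)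
        exact ⟨f, fun _ => ⟨l, hf, h⟩⟩
      · exact ⟨1, fun h => absurd h hk⟩
    choose φ hφ using h1
    apply Set.Finite.of_finite_image (f := φ)
    · apply F.finite_toSet.subset
      rintro _ ⟨k, ⟨hk, -⟩, rfl⟩
      obtain ⟨l, hf, -⟩ := hφ k hk
      exact hf
    · rintro k ⟨hk, hk0⟩ k' ⟨hk', hk0'⟩ hkk
      obtain ⟨l, -, h⟩ := hφ k hk
      obtain ⟨l', -, h'⟩ := hφ k' hk'
      rw [hkk] at h
      have e1 : k * k'⁻¹ = y ^ (l - l') := by
        calc k * k'⁻¹ = (y ^ l * φ k') * (y ^ l' * φ k')⁻¹ := by rw [← h, ← h']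
          _ = _ := by rw [zpow_sub]; group
      have e2 : ψ₀ (k * k'⁻¹) = 0 := by
        rw [hadd k hk _ ((EpS y).inv_mem hk'), hinvψ k' hk', hker k hk hk0, hker k' hk' hk0']
        ring
      rw [e1, hzp] at e2
      have e3 : l - l' = 0 := by
        rcases mul_eq_zero.1 e2 with h | h
        · exact h
        · exact absurd h hψy0
      rw [e3, zpow_zero] at e1
      exact mul_inv_eq_one.1 e1
  · -- reflections
    intro r hr hr'
    have h1 := hinv r hr hr'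
    have h2 : r * r ∈ EpS y := hprod r hr r hr hr' hr'
    have h3 := hψ₀ _ h2
    have h4 : r * (r * r) ^ n * r⁻¹ = (r * r) ^ n := by
      have : Commute r ((r * r) ^ n) := (Commute.mul_right (Commute.refl r) (Commute.refl r)).pow_right n
      rw [this.eq]; group
    rw [h3] at h4
    have h5 : r * y ^ ((M : ℤ) * ψ₀ (r * r)) * r⁻¹ = y ^ (-((M : ℤ) * ψ₀ (r * r))) := by
      rw [zpow_mul, zpow_natCast, ← conj_zpow, h1, inv_zpow, zpow_neg, zpow_mul, zpow_natCast]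
    rw [h5] at h4
    have h6 := zpow_inj hy h4
    have h7 : (M : ℤ) * ψ₀ (r * r) = 0 := by omega
    have h8 : ψ₀ (r * r) = 0 := by
      rcases mul_eq_zero.1 h7 with h | h
      · exact absurd h hMZ
      · exact h
    have h9 := hsq _ h2 h8
    apply hA.i1
    have : r ^ 4 = (r * r) ^ 2 := by rw [← pow_two, ← pow_mul]
    rw [this, h9]

end Pool.Agent.Lib.MP_f1646b_al
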