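import Pool.Agent.Lib.MP_f1646b_al.P08a

set_option autoImplicit false

namespace Pool.Agent.Lib.MP_f1646b_al

namespace P08b

variable {G : Type*} [Group G]

/-! ### frames -/

theorem inv_of_sq {x : G} (h : x ^ 2 = 1) : x⁻¹ = x := by
  rw [inv_eq_iff_mul_eq_one, ← sq]; exact h

theorem frEq_refl (w w' : G) : FrEq w w' w w' := ⟨1, Or.inl (by simp)⟩

theorem frEq_conj (g w w' : G) : FrEq w w' (g * w * g⁻¹) (g * w' * g⁻¹) := ⟨g, Or.inl ⟨rfl, rfl⟩⟩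

theorem frEq_rot (u u' : G) : FrEq u' (u * u') u u' := ⟨1, Or.inr (Or.inl (by simp))⟩

theorem frEq_rot' (u u' : G) : FrEq (u * u') u u u' := ⟨1, Or.inr (Or.inr (by simp))⟩

theorem frEq_trans {w w' u u' v v' : G} (h1 : FrEq w w' u u') (h2 : FrEq u u' v v')
    (hv : v ^ 2 = 1) (hv' : v' ^ 2 = 1) (hc : v * v' = v' * v) : FrEq w w' v v' := by
  obtain ⟨g, hg⟩ := h1
  obtain ⟨h, hh⟩ := h2
  have key : ∀ x, (h * g) * x * (h * g)⁻¹ = h * (g * x * g⁻¹) * h⁻¹ := by intro x; group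
  have mul : ∀ x y, h * (x * y) * h⁻¹ = (h * x * h⁻¹) * (h * y * h⁻¹) := by intro x y; group
  have e1 : v' * (v * v') = v := by
    rw [hc, ← mul_assoc, ← sq, hv', one_mul]
  have e3 : v * v' * v = v' := by rw [hc, mul_assoc, ← sq, hv, mul_one]
  refine ⟨h * g, ?_⟩
  rw [key, key]
  rcases hg with ⟨a, b⟩ | ⟨a, b⟩ | ⟨a, b⟩ <;> rcases hh with ⟨c, d⟩ | ⟨c, d⟩ | ⟨c, d⟩ <;>
    rw [a, b] <;> simp only [mul, c, d, e1, e3, true_or, or_true, and_self]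

theorem frEq_symm {w w' u u' : G} (h : FrEq w w' u u') (hu : u ^ 2 = 1) (hu' : u' ^ 2 = 1)
    (hc : u * u' = u' * u) : FrEq u u' w w' := by
  obtain ⟨g, hg⟩ := h
  have e1 : u' * (u * u') = u := by
    rw [hc, ← mul_assoc, ← sq, hu', one_mul]
  have e3 : u * u' * u = u' := by rw [hc, mul_assoc, ← sq, hu, mul_one]
  refine ⟨g⁻¹, ?_⟩
  have key : ∀ x y : G, g * x * g⁻¹ = y → g⁻¹ * y * g⁻¹⁻¹ = x := by
    intro x y h; rw [← h]; group
  have mul : ∀ x y : G, g * (x * y) * g⁻¹ = (g * x * g⁻¹) * (g * y * g⁻¹) := by intro x y; group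
  rcases hg with ⟨a, b⟩ | ⟨a, b⟩ | ⟨a, b⟩
  · exact Or.inl ⟨key _ _ a, key _ _ b⟩
  · refine Or.inr (Or.inr ⟨key _ _ ?_, key _ _ a⟩)
    rw [mul, a, b, e1]
  · refine Or.inr (Or.inl ⟨key _ _ b, key _ _ ?_⟩)
    rw [mul, a, b, e3]

theorem frEq_rev {w w' u u' : G} (h : FrEq w w' u u') (hc : u * u' = u' * u) :
    FrEq w' w u' u := by
  obtain ⟨g, hg⟩ := h
  refine ⟨g, ?_⟩
  rcases hg with ⟨a, b⟩ | ⟨a, b⟩ | ⟨a, b⟩
  · exact Or.inl ⟨b, a⟩
  · exact Or.inr (Or.inr ⟨by rw [b, hc], a⟩)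
  · exact Or.inr (Or.inl ⟨b, by rw [a, hc]⟩)

theorem frEq_ne (hA : AInv G) {w w' : G} (hw : Frame w w') : ¬ FrEq w w' w' w := by
  obtain ⟨h1, h2, hc, h3, h4, h5⟩ := hw
  rintro ⟨g, hg⟩
  have mul : ∀ x y : G, g * (x * y) * g⁻¹ = (g * x * g⁻¹) * (g * y * g⁻¹) := by intro x y; group
  have hww : w' * w ≠ 1 := by
    intro h
    apply h5
    rw [mul_eq_one_iff_eq_inv, inv_of_sq h1] at h
    exact h.symm
  have hsq : (w' * w) ^ 2 = 1 := by
    rw [sq, show w' * w * (w' * w) = w' * (w * w') * w by group, hc,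
      show w' * (w' * w) * w = w' ^ 2 * w ^ 2 by simp only [sq, mul_assoc], h1, h2, one_mul]
  rcases hg with ⟨a, b⟩ | ⟨a, b⟩ | ⟨a, b⟩
  · exact hA.i3 w w' g ⟨h1, h2, hc, h3, h4, h5⟩ a b
  · refine hA.i3 w' (w' * w) g ⟨h2, hsq, ?_, h4, hww, ?_⟩ b ?_
    · rw [mul_assoc, hc]
    · intro h
      apply h3
      simpa using h.symm
    · rw [mul, b, a, mul_assoc, ← sq, h1, mul_one]
  · refine hA.i3 w (w' * w) g ⟨h1, hsq, ?_, h3, hww, ?_⟩ a ?_
    · rw [← mul_assoc, hc]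
    · intro h
      apply h4
      simpa using h.symm
    · rw [mul, b, a, ← mul_assoc, ← sq, h2, one_mul]

/-! ### the cube of `y0` centralises `K` -/

theorem cube_aux (hA : AInv G) (K : Set G) (hK : ∀ k ∈ K, k ^ 2 = 1)
    (hmul : ∀ k ∈ K, ∀ l ∈ K, k * l ∈ K) (y : G) (hy : ∀ k ∈ K, y * k * y⁻¹ ∈ K) (k : G)
    (hk : k ∈ K) : y ^ 3 * k = k * y ^ 3 := by
  have comm : ∀ a ∈ K, ∀ b ∈ K, a * b = b * a := by
    intro a ha b hb
    have h := hK _ (hmul a ha b hb)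
    have h1 := inv_of_sq h
    rw [mul_inv_rev, inv_of_sq (hK a ha), inv_of_sq (hK b hb)] at h1
    exact h1.symm
  have mul : ∀ a b : G, y * (a * b) * y⁻¹ = (y * a * y⁻¹) * (y * b * y⁻¹) := by
    intro a b; group
  have key : y * (y * (y * k * y⁻¹) * y⁻¹) * y⁻¹ = k → y ^ 3 * k = k * y ^ 3 := by
    intro h
    have h2 : y ^ 3 * k * (y ^ 3)⁻¹ = k := by
      simp only [pow_succ, pow_zero, one_mul, mul_inv_rev, mul_assoc] at h ⊢
      exact h
    exact mul_inv_eq_iff_eq_mul.1 h2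
  apply key
  by_cases h1 : k = 1
  · subst h1; simp
  obtain ⟨k', hk'⟩ : ∃ k', k' = y * k * y⁻¹ := ⟨_, rfl⟩
  by_cases h2 : k' = k
  · rw [← hk', h2, ← hk', h2, ← hk', h2]
  have hkK' : k' ∈ K := hk' ▸ hy k hk
  have h3 : k' ≠ 1 := by
    intro h
    apply h1
    rw [h] at hk'
    have := congrArg (fun x => y⁻¹ * x * y) hk'
    simpa [mul_assoc] using this.symm
  have hF : Frame k k' := ⟨hK k hk, hK k' hkK', comm _ hk _ hkK', h1, h3, Ne.symm h2⟩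
  have hFr := hA.i2 k k' (y * k' * y⁻¹) hF (hK _ (hy _ hkK')) (comm _ hk _ (hy _ hkK'))
    (comm _ hkK' _ (hy _ hkK'))
  have h4 : y * k' * y⁻¹ ≠ 1 := by
    intro h
    apply h3
    have := congrArg (fun x => y⁻¹ * x * y) h
    simpa [mul_assoc] using this
  have h5 : y * k' * y⁻¹ ≠ k := hA.i3 k k' y hF hk'.symm
  have h6 : y * k' * y⁻¹ ≠ k' := by
    intro h
    apply h2
    have h7 : y * k' * y⁻¹ = y * k * y⁻¹ := by rw [h, hk']
    simpa using h7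
  have h7 : y * k' * y⁻¹ = k * k' := by
    rcases hFr with h | h | h | h
    · exact absurd h h4
    · exact absurd h h5
    · exact absurd h h6
    · exact h
  rw [← hk', h7, mul, ← hk', h7, comm _ hk _ hkK', ← mul_assoc, ← sq, hK k' hkK', one_mul]

/-! ### orientation -/

theorem refl_conj {E Ep : Subgroup G} (hle : Ep ≤ E) (hr : ∀ r ∈ E, r ∉ Ep → r ^ 2 = 1) {r : G}
    (hrE : r ∈ E) (hrEp : r ∉ Ep) {g : G} (hg : g ∈ Ep) : r * g = g⁻¹ * r := by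
  have h1 : r * g ∉ Ep := fun h => hrEp ((Subgroup.mul_mem_cancel_right Ep hg).1 h)
  have h2 := hr (r * g) (E.mul_mem hrE (hle hg)) h1
  have h3 := inv_of_sq h2
  rw [mul_inv_rev, inv_of_sq (hr r hrE hrEp)] at h3
  exact h3.symm

theorem abel_aux {E Ep : Subgroup G} (hle : Ep ≤ E) (hr : ∀ r ∈ E, r ∉ Ep → r ^ 2 = 1) {r : G}
    (hrE : r ∈ E) (hrEp : r ∉ Ep) {g h : G} (hg : g ∈ Ep) (hh : h ∈ Ep) : g * h = h * g := by
  have h1 := refl_conj hle hr hrE hrEp hg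
  have h2 := refl_conj hle hr hrE hrEp hh
  have h3 := refl_conj hle hr hrE hrEp (Ep.mul_mem hg hh)
  rw [← mul_assoc, h1, mul_assoc, h2, ← mul_assoc, mul_left_inj, mul_inv_rev] at h3
  have h4 := congrArg (·⁻¹) h3
  simpa using h4.symm

theorem ori_aux (hA : AInv G) (E Ep : Subgroup G) (hle : Ep ≤ E) (ψ : G → ℤ)
    (hmul : ∀ g ∈ Ep, ∀ h ∈ Ep, ψ (g * h) = ψ g + ψ h) (hr : ∀ r ∈ E, r ∉ Ep → r ^ 2 = 1)
    (hmm : ∀ g ∈ E, ∀ h ∈ E, g ∉ Ep → h ∉ Ep → g * h ∈ Ep) (k : G) (hk : k ∈ Ep) (hk0 : ψ k = 0)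
    (hk1 : k ≠ 1) (hksq : k ^ 2 = 1) (huniq : ∀ l ∈ Ep, ψ l = 0 → l = 1 ∨ l = k) (r0 : G)
    (hr0 : r0 ∈ E) (hr0' : r0 ∉ Ep) (y0 : G) (hy0 : y0 ∈ Ep) (hψ : ψ y0 = 1) :
    (∀ r ∈ E, r ∉ Ep → ¬ FrEq k r (r * y0) k) ∨
      ∀ r ∈ E, r ∉ Ep → ¬ FrEq k r (r * (k * y0)) k := by
  have habel : ∀ g ∈ Ep, ∀ h ∈ Ep, g * h = h * g := fun g hg h hh =>
    abel_aux hle hr hr0 hr0' hg hh
  have hψ1 : ψ 1 = 0 := by
    have := hmul 1 Ep.one_mem 1 Ep.one_mem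
    rw [one_mul] at this; omega
  have hψinv : ∀ g ∈ Ep, ψ g⁻¹ = - ψ g := by
    intro g hg
    have := hmul g hg g⁻¹ (Ep.inv_mem hg)
    rw [mul_inv_cancel, hψ1] at this; omega
  have hψz : ∀ g ∈ Ep, ∀ i : ℤ, ψ (g ^ i) = i * ψ g := by
    intro g hg i
    have hnat : ∀ n : ℕ, ψ (g ^ n) = n * ψ g := by
      intro n
      induction n with
      | zero => simp [hψ1]
      | succ n ih => rw [pow_succ, hmul _ (Ep.pow_mem hg n) _ hg, ih]; push_cast; ring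
    obtain ⟨n, rfl | rfl⟩ := i.eq_nat_or_neg
    · rw [zpow_natCast]; exact hnat n
    · rw [zpow_neg, zpow_natCast, hψinv _ (Ep.pow_mem hg n), hnat n]; ring
  -- reflections
  have hgr : ∀ g ∈ Ep, ∀ r ∈ E, r ∉ Ep → g * r ∈ E ∧ g * r ∉ Ep := fun g hg r hrE hrEp =>
    ⟨E.mul_mem (hle hg) hrE, fun h => hrEp ((Subgroup.mul_mem_cancel_left Ep hg).1 h)⟩
  have hkinv : k⁻¹ = k := inv_of_sq hksq
  have hkr : ∀ r ∈ E, r ∉ Ep → k * r = r * k := by
    intro r hrE hrEp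
    rw [refl_conj hle hr hrE hrEp hk, hkinv]
  -- transitivity through frames of the two kinds
  have tr1 : ∀ {a b c d r : G}, r ∈ E → r ∉ Ep → FrEq a b c d → FrEq c d k r → FrEq a b k r :=
    fun hrE hrEp h1 h2 => frEq_trans h1 h2 hksq (hr _ hrE hrEp) (hkr _ hrE hrEp)
  have tr2 : ∀ {a b c d r : G}, r ∈ E → r ∉ Ep → FrEq a b c d → FrEq c d r k → FrEq a b r k :=
    fun hrE hrEp h1 h2 => frEq_trans h1 h2 (hr _ hrE hrEp) hksq (hkr _ hrE hrEp).symm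
  have sy1 : ∀ {a b r : G}, r ∈ E → r ∉ Ep → FrEq a b k r → FrEq k r a b :=
    fun hrE hrEp h1 => frEq_symm h1 hksq (hr _ hrE hrEp) (hkr _ hrE hrEp)
  have sy2 : ∀ {a b r : G}, r ∈ E → r ∉ Ep → FrEq a b r k → FrEq r k a b :=
    fun hrE hrEp h1 => frEq_symm h1 (hr _ hrE hrEp) hksq (hkr _ hrE hrEp).symm
  have rv1 : ∀ {a b r : G}, r ∈ E → r ∉ Ep → FrEq a b k r → FrEq b a r k :=
    fun hrE hrEp h1 => frEq_rev h1 (hkr _ hrE hrEp)
  have rv2 : ∀ {a b r : G}, r ∈ E → r ∉ Ep → FrEq a b r k → FrEq b a k r :=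
    fun hrE hrEp h1 => frEq_rev h1 (hkr _ hrE hrEp).symm
  -- conjugation
  have cj : ∀ g ∈ Ep, ∀ r ∈ E, r ∉ Ep → FrEq k (g * g * r) k r := by
    intro g hg r hrE hrEp
    refine ⟨g⁻¹, Or.inl ⟨?_, ?_⟩⟩
    · rw [inv_inv, mul_assoc, habel k hk g hg, inv_mul_cancel_left]
    · rw [inv_inv, show g⁻¹ * (g * g * r) * g = g * (r * g) by group,
        refl_conj hle hr hrE hrEp hg, mul_inv_cancel_left]
  have swap : ∀ r ∈ E, r ∉ Ep → FrEq k (k * r) r k := by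
    intro r hrE hrEp
    rw [hkr r hrE hrEp]
    exact frEq_rot r k
  have X : ∀ z ∈ Ep, ψ z = 1 → ∀ s ∈ E, s ∉ Ep → FrEq k s (s * z) k → FrEq k r0 (z * r0) k := by
    intro z hz hψz1 s hsE hsEp H
    have ht : s * r0 ∈ Ep := hmm s hsE r0 hr0 hsEp hr0'
    obtain ⟨g, hg, c, hc, hgc, hψc⟩ : ∃ g ∈ Ep, ∃ c ∈ Ep, s = g * g * (c * r0) ∧
        (ψ c = 0 ∨ ψ c = 1) := by
      refine ⟨z ^ (ψ (s * r0) / 2), Ep.zpow_mem hz _,
        (z ^ (ψ (s * r0) / 2) * z ^ (ψ (s * r0) / 2))⁻¹ * (s * r0),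
        Ep.mul_mem (Ep.inv_mem (Ep.mul_mem (Ep.zpow_mem hz _) (Ep.zpow_mem hz _))) ht, ?_, ?_⟩
      · have := hr r0 hr0 hr0'
        rw [sq] at this
        rw [mul_assoc _ (s * r0) r0, mul_inv_cancel_left, mul_assoc, this, mul_one]
      · rw [hmul _ (Ep.inv_mem (Ep.mul_mem (Ep.zpow_mem hz _) (Ep.zpow_mem hz _))) _ ht,
          hψinv _ (Ep.mul_mem (Ep.zpow_mem hz _) (Ep.zpow_mem hz _)),
          hmul _ (Ep.zpow_mem hz _) _ (Ep.zpow_mem hz _), hψz z hz, hψz1]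
        omega
    have hc4 : c = 1 ∨ c = k ∨ c = z ∨ c = k * z := by
      rcases hψc with h | h
      · rcases huniq c hc h with h | h
        · exact Or.inl h
        · exact Or.inr (Or.inl h)
      · have h1 : ψ (c * z⁻¹) = 0 := by rw [hmul _ hc _ (Ep.inv_mem hz), hψinv _ hz, h, hψz1]; rfl
        rcases huniq _ (Ep.mul_mem hc (Ep.inv_mem hz)) h1 with h | h
        · exact Or.inr (Or.inr (Or.inl (mul_inv_eq_one.1 h)))
        · exact Or.inr (Or.inr (Or.inr (mul_inv_eq_iff_eq_mul.1 h)))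
    have hzinv := Ep.inv_mem hz
    obtain ⟨c1, c2⟩ := hgr c hc r0 hr0 hr0'
    obtain ⟨z1, z2⟩ := hgr z hz r0 hr0 hr0'
    obtain ⟨w1, w2⟩ := hgr _ (Ep.mul_mem hz hc) r0 hr0 hr0'
    have hsz1 : s * z ∈ E := E.mul_mem hsE (hle hz)
    have hsz2 : s * z ∉ Ep := fun h => hsEp ((Subgroup.mul_mem_cancel_right Ep hz).1 h)
    have P1 : FrEq k s k (c * r0) := by
      rw [hgc]; exact cj g hg _ c1 c2
    have P2 : FrEq k (s * z) k (z * c * r0) := by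
      have e : s * z = (g * z⁻¹) * (g * z⁻¹) * (z * c * r0) := by
        have e1 : r0 * z = z⁻¹ * r0 := refl_conj hle hr hr0 hr0' hz
        have e2 : c * z⁻¹ = z⁻¹ * c := habel c hc _ hzinv
        have e3 : g * z⁻¹ = z⁻¹ * g := habel g hg _ hzinv
        calc s * z = g * g * (c * (r0 * z)) := by rw [hgc]; simp only [mul_assoc]
          _ = g * g * (c * z⁻¹) * r0 := by rw [e1]; simp only [mul_assoc]
          _ = g * (g * z⁻¹) * c * r0 := by rw [e2]; simp only [mul_assoc]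
          _ = g * (z⁻¹ * g) * c * r0 := by rw [e3]
          _ = (g * z⁻¹) * (g * z⁻¹) * (z * c * r0) := by group
      rw [e]; exact cj _ (Ep.mul_mem hg hzinv) _ w1 w2
    have P1' := sy1 c1 c2 P1
    have P2' := rv1 w1 w2 P2
    have Sz := swap _ z1 z2
    have S0 := swap _ hr0 hr0'
    have hzk : z * k = k * z := habel z hz k hk
    obtain ⟨k1, k2⟩ := hgr k hk r0 hr0 hr0'
    rcases hc4 with h | h | h | h
    · rw [h, one_mul] at P1'
      rw [h, mul_one] at P2'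
      exact tr2 z1 z2 (tr2 hsz1 hsz2 P1' H) P2'
    · rw [h] at P1
      rw [h, hzk, mul_assoc] at P2
      have a1 : FrEq k s r0 k := tr2 hr0 hr0' P1 S0
      have a2 : FrEq r0 k (s * z) k := tr2 hsz1 hsz2 (sy2 hr0 hr0' a1) H
      have a3 : FrEq k (s * z) (z * r0) k := tr2 z1 z2 P2 Sz
      exact rv1 z1 z2 (tr1 z1 z2 a2 (rv2 z1 z2 a3))
    · rw [h] at P1'
      rw [h] at P2
      have a1 : FrEq k (s * z) k r0 := tr1 hr0 hr0' P2 (cj z hz r0 hr0 hr0')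
      have a2 : FrEq k (z * r0) r0 k :=
        tr2 hr0 hr0' (tr2 hsz1 hsz2 P1' H) (rv1 hr0 hr0' a1)
      exact rv1 z1 z2 (sy2 hr0 hr0' a2)
    · rw [h, mul_assoc] at P1
      rw [h, ← mul_assoc, hzk, mul_assoc k, habel k hk (z * z) (Ep.mul_mem hz hz),
        mul_assoc (z * z)] at P2
      have a1 : FrEq k s (z * r0) k := tr2 z1 z2 P1 Sz
      have a2 : FrEq (z * r0) k (s * z) k := tr2 hsz1 hsz2 (sy2 z1 z2 a1) H
      have a3 : FrEq k (s * z) k (k * r0) := tr1 k1 k2 P2 (cj z hz _ k1 k2)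
      have a4 : FrEq k (s * z) r0 k := tr2 hr0 hr0' a3 S0
      exact sy1 hr0 hr0' (tr1 hr0 hr0' a2 (rv2 hr0 hr0' a4))
  by_contra hcon
  push Not at hcon
  obtain ⟨⟨s, hsE, hsEp, hs⟩, t, htE, htEp, ht⟩ := hcon
  have hky : k * y0 ∈ Ep := Ep.mul_mem hk hy0
  have h1 := X y0 hy0 hψ s hsE hsEp hs
  have h2 := X (k * y0) hky (by rw [hmul _ hk _ hy0, hk0, hψ, zero_add]) t htE htEp ht
  obtain ⟨a1, a2⟩ := hgr y0 hy0 r0 hr0 hr0'
  obtain ⟨b1, b2⟩ := hgr _ hky r0 hr0 hr0'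
  -- `(k y0 r0, k) ~ (k, y0 r0)`
  have h3 : FrEq (k * y0 * r0) k k (y0 * r0) := by
    have := swap (y0 * r0) a1 a2
    rw [← mul_assoc] at this
    exact rv2 a1 a2 this
  have h4 : FrEq k r0 k (y0 * r0) := tr1 a1 a2 h2 h3
  have h5 : FrEq k (y0 * r0) (y0 * r0) k := tr2 a1 a2 (sy1 a1 a2 h4) h1
  refine frEq_ne hA ⟨hksq, hr _ a1 a2, hkr _ a1 a2, hk1, ?_, ?_⟩ h5
  · intro h; exact a2 (h ▸ Ep.one_mem)
  · intro h; exact a2 (h ▸ hk)

end P08b

open P08b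

theorem exists_edata {G : Type*} [Group G] (hA : AInv G) (y : G) (hy : InfOrd y)
    (E : Subgroup G) (hE : ∀ g, g ∈ E ↔ ElemRel y g)
    (hfin : ∃ F : Finset G, ∀ g ∈ E, ∃ l : ℤ, ∃ f ∈ F, g = y ^ l * f) :
    ∃ ε τ : G → ℤ, ∃ y0 : G, EData E ε τ y0 ∧ ε y = 1 ∧ τ y ≠ 0 := by
  obtain ⟨Ep, ψ, hle, hyEp, hmm, hconj, hmul, hψy, ⟨y0, hy0, hψ⟩, hsq, hKfin, hr⟩ :=
    exists_psi hA y hy E hE hfin
  have hψ1 : ψ 1 = 0 := by
    have := hmul 1 Ep.one_mem 1 Ep.one_mem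
    rw [one_mul] at this; omega
  have hψinv : ∀ g ∈ Ep, ψ g⁻¹ = - ψ g := by
    intro g hg
    have := hmul g hg g⁻¹ (Ep.inv_mem hg)
    rw [mul_inv_cancel, hψ1] at this; omega
  have hcube : ∀ z ∈ Ep, ∀ k ∈ Ep, ψ k = 0 → z ^ 3 * k = k * z ^ 3 := by
    intro z hz k hk hk0
    refine cube_aux hA {k : G | k ∈ Ep ∧ ψ k = 0} (fun k hk => hsq k hk.1 hk.2) ?_ z ?_ k ⟨hk, hk0⟩
    · rintro k ⟨h1, h2⟩ l ⟨h3, h4⟩
      exact ⟨Ep.mul_mem h1 h3, by rw [hmul _ h1 _ h3, h2, h4]; rfl⟩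
    · rintro k ⟨h1, h2⟩
      refine ⟨Ep.mul_mem (Ep.mul_mem hz h1) (Ep.inv_mem hz), ?_⟩
      rw [hmul _ (Ep.mul_mem hz h1) _ (Ep.inv_mem hz), hmul _ hz _ h1, hψinv _ hz, h2]; ring
  by_cases hall : ∀ g ∈ E, g ∈ Ep
  · refine ⟨fun _ => 1, ψ, y0, ?_, rfl, hψy⟩
    exact
      { y0_mem := hle hy0
        eps_sq := fun _ _ => Or.inl rfl
        eps_mul := fun _ _ _ _ => rfl
        tau_mul := fun e he f hf => by rw [hmul e (hall e he) f (hall f hf), one_mul]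
        eps_y0 := rfl
        tau_y0 := hψ
        ker_sq := fun k hk _ h => hsq k (hall k hk) h
        ker_fin := hKfin.subset fun k hk => ⟨hall k hk.1, hk.2.2⟩
        refl_sq := fun r _ h => absurd h (by norm_num)
        cube := fun k hk _ h => hcube y0 hy0 k (hall k hk) h
        ori := fun k _ r _ _ _ _ h => absurd h (by norm_num) }
  · push Not at hall
    obtain ⟨r0, hr0, hr0'⟩ := hall
    have hr0sq : r0 * r0 = 1 := by rw [← sq]; exact hr r0 hr0 hr0'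
    have huniq : ∀ k ∈ Ep, ψ k = 0 → k ≠ 1 → ∀ l ∈ Ep, ψ l = 0 → l = 1 ∨ l = k := by
      intro k hk hk0 hk1 l hl hl0
      by_contra hcon
      push Not at hcon
      have hrk : ∀ m ∈ Ep, ψ m = 0 → m * r0 = r0 * m := by
        intro m hm hm0
        rw [refl_conj hle hr hr0 hr0' hm, inv_of_sq (hsq m hm hm0)]
      rcases hA.i2 k l r0 ⟨hsq k hk hk0, hsq l hl hl0, abel_aux hle hr hr0 hr0' hk hl, hk1,
        hcon.1, fun h => hcon.2 h.symm⟩ (hr r0 hr0 hr0') (hrk k hk hk0) (hrk l hl hl0) with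
        h | h | h | h
      · exact hr0' (h ▸ Ep.one_mem)
      · exact hr0' (h ▸ hk)
      · exact hr0' (h ▸ hl)
      · exact hr0' (h ▸ Ep.mul_mem hk hl)
    obtain ⟨z, hz, hψz, hori⟩ : ∃ z ∈ Ep, ψ z = 1 ∧ ∀ k ∈ Ep, ψ k = 0 → k ≠ 1 →
        ∀ r ∈ E, r ∉ Ep → ¬ FrEq k r (r * z) k := by
      by_cases hK : ∃ k ∈ Ep, ψ k = 0 ∧ k ≠ 1
      · obtain ⟨k, hk, hk0, hk1⟩ := hK
        have hu := huniq k hk hk0 hk1
        rcases ori_aux hA E Ep hle ψ hmul hr hmm k hk hk0 hk1 (hsq k hk hk0) hu r0 hr0 hr0' y0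
          hy0 hψ with h | h
        · refine ⟨y0, hy0, hψ, fun l hl hl0 hl1 => ?_⟩
          obtain rfl := (hu l hl hl0).resolve_left hl1
          exact h
        · refine ⟨k * y0, Ep.mul_mem hk hy0, by rw [hmul _ hk _ hy0, hk0, hψ]; rfl,
            fun l hl hl0 hl1 => ?_⟩
          obtain rfl := (hu l hl hl0).resolve_left hl1
          exact h
      · push Not at hK
        exact ⟨y0, hy0, hψ, fun k hk hk0 hk1 => absurd (hK k hk hk0) hk1⟩
    classical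
    have hEpr : ∀ e ∈ E, e ∉ Ep → ∀ f ∈ Ep, e * f ∉ Ep := fun e _ he f hf h =>
      he ((Subgroup.mul_mem_cancel_right Ep hf).1 h)
    have hEpl : ∀ e ∈ Ep, ∀ f ∈ E, f ∉ Ep → e * f ∉ Ep := fun e he f _ hf h =>
      hf ((Subgroup.mul_mem_cancel_left Ep he).1 h)
    refine ⟨fun g => if g ∈ Ep then 1 else -1, fun g => if g ∈ Ep then ψ g else ψ (g * r0), z, ?_,
      by simp [hyEp], by simpa [hyEp] using hψy⟩
    have e1 : ∀ g, (if g ∈ Ep then (1 : ℤ) else -1) = 1 ↔ g ∈ Ep := by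
      intro g; by_cases h : g ∈ Ep <;> simp [h]
    have e2 : ∀ g, (if g ∈ Ep then (1 : ℤ) else -1) = -1 ↔ g ∉ Ep := by
      intro g; by_cases h : g ∈ Ep <;> simp [h]
    exact
      { y0_mem := hle hz
        eps_sq := fun e _ => by by_cases h : e ∈ Ep <;> simp [h]
        eps_mul := fun e he f hf => by
          by_cases h1 : e ∈ Ep <;> by_cases h2 : f ∈ Ep
          · simp [h1, h2, Ep.mul_mem h1 h2]
          · simp [h1, h2, hEpl e h1 f hf h2]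
          · simp [h1, h2, hEpr e he h1 f h2]
          · simp [h1, h2, hmm e he f hf h1 h2]
        tau_mul := fun e he f hf => by
          by_cases h1 : e ∈ Ep <;> by_cases h2 : f ∈ Ep
          · simp [h1, h2, Ep.mul_mem h1 h2, hmul e h1 f h2]
          · simp only [h1, h2, hEpl e h1 f hf h2, if_true, if_false]
            rw [mul_assoc, hmul e h1 _ (hmm f hf r0 hr0 h2 hr0'), one_mul]
          · simp only [h1, h2, hEpr e he h1 f h2, if_true, if_false]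
            have h3 := refl_conj hle hr he h1 h2
            rw [h3, mul_assoc, hmul _ (Ep.inv_mem h2) _ (hmm e he r0 hr0 h1 hr0'), hψinv f h2]
            ring
          · simp only [h1, h2, hmm e he f hf h1 h2, if_true, if_false]
            have h3 : e * f = (e * r0) * (f * r0)⁻¹ := by
              have h4 : f⁻¹ = f := inv_of_sq (hr f hf h2)
              rw [mul_inv_rev, h4]; group
            rw [h3, hmul _ (hmm e he r0 hr0 h1 hr0') _ (Ep.inv_mem (hmm f hf r0 hr0 h2 hr0')),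
              hψinv _ (hmm f hf r0 hr0 h2 hr0')]
            ring
        eps_y0 := by simp [hz]
        tau_y0 := by simp [hz, hψz]
        ker_sq := fun k hk h1 h2 => by
          have h3 := (e1 k).1 h1
          simp only [h3, if_true] at h2
          exact hsq k h3 h2
        ker_fin := hKfin.subset fun k hk => by
          obtain ⟨h0, h1, h2⟩ := hk
          have h3 := (e1 k).1 h1
          simp only [h3, if_true] at h2
          exact ⟨h3, h2⟩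
        refl_sq := fun r hrE h => hr r hrE ((e2 r).1 h)
        cube := fun k hk h1 h2 => by
          have h3 := (e1 k).1 h1
          simp only [h3, if_true] at h2
          exact hcube z hz k h3 h2
        ori := fun k hk r hrE h1 h2 h3 h4 => by
          have h5 := (e1 k).1 h1
          simp only [h5, if_true] at h2
          exact hori k h5 h2 h3 r hrE ((e2 r).1 h4) }

end Pool.Agent.Lib.MP_f1646b_al
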