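import Pool.Agent.Lib.MP_f1646b_al.P01

/-!
# P09: nearest point projections to cosets
-/

set_option autoImplicit false

namespace Pool.Agent.Lib.MP_f1646b_al

/-! ### M7 : projections to cosets -/

theorem exists_near {G : Type*} [Group G] (d : G → G → ℕ) (E : Subgroup G) (g x : G) :
    ∃ a, Near d E g x a := by
  classical
  have hex : ∃ m, ∃ a, g⁻¹ * a ∈ E ∧ d x a = m := ⟨d x g, g, by simp [E.one_mem], rfl⟩
  obtain ⟨a, ha, hm⟩ := Nat.find_spec hex
  refine ⟨a, ha, fun b hb => ?_⟩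
  rw [hm]
  exact Nat.find_min' hex ⟨b, hb, rfl⟩

namespace P09

variable {G : Type*} [Group G] {d : G → G → ℕ} {δ : ℕ}

theorem coset_qc (h : HypMet G d δ) (E : Subgroup G) {q : ℕ}
    (hq : ∀ u ∈ E, ∀ v ∈ E, ∀ w, Btw d u w v → ∃ e ∈ E, d w e ≤ q) (g u v w : G)
    (hu : g⁻¹ * u ∈ E) (hv : g⁻¹ * v ∈ E) (hw : Btw d u w v) : ∃ e, g⁻¹ * e ∈ E ∧ d w e ≤ q := by
  have hw' : Btw d (g⁻¹ * u) (g⁻¹ * w) (g⁻¹ * v) := by
    unfold Btw at *
    rw [h.inv, h.inv, h.inv]; exact hw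
  obtain ⟨e, he, hde⟩ := hq _ hu _ hv _ hw'
  refine ⟨g * e, by simpa using he, ?_⟩
  have := h.inv g (g⁻¹ * w) e
  rw [mul_inv_cancel_left] at this
  rw [this]; exact hde

theorem contr_left (h : HypMet G d δ) (E : Subgroup G) {q : ℕ}
    (hq : ∀ u ∈ E, ∀ v ∈ E, ∀ w, Btw d u w v → ∃ e ∈ E, d w e ≤ q) (g x y a b : G)
    (ha : Near d E g x a) (hb : Near d E g y b) (hab : 8 * δ + 2 * q + 3 < d a b) :
    ∃ w, Btw d x w y ∧ d a w ≤ 6 * δ + q + 1 := by
  obtain ⟨w, hw, haw⟩ := geo_btw h.geo a b (4 * δ + q + 1) (by omega)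
  obtain ⟨e, he, hwe⟩ := coset_qc h E hq g a b w ha.1 hb.1 hw
  obtain ⟨p, hp, hwp⟩ := quad h.geo h.hyp hw x y
  have hpw := h.geo.symm w p
  rcases hp with hp | hp | hp
  · exfalso
    have h1 := ha.2 e he
    have h2 := h.geo.tri x p e
    have h3 := h.geo.tri p w e
    have h4 := h.geo.symm x a
    have h5 := h.geo.symm x p
    have h6 := h.geo.tri a p w
    unfold Btw at hp
    omega
  · refine ⟨p, hp, ?_⟩
    have h1 := h.geo.tri a w p
    omega
  · exfalso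
    have h1 := hb.2 e he
    have h2 := h.geo.tri y p e
    have h3 := h.geo.tri p w e
    have h6 := h.geo.tri w p b
    unfold Btw at hp hw
    omega

end P09

theorem exists_projConst {G : Type*} [Group G] {d : G → G → ℕ} {δ : ℕ} (h : HypMet G d δ)
    (E : Subgroup G) (hE : QCSep d E) : ∃ κ, ProjConst d E κ := by
  obtain ⟨q, hq⟩ := hE.qc
  obtain ⟨B, hB⟩ := hE.sep (6 * δ + 2 * q + 1)
  have hleft := P09.contr_left h E hq
  have hright : ∀ g x y a b : G, Near d E g x a → Near d E g y b → 8 * δ + 2 * q + 3 < d a b →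
      ∃ w, Btw d x w y ∧ d b w ≤ 6 * δ + q + 1 := by
    intro g x y a b ha hb hab
    rw [h.geo.symm a b] at hab
    obtain ⟨w, hw, hbw⟩ := hleft g y x b a hb ha hab
    exact ⟨w, hw.comm h.geo, hbw⟩
  refine ⟨(8 * δ + 2 * q + 3) + 2 * (6 * δ + q + 1) + 1 + B + q, ?_, ?_, ?_, ?_⟩
  · intro g x x' a a' hxx ha ha'
    by_contra hc
    push Not at hc
    obtain ⟨p, hp, hap⟩ := hleft g x x' a a' ha ha' (by omega)
    obtain ⟨p', hp', hap'⟩ := hright g x x' a a' ha ha' (by omega)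
    have h1 : d p p' ≤ 1 := by
      have hs := h.geo.symm x x'
      have h0 := h.geo.self x
      have h0' := h.geo.self x'
      rcases btw_of_le_one h.geo hxx hp with e | e <;>
        rcases btw_of_le_one h.geo hxx hp' with e' | e' <;> rw [e, e'] <;> omega
    have h2 := h.geo.tri a p a'
    have h3 := h.geo.tri p p' a'
    have h4 := h.geo.symm a' p'
    omega
  · intro g g' u v a b hgg hu hv ha hb
    by_contra hc
    push Not at hc
    obtain ⟨p, hp, hap⟩ := hleft g u v a b ha hb (by omega)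
    obtain ⟨p', hp', hbp'⟩ := hright g u v a b ha hb (by omega)
    obtain ⟨e₁, he₁, hpe₁⟩ := P09.coset_qc h E hq g' u v p hu hv hp
    obtain ⟨e₂, he₂, hpe₂⟩ := P09.coset_qc h E hq g' u v p' hu hv hp'
    have h1 := h.geo.tri a p e₁
    have h2 := h.geo.tri b p' e₂
    have e1 : (g⁻¹ * g') * (g'⁻¹ * e₁) = g⁻¹ * e₁ := by group
    have e2 : (g⁻¹ * g') * (g'⁻¹ * e₂) = g⁻¹ * e₂ := by group
    have h3 := hB (g⁻¹ * g') hgg (g⁻¹ * a) ha.1 (g⁻¹ * b) hb.1 (g'⁻¹ * e₁) he₁ (g'⁻¹ * e₂) he₂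
      (by rw [e1, h.inv]; omega) (by rw [e2, h.inv]; omega)
    rw [h.inv] at h3
    omega
  · intro g x y a b ha hb hab
    obtain ⟨w, hw, haw⟩ := hleft g x y a b ha hb (by omega)
    obtain ⟨w', hw', hbw'⟩ := hright g x y a b ha hb (by omega)
    exact ⟨⟨w, hw, by omega⟩, ⟨w', hw', by omega⟩⟩
  · intro g u v w hu hv hw
    obtain ⟨e, he, hwe⟩ := P09.coset_qc h E hq g u v w hu hv hw
    exact ⟨e, he, by omega⟩

end Pool.Agent.Lib.MP_f1646b_al
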