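import Pool.Agent.Lib.MP_f1646b_al.P02
import Pool.Agent.Lib.MP_f1646b_al.P03
import Pool.Agent.Lib.MP_f1646b_al.P01

/-!
Piece P10: the cone-off is hyperbolic.
-/

set_option autoImplicit false

namespace Pool.Agent.Lib.MP_f1646b_al

open scoped Pointwise

namespace P10

variable {G : Type*} [Group G] {d : G → G → ℕ} {δ : ℕ} (E : Subgroup G)

theorem adj_ll (h : IsGeo d) (g g' : G) :
    (coneGraph d E).Adj (Sum.inl g) (Sum.inl g') ↔ d g g' = 1 := by
  unfold coneGraph
  rw [SimpleGraph.fromRel_adj]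
  constructor
  · rintro ⟨_, (⟨a, b, ha, hb, hab⟩ | ⟨a, ha, hb⟩) | (⟨a, b, ha, hb, hab⟩ | ⟨a, ha, hb⟩)⟩
    · rw [Sum.inl.inj ha, Sum.inl.inj hb]
      exact hab
    · cases hb
    · rw [Sum.inl.inj ha, Sum.inl.inj hb, h.symm]
      exact hab
    · cases hb
  · intro hd
    refine ⟨?_, Or.inl (Or.inl ⟨g, g', rfl, rfl, hd⟩)⟩
    intro he
    rw [Sum.inl.inj he, h.self] at hd
    omega

theorem adj_lr (g : G) (c : G ⧸ E) :
    (coneGraph d E).Adj (Sum.inl g) (Sum.inr c) ↔ (g : G ⧸ E) = c := by
  unfold coneGraph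
  rw [SimpleGraph.fromRel_adj]
  constructor
  · rintro ⟨_, (⟨a, b, ha, hb, hab⟩ | ⟨a, ha, hb⟩) | (⟨a, b, ha, hb, hab⟩ | ⟨a, ha, hb⟩)⟩
    · cases hb
    · rw [Sum.inl.inj ha]
      exact (Sum.inr.inj hb).symm
    · cases ha
    · cases ha
  · intro hd
    exact ⟨Sum.inl_ne_inr, Or.inl (Or.inr ⟨g, rfl, by rw [hd]⟩)⟩

theorem adj_rr (c c' : G ⧸ E) : ¬ (coneGraph d E).Adj (Sum.inr c) (Sum.inr c') := by
  unfold coneGraph
  rw [SimpleGraph.fromRel_adj]
  rintro ⟨_, (⟨a, b, ha, hb, hab⟩ | ⟨a, ha, hb⟩) | (⟨a, b, ha, hb, hab⟩ | ⟨a, ha, hb⟩)⟩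
  · cases ha
  · cases ha
  · cases ha
  · cases ha

theorem reach_ll (h : IsGeo d) (n : ℕ) : ∀ g g' : G, d g g' = n →
    ∃ p : (coneGraph d E).Walk (Sum.inl g) (Sum.inl g'), p.length ≤ n := by
  induction n with
  | zero =>
    intro g g' hg
    rw [h.eq_of _ _ hg]
    exact ⟨SimpleGraph.Walk.nil, le_rfl⟩
  | succ n ih =>
    intro g g' hg
    obtain ⟨w, hw, hd⟩ := geo_btw h g g' 1 (by omega)
    obtain ⟨p, hp⟩ := ih w g' (by unfold Btw at hw; omega)
    refine ⟨SimpleGraph.Walk.cons ((adj_ll E h g w).2 hd) p, ?_⟩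
    rw [SimpleGraph.Walk.length_cons]
    omega

/-- representative in the group -/
noncomputable def star : Cone G E → G
  | Sum.inl g => g
  | Sum.inr c => c.out

theorem reach_star (x : Cone G E) :
    ∃ p : (coneGraph d E).Walk x (Sum.inl (star E x)), p.length ≤ 1 := by
  rcases x with g | c
  · exact ⟨SimpleGraph.Walk.nil, Nat.zero_le _⟩
  · have h1 : (coneGraph d E).Adj (Sum.inr c) (Sum.inl c.out) :=
      ((adj_lr (d := d) E c.out c).2 (QuotientGroup.out_eq' c)).symm
    exact ⟨SimpleGraph.Walk.cons h1 SimpleGraph.Walk.nil, le_rfl⟩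

theorem connected (h : IsGeo d) : (coneGraph d E).Connected := by
  have : Nonempty (Cone G E) := ⟨Sum.inl 1⟩
  refine SimpleGraph.Connected.mk fun x y => ?_
  obtain ⟨p, -⟩ := reach_star (d := d) E x
  obtain ⟨q, -⟩ := reach_star (d := d) E y
  obtain ⟨r, -⟩ := reach_ll E h _ (star E x) (star E y) rfl
  exact (p.reachable.trans r.reachable).trans q.reachable.symm

theorem cd_le (h : IsGeo d) (g g' : G) : cd d E (Sum.inl g) (Sum.inl g') ≤ d g g' := by
  obtain ⟨r, hr⟩ := reach_ll E h _ g g' rfl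
  exact (SimpleGraph.dist_le r).trans hr

theorem cd_star (x : Cone G E) : cd d E x (Sum.inl (star E x)) ≤ 1 := by
  obtain ⟨r, hr⟩ := reach_star (d := d) E x
  exact (SimpleGraph.dist_le r).trans hr

theorem adj_smul (h : IsGeo d) (hinv : ∀ g x y, d (g * x) (g * y) = d x y) (g : G)
    (x y : Cone G E) (hxy : (coneGraph d E).Adj x y) : (coneGraph d E).Adj (g • x) (g • y) := by
  rcases x with a | c
  · rcases y with b | c'
    · rw [Sum.smul_inl, Sum.smul_inl, adj_ll E h, smul_eq_mul, smul_eq_mul, hinv]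
      exact (adj_ll E h a b).1 hxy
    · rw [Sum.smul_inl, Sum.smul_inr, adj_lr, ← (adj_lr E a c').1 hxy]
      rfl
  · rcases y with b | c'
    · rw [Sum.smul_inl, Sum.smul_inr, SimpleGraph.adj_comm, adj_lr, ← (adj_lr E b c).1 hxy.symm]
      rfl
    · exact absurd hxy (adj_rr E c c')

theorem cd_smul_le (h : IsGeo d) (hinv : ∀ g x y, d (g * x) (g * y) = d x y) (g : G)
    (x y : Cone G E) : cd d E (g • x) (g • y) ≤ cd d E x y := by
  obtain ⟨p, hp⟩ := (connected E h).exists_walk_length_eq_dist x y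
  let φ : coneGraph d E →g coneGraph d E := ⟨fun z => g • z, fun hab => adj_smul E h hinv g _ _ hab⟩
  have h1 := SimpleGraph.dist_le (p.map φ)
  rw [SimpleGraph.Walk.length_map, hp] at h1
  exact h1

theorem cd_smul (h : IsGeo d) (hinv : ∀ g x y, d (g * x) (g * y) = d x y) (g : G)
    (x y : Cone G E) : cd d E (g • x) (g • y) = cd d E x y := by
  refine le_antisymm (cd_smul_le E h hinv g x y) ?_
  have h1 := cd_smul_le E h hinv g⁻¹ (g • x) (g • y)
  rwa [inv_smul_smul, inv_smul_smul] at h1

/-- the guessed geodesics -/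
def LL (d : G → G → ℕ) (x y : Cone G E) : Set (Cone G E) :=
  {z | z = x ∨ z = y ∨ ∃ t : G, z = Sum.inl t ∧ Btw d (star E x) t (star E y)}

end P10

open P10 in
/-- the cone-off is hyperbolic -/
theorem exists_coneHyp {G : Type*} [Group G] {d : G → G → ℕ} {δ : ℕ} (h : HypMet G d δ)
    (E : Subgroup G) (hE : QCSep d E) : ∃ T, ConeHyp d E T := by
  have hd := h.geo
  have hg : IsGeo (cd d E) := isGeo_dist _ (connected E hd)
  have one_iff : ∀ x y : Cone G E, cd d E x y = 1 ↔ (coneGraph d E).Adj x y := fun x y =>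
    SimpleGraph.dist_eq_one_iff_adj
  obtain ⟨q, hq⟩ := hE.qc
  -- quasiconvexity of cosets
  have hqc : ∀ (c : G ⧸ E) (u v w : G), (u : G ⧸ E) = c → (v : G ⧸ E) = c → Btw d u w v →
      ∃ e : G, (e : G ⧸ E) = c ∧ d w e ≤ q := by
    intro c u v w hu hv hw
    have huv : u⁻¹ * v ∈ E := by
      rw [← QuotientGroup.eq, hu, hv]
    have hb : Btw d 1 (u⁻¹ * w) (u⁻¹ * v) := by
      unfold Btw at *
      have e1 := h.inv u 1 (u⁻¹ * w)
      have e2 := h.inv u 1 (u⁻¹ * v)
      have e3 := h.inv u⁻¹ w v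
      rw [mul_one, mul_inv_cancel_left] at e1 e2
      omega
    obtain ⟨e, he, hde⟩ := hq 1 E.one_mem _ huv _ hb
    refine ⟨u * e, ?_, ?_⟩
    · rw [← hu, eq_comm, QuotientGroup.eq, inv_mul_cancel_left]
      exact he
    · have e1 := h.inv u (u⁻¹ * w) e
      rw [mul_inv_cancel_left] at e1
      omega
  have hnear : ∀ (c : G ⧸ E) (u v w : G), (u : G ⧸ E) = c → (v : G ⧸ E) = c → Btw d u w v →
      cd d E (Sum.inr c) (Sum.inl w) ≤ 1 + q := by
    intro c u v w hu hv hw
    obtain ⟨e, he, hde⟩ := hqc c u v w hu hv hw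
    have e1 := hg.tri (Sum.inr c) (Sum.inl e) (Sum.inl w)
    have e2 := cd_le E hd e w
    have e3 : cd d E (Sum.inr c) (Sum.inl e) = 1 :=
      (one_iff _ _).2 ((adj_lr E e c).2 he).symm
    have e4 := hd.symm e w
    omega
  have hout : ∀ c : G ⧸ E, ((c.out : G) : G ⧸ E) = c := fun c => QuotientGroup.out_eq' c
  obtain ⟨T, hT1, hT2⟩ := guess (cd d E) hg (LL E d) (δ + q + 2) (by
    rintro x y z w (rfl | rfl | ⟨t, rfl, ht⟩)
    · exact ⟨w, Or.inl (Or.inl rfl), by rw [hg.self]; exact Nat.zero_le _⟩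
    · exact ⟨w, Or.inr (Or.inr (Or.inl rfl)), by rw [hg.self]; exact Nat.zero_le _⟩
    · obtain ⟨v, hv, hdv⟩ := h.hyp _ _ (star E z) t ht
      have e1 := cd_le E hd t v
      refine ⟨Sum.inl v, ?_, by omega⟩
      rcases hv with hv | hv
      · exact Or.inl (Or.inr (Or.inr ⟨v, rfl, hv⟩))
      · exact Or.inr (Or.inr (Or.inr ⟨v, rfl, hv⟩))) (by
    rintro x y hxy w (rfl | rfl | ⟨t, rfl, ht⟩)
    · rw [hg.self]
      exact Nat.zero_le _
    · omega
    · rcases Nat.lt_or_ge (cd d E x y) 1 with h0 | h0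
      · have hxy' : x = y := hg.eq_of _ _ (by omega)
        subst hxy'
        rcases btw_of_le_one hd (by rw [hd.self]; exact Nat.zero_le _) ht with h1 | h1
        · rw [h1]
          have := cd_star (d := d) E x
          omega
        · rw [h1]
          have := cd_star (d := d) E x
          omega
      · have h1 := (one_iff x y).1 (by omega)
        rcases x with a | c
        · rcases y with b | c'
          · have h2 := (adj_ll E hd a b).1 h1
            have ht' : Btw d a t b := ht
            have e1 := cd_le E hd a t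
            unfold Btw at ht'
            omega
          · have h2 := (adj_lr E a c').1 h1
            have e1 := hnear c' a c'.out t h2 (hout c') ht
            have e2 := hg.tri (Sum.inl a) (Sum.inr c') (Sum.inl t)
            omega
        · rcases y with b | c'
          · have h2 := (adj_lr E b c).1 h1.symm
            have e1 := hnear c c.out b t (hout c) h2 ht
            omega
          · exact absurd h1 (adj_rr E c c')) (by
    intro x y
    obtain ⟨γ, hγ, -⟩ := exists_geoPath hd (star E x) (star E y) (star E x) (btw_left hd _ _)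
    obtain ⟨g0, g1, g2⟩ := hγ
    set n := d (star E x) (star E y) with hn
    refine ⟨n + 2, fun i => if i = 0 then x else if i = n + 2 then y else Sum.inl (γ (i - 1)),
      by simp, by simp, ?_, ?_⟩
    · intro i hi
      by_cases h0 : i = 0
      · simp only [h0, if_true]
        exact Or.inl rfl
      · by_cases h2 : i = n + 2
        · simp only [h2, if_true]
          rw [if_neg (by omega)]
          exact Or.inr (Or.inl rfl)
        · simp only [h0, h2, if_false]
          refine Or.inr (Or.inr ⟨_, rfl, ?_⟩)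
          have e1 := g2 0 (i - 1) (Nat.zero_le _) (by omega)
          have e2 := g2 (i - 1) n (by omega) (by omega)
          rw [g0] at e1
          rw [g1] at e2
          unfold Btw
          omega
    · intro i hi
      by_cases h0 : i = 0
      · subst h0
        have e0 : ¬ (0 + 1 = 0) := by omega
        have e1 : ¬ (0 + 1 = n + 2) := by omega
        simp only [if_true, e0, e1, if_false]
        have e2 : γ (0 + 1 - 1) = star E x := g0
        rw [e2]
        exact cd_star E x
      · have e0 : ¬ (i + 1 = 0) := by omega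
        have e1 : ¬ (i = n + 2) := by omega
        by_cases h2 : i + 1 = n + 2
        · simp only [h0, e1, h2, if_true, if_false]
          have e3 : i - 1 = n := by omega
          rw [if_neg (by omega), e3, g1, hg.symm]
          exact cd_star E y
        · simp only [h0, e0, e1, h2, if_false]
          have e3 := cd_le E hd (γ (i - 1)) (γ (i + 1 - 1))
          have e4 := g2 (i - 1) (i + 1 - 1) (by omega) (by omega)
          omega)
  refine ⟨T, ?_⟩
  refine {
    geo := hg
    inv := cd_smul E hd h.inv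
    adj_ll := fun g g' => (one_iff _ _).trans (adj_ll E hd g g')
    adj_lr := fun g c => (one_iff _ _).trans (adj_lr E g c)
    adj_rr := fun c c' hcc => adj_rr E c c' ((one_iff _ _).1 hcc)
    hyp := hT2
    near := fun x y w hw γ hγ => hT1 (Sum.inl x) (Sum.inl y) (Sum.inl w)
      (Or.inr (Or.inr ⟨w, rfl, hw⟩)) γ hγ }

end Pool.Agent.Lib.MP_f1646b_al
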