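import Pool.Agent.Lib.MP_f1646b_al.P05

set_option autoImplicit false

namespace Pool.Agent.Lib.MP_f1646b_al

namespace P11a

variable {G : Type*} [Group G] {E : Subgroup G} {ε τ : G → ℤ} {y0 : G}

theorem eps_one (hE : EData E ε τ y0) : ε 1 = 1 := by
  have h1 := hE.eps_mul 1 E.one_mem 1 E.one_mem
  rw [mul_one] at h1
  rcases hE.eps_sq 1 E.one_mem with h | h
  · exact h
  · rw [h] at h1
    norm_num at h1

theorem tau_one (hE : EData E ε τ y0) : τ 1 = 0 := by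
  have h1 := hE.tau_mul 1 E.one_mem 1 E.one_mem
  rw [mul_one, eps_one hE] at h1
  omega

theorem eps_zpow (hE : EData E ε τ y0) (j : ℤ) : ε (y0 ^ j) = 1 := by
  have step : ∀ i : ℤ, ε (y0 ^ (i + 1)) = ε (y0 ^ i) := by
    intro i
    rw [zpow_add_one, hE.eps_mul _ (E.zpow_mem hE.y0_mem i) _ hE.y0_mem, hE.eps_y0, mul_one]
  induction j using Int.induction_on with
  | zero => rw [zpow_zero]; exact eps_one hE
  | succ i ih => rw [step, ih]
  | pred i ih =>
    have := step (-(i : ℤ) - 1)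
    rw [sub_add_cancel] at this
    rw [← this, ih]

theorem tau_zpow (hE : EData E ε τ y0) (j : ℤ) : τ (y0 ^ j) = j := by
  have step : ∀ i : ℤ, τ (y0 ^ (i + 1)) = τ (y0 ^ i) + 1 := by
    intro i
    rw [zpow_add_one, hE.tau_mul _ (E.zpow_mem hE.y0_mem i) _ hE.y0_mem, hE.tau_y0,
      eps_zpow hE, mul_one]
  induction j using Int.induction_on with
  | zero => rw [zpow_zero]; exact tau_one hE
  | succ i ih => rw [step, ih]
  | pred i ih =>
    have := step (-(i : ℤ) - 1)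
    rw [sub_add_cancel] at this
    omega

/-- decomposition of an orientation preserving element -/
theorem decomp (hE : EData E ε τ y0) {e : G} (he : e ∈ E) (h1 : ε e = 1) :
    ∃ k, (k ∈ E ∧ ε k = 1 ∧ τ k = 0) ∧ e = k * y0 ^ (τ e) := by
  refine ⟨e * y0 ^ (-τ e), ⟨E.mul_mem he (E.zpow_mem hE.y0_mem _), ?_, ?_⟩, ?_⟩
  · rw [hE.eps_mul _ he _ (E.zpow_mem hE.y0_mem _), h1, eps_zpow hE, mul_one]
  · rw [hE.tau_mul _ he _ (E.zpow_mem hE.y0_mem _), h1, tau_zpow hE]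
    ring
  · rw [mul_assoc, ← zpow_add, neg_add_cancel, zpow_zero, mul_one]

theorem fin_pos (hE : EData E ε τ y0) (m : ℕ) :
    {e : G | e ∈ E ∧ ε e = 1 ∧ (τ e).natAbs ≤ m}.Finite := by
  have h1 := (hE.ker_fin.prod (Set.finite_Icc (-(m : ℤ)) m)).image
    (fun p : G × ℤ => p.1 * y0 ^ p.2)
  refine h1.subset ?_
  rintro e ⟨he, h2, h3⟩
  obtain ⟨k, hk, hek⟩ := decomp hE he h2
  refine ⟨(k, τ e), ⟨hk, ?_⟩, hek.symm⟩
  rw [Set.mem_Icc]
  constructor
  · change -(m : ℤ) ≤ τ e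
    omega
  · change τ e ≤ (m : ℤ)
    omega

/-- an orientation reversing element times the inverse of a fixed one -/
theorem refl (hE : EData E ε τ y0) {r e : G} (hr : r ∈ E) (hr1 : ε r = -1) (he : e ∈ E)
    (h1 : ε e = -1) : ε (e * r⁻¹) = 1 ∧ τ (e * r⁻¹) = τ e - τ r⁻¹ := by
  have h2 : ε r⁻¹ = -1 := by
    have h3 := hE.eps_mul r hr r⁻¹ (E.inv_mem hr)
    rw [mul_inv_cancel, eps_one hE, hr1] at h3
    omega
  constructor
  · rw [hE.eps_mul _ he _ (E.inv_mem hr), h1, h2]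
    norm_num
  · rw [hE.tau_mul _ he _ (E.inv_mem hr), h1]
    ring

theorem norm_inv {d : G → G → ℕ} {δ : ℕ} (h : HypMet G d δ) (a b : G) : d a b = d 1 (a⁻¹ * b) := by
  have := h.inv a⁻¹ a b
  rw [inv_mul_cancel] at this
  exact this.symm

theorem norm_inv' {d : G → G → ℕ} {δ : ℕ} (h : HypMet G d δ) (a : G) : d 1 a⁻¹ = d 1 a := by
  rw [norm_inv h, inv_one, one_mul, h.geo.symm 1 a, norm_inv h a 1, mul_one]

theorem norm_mul {d : G → G → ℕ} {δ : ℕ} (h : HypMet G d δ) (a b : G) :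
    d 1 (a * b) ≤ d 1 a + d 1 b := by
  have h1 := h.geo.tri 1 a (a * b)
  have h2 : d a (a * b) = d 1 b := by rw [norm_inv h, inv_mul_cancel_left]
  omega

end P11a

open P11a in
theorem tau_fin {G : Type*} [Group G] (E : Subgroup G) (ε τ : G → ℤ) (y0 : G)
    (hE : EData E ε τ y0) (m : ℕ) : {e : G | e ∈ E ∧ (τ e).natAbs ≤ m}.Finite := by
  by_cases hr : ∃ r ∈ E, ε r = -1
  · obtain ⟨r, hr, hr1⟩ := hr
    have h1 := (fin_pos hE m).union ((fin_pos hE (m + (τ r⁻¹).natAbs)).image (fun e => e * r))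
    refine h1.subset ?_
    rintro e ⟨he, h2⟩
    rcases hE.eps_sq e he with h3 | h3
    · exact Or.inl ⟨he, h3, h2⟩
    · right
      obtain ⟨h4, h5⟩ := refl hE hr hr1 he h3
      refine ⟨e * r⁻¹, ⟨E.mul_mem he (E.inv_mem hr), h4, ?_⟩, by simp⟩
      rw [h5]
      omega
  · push Not at hr
    refine (fin_pos hE m).subset ?_
    rintro e ⟨he, h2⟩
    exact ⟨he, (hE.eps_sq e he).resolve_right (hr e he), h2⟩

open P11a in
theorem tau_lip {G : Type*} [Group G] {d : G → G → ℕ} {δ : ℕ} (h : HypMet G d δ)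
    (E : Subgroup G) (ε τ : G → ℤ) (y0 : G) (hE : EData E ε τ y0) :
    ∃ C, ∀ e ∈ E, (τ e).natAbs ≤ C * d 1 e + C := by
  have hy : InfOrd y0 := by
    intro m hm h1
    have h2 := tau_zpow hE (m : ℤ)
    rw [zpow_natCast, h1, tau_one hE] at h2
    omega
  obtain ⟨m, c, hm, hlin⟩ := lin_growth h y0 hy
  obtain ⟨b, hb⟩ := (hE.ker_fin.image (d 1)).bddAbove
  have hb' : ∀ k, k ∈ E → ε k = 1 → τ k = 0 → d 1 k ≤ b := fun k h1 h2 h3 =>
    hb ⟨k, ⟨h1, h2, h3⟩, rfl⟩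
  have hlin' : ∀ j : ℤ, j.natAbs ≤ m * d 1 (y0 ^ j) + c := by
    intro j
    obtain ⟨n, rfl | rfl⟩ := j.eq_nat_or_neg
    · rw [zpow_natCast, Int.natAbs_natCast]
      exact hlin n
    · rw [zpow_neg, zpow_natCast, norm_inv' h, Int.natAbs_neg, Int.natAbs_natCast]
      exact hlin n
  -- orientation preserving elements
  have hpos : ∀ e ∈ E, ε e = 1 → (τ e).natAbs ≤ m * d 1 e + (m * b + c) := by
    intro e he h1
    obtain ⟨k, ⟨hk1, hk2, hk3⟩, hek⟩ := decomp hE he h1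
    have h2 : d 1 (y0 ^ (τ e)) ≤ b + d 1 e := by
      have h3 : y0 ^ (τ e) = k⁻¹ * e := by
        conv_rhs => rw [hek]
        rw [inv_mul_cancel_left]
      rw [h3]
      have h4 := norm_mul h k⁻¹ e
      rw [norm_inv' h] at h4
      have h5 := hb' k hk1 hk2 hk3
      omega
    have h3 := hlin' (τ e)
    have h4 := Nat.mul_le_mul_left m h2
    calc (τ e).natAbs ≤ m * d 1 (y0 ^ (τ e)) + c := h3
      _ ≤ m * (b + d 1 e) + c := by omega
      _ = m * d 1 e + (m * b + c) := by ring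
  by_cases hr : ∃ r ∈ E, ε r = -1
  · obtain ⟨r, hr, hr1⟩ := hr
    refine ⟨m + (m * d 1 r + (m * b + c) + (τ r⁻¹).natAbs), fun e he => ?_⟩
    have hgoal : m * (d 1 e + d 1 r) + (m * b + c) + (τ r⁻¹).natAbs ≤
        (m + (m * d 1 r + (m * b + c) + (τ r⁻¹).natAbs)) * d 1 e +
          (m + (m * d 1 r + (m * b + c) + (τ r⁻¹).natAbs)) := by
      have e1 : (m + (m * d 1 r + (m * b + c) + (τ r⁻¹).natAbs)) * d 1 e = m * d 1 e +
        (m * d 1 r + (m * b + c) + (τ r⁻¹).natAbs) * d 1 e := by ring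
      have e2 : m * (d 1 e + d 1 r) = m * d 1 e + m * d 1 r := by ring
      rw [e1, e2]
      have e3 := Nat.zero_le ((m * d 1 r + (m * b + c) + (τ r⁻¹).natAbs) * d 1 e)
      omega
    rcases hE.eps_sq e he with h3 | h3
    · have h4 := hpos e he h3
      have h5 : m * d 1 e ≤ m * (d 1 e + d 1 r) := Nat.mul_le_mul_left _ (by omega)
      omega
    · obtain ⟨h4, h5⟩ := refl hE hr hr1 he h3
      have h6 := hpos _ (E.mul_mem he (E.inv_mem hr)) h4
      have h7 := norm_mul h e r⁻¹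
      rw [norm_inv' h] at h7
      have h8 := Nat.mul_le_mul_left m h7
      rw [h5] at h6
      omega
  · push Not at hr
    refine ⟨m + (m * b + c), fun e he => ?_⟩
    have h4 := hpos e he ((hE.eps_sq e he).resolve_right (hr e he))
    have e1 : (m + (m * b + c)) * d 1 e = m * d 1 e + (m * b + c) * d 1 e := by ring
    rw [e1]
    have e3 := Nat.zero_le ((m * b + c) * d 1 e)
    omega

end Pool.Agent.Lib.MP_f1646b_al
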