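import Pool.Agent.Lib.MP_f1646b_al.P01
import Pool.Agent.Lib.MP_f1646b_al.P09

/-!
Bounded projections of geodesics avoiding an apex (piece P11b).
-/

set_option autoImplicit false

namespace Pool.Agent.Lib.MP_f1646b_al

namespace P11b

variable {G : Type*} [Group G] {d : G → G → ℕ} {δ κ T : ℕ} {E : Subgroup G}

/-- projection of a vertex of the cone-off to the coset `g E` -/
def PP (d : G → G → ℕ) (E : Subgroup G) (g : G) : Cone G E → Set G
  | Sum.inl u => {a | Near d E g u a}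
  | Sum.inr c => {a | ∃ u : G, (u : G ⧸ E) = c ∧ Near d E g u a}

theorem PP_nonempty (d : G → G → ℕ) (E : Subgroup G) (g : G) (x : Cone G E) :
    (PP d E g x).Nonempty := by
  rcases x with u | c
  · exact exists_near d E g u
  · obtain ⟨u, rfl⟩ := QuotientGroup.mk_surjective c
    obtain ⟨a, ha⟩ := exists_near d E g u
    exact ⟨a, u, rfl, ha⟩

theorem mk_eq_iff (a b : G) : (a : G ⧸ E) = (b : G ⧸ E) ↔ a⁻¹ * b ∈ E := QuotientGroup.eq

theorem PP_adj (hκ : ProjConst d E κ) (hT : ConeHyp d E T)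
    (hself : ∀ x, d x x = 0) (g : G) (x y : Cone G E) (hx : x ≠ Sum.inr (g : G ⧸ E))
    (hy : y ≠ Sum.inr (g : G ⧸ E)) (hxy : cd d E x y ≤ 1) :
    ∀ a ∈ PP d E g x, ∀ b ∈ PP d E g y, d a b ≤ κ := by
  have main : ∀ (c : G ⧸ E), (Sum.inr c : Cone G E) ≠ Sum.inr (g : G ⧸ E) → ∀ u v a b : G,
      (u : G ⧸ E) = c → (v : G ⧸ E) = c → Near d E g u a → Near d E g v b → d a b ≤ κ := by
    intro c hc u v a b hu hv ha hb
    refine hκ.coset g u u v a b ?_ (by simp [E.one_mem]) ?_ ha hb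
    · intro hcon
      apply hc
      rw [← hu]
      congr 1
      exact ((mk_eq_iff g u).2 hcon).symm
    · exact (mk_eq_iff u v).1 (hu.trans hv.symm)
  intro a ha b hb
  rcases x with u | c <;> rcases y with v | c'
  · refine hκ.adj g u v a b ?_ ha hb
    rcases Nat.lt_or_ge (cd d E (Sum.inl u) (Sum.inl v)) 1 with h0 | h0
    · have h1 := hT.geo.eq_of _ _ (by omega : cd d E (Sum.inl u) (Sum.inl v) = 0)
      rw [Sum.inl.injEq] at h1
      rw [h1, hself]; omega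
    · rw [(hT.adj_ll u v).1 (by omega)]
  · obtain ⟨v, hv, hb⟩ := hb
    have h1 : cd d E (Sum.inl u) (Sum.inr c') ≠ 0 := fun h0 => by
      have := hT.geo.eq_of _ _ h0
      simp at this
    have h2 := (hT.adj_lr u c').1 (by omega)
    exact main c' hy u v a b h2 hv ha hb
  · obtain ⟨u, hu, ha⟩ := ha
    have h1 : cd d E (Sum.inl v) (Sum.inr c) ≠ 0 := fun h0 => by
      have := hT.geo.eq_of _ _ h0
      simp at this
    have h2 := (hT.adj_lr v c).1 (by rw [hT.geo.symm] at hxy; omega)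
    exact main c hx u v a b hu h2 ha hb
  · obtain ⟨u, hu, ha⟩ := ha
    obtain ⟨v, hv, hb⟩ := hb
    have h1 := hT.adj_rr c c'
    have h2 := hT.geo.eq_of _ _ (by omega : cd d E (Sum.inr c) (Sum.inr c') = 0)
    rw [Sum.inr.injEq] at h2
    subst h2
    exact main c hx u v a b hu hv ha hb

theorem cd_le (hd : IsGeo d) (hT : ConeHyp d E T) (n : ℕ) : ∀ a b : G, d a b = n →
    cd d E (Sum.inl a) (Sum.inl b) ≤ n := by
  induction n with
  | zero =>
    intro a b hab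
    rw [hd.eq_of a b hab, hT.geo.self]
  | succ n ih =>
    intro a b hab
    obtain ⟨w, h1, h2⟩ := hd.geo a b n (by omega)
    have h3 := ih a w h1
    have h4 := (hT.adj_ll w b).2 (by omega)
    have h5 := hT.geo.tri (Sum.inl a) (Sum.inl w) (Sum.inl b)
    omega

/-- bounded distance of projections -/
def Bd (d : G → G → ℕ) (E : Subgroup G) (g : G) (x y : Cone G E) (L : ℕ) : Prop :=
  ∀ a ∈ PP d E g x, ∀ b ∈ PP d E g y, d a b ≤ L

theorem Bd.trans (hd : IsGeo d) {g : G} {x y z : Cone G E} {L L' : ℕ} (h1 : Bd d E g x y L)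
    (h2 : Bd d E g y z L') : Bd d E g x z (L + L') := by
  intro a ha b hb
  obtain ⟨c, hc⟩ := PP_nonempty d E g y
  have h3 := hd.tri a c b
  have h4 := h1 a ha c hc
  have h5 := h2 c hc b hb
  omega

theorem Bd.mono {g : G} {x y : Cone G E} {L L' : ℕ} (h1 : Bd d E g x y L) (h2 : L ≤ L') :
    Bd d E g x y L' := fun a ha b hb => (h1 a ha b hb).trans h2

section path

variable (h : HypMet G d δ) (hκ : ProjConst d E κ) (hT : ConeHyp d E T) (g : G)
  {γ : ℕ → Cone G E} {m : ℕ} (hγ : ∀ i j, i ≤ j → j ≤ m → cd d E (γ i) (γ j) = j - i)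
  (hs : ∀ i ≤ m, γ i ≠ Sum.inr (g : G ⧸ E))

include h hκ hT hγ hs

theorem chain (k : ℕ) : ∀ p q, q = p + k → q ≤ m → Bd d E g (γ p) (γ q) ((k + 1) * κ) := by
  induction k with
  | zero =>
    intro p q hpq hq
    have hqp : q = p := by omega
    rw [hqp]
    have h1 := PP_adj hκ hT h.geo.self g (γ p) (γ p) (hs p (by omega)) (hs p (by omega))
      (by rw [hT.geo.self]; omega)
    exact Bd.mono h1 (by omega)
  | succ k ih =>
    intro p q hpq hq
    have h1 := ih p (p + k) rfl (by omega)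
    have h2 : Bd d E g (γ (p + k)) (γ q) κ :=
      PP_adj hκ hT h.geo.self g _ _ (hs _ (by omega)) (hs _ (by omega))
      (by rw [hγ _ _ (by omega) hq]; omega)
    exact (h1.trans h.geo h2).mono (by ring_nf; omega)

theorem far_ll (p q : ℕ) (hpq : p ≤ q) (hq : q ≤ m) (u v : G) (hu : γ p = Sum.inl u)
    (hv : γ q = Sum.inl v)
    (hfar : ∀ i, p ≤ i → i ≤ q → T + κ + 1 < cd d E (γ i) (Sum.inr (g : G ⧸ E))) :
    Bd d E g (γ p) (γ q) κ := by
  intro a ha b hb
  rw [hu] at ha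
  rw [hv] at hb
  by_contra hcon
  push Not at hcon
  obtain ⟨⟨w, hw, haw⟩, -⟩ := hκ.contr g u v a b ha hb hcon
  have hd := hγ p q hpq hq
  rw [hu, hv] at hd
  obtain ⟨i, hi, hwi⟩ := hT.near u v w hw (fun i => γ (p + i)) ⟨by simpa using hu, by
    simp only [hd]; rw [Nat.add_sub_cancel' hpq]; exact hv, fun i j hij hj => by
      simp only
      rw [hγ _ _ (by omega) (by omega)]; omega⟩
  have h1 := hfar (p + i) (by omega) (by omega)
  have h2 := cd_le h.geo hT _ a w rfl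
  have h3 : cd d E (Sum.inl a) (Sum.inr (g : G ⧸ E)) = 1 := by
    rw [hT.adj_lr]
    exact ((mk_eq_iff g a).2 ha.1).symm
  have h4 := hT.geo.tri (γ (p + i)) (Sum.inl w) (Sum.inr (g : G ⧸ E))
  have h5 := hT.geo.tri (Sum.inl w) (Sum.inl a) (Sum.inr (g : G ⧸ E))
  have h6 := hT.geo.symm (γ (p + i)) (Sum.inl w)
  have h7 := hT.geo.symm (Sum.inl w) (Sum.inl a)
  omega

theorem not_apex (p : ℕ) (hp : p + 1 ≤ m) :
    (∃ u, γ p = Sum.inl u) ∨ ∃ u, γ (p + 1) = Sum.inl u := by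
  have h1 := hγ p (p + 1) (by omega) hp
  rcases hx : γ p with u | c
  · exact Or.inl ⟨u, rfl⟩
  · rcases hy : γ (p + 1) with v | c'
    · exact Or.inr ⟨v, rfl⟩
    · rw [hx, hy] at h1
      exact absurd (by omega) (hT.adj_rr c c')

theorem far (p q : ℕ) (hpq : p ≤ q) (hq : q ≤ m)
    (hfar : ∀ i, p ≤ i → i ≤ q → T + κ + 1 < cd d E (γ i) (Sum.inr (g : G ⧸ E))) :
    Bd d E g (γ p) (γ q) (5 * κ) := by
  by_cases h3 : q ≤ p + 2
  · have h4 := chain h hκ hT g hγ hs (q - p) p q (by omega) hq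
    refine h4.mono ?_
    exact Nat.mul_le_mul_right κ (by omega)
  push Not at h3
  obtain ⟨p', hp', hp'2, u, hu⟩ : ∃ p', p ≤ p' ∧ p' ≤ p + 1 ∧ ∃ u, γ p' = Sum.inl u := by
    rcases not_apex h hκ hT g hγ hs p (by omega) with ⟨u, hu⟩ | ⟨u, hu⟩
    · exact ⟨p, le_refl _, by omega, u, hu⟩
    · exact ⟨p + 1, by omega, le_refl _, u, hu⟩
  obtain ⟨q', hq', hq'2, v, hv⟩ : ∃ q', q' ≤ q ∧ q ≤ q' + 1 ∧ ∃ v, γ q' = Sum.inl v := by
    obtain ⟨q1, rfl⟩ : ∃ q1, q = q1 + 1 := ⟨q - 1, by omega⟩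
    rcases not_apex h hκ hT g hγ hs q1 (by omega) with ⟨u, hu⟩ | ⟨u, hu⟩
    · exact ⟨q1, by omega, by omega, u, hu⟩
    · exact ⟨q1 + 1, by omega, by omega, u, hu⟩
  have h4 := chain h hκ hT g hγ hs (p' - p) p p' (by omega) (by omega)
  have h5 := chain h hκ hT g hγ hs (q - q') q' q (by omega) (by omega)
  have h6 := far_ll h hκ hT g hγ hs p' q' (by omega) (by omega) u v hu hv
    (fun i hi hi2 => hfar i (by omega) (by omega))
  have h7 : (p' - p + 1) * κ ≤ 2 * κ := Nat.mul_le_mul_right κ (by omega)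
  have h8 : (q - q' + 1) * κ ≤ 2 * κ := Nat.mul_le_mul_right κ (by omega)
  exact (((h4.mono h7).trans h.geo h6).trans h.geo (h5.mono h8)).mono (by omega)

theorem bcp : Bd d E g (γ 0) (γ m) ((2 * (T + κ + 1) + 15) * κ) := by
  classical
  set K := T + κ + 1 with hK
  by_cases hex : ∃ i, i ≤ m ∧ cd d E (γ i) (Sum.inr (g : G ⧸ E)) ≤ K
  · -- first index
    obtain ⟨i0, ⟨hi0, hi0'⟩, hmin⟩ : ∃ i0, (i0 ≤ m ∧ cd d E (γ i0) (Sum.inr (g : G ⧸ E)) ≤ K) ∧
        ∀ j < i0, ¬ (j ≤ m ∧ cd d E (γ j) (Sum.inr (g : G ⧸ E)) ≤ K) :=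
      ⟨Nat.find hex, Nat.find_spec hex, fun j hj => Nat.find_min hex hj⟩
    obtain ⟨i1, ⟨hi1, hi1'⟩, hmax⟩ : ∃ i1, (i1 ≤ m ∧ cd d E (γ i1) (Sum.inr (g : G ⧸ E)) ≤ K) ∧
        ∀ j, i1 < j → j ≤ m → ¬ cd d E (γ j) (Sum.inr (g : G ⧸ E)) ≤ K := by
      have hex' : ∃ j, j ≤ m ∧ cd d E (γ (m - j)) (Sum.inr (g : G ⧸ E)) ≤ K := by
        obtain ⟨i, hi, hi2⟩ := hex
        exact ⟨m - i, by omega, by rw [show m - (m - i) = i by omega]; exact hi2⟩
      refine ⟨m - Nat.find hex', ⟨by omega, (Nat.find_spec hex').2⟩, fun j hj hj2 hcon => ?_⟩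
      have := Nat.find_min hex' (m := m - j) (by omega)
      apply this
      exact ⟨by omega, by rw [show m - (m - j) = j by omega]; exact hcon⟩
    have h01 : i0 ≤ i1 := by
      by_contra hcon
      exact hmin i1 (by omega) ⟨hi1, hi1'⟩
    have h2 := hγ i0 i1 h01 hi1
    have h3 := hT.geo.tri (γ i0) (Sum.inr (g : G ⧸ E)) (γ i1)
    have h4 := hT.geo.symm (γ i1) (Sum.inr (g : G ⧸ E))
    have h5 := chain h hκ hT g hγ hs (i1 - i0) i0 i1 (by omega) hi1
    have h6 : Bd d E g (γ 0) (γ i0) (7 * κ) := by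
      rcases Nat.eq_zero_or_pos i0 with h7 | h7
      · have h8 := chain h hκ hT g hγ hs i0 0 i0 (by omega) hi0
        exact h8.mono (Nat.mul_le_mul_right κ (by omega))
      · have h8 := far h hκ hT g hγ hs 0 (i0 - 1) (by omega) (by omega) (fun i _ hi => by
          have := hmin i (by omega)
          push Not at this
          exact this (by omega))
        have h9 := chain h hκ hT g hγ hs 1 (i0 - 1) i0 (by omega) hi0
        exact (h8.trans h.geo h9).mono (by omega)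
    have h7 : Bd d E g (γ i1) (γ m) (7 * κ) := by
      rcases Nat.lt_or_ge i1 m with h7 | h7
      · have h8 := far h hκ hT g hγ hs (i1 + 1) m (by omega) (by omega) (fun i hi hi' => by
          have := hmax i (by omega) hi'
          omega)
        have h9 := chain h hκ hT g hγ hs 1 i1 (i1 + 1) (by omega) (by omega)
        exact (h9.trans h.geo h8).mono (by omega)
      · have h8 := chain h hκ hT g hγ hs (m - i1) i1 m (by omega) (by omega)
        exact h8.mono (Nat.mul_le_mul_right κ (by omega))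
    have h8 : (i1 - i0 + 1) * κ ≤ (2 * K + 1) * κ := Nat.mul_le_mul_right κ (by omega)
    exact ((h6.trans h.geo (h5.mono h8)).trans h.geo h7).mono (by ring_nf; omega)
  · push Not at hex
    exact (far h hκ hT g hγ hs 0 m (by omega) (le_refl _) (fun i _ hi => hex i hi)).mono
      (Nat.mul_le_mul_right κ (by omega))

end path

theorem inS_close (h : HypMet G d δ) (hκ : ProjConst d E κ) (hT : ConeHyp d E T) (g : G)
    (x : Cone G E) (_hx : x ≠ Sum.inr (g : G ⧸ E)) (u : G) (hu : u ∈ InS d E x (g : G ⧸ E)) :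
    ∀ a ∈ PP d E g x, d u a ≤ (2 * (T + κ + 1) + 15) * κ := by
  intro a ha
  obtain ⟨γ, ⟨h0, h1, h2⟩, -⟩ := exists_geoPath hT.geo (Sum.inl u) x (Sum.inl u)
    (btw_left hT.geo _ _)
  have h3 := bcp h hκ hT g h2 (by
    intro i hi hcon
    have e1 := h2 0 i (by omega) hi
    have e2 := h2 i _ hi (le_refl _)
    rw [h1, hcon] at e2
    have e3 := hu.2
    omega)
  rw [h0, h1] at h3
  refine h3 u ?_ a ha
  refine ⟨(mk_eq_iff g u).1 hu.1.symm, fun b _ => ?_⟩
  rw [h.geo.self]; omega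

end P11b

open P11b in
theorem in_facts {G : Type*} [Group G] {d : G → G → ℕ} {δ κ T : ℕ} (h : HypMet G d δ)
    (E : Subgroup G) (hκ : ProjConst d E κ) (hT : ConeHyp d E T) :
    ∃ θ₁, (∀ (x : Cone G E) (c : G ⧸ E), x ≠ Sum.inr c → (InS d E x c).Nonempty) ∧
      ∀ (x y : Cone G E) (c : G ⧸ E) (γ : ℕ → Cone G E), x ≠ Sum.inr c → y ≠ Sum.inr c →
        GeoPath (cd d E) γ x y → (∀ i ≤ cd d E x y, γ i ≠ Sum.inr c) →
        ∀ u ∈ InS d E x c, ∀ v ∈ InS d E y c, d u v ≤ θ₁ := by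
  refine ⟨3 * ((2 * (T + κ + 1) + 15) * κ), ?_, ?_⟩
  · intro x c hx
    obtain ⟨w, h1, h2⟩ := exists_adj hT.geo hx.symm
    unfold Btw at h1
    rcases w with u | c'
    · rw [hT.geo.symm] at h2
      exact ⟨u, (hT.adj_lr u c).1 h2, by rw [hT.geo.symm (Sum.inr c) (Sum.inl u)] at h1; omega⟩
    · exact absurd h2 (hT.adj_rr c c')
  · intro x y c γ hx hy ⟨h0, h1, h2⟩ hs u hu v hv
    obtain ⟨g, rfl⟩ := QuotientGroup.mk_surjective c
    obtain ⟨a, ha⟩ := PP_nonempty d E g x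
    obtain ⟨b, hb⟩ := PP_nonempty d E g y
    have h3 := bcp h hκ hT g h2 hs
    rw [h0, h1] at h3
    have e1 := h3 a ha b hb
    have e2 := inS_close h hκ hT g x hx u hu a ha
    have e3 := inS_close h hκ hT g y hy v hv b hb
    have e4 := h.geo.tri u a v
    have e5 := h.geo.tri a b v
    have e6 := h.geo.symm v b
    omega

end Pool.Agent.Lib.MP_f1646b_al
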