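import Pool.Agent.Lib.MP_f1646b_al.P01
import Pool.Agent.Lib.MP_f1646b_al.P11a

set_option autoImplicit false

namespace Pool.Agent.Lib.MP_f1646b_al

open scoped Pointwise

namespace P11c

variable {G : Type*} [Group G]

theorem csInf_csSup_int {A B : Set ℤ} (hA : A.Nonempty) (hB : B.Nonempty) (l : ℕ)
    (hAA : ∀ a ∈ A, ∀ b ∈ A, (a - b).natAbs ≤ l) (hBB : ∀ a ∈ B, ∀ b ∈ B, (a - b).natAbs ≤ l)
    (hAB : ∀ a ∈ A, ∀ b ∈ B, (a - b).natAbs ≤ l) :
    ((sInf A + sSup A) - (sInf B + sSup B)).natAbs ≤ 2 * l := by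
  have bdd : ∀ {A : Set ℤ}, A.Nonempty → (∀ a ∈ A, ∀ b ∈ A, (a - b).natAbs ≤ l) →
      BddBelow A ∧ BddAbove A := by
    rintro A ⟨a, ha⟩ h
    constructor
    · refine ⟨a - l, fun b hb => ?_⟩
      have := h a ha b hb
      omega
    · refine ⟨a + l, fun b hb => ?_⟩
      have := h a ha b hb
      omega
  have hA1 := Int.csInf_mem hA (bdd hA hAA).1
  have hA2 := Int.csSup_mem hA (bdd hA hAA).2
  have hB1 := Int.csInf_mem hB (bdd hB hBB).1
  have hB2 := Int.csSup_mem hB (bdd hB hBB).2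
  have h1 := hAB _ hA1 _ hB1
  have h2 := hAB _ hA2 _ hB2
  omega

theorem int_isom {A : Set ℤ} (hA : A.Nonempty) (l : ℕ)
    (hAA : ∀ a ∈ A, ∀ b ∈ A, (a - b).natAbs ≤ l) (t e : ℤ) (he : e = 1 ∨ e = -1) :
    sInf ((fun a => t + e * a) '' A) + sSup ((fun a => t + e * a) '' A) =
      2 * t + e * (sInf A + sSup A) := by
  have hb : BddBelow A ∧ BddAbove A := by
    obtain ⟨a, ha⟩ := hA
    constructor
    · refine ⟨a - l, fun b hb => ?_⟩
      have := hAA a ha b hb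
      omega
    · refine ⟨a + l, fun b hb => ?_⟩
      have := hAA a ha b hb
      omega
  have hA1 := Int.csInf_mem hA hb.1
  have hA2 := Int.csSup_mem hA hb.2
  have hle : ∀ a ∈ A, sInf A ≤ a := fun a ha => csInf_le hb.1 ha
  have hge : ∀ a ∈ A, a ≤ sSup A := fun a ha => le_csSup hb.2 ha
  rcases he with rfl | rfl
  · have h1 : IsLeast ((fun a => t + 1 * a) '' A) (t + sInf A) := by
      refine ⟨⟨sInf A, hA1, by ring⟩, ?_⟩
      rintro _ ⟨a, ha, rfl⟩
      have := hle a ha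
      simp only [one_mul]; omega
    have h2 : IsGreatest ((fun a => t + 1 * a) '' A) (t + sSup A) := by
      refine ⟨⟨sSup A, hA2, by ring⟩, ?_⟩
      rintro _ ⟨a, ha, rfl⟩
      have := hge a ha
      simp only [one_mul]; omega
    rw [h1.csInf_eq, h2.csSup_eq]; ring
  · have h1 : IsLeast ((fun a => t + -1 * a) '' A) (t - sSup A) := by
      refine ⟨⟨sSup A, hA2, by ring⟩, ?_⟩
      rintro _ ⟨a, ha, rfl⟩
      have := hge a ha
      simp only [neg_mul, one_mul]; omega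
    have h2 : IsGreatest ((fun a => t + -1 * a) '' A) (t - sInf A) := by
      refine ⟨⟨sInf A, hA1, by ring⟩, ?_⟩
      rintro _ ⟨a, ha, rfl⟩
      have := hle a ha
      simp only [neg_mul, one_mul]; omega
    rw [h1.csInf_eq, h2.csSup_eq]; ring

theorem out_mem {E : Subgroup G} {c : G ⧸ E} {u : G} (hu : (u : G ⧸ E) = c) :
    c.out⁻¹ * u ∈ E := by
  rw [← QuotientGroup.eq, hu]
  exact Quotient.out_eq' c

theorem pos_diff {d : G → G → ℕ} (hinv : ∀ g x y, d (g * x) (g * y) = d x y)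
    {E : Subgroup G} {ε τ : G → ℤ} {y0 : G}
    (hE : EData E ε τ y0) {C : ℕ} (hC : ∀ e ∈ E, (τ e).natAbs ≤ C * d 1 e + C) {c : G ⧸ E}
    {u v : G} (hu : (u : G ⧸ E) = c) (hv : (v : G ⧸ E) = c) :
    (posE E τ c u - posE E τ c v).natAbs ≤ C * d u v + C := by
  have h1 := out_mem hu
  have h2 : u⁻¹ * v ∈ E := by rw [← QuotientGroup.eq, hu, hv]
  have h3 := hE.tau_mul _ h1 _ h2
  have e : c.out⁻¹ * u * (u⁻¹ * v) = c.out⁻¹ * v := by group
  rw [e] at h3
  have h4 := hC _ h2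
  have h5 : d 1 (u⁻¹ * v) = d u v := by
    have := hinv u 1 (u⁻¹ * v)
    rw [mul_one, mul_inv_cancel_left] at this
    exact this.symm
  rw [h5] at h4
  unfold posE
  rw [h3]
  rcases hE.eps_sq _ h1 with h | h <;> rw [h] <;> omega

/-- the comparison of the positions of two projections -/
theorem mS_le {d : G → G → ℕ} (hinv : ∀ g x y, d (g * x) (g * y) = d x y)
    {E : Subgroup G} {ε τ : G → ℤ} {y0 : G}
    (hE : EData E ε τ y0) {C θ₁ : ℕ} (hC : ∀ e ∈ E, (τ e).natAbs ≤ C * d 1 e + C) {c : G ⧸ E}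
    {x y : Cone G E} (hx : (InS d E x c).Nonempty) (hy : (InS d E y c).Nonempty)
    (hxx : ∀ u ∈ InS d E x c, ∀ v ∈ InS d E x c, d u v ≤ θ₁)
    (hyy : ∀ u ∈ InS d E y c, ∀ v ∈ InS d E y c, d u v ≤ θ₁)
    (hxy : ∀ u ∈ InS d E x c, ∀ v ∈ InS d E y c, d u v ≤ θ₁) :
    (mS d E τ c x - mS d E τ c y).natAbs ≤ 2 * (C * θ₁ + C) := by
  have key : ∀ {u v : G}, (u : G ⧸ E) = c → (v : G ⧸ E) = c → d u v ≤ θ₁ →
      (posE E τ c u - posE E τ c v).natAbs ≤ C * θ₁ + C := by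
    intro u v hu hv huv
    have h1 := pos_diff hinv hE hC hu hv
    have h2 : C * d u v ≤ C * θ₁ := Nat.mul_le_mul_left _ huv
    omega
  unfold mS
  apply csInf_csSup_int (hx.image _) (hy.image _)
  · rintro _ ⟨u, hu, rfl⟩ _ ⟨v, hv, rfl⟩
    exact key hu.1 hv.1 (hxx u hu v hv)
  · rintro _ ⟨u, hu, rfl⟩ _ ⟨v, hv, rfl⟩
    exact key hu.1 hv.1 (hyy u hu v hv)
  · rintro _ ⟨u, hu, rfl⟩ _ ⟨v, hv, rfl⟩
    exact key hu.1 hv.1 (hxy u hu v hv)

theorem smul_coset (g u : G) (E : Subgroup G) : ((g * u : G) : G ⧸ E) = g • (u : G ⧸ E) := rfl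

theorem InS_smul {d : G → G → ℕ} {E : Subgroup G} {T : ℕ} (hT : ConeHyp d E T) (g : G)
    (x : Cone G E) (c : G ⧸ E) : InS d E (g • x) (g • c) = (fun u => g * u) '' InS d E x c := by
  have e1 : ∀ u, cd d E (Sum.inl (g * u)) (g • x) = cd d E (Sum.inl u) x := fun u =>
    hT.inv g (Sum.inl u) x
  have e2 : cd d E (Sum.inr (g • c)) (g • x) = cd d E (Sum.inr c) x := hT.inv g (Sum.inr c) x
  ext v
  constructor
  · rintro ⟨h1, h2⟩
    refine ⟨g⁻¹ * v, ⟨?_, ?_⟩, by simp⟩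
    · rw [smul_coset, h1, inv_smul_smul]
    · have := e1 (g⁻¹ * v)
      rw [mul_inv_cancel_left] at this
      rw [← this, ← e2]; exact h2
  · rintro ⟨u, ⟨h1, h2⟩, rfl⟩
    refine ⟨?_, ?_⟩
    · show ((g * u : G) : G ⧸ E) = g • c
      rw [smul_coset, h1]
    · show cd d E (Sum.inl (g * u)) (g • x) + 1 = _
      rw [e1, e2]; exact h2

theorem mS_smul {d : G → G → ℕ} {E : Subgroup G} {ε τ : G → ℤ} {y0 : G} {T : ℕ}
    (hinv : ∀ g x y, d (g * x) (g * y) = d x y)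
    (hT : ConeHyp d E T) (hE : EData E ε τ y0) {C θ₁ : ℕ}
    (hC : ∀ e ∈ E, (τ e).natAbs ≤ C * d 1 e + C) (g : G) (x : Cone G E) (c : G ⧸ E)
    (hx : (InS d E x c).Nonempty) (hxx : ∀ u ∈ InS d E x c, ∀ v ∈ InS d E x c, d u v ≤ θ₁) :
    mS d E τ (g • c) (g • x) = 2 * τ ((g • c).out⁻¹ * (g * c.out)) +
      ε ((g • c).out⁻¹ * (g * c.out)) * mS d E τ c x := by
  obtain ⟨e, he⟩ : ∃ e, e = (g • c).out⁻¹ * (g * c.out) := ⟨_, rfl⟩
  have hcout : (c.out : G ⧸ E) = c := Quotient.out_eq' c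
  have heE : e ∈ E := by
    rw [he]
    apply out_mem
    rw [smul_coset, hcout]
  rw [← he]
  have hpos : ∀ u ∈ InS d E x c, posE E τ (g • c) (g * u) = τ e + ε e * posE E τ c u := by
    intro u hu
    have h1 := hE.tau_mul _ heE _ (out_mem hu.1)
    have h2 : e * (c.out⁻¹ * u) = (g • c).out⁻¹ * (g * u) := by rw [he]; group
    rw [h2] at h1
    exact h1
  have himg : posE E τ (g • c) '' InS d E (g • x) (g • c) =
      (fun a => τ e + ε e * a) '' (posE E τ c '' InS d E x c) := by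
    rw [InS_smul hT, Set.image_image, Set.image_image]
    exact Set.image_congr hpos
  unfold mS
  rw [himg]
  refine int_isom (hx.image _) (C * θ₁ + C) ?_ _ _ (hE.eps_sq e heE)
  rintro _ ⟨u, hu, rfl⟩ _ ⟨v, hv, rfl⟩
  have h1 := pos_diff hinv hE hC hu.1 hv.1
  have h2 : C * d u v ≤ C * θ₁ := Nat.mul_le_mul_left _ (hxx u hu v hv)
  omega

end P11c

open P11c in
theorem cone_cas {G : Type*} [Group G] {d : G → G → ℕ} {δ T : ℕ} (h : HypMet G d δ)
    (E : Subgroup G) (ε τ : G → ℤ) (y0 : G) (hE : EData E ε τ y0) (hT : ConeHyp d E T) (θ₁ : ℕ)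
    (h1 : ∀ (x : Cone G E) (c : G ⧸ E), x ≠ Sum.inr c → (InS d E x c).Nonempty)
    (h2 : ∀ (x y : Cone G E) (c : G ⧸ E) (γ : ℕ → Cone G E), x ≠ Sum.inr c → y ≠ Sum.inr c →
        GeoPath (cd d E) γ x y → (∀ i ≤ cd d E x y, γ i ≠ Sum.inr c) →
        ∀ u ∈ InS d E x c, ∀ v ∈ InS d E y c, d u v ≤ θ₁) :
    ∃ θ, ActCAS G (cd d E) (Apx G E) (alphaC d E τ) θ 0 := by
  obtain ⟨C, hC⟩ := tau_lip h E ε τ y0 hE
  have hg := hT.geo
  -- the diameter of `InS`
  have hdiam : ∀ (x : Cone G E) (c : G ⧸ E), x ≠ Sum.inr c →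
      ∀ u ∈ InS d E x c, ∀ v ∈ InS d E x c, d u v ≤ θ₁ := by
    intro x c hx
    refine h2 x x c (fun _ => x) hx hx ⟨rfl, rfl, ?_⟩ (fun _ _ => hx)
    intro i j hij hj
    rw [hg.self] at hj
    rw [hg.self]; omega
  -- the basic estimate
  have hsmall : ∀ (x y : Cone G E) (c : G ⧸ E), x ≠ Sum.inr c → y ≠ Sum.inr c →
      (∀ u ∈ InS d E x c, ∀ v ∈ InS d E y c, d u v ≤ θ₁) →
      alphaC d E τ (Sum.inr c) x y ≤ 2 * (C * θ₁ + C) := by
    intro x y c hx hy hxy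
    exact mS_le h.inv hE hC (h1 x c hx) (h1 y c hy) (hdiam x c hx) (hdiam y c hy) hxy
  have hout : ∀ (u : G) (c : G ⧸ E), (u : G ⧸ E) = c → cd d E (Sum.inr c) (Sum.inl u) = 1 := by
    intro u c hu
    rw [hg.symm]
    exact (hT.adj_lr u c).2 hu
  -- `k1` and `k1'`
  have hk1' : ∀ (c : G ⧸ E) (x y w : Cone G E), x ≠ Sum.inr c → y ≠ Sum.inr c →
      2 * (C * θ₁ + C) < alphaC d E τ (Sum.inr c) x y → Btw (cd d E) x w y →
      Btw (cd d E) x (Sum.inr c) w ∨ Btw (cd d E) w (Sum.inr c) y := by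
    intro c x y w hx hy hα hw
    obtain ⟨γ, hγ, hγw⟩ := exists_geoPath hg x y w hw
    have hex : ∃ i ≤ cd d E x y, γ i = Sum.inr c := by
      by_contra hcon
      push Not at hcon
      have := hsmall x y c hx hy (h2 x y c γ hx hy hγ hcon)
      omega
    obtain ⟨i, hi, hic⟩ := hex
    obtain ⟨g0, g1, g2⟩ := hγ
    have hwle : cd d E x w ≤ cd d E x y := by unfold Btw at hw; omega
    have a0 : cd d E x (γ i) = i := by
      have := g2 0 i (Nat.zero_le _) hi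
      rw [g0] at this; omega
    have a1 : cd d E (γ i) y = cd d E x y - i := by
      have := g2 i _ hi le_rfl
      rw [g1] at this; exact this
    rw [← hic]
    rcases le_total i (cd d E x w) with hle | hle
    · left
      have := g2 i _ hle hwle
      rw [hγw] at this
      unfold Btw; omega
    · right
      have := g2 _ i hle hi
      rw [hγw] at this
      unfold Btw at hw ⊢; omega
  have hk1 : ∀ (c : G ⧸ E) (x y : Cone G E), x ≠ Sum.inr c → y ≠ Sum.inr c →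
      2 * (C * θ₁ + C) < alphaC d E τ (Sum.inr c) x y → Btw (cd d E) x (Sum.inr c) y := by
    intro c x y hx hy hα
    rcases hk1' c x y x hx hy hα (btw_left hg x y) with h3 | h3
    · exfalso
      unfold Btw at h3
      rw [hg.self] at h3
      exact hx (hg.eq_of _ _ (by omega))
    · exact h3
  refine ⟨2 * (C * θ₁ + C), ⟨⟨hg, ?_, ?_, ?_, ?_, ?_, ?_, ?_, ?_⟩, hT.inv, ?_, ?_⟩⟩
  · rintro _ ⟨c, rfl⟩ _ ⟨c', rfl⟩
    exact hT.adj_rr c c'
  · rintro _ ⟨c, rfl⟩ x hx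
    show (mS d E τ c x - mS d E τ c x).natAbs = 0
    rw [sub_self]; rfl
  · rintro _ ⟨c, rfl⟩ x y hx hy
    show (mS d E τ c x - mS d E τ c y).natAbs = (mS d E τ c y - mS d E τ c x).natAbs
    omega
  · rintro _ ⟨c, rfl⟩ x y z hx hy hz
    show (mS d E τ c x - mS d E τ c z).natAbs ≤ (mS d E τ c x - mS d E τ c y).natAbs +
      (mS d E τ c y - mS d E τ c z).natAbs + 0
    omega
  · rintro _ ⟨c, rfl⟩ x y hx hy hα
    exact hk1 c x y hx hy hα
  · rintro _ ⟨c, rfl⟩ x y w hx hy hα hw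
    exact hk1' c x y w hx hy hα hw
  · rintro _ ⟨c, rfl⟩ _ ⟨c', rfl⟩ x hst hxs hxt hα
    have hb := hk1 c' (Sum.inr c) x hst hxt hα
    have hset : InS d E (Sum.inr c') c = InS d E x c := by
      ext u
      constructor
      · rintro ⟨hu, hu1⟩
        refine ⟨hu, ?_⟩
        have a1 := hg.tri (Sum.inl u) (Sum.inr c') x
        have a2 := hg.tri (Sum.inr c) (Sum.inl u) x
        have a3 := hout u c hu
        unfold Btw at hb
        omega
      · rintro ⟨hu, hu1⟩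
        refine ⟨hu, ?_⟩
        have a3 := hout u c hu
        have hbu : Btw (cd d E) (Sum.inr c) (Sum.inl u) x := by unfold Btw; omega
        rcases hk1' c' (Sum.inr c) x (Sum.inl u) hst hxt hα hbu with h3 | h3
        · exfalso
          have a4 := dist_pos_of_ne hg hst
          have a5 : cd d E (Sum.inl u) (Sum.inr c') ≠ 0 := fun h0 => by
            have := hg.eq_of _ _ h0
            exact absurd this (by simp)
          have a6 := hg.symm (Sum.inl u) (Sum.inr c')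
          unfold Btw at h3
          omega
        · unfold Btw at h3 hb
          omega
    show (mS d E τ c (Sum.inr c') - mS d E τ c x).natAbs = 0
    unfold mS
    rw [hset, sub_self]; rfl
  · rintro _ ⟨c, rfl⟩ w x hw hx hb
    apply hsmall w x c hw hx
    intro u hu v hv
    apply hdiam x c hx u _ v hv
    refine ⟨hu.1, ?_⟩
    have a1 := hg.tri (Sum.inl u) w x
    have a2 := hg.tri (Sum.inr c) (Sum.inl u) x
    have a3 := hout u c hu.1
    have a4 := hu.2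
    unfold Btw at hb
    omega
  · rintro g _ ⟨c, rfl⟩
    exact ⟨g • c, rfl⟩
  · rintro g _ ⟨c, rfl⟩ x y hx hy
    show (mS d E τ (g • c) (g • x) - mS d E τ (g • c) (g • y)).natAbs =
      (mS d E τ c x - mS d E τ c y).natAbs
    rw [mS_smul h.inv hT hE hC g x c (h1 x c hx) (hdiam x c hx),
      mS_smul h.inv hT hE hC g y c (h1 y c hy) (hdiam y c hy)]
    have heE : (g • c).out⁻¹ * (g * c.out) ∈ E := by
      apply out_mem
      rw [smul_coset]
      congr 1
      exact Quotient.out_eq' c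
    rcases hE.eps_sq _ heE with h3 | h3 <;> rw [h3] <;> omega

end Pool.Agent.Lib.MP_f1646b_al
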