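import Pool.Agent.Lib.MP_f1646b_al.P01
import Pool.Agent.Lib.MP_f1646b_al.P11a

/-!
# P11d: rotations, positions and the local finiteness bound for `alphaC`
-/

set_option autoImplicit false

namespace Pool.Agent.Lib.MP_f1646b_al

namespace P11d

/-! ### infimum and supremum of finite sets of integers -/

theorem isLeast_csInf {s : Set ℤ} (h1 : s.Nonempty) (h2 : BddBelow s) : IsLeast s (sInf s) :=
  ⟨Int.csInf_mem h1 h2, fun _ ha => csInf_le h2 ha⟩

theorem isGreatest_csSup {s : Set ℤ} (h1 : s.Nonempty) (h2 : BddAbove s) :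
    IsGreatest s (sSup s) :=
  ⟨Int.csSup_mem h1 h2, fun _ ha => le_csSup h2 ha⟩

theorem csInf_shift {s : Set ℤ} (t : ℤ) (h1 : s.Nonempty) (h2 : BddBelow s) :
    sInf ((fun a => t + a) '' s) = t + sInf s := by
  refine IsLeast.csInf_eq ⟨⟨_, (isLeast_csInf h1 h2).1, rfl⟩, ?_⟩
  rintro _ ⟨a, ha, rfl⟩
  exact add_le_add_right ((isLeast_csInf h1 h2).2 ha) t

theorem csSup_shift {s : Set ℤ} (t : ℤ) (h1 : s.Nonempty) (h2 : BddAbove s) :
    sSup ((fun a => t + a) '' s) = t + sSup s := by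
  refine IsGreatest.csSup_eq ⟨⟨_, (isGreatest_csSup h1 h2).1, rfl⟩, ?_⟩
  rintro _ ⟨a, ha, rfl⟩
  exact add_le_add_right ((isGreatest_csSup h1 h2).2 ha) t

variable {G : Type*} [Group G] {d : G → G → ℕ} {E : Subgroup G} {ε τ : G → ℤ} {y0 : G}

theorem tau_one (hE : EData E ε τ y0) : τ 1 = 0 := by
  have h1 := hE.tau_mul 1 E.one_mem y0 hE.y0_mem
  have h2 := hE.tau_mul y0 hE.y0_mem 1 E.one_mem
  rw [mul_one, hE.eps_y0] at h2
  omega

/-- the coset condition -/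
theorem mem_of_mk {c : G ⧸ E} {u : G} (hu : (u : G ⧸ E) = c) : c.out⁻¹ * u ∈ E := by
  rw [← QuotientGroup.leftRel_apply]
  apply Quotient.exact
  rw [Quotient.out_eq]
  exact hu.symm

theorem out_one_mem : ((1 : G) : G ⧸ E).out ∈ E := by
  have h : ((1 : G) : G ⧸ E).out⁻¹ * 1 ∈ E := mem_of_mk rfl
  rw [mul_one] at h
  exact (E.inv_mem_iff).1 h

/-- difference of positions -/
theorem pos_diff (hE : EData E ε τ y0) {c : G ⧸ E} {u v : G} (hu : (u : G ⧸ E) = c)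
    (hv : (v : G ⧸ E) = c) : (posE E τ c u - posE E τ c v).natAbs = (τ (u⁻¹ * v)).natAbs := by
  have h1 := mem_of_mk hu
  have h2 : u⁻¹ * v ∈ E := QuotientGroup.eq.1 (hu.trans hv.symm)
  have h3 := hE.tau_mul _ h1 _ h2
  have e1 : c.out⁻¹ * u * (u⁻¹ * v) = c.out⁻¹ * v := by group
  rw [e1] at h3
  unfold posE
  rw [h3]
  rcases hE.eps_sq _ h1 with h4 | h4 <;> rw [h4] <;> omega

section

variable {δ T θ₁ : ℕ} (h : HypMet G d δ) (hE : EData E ε τ y0) (hT : ConeHyp d E T)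
  (h1 : ∀ (x : Cone G E) (c : G ⧸ E), x ≠ Sum.inr c → (InS d E x c).Nonempty)
  (h2 : ∀ (x y : Cone G E) (c : G ⧸ E) (γ : ℕ → Cone G E), x ≠ Sum.inr c → y ≠ Sum.inr c →
        GeoPath (cd d E) γ x y → (∀ i ≤ cd d E x y, γ i ≠ Sum.inr c) →
        ∀ u ∈ InS d E x c, ∀ v ∈ InS d E y c, d u v ≤ θ₁)

include hT h2 in
/-- the diameter of `InS` is at most `θ₁` -/
theorem inS_diam {x : Cone G E} {c : G ⧸ E} (hx : x ≠ Sum.inr c) {u v : G}
    (hu : u ∈ InS d E x c) (hv : v ∈ InS d E x c) : d u v ≤ θ₁ := by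
  have h0 := hT.geo.self x
  refine h2 x x c (fun _ => x) hx hx ⟨rfl, rfl, ?_⟩ (fun _ _ => hx) u hu v hv
  intro i j hij hj
  rw [h0] at hj
  show cd d E x x = j - i
  rw [h0]; omega

include h hE hT h2 in
theorem pos_near {x : Cone G E} {c : G ⧸ E} (hx : x ≠ Sum.inr c) {C : ℕ}
    (hC : ∀ e ∈ E, (τ e).natAbs ≤ C * d 1 e + C) {u v : G}
    (hu : u ∈ InS d E x c) (hv : v ∈ InS d E x c) :
    (posE E τ c u - posE E τ c v).natAbs ≤ C * θ₁ + C := by
  rw [pos_diff hE hu.1 hv.1]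
  have hm : u⁻¹ * v ∈ E := QuotientGroup.eq.1 (hu.1.trans hv.1.symm)
  have h3 := hC _ hm
  have h4 := inS_diam hT h2 hx hu hv
  have h5 : d 1 (u⁻¹ * v) = d u v := by
    rw [← h.inv u 1 (u⁻¹ * v), mul_one, mul_inv_cancel_left]
  rw [h5] at h3
  exact h3.trans (Nat.add_le_add_right (Nat.mul_le_mul_left C h4) C)

include h hE hT h2 in
theorem bdd {x : Cone G E} {c : G ⧸ E} (hx : x ≠ Sum.inr c) {C : ℕ}
    (hC : ∀ e ∈ E, (τ e).natAbs ≤ C * d 1 e + C) {u : G} (hu : u ∈ InS d E x c) :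
    BddBelow (posE E τ c '' InS d E x c) ∧ BddAbove (posE E τ c '' InS d E x c) := by
  refine ⟨⟨posE E τ c u - (C * θ₁ + C : ℕ), ?_⟩, ⟨posE E τ c u + (C * θ₁ + C : ℕ), ?_⟩⟩
  · rintro _ ⟨v, hv, rfl⟩
    have := pos_near h hE hT h2 hx hC hu hv
    omega
  · rintro _ ⟨v, hv, rfl⟩
    have := pos_near h hE hT h2 hx hC hu hv
    omega

include h hE hT h2 in
/-- `mS` is near twice the position of every point of `InS` -/
theorem mS_near {x : Cone G E} {c : G ⧸ E} (hx : x ≠ Sum.inr c) {C : ℕ}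
    (hC : ∀ e ∈ E, (τ e).natAbs ≤ C * d 1 e + C) {u : G} (hu : u ∈ InS d E x c) :
    (mS d E τ c x - 2 * posE E τ c u).natAbs ≤ 2 * (C * θ₁ + C) := by
  have hb := bdd h hE hT h2 hx hC hu
  have hne : (posE E τ c '' InS d E x c).Nonempty := ⟨_, u, hu, rfl⟩
  obtain ⟨v, hv, hve⟩ := Int.csInf_mem hne hb.1
  obtain ⟨w, hw, hwe⟩ := Int.csSup_mem hne hb.2
  unfold mS
  rw [← hve, ← hwe]
  have h3 := pos_near h hE hT h2 hx hC hu hv
  have h4 := pos_near h hE hT h2 hx hC hu hw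
  omega

include hT in
/-- `InS` is equivariant under `E` at the base apex -/
theorem inS_smul {e : G} (he : e ∈ E) (x : Cone G E) (u : G) :
    u ∈ InS d E (e • x) ((1 : G) : G ⧸ E) ↔ e⁻¹ * u ∈ InS d E x ((1 : G) : G ⧸ E) := by
  have e1 : (u : G ⧸ E) = ((1 : G) : G ⧸ E) ↔ ((e⁻¹ * u : G) : G ⧸ E) = ((1 : G) : G ⧸ E) := by
    rw [QuotientGroup.eq, QuotientGroup.eq, mul_one, mul_one]
    rw [E.inv_mem_iff, E.inv_mem_iff]
    exact ⟨fun hu => E.mul_mem (E.inv_mem he) hu, fun hu => by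
      have := E.mul_mem he hu
      rwa [mul_inv_cancel_left] at this⟩
  have e2 : cd d E (Sum.inl u) (e • x) = cd d E (Sum.inl (e⁻¹ * u)) x := by
    rw [← hT.inv e⁻¹ (Sum.inl u) (e • x), inv_smul_smul]
    rfl
  have e3 : cd d E (Sum.inr ((1 : G) : G ⧸ E)) (e • x) =
      cd d E (Sum.inr ((1 : G) : G ⧸ E)) x := by
    rw [← hT.inv e⁻¹ (Sum.inr ((1 : G) : G ⧸ E)) (e • x), inv_smul_smul]
    congr 1
    show Sum.inr (e⁻¹ • ((1 : G) : G ⧸ E)) = Sum.inr ((1 : G) : G ⧸ E)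
    congr 1
    show ((e⁻¹ * 1 : G) : G ⧸ E) = ((1 : G) : G ⧸ E)
    rw [QuotientGroup.eq, mul_one, mul_one, inv_inv]
    exact he
  show ((u : G ⧸ E) = _ ∧ _) ↔ (((e⁻¹ * u : G) : G ⧸ E) = _ ∧ _)
  rw [e1, e2, e3]

/-- positions at the base apex are shifted -/
theorem pos_smul (hE : EData E ε τ y0) {e : G} (he : e ∈ E) (hεe : ε e = 1) :
    ∃ t : ℤ, t.natAbs = (τ e).natAbs ∧ ∀ u : G, (u : G ⧸ E) = ((1 : G) : G ⧸ E) →
      posE E τ ((1 : G) : G ⧸ E) (e * u) = t + posE E τ ((1 : G) : G ⧸ E) u := by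
  set o := ((1 : G) : G ⧸ E).out with ho
  have hoE : o ∈ E := out_one_mem
  have hoE' : o⁻¹ ∈ E := E.inv_mem hoE
  have hm : o⁻¹ * e * o ∈ E := E.mul_mem (E.mul_mem hoE' he) hoE
  have h0 : τ o⁻¹ + ε o⁻¹ * τ o = 0 := by
    have := hE.tau_mul _ hoE' _ hoE
    rw [inv_mul_cancel, tau_one hE] at this
    exact this.symm
  have hε1 : ε 1 = 1 := by
    have := hE.eps_mul 1 E.one_mem y0 hE.y0_mem
    rw [one_mul, hE.eps_y0, mul_one] at this
    exact this.symm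
  have hεo : ε o⁻¹ * ε o = 1 := by
    rw [← hE.eps_mul _ hoE' _ hoE, inv_mul_cancel, hε1]
  have hεm : ε (o⁻¹ * e * o) = 1 := by
    rw [hE.eps_mul _ (E.mul_mem hoE' he) _ hoE, hE.eps_mul _ hoE' _ he, hεe, mul_one, hεo]
  refine ⟨τ (o⁻¹ * e * o), ?_, ?_⟩
  · have h3 : τ (o⁻¹ * e * o) = ε o⁻¹ * τ e := by
      rw [hE.tau_mul _ (E.mul_mem hoE' he) _ hoE, hE.tau_mul _ hoE' _ he,
        hE.eps_mul _ hoE' _ he, hεe, mul_one]
      linarith
    rw [h3]
    rcases hE.eps_sq _ hoE' with h4 | h4 <;> rw [h4] <;> simp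
  · intro u hu
    have h5 : o⁻¹ * u ∈ E := mem_of_mk hu
    unfold posE
    rw [← ho]
    have e1 : o⁻¹ * (e * u) = (o⁻¹ * e * o) * (o⁻¹ * u) := by group
    rw [e1, hE.tau_mul _ hm _ h5, hεm, one_mul]

include h hE hT h1 h2 in
theorem rot {C : ℕ} (hC : ∀ e ∈ E, (τ e).natAbs ≤ C * d 1 e + C) :
    ∀ e ∈ E, ε e = 1 → ∀ x : Cone G E, x ≠ Sum.inr ((1 : G) : G ⧸ E) →
      alphaC d E τ (Sum.inr ((1 : G) : G ⧸ E)) x (e • x) = 2 * (τ e).natAbs := by
  intro e he hεe x hx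
  obtain ⟨t, ht, hpos⟩ := pos_smul hE he hεe
  obtain ⟨u, hu⟩ := h1 x _ hx
  have hb := bdd h hE hT h2 hx hC hu
  have hne : (posE E τ ((1 : G) : G ⧸ E) '' InS d E x ((1 : G) : G ⧸ E)).Nonempty :=
    ⟨_, u, hu, rfl⟩
  have himg : posE E τ ((1 : G) : G ⧸ E) '' InS d E (e • x) ((1 : G) : G ⧸ E) =
      (fun a => t + a) '' (posE E τ ((1 : G) : G ⧸ E) '' InS d E x ((1 : G) : G ⧸ E)) := by
    ext a
    constructor
    · rintro ⟨v, hv, rfl⟩
      have hv' := (inS_smul hT he x v).1 hv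
      refine ⟨_, ⟨e⁻¹ * v, hv', rfl⟩, ?_⟩
      have := hpos (e⁻¹ * v) hv'.1
      rw [mul_inv_cancel_left] at this
      exact this.symm
    · rintro ⟨_, ⟨v, hv, rfl⟩, rfl⟩
      refine ⟨e * v, (inS_smul hT he x (e * v)).2 (by rwa [inv_mul_cancel_left]), ?_⟩
      exact hpos v hv.1
  show (mS d E τ _ x - mS d E τ _ (e • x)).natAbs = _
  unfold mS
  rw [himg, csInf_shift t hne hb.1, csSup_shift t hne hb.2, ← ht]
  omega

/-- `InS` of a point of the coset -/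
theorem inS_inl (hT : ConeHyp d E T) {e : G} (he : e ∈ E) :
    InS d E (Sum.inl e) ((1 : G) : G ⧸ E) = {e} := by
  have he' : (e : G ⧸ E) = ((1 : G) : G ⧸ E) := by
    rw [QuotientGroup.eq, mul_one]; exact E.inv_mem he
  have h3 : cd d E (Sum.inr ((1 : G) : G ⧸ E)) (Sum.inl e) = 1 := by
    rw [hT.geo.symm, hT.adj_lr]; exact he'
  ext u
  constructor
  · rintro ⟨_, hu⟩
    rw [h3] at hu
    have h4 : cd d E (Sum.inl u) (Sum.inl e) = 0 := by omega
    have h5 := hT.geo.eq_of _ _ h4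
    exact Sum.inl_injective h5
  · rintro rfl
    refine ⟨he', ?_⟩
    rw [h3, hT.geo.self]

theorem mS_inl (hT : ConeHyp d E T) {e : G} (he : e ∈ E) :
    mS d E τ ((1 : G) : G ⧸ E) (Sum.inl e) = 2 * posE E τ ((1 : G) : G ⧸ E) e := by
  unfold mS
  rw [inS_inl hT he, Set.image_singleton, csInf_singleton, csSup_singleton]
  ring

theorem pos (hE : EData E ε τ y0) (hT : ConeHyp d E T) :
    ∀ e ∈ E, alphaC d E τ (Sum.inr ((1 : G) : G ⧸ E)) (Sum.inl 1) (Sum.inl e) =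
      2 * (τ e).natAbs := by
  intro e he
  show (mS d E τ _ (Sum.inl 1) - mS d E τ _ (Sum.inl e)).natAbs = _
  rw [mS_inl hT E.one_mem, mS_inl hT he]
  have he' : (e : G ⧸ E) = ((1 : G) : G ⧸ E) := by
    rw [QuotientGroup.eq, mul_one]; exact E.inv_mem he
  have h3 := pos_diff hE (c := ((1 : G) : G ⧸ E)) (u := 1) (v := e) rfl he'
  rw [inv_one, one_mul] at h3
  rw [← h3]
  omega

include h hE hT h1 h2 in
theorem lb {C : ℕ} (hC : ∀ e ∈ E, (τ e).natAbs ≤ C * d 1 e + C) :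
    ∀ D A : ℕ, ∃ B : ℕ, ∀ g : G, cd d E (Sum.inl 1) (Sum.inl g) ≤ D →
      (∀ c : G ⧸ E, alphaC d E τ (Sum.inr c) (Sum.inl 1) (Sum.inl g) ≤ A) → d 1 g ≤ B := by
  intro D A
  -- the bound for a jump
  obtain ⟨K, hK⟩ : ∃ K : ℕ, ∀ e ∈ E, (τ e).natAbs ≤ A + 4 * (C * θ₁ + C) → d 1 e ≤ K := by
    have hfin := (tau_fin E ε τ y0 hE (A + 4 * (C * θ₁ + C))).image (fun e => d 1 e)
    obtain ⟨K, hK⟩ := hfin.bddAbove
    exact ⟨K, fun e he hτ => hK ⟨e, ⟨he, hτ⟩, rfl⟩⟩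
  refine ⟨D * (K + 1), fun g hg hA => ?_⟩
  obtain ⟨γ, hγ, _⟩ := exists_geoPath hT.geo (Sum.inl 1) (Sum.inl g) (Sum.inl 1)
    (btw_left hT.geo _ _)
  set L := cd d E (Sum.inl 1 : Cone G E) (Sum.inl g) with hL
  have key : ∀ i, i ≤ L → ∀ u, γ i = Sum.inl u → d 1 u ≤ i * (K + 1) := by
    intro i
    induction i using Nat.strong_induction_on with
    | _ i ih =>
      intro hi u hu
      rcases Nat.eq_zero_or_pos i with h0 | h0
      · subst h0
        rw [hγ.1] at hu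
        have : (1 : G) = u := Sum.inl_injective hu
        rw [← this, h.geo.self]; exact Nat.zero_le _
      · have hstep : cd d E (γ (i - 1)) (γ i) = 1 := by
          rw [hγ.2.2 (i - 1) i (by omega) hi]; omega
        rcases hc : γ (i - 1) with u' | c
        · rw [hc, hu, hT.adj_ll] at hstep
          have h3 := ih (i - 1) (by omega) (by omega) u' hc
          have h4 := h.geo.tri 1 u' u
          have h5 : i * (K + 1) = (i - 1) * (K + 1) + (K + 1) := by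
            obtain ⟨j, rfl⟩ := Nat.exists_eq_add_of_lt h0
            rw [Nat.zero_add, Nat.add_sub_cancel]; ring
          omega
        · have hi2 : 2 ≤ i := by
            by_contra hlt
            have : i - 1 = 0 := by omega
            rw [this, hγ.1] at hc
            cases hc
          have hstep2 : cd d E (γ (i - 2)) (γ (i - 1)) = 1 := by
            rw [hγ.2.2 (i - 2) (i - 1) (by omega) (by omega)]; omega
          rcases hc2 : γ (i - 2) with u'' | c'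
          · rw [hc2, hc, hT.adj_lr] at hstep2
            rw [hc, hu, hT.geo.symm, hT.adj_lr] at hstep
            -- memberships
            have m1 : u'' ∈ InS d E (Sum.inl 1) c := by
              refine ⟨hstep2, ?_⟩
              have a1 := hγ.2.2 0 (i - 2) (by omega) (by omega)
              have a2 := hγ.2.2 0 (i - 1) (by omega) (by omega)
              rw [hγ.1, hc2] at a1
              rw [hγ.1, hc] at a2
              rw [hT.geo.symm, a1, hT.geo.symm (Sum.inr c), a2]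
              omega
            have m2 : u ∈ InS d E (Sum.inl g) c := by
              refine ⟨hstep, ?_⟩
              have a1 := hγ.2.2 i L (by omega) (le_refl _)
              have a2 := hγ.2.2 (i - 1) L (by omega) (le_refl _)
              rw [hγ.2.1, hu] at a1
              rw [hγ.2.1, hc] at a2
              rw [a1, a2]
              omega
            have n1 := mS_near h hE hT h2 (by simp) hC m1
            have n2 := mS_near h hE hT h2 (by simp) hC m2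
            have n3 := hA c
            change (mS d E τ c (Sum.inl 1) - mS d E τ c (Sum.inl g)).natAbs ≤ A at n3
            have n4 : (posE E τ c u'' - posE E τ c u).natAbs ≤ A + 4 * (C * θ₁ + C) := by omega
            rw [pos_diff hE m1.1 m2.1] at n4
            have n5 := hK _ (QuotientGroup.eq.1 (m1.1.trans m2.1.symm)) n4
            have n6 : d 1 (u''⁻¹ * u) = d u'' u := by
              rw [← h.inv u'' 1 (u''⁻¹ * u), mul_one, mul_inv_cancel_left]
            rw [n6] at n5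
            have h3 := ih (i - 2) (by omega) (by omega) u'' hc2
            have h4 := h.geo.tri 1 u'' u
            have h5 : i * (K + 1) = (i - 2) * (K + 1) + 2 * (K + 1) := by
              obtain ⟨j, rfl⟩ := Nat.exists_eq_add_of_le hi2
              rw [Nat.add_sub_cancel_left]; ring
            omega
          · exfalso
            rw [hc2, hc] at hstep2
            exact hT.adj_rr _ _ hstep2
  have h3 := key L (le_refl _) g hγ.2.1
  exact h3.trans (Nat.mul_le_mul_right _ hg)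

end

end P11d

theorem cone_rot {G : Type*} [Group G] {d : G → G → ℕ} {δ T : ℕ} (h : HypMet G d δ)
    (E : Subgroup G) (ε τ : G → ℤ) (y0 : G) (hE : EData E ε τ y0) (hT : ConeHyp d E T) (θ₁ : ℕ)
    (h1 : ∀ (x : Cone G E) (c : G ⧸ E), x ≠ Sum.inr c → (InS d E x c).Nonempty)
    (h2 : ∀ (x y : Cone G E) (c : G ⧸ E) (γ : ℕ → Cone G E), x ≠ Sum.inr c → y ≠ Sum.inr c →
        GeoPath (cd d E) γ x y → (∀ i ≤ cd d E x y, γ i ≠ Sum.inr c) →
        ∀ u ∈ InS d E x c, ∀ v ∈ InS d E y c, d u v ≤ θ₁) :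
    (∀ e ∈ E, ε e = 1 → ∀ x : Cone G E, x ≠ Sum.inr ((1 : G) : G ⧸ E) →
      alphaC d E τ (Sum.inr ((1 : G) : G ⧸ E)) x (e • x) = 2 * (τ e).natAbs) ∧
    (∀ e ∈ E, alphaC d E τ (Sum.inr ((1 : G) : G ⧸ E)) (Sum.inl 1) (Sum.inl e) =
      2 * (τ e).natAbs) ∧
    ∀ D A : ℕ, ∃ B : ℕ, ∀ g : G, cd d E (Sum.inl 1) (Sum.inl g) ≤ D →
      (∀ c : G ⧸ E, alphaC d E τ (Sum.inr c) (Sum.inl 1) (Sum.inl g) ≤ A) → d 1 g ≤ B := by
  obtain ⟨C, hC⟩ := tau_lip h E ε τ y0 hE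
  exact ⟨P11d.rot h hE hT h1 h2 hC, P11d.pos hE hT, P11d.lb h hE hT h1 h2 hC⟩

end Pool.Agent.Lib.MP_f1646b_al
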