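import Pool.Agent.Lib.MP_f1646b_al.P11b
import Pool.Agent.Lib.MP_f1646b_al.P11c
import Pool.Agent.Lib.MP_f1646b_al.P11d

/-!
# P11e: the cone package
-/

set_option autoImplicit false

namespace Pool.Agent.Lib.MP_f1646b_al

/-! ### M9 : the cone-off is a space with cut apices -/

theorem exists_conePkg {G : Type*} [Group G] {d : G → G → ℕ} {δ κ T : ℕ} (h : HypMet G d δ)
    (E : Subgroup G) (ε τ : G → ℤ) (y0 : G) (hE : EData E ε τ y0) (hκ : ProjConst d E κ)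
    (hT : ConeHyp d E T) : ∃ θ δ' α, ConePkg d E ε τ θ δ' α := by
  obtain ⟨θ₁, h1, h2⟩ := in_facts h E hκ hT
  obtain ⟨θ, hact⟩ := cone_cas h E ε τ y0 hE hT θ₁ h1 h2
  obtain ⟨hrot, hpos, hlb⟩ := cone_rot h E ε τ y0 hE hT θ₁ h1 h2
  exact ⟨θ, T, alphaC d E τ, ⟨hact, hT.hyp, hrot, hpos, hT.adj_ll, hT.adj_lr, hlb⟩⟩

end Pool.Agent.Lib.MP_f1646b_al
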