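import Pool.Agent.Lib.MP_f1646b_al.Betw

set_option autoImplicit false

namespace Pool.Agent.Lib.MP_f1646b_al

namespace P12a

variable {X : Type*} {d : X → X → ℕ} {S : Set X} {α : X → X → X → ℕ} {θ : ℕ}

theorem big_btw (h : CAS d S α θ 0) {x y s : X} (hs : s ∈ BigSet S α θ x y) : Btw d x s y := by
  obtain ⟨h1, h2, h3, h4⟩ := hs
  exact h.k1 s h1 x y h2.symm h3.symm (by omega)

theorem big_side (h : CAS d S α θ 0) {x y s w : X} (hs : s ∈ BigSet S α θ x y)
    (hw : Btw d x w y) : Btw d x s w ∨ Btw d w s y := by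
  obtain ⟨h1, h2, h3, h4⟩ := hs
  exact h.k1' s h1 x y w h2.symm h3.symm (by omega) hw

theorem big_inj (h : CAS d S α θ 0) {x y a b : X} (ha : a ∈ BigSet S α θ x y)
    (hb : b ∈ BigSet S α θ x y) (hd : d x a = d x b) : a = b := by
  have h1 := big_btw h ha
  have h2 := big_btw h hb
  have h5 := h.geo.symm a b
  rcases big_side h ha h2 with h3 | h3
  · unfold Btw at *
    exact h.geo.eq_of _ _ (by omega)
  · unfold Btw at *
    exact h.geo.eq_of _ _ (by omega)

end P12a

open P12a in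
theorem bigSet_finite {X : Type*} {d : X → X → ℕ} {S : Set X} {α : X → X → X → ℕ} {θ : ℕ}
    (h : CAS d S α θ 0) (x y : X) : (BigSet S α θ x y).Finite := by
  apply Set.Finite.of_finite_image (f := fun s => d x s)
  · apply (Set.finite_Iic (d x y)).subset
    rintro _ ⟨s, hs, rfl⟩
    have := big_btw h hs
    unfold Btw at this
    show d x s ≤ d x y
    omega
  · intro a ha b hb hab
    exact big_inj h ha hb hab

theorem mu_inv {G X : Type*} [Group G] [MulAction G X] {d : X → X → ℕ} {S : Set X}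
    {α : X → X → X → ℕ} {θ : ℕ} (h : ActCAS G d S α θ 0) (g : G) (x y : X) :
    mu d S α θ (g • x) (g • y) = mu d S α θ x y := by
  have h1 : Psi S α θ (g • x) (g • y) = Psi S α θ x y := by
    unfold Psi
    symm
    have key : ∀ (g : G) (x y s : X), s ∈ BigSet S α θ x y → g • s ∈ BigSet S α θ (g • x) (g • y) := by
      rintro g x y s ⟨h1, h2, h3, h4⟩
      refine ⟨h.inS g s h1, ?_, ?_, ?_⟩
      · intro h5; exact h2 (MulAction.injective g h5)
      · intro h5; exact h3 (MulAction.injective g h5)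
      · rw [h.a_inv g s h1 x y h2.symm h3.symm]; exact h4
    apply finsum_mem_eq_of_bijOn (fun s => g • s)
    · refine ⟨fun s hs => key g x y s hs, fun a _ b _ hab => MulAction.injective g hab, ?_⟩
      intro t ht
      refine ⟨g⁻¹ • t, ?_, smul_inv_smul g t⟩
      have := key g⁻¹ _ _ _ ht
      rwa [inv_smul_smul, inv_smul_smul] at this
    · rintro s ⟨h1, h2, h3, h4⟩
      show α s x y - 2 * θ = α (g • s) (g • x) (g • y) - 2 * θ
      rw [h.a_inv g s h1 x y h2.symm h3.symm]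
  unfold mu
  rw [h1, h.isom]

namespace P12a

variable {X : Type*} {d : X → X → ℕ} {S : Set X} {α : X → X → X → ℕ} {θ : ℕ}

theorem psi_eq (h : CAS d S α θ 0) (x y : X) :
    Psi S α θ x y = ∑ t ∈ (bigSet_finite h x y).toFinset, (α t x y - 2 * θ) := by
  unfold Psi
  exact finsum_mem_eq_finite_toFinset_sum _ _

/-- the angle at `t` does not see a point in the same direction -/
theorem ang_eq (h : CAS d S α θ 0) {t u v w : X} (ht : t ∈ S) (hu : u ≠ t) (hv : v ≠ t)
    (hw : w ≠ t) (h0 : α t v w = 0) : α t u v = α t u w := by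
  have h1 := h.a_tri t ht u v w hu hv hw
  have h2 := h.a_tri t ht u w v hu hw hv
  have h3 := h.a_symm t ht v w hv hw
  omega

variable {G : Type*} [Group G] [MulAction G X] {n : ℕ} {R : X → Subgroup G}

theorem rot_ne (h : RotFam G d S α θ n R) {s y : X} (hs : s ∈ S) {ρ : G} (hρ : ρ ∈ R s)
    (hy : y ≠ s) : ρ • y ≠ s := by
  intro h1
  apply hy
  apply MulAction.injective ρ
  show ρ • y = ρ • s
  rw [h1, h.fix s hs ρ hρ]

theorem rot_dist (h : RotFam G d S α θ n R) {s : X} (y : X) (hs : s ∈ S) {ρ : G} (hρ : ρ ∈ R s) :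
    d s (ρ • y) = d s y := by
  conv_lhs => rw [← h.fix s hs ρ hρ]
  exact h.act.isom ρ s y

theorem rot_btw (h : RotFam G d S α θ n R) {s t y : X} (hs : s ∈ S) {ρ : G} (hρ : ρ ∈ R s) :
    Btw d s (ρ • t) (ρ • y) ↔ Btw d s t y := by
  unfold Btw
  rw [rot_dist h t hs hρ, rot_dist h y hs hρ, h.act.isom]

theorem rot_ang (h : RotFam G d S α θ n R) {s u v : X} (hs : s ∈ S) {ρ : G} (hρ : ρ ∈ R s)
    (hu : u ≠ s) (hv : v ≠ s) : α s (ρ • u) (ρ • v) = α s u v := by
  have := h.act.a_inv ρ s hs u v hu hv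
  rwa [h.fix s hs ρ hρ] at this

theorem nonfold_A (h : RotFam G d S α θ n R) {x y s : X}
    (hs : s ∈ BigSet S α θ x y) {ρ : G} (hρ : ρ ∈ R s) (hbig : 2 * θ < α s x (ρ • y)) :
    ∀ t ∈ BigSet S α θ x y, t ≠ s → Btw d x t s →
      t ∈ BigSet S α θ x (ρ • y) ∧ α t x (ρ • y) = α t x y := by
  intro t ht hts hb
  have hC := h.act.cas
  have hbs := big_btw hC hs
  obtain ⟨s1, s2, s3, s4⟩ := hs
  obtain ⟨t1, t2, t3, t4⟩ := ht
  have hp := pair_lemma hC t s x y t1 s1 hts t2 t3 s2 s3 hb hbs (by omega)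
  obtain ⟨p1, p2⟩ := hp
  replace p2 := p2 (by omega)
  have hys : ρ • y ≠ s := rot_ne h s1 hρ s3.symm
  have q1 : α s x t = 0 := by rw [hC.a_symm s s1 x t s2.symm hts]; exact p1
  have q2 : t ≠ ρ • y := by
    intro h1; rw [h1] at q1; omega
  have q3 := hC.a_tri s s1 x t (ρ • y) s2.symm hts hys
  have q4 : α t s (ρ • y) = 0 := hC.k2 t t1 s s1 (ρ • y) hts q2.symm hys (by omega)
  have q5 : α t x s = α t x (ρ • y) := ang_eq hC t1 t2.symm hts.symm q2.symm q4
  have q6 : α t x s = α t x y := ang_eq hC t1 t2.symm hts.symm t3.symm p2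
  have q7 : α t x (ρ • y) = α t x y := by rw [← q5, q6]
  exact ⟨⟨t1, t2, q2, by rw [q7]; exact t4⟩, q7⟩

theorem nonfold_B (h : RotFam G d S α θ n R) {x y s : X}
    (hs : s ∈ BigSet S α θ x y) {ρ : G} (hρ : ρ ∈ R s) (hbig : 2 * θ < α s x (ρ • y)) :
    ∀ t ∈ BigSet S α θ x y, t ≠ s → Btw d s t y →
      ρ • t ∈ BigSet S α θ x (ρ • y) ∧ α (ρ • t) x (ρ • y) = α t x y ∧ α (ρ • t) s x = 0 := by
  intro t ht hts hb
  have hC := h.act.cas
  have hbs := big_btw hC hs
  obtain ⟨s1, s2, s3, s4⟩ := hs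
  obtain ⟨t1, t2, t3, t4⟩ := ht
  obtain ⟨b1, b2⟩ := btw_T1' hC.geo hb hbs
  have hp := pair_lemma hC s t x y s1 t1 hts.symm s2 s3 t2 t3 b2 b1 (by omega)
  obtain ⟨p1, p2⟩ := hp
  replace p2 := p2 (by omega)
  have hys : ρ • y ≠ s := rot_ne h s1 hρ s3.symm
  have hts' : ρ • t ≠ s := rot_ne h s1 hρ hts
  have htS : ρ • t ∈ S := h.act.inS ρ t t1
  have hty : ρ • t ≠ ρ • y := fun h1 => t3 (MulAction.injective ρ h1)
  have r1 : α s (ρ • t) (ρ • y) = 0 := by rw [rot_ang h s1 hρ hts s3.symm]; exact p2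
  have r2 : x ≠ ρ • t := by
    intro h1; rw [← h1] at r1; omega
  have r3 : α (ρ • t) s (ρ • y) = α t s y := by
    have := h.act.a_inv ρ t t1 s y hts.symm t3.symm
    rwa [h.fix s s1 ρ hρ] at this
  have r4 := hC.a_tri s s1 x (ρ • t) (ρ • y) s2.symm hts' hys
  have r5 := hC.a_symm s s1 x (ρ • t) s2.symm hts'
  have r6 : α (ρ • t) s x = 0 := hC.k2 (ρ • t) htS s s1 x hts' r2 s2.symm (by omega)
  have r7 : α (ρ • t) x (ρ • y) = α (ρ • t) s (ρ • y) := by
    rw [hC.a_symm _ htS _ _ r2 hty.symm, hC.a_symm _ htS _ _ hts'.symm hty.symm]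
    exact (ang_eq hC htS hty.symm hts'.symm r2 r6).symm
  have r8 : α t x y = α t s y := by
    rw [hC.a_symm _ t1 _ _ t2.symm t3.symm, hC.a_symm _ t1 _ _ hts.symm t3.symm]
    exact (ang_eq hC t1 t3.symm hts.symm t2.symm p1).symm
  have r9 : α (ρ • t) x (ρ • y) = α t x y := by rw [r7, r3, r8]
  exact ⟨⟨htS, r2.symm, hty, by rw [r9]; exact t4⟩, r9, r6⟩

/-- splitting off one big apex -/
theorem psi_split (h : CAS d S α θ 0) {x y s : X} (hs : s ∈ BigSet S α θ x y) :
    Psi S α θ x y = (α s x y - 2 * θ) +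
      ∑ᶠ t ∈ BigSet S α θ x y \ {s}, (α t x y - 2 * θ) := by
  unfold Psi
  have h1 : BigSet S α θ x y = insert s (BigSet S α θ x y \ {s}) := by
    rw [Set.insert_sdiff_singleton, Set.insert_eq_of_mem hs]
  conv_lhs => rw [h1]
  rw [finsum_mem_insert]
  · simp
  · exact (bigSet_finite h x y).sdiff

/-- the correspondence between the big apices in the case of a non-fold -/
theorem nonfold_sum (h : RotFam G d S α θ n R) {x y s : X}
    (hs : s ∈ BigSet S α θ x y) {ρ : G} (hρ : ρ ∈ R s) (hbig : 2 * θ < α s x (ρ • y)) :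
    ∑ᶠ t ∈ BigSet S α θ x y \ {s}, (α t x y - 2 * θ) =
      ∑ᶠ t ∈ BigSet S α θ x (ρ • y) \ {s}, (α t x (ρ • y) - 2 * θ) := by
  classical
  have hC := h.act.cas
  have hbs := big_btw hC hs
  have s1 := hs.1
  have s2 := hs.2.1
  have s3 := hs.2.2.1
  have hys : ρ • y ≠ s := rot_ne h s1 hρ s3.symm
  have hs' : s ∈ BigSet S α θ x (ρ • y) := ⟨s1, s2, hys.symm, hbig⟩
  have hbs' := big_btw hC hs'
  have hinv : ρ⁻¹ ∈ R s := (R s).inv_mem hρ
  have hyy : ρ⁻¹ • ρ • y = y := inv_smul_smul ρ y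
  have hA := nonfold_A h hs hρ hbig
  have hB := nonfold_B h hs hρ hbig
  have hA' := nonfold_A h hs' hinv (by rw [hyy]; exact hs.2.2.2)
  have hB' := nonfold_B h hs' hinv (by rw [hyy]; exact hs.2.2.2)
  rw [hyy] at hA' hB'
  apply finsum_mem_eq_of_bijOn (fun t => if Btw d x t s then t else ρ • t)
  · refine ⟨?_, ?_, ?_⟩
    · rintro t ⟨ht, hts⟩
      have hts' : t ≠ s := fun hh => hts (by rw [hh]; rfl)
      show (if Btw d x t s then t else ρ • t) ∈ BigSet S α θ x (ρ • y) \ {s}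
      split_ifs with hb
      · exact ⟨(hA t ht hts' hb).1, hts⟩
      · rcases big_side hC ht hbs with hb' | hb'
        · exact absurd hb' hb
        · refine ⟨(hB t ht hts' hb').1, ?_⟩
          intro hh
          exact rot_ne h s1 hρ hts' hh
    · rintro t ⟨ht, hts⟩ u ⟨hu, hus⟩ htu
      have hts' : t ≠ s := fun hh => hts (by rw [hh]; rfl)
      have hus' : u ≠ s := fun hh => hus (by rw [hh]; rfl)
      have side : ∀ t ∈ BigSet S α θ x y, ¬ Btw d x t s → Btw d s (ρ • t) (ρ • y) := by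
        intro t ht hb
        rcases big_side hC ht hbs with hb' | hb'
        · exact absurd hb' hb
        · exact (rot_btw h s1 hρ).2 hb'
      have htu' : (if Btw d x t s then t else ρ • t) = (if Btw d x u s then u else ρ • u) := htu
      split_ifs at htu' with c1 c2 c2
      · exact htu'
      · exfalso
        apply hts'
        rw [htu'] at c1 ⊢
        exact btw_T3 hC.geo c1 (side u hu c2) hbs'
      · exfalso
        apply hus'
        rw [← htu'] at c2 ⊢
        exact btw_T3 hC.geo c2 (side t ht c1) hbs'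
      · exact MulAction.injective ρ htu'
    · rintro t ⟨ht, hts⟩
      have hts' : t ≠ s := fun hh => hts (by rw [hh]; rfl)
      by_cases hb : Btw d x t s
      · refine ⟨t, ⟨(hA' t ht hts' hb).1, hts⟩, ?_⟩
        show (if Btw d x t s then t else ρ • t) = t
        rw [if_pos hb]
      · rcases big_side hC ht hbs' with hb' | hb'
        · exact absurd hb' hb
        · have h1 := (hB' t ht hts' hb').1
          have h2 : Btw d s (ρ⁻¹ • t) y := by
            have := (rot_btw h (t := t) (y := ρ • y) s1 hinv).2 hb'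
            rwa [hyy] at this
          have h3 : ρ⁻¹ • t ≠ s := rot_ne h s1 hinv hts'
          refine ⟨ρ⁻¹ • t, ⟨h1, h3⟩, ?_⟩
          show (if Btw d x (ρ⁻¹ • t) s then ρ⁻¹ • t else ρ • ρ⁻¹ • t) = t
          rw [if_neg, smul_inv_smul]
          intro h4
          exact h3 (btw_T3 hC.geo h4 h2 hbs)
  · rintro t ⟨ht, hts⟩
    have hts' : t ≠ s := fun hh => hts (by rw [hh]; rfl)
    show α t x y - 2 * θ = α (if Btw d x t s then t else ρ • t) x (ρ • y) - 2 * θ
    split_ifs with hb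
    · rw [(hA t ht hts' hb).2]
    · rcases big_side hC ht hbs with hb' | hb'
      · exact absurd hb' hb
      · rw [(hB t ht hts' hb').2.1]

end P12a

open P12a in
theorem nonfold {G X : Type*} [Group G] [MulAction G X] {d : X → X → ℕ} {S : Set X}
    {α : X → X → X → ℕ} {θ n : ℕ} {R : X → Subgroup G} (h : RotFam G d S α θ n R) (x y s : X)
    (hs : s ∈ BigSet S α θ x y) (ρ : G) (hρ : ρ ∈ R s) (hbig : 2 * θ < α s x (ρ • y)) :
    d x (ρ • y) = d x y ∧
    Psi S α θ x (ρ • y) + α s x y = Psi S α θ x y + α s x (ρ • y) ∧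
    (∀ t ∈ BigSet S α θ x y, t ≠ s → Btw d x t s →
      t ∈ BigSet S α θ x (ρ • y) ∧ α t x (ρ • y) = α t x y) ∧
    ∀ t ∈ BigSet S α θ x y, t ≠ s → Btw d s t y →
      ρ • t ∈ BigSet S α θ x (ρ • y) ∧ α (ρ • t) x (ρ • y) = α t x y ∧ α (ρ • t) s x = 0 := by
  have hC := h.act.cas
  have hbs := big_btw hC hs
  have hys : ρ • y ≠ s := rot_ne h hs.1 hρ hs.2.2.1.symm
  have hs' : s ∈ BigSet S α θ x (ρ • y) := ⟨hs.1, hs.2.1, hys.symm, hbig⟩
  have hbs' := big_btw hC hs'
  refine ⟨?_, ?_, nonfold_A h hs hρ hbig, nonfold_B h hs hρ hbig⟩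
  · have := rot_dist h y hs.1 hρ
    unfold Btw at *
    omega
  · have h1 := psi_split hC hs
    have h2 := psi_split hC hs'
    have h3 := nonfold_sum h hs hρ hbig
    have h4 := hs.2.2.2
    omega

namespace P12a

variable {X : Type*} {d : X → X → ℕ} {S : Set X} {α : X → X → X → ℕ} {θ : ℕ}

theorem half_facts (h : CAS d S α θ 0) {x y y' s : X} (hsS : s ∈ S) (hx : x ≠ s) (hy : y ≠ s)
    (hy' : y' ≠ s) (hbig : 2 * θ < α s x y) (hb' : Btw d x s y') {t : X}
    (ht : t ∈ BigSet S α θ x y') (hts : t ≠ s) (hb : Btw d x t s) :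
    t ≠ y ∧ α t x y = α t x s ∧ α t x y' ≤ α t x y + θ ∧ θ < α t x y := by
  obtain ⟨t1, t2, t3, t4⟩ := ht
  have a1 : α t s y' ≤ θ := by
    apply h.small t1 hts.symm t3.symm
    intro hc
    exact hts (btw_T3 h.geo hb hc hb')
  have a2 := h.a_tri t t1 x s y' t2.symm hts.symm t3.symm
  have a2' := h.a_symm t t1 x s t2.symm hts.symm
  have a3 : α s t x = 0 := h.k2 s hsS t t1 x hts.symm hx t2.symm (by omega)
  have a4 : α s y t = α s y x := by
    apply (ang_eq h hsS hy hx hts ?_).symm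
    rw [h.a_symm s hsS x t hx hts]; exact a3
  have a5 := h.a_symm s hsS x y hx hy
  have a6 : t ≠ y := by
    intro hc
    rw [hc] at a3
    rw [h.a_symm s hsS y x hy hx] at a3
    omega
  have a7 := h.a_symm s hsS y t hy hts
  have a8 : α t s y = 0 := h.k2 t t1 s hsS y hts a6.symm hy (by omega)
  have a9 : α t x s = α t x y := ang_eq h t1 t2.symm hts.symm a6.symm a8
  refine ⟨a6, a9.symm, by omega, by omega⟩

theorem half_eq (h : CAS d S α θ 0) {x y y' s : X} (hsS : s ∈ S) (hx : x ≠ s) (hy : y ≠ s)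
    (hy' : y' ≠ s) (hbig : 2 * θ < α s x y) (hb' : Btw d x s y') {t u : X}
    (ht : t ∈ BigSet S α θ x y') (hts : t ≠ s) (hb : Btw d x t s)
    (hu : u ∈ BigSet S α θ x y') (hus : u ≠ s) (hub : Btw d x u s) (htu : t ≠ u)
    (hxtu : Btw d x t u) : α t x y = α t x y' := by
  obtain ⟨a1, a2, a3, a4⟩ := half_facts h hsS hx hy hy' hbig hb' ht hts hb
  obtain ⟨b1, b2, b3, b4⟩ := half_facts h hsS hx hy hy' hbig hb' hu hus hub
  have hbu := big_btw h hu
  obtain ⟨t1, t2, t3, t4⟩ := ht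
  obtain ⟨u1, u2, u3, u4⟩ := hu
  obtain ⟨p1, p2⟩ := pair_lemma h t u x y' t1 u1 htu t2 t3 u2 u3 hxtu hbu (by omega)
  replace p2 := p2 (by omega)
  have c1 := h.a_tri u u1 x t y u2.symm htu b1.symm
  have c2 := h.a_symm u u1 t x htu u2.symm
  have c3 : α t u y = 0 := h.k2 t t1 u u1 y htu a1.symm b1.symm (by omega)
  have c4 : α t x u = α t x y' := ang_eq h t1 t2.symm htu.symm t3.symm p2
  have c5 : α t x u = α t x y := ang_eq h t1 t2.symm htu.symm a1.symm c3
  rw [← c5, c4]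

open Classical in
/-- the big apices of `(x, y')` on the side of `x` of `s` -/
theorem half_sum (h : CAS d S α θ 0) {x y y' s : X} (hsS : s ∈ S) (hx : x ≠ s) (hy : y ≠ s)
    (hy' : y' ≠ s) (hbig : 2 * θ < α s x y) (hsmall : α s x y' ≤ 2 * θ) (hb' : Btw d x s y') :
    ∑ t ∈ (bigSet_finite h x y').toFinset.filter (fun t => Btw d x t s), (α t x y' - 2 * θ) ≤
      ∑ t ∈ (bigSet_finite h x y').toFinset.filter (fun t => Btw d x t s), (α t x y - 2 * θ)
        + θ := by
  set F := (bigSet_finite h x y').toFinset.filter (fun t => Btw d x t s) with hF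
  have hmem : ∀ t ∈ F, t ∈ BigSet S α θ x y' ∧ t ≠ s ∧ Btw d x t s := by
    intro t ht
    rw [hF, Finset.mem_filter, Set.Finite.mem_toFinset] at ht
    refine ⟨ht.1, ?_, ht.2⟩
    intro hc
    have := ht.1.2.2.2
    rw [hc] at this
    omega
  rcases F.eq_empty_or_nonempty with h0 | h0
  · rw [h0]; simp
  · obtain ⟨u, hu, hmax⟩ := Finset.exists_max_image F (fun t => d x t) h0
    obtain ⟨u1, u2, u3⟩ := hmem u hu
    rw [← Finset.add_sum_erase F _ hu, ← Finset.add_sum_erase F _ hu]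
    have h1 : ∑ t ∈ F.erase u, (α t x y' - 2 * θ) = ∑ t ∈ F.erase u, (α t x y - 2 * θ) := by
      apply Finset.sum_congr rfl
      intro t ht
      rw [Finset.mem_erase] at ht
      obtain ⟨t1, t2, t3⟩ := hmem t ht.2
      have hbu := big_btw h u1
      rw [half_eq h hsS hx hy hy' hbig hb' t1 t2 t3 u1 u2 u3 ht.1 ?_]
      rcases big_side h t1 hbu with h2 | h2
      · exact h2
      · exfalso
        have h3 := (btw_T1' h.geo h2 hbu).2
        have h4 := hmax t ht.2
        have h5 := dist_pos_of_ne h.geo ht.1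
        have h6 := h.geo.symm u t
        unfold Btw at h3
        omega
    have h2 := (half_facts h hsS hx hy hy' hbig hb' u1 u2 u3).2.2.1
    rw [h1]
    omega

end P12a

open P12a in
theorem fold {G X : Type*} [Group G] [MulAction G X] {d : X → X → ℕ} {S : Set X}
    {α : X → X → X → ℕ} {θ n : ℕ} {R : X → Subgroup G} (h : RotFam G d S α θ n R) (x y s : X)
    (hs : s ∈ BigSet S α θ x y) (ρ : G) (hρ : ρ ∈ R s) (hρ1 : ρ ≠ 1)
    (hsmall : α s x (ρ • y) ≤ 2 * θ) : mu d S α θ x (ρ • y) < mu d S α θ x y := by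
  classical
  have hC := h.act.cas
  have hbs := big_btw hC hs
  have hs0 := hs
  obtain ⟨s1, s2, s3, s4⟩ := hs
  have hys : ρ • y ≠ s := rot_ne h s1 hρ s3.symm
  have hd0 := rot_dist h y s1 hρ
  have hd1 : d x (ρ • y) ≤ d x y := by
    have := hC.geo.tri x s (ρ • y)
    unfold Btw at hbs
    omega
  unfold mu
  rw [Prod.Lex.toLex_lt_toLex]
  rcases Nat.lt_or_ge (d x (ρ • y)) (d x y) with hlt | hge
  · exact Or.inl hlt
  right
  have hd2 : d x (ρ • y) = d x y := le_antisymm hd1 hge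
  refine ⟨hd2, ?_⟩
  have hbs' : Btw d x s (ρ • y) := by
    unfold Btw at hbs ⊢
    omega
  have hinv : ρ⁻¹ ∈ R s := (R s).inv_mem hρ
  have hxs : ρ⁻¹ • x ≠ s := rot_ne h s1 hinv s2.symm
  have hyy : ρ⁻¹ • ρ • y = y := inv_smul_smul ρ y
  have e1 : α s y (ρ⁻¹ • x) = α s x (ρ • y) := by
    have := rot_ang h (u := x) (v := ρ • y) s1 hinv s2.symm hys
    rw [hyy] at this
    rw [hC.a_symm s s1 y _ s3.symm hxs, this]
  have hbig2 : 2 * θ < α s y x := by rw [hC.a_symm s s1 y x s3.symm s2.symm]; exact s4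
  have hbs2 : Btw d y s (ρ⁻¹ • x) := by
    have h1 : d y (ρ⁻¹ • x) = d x (ρ • y) := by
      rw [hC.geo.symm y, ← h.act.isom ρ, smul_inv_smul]
    have h2 := rot_dist h x s1 hinv
    have h3 := hC.geo.symm s x
    have h4 := hC.geo.symm s y
    unfold Btw at hbs ⊢
    omega
  have H1 := half_sum hC s1 s2.symm s3.symm hys s4 hsmall hbs'
  have H2 := half_sum hC s1 s3.symm s2.symm hxs hbig2 (by rw [e1]; exact hsmall) hbs2
  set F1 := (bigSet_finite hC x (ρ • y)).toFinset.filter (fun t => Btw d x t s) with hF1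
  set F2 := (bigSet_finite hC y (ρ⁻¹ • x)).toFinset.filter (fun t => Btw d y t s) with hF2
  -- the big apices on the other side
  have hns : s ∉ BigSet S α θ x (ρ • y) := by
    intro hc
    have := hc.2.2.2
    omega
  have key2 : ∑ t ∈ (bigSet_finite hC x (ρ • y)).toFinset.filter (fun t => ¬ Btw d x t s),
      (α t x (ρ • y) - 2 * θ) = ∑ t ∈ F2, (α t y (ρ⁻¹ • x) - 2 * θ) := by
    symm
    have hbinv : ∀ t, t ∈ F2 ↔ ρ • t ∈
        (bigSet_finite hC x (ρ • y)).toFinset.filter (fun t => ¬ Btw d x t s) := by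
      intro t
      rw [hF2, Finset.mem_filter, Finset.mem_filter, Set.Finite.mem_toFinset,
        Set.Finite.mem_toFinset]
      have hm : t ∈ BigSet S α θ y (ρ⁻¹ • x) ↔ ρ • t ∈ BigSet S α θ x (ρ • y) := by
        constructor
        · rintro ⟨t1, t2, t3, t4⟩
          refine ⟨h.act.inS ρ t t1, ?_, fun hc => t2 (MulAction.injective ρ hc), ?_⟩
          · intro hc; apply t3; rw [← hc, inv_smul_smul]
          · have h1 := h.act.a_inv ρ t t1 (ρ⁻¹ • x) y t3.symm t2.symm
            rw [smul_inv_smul] at h1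
            rw [h1, hC.a_symm t t1 _ _ t3.symm t2.symm]
            exact t4
        · rintro ⟨t1, t2, t3, t4⟩
          have t1' : t ∈ S := by
            have := h.act.inS ρ⁻¹ _ t1
            rwa [inv_smul_smul] at this
          have t2' : t ≠ y := fun hc => t3 (by rw [hc])
          have t3' : t ≠ ρ⁻¹ • x := by
            intro hc; apply t2; rw [hc, smul_inv_smul]
          refine ⟨t1', t2', t3', ?_⟩
          have h1 := h.act.a_inv ρ t t1' (ρ⁻¹ • x) y t3'.symm t2'.symm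
          rw [smul_inv_smul] at h1
          rw [hC.a_symm t t1' _ _ t2'.symm t3'.symm, ← h1]
          exact t4
      rw [hm]
      apply and_congr_right
      intro ht
      have ht' := hm.2 ht
      have hts : t ≠ s := by
        intro hc
        rw [hc, h.fix s s1 ρ hρ] at ht
        exact hns ht
      have e2 : Btw d y t s ↔ Btw d s (ρ • t) (ρ • y) := by
        rw [rot_btw h s1 hρ, btw_comm hC.geo]
      rw [e2]
      constructor
      · intro h1 h2
        exact rot_ne h s1 hρ hts (btw_T3 hC.geo h2 h1 hbs')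
      · intro h1
        exact (big_side hC ht hbs').resolve_left h1
    apply Finset.sum_bij (fun t _ => ρ • t)
    · intro t ht; exact (hbinv t).1 ht
    · intro a _ b _ hab; exact MulAction.injective ρ hab
    · intro t ht
      refine ⟨ρ⁻¹ • t, ?_, smul_inv_smul ρ t⟩
      rw [hbinv, smul_inv_smul]
      exact ht
    · intro t ht
      rw [hF2, Finset.mem_filter, Set.Finite.mem_toFinset] at ht
      obtain ⟨⟨t1, t2, t3, t4⟩, t5⟩ := ht
      have h1 := h.act.a_inv ρ t t1 (ρ⁻¹ • x) y t3.symm t2.symm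
      rw [smul_inv_smul] at h1
      rw [h1, hC.a_symm t t1 _ _ t2.symm t3.symm]
  have hP1 : Psi S α θ x (ρ • y) = ∑ t ∈ F1, (α t x (ρ • y) - 2 * θ) +
      ∑ t ∈ F2, (α t y (ρ⁻¹ • x) - 2 * θ) := by
    rw [psi_eq hC, ← key2, hF1, Finset.sum_filter_add_sum_filter_not]
  -- comparison with the sum for `(x, y)`
  have m1 : ∀ t ∈ F1, t ≠ s ∧ Btw d x t s ∧ t ∈ S ∧ t ≠ x ∧ t ≠ y := by
    intro t ht
    rw [hF1, Finset.mem_filter, Set.Finite.mem_toFinset] at ht
    have hts : t ≠ s := by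
      intro hc; rw [hc] at ht; exact hns ht.1
    exact ⟨hts, ht.2, ht.1.1, ht.1.2.1,
      (half_facts hC s1 s2.symm s3.symm hys s4 hbs' ht.1 hts ht.2).1⟩
  have hns2 : s ∉ BigSet S α θ y (ρ⁻¹ • x) := by
    intro hc
    have := hc.2.2.2
    omega
  have m2 : ∀ t ∈ F2, t ≠ s ∧ Btw d y t s ∧ t ∈ S ∧ t ≠ x ∧ t ≠ y := by
    intro t ht
    rw [hF2, Finset.mem_filter, Set.Finite.mem_toFinset] at ht
    have hts : t ≠ s := by
      intro hc; rw [hc] at ht; exact hns2 ht.1
    exact ⟨hts, ht.2, ht.1.1,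
      (half_facts hC s1 s3.symm s2.symm hxs hbig2 hbs2 ht.1 hts ht.2).1, ht.1.2.1⟩
  have hdisj : Disjoint F1 F2 := by
    rw [Finset.disjoint_left]
    intro t ht1 ht2
    obtain ⟨a1, a2, -⟩ := m1 t ht1
    obtain ⟨-, b2, -⟩ := m2 t ht2
    exact a1 (btw_T3 hC.geo a2 (b2.comm hC.geo) hbs)
  have hsum2 : ∑ t ∈ F2, (α t y x - 2 * θ) = ∑ t ∈ F2, (α t x y - 2 * θ) := by
    apply Finset.sum_congr rfl
    intro t ht
    obtain ⟨-, -, b3, b4, b5⟩ := m2 t ht
    rw [hC.a_symm t b3 y x b5.symm b4.symm]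
  have hP2 : (α s x y - 2 * θ) + (∑ t ∈ F1, (α t x y - 2 * θ) + ∑ t ∈ F2, (α t x y - 2 * θ)) ≤
      Psi S α θ x y := by
    have hnm : s ∉ F1 ∪ F2 := by
      intro hc
      rw [Finset.mem_union] at hc
      rcases hc with hc | hc
      · exact (m1 s hc).1 rfl
      · exact (m2 s hc).1 rfl
    have hins := Finset.sum_insert (f := fun t => α t x y - 2 * θ) hnm
    rw [psi_eq hC, ← Finset.sum_union hdisj]
    refine le_trans (le_of_eq hins.symm) ?_
    · rw [← Finset.sum_filter_add_sum_filter_not (insert s (F1 ∪ F2))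
        (fun t => t ∈ BigSet S α θ x y)]
      have z : ∑ t ∈ (insert s (F1 ∪ F2)).filter (fun t => ¬ t ∈ BigSet S α θ x y),
          (α t x y - 2 * θ) = 0 := by
        apply Finset.sum_eq_zero
        intro t ht
        rw [Finset.mem_filter, Finset.mem_insert, Finset.mem_union] at ht
        have ht2 : ¬ 2 * θ < α t x y := by
          intro hc
          apply ht.2
          rcases ht.1 with h1 | h1 | h1
          · rw [h1]; exact hs0
          · obtain ⟨-, -, c1, c2, c3⟩ := m1 t h1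
            exact ⟨c1, c2, c3, hc⟩
          · obtain ⟨-, -, c1, c2, c3⟩ := m2 t h1
            exact ⟨c1, c2, c3, hc⟩
        omega
      rw [z, add_zero]
      apply Finset.sum_le_sum_of_subset
      intro t ht
      rw [Finset.mem_filter] at ht
      rw [Set.Finite.mem_toFinset]
      exact ht.2
  have hn := h.large
  have hbg := h.big s s1 ρ hρ hρ1 y s3.symm
  have ht1 := hC.a_tri s s1 y x (ρ • y) s3.symm s2.symm hys
  have ht2 := hC.a_symm s s1 y x s3.symm s2.symm
  rw [hsum2] at H2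
  show Psi S α θ x (ρ • y) < Psi S α θ x y
  rw [hP1]
  omega

end Pool.Agent.Lib.MP_f1646b_al
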