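import Pool.Agent.Lib.MP_f1646b_al.P12b

set_option autoImplicit false

namespace Pool.Agent.Lib.MP_f1646b_al

open scoped Pointwise

namespace P13a

variable {G X : Type*} [Group G] [MulAction G X] {d : X → X → ℕ} {N : Subgroup G}

theorem ngeo_symm (hgeo : IsGeo d) (hisom : ∀ (g : G) x y, d (g • x) (g • y) = d x y) {x y : X}
    (h : NGeo d N x y) : NGeo d N y x := by
  intro g hg
  have h1 := h g⁻¹ (N.inv_mem hg)
  have h2 := hisom g x (g⁻¹ • y)
  rw [smul_inv_smul] at h2
  rw [hgeo.symm y x, hgeo.symm y (g • x)]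
  omega

theorem ngeo_left (hgeo : IsGeo d) (hisom : ∀ (g : G) x y, d (g • x) (g • y) = d x y)
    {x w y : X} (h : NGeo d N x y) (hw : Btw d x w y) : NGeo d N x w := by
  intro g hg
  have h1 := h g hg
  have h2 := hgeo.tri x (g • w) (g • y)
  have h3 := hisom g w y
  unfold Btw at hw
  omega

theorem ngeo_right (hgeo : IsGeo d) (hisom : ∀ (g : G) x y, d (g • x) (g • y) = d x y)
    {x w y : X} (h : NGeo d N x y) (hw : Btw d x w y) : NGeo d N w y :=
  ngeo_symm hgeo hisom (ngeo_left hgeo hisom (ngeo_symm hgeo hisom h) (hw.comm hgeo))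

theorem ngeo_smul [N.Normal] (hisom : ∀ (g : G) x y, d (g • x) (g • y) = d x y) {x y : X}
    (h : NGeo d N x y) (a : G) : NGeo d N (a • x) (a • y) := by
  intro g hg
  have h1 := h (a⁻¹ * g * a) (by
    simpa using (inferInstance : N.Normal).conj_mem g hg a⁻¹)
  have h2 := hisom a x ((a⁻¹ * g * a) • y)
  have h3 : a • (a⁻¹ * g * a) • y = g • a • y := by
    rw [smul_smul, smul_smul]; congr 1; group
  rw [h3] at h2
  rw [hisom a x y, h2]
  exact h1

/-- rotating the end of an `N`-geodesic pair about a point between -/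
theorem rot (hgeo : IsGeo d) (hisom : ∀ (g : G) x y, d (g • x) (g • y) = d x y) {x y s : X}
    (h : NGeo d N x y) (hs : Btw d x s y) (ρ : G) (hρ : ρ ∈ N) (hfix : ρ • s = s) :
    NGeo d N x (ρ • y) ∧ d x (ρ • y) = d x y := by
  have h1 : d x (ρ • y) = d x y := by
    have h2 := h ρ hρ
    have h3 := hgeo.tri x s (ρ • y)
    have h4 := hisom ρ s y
    rw [hfix] at h4
    unfold Btw at hs
    omega
  refine ⟨?_, h1⟩
  intro g hg
  have h2 := h (g * ρ) (N.mul_mem hg hρ)
  rw [mul_smul] at h2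
  rw [h1]
  exact h2

end P13a

open P13a

theorem closing {G X : Type*} [Group G] [MulAction G X] {d : X → X → ℕ} {S : Set X}
    {α : X → X → X → ℕ} {θ n : ℕ} {R : X → Subgroup G} (h : RotFam G d S α θ n R)
    (N : Subgroup G) [N.Normal] (hN : N = Subgroup.closure (⋃ s ∈ S, (R s : Set G)))
    (k : ℕ) (hk : k ≤ 5) (x : ℕ → X) (hx : ∀ i < k, NGeo d N (x i) (x (i + 1)))
    (hg : ∃ g ∈ N, x k = g • x 0) :
    ∃ x' : ℕ → X, x' 0 = x 0 ∧ x' k = x 0 ∧ (∀ i ≤ k, ∃ g ∈ N, x' i = g • x i) ∧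
      (∀ i < k, NGeo d N (x' i) (x' (i + 1)) ∧ d (x' i) (x' (i + 1)) = d (x i) (x (i + 1))) ∧
      (d (x 0) (x 1) ≤ 1 → x' 1 = x 1) := by
  obtain ⟨μ, -, -, -, hμ⟩ := wg h
  have hgeo := h.act.cas.geo
  have hisom := h.act.isom
  have hRN : ∀ s ∈ S, ∀ ρ ∈ R s, ρ ∈ N := by
    intro s hs ρ hρ
    rw [hN]
    apply Subgroup.subset_closure
    simp only [Set.mem_iUnion]
    exact ⟨s, hs, hρ⟩
  -- induction
  generalize hm : μ (x 0) (x k) = m
  induction m using WellFoundedLT.induction generalizing x with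
  | ind m ih =>
    by_cases hxk : x 0 = x k
    · exact ⟨x, rfl, hxk.symm, fun i _ => ⟨1, N.one_mem, (one_smul _ _).symm⟩,
        fun i hi => ⟨hx i hi, rfl⟩, fun _ => rfl⟩
    obtain ⟨g, hgN, hgx⟩ := hg
    obtain ⟨s, hs, hs0, hsk, hn, ρ, hρ, -, hlt⟩ := hμ (x 0) (x k) g (hN ▸ hgN) hgx.symm hxk
    have hρN := hRN s hs ρ hρ
    have hfix := h.fix s hs ρ hρ
    -- it suffices to find a cutting index
    have key : ∃ i, i < k ∧ (NGeo d N (x i) (ρ • x (i + 1)) ∧
        d (x i) (ρ • x (i + 1)) = d (x i) (x (i + 1))) ∧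
        (d (x 0) (x 1) ≤ 1 → i = 0 → ρ • x 1 = x 1) := by
      by_cases hA : ∃ i, i < k ∧ x (i + 1) = s
      · obtain ⟨i, hi, his⟩ := hA
        refine ⟨i, hi, ?_, ?_⟩
        · rw [his, hfix, ← his]
          exact ⟨hx i hi, rfl⟩
        · rintro - rfl
          have : x 1 = s := his
          rw [this, hfix]
      · push Not at hA
        have hne : ∀ i ≤ k, x i ≠ s := by
          intro i hi
          rcases Nat.eq_zero_or_pos i with h0 | h0
          · rw [h0]; exact hs0.symm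
          · have := hA (i - 1) (by omega)
            rwa [Nat.sub_add_cancel h0] at this
        by_cases hB : ∃ i, i < k ∧ θ < α s (x i) (x (i + 1))
        · obtain ⟨i, hi, hia⟩ := hB
          have hb : Btw d (x i) s (x (i + 1)) :=
            h.act.cas.k1 s hs _ _ (hne i (by omega)) (hne (i + 1) (by omega)) hia
          refine ⟨i, hi, rot hgeo hisom (hx i hi) hb ρ hρN hfix, ?_⟩
          rintro h01 rfl
          exfalso
          rcases btw_of_le_one hgeo h01 hb with h1 | h1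
          · exact hs0 h1
          · exact hne 1 (by omega) h1.symm
        · exfalso
          push Not at hB
          have hsum : ∀ i ≤ k, α s (x 0) (x i) ≤ i * θ := by
            intro i
            induction i with
            | zero => intro _; rw [h.act.cas.a_self s hs _ hs0.symm]; omega
            | succ i ihi =>
              intro hi
              have h1 := ihi (by omega)
              have h2 := h.act.cas.a_tri s hs (x 0) (x i) (x (i + 1)) hs0.symm
                (hne i (by omega)) (hne (i + 1) (by omega))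
              have h3 := hB i (by omega)
              have h4 : (i + 1) * θ = i * θ + θ := by ring
              omega
          have h1 := hsum k le_rfl
          have h2 : k * θ ≤ 5 * θ := Nat.mul_le_mul_right θ hk
          have h3 := h.large
          omega
    obtain ⟨i, hi, ⟨hiN, hid⟩, hi0⟩ := key
    set x2 : ℕ → X := fun j => if j ≤ i then x j else ρ • x j with hx2
    have hx20 : x2 0 = x 0 := by simp [hx2]
    have hx2k : x2 k = ρ • x k := by
      have : ¬ k ≤ i := by omega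
      simp [hx2, this]
    have hcons : ∀ j < k, NGeo d N (x2 j) (x2 (j + 1)) ∧
        d (x2 j) (x2 (j + 1)) = d (x j) (x (j + 1)) := by
      intro j hj
      rcases lt_trichotomy j i with hji | hji | hji
      · have h1 : j ≤ i := by omega
        have h2 : j + 1 ≤ i := by omega
        simp only [hx2, if_pos h1, if_pos h2]
        exact ⟨hx j hj, trivial⟩
      · have h1 : j ≤ i := by omega
        have h2 : ¬ (j + 1 ≤ i) := by omega
        simp only [hx2, if_pos h1, if_neg h2]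
        rw [hji]
        exact ⟨hiN, hid⟩
      · have h1 : ¬ j ≤ i := by omega
        have h2 : ¬ (j + 1 ≤ i) := by omega
        simp only [hx2, if_neg h1, if_neg h2]
        exact ⟨ngeo_smul hisom (hx j hj) ρ, hisom ρ _ _⟩
    have hx21 : d (x 0) (x 1) ≤ 1 → x2 1 = x 1 := by
      intro h01
      by_cases h1 : 1 ≤ i
      · simp only [hx2, if_pos h1]
      · simp only [hx2, if_neg h1]
        exact hi0 h01 (by omega)
    obtain ⟨x', hx'0, hx'k, hx'N, hx'd, hx'1⟩ := ih (μ (x2 0) (x2 k))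
      (by rw [hx20, hx2k, ← hm]; exact hlt) x2 (fun j hj => (hcons j hj).1)
      ⟨ρ * g, N.mul_mem hρN hgN, by rw [hx20, hx2k, hgx, mul_smul]⟩ rfl
    refine ⟨x', hx'0.trans hx20, hx'k.trans hx20, ?_, ?_, ?_⟩
    · intro j hj
      obtain ⟨g', hg', hg'x⟩ := hx'N j hj
      by_cases h1 : j ≤ i
      · refine ⟨g', hg', ?_⟩
        rw [hg'x]; simp only [hx2, if_pos h1]
      · refine ⟨g' * ρ, N.mul_mem hg' hρN, ?_⟩
        rw [hg'x, mul_smul]; simp only [hx2, if_neg h1]
    · intro j hj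
      exact ⟨(hx'd j hj).1, (hx'd j hj).2.trans (hcons j hj).2⟩
    · intro h01
      have h1 := hx21 h01
      rw [hx'1 (by rw [hx20, h1]; exact h01), h1]

theorem nbr {G X : Type*} [Group G] [MulAction G X] {d : X → X → ℕ} {S : Set X}
    {α : X → X → X → ℕ} {θ n : ℕ} {R : X → Subgroup G} (h : RotFam G d S α θ n R)
    (N : Subgroup G) [N.Normal] (hN : N = Subgroup.closure (⋃ s ∈ S, (R s : Set G)))
    (s v v' : X) (hs : s ∈ S) (h1 : d s v = 1) (h2 : d s v' = 1) (hg : ∃ g ∈ N, v' = g • v) :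
    ∃ ρ ∈ R s, v' = ρ • v := by
  obtain ⟨μ, -, -, -, hμ⟩ := wg h
  have hgeo := h.act.cas.geo
  have hisom := h.act.isom
  have hRN : ∀ s ∈ S, ∀ ρ ∈ R s, ρ ∈ N := by
    intro s hs ρ hρ
    rw [hN]
    apply Subgroup.subset_closure
    simp only [Set.mem_iUnion]
    exact ⟨s, hs, hρ⟩
  generalize hm : μ v v' = m
  induction m using WellFoundedLT.induction generalizing v' with
  | ind m ih =>
    by_cases hvv : v = v'
    · exact ⟨1, (R s).one_mem, by rw [one_smul, hvv]⟩
    obtain ⟨g, hgN, hgv⟩ := hg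
    obtain ⟨t, ht, htv, htv', hn, ρ, hρ, -, hlt⟩ := hμ v v' g (hN ▸ hgN) hgv.symm hvv
    have hts : t = s := by
      by_contra hts
      have e1 := h.act.cas.small_adj ht htv.symm (Ne.symm hts)
        (show d v s ≤ 1 by rw [hgeo.symm v s, h1])
      have e2 := h.act.cas.small_adj ht (Ne.symm hts) htv'.symm (show d s v' ≤ 1 by rw [h2])
      have e3 := h.act.cas.a_tri t ht v s v' htv.symm (Ne.symm hts) htv'.symm
      have e4 := h.large
      omega
    subst hts
    have hfix := h.fix t ht ρ hρ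
    have hd : d t (ρ • v') = 1 := by
      have := hisom ρ t v'
      rw [hfix] at this
      rw [this, h2]
    obtain ⟨ρ', hρ', hρ'v⟩ := ih (μ v (ρ • v')) (by rw [← hm]; exact hlt) (ρ • v') hd
      ⟨ρ * g, N.mul_mem (hRN t ht ρ hρ) hgN, by rw [hgv, mul_smul]⟩ rfl
    refine ⟨ρ⁻¹ * ρ', (R t).mul_mem ((R t).inv_mem hρ) hρ', ?_⟩
    rw [mul_smul, ← hρ'v, inv_smul_smul]

theorem dir {G X : Type*} [Group G] [MulAction G X] {d : X → X → ℕ} {S : Set X}
    {α : X → X → X → ℕ} {θ n : ℕ} {R : X → Subgroup G} (h : RotFam G d S α θ n R)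
    (N : Subgroup G) [N.Normal] (hN : N = Subgroup.closure (⋃ s ∈ S, (R s : Set G)))
    (s y y' : X) (hs : s ∈ S) (hys : y ≠ s) (h1 : NGeo d N s y) (h2 : NGeo d N s y')
    (hg : ∃ g ∈ N, y' = g • y) : ∃ ρ ∈ R s, α s y' (ρ • y) ≤ 4 * θ := by
  have hgeo := h.act.cas.geo
  have hisom := h.act.isom
  have hc := h.act.cas
  obtain ⟨g, hgN, rfl⟩ := hg
  -- the two distances agree
  have hdd : d s (g • y) = d s y := by
    have e1 := h1 g hgN
    have e2 := h2 g⁻¹ (N.inv_mem hgN)
    rw [inv_smul_smul] at e2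
    omega
  have hpos : 0 < d s y := dist_pos_of_ne hgeo (Ne.symm hys)
  have hy's : g • y ≠ s := by
    intro hc'
    rw [hc', hgeo.self] at hdd
    omega
  obtain ⟨u, hu, hu1⟩ := exists_adj hgeo (Ne.symm hys)
  obtain ⟨u', hu', hu'1⟩ := exists_adj hgeo (Ne.symm hy's)
  have hus : u ≠ s := by rintro rfl; rw [hgeo.self] at hu1; omega
  have hu's : u' ≠ s := by rintro rfl; rw [hgeo.self] at hu'1; omega
  -- the polygon
  let x : ℕ → X := fun i => match i with
    | 0 => s
    | 1 => u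
    | 2 => y
    | 3 => g⁻¹ • u'
    | _ => g⁻¹ • s
  have hx : ∀ i < 4, NGeo d N (x i) (x (i + 1)) := by
    intro i hi
    interval_cases i
    · exact ngeo_left hgeo hisom h1 hu
    · exact ngeo_right hgeo hisom h1 hu
    · have e1 := ngeo_smul hisom (ngeo_symm hgeo hisom (ngeo_right hgeo hisom h2 hu')) g⁻¹
      rw [inv_smul_smul] at e1
      exact e1
    · exact ngeo_smul hisom (ngeo_symm hgeo hisom (ngeo_left hgeo hisom h2 hu')) g⁻¹
  obtain ⟨x', hx'0, hx'k, hx'N, hx'd, hx'1⟩ := closing h N hN 4 (by norm_num) x hx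
    ⟨g⁻¹, N.inv_mem hgN, rfl⟩
  have hx'1 : x' 1 = u := hx'1 (le_of_eq hu1)
  have hx'0 : x' 0 = s := hx'0
  have hx'4 : x' 4 = s := hx'k
  have d1 : d u (x' 2) = d u y := by
    have := (hx'd 1 (by norm_num)).2
    rw [hx'1] at this
    exact this
  have d2 : d (x' 2) (x' 3) = d (g • y) u' := by
    have e1 : d (x' 2) (x' 3) = d y (g⁻¹ • u') := (hx'd 2 (by norm_num)).2
    have e2 := hisom g y (g⁻¹ • u')
    rw [smul_inv_smul] at e2
    rw [e1, e2]
  have d3 : d (x' 3) s = 1 := by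
    have e1 : d (x' 3) (x' 4) = d (g⁻¹ • u') (g⁻¹ • s) := (hx'd 3 (by norm_num)).2
    rw [hx'4, hisom, hgeo.symm u' s, hu'1] at e1
    exact e1
  obtain ⟨a, haN, hax⟩ := hx'N 2 (by norm_num)
  have hax : x' 2 = a • y := hax
  obtain ⟨b, hbN, hbx⟩ := hx'N 3 (by norm_num)
  have hbx : x' 3 = b • (g⁻¹ • u') := hbx
  have e0 := h1 a haN
  rw [← hax] at e0
  have hub : Btw d s u (x' 2) := by
    have e1 := hgeo.tri s u (x' 2)
    unfold Btw at hu ⊢
    omega
  have hdx2 : d s (x' 2) = d s y := by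
    unfold Btw at hub hu
    omega
  have hvb : Btw d s (x' 3) (x' 2) := by
    have e1 := hgeo.tri s (x' 3) (x' 2)
    have e2 := hgeo.symm (x' 3) (x' 2)
    have e3 := hgeo.symm (x' 3) s
    have e4 := hgeo.symm u' (g • y)
    unfold Btw at hu' ⊢
    omega
  have hx2s : x' 2 ≠ s := by
    intro hc'
    rw [hc', hgeo.self] at hdx2
    omega
  have hx3s : x' 3 ≠ s := by
    intro hc'
    rw [hc', hgeo.self] at d3
    omega
  -- nbr
  obtain ⟨ρ, hρ, hρu⟩ := nbr h N hN s (x' 3) u' hs (by rw [hgeo.symm, d3]) hu'1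
    ⟨g * b⁻¹, N.mul_mem hgN (N.inv_mem hbN), by
      rw [hbx, smul_smul, smul_smul]
      simp⟩
  refine ⟨ρ, hρ, ?_⟩
  have hfix := h.fix s hs ρ hρ
  have a1 := hc.k3 s hs u (x' 2) hus hx2s hub
  have a2 := hc.k3 s hs (x' 3) (x' 2) hx3s hx2s hvb
  have a3 := hc.k3 s hs u y hus hys hu
  have a4 := hc.k3 s hs u' (g • y) hu's hy's hu'
  have hρys : ρ • y ≠ s := by
    intro hc'
    apply hys
    rw [← hfix] at hc'
    exact smul_left_cancel ρ hc'
  have a5 := h.act.a_inv ρ s hs (x' 3) y hx3s hys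
  rw [hfix, ← hρu] at a5
  have a6 := hc.a_tri s hs (g • y) u' (ρ • y) hy's hu's hρys
  have a7 := hc.a_symm s hs (g • y) u' hy's hu's
  have a8 := hc.a_tri s hs (x' 3) (x' 2) u hx3s hx2s hus
  have a9 := hc.a_tri s hs (x' 3) u y hx3s hus hys
  have a10 := hc.a_symm s hs (x' 2) u hx2s hus
  omega

end Pool.Agent.Lib.MP_f1646b_al
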