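import Pool.Agent.Lib.MP_f1646b_al.EAlg
import Pool.Agent.Lib.MP_f1646b_al.P13b

set_option autoImplicit false

namespace Pool.Agent.Lib.MP_f1646b_al

open scoped Pointwise

open P14 in
theorem exists_fill {G : Type*} [Group G] {d : G → G → ℕ} {E : Subgroup G} {ε τ : G → ℤ} {y0 : G}
    (hE : EData E ε τ y0) {θ δ : ℕ} {α : Cone G E → Cone G E → Cone G E → ℕ}
    (hC : ConePkg d E ε τ θ δ α) (n : ℕ) (h3 : 3 ∣ n) (hn : 8 * θ < n) (N : Subgroup G) [N.Normal]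
    (hN : N = Subgroup.normalClosure {y0 ^ n}) : ∃ D β, FillPkg d E θ δ n α (y0 ^ n) N D β := by
  have hR := rotFam hE hC h3 hn
  obtain ⟨D, β, hQ⟩ := exists_quotPkg hR N (hN.trans (closure_eq hE h3)) (conePi E N)
    (conePi_surj N) (conePi_eq N) (conePi_smul N)
  refine ⟨D, β, hN, hn, ?_, hQ.hyp δ hC.hyp, hQ.le, hQ.lift, ?_, hQ.q2, ?_⟩
  · have := hQ.act
    rwa [conePi_image] at this
  · intro s hs x y h1 h2 h3' h4
    obtain ⟨h5, ρ, hρ, h6⟩ := hQ.q1 s hs x y h1 h2 h3' h4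
    refine ⟨?_, ?_⟩
    · rintro g rfl i
      exact h5 _ ((mem_Rc hE h3 g _).2 ⟨i, rfl⟩)
    · rintro g rfl
      obtain ⟨i, rfl⟩ := (mem_Rc hE h3 g _).1 hρ
      exact ⟨i, h6⟩
  · intro g hg x hx
    obtain ⟨s, hs, h1, h2, h4, ρ, hρ, h5⟩ := hQ.q3 g hg x hx
    obtain ⟨a, rfl⟩ := apx_cases hs
    obtain ⟨i, rfl⟩ := (mem_Rc hE h3 a _).1 hρ
    exact ⟨a, h1, h2, h4, i, h5⟩

end Pool.Agent.Lib.MP_f1646b_al
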