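import Pool.Agent.Lib.MP_f1646b_al.Betw
import Pool.Agent.Lib.MP_f1646b_al.P02
import Pool.Agent.Lib.MP_f1646b_al.P03
import Pool.Agent.Lib.MP_f1646b_al.P11a

set_option autoImplicit false

namespace Pool.Agent.Lib.MP_f1646b_al

open scoped Pointwise

namespace P15

variable {G : Type*} [Group G] {d : G → G → ℕ} {δ₀ : ℕ} {E : Subgroup G} {ε τ : G → ℤ} {y0 : G}
  {θ δ n : ℕ} {α : Cone G E → Cone G E → Cone G E → ℕ} {N : Subgroup G} [N.Normal]
  {D : Cone (G ⧸ N) (E.map (QuotientGroup.mk' N)) → Cone (G ⧸ N) (E.map (QuotientGroup.mk' N)) → ℕ}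
  {β : Cone (G ⧸ N) (E.map (QuotientGroup.mk' N)) → Cone (G ⧸ N) (E.map (QuotientGroup.mk' N)) →
    Cone (G ⧸ N) (E.map (QuotientGroup.mk' N)) → ℕ}

theorem pow_facts (hE : EData E ε τ y0) (k : ℕ) :
    y0 ^ k ∈ E ∧ ε (y0 ^ k) = 1 ∧ τ (y0 ^ k) = k := by
  have h1 : ε 1 = 1 ∧ τ 1 = 0 := by
    have a := hE.eps_mul y0 hE.y0_mem 1 E.one_mem
    have b := hE.tau_mul y0 hE.y0_mem 1 E.one_mem
    rw [mul_one, hE.eps_y0] at a b
    constructor
    · omega
    · omega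
  induction k with
  | zero => exact ⟨by simpa using E.one_mem, by simpa using h1.1, by simpa using h1.2⟩
  | succ k ih =>
    obtain ⟨i1, i2, i3⟩ := ih
    rw [pow_succ]
    refine ⟨E.mul_mem i1 hE.y0_mem, ?_, ?_⟩
    · rw [hE.eps_mul _ i1 _ hE.y0_mem, i2, hE.eps_y0]; rfl
    · rw [hE.tau_mul _ i1 _ hE.y0_mem, i2, i3, hE.tau_y0]; push_cast; ring

theorem zpow_facts (hE : EData E ε τ y0) (k : ℤ) :
    y0 ^ k ∈ E ∧ ε (y0 ^ k) = 1 ∧ τ (y0 ^ k) = k := by
  obtain ⟨m, rfl | rfl⟩ := k.eq_nat_or_neg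
  · simpa using pow_facts hE m
  · obtain ⟨i1, i2, i3⟩ := pow_facts hE m
    have h0 := pow_facts hE 0
    rw [pow_zero] at h0
    rw [zpow_neg, zpow_natCast]
    have j1 : (y0 ^ m)⁻¹ ∈ E := E.inv_mem i1
    refine ⟨j1, ?_, ?_⟩
    · have := hE.eps_mul _ i1 _ j1
      rw [mul_inv_cancel, i2, h0.2.1] at this
      omega
    · have := hE.tau_mul _ i1 _ j1
      rw [mul_inv_cancel, i2, i3, h0.2.2] at this
      push_cast at this ⊢
      omega

/-- the image of `E` in the quotient is finite -/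
theorem ebar_finite (hE : EData E ε τ y0) (hn : 0 < n) (hz : y0 ^ n ∈ N) :
    {x : G ⧸ N | x ∈ E.map (QuotientGroup.mk' N)}.Finite := by
  refine ((tau_fin E ε τ y0 hE n).image (fun g : G => (g : G ⧸ N))).subset ?_
  rintro x ⟨e, he, rfl⟩
  obtain ⟨i1, i2, i3⟩ := zpow_facts hE (n * (-(τ e / n)))
  refine ⟨y0 ^ ((n : ℤ) * (-(τ e / n))) * e, ⟨E.mul_mem i1 he, ?_⟩, ?_⟩
  · rw [hE.tau_mul _ i1 _ he, i2, i3]
    have h1 := Int.emod_add_mul_ediv (τ e) n
    have h2 := Int.emod_nonneg (τ e) (b := (n : ℤ)) (by omega)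
    have h3 := Int.emod_lt_of_pos (τ e) (b := (n : ℤ)) (by omega)
    have h4 : (n : ℤ) * -(τ e / n) + 1 * τ e = τ e % n := by
      linarith [h1]
    rw [h4]
    omega
  · have h5 : y0 ^ ((n : ℤ) * (-(τ e / n))) ∈ N := by
      rw [zpow_mul, zpow_natCast]
      exact N.zpow_mem hz _
    change ((y0 ^ ((n : ℤ) * (-(τ e / n))) * e : G) : G ⧸ N) = (e : G ⧸ N)
    rw [QuotientGroup.mk_mul, (QuotientGroup.eq_one_iff _).2 h5, one_mul]

theorem inl_isom (hF : FillPkg d E θ δ n α (y0 ^ n) N D β) (g q q' : G ⧸ N) :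
    D (Sum.inl (g * q)) (Sum.inl (g * q')) = D (Sum.inl q) (Sum.inl q') :=
  hF.act.isom g (Sum.inl q) (Sum.inl q')

theorem ll_one (hC : ConePkg d E ε τ θ δ α) (hF : FillPkg d E θ δ n α (y0 ^ n) N D β)
    (q q' : G ⧸ N) (h : D (Sum.inl q) (Sum.inl q') = 1) :
    ∃ g : G, d 1 g = 1 ∧ q' = q * (g : G ⧸ N) := by
  have h1 : D (Sum.inl 1) (Sum.inl (q⁻¹ * q')) = 1 := by
    rw [← h, ← inl_isom hF q⁻¹ q q', inv_mul_cancel]
  obtain ⟨y, hy, hy'⟩ := hF.lift (Sum.inl 1) (Sum.inl (q⁻¹ * q'))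
  rcases y with g | c
  · have h2 : (g : G ⧸ N) = q⁻¹ * q' := Sum.inl_injective hy
    have h3 : D (conePi E N (Sum.inl 1)) (Sum.inl (q⁻¹ * q')) = 1 := h1
    rw [h3] at hy'
    refine ⟨g, (hC.adj_ll 1 g).1 hy', ?_⟩
    rw [h2]; group
  · exact absurd hy (by simp [conePi])

theorem lr_one (hC : ConePkg d E ε τ θ δ α) (hF : FillPkg d E θ δ n α (y0 ^ n) N D β)
    (q : G ⧸ N) (c : (G ⧸ N) ⧸ (E.map (QuotientGroup.mk' N))) :
    D (Sum.inl q) (Sum.inr c) = 1 ↔ (q : (G ⧸ N) ⧸ (E.map (QuotientGroup.mk' N))) = c := by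
  obtain ⟨g, rfl⟩ := QuotientGroup.mk_surjective q
  constructor
  · intro h
    obtain ⟨y, hy, hy'⟩ := hF.lift (Sum.inl g) (Sum.inr c)
    rcases y with g' | c'
    · exact absurd hy (by simp [conePi])
    · have h3 : D (conePi E N (Sum.inl g)) (Sum.inr c) = 1 := h
      rw [h3] at hy'
      have h4 := (hC.adj_lr g c').1 hy'
      rw [← h4] at hy
      exact Sum.inr_injective hy
  · rintro rfl
    have h1 := hF.le (Sum.inl g) (Sum.inr (g : G ⧸ E))
    rw [(hC.adj_lr g _).2 rfl] at h1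
    have h2 : D (Sum.inl (g : G ⧸ N))
        (Sum.inr ((g : G ⧸ N) : (G ⧸ N) ⧸ (E.map (QuotientGroup.mk' N)))) ≤ 1 := h1
    have h3 : D (Sum.inl (g : G ⧸ N))
        (Sum.inr ((g : G ⧸ N) : (G ⧸ N) ⧸ (E.map (QuotientGroup.mk' N)))) ≠ 0 := by
      intro h0
      exact absurd (hF.act.cas.geo.eq_of _ _ h0) (by simp)
    omega

theorem r_one (hC : ConePkg d E ε τ θ δ α) (hF : FillPkg d E θ δ n α (y0 ^ n) N D β)
    (c : (G ⧸ N) ⧸ (E.map (QuotientGroup.mk' N))) (b) (h : D (Sum.inr c) b = 1) :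
    ∃ q : G ⧸ N, b = Sum.inl q ∧ (q : (G ⧸ N) ⧸ (E.map (QuotientGroup.mk' N))) = c := by
  rcases b with q | c'
  · refine ⟨q, rfl, ?_⟩
    rw [hF.act.cas.geo.symm] at h
    exact (lr_one hC hF q c).1 h
  · exact absurd h (hF.act.cas.nadj _ ⟨c, rfl⟩ _ ⟨c', rfl⟩)

theorem nbrs_finite (hH : HypMet G d δ₀) (hE : EData E ε τ y0) (hC : ConePkg d E ε τ θ δ α)
    (hF : FillPkg d E θ δ n α (y0 ^ n) N D β) (a) : {b | D a b = 1}.Finite := by
  have hn : 0 < n := by have := hF.large; omega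
  have hz : y0 ^ n ∈ N := by
    have h1 : y0 ^ n ∈ Subgroup.normalClosure {y0 ^ n} :=
      Subgroup.subset_normalClosure (Set.mem_singleton _)
    rw [hF.nc]
    exact h1
  rcases a with q | c
  · refine (((hH.fin 1).image (fun g : G =>
        (Sum.inl (q * (g : G ⧸ N)) : Cone (G ⧸ N) (E.map (QuotientGroup.mk' N))))).union
        (Set.finite_singleton (Sum.inr (q : (G ⧸ N) ⧸ (E.map (QuotientGroup.mk' N)))))).subset ?_
    intro b hb
    rcases b with q' | c'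
    · obtain ⟨g, hg, hg'⟩ := ll_one hC hF q q' hb
      left
      exact ⟨g, by simp only [Set.mem_ofPred_eq]; omega, by rw [hg']⟩
    · right
      rw [(lr_one hC hF q c').1 hb]
      rfl
  · obtain ⟨q, rfl⟩ := QuotientGroup.mk_surjective c
    refine ((ebar_finite hE hn hz).image (fun x : G ⧸ N =>
      (Sum.inl (q * x) : Cone (G ⧸ N) (E.map (QuotientGroup.mk' N))))).subset ?_
    intro b hb
    obtain ⟨q', rfl, hq'⟩ := r_one hC hF _ _ hb
    refine ⟨q⁻¹ * q', ?_, by simp⟩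
    exact QuotientGroup.eq.1 hq'.symm

theorem balls_finite (hH : HypMet G d δ₀) (hE : EData E ε τ y0) (hC : ConePkg d E ε τ θ δ α)
    (hF : FillPkg d E θ δ n α (y0 ^ n) N D β) (L : ℕ) : {b | D (Sum.inl 1) b ≤ L}.Finite := by
  induction L with
  | zero =>
    refine (Set.finite_singleton (Sum.inl 1)).subset ?_
    intro b hb
    exact (hF.act.cas.geo.eq_of _ _ (Nat.le_zero.1 hb)).symm
  | succ L ih =>
    refine (ih.union (ih.biUnion fun a _ => nbrs_finite hH hE hC hF a)).subset ?_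
    intro b hb
    simp only [Set.mem_ofPred_eq] at hb
    by_cases hL : D (Sum.inl 1) b ≤ L
    · left; exact hL
    · right
      obtain ⟨w, h1, h2⟩ := hF.act.cas.geo.geo (Sum.inl 1) b L (by omega)
      simp only [Set.mem_iUnion]
      exact ⟨w, by simp only [Set.mem_ofPred_eq]; omega, by simp only [Set.mem_ofPred_eq]; omega⟩

/-- one step of a geodesic, projected to the group -/
theorem step (hC : ConePkg d E ε τ θ δ α) (hF : FillPkg d E θ δ n α (y0 ^ n) N D β)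
    (q q' : G ⧸ N) (hq : q ≠ q') :
    ∃ u : G ⧸ N, Btw D (Sum.inl q) (Sum.inl u) (Sum.inl q') ∧
      D (Sum.inl u) (Sum.inl q') < D (Sum.inl q) (Sum.inl q') ∧ q ≠ u ∧
      (D (Sum.inl q) (Sum.inl u) = 1 ∨ q⁻¹ * u ∈ E.map (QuotientGroup.mk' N)) := by
  have hg := hF.act.cas.geo
  obtain ⟨w, h1, h2⟩ := exists_adj hg
    (show (Sum.inl q : Cone (G ⧸ N) (E.map (QuotientGroup.mk' N))) ≠ Sum.inl q' by simpa using hq)
  rcases w with u | c
  · refine ⟨u, h1, ?_, ?_, Or.inl h2⟩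
    · unfold Btw at h1; omega
    · rintro rfl
      rw [hg.self] at h2
      omega
  · obtain ⟨w', h3, h4⟩ := exists_adj hg
      (show (Sum.inr c : Cone (G ⧸ N) (E.map (QuotientGroup.mk' N))) ≠ Sum.inl q' by simp)
    obtain ⟨u, rfl, hu⟩ := r_one hC hF _ _ h4
    obtain ⟨h5, h6⟩ := btw_T1' hg h3 h1
    refine ⟨u, h5, ?_, ?_, Or.inr ?_⟩
    · unfold Btw at h1 h3; omega
    · rintro rfl
      unfold Btw at h6
      rw [hg.self] at h6
      omega
    · have h7 := (lr_one hC hF q c).1 h2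
      exact QuotientGroup.eq.1 (h7.trans hu.symm)

/-- the graph on the quotient group -/
def gr (D : Cone (G ⧸ N) (E.map (QuotientGroup.mk' N)) →
    Cone (G ⧸ N) (E.map (QuotientGroup.mk' N)) → ℕ) : SimpleGraph (G ⧸ N) :=
  SimpleGraph.fromRel fun q u : G ⧸ N =>
    D (Sum.inl q) (Sum.inl u) = 1 ∨ q⁻¹ * u ∈ E.map (QuotientGroup.mk' N)

theorem gr_adj (hF : FillPkg d E θ δ n α (y0 ^ n) N D β) (q u : G ⧸ N) :
    (gr D).Adj q u ↔ q ≠ u ∧ (D (Sum.inl q) (Sum.inl u) = 1 ∨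
      q⁻¹ * u ∈ E.map (QuotientGroup.mk' N)) := by
  unfold gr
  rw [SimpleGraph.fromRel_adj]
  constructor
  · rintro ⟨h1, h2 | h2⟩
    · exact ⟨h1, h2⟩
    · refine ⟨h1, ?_⟩
      rcases h2 with h2 | h2
      · left; rw [hF.act.cas.geo.symm]; exact h2
      · right
        have := (E.map (QuotientGroup.mk' N)).inv_mem h2
        simpa using this
  · rintro ⟨h1, h2⟩
    exact ⟨h1, Or.inl h2⟩

theorem walk (hC : ConePkg d E ε τ θ δ α) (hF : FillPkg d E θ δ n α (y0 ^ n) N D β) (m : ℕ) :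
    ∀ q q' : G ⧸ N, D (Sum.inl q) (Sum.inl q') ≤ m →
      ∃ p : (gr D).Walk q q', p.length ≤ D (Sum.inl q) (Sum.inl q') := by
  induction m with
  | zero =>
    intro q q' h
    have h1 := hF.act.cas.geo.eq_of _ _ (Nat.le_zero.1 h)
    have h2 := Sum.inl_injective h1
    subst h2
    exact ⟨SimpleGraph.Walk.nil, by simp⟩
  | succ m ih =>
    intro q q' h
    by_cases hq : q = q'
    · subst hq
      exact ⟨SimpleGraph.Walk.nil, by simp⟩
    · obtain ⟨u, h1, h2, h3, h4⟩ := step hC hF q q' hq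
      obtain ⟨p, hp⟩ := ih u q' (by omega)
      exact ⟨SimpleGraph.Walk.cons ((gr_adj hF q u).2 ⟨h3, h4⟩) p, by
        rw [SimpleGraph.Walk.length_cons]; omega⟩

theorem gr_connected (hC : ConePkg d E ε τ θ δ α) (hF : FillPkg d E θ δ n α (y0 ^ n) N D β) :
    (gr D).Connected := by
  haveI : Nonempty (G ⧸ N) := ⟨1⟩
  refine ⟨fun q q' => ?_⟩
  obtain ⟨p, -⟩ := walk hC hF _ q q' le_rfl
  exact ⟨p⟩

theorem dist_le (hC : ConePkg d E ε τ θ δ α) (hF : FillPkg d E θ δ n α (y0 ^ n) N D β)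
    (q q' : G ⧸ N) : (gr D).dist q q' ≤ D (Sum.inl q) (Sum.inl q') := by
  obtain ⟨p, hp⟩ := walk hC hF _ q q' le_rfl
  exact (SimpleGraph.dist_le p).trans hp

theorem adj_le (hC : ConePkg d E ε τ θ δ α) (hF : FillPkg d E θ δ n α (y0 ^ n) N D β)
    (q q' : G ⧸ N) (h : (gr D).Adj q q') : D (Sum.inl q) (Sum.inl q') ≤ 2 := by
  rcases ((gr_adj hF q q').1 h).2 with h1 | h1
  · omega
  · have h2 := (lr_one hC hF q _).2 rfl
    have h3 := (lr_one hC hF q' (q : (G ⧸ N) ⧸ (E.map (QuotientGroup.mk' N)))).2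
      (QuotientGroup.eq.2 h1).symm
    have h4 := hF.act.cas.geo.tri (Sum.inl q)
      (Sum.inr (q : (G ⧸ N) ⧸ (E.map (QuotientGroup.mk' N)))) (Sum.inl q')
    rw [hF.act.cas.geo.symm (Sum.inr _) (Sum.inl q')] at h4
    omega

theorem le_dist (hC : ConePkg d E ε τ θ δ α) (hF : FillPkg d E θ δ n α (y0 ^ n) N D β)
    (q q' : G ⧸ N) : D (Sum.inl q) (Sum.inl q') ≤ 2 * (gr D).dist q q' := by
  obtain ⟨p, hp⟩ := (gr_connected hC hF).exists_walk_length_eq_dist q q'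
  rw [← hp]
  clear hp
  induction p with
  | nil => rw [hF.act.cas.geo.self]; omega
  | cons h p ih =>
    have h1 := adj_le hC hF _ _ h
    have h2 := hF.act.cas.geo.tri (Sum.inl _) (Sum.inl _) (Sum.inl _) |>.trans
      (Nat.add_le_add h1 ih)
    rw [SimpleGraph.Walk.length_cons]
    omega

theorem path (hC : ConePkg d E ε τ θ δ α) (hF : FillPkg d E θ δ n α (y0 ^ n) N D β) (k : ℕ) :
    ∀ x y : G ⧸ N, D (Sum.inl x) (Sum.inl y) ≤ k → ∃ (m : ℕ) (p : ℕ → G ⧸ N), p 0 = x ∧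
      p m = y ∧ (∀ i ≤ m, Btw D (Sum.inl x) (Sum.inl (p i)) (Sum.inl y)) ∧
      ∀ i < m, (gr D).dist (p i) (p (i + 1)) ≤ 1 := by
  have hg := hF.act.cas.geo
  induction k with
  | zero =>
    intro x y h
    have h1 := hg.eq_of _ _ (Nat.le_zero.1 h)
    have h2 := Sum.inl_injective h1
    subst h2
    exact ⟨0, fun _ => x, rfl, rfl, fun i _ => btw_left hg _ _, fun i hi => absurd hi (by omega)⟩
  | succ k ih =>
    intro x y h
    by_cases hxy : x = y
    · subst hxy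
      exact ⟨0, fun _ => x, rfl, rfl, fun i _ => btw_left hg _ _, fun i hi => absurd hi (by omega)⟩
    · obtain ⟨u, h1, h2, h3, h4⟩ := step hC hF x y hxy
      obtain ⟨m, p, hp0, hpm, hpL, hpd⟩ := ih u y (by omega)
      refine ⟨m + 1, fun i => if i = 0 then x else p (i - 1), by simp, by simpa using hpm, ?_, ?_⟩
      · intro i hi
        by_cases hi0 : i = 0
        · simp only [hi0, if_true]
          exact btw_left hg _ _
        · simp only [hi0, if_false]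
          exact (btw_T1' hg (hpL (i - 1) (by omega)) h1).1
      · intro i hi
        by_cases hi0 : i = 0
        · subst hi0
          simp only [if_true, zero_add, one_ne_zero, if_false, Nat.sub_self, hp0]
          have h5 : (gr D).Adj x u := (gr_adj hF x u).2 ⟨h3, h4⟩
          exact (SimpleGraph.dist_eq_one_iff_adj.2 h5).le
        · obtain ⟨j, rfl⟩ : ∃ j, i = j + 1 := ⟨i - 1, by omega⟩
          simpa using hpd j (by omega)

end P15

theorem quot_isHyp {G : Type*} [Group G] {d : G → G → ℕ} {δ₀ : ℕ} (hH : HypMet G d δ₀)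
    {E : Subgroup G} {ε τ : G → ℤ} {y0 : G} (hE : EData E ε τ y0) {θ δ n : ℕ}
    {α : Cone G E → Cone G E → Cone G E → ℕ} (hC : ConePkg d E ε τ θ δ α) (N : Subgroup G)
    [N.Normal] {D β} (hF : FillPkg d E θ δ n α (y0 ^ n) N D β) :
    IsHyp (G ⧸ N) ∧ ∀ L, {q : G ⧸ N | D (Sum.inl 1) (Sum.inl q) ≤ L}.Finite := by
  have hg := hF.act.cas.geo
  have hfin : ∀ L, {q : G ⧸ N | D (Sum.inl 1) (Sum.inl q) ≤ L}.Finite := by
    intro L
    exact (P15.balls_finite hH hE hC hF L).preimage (Sum.inl_injective.injOn)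
  refine ⟨?_, hfin⟩
  have hn : 0 < n := by have := hF.large; omega
  have hz : y0 ^ n ∈ N := by
    have h1 : y0 ^ n ∈ Subgroup.normalClosure {y0 ^ n} :=
      Subgroup.subset_normalClosure (Set.mem_singleton _)
    rw [hF.nc]
    exact h1
  have hconn := P15.gr_connected hC hF
  obtain ⟨hinv, hball⟩ := fin_balls (P15.gr D) hconn (by
    intro g x y hxy
    rw [P15.gr_adj hF] at hxy ⊢
    refine ⟨by simpa using hxy.1, ?_⟩
    rw [P15.inl_isom hF]
    rcases hxy.2 with h1 | h1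
    · exact Or.inl h1
    · right
      have h2 : (g * x)⁻¹ * (g * y) = x⁻¹ * y := by group
      rw [h2]; exact h1) (by
    refine ((hfin 1).union (P15.ebar_finite (E := E) hE hn hz)).subset ?_
    intro x hx
    rcases ((P15.gr_adj hF 1 x).1 hx).2 with h1 | h1
    · left; simp only [Set.mem_ofPred_eq]; omega
    · right; simpa using h1)
  obtain ⟨T, -, hT⟩ := guess (P15.gr D).dist (isGeo_dist (P15.gr D) hconn)
    (fun x y => {w | Btw D (Sum.inl x) (Sum.inl w) (Sum.inl y)}) (δ + 2) (by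
    intro x y z w hw
    obtain ⟨v, hv, hwv⟩ := hF.hyp (Sum.inl x) (Sum.inl y) (Sum.inl z) (Sum.inl w) hw
    rcases v with u | c
    · refine ⟨u, hv, ?_⟩
      have := P15.dist_le hC hF w u
      omega
    · obtain ⟨v', h3, h4⟩ := exists_adj hg
        (show (Sum.inr c : Cone (G ⧸ N) (E.map (QuotientGroup.mk' N))) ≠ Sum.inl z by simp)
      obtain ⟨u, rfl, hu⟩ := P15.r_one hC hF _ _ h4
      refine ⟨u, ?_, ?_⟩
      · rcases hv with hv | hv
        · exact Or.inl (btw_T1' hg h3 hv).1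
        · exact Or.inr (btw_T1 hg (h3.comm hg) hv).1
      · have h5 := P15.dist_le hC hF w u
        have h6 := hg.tri (Sum.inl w) (Sum.inr c) (Sum.inl u)
        omega) (by
    intro x y hxy w hw
    have h1 := P15.le_dist hC hF x y
    have h2 := P15.dist_le hC hF x w
    have h3 : Btw D (Sum.inl x) (Sum.inl w) (Sum.inl y) := hw
    unfold Btw at h3
    omega) (by
    intro x y
    obtain ⟨m, p, h1, h2, h3, h4⟩ := P15.path hC hF _ x y le_rfl
    exact ⟨m, p, h1, h2, h3, h4⟩)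
  exact ⟨(P15.gr D).dist, T, isGeo_dist (P15.gr D) hconn, hinv, hball, hT⟩

end Pool.Agent.Lib.MP_f1646b_al
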