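import Pool.Agent.Lib.MP_f1646b_al.Betw

/-! # MP_f1646b_al, piece P16a : fixsep and chain_lemma -/

set_option autoImplicit false

namespace Pool.Agent.Lib.MP_f1646b_al

open scoped Pointwise

theorem fixsep {H X : Type*} [Group H] [MulAction H X] {d : X → X → ℕ} {S : Set X}
    {α : X → X → X → ℕ} {θ e : ℕ} (h : ActCAS H d S α θ e) (f : H) (hf : IsOfFinOrder f) (p q s : X)
    (hs : s ∈ S) (A : ℕ) (hA : θ ≤ A)
    (hp : ∀ i j : ℕ, f ^ j • s ≠ f ^ i • p ∧ f ^ j • s ≠ f ^ i • q)
    (hpA : ∀ i j : ℕ, α (f ^ j • s) p (f ^ i • p) ≤ A ∧ α (f ^ j • s) q (f ^ i • q) ≤ A)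
    (hbig : 3 * A + 4 * e + θ < α s p q) : f • s = s := by
  have hC := h.cas
  have hG := hC.geo
  have hS : ∀ j : ℕ, f ^ j • s ∈ S := fun j => h.inS _ _ hs
  have hsp : s ≠ p ∧ s ≠ q := by have := hp 0 0; simpa using this
  have hpj : ∀ j : ℕ, p ≠ f ^ j • s := fun j => by have := (hp 0 j).1; simpa using this.symm
  have hqj : ∀ j : ℕ, q ≠ f ^ j • s := fun j => by have := (hp 0 j).2; simpa using this.symm
  -- the angle at every point of the orbit is large
  have hlarge : ∀ j : ℕ, A + 2 * e + θ < α (f ^ j • s) p q := by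
    intro j
    have h1 := h.a_inv (f ^ j) s hs p q hsp.1.symm hsp.2.symm
    have h2 := hC.a_tri _ (hS j) (f ^ j • p) p (f ^ j • q) (hp j j).1.symm (hpj j) (hp j j).2.symm
    have h3 := hC.a_tri _ (hS j) p q (f ^ j • q) (hpj j) (hqj j) (hp j j).2.symm
    have h4 := hC.a_symm _ (hS j) (f ^ j • p) p (hp j j).1.symm (hpj j)
    have h5 := hpA j j
    omega
  have hbtw : ∀ j : ℕ, Btw d p (f ^ j • s) q := fun j =>
    hC.k1 _ (hS j) p q (hpj j) (hqj j) (by have := hlarge j; omega)
  -- a nearest point of the orbit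
  obtain ⟨j0, hj0⟩ : ∃ j0 : ℕ, ∀ j : ℕ, d p (f ^ j0 • s) ≤ d p (f ^ j • s) := by
    exact ⟨_, fun j => Function.argmin_le (fun j : ℕ => d p (f ^ j • s)) j⟩
  have hL0 := hlarge j0
  have hL1 := hlarge (j0 + 1)
  have hj01 := hj0 (j0 + 1)
  set s' := f ^ j0 • s with hs'
  have hfs' : f • s' = f ^ (j0 + 1) • s := by rw [hs', ← mul_smul, ← pow_succ']
  have key : f • s' = s' := by
    by_contra hne
    rw [hfs'] at hne
    set t := f ^ (j0 + 1) • s with ht
    rcases hC.k1' s' (hS j0) p q t (hpj j0) (hqj j0) (by omega)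
      (hbtw (j0 + 1)) with h1 | h1
    · have h2 := pair_lemma hC s' t p q (hS j0) (hS (j0 + 1)) (Ne.symm hne) (hpj j0).symm
        (hqj j0).symm (hpj (j0 + 1)).symm (hqj (j0 + 1)).symm h1 (hbtw (j0 + 1))
        (by omega)
      have h3 : α s' t q = 0 := h2.2 (by omega)
      have hfp : f • p ≠ s' := by have := (hp 1 j0).1; simpa using this.symm
      have h4 := hC.a_tri s' (hS j0) p (f • p) q (hpj j0) hfp (hqj j0)
      have h5 := hC.a_tri s' (hS j0) (f • p) t q hfp hne (hqj j0)
      have h6 : α s' p (f • p) ≤ A := by have := (hpA 1 j0).1; simpa using this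
      have h7 : θ < α s' (f • p) t := by omega
      have h8 := hC.k1 s' (hS j0) (f • p) t hfp hne h7
      have h9 : d (f • p) t = d p s' := by rw [← hfs', h.isom]
      have h10 : 0 < d s' t := dist_pos_of_ne hG (Ne.symm hne)
      -- `f⁻¹ s'` is in the orbit
      obtain ⟨n, hn, hn1⟩ := (isOfFinOrder_iff_pow_eq_one.1 hf)
      have h11 : f • (f ^ (j0 + n - 1) • s) = s' := by
        rw [← mul_smul, ← pow_succ', show j0 + n - 1 + 1 = j0 + n by omega, pow_add, hn1, mul_one]
      have h12 : d (f • p) s' = d p (f ^ (j0 + n - 1) • s) := by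
        conv_lhs => rw [← h11]
        rw [h.isom]
      have h13 := hj0 (j0 + n - 1)
      unfold Btw at h8
      omega
    · have h2 := (btw_T1' hG h1 (hbtw (j0 + 1))).2
      unfold Btw at h2
      exact hne (hG.eq_of _ _ (by omega))
  rw [hs', smul_smul, ← pow_succ', pow_succ, mul_smul] at key
  exact smul_left_cancel _ key

theorem chain_lemma {X : Type*} {d : X → X → ℕ} {S : Set X} {α : X → X → X → ℕ} {θ : ℕ}
    (h : CAS d S α θ 0) (c : ℕ → X) (hc : ∀ i, c i ∈ S) (hne : ∀ i, c i ≠ c (i + 1))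
    (hα : ∀ i, 2 * θ < α (c (i + 1)) (c i) (c (i + 2))) :
    (∀ i j, i < j → c i ≠ c j) ∧ (∀ i j k, i < j → j < k → α (c j) (c i) (c k) =
      α (c j) (c (j - 1)) (c (j + 1))) ∧
    ∀ N s, 0 < N → s ∈ S → (∀ i ≤ N, s ≠ c i) → 2 * θ < α s (c 0) (c N) →
      ∃ j < N, α s (c 0) (c N) ≤ α s (c j) (c (j + 1)) := by
  have hG := h.geo
  -- left part
  have hl : ∀ j i, i < j → c i ≠ c j ∧ α (c j) (c i) (c (j - 1)) = 0 := by
    intro j
    induction j with
    | zero => intro i hi; omega
    | succ j ih =>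
      intro i hi
      rcases Nat.lt_or_ge i j with hij | hij
      · obtain ⟨h1, h2⟩ := ih i hij
        obtain ⟨m, rfl⟩ : ∃ m, j = m + 1 := ⟨j - 1, by omega⟩
        rw [Nat.add_sub_cancel] at h2
        have h3 := h.a_tri (c (m + 1)) (hc _) (c m) (c i) (c (m + 2)) (hne m) h1
          (hne (m + 1)).symm
        have h4 := h.a_symm (c (m + 1)) (hc _) (c m) (c i) (hne m) h1
        have h5 := hα m
        have h6 : c i ≠ c (m + 1 + 1) := by
          intro he
          rw [show m + 2 = m + 1 + 1 from rfl, ← he] at h3 h5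
          rw [h4, h2] at h5
          omega
        have h7 := h.a_symm (c (m + 1)) (hc _) (c i) (c (m + 2)) h1 (hne (m + 1)).symm
        have h8 := h.k2 (c (m + 2)) (hc _) (c (m + 1)) (hc _) (c i) (hne (m + 1)).symm h6 h1
          (by omega)
        refine ⟨h6, ?_⟩
        rw [Nat.add_sub_cancel]
        rw [h.a_symm (c (m + 1 + 1)) (hc _) (c i) (c (m + 1)) h6 (hne (m + 1))]
        exact h8
      · have : i = j := by omega
        subst this
        exact ⟨hne i, by rw [Nat.add_sub_cancel]; exact h.a_self _ (hc _) _ (hne i)⟩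
  have hdist : ∀ i j, i < j → c i ≠ c j := fun i j hij => (hl j i hij).1
  -- right part
  have hr : ∀ m j k, k = j + 1 + m → α (c j) (c k) (c (j + 1)) = 0 := by
    intro m
    induction m with
    | zero =>
      intro j k hk
      subst hk
      exact h.a_self _ (hc _) _ (hne j).symm
    | succ m ih =>
      intro j k hk
      have h1 := ih (j + 1) k (by omega)
      have hjk : c j ≠ c k := hdist _ _ (by omega)
      have hjk1 : c (j + 1) ≠ c k := hdist _ _ (by omega)
      have h3 := h.a_tri (c (j + 1)) (hc _) (c j) (c k) (c (j + 2)) (hne j) hjk1.symm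
        (hne (j + 1)).symm
      have h5 := hα j
      have h1' : α (c (j + 1)) (c k) (c (j + 2)) = 0 := h1
      have h8 := h.k2 (c j) (hc _) (c (j + 1)) (hc _) (c k) (hne j) hjk.symm hjk1.symm (by omega)
      rw [h.a_symm (c j) (hc _) (c k) (c (j + 1)) hjk.symm (hne j).symm]
      exact h8
  have hmid : ∀ i j k, i < j → j < k → α (c j) (c i) (c k) = α (c j) (c (j - 1)) (c (j + 1)) := by
    intro i j k hij hjk
    have hi := hdist i j hij
    have hk := (hdist j k hjk).symm
    have hj1 : c (j - 1) ≠ c j := hdist _ _ (by omega)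
    have hj2 := (hne j).symm
    have h1 := (hl j i hij).2
    have h2 := hr (k - j - 1) j k (by omega)
    have h3 := h.a_symm (c j) (hc _) (c i) (c (j - 1)) hi hj1
    have h4 := h.a_symm (c j) (hc _) (c k) (c (j + 1)) hk hj2
    have h5 := h.a_tri (c j) (hc _) (c i) (c (j - 1)) (c k) hi hj1 hk
    have h6 := h.a_tri (c j) (hc _) (c (j - 1)) (c (j + 1)) (c k) hj1 hj2 hk
    have h7 := h.a_tri (c j) (hc _) (c (j - 1)) (c i) (c (j + 1)) hj1 hi hj2
    have h8 := h.a_tri (c j) (hc _) (c i) (c k) (c (j + 1)) hi hk hj2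
    omega
  refine ⟨hdist, hmid, ?_⟩
  intro N s hN hs hsc hbig
  -- type L or type R
  have htype : ∀ j, 0 < j → j < N → α s (c 0) (c j) = 0 ∨ α s (c j) (c N) = 0 := by
    intro j h0 hjN
    have hj : 2 * θ < α (c j) (c 0) (c N) := by
      rw [hmid 0 j N h0 hjN]
      have := hα (j - 1)
      rw [show j - 1 + 1 = j by omega, show j - 1 + 2 = j + 1 by omega] at this
      exact this
    have hb : Btw d (c 0) (c j) (c N) :=
      h.k1 _ (hc j) _ _ (hdist 0 j h0) (hdist j N hjN).symm (by omega)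
    have hs0 := (hsc 0 (Nat.zero_le _)).symm
    have hsN := (hsc N le_rfl).symm
    have hsj := (hsc j hjN.le).symm
    rcases h.k1' s hs (c 0) (c N) (c j) hs0 hsN (by omega) hb with h1 | h1
    · right
      exact (pair_lemma h s (c j) (c 0) (c N) hs (hc j) hsj.symm hs0.symm hsN.symm
        (hdist 0 j h0).symm (hdist j N hjN) h1 hb (by omega)).2 (by omega)
    · left
      have h2 := h.a_symm s hs (c 0) (c N) hs0 hsN
      have h3 := h.a_symm (c j) (hc j) (c 0) (c N) (hdist 0 j h0) (hdist j N hjN).symm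
      have h4 := (pair_lemma h s (c j) (c N) (c 0) hs (hc j) hsj.symm hsN.symm hs0.symm
        (hdist j N hjN) (hdist 0 j h0).symm (h1.comm hG) (hb.comm hG) (by omega)).2 (by omega)
      rw [h.a_symm s hs (c 0) (c j) hs0 hsj]
      exact h4
  -- the last index of type L
  have hex : ∃ j, j < N ∧ α s (c 0) (c j) = 0 ∧ ∀ i, j < i → i < N → α s (c 0) (c i) ≠ 0 := by
    classical
    let P : ℕ → Prop := fun j => j < N ∧ α s (c 0) (c j) = 0
    have hP0 : P 0 := ⟨hN, h.a_self s hs _ (hsc 0 (Nat.zero_le _)).symm⟩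
    have h1 := Nat.findGreatest_spec (P := P) (Nat.zero_le N) hP0
    refine ⟨Nat.findGreatest P N, h1.1, h1.2, fun i hi hiN h0 => ?_⟩
    have h2 := Nat.le_findGreatest (P := P) hiN.le ⟨hiN, h0⟩
    omega
  obtain ⟨j, hjN, hjL, hjmax⟩ := hex
  refine ⟨j, hjN, ?_⟩
  have hs0 := (hsc 0 (Nat.zero_le _)).symm
  have hsN := (hsc N le_rfl).symm
  have hsj := (hsc j hjN.le).symm
  have hsj1 := (hsc (j + 1) hjN).symm
  have h1 := h.a_tri s hs (c 0) (c j) (c N) hs0 hsj hsN
  have h2 := h.a_tri s hs (c j) (c (j + 1)) (c N) hsj hsj1 hsN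
  have h3 : α s (c (j + 1)) (c N) = 0 := by
    rcases Nat.lt_or_ge (j + 1) N with hlt | hge
    · rcases htype (j + 1) (by omega) hlt with h4 | h4
      · exact absurd h4 (hjmax (j + 1) (by omega) hlt)
      · exact h4
    · have : j + 1 = N := by omega
      rw [this]
      exact h.a_self s hs _ hsN
  omega

end Pool.Agent.Lib.MP_f1646b_al
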