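import Pool.Agent.Lib.MP_f1646b_al.P01
import Pool.Agent.Lib.MP_f1646b_al.P04

set_option autoImplicit false

namespace Pool.Agent.Lib.MP_f1646b_al

theorem deep {H X : Type*} [Group H] [MulAction H X] {d : X → X → ℕ} {δ : ℕ} (h : IsGeo d)
    (hδ : Hyp d δ) (hisom : ∀ (g : H) x y, d (g • x) (g • y) = d x y) (f : H)
    (hf : IsOfFinOrder f) (P Q v : X) (M : ℕ) (hP : ∀ i : ℕ, d P (f ^ i • P) ≤ M)
    (hQ : ∀ i : ℕ, d Q (f ^ i • Q) ≤ M) (hv : Btw d P v Q)
    (h1 : 10 * M + 100 * δ + 100 ≤ d P v) (h2 : 10 * M + 100 * δ + 100 ≤ d v Q) (i : ℕ) :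
    d v (f ^ i • v) ≤ 40 * δ + 40 := by
  rcases shift h hδ (fun x => f ^ i • x) (fun x y => hisom (f ^ i) x y) P Q v M (hP i) (hQ i)
    hv h1 h2 with h3 | h3
  · exact h3
  · exfalso
    have h4 := doubling h hδ (fun x => f ^ i • x) (fun x y => hisom (f ^ i) x y) v h3 (orderOf f)
    have h5 : (fun x : X => f ^ i • x)^[orderOf f] v = v := by
      rw [smul_iterate, ← pow_mul, mul_comm, pow_mul, pow_orderOf_eq_one, one_pow]
      exact one_smul H v
    rw [h5, h.self] at h4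
    have h6 := orderOf_pos_iff.2 hf
    omega

end Pool.Agent.Lib.MP_f1646b_al
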