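import Pool.Agent.Lib.MP_f1646b_al.P01
import Pool.Agent.Lib.MP_f1646b_al.P16a

/-!
# MP_f1646b_al, piece P17 : finite groups almost fix a point (helper79)
-/

set_option autoImplicit false

namespace Pool.Agent.Lib.MP_f1646b_al
namespace P17

variable {H X : Type*} [Group H] [MulAction H X] {d : X → X → ℕ} {S : Set X}
  {α : X → X → X → ℕ} {θ e δ : ℕ}

/-- the group generated by `F₀` and `x` -/
theorem mem_sup {F₀ : Subgroup H} {x : H} (hx : ∀ f ∈ F₀, x * f * x⁻¹ ∈ F₀) (hx2 : x ^ 2 ∈ F₀)
    {g : H} (hg : g ∈ F₀ ⊔ Subgroup.zpowers x) : g ∈ F₀ ∨ ∃ f ∈ F₀, g = f * x := by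
  let K : Subgroup H :=
    { carrier := {g | g ∈ F₀ ∨ ∃ f ∈ F₀, g = f * x}
      one_mem' := Or.inl F₀.one_mem
      mul_mem' := by
        rintro a b (ha | ⟨f, hf, rfl⟩) (hb | ⟨f', hf', rfl⟩)
        · exact Or.inl (F₀.mul_mem ha hb)
        · exact Or.inr ⟨a * f', F₀.mul_mem ha hf', by group⟩
        · exact Or.inr ⟨f * (x * b * x⁻¹), F₀.mul_mem hf (hx b hb), by group⟩
        · left
          have h1 : f * x * (f' * x) = f * (x * f' * x⁻¹) * x ^ 2 := by group
          rw [h1]
          exact F₀.mul_mem (F₀.mul_mem hf (hx f' hf')) hx2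
      inv_mem' := by
        rintro a (ha | ⟨f, hf, rfl⟩)
        · exact Or.inl (F₀.inv_mem ha)
        · right
          refine ⟨(x ^ 2)⁻¹ * (x * f⁻¹ * x⁻¹), F₀.mul_mem (F₀.inv_mem hx2)
            (hx _ (F₀.inv_mem hf)), by group⟩ }
  have hK : F₀ ⊔ Subgroup.zpowers x ≤ K := by
    refine sup_le (fun g hg => Or.inl hg) ?_
    rw [Subgroup.zpowers_le]
    exact Or.inr ⟨1, F₀.one_mem, by group⟩
  exact hK hg

theorem conj_inv {F₀ : Subgroup H} {x : H} (hx : ∀ f ∈ F₀, x * f * x⁻¹ ∈ F₀) (hx2 : x ^ 2 ∈ F₀)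
    {f : H} (hf : f ∈ F₀) : x⁻¹ * f * x ∈ F₀ := by
  have h1 : x⁻¹ * f * x = (x ^ 2)⁻¹ * (x * f * x⁻¹) * x ^ 2 := by group
  rw [h1]
  exact F₀.mul_mem (F₀.mul_mem (F₀.inv_mem hx2) (hx f hf)) hx2

/-- a point near the middle of an interval which is not an apex -/
theorem exists_m (h : IsGeo d) (hn : ∀ s ∈ S, ∀ t ∈ S, d s t ≠ 1) (a b : X)
    (hb : b ∉ S ∨ 2 ≤ d a b) : ∃ m, m ∉ S ∧ Btw d a m b ∧ d a m ≤ d m b + 2 ∧ d m b ≤ d a m + 2 := by
  obtain ⟨w, hw, hw1⟩ := geo_btw h a b (d a b / 2) (Nat.div_le_self _ _)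
  by_cases hS : w ∈ S
  · have hwb : w ≠ b := by
      rintro rfl
      rcases hb with hb | hb
      · exact hb hS
      · omega
    obtain ⟨m, hm, hm1⟩ := exists_adj h hwb
    have h3 := btw_T1' h hm hw
    refine ⟨m, fun hmS => hn w hS m hmS hm1, h3.1, ?_⟩
    have h4 := h3.1
    have h5 := h3.2
    unfold Btw at *
    omega
  · refine ⟨w, hS, hw, ?_⟩
    unfold Btw at *
    omega

/-- two points at about the same place of two close intervals are close -/
theorem near_mid (h : IsGeo d) (hδ : Hyp d δ) {a b a' b' m m' : X} {D K : ℕ}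
    (ha : d a a' ≤ D) (hb : d b b' ≤ D) (hm : Btw d a m b) (hm' : Btw d a' m' b')
    (h1 : d a m ≤ d a' m' + K) (h2 : d a' m' ≤ d a m + K) : d m m' ≤ 6 * δ + 5 * D + K := by
  obtain ⟨v, hv, hv2⟩ := quad h hδ hm' a b
  have s1 := h.symm a' a
  have s2 := h.symm b' b
  have s3 := h.symm v m'
  have s4 := h.symm m a
  have s5 := h.symm b m
  have s6 := h.symm b' m'
  have s7 := h.symm m' m
  rcases hv with hv | hv | hv
  · have t1 := h.tri a' v m'
    have t2 := h.tri m a m'
    have t3 := h.tri a a' m'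
    unfold Btw at *
    omega
  · have t1 := h.tri a v m'
    have t2 := h.tri a a' m'
    have t3 := h.tri a' a m'
    have t4 := h.tri a m' v
    have t5 := h.tri m v m'
    have t6 := fat h hδ hm hv
    omega
  · have t1 := h.tri b' v m'
    have t2 := h.tri m b m'
    have t3 := h.tri b b' m'
    have t4 := h.tri a a' b
    have t5 := h.tri a' b' b
    have s8 := h.symm v b'
    unfold Btw at *
    omega

/-- angles at a non apex of an interval -/
theorem small_part (h : CAS d S α θ e) {p q m s : X} {C : ℕ} (hs : s ∈ S) (hm : m ∉ S)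
    (hb : Btw d p m q) (hp : p ≠ s) (hq : q ≠ s) (hC : α s p q ≤ C) : α s p m ≤ C + θ + e := by
  have hms : m ≠ s := fun h => hm (h ▸ hs)
  by_cases h1 : Btw d p s m
  · have h2 : ¬ Btw d m s q := fun h2 => hms (btw_T3 h.geo h1 h2 hb).symm
    have h3 := h.small hs hms hq h2
    have h4 := h.a_tri s hs p q m hp hq hms
    have h5 := h.a_symm s hs q m hq hms
    omega
  · have h3 := h.small hs hp hms h1
    omega

end P17

open P17 in
theorem mid (δ θ e D A : ℕ) : ∃ D' A' : ℕ, ∀ {H X : Type*} [Group H] [MulAction H X]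
    {d : X → X → ℕ} {S : Set X} {α : X → X → X → ℕ}, ActCAS H d S α θ e → Hyp d δ →
    ∀ (F₀ : Subgroup H), Finite F₀ → ∀ x : H, (∀ f ∈ F₀, x * f * x⁻¹ ∈ F₀) → x ^ 2 ∈ F₀ →
    ∀ p, Good d S α F₀ D A p →
    ∃ p', Good d S α (F₀ ⊔ Subgroup.zpowers x) D' A' p' := by
  refine ⟨6 * δ + 5 * D + 2, 2 * ((3 * max A θ + 4 * e + θ) + θ + e) + A + 2 * e, ?_⟩
  intro H X _ _ d S α h hδ F₀ hF₀ x hx hx2 p hp
  have hg := h.cas.geo
  have hfin : ∀ f ∈ F₀, IsOfFinOrder f := by
    intro f hf
    have h1 : IsOfFinOrder (⟨f, hf⟩ : F₀) := isOfFinOrder_of_finite _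
    exact (Submonoid.isOfFinOrder_coe (H := F₀.toSubmonoid) (x := ⟨f, hf⟩)).2 h1
  have hinS : ∀ (g : H) (s : X), g • s ∈ S ↔ s ∈ S := by
    intro g s
    refine ⟨fun hs => ?_, h.inS g s⟩
    have := h.inS g⁻¹ _ hs
    rwa [inv_smul_smul] at this
  by_cases hI : ∃ t ∈ S, ∀ f ∈ F₀, f • t = t
  · -- Case I
    obtain ⟨t, ⟨htS, htF⟩, htmin⟩ : ∃ t, (t ∈ S ∧ ∀ f ∈ F₀, f • t = t) ∧
        ∀ r, (r ∈ S ∧ ∀ f ∈ F₀, f • r = r) → d t (x • t) ≤ d r (x • r) := by
      obtain ⟨t0, ht0⟩ := hI
      have hne : {k : ℕ | ∃ t, (t ∈ S ∧ ∀ f ∈ F₀, f • t = t) ∧ d t (x • t) = k}.Nonempty :=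
        ⟨_, t0, ht0, rfl⟩
      obtain ⟨t, ht, ht2⟩ := Nat.sInf_mem hne
      refine ⟨t, ht, fun r hr => ?_⟩
      rw [ht2]
      exact Nat.sInf_le ⟨r, hr, rfl⟩
    have hfx : ∀ r : X, (∀ f ∈ F₀, f • r = r) → ∀ f ∈ F₀, f • x • r = x • r := by
      intro r hr f hf
      have h1 : f • x • r = x • (x⁻¹ * f * x) • r := by
        rw [smul_smul, smul_smul]; congr 1; group
      rw [h1, hr _ (conj_inv hx hx2 hf)]
    by_cases hxt : x • t = t
    · refine ⟨t, ?_, ?_, ?_⟩
      all_goals
        have hall : ∀ g ∈ F₀ ⊔ Subgroup.zpowers x, g • t = t := by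
          intro g hgm
          rcases mem_sup hx hx2 hgm with hgm | ⟨f, hf, rfl⟩
          · exact htF g hgm
          · rw [mul_smul, hxt, htF f hf]
      · exact fun _ => hall
      · intro f hf
        rw [hall f hf, hg.self]
        exact Nat.zero_le _
      · intro f hf s hs hst _
        rw [hall f hf, h.cas.a_self s hs t (Ne.symm hst)]
        exact Nat.zero_le _
    · -- x swaps t and t'
      have htS' : x • t ∈ S := h.inS x t htS
      have htF' := hfx t htF
      have hxx : x • x • t = t := by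
        rw [smul_smul, ← sq]; exact htF _ hx2
      have hd2 : 2 ≤ d t (x • t) := by
        have h1 := dist_pos_of_ne hg (Ne.symm hxt)
        have h2 := h.cas.nadj t htS _ htS'
        omega
      have hang : ∀ r ∈ S, r ≠ t → r ≠ x • t → α r t (x • t) ≤ 4 * θ + 4 * e := by
        intro r hr hrt hrt'
        by_contra hcon
        have hrF : ∀ f ∈ F₀, f • r = r := by
          intro f hf
          have hpow : ∀ i : ℕ, f ^ i • t = t := fun i => htF _ (F₀.pow_mem hf i)
          have hpow' : ∀ i : ℕ, f ^ i • x • t = x • t := fun i => htF' _ (F₀.pow_mem hf i)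
          have hne1 : ∀ j : ℕ, f ^ j • r ≠ t := by
            intro j hj
            rw [← hpow j] at hj
            exact hrt (MulAction.injective _ hj)
          have hne2 : ∀ j : ℕ, f ^ j • r ≠ x • t := by
            intro j hj
            rw [← hpow' j] at hj
            exact hrt' (MulAction.injective _ hj)
          refine fixsep h f (hfin f hf) t (x • t) r hr θ le_rfl ?_ ?_ (by omega)
          · intro i j
            rw [hpow, hpow']
            exact ⟨hne1 j, hne2 j⟩
          · intro i j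
            have hjS := h.inS (f ^ j) r hr
            rw [hpow, hpow', h.cas.a_self _ hjS t (hne1 j).symm,
              h.cas.a_self _ hjS _ (hne2 j).symm]
            exact ⟨Nat.zero_le _, Nat.zero_le _⟩
        have hmin := htmin r ⟨hr, hrF⟩
        have hb := h.cas.k1 r hr t (x • t) hrt.symm hrt'.symm (by omega)
        have hxr1 := h.isom x r t
        have hxr2 := h.isom x r (x • t)
        rw [hxx] at hxr2
        have hxr3 := h.isom x t (x • t)
        rw [hxx] at hxr3
        have p1 := dist_pos_of_ne hg hrt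
        have p2 := dist_pos_of_ne hg hrt'
        have s1 := hg.symm r t
        have s2 := hg.symm t (x • r)
        have s3 := hg.symm t (x • t)
        have hbx : Btw d t (x • r) (x • t) := by
          unfold Btw at *
          omega
        rcases h.cas.k1' r hr t (x • t) (x • r) hrt.symm hrt'.symm (by omega) hbx with hk | hk
        · unfold Btw at *
          omega
        · have s4 := hg.symm r (x • r)
          unfold Btw at *
          omega
      obtain ⟨m, hmS, hm, hm1, hm2⟩ := exists_m (S := S) hg h.cas.nadj t (x • t) (Or.inr hd2)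
      -- images of m
      have himg : ∀ g ∈ F₀ ⊔ Subgroup.zpowers x, g • m ∉ S ∧ Btw d t (g • m) (x • t) ∧
          d m (g • m) ≤ 6 * δ + 5 * D + 2 := by
        intro g hgm
        have hgS : g • m ∉ S := fun hc => hmS ((hinS g m).1 hc)
        rcases mem_sup hx hx2 hgm with hgm | ⟨f, hf, rfl⟩
        · have h1 : Btw d t (g • m) (x • t) := by
            have i1 := h.isom g t m
            have i2 := h.isom g m (x • t)
            rw [htF g hgm] at i1
            rw [htF' g hgm] at i2
            unfold Btw at *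
            omega
          refine ⟨hgS, h1, ?_⟩
          have i1 := h.isom g t m
          rw [htF g hgm] at i1
          have := fat hg hδ hm h1
          omega
        · have e1 : (f * x) • t = x • t := by rw [mul_smul, htF' f hf]
          have e2 : (f * x) • x • t = t := by rw [mul_smul, hxx, htF f hf]
          have i1 := h.isom (f * x) t m
          have i2 := h.isom (f * x) m (x • t)
          rw [e1] at i1
          rw [e2] at i2
          have s1 := hg.symm (x • t) ((f * x) • m)
          have s2 := hg.symm t ((f * x) • m)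
          have h1 : Btw d t ((f * x) • m) (x • t) := by
            unfold Btw at *
            omega
          refine ⟨hgS, h1, ?_⟩
          have := fat hg hδ hm h1
          omega
      refine ⟨m, fun hc => absurd hc hmS, fun f hf => (himg f hf).2.2, ?_⟩
      intro f hf s hs hsm hsfm
      obtain ⟨hfS, hfb, -⟩ := himg f hf
      by_cases hst : s = t
      · subst hst
        have h1 := h.cas.k3 s hs m (x • s) hsm.symm hxt hm
        have h2 := h.cas.k3 s hs (f • m) (x • s) hsfm.symm hxt hfb
        have h3 := h.cas.a_tri s hs m (x • s) (f • m) hsm.symm hxt hsfm.symm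
        have h4 := h.cas.a_symm s hs (x • s) (f • m) hxt hsfm.symm
        omega
      · by_cases hst' : s = x • t
        · subst hst'
          have h1 := h.cas.k3 _ hs m t hsm.symm (Ne.symm hst) (hm.comm hg)
          have h2 := h.cas.k3 _ hs (f • m) t hsfm.symm (Ne.symm hst) (hfb.comm hg)
          have h3 := h.cas.a_tri _ hs m t (f • m) hsm.symm (Ne.symm hst) hsfm.symm
          have h4 := h.cas.a_symm _ hs t (f • m) (Ne.symm hst) hsfm.symm
          omega
        · have hC := hang s hs hst hst'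
          have h1 := small_part h.cas hs hmS hm (Ne.symm hst) (Ne.symm hst') hC
          have h2 := small_part h.cas hs hfS hfb (Ne.symm hst) (Ne.symm hst') hC
          have h3 := h.cas.a_tri s hs m t (f • m) hsm.symm (Ne.symm hst) hsfm.symm
          have h4 := h.cas.a_symm s hs t m (Ne.symm hst) hsm.symm
          omega
  · -- Case II
    obtain ⟨hp1, hp2, hp3⟩ := hp
    have hpS : p ∉ S := fun hc => hI ⟨p, hc, hp1 hc⟩
    have hqS : x • p ∉ S := fun hc => hpS ((hinS x p).1 hc)
    have hq2 : ∀ f ∈ F₀, d (x • p) (f • x • p) ≤ D := by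
      intro f hf
      have h1 : f • x • p = x • (x⁻¹ * f * x) • p := by
        rw [smul_smul, smul_smul]; congr 1; group
      rw [h1, h.isom]
      exact hp2 _ (conj_inv hx hx2 hf)
    have hneS : ∀ (y : X), y ∉ S → ∀ s ∈ S, s ≠ y := fun y hy s hs hc => hy (hc ▸ hs)
    have hp3' : ∀ f ∈ F₀, ∀ s ∈ S, α s p (f • p) ≤ A := by
      intro f hf s hs
      exact hp3 f hf s hs (hneS _ hpS s hs) (hneS _ (fun hc => hpS ((hinS f p).1 hc)) s hs)
    have hq3' : ∀ f ∈ F₀, ∀ s ∈ S, α s (x • p) (f • x • p) ≤ A := by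
      intro f hf s hs
      have h1 : f • x • p = x • (x⁻¹ * f * x) • p := by
        rw [smul_smul, smul_smul]; congr 1; group
      have hs' : x⁻¹ • s ∈ S := (hinS _ _).2 hs
      have h2 := h.a_inv x (x⁻¹ • s) hs' p ((x⁻¹ * f * x) • p) (hneS _ hpS _ hs').symm
        (hneS _ (fun hc => hpS ((hinS _ p).1 hc)) _ hs').symm
      rw [smul_inv_smul] at h2
      rw [h1, h2]
      exact hp3' _ (conj_inv hx hx2 hf) _ hs'
    have hang : ∀ s ∈ S, α s p (x • p) ≤ 3 * max A θ + 4 * e + θ := by
      intro s hs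
      by_contra hcon
      refine hI ⟨s, hs, fun f hf => ?_⟩
      refine fixsep h f (hfin f hf) p (x • p) s hs (max A θ) (le_max_right _ _) ?_ ?_ (by omega)
      · intro i j
        exact ⟨hneS _ (fun hc => hpS ((hinS _ p).1 hc)) _ ((hinS _ _).2 hs),
          hneS _ (fun hc => hqS ((hinS _ _).1 hc)) _ ((hinS _ _).2 hs)⟩
      · intro i j
        exact ⟨(hp3' _ (F₀.pow_mem hf i) _ ((hinS _ _).2 hs)).trans (le_max_left _ _),
          (hq3' _ (F₀.pow_mem hf i) _ ((hinS _ _).2 hs)).trans (le_max_left _ _)⟩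
    obtain ⟨m, hmS, hm, hm1, hm2⟩ := exists_m (S := S) hg h.cas.nadj p (x • p) (Or.inl hqS)
    have hpm : ∀ s ∈ S, α s p m ≤ (3 * max A θ + 4 * e + θ) + θ + e := fun s hs =>
      small_part h.cas hs hmS hm (hneS _ hpS s hs).symm (hneS _ hqS s hs).symm (hang s hs)
    have hqm : ∀ s ∈ S, α s (x • p) m ≤ (3 * max A θ + 4 * e + θ) + θ + e := by
      intro s hs
      refine small_part h.cas hs hmS (hm.comm hg) (hneS _ hqS s hs).symm (hneS _ hpS s hs).symm ?_
      rw [h.cas.a_symm s hs _ _ (hneS _ hqS s hs).symm (hneS _ hpS s hs).symm]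
      exact hang s hs
    refine ⟨m, fun hc => absurd hc hmS, ?_, ?_⟩
    · intro g hgm
      rcases mem_sup hx hx2 hgm with hgm | ⟨f, hf, rfl⟩
      · have hb : Btw d (g • p) (g • m) (g • x • p) := by
          unfold Btw at *
          rw [h.isom, h.isom, h.isom]; exact hm
        have := near_mid (K := 2) hg hδ (hp2 g hgm) (hq2 g hgm) hm hb
          (by rw [h.isom]; omega) (by rw [h.isom]; omega)
        exact this
      · have e1 : (f * x) • x • p = (f * x ^ 2) • p := by
          rw [smul_smul, mul_assoc, ← sq]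
        have e2 : (f * x) • p = f • x • p := by rw [mul_smul]
        have hb : Btw d ((f * x) • x • p) ((f * x) • m) ((f * x) • p) := by
          have := hm.comm hg
          unfold Btw at *
          rw [h.isom, h.isom, h.isom]; exact this
        have s1 := hg.symm m (x • p)
        have hd1 : d p ((f * x) • x • p) ≤ D := by
          rw [e1]; exact hp2 _ (F₀.mul_mem hf hx2)
        have hd2 : d (x • p) ((f * x) • p) ≤ D := by
          rw [e2]; exact hq2 _ hf
        exact near_mid (K := 2) hg hδ hd1 hd2 hm hb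
          (by rw [h.isom]; omega) (by rw [h.isom]; omega)
    · intro g hgm s hs hsm hsgm
      have hs' : g⁻¹ • s ∈ S := (hinS _ _).2 hs
      rcases mem_sup hx hx2 hgm with hgm | ⟨f, hf, hgf⟩
      · have h1 := h.a_inv g (g⁻¹ • s) hs' p m (hneS _ hpS _ hs').symm (hneS _ hmS _ hs').symm
        rw [smul_inv_smul] at h1
        have h2 := hpm _ hs'
        have h3 := hp3' g hgm s hs
        have h4 := hpm _ hs
        have hgp : g • p ≠ s := (hneS _ (fun hc => hpS ((hinS g p).1 hc)) s hs).symm
        have h5 := h.cas.a_tri s hs m p (g • m) hsm.symm (hneS _ hpS s hs).symm hsgm.symm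
        have h6 := h.cas.a_tri s hs p (g • p) (g • m) (hneS _ hpS s hs).symm hgp hsgm.symm
        have h7 := h.cas.a_symm s hs m p hsm.symm (hneS _ hpS s hs).symm
        omega
      · have h1 := h.a_inv g (g⁻¹ • s) hs' (x • p) m (hneS _ hqS _ hs').symm (hneS _ hmS _ hs').symm
        rw [smul_inv_smul] at h1
        have h2 := hqm _ hs'
        have e1 : g • x • p = (f * x ^ 2) • p := by
          rw [hgf, smul_smul, mul_assoc, ← sq]
        have h3 := hp3' (f * x ^ 2) (F₀.mul_mem hf hx2) s hs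
        rw [← e1] at h3
        have h4 := hpm _ hs
        have hgp : g • x • p ≠ s := (hneS _ (fun hc => hqS ((hinS g _).1 hc)) s hs).symm
        have h5 := h.cas.a_tri s hs m p (g • m) hsm.symm (hneS _ hpS s hs).symm hsgm.symm
        have h6 := h.cas.a_tri s hs p (g • x • p) (g • m) (hneS _ hpS s hs).symm hgp hsgm.symm
        have h7 := h.cas.a_symm s hs m p hsm.symm (hneS _ hpS s hs).symm
        omega

end Pool.Agent.Lib.MP_f1646b_al
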