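import Pool.Agent.Lib.MP_f1646b_al.Betw

/-!
# MP_f1646b_al, piece P18: `alpha_le`, `local_lift`, `inj_rad`
-/

set_option autoImplicit false

namespace Pool.Agent.Lib.MP_f1646b_al

theorem alpha_le {G : Type*} [Group G] {d : G → G → ℕ} {δ₀ : ℕ} (hH : HypMet G d δ₀)
    {E : Subgroup G} {ε τ : G → ℤ} {θ δ : ℕ} {α : Cone G E → Cone G E → Cone G E → ℕ}
    (hC : ConePkg d E ε τ θ δ α) (c : G ⧸ E) (g h : G) :
    α (Sum.inr c) (Sum.inl g) (Sum.inl h) ≤ θ * d g h := by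
  have hs : (Sum.inr c : Cone G E) ∈ Apx G E := ⟨c, rfl⟩
  have hne : ∀ g : G, (Sum.inl g : Cone G E) ≠ Sum.inr c := fun g => Sum.inl_ne_inr
  have key : ∀ k, ∀ g h : G, d g h = k → α (Sum.inr c) (Sum.inl g) (Sum.inl h) ≤ θ * k := by
    intro k
    induction k with
    | zero =>
      intro g h hgh
      have := hH.geo.eq_of g h hgh
      subst this
      rw [hC.act.cas.a_self _ hs _ (hne g)]
      exact Nat.zero_le _
    | succ k ih =>
      intro g h hgh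
      obtain ⟨w, hw1, hw2⟩ := hH.geo.geo g h 1 (by omega)
      have h1 := ih w h (by omega)
      have h2 : cd d E (Sum.inl g) (Sum.inl w) = 1 := (hC.adj_ll g w).2 hw1
      have h3 : α (Sum.inr c) (Sum.inl g) (Sum.inl w) ≤ θ :=
        CAS.small_adj hC.act.cas hs (hne g) (hne w) h2.le
      have h4 := hC.act.cas.a_tri _ hs _ _ _ (hne g) (hne w) (hne h)
      rw [Nat.mul_succ]
      omega
  exact key _ g h rfl

theorem local_lift {G : Type*} [Group G] {d : G → G → ℕ} {δ₀ : ℕ} (hH : HypMet G d δ₀)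
    {E : Subgroup G} {ε τ : G → ℤ} {θ δ : ℕ} {α : Cone G E → Cone G E → Cone G E → ℕ}
    (hC : ConePkg d E ε τ θ δ α) (D₀ A₀ : ℕ) :
    ∃ B, ∀ (n : ℕ) (z : G) (N : Subgroup G) [N.Normal] (D β), FillPkg d E θ δ n α z N D β →
      ∀ q : G ⧸ N, D (Sum.inl 1) (Sum.inl q) ≤ D₀ →
        (∀ c, β (Sum.inr c) (Sum.inl 1) (Sum.inl q) ≤ A₀) →
          ∃ g : G, (g : G ⧸ N) = q ∧ d 1 g ≤ B := by
  obtain ⟨B, hB⟩ := hC.lb D₀ (A₀ + 8 * θ)
  refine ⟨B, fun n z N _ D β hF q hq hβ => ?_⟩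
  obtain ⟨y, hy1, hy2, hy3⟩ := hF.q2 (Sum.inl 1) (Sum.inl q)
  have e1 : conePi E N (Sum.inl 1) = Sum.inl 1 := rfl
  rw [e1] at hy2 hy3
  rcases y with g | c
  · have e2 : (g : G ⧸ N) = q := Sum.inl_injective hy1
    refine ⟨g, e2, hB g (by rw [hy2]; exact hq) (fun c => ?_)⟩
    have h1 := hy3 (Sum.inr c) ⟨c, rfl⟩ Sum.inr_ne_inl Sum.inr_ne_inl
    obtain ⟨c', hc'⟩ : ∃ c', conePi E N (Sum.inr c) = Sum.inr c' := ⟨_, rfl⟩
    rw [hc'] at h1
    have h2 := hβ c'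
    omega
  · exact absurd hy1 (by intro hc; cases hc)

theorem inj_rad {G : Type*} [Group G] {d : G → G → ℕ} {δ₀ : ℕ} (hH : HypMet G d δ₀)
    {E : Subgroup G} {ε τ : G → ℤ} {θ δ : ℕ} {α : Cone G E → Cone G E → Cone G E → ℕ}
    (hC : ConePkg d E ε τ θ δ α) {n : ℕ} {z : G} {N : Subgroup G} [N.Normal] {D β}
    (hF : FillPkg d E θ δ n α z N D β) (g : G) (hg : g ∈ N) (hn : θ * d 1 g < n) : g = 1 := by
  by_contra hne
  have e1 : g • (Sum.inl 1 : Cone G E) = Sum.inl g := by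
    rw [Sum.smul_inl, smul_eq_mul, mul_one]
  obtain ⟨a, -, -, h1, -⟩ := hF.q3 g hg (Sum.inl 1) (by
    rw [e1]; intro hc; exact hne (Sum.inl_injective hc))
  rw [e1] at h1
  have h2 := alpha_le hH hC (a : G ⧸ E) 1 g
  omega

end Pool.Agent.Lib.MP_f1646b_al
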