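import Pool.Agent.Lib.MP_f1646b_al.Betw

set_option autoImplicit false

namespace Pool.Agent.Lib.MP_f1646b_al

namespace P19

variable {G : Type*} [Group G] {E : Subgroup G} {ε τ : G → ℤ} {y0 : G}

theorem eps_one (hE : EData E ε τ y0) : ε 1 = 1 := by
  have h := hE.eps_mul 1 E.one_mem 1 E.one_mem
  rw [mul_one] at h
  rcases hE.eps_sq 1 E.one_mem with h1 | h1
  · exact h1
  · rw [h1] at h; norm_num at h

theorem tau_one (hE : EData E ε τ y0) : τ 1 = 0 := by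
  have h := hE.tau_mul 1 E.one_mem 1 E.one_mem
  rw [mul_one, eps_one hE] at h
  omega

theorem eps_inv (hE : EData E ε τ y0) {e : G} (he : e ∈ E) : ε e⁻¹ = ε e := by
  have h := hE.eps_mul e he e⁻¹ (E.inv_mem he)
  rw [mul_inv_cancel, eps_one hE] at h
  rcases hE.eps_sq e he with h1 | h1 <;> rw [h1] at h ⊢ <;> omega

theorem tau_inv (hE : EData E ε τ y0) {e : G} (he : e ∈ E) : τ e⁻¹ = - ε e * τ e := by
  have h := hE.tau_mul e⁻¹ (E.inv_mem he) e he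
  rw [inv_mul_cancel, tau_one hE, eps_inv hE he] at h
  linarith

theorem pow_data (hE : EData E ε τ y0) {e : G} (he : e ∈ E) (h1 : ε e = 1) (m : ℕ) :
    e ^ m ∈ E ∧ ε (e ^ m) = 1 ∧ τ (e ^ m) = m * τ e := by
  induction m with
  | zero => simp [eps_one hE, tau_one hE, E.one_mem]
  | succ m ih =>
    obtain ⟨ha, hb, hc⟩ := ih
    refine ⟨E.pow_mem he _, ?_, ?_⟩
    · rw [pow_succ, hE.eps_mul _ ha _ he, hb, h1]; norm_num
    · rw [pow_succ, hE.tau_mul _ ha _ he, hb, hc]; push_cast; ring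

theorem zpow_data (hE : EData E ε τ y0) {e : G} (he : e ∈ E) (h1 : ε e = 1) (m : ℤ) :
    e ^ m ∈ E ∧ ε (e ^ m) = 1 ∧ τ (e ^ m) = m * τ e := by
  obtain ⟨k, rfl | rfl⟩ := m.eq_nat_or_neg
  · have := pow_data hE he h1 k
    simpa using this
  · obtain ⟨ha, hb, hc⟩ := pow_data hE he h1 k
    rw [zpow_neg, zpow_natCast]
    refine ⟨E.inv_mem ha, ?_, ?_⟩
    · rw [eps_inv hE ha, hb]
    · rw [tau_inv hE ha, hb, hc]; ring

/-- data of the powers of `z = y0 ^ n` -/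
theorem z_data (hE : EData E ε τ y0) (n : ℕ) (i : ℤ) :
    (y0 ^ n) ^ i ∈ E ∧ ε ((y0 ^ n) ^ i) = 1 ∧ τ ((y0 ^ n) ^ i) = n * i := by
  obtain ⟨ha, hb, hc⟩ := pow_data hE hE.y0_mem hE.eps_y0 n
  obtain ⟨ha', hb', hc'⟩ := zpow_data hE ha hb i
  refine ⟨ha', hb', ?_⟩
  rw [hc', hc, hE.tau_y0]; ring

/-- the torsion elements of `E` of sign `+` are squares-one -/
theorem refl_comm (hE : EData E ε τ y0) {k r : G} (hk : k ∈ E) (hk1 : ε k = 1) (hk0 : τ k = 0)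
    (hr : r ∈ E) (hr1 : ε r = -1) : k * r = r * k := by
  have h1 : k ^ 2 = 1 := hE.ker_sq k hk hk1 hk0
  have h2 : r ^ 2 = 1 := hE.refl_sq r hr hr1
  have h3 : (k * r) ^ 2 = 1 := by
    apply hE.refl_sq _ (E.mul_mem hk hr)
    rw [hE.eps_mul k hk r hr, hk1, hr1]; norm_num
  have h4 : k⁻¹ = k := by
    rw [inv_eq_iff_mul_eq_one, ← pow_two]; exact h1
  have h5 : r⁻¹ = r := by
    rw [inv_eq_iff_mul_eq_one, ← pow_two]; exact h2
  have h6 : (k * r)⁻¹ = k * r := by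
    rw [inv_eq_iff_mul_eq_one, ← pow_two]; exact h3
  rw [mul_inv_rev, h4, h5] at h6
  exact h6.symm

theorem ker_comm (hE : EData E ε τ y0) {k l : G} (hk : k ∈ E) (hk1 : ε k = 1) (hk0 : τ k = 0)
    (hl : l ∈ E) (hl1 : ε l = 1) (hl0 : τ l = 0) : k * l = l * k := by
  have h1 : k ^ 2 = 1 := hE.ker_sq k hk hk1 hk0
  have h2 : l ^ 2 = 1 := hE.ker_sq l hl hl1 hl0
  have h3 : (k * l) ^ 2 = 1 := by
    apply hE.ker_sq _ (E.mul_mem hk hl)
    · rw [hE.eps_mul k hk l hl, hk1, hl1]; norm_num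
    · rw [hE.tau_mul k hk l hl, hk1, hk0, hl0]; norm_num
  have h4 : k⁻¹ = k := by
    rw [inv_eq_iff_mul_eq_one, ← pow_two]; exact h1
  have h5 : l⁻¹ = l := by
    rw [inv_eq_iff_mul_eq_one, ← pow_two]; exact h2
  have h6 : (k * l)⁻¹ = k * l := by
    rw [inv_eq_iff_mul_eq_one, ← pow_two]; exact h3
  rw [mul_inv_rev, h4, h5] at h6
  exact h6.symm

/-- `K` contains no frame if there is a reflection -/
theorem noR (hA : AInv G) (hE : EData E ε τ y0) {u v r : G} (hu : u ∈ E) (hu1 : ε u = 1)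
    (hu0 : τ u = 0) (hv : v ∈ E) (hv1 : ε v = 1) (hv0 : τ v = 0) (hr : r ∈ E) (hr1 : ε r = -1)
    (hune : u ≠ 1) (hvne : v ≠ 1) (huv : u ≠ v) : False := by
  have hF : Frame u v := ⟨hE.ker_sq u hu hu1 hu0, hE.ker_sq v hv hv1 hv0,
    ker_comm hE hu hu1 hu0 hv hv1 hv0, hune, hvne, huv⟩
  rcases hA.i2 u v r hF (hE.refl_sq r hr hr1) (refl_comm hE hu hu1 hu0 hr hr1)
    (refl_comm hE hv hv1 hv0 hr hr1) with h | h | h | h
  · rw [h, eps_one hE] at hr1; norm_num at hr1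
  · rw [h, hu1] at hr1; norm_num at hr1
  · rw [h, hv1] at hr1; norm_num at hr1
  · rw [h, hE.eps_mul u hu v hv, hu1, hv1] at hr1; norm_num at hr1

end P19

open P19

theorem e_inter {G : Type*} [Group G] {d : G → G → ℕ} {δ₀ : ℕ} (hH : HypMet G d δ₀)
    {E : Subgroup G} {ε τ : G → ℤ} {y0 : G} (hE : EData E ε τ y0) {θ δ n : ℕ}
    {α : Cone G E → Cone G E → Cone G E → ℕ} (hC : ConePkg d E ε τ θ δ α) (hodd : Odd n)
    (N : Subgroup G) [N.Normal] {D β} (hF : FillPkg d E θ δ n α (y0 ^ n) N D β) (e : G)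
    (he : e ∈ E) (heN : e ∈ N) : ∃ i : ℤ, e = (y0 ^ n) ^ i := by
  classical
  obtain ⟨m, hm⟩ := hodd
  have hnpos : 0 < n := by omega
  have hzN : y0 ^ n ∈ N := by
    rw [hF.nc]; exact Subgroup.subset_normalClosure rfl
  -- choose the power
  have hchoose : ∃ i : ℤ, 2 * ((n : ℤ) * i + τ e).natAbs < n := by
    refine ⟨-((τ e + m) / n), ?_⟩
    have h1 := Int.emod_add_mul_ediv (τ e + m) n
    have h2 := Int.emod_nonneg (τ e + m) (b := (n : ℤ)) (by omega)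
    have h3 := Int.emod_lt_of_pos (τ e + m) (b := (n : ℤ)) (by omega)
    have h4 : (n : ℤ) * -((τ e + m) / n) + τ e = (τ e + m) % n - m := by linarith
    rw [h4]
    omega
  obtain ⟨i, hi⟩ := hchoose
  obtain ⟨hz1, hz2, hz3⟩ := z_data hE n i
  set e' : G := (y0 ^ n) ^ i * e with he'
  have he'E : e' ∈ E := E.mul_mem hz1 he
  have he'N : e' ∈ N := N.mul_mem (N.zpow_mem hzN i) heN
  have hτ : τ e' = n * i + τ e := by
    rw [he', hE.tau_mul _ hz1 _ he, hz2, hz3, one_mul]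
  by_cases hone : e' = 1
  · refine ⟨-i, ?_⟩
    rw [zpow_neg, eq_inv_iff_mul_eq_one]
    have h5 : ((y0 ^ n) ^ i * e) = 1 := hone
    exact mul_eq_one_comm.mp h5
  exfalso
  have hmove : e' • (Sum.inl 1 : Cone G E) ≠ Sum.inl 1 := by
    intro h
    have h1 : (Sum.inl (e' * 1) : Cone G E) = Sum.inl 1 := h
    rw [mul_one] at h1
    exact hone (Sum.inl_injective h1)
  have hsm : e' • (Sum.inl 1 : Cone G E) = Sum.inl e' := by
    change (Sum.inl (e' * 1) : Cone G E) = Sum.inl e'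
    rw [mul_one]
  obtain ⟨a, ha1, ha2, ha3, -⟩ := hF.q3 e' he'N (Sum.inl 1) hmove
  rw [hsm] at ha2 ha3
  have hlarge := hF.large
  by_cases hs : (Sum.inr (a : G ⧸ E) : Cone G E) = Sum.inr ((1 : G) : G ⧸ E)
  · rw [hs, hC.pos e' he'E, hτ] at ha3
    omega
  · have hmem : (Sum.inr (a : G ⧸ E) : Cone G E) ∈ Apx G E := ⟨_, rfl⟩
    have hc := hC.act.cas
    have h1 := hc.a_tri _ hmem (Sum.inl 1) (Sum.inr ((1 : G) : G ⧸ E)) (Sum.inl e')
      (by simp) (fun h => hs h.symm) (by simp)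
    have h2 : cd d E (Sum.inl 1) (Sum.inr ((1 : G) : G ⧸ E)) = 1 := (hC.adj_lr _ _).2 rfl
    have h3 : cd d E (Sum.inl e') (Sum.inr ((1 : G) : G ⧸ E)) = 1 := by
      refine (hC.adj_lr _ _).2 ?_
      rw [QuotientGroup.eq]
      simpa using E.inv_mem he'E
    have h4 := hc.small_adj hmem (x := Sum.inl 1) (y := Sum.inr ((1 : G) : G ⧸ E)) (by simp)
      (fun h => hs h.symm) (le_of_eq h2)
    have h5 := hc.small_adj hmem (x := Sum.inr ((1 : G) : G ⧸ E)) (y := Sum.inl e')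
      (fun h => hs h.symm) (by simp) (by rw [hc.geo.symm]; exact le_of_eq h3)
    omega

namespace P19

variable {G : Type*} [Group G] {E : Subgroup G} {ε τ : G → ℤ} {y0 : G}

/-- an element of sign `+` whose translation is divisible by `n` has a lift in `K` -/
theorem to_ker (hE : EData E ε τ y0) (n : ℕ) (N : Subgroup G) [N.Normal] (hz : y0 ^ n ∈ N)
    {e : G} (he : e ∈ E) (h1 : ε e = 1) (h2 : (n : ℤ) ∣ τ e) :
    ∃ k ∈ E, ε k = 1 ∧ τ k = 0 ∧ (k : G ⧸ N) = e := by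
  obtain ⟨i, hi⟩ := h2
  obtain ⟨hz1, hz2, hz3⟩ := z_data hE n (-i)
  refine ⟨(y0 ^ n) ^ (-i) * e, E.mul_mem hz1 he, ?_, ?_, ?_⟩
  · rw [hE.eps_mul _ hz1 _ he, hz2, h1]; norm_num
  · rw [hE.tau_mul _ hz1 _ he, hz2, hz3, hi]; ring
  · rw [QuotientGroup.mk_mul]
    have : (((y0 ^ n) ^ (-i) : G) : G ⧸ N) = 1 := by
      rw [QuotientGroup.eq_one_iff]
      exact N.zpow_mem hz _
    rw [this, one_mul]

theorem to_ker_pow (hE : EData E ε τ y0) (n : ℕ) (N : Subgroup G) [N.Normal] (hz : y0 ^ n ∈ N)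
    (hEN : ∀ e ∈ E, e ∈ N → ∃ i : ℤ, e = (y0 ^ n) ^ i) (m : ℕ) (hm : Nat.Coprime m n)
    {e : G} (he : e ∈ E) (h1 : ε e = 1) (h2 : (e : G ⧸ N) ^ m = 1) :
    ∃ k ∈ E, ε k = 1 ∧ τ k = 0 ∧ (k : G ⧸ N) = e := by
  apply to_ker hE n N hz he h1
  have h3 : e ^ m ∈ N := by
    rw [← QuotientGroup.eq_one_iff, QuotientGroup.mk_pow]; exact h2
  obtain ⟨ha, hb, hc⟩ := pow_data hE he h1 m
  obtain ⟨i, hi⟩ := hEN _ ha h3
  have h4 : (m : ℤ) * τ e = n * i := by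
    rw [← hc, hi, (z_data hE n i).2.2]
  have h5 : IsCoprime (n : ℤ) (m : ℤ) := by
    rw [Nat.isCoprime_iff_coprime]; exact hm.symm
  exact h5.dvd_of_dvd_mul_left ⟨i, h4⟩

end P19

theorem ebar_alg {G : Type*} [Group G] (hA : AInv G) {E : Subgroup G} {ε τ : G → ℤ} {y0 : G}
    (hE : EData E ε τ y0) (n : ℕ) (hodd : Odd n) (h3 : 3 ∣ n) (N : Subgroup G) [N.Normal]
    (hz : y0 ^ n ∈ N) (hEN : ∀ e ∈ E, e ∈ N → ∃ i : ℤ, e = (y0 ^ n) ^ i) :
    (∀ x ∈ E.map (QuotientGroup.mk' N), x ^ 4 = 1 → x ^ 2 = 1) ∧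
    (∀ a ∈ E.map (QuotientGroup.mk' N), ∀ b ∈ E.map (QuotientGroup.mk' N),
      ∀ c ∈ E.map (QuotientGroup.mk' N), Frame a b → c ^ 2 = 1 → a * c = c * a → b * c = c * b →
        c = 1 ∨ c = a ∨ c = b ∨ c = a * b) ∧
    (∀ x ∈ E.map (QuotientGroup.mk' N), x ≠ 1 → Odd (orderOf x) →
      ∃ e ∈ E, (e : G ⧸ N) = x ∧ ε e = 1 ∧ ¬ (n : ℤ) ∣ τ e) ∧
    (∀ x ∈ E.map (QuotientGroup.mk' N), x ^ 2 = 1 → ∃ e ∈ E, (e : G ⧸ N) = x ∧ e ^ 2 = 1) := by
  have hnpos : 0 < n := hodd.pos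
  have hc2 : Nat.Coprime 2 n := (Nat.coprime_two_left).2 hodd
  have hc4 : Nat.Coprime 4 n := by
    have : (4 : ℕ) = 2 ^ 2 := by norm_num
    rw [this]; exact Nat.Coprime.pow_left 2 hc2
  -- lifts
  have P4 : ∀ e ∈ E, (e : G ⧸ N) ^ 4 = 1 →
      (∃ k ∈ E, ε k = 1 ∧ τ k = 0 ∧ (k : G ⧸ N) = e) ∨ ε e = -1 := by
    intro e he h
    rcases hE.eps_sq e he with h1 | h1
    · exact Or.inl (to_ker_pow hE n N hz hEN 4 hc4 he h1 h)
    · exact Or.inr h1
  have sq_of_refl : ∀ e ∈ E, ε e = -1 → (e : G ⧸ N) ^ 2 = 1 := by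
    intro e he h1
    rw [← QuotientGroup.mk_pow, hE.refl_sq e he h1]; rfl
  have sq_of_ker : ∀ k ∈ E, ε k = 1 → τ k = 0 → (k : G ⧸ N) ^ 2 = 1 := by
    intro e he h1 h2
    rw [← QuotientGroup.mk_pow, hE.ker_sq e he h1 h2]; rfl
  refine ⟨?_, ?_, ?_, ?_⟩
  · rintro x ⟨e, he, rfl⟩ hx
    rcases P4 e he hx with ⟨k, hk, hk1, hk0, hke⟩ | h1
    · change (e : G ⧸ N) ^ 2 = 1
      rw [← hke]; exact sq_of_ker k hk hk1 hk0
    · exact sq_of_refl e he h1
  · -- three commuting involutions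
    intro a ha b hb c hc hab hcc hac hbc
    -- types
    let P : G ⧸ N → Prop := fun x => ∃ k ∈ E, ε k = 1 ∧ τ k = 0 ∧ (k : G ⧸ N) = x
    let M : G ⧸ N → Prop := fun x => ∃ r ∈ E, ε r = -1 ∧ (r : G ⧸ N) = x
    have typ : ∀ x ∈ E.map (QuotientGroup.mk' N), x ^ 2 = 1 → P x ∨ M x := by
      rintro x ⟨e, he, rfl⟩ hx
      rcases hE.eps_sq e he with h1 | h1
      · exact Or.inl (to_ker_pow hE n N hz hEN 2 hc2 he h1 hx)
      · exact Or.inr ⟨e, he, h1, rfl⟩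
    have MM : ∀ x y, M x → M y → (x * y) ^ 2 = 1 → P (x * y) := by
      rintro x y ⟨r, hr, hr1, rfl⟩ ⟨s, hs, hs1, rfl⟩ hxy
      refine to_ker_pow hE n N hz hEN 2 hc2 (E.mul_mem hr hs) ?_ ?_
      · rw [hE.eps_mul _ hr _ hs, hr1, hs1]; norm_num
      · exact hxy
    have key : ∀ u v r, P u → P v → M r → u ≠ 1 → v ≠ 1 → u ≠ v → False := by
      rintro u v r ⟨k, hk, hk1, hk0, rfl⟩ ⟨l, hl, hl1, hl0, rfl⟩ ⟨s, hs, hs1, rfl⟩ h1 h2 h3
      refine noR hA hE hk hk1 hk0 hl hl1 hl0 hs hs1 ?_ ?_ ?_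
      · rintro rfl; exact h1 rfl
      · rintro rfl; exact h2 rfl
      · rintro rfl; exact h3 rfl
    have sqm : ∀ x y : G ⧸ N, x ^ 2 = 1 → y ^ 2 = 1 → x * y = y * x → (x * y) ^ 2 = 1 := by
      intro x y hx hy hxy
      rw [(show Commute x y from hxy).mul_pow, hx, hy, one_mul]
    have inv2 : ∀ x : G ⧸ N, x ^ 2 = 1 → x⁻¹ = x := by
      intro x hx
      rw [inv_eq_iff_mul_eq_one, ← pow_two]; exact hx
    obtain ⟨ha2, hb2, habc, ha1, hb1, habne⟩ := hab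
    by_contra hcon
    push Not at hcon
    obtain ⟨hc1, hca, hcb, hcab⟩ := hcon
    have hab1 : a * b ≠ 1 := by
      intro h
      have := eq_inv_of_mul_eq_one_left h
      rw [inv2 b hb2] at this
      exact habne this
    have hac1 : a * c ≠ 1 := by
      intro h
      have := eq_inv_of_mul_eq_one_left h
      rw [inv2 c hcc] at this
      exact hca this.symm
    have hbc1 : b * c ≠ 1 := by
      intro h
      have := eq_inv_of_mul_eq_one_left h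
      rw [inv2 c hcc] at this
      exact hcb this.symm
    have haa : a * a = 1 := by rw [← pow_two]; exact ha2
    have hbb : b * b = 1 := by rw [← pow_two]; exact hb2
    have h1 : a ≠ b * c := by
      intro h
      apply hcab
      rw [h, hbc, mul_assoc, hbb, mul_one]
    have h2 : a * c ≠ b := by
      intro h
      apply hcab
      rw [← h, ← mul_assoc, haa, one_mul]
    have h3' : a * b ≠ a * c := by
      intro h
      exact hcb (mul_left_cancel h).symm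
    rcases typ a ha ha2 with pa | ma <;> rcases typ b hb hb2 with pb | mb <;>
      rcases typ c hc hcc with pc | mc
    · -- all in the kernel
      obtain ⟨k, hk, hk1, hk0, rfl⟩ := pa
      obtain ⟨l, hl, hl1, hl0, rfl⟩ := pb
      obtain ⟨s, hs, hs1, hs0, rfl⟩ := pc
      rcases hA.i2 k l s ⟨hE.ker_sq k hk hk1 hk0, hE.ker_sq l hl hl1 hl0,
        ker_comm hE hk hk1 hk0 hl hl1 hl0, fun h => ha1 (by rw [h]; rfl),
        fun h => hb1 (by rw [h]; rfl), fun h => habne (by rw [h])⟩ (hE.ker_sq s hs hs1 hs0)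
        (ker_comm hE hk hk1 hk0 hs hs1 hs0) (ker_comm hE hl hl1 hl0 hs hs1 hs0) with h | h | h | h
      · exact hc1 (by rw [h]; rfl)
      · exact hca (by rw [h])
      · exact hcb (by rw [h])
      · exact hcab (by rw [h]; rfl)
    · exact key a b c pa pb mc ha1 hb1 habne
    · exact key a c b pa pc mb ha1 hc1 hca.symm
    · exact key a (b * c) c pa (MM b c mb mc (sqm b c hb2 hcc hbc)) mc ha1 hbc1 h1
    · exact key b c a pb pc ma hb1 hc1 hcb.symm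
    · exact key (a * c) b c (MM a c ma mc (sqm a c ha2 hcc hac)) pb mc hac1 hb1 h2
    · exact key (a * b) c a (MM a b ma mb (sqm a b ha2 hb2 habc)) pc ma hab1 hc1 hcab.symm
    · exact key (a * b) (a * c) c (MM a b ma mb (sqm a b ha2 hb2 habc))
        (MM a c ma mc (sqm a c ha2 hcc hac)) mc hab1 hac1 h3'
  · rintro x ⟨e, he, rfl⟩ hx1 hxo
    have hno : ((QuotientGroup.mk' N) e) ^ 2 ≠ 1 := by
      intro h
      have h1 : orderOf ((QuotientGroup.mk' N) e) ∣ 2 := orderOf_dvd_of_pow_eq_one h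
      have h2 := (Nat.dvd_prime Nat.prime_two).1 h1
      rcases h2 with h2 | h2
      · exact hx1 (orderOf_eq_one_iff.1 h2)
      · rw [h2] at hxo; exact absurd hxo (by decide)
    rcases hE.eps_sq e he with h1 | h1
    · refine ⟨e, he, rfl, h1, ?_⟩
      intro hdvd
      obtain ⟨k, hk, hk1, hk0, hke⟩ := to_ker hE n N hz he h1 hdvd
      apply hno
      change (e : G ⧸ N) ^ 2 = 1
      rw [← hke]; exact sq_of_ker k hk hk1 hk0
    · exact absurd (sq_of_refl e he h1) hno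
  · rintro x ⟨e, he, rfl⟩ hx
    rcases hE.eps_sq e he with h1 | h1
    · obtain ⟨k, hk, hk1, hk0, hke⟩ := to_ker_pow hE n N hz hEN 2 hc2 he h1 hx
      exact ⟨k, hk, hke, hE.ker_sq k hk hk1 hk0⟩
    · exact ⟨e, he, rfl, hE.refl_sq e he h1⟩

end Pool.Agent.Lib.MP_f1646b_al
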