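import Pool.Agent.Lib.MP_f1646b_al.P17
import Pool.Agent.Lib.MP_f1646b_al.P18
import Pool.Agent.Lib.MP_f1646b_al.P19

/-!
# MP_f1646b_al, piece P20 : the invariants i1 and i2 of the quotient (helper79)
-/

set_option autoImplicit false

namespace Pool.Agent.Lib.MP_f1646b_al
namespace P20

section Gen
variable {H : Type*} [Group H]

theorem finite_sup {F₀ : Subgroup H} (hF : Finite F₀) {x : H} (hx : ∀ f ∈ F₀, x * f * x⁻¹ ∈ F₀)
    (hx2 : x ^ 2 ∈ F₀) : Finite ↥(F₀ ⊔ Subgroup.zpowers x) := by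
  have h1 : ((F₀ ⊔ Subgroup.zpowers x : Subgroup H) : Set H) ⊆
      (F₀ : Set H) ∪ (fun f => f * x) '' (F₀ : Set H) := by
    intro g hg
    rcases P17.mem_sup hx hx2 hg with h | ⟨f, hf, rfl⟩
    · exact Or.inl h
    · exact Or.inr ⟨f, hf, rfl⟩
  have h2 : (F₀ : Set H).Finite := Set.toFinite _
  exact ((h2.union (h2.image _)).subset h1).to_subtype

/-- commuting elements normalise -/
theorem norm_of_comm {F₀ : Subgroup H} {x : H} (h : ∀ f ∈ F₀, x * f = f * x) :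
    ∀ f ∈ F₀, x * f * x⁻¹ ∈ F₀ := by
  intro f hf
  rw [h f hf, mul_inv_cancel_right]
  exact hf

theorem comm_sup {F₀ : Subgroup H} {x y : H} (h : ∀ f ∈ F₀, x * f = f * x) (hy : x * y = y * x) :
    ∀ f ∈ F₀ ⊔ Subgroup.zpowers y, x * f = f * x := by
  have h1 : F₀ ⊔ Subgroup.zpowers y ≤ Subgroup.centralizer {x} := by
    refine sup_le (fun f hf => ?_) ?_
    · rw [Subgroup.mem_centralizer_singleton_iff]
      exact (h f hf).symm
    · rw [Subgroup.zpowers_le, Subgroup.mem_centralizer_singleton_iff]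
      exact hy.symm
  intro f hf
  have := h1 hf
  rw [Subgroup.mem_centralizer_singleton_iff] at this
  exact this.symm

theorem comm_bot {x : H} : ∀ f ∈ (⊥ : Subgroup H), x * f = f * x := by
  intro f hf
  rw [Subgroup.mem_bot.1 hf, mul_one, one_mul]

end Gen

variable {G : Type*} [Group G] {d : G → G → ℕ} {E : Subgroup G} {θ δ n : ℕ}
  {α : Cone G E → Cone G E → Cone G E → ℕ} {z : G} {N : Subgroup G} [N.Normal]
  {D : Cone (G ⧸ N) (E.map (QuotientGroup.mk' N)) → Cone (G ⧸ N) (E.map (QuotientGroup.mk' N)) → ℕ}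
  {β : Cone (G ⧸ N) (E.map (QuotientGroup.mk' N)) → Cone (G ⧸ N) (E.map (QuotientGroup.mk' N)) →
      Cone (G ⧸ N) (E.map (QuotientGroup.mk' N)) → ℕ}

/-- the two cases: a group with a good point is conjugate into the image of `E` or lifts -/
theorem cases {D₂ A₂ B : ℕ} (hF : FillPkg d E θ δ n α z N D β)
    (hB : ∀ q : G ⧸ N, D (Sum.inl 1) (Sum.inl q) ≤ D₂ →
        (∀ c, β (Sum.inr c) (Sum.inl 1) (Sum.inl q) ≤ A₂) → ∃ g : G, (g : G ⧸ N) = q ∧ d 1 g ≤ B)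
    (F : Subgroup (G ⧸ N)) (p : Cone (G ⧸ N) (E.map (QuotientGroup.mk' N)))
    (hp : Good D (Apx (G ⧸ N) (E.map (QuotientGroup.mk' N))) β F D₂ A₂ p) :
    ∃ q : G ⧸ N, (∀ f ∈ F, q⁻¹ * f * q ∈ E.map (QuotientGroup.mk' N)) ∨
      ∀ f ∈ F, ∃ g : G, (g : G ⧸ N) = q⁻¹ * f * q ∧ d 1 g ≤ B := by
  obtain ⟨h1, h2, h3⟩ := hp
  rcases p with q | c
  · refine ⟨q, Or.inr fun f hf => hB _ ?_ fun c => ?_⟩
    · have e1 := hF.act.isom q (Sum.inl 1) (Sum.inl (q⁻¹ * f * q))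
      have e2 : q • (Sum.inl 1 : Cone (G ⧸ N) (E.map (QuotientGroup.mk' N))) = Sum.inl q := by
        show Sum.inl (q * 1) = _
        rw [mul_one]
      have e3 : q • (Sum.inl (q⁻¹ * f * q) : Cone (G ⧸ N) (E.map (QuotientGroup.mk' N))) =
          f • Sum.inl q := by
        show Sum.inl (q * (q⁻¹ * f * q)) = Sum.inl (f * q)
        congr 1; group
      rw [← e1, e2, e3]
      exact h2 f hf
    · have e1 := hF.act.a_inv q (Sum.inr c) ⟨c, rfl⟩ (Sum.inl 1) (Sum.inl (q⁻¹ * f * q))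
        (by simp) (by simp)
      have e2 : q • (Sum.inl 1 : Cone (G ⧸ N) (E.map (QuotientGroup.mk' N))) = Sum.inl q := by
        show Sum.inl (q * 1) = _
        rw [mul_one]
      have e3 : q • (Sum.inl (q⁻¹ * f * q) : Cone (G ⧸ N) (E.map (QuotientGroup.mk' N))) =
          f • Sum.inl q := by
        show Sum.inl (q * (q⁻¹ * f * q)) = Sum.inl (f * q)
        congr 1; group
      rw [← e1, e2, e3]
      refine h3 f hf _ ⟨q • c, rfl⟩ ?_ ?_
      · show Sum.inr (q • c) ≠ Sum.inl q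
        simp
      · show Sum.inr (q • c) ≠ Sum.inl (f * q)
        simp
  · obtain ⟨q, rfl⟩ := QuotientGroup.mk_surjective c
    refine ⟨q, Or.inl fun f hf => ?_⟩
    have h4 := h1 ⟨_, rfl⟩ f hf
    have h5 : ((f * q : G ⧸ N) : (G ⧸ N) ⧸ (E.map (QuotientGroup.mk' N))) = q := by
      have h6 : (Sum.inr ((f * q : G ⧸ N) : (G ⧸ N) ⧸ (E.map (QuotientGroup.mk' N))) :
        Cone (G ⧸ N) (E.map (QuotientGroup.mk' N))) = Sum.inr q := h4
      exact Sum.inr_injective h6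
    have h6 := QuotientGroup.eq.1 h5.symm
    rwa [← mul_assoc] at h6

theorem good_bot (hF : FillPkg d E θ δ n α z N D β) :
    Good D (Apx (G ⧸ N) (E.map (QuotientGroup.mk' N))) β (⊥ : Subgroup (G ⧸ N)) 0 0
      (Sum.inl 1) := by
  refine ⟨?_, ?_, ?_⟩
  · rintro ⟨c, hc⟩
    simp at hc
  · intro f hf
    rw [Subgroup.mem_bot.1 hf, one_smul, hF.act.cas.geo.self]
  · intro f hf s hs h1 h2
    rw [Subgroup.mem_bot.1 hf, one_smul, hF.act.cas.a_self s hs _ h1.symm]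

end P20

open P20 in
theorem quot_i12 {G : Type*} [Group G] {d : G → G → ℕ} {δ₀ : ℕ} (hH : HypMet G d δ₀)
    (hA : AInv G) {E : Subgroup G} {ε τ : G → ℤ} {y0 : G} (hE : EData E ε τ y0) {θ δ : ℕ}
    {α : Cone G E → Cone G E → Cone G E → ℕ} (hC : ConePkg d E ε τ θ δ α) :
    ∃ n₀, ∀ n, n₀ ≤ n → Odd n → 3 ∣ n → ∀ (N : Subgroup G) [N.Normal] (D β),
      FillPkg d E θ δ n α (y0 ^ n) N D β →
      (∀ x : G ⧸ N, x ^ 4 = 1 → x ^ 2 = 1) ∧
      ∀ a b c : G ⧸ N, Frame a b → c ^ 2 = 1 → a * c = c * a → b * c = c * b →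
        c = 1 ∨ c = a ∨ c = b ∨ c = a * b := by
  obtain ⟨D₁, A₁, hm1⟩ := mid δ θ (4 * θ) 0 0
  obtain ⟨D₂, A₂, hm2⟩ := mid δ θ (4 * θ) D₁ A₁
  obtain ⟨D₃, A₃, hm3⟩ := mid δ θ (4 * θ) D₂ A₂
  obtain ⟨B₂, hB₂⟩ := local_lift hH hC D₂ A₂
  obtain ⟨B₃, hB₃⟩ := local_lift hH hC D₃ A₃
  refine ⟨θ * (4 * B₂) + θ * (4 * B₃) + 1, ?_⟩
  intro n hn hodd h3 N hN D β hF
  have hz : y0 ^ n ∈ N := by
    rw [hF.nc]
    exact Subgroup.subset_normalClosure rfl
  have halg := ebar_alg hA hE n hodd h3 N hz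
    (fun e he heN => e_inter hH hE hC hodd N hF e he heN)
  have hd := hH.geo
  have hmul : ∀ g h : G, d 1 (g * h) ≤ d 1 g + d 1 h := by
    intro g h
    have h1 := hd.tri 1 g (g * h)
    have h2 := hH.inv g 1 h
    rw [mul_one] at h2
    omega
  have hinv : ∀ g : G, d 1 g⁻¹ = d 1 g := by
    intro g
    have h2 := hH.inv g 1 g⁻¹
    rw [mul_one, mul_inv_cancel] at h2
    rw [← h2, hd.symm]
  have hkill : ∀ B : ℕ, θ * (4 * B) < n → ∀ g : G, (g : G ⧸ N) = 1 → d 1 g ≤ 4 * B → g = 1 := by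
    intro B hB g hg hgB
    refine inj_rad hH hC hF g ((QuotientGroup.eq_one_iff g).1 hg) (lt_of_le_of_lt ?_ hB)
    exact Nat.mul_le_mul_left _ hgB
  have hbotfin : Finite (⊥ : Subgroup (G ⧸ N)) := inferInstance
  refine ⟨?_, ?_⟩
  · intro x hx4
    have hc1 : x * x ^ 2 = x ^ 2 * x := by group
    have hsq : (x ^ 2) ^ 2 = 1 := by rw [← pow_mul]; exact hx4
    have hn1 := norm_of_comm (comm_bot (x := x ^ 2))
    obtain ⟨p1, hp1⟩ := hm1 hF.act hF.hyp ⊥ hbotfin (x ^ 2) hn1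
      (by rw [hsq]; exact Subgroup.one_mem _) _ (good_bot hF)
    have hf1 := finite_sup hbotfin hn1 (by rw [hsq]; exact Subgroup.one_mem _)
    have hn2 := norm_of_comm (comm_sup (comm_bot (x := x)) hc1)
    have hx2 : x ^ 2 ∈ (⊥ ⊔ Subgroup.zpowers (x ^ 2) : Subgroup (G ⧸ N)) :=
      (le_sup_right : Subgroup.zpowers (x ^ 2) ≤ _) (Subgroup.mem_zpowers _)
    obtain ⟨p2, hp2⟩ := hm2 hF.act hF.hyp _ hf1 x hn2 hx2 _ hp1
    have hxm : x ∈ (⊥ ⊔ Subgroup.zpowers (x ^ 2) ⊔ Subgroup.zpowers x : Subgroup (G ⧸ N)) :=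
      (le_sup_right : Subgroup.zpowers x ≤ _) (Subgroup.mem_zpowers _)
    obtain ⟨q, hq | hq⟩ := cases hF (hB₂ n _ N D β hF) _ p2 hp2
    · have h1 := halg.1 _ (hq x hxm) (by
        have : (q⁻¹ * x * q) ^ 4 = q⁻¹ * x ^ 4 * q := by
          have := conj_pow (i := 4) (a := q⁻¹) (b := x)
          rwa [inv_inv] at this
        rw [this, hx4]; group)
      have h2 : (q⁻¹ * x * q) ^ 2 = q⁻¹ * x ^ 2 * q := by
        have := conj_pow (i := 2) (a := q⁻¹) (b := x)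
        rwa [inv_inv] at this
      rw [h2] at h1
      have h3 : x ^ 2 = q * (q⁻¹ * x ^ 2 * q) * q⁻¹ := by group
      rw [h3, h1]; group
    · obtain ⟨g, hg1, hg2⟩ := hq x hxm
      have h4 : g ^ 4 = 1 := by
        refine hkill B₂ (by omega) _ ?_ ?_
        · have : ((g ^ 4 : G) : G ⧸ N) = (q⁻¹ * x * q) ^ 4 := by rw [← hg1]; rfl
          rw [this]
          have : (q⁻¹ * x * q) ^ 4 = q⁻¹ * x ^ 4 * q := by
            have := conj_pow (i := 4) (a := q⁻¹) (b := x)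
            rwa [inv_inv] at this
          rw [this, hx4]; group
        · have h1 := hmul g g
          have h2 := hmul (g * g) (g * g)
          have h3 : g ^ 4 = g * g * (g * g) := by
            simp only [pow_succ, pow_zero, one_mul, mul_assoc]
          rw [h3]
          omega
      have h5 := hA.i1 g h4
      have h6 : (q⁻¹ * x * q) ^ 2 = 1 := by
        rw [← hg1]
        have : ((g : G ⧸ N)) ^ 2 = ((g ^ 2 : G) : G ⧸ N) := rfl
        rw [this, h5]; rfl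
      have h2 : (q⁻¹ * x * q) ^ 2 = q⁻¹ * x ^ 2 * q := by
        have := conj_pow (i := 2) (a := q⁻¹) (b := x)
        rwa [inv_inv] at this
      rw [h2] at h6
      have h3 : x ^ 2 = q * (q⁻¹ * x ^ 2 * q) * q⁻¹ := by group
      rw [h3, h6]; group
  · rintro a b c ⟨ha2, hb2, hab, ha1, hb1, hne⟩ hc2 hac hbc
    have hn1 := norm_of_comm (comm_bot (x := a))
    have m1 : a ^ 2 ∈ (⊥ : Subgroup (G ⧸ N)) := by rw [ha2]; exact Subgroup.one_mem _
    obtain ⟨p1, hp1⟩ := hm1 hF.act hF.hyp ⊥ hbotfin a hn1 m1 _ (good_bot hF)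
    have hf1 := finite_sup hbotfin hn1 m1
    have hn2 := norm_of_comm (comm_sup (comm_bot (x := b)) hab.symm)
    have m2 : b ^ 2 ∈ (⊥ ⊔ Subgroup.zpowers a : Subgroup (G ⧸ N)) := by
      rw [hb2]; exact Subgroup.one_mem _
    obtain ⟨p2, hp2⟩ := hm2 hF.act hF.hyp _ hf1 b hn2 m2 _ hp1
    have hf2 := finite_sup hf1 hn2 m2
    have hn3 := norm_of_comm (comm_sup (comm_sup (comm_bot (x := c)) hac.symm) hbc.symm)
    have m3 : c ^ 2 ∈ (⊥ ⊔ Subgroup.zpowers a ⊔ Subgroup.zpowers b : Subgroup (G ⧸ N)) := by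
      rw [hc2]; exact Subgroup.one_mem _
    obtain ⟨p3, hp3⟩ := hm3 hF.act hF.hyp _ hf2 c hn3 m3 _ hp2
    have hcm : c ∈ (⊥ ⊔ Subgroup.zpowers a ⊔ Subgroup.zpowers b ⊔ Subgroup.zpowers c :
        Subgroup (G ⧸ N)) :=
      (le_sup_right : Subgroup.zpowers c ≤ _) (Subgroup.mem_zpowers _)
    have hbm : b ∈ (⊥ ⊔ Subgroup.zpowers a ⊔ Subgroup.zpowers b ⊔ Subgroup.zpowers c :
        Subgroup (G ⧸ N)) :=
      (le_sup_left : (⊥ ⊔ Subgroup.zpowers a ⊔ Subgroup.zpowers b : Subgroup (G ⧸ N)) ≤ _)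
        ((le_sup_right : Subgroup.zpowers b ≤ _) (Subgroup.mem_zpowers _))
    have ham : a ∈ (⊥ ⊔ Subgroup.zpowers a ⊔ Subgroup.zpowers b ⊔ Subgroup.zpowers c :
        Subgroup (G ⧸ N)) :=
      (le_sup_left : (⊥ ⊔ Subgroup.zpowers a ⊔ Subgroup.zpowers b : Subgroup (G ⧸ N)) ≤ _)
        ((le_sup_left : (⊥ ⊔ Subgroup.zpowers a : Subgroup (G ⧸ N)) ≤ _)
          ((le_sup_right : Subgroup.zpowers a ≤ _) (Subgroup.mem_zpowers _)))
    -- conjugation by q
    have key : ∀ q : G ⧸ N, (q⁻¹ * c * q = 1 ∨ q⁻¹ * c * q = q⁻¹ * a * q ∨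
        q⁻¹ * c * q = q⁻¹ * b * q ∨ q⁻¹ * c * q = (q⁻¹ * a * q) * (q⁻¹ * b * q)) →
        c = 1 ∨ c = a ∨ c = b ∨ c = a * b := by
      intro q hq
      have hr : c = q * (q⁻¹ * c * q) * q⁻¹ := by group
      rcases hq with hq | hq | hq | hq
      · left; rw [hr, hq]; group
      · right; left; rw [hr, hq]; group
      · right; right; left; rw [hr, hq]; group
      · right; right; right; rw [hr, hq]; group
    have csq : ∀ q u : G ⧸ N, u ^ 2 = 1 → (q⁻¹ * u * q) ^ 2 = 1 := by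
      intro q u hu
      have := conj_pow (i := 2) (a := q⁻¹) (b := u)
      rw [inv_inv] at this
      rw [this, hu]; group
    have ccomm : ∀ q u v : G ⧸ N, u * v = v * u →
        (q⁻¹ * u * q) * (q⁻¹ * v * q) = (q⁻¹ * v * q) * (q⁻¹ * u * q) := by
      intro q u v huv
      have e1 : (q⁻¹ * u * q) * (q⁻¹ * v * q) = q⁻¹ * (u * v) * q := by group
      have e2 : (q⁻¹ * v * q) * (q⁻¹ * u * q) = q⁻¹ * (v * u) * q := by group
      rw [e1, e2, huv]
    have cinj : ∀ q u v : G ⧸ N, q⁻¹ * u * q = q⁻¹ * v * q → u = v := by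
      intro q u v huv
      exact mul_left_cancel (mul_right_cancel huv)
    have cone : ∀ q u : G ⧸ N, q⁻¹ * u * q = 1 → u = 1 := by
      intro q u hu
      exact cinj q u 1 (by rw [hu]; group)
    obtain ⟨q, hq | hq⟩ := cases hF (hB₃ n _ N D β hF) _ p3 hp3
    · refine key q (halg.2.1 _ (hq a ham) _ (hq b hbm) _ (hq c hcm) ?_ (csq q c hc2)
        (ccomm q a c hac) (ccomm q b c hbc))
      exact ⟨csq q a ha2, csq q b hb2, ccomm q a b hab, fun h => ha1 (cone q a h),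
        fun h => hb1 (cone q b h), fun h => hne (cinj q a b h)⟩
    · obtain ⟨a', ha', haB⟩ := hq a ham
      obtain ⟨b', hb', hbB⟩ := hq b hbm
      obtain ⟨c', hc', hcB⟩ := hq c hcm
      have hBn : θ * (4 * B₃) < n := by omega
      have sq1 : ∀ u' : G, ∀ u : G ⧸ N, u ^ 2 = 1 → (u' : G ⧸ N) = q⁻¹ * u * q → d 1 u' ≤ B₃ →
          u' ^ 2 = 1 := by
        intro u' u hu hu' huB
        refine hkill B₃ hBn _ ?_ ?_
        · have : ((u' ^ 2 : G) : G ⧸ N) = (q⁻¹ * u * q) ^ 2 := by rw [← hu']; rfl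
          rw [this, csq q u hu]
        · rw [sq]
          have := hmul u' u'
          omega
      have cm1 : ∀ u' v' : G, ∀ u v : G ⧸ N, u * v = v * u → (u' : G ⧸ N) = q⁻¹ * u * q →
          (v' : G ⧸ N) = q⁻¹ * v * q → d 1 u' ≤ B₃ → d 1 v' ≤ B₃ → u' * v' = v' * u' := by
        intro u' v' u v huv hu' hv' huB hvB
        have : u' * v' * (u'⁻¹ * v'⁻¹) = 1 := by
          refine hkill B₃ hBn _ ?_ ?_
          · have e1 : ((u' * v' * (u'⁻¹ * v'⁻¹) : G) : G ⧸ N) =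
                (u' : G ⧸ N) * (v' : G ⧸ N) * ((u' : G ⧸ N)⁻¹ * (v' : G ⧸ N)⁻¹) := rfl
            rw [e1, hu', hv', ccomm q u v huv]; group
          · have h1 := hmul (u' * v') (u'⁻¹ * v'⁻¹)
            have h2 := hmul u' v'
            have h3 := hmul u'⁻¹ v'⁻¹
            rw [hinv, hinv] at h3
            omega
        have h2 : u' * v' = u' * v' * (u'⁻¹ * v'⁻¹) * (v' * u') := by group
        rw [h2, this, one_mul]
      have hfr : Frame a' b' := by
        refine ⟨sq1 a' a ha2 ha' haB, sq1 b' b hb2 hb' hbB, cm1 a' b' a b hab ha' hb' haB hbB,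
          ?_, ?_, ?_⟩
        · rintro rfl
          exact ha1 (cone q a ha'.symm)
        · rintro rfl
          exact hb1 (cone q b hb'.symm)
        · rintro rfl
          exact hne (cinj q a b (ha'.symm.trans hb'))
      have hfin := hA.i2 a' b' c' hfr (sq1 c' c hc2 hc' hcB) (cm1 a' c' a c hac ha' hc' haB hcB)
        (cm1 b' c' b c hbc hb' hc' hbB hcB)
      refine key q ?_
      rw [← ha', ← hb', ← hc']
      rcases hfin with h | h | h | h
      · left; rw [h]; rfl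
      · right; left; rw [h]
      · right; right; left; rw [h]
      · right; right; right; rw [h]; rfl

end Pool.Agent.Lib.MP_f1646b_al
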