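import Pool.Agent.Lib.MP_f1646b_al.P19

set_option autoImplicit false

namespace Pool.Agent.Lib.MP_f1646b_al

open scoped Pointwise

namespace P21a

theorem nt1 (n c : ℤ) (hn : 0 < n) (hc : 1 ≤ c) (hc2 : 2 * c ≤ n) :
    ∃ i : ℕ, n ≤ 3 * ((i : ℤ) * c) ∧ 3 * ((i : ℤ) * c) ≤ 2 * n := by
  have hex : ∃ i : ℕ, n ≤ 3 * ((i : ℤ) * c) := by
    refine ⟨n.toNat, ?_⟩
    rw [Int.toNat_of_nonneg hn.le]
    nlinarith
  classical
  refine ⟨Nat.find hex, Nat.find_spec hex, ?_⟩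
  have h0 : Nat.find hex ≠ 0 := by
    intro h0
    have := Nat.find_spec hex
    rw [h0] at this
    simp at this
    omega
  obtain ⟨k, hk⟩ := Nat.exists_eq_succ_of_ne_zero h0
  have h1 : ¬ n ≤ 3 * ((k : ℤ) * c) := Nat.find_min hex (by omega)
  rw [hk]
  push_cast
  rcases Nat.eq_zero_or_pos k with h2 | h2
  · subst h2; push_cast; linarith
  · have h3 : c ≤ (k : ℤ) * c := by
      have : (1 : ℤ) ≤ k := by exact_mod_cast h2
      nlinarith
    linarith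

theorem nt2 (n r j : ℤ) (hn : 0 < n) (h1 : n ≤ 3 * r) (h2 : 3 * r ≤ 2 * n) :
    n ≤ 3 * |n * j + r| := by
  rcases le_or_gt 0 j with hj | hj
  · have : 0 ≤ n * j := mul_nonneg hn.le hj
    have := le_abs_self (n * j + r)
    linarith
  · have : n * j ≤ -n := by nlinarith
    have := neg_abs_le (n * j + r)
    linarith

theorem nt (n : ℤ) (hn : 0 < n) (a : ℤ) (ha : ¬ n ∣ a) :
    ∃ i : ℕ, ∀ j : ℤ, n ≤ 3 * |n * j + i * a| := by
  have hb := Int.emod_nonneg a hn.ne'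
  have hb2 := Int.emod_lt_of_pos a hn
  have hb3 : a % n ≠ 0 := fun h => ha (Int.dvd_of_emod_eq_zero h)
  have hb4 := Int.mul_ediv_add_emod a n
  set b := a % n
  set q := a / n
  by_cases hc : 2 * b ≤ n
  · obtain ⟨i, h1, h2⟩ := nt1 n b hn (by omega) hc
    refine ⟨i, fun j => ?_⟩
    have := nt2 n (i * b) (j + i * q) hn h1 h2
    rw [← hb4]
    have e : n * j + (i : ℤ) * (n * q + b) = n * (j + i * q) + i * b := by ring
    rw [e]; exact this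
  · obtain ⟨i, h1, h2⟩ := nt1 n (n - b) hn (by omega) (by omega)
    refine ⟨i, fun j => ?_⟩
    have := nt2 n (i * (n - b)) (-(j + i * (q + 1))) hn h1 h2
    rw [← hb4, ← abs_neg]
    have e : -(n * j + (i : ℤ) * (n * q + b)) = n * (-(j + i * (q + 1))) + i * (n - b) := by ring
    rw [e]; exact this

section E
variable {G : Type*} [Group G] {E : Subgroup G} {ε τ : G → ℤ} {y0 : G}

theorem eps_one (hE : EData E ε τ y0) : ε 1 = 1 := by
  have h1 := hE.eps_mul 1 E.one_mem 1 E.one_mem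
  rw [mul_one] at h1
  rcases hE.eps_sq 1 E.one_mem with h2 | h2
  · exact h2
  · rw [h2] at h1; norm_num at h1

theorem tau_one (hE : EData E ε τ y0) : τ 1 = 0 := by
  have h1 := hE.tau_mul 1 E.one_mem 1 E.one_mem
  rw [mul_one, eps_one hE] at h1
  omega

theorem pow_data (hE : EData E ε τ y0) {e : G} (he : e ∈ E) (h1 : ε e = 1) (i : ℕ) :
    ε (e ^ i) = 1 ∧ τ (e ^ i) = i * τ e := by
  induction i with
  | zero => rw [pow_zero, eps_one hE, tau_one hE]; simp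
  | succ k ih =>
    rw [pow_succ, hE.eps_mul _ (E.pow_mem he k) _ he, hE.tau_mul _ (E.pow_mem he k) _ he, ih.1,
      ih.2, h1]
    refine ⟨mul_one 1, ?_⟩
    push_cast
    ring

theorem inv_data (hE : EData E ε τ y0) {e : G} (he : e ∈ E) (h1 : ε e = 1) :
    ε e⁻¹ = 1 ∧ τ e⁻¹ = - τ e := by
  have h2 := hE.eps_mul e he e⁻¹ (E.inv_mem he)
  have h3 := hE.tau_mul e he e⁻¹ (E.inv_mem he)
  rw [mul_inv_cancel, h1] at h2 h3
  rw [eps_one hE] at h2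
  rw [tau_one hE] at h3
  constructor <;> linarith

theorem zpow_data (hE : EData E ε τ y0) {e : G} (he : e ∈ E) (h1 : ε e = 1) (i : ℤ) :
    ε (e ^ i) = 1 ∧ τ (e ^ i) = i * τ e := by
  obtain ⟨k, rfl | rfl⟩ := Int.eq_nat_or_neg i
  · rw [zpow_natCast]; exact pow_data hE he h1 k
  · rw [zpow_neg, zpow_natCast]
    obtain ⟨a1, a2⟩ := pow_data hE he h1 k
    obtain ⟨b1, b2⟩ := inv_data hE (E.pow_mem he k) a1
    refine ⟨b1, ?_⟩
    rw [b2, a2]; ring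

end E

end P21a

open P21a in
theorem no_fixed_apex {G : Type*} [Group G] {d : G → G → ℕ} {δ₀ : ℕ} (hH : HypMet G d δ₀)
    (hA : AInv G) {E : Subgroup G} {ε τ : G → ℤ} {y0 : G} (hE : EData E ε τ y0) {θ δ n : ℕ}
    {α : Cone G E → Cone G E → Cone G E → ℕ} (hC : ConePkg d E ε τ θ δ α) (hodd : Odd n)
    (h3 : 3 ∣ n) (hn : 14 * θ < n) (N : Subgroup G) [N.Normal] {D β}
    (hF : FillPkg d E θ δ n α (y0 ^ n) N D β) (f : G ⧸ N) (hf : f ≠ 1) (hfo : Odd (orderOf f))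
    (M : ℕ) (hM : ∀ i : ℕ, D (Sum.inl 1) (f ^ i • Sum.inl 1) ≤ M)
    (r : Cone (G ⧸ N) (E.map (QuotientGroup.mk' N)))
    (hr : r ∈ Apx (G ⧸ N) (E.map (QuotientGroup.mk' N))) (hrM : M < D (Sum.inl 1) r) :
    f • r ≠ r := by
  intro hfix
  -- a lift of the apex
  obtain ⟨y, hy1, hy2⟩ := hF.lift (Sum.inl 1) r
  obtain ⟨cb, rfl⟩ := hr
  obtain ⟨g, rfl⟩ : ∃ g : G, y = Sum.inr (g : G ⧸ E) := by
    rcases y with y | y
    · exfalso
      have : (Sum.inl ((y : G ⧸ N)) : Cone (G ⧸ N) (E.map (QuotientGroup.mk' N))) = Sum.inr cb := hy1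
      simp at this
    · obtain ⟨g, rfl⟩ := QuotientGroup.mk_surjective y
      exact ⟨g, rfl⟩
  have hc : (((g : G ⧸ N)) : (G ⧸ N) ⧸ (E.map (QuotientGroup.mk' N))) = cb := by
    have : (Sum.inr (((g : G ⧸ N)) : (G ⧸ N) ⧸ (E.map (QuotientGroup.mk' N))) :
      Cone (G ⧸ N) (E.map (QuotientGroup.mk' N))) = Sum.inr cb := hy1
    exact Sum.inr_injective this
  subst hc
  set r : Cone (G ⧸ N) (E.map (QuotientGroup.mk' N)) :=
    Sum.inr (((g : G ⧸ N)) : (G ⧸ N) ⧸ (E.map (QuotientGroup.mk' N))) with hrdef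
  have hrS : r ∈ Apx (G ⧸ N) (E.map (QuotientGroup.mk' N)) := ⟨_, rfl⟩
  have hmem : (g : G ⧸ N)⁻¹ * f * (g : G ⧸ N) ∈ E.map (QuotientGroup.mk' N) := by
    have h1 : (Sum.inr (((f * (g : G ⧸ N))) : (G ⧸ N) ⧸ (E.map (QuotientGroup.mk' N))) :
      Cone (G ⧸ N) (E.map (QuotientGroup.mk' N))) = r := hfix
    have h2 := Sum.inr_injective h1
    rw [QuotientGroup.eq] at h2
    have h4 := (E.map (QuotientGroup.mk' N)).inv_mem h2
    have h5 : ((f * (g : G ⧸ N))⁻¹ * (g : G ⧸ N))⁻¹ = (g : G ⧸ N)⁻¹ * f * (g : G ⧸ N) := by group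
    rwa [h5] at h4
  set x := (g : G ⧸ N)⁻¹ * f * (g : G ⧸ N) with hx
  have hxf : f = (g : G ⧸ N) * x * (g : G ⧸ N)⁻¹ := by rw [hx]; group
  have hx1 : x ≠ 1 := by
    intro h1
    apply hf
    rw [hxf, h1]; group
  have hxo : Odd (orderOf x) := by
    have : orderOf x = orderOf f := by
      have h1 := MulEquiv.orderOf_eq (MulAut.conj (g : G ⧸ N)⁻¹) f
      rw [MulAut.conj_apply, inv_inv] at h1
      exact h1
    rw [this]; exact hfo
  have hz : y0 ^ n ∈ N := by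
    rw [hF.nc]
    exact Subgroup.subset_normalClosure rfl
  obtain ⟨e, heE, hex, he1, hne⟩ := (ebar_alg hA hE n hodd h3 N hz
    (fun e he heN => e_inter hH hE hC hodd N hF e he heN)).2.2.1 x hmem hx1 hxo
  have hn0 : (0 : ℤ) < n := by exact_mod_cast (by omega : 0 < n)
  obtain ⟨i, hi⟩ := nt n hn0 (τ e) hne
  have hgeo := hC.act.cas.geo
  have hgeo' := hF.act.cas.geo
  have hfi : f ^ i = ((g * e ^ i * g⁻¹ : G) : G ⧸ N) := by
    rw [hxf, conj_pow, ← hex]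
    rfl
  set t : Cone G E := Sum.inr (g : G ⧸ E) with ht
  have htfix : (g * e ^ i * g⁻¹) • t = t := by
    show (Sum.inr (((g * e ^ i * g⁻¹ * g : G)) : G ⧸ E) : Cone G E) = Sum.inr (g : G ⧸ E)
    congr 1
    rw [QuotientGroup.eq]
    have : (g * e ^ i * g⁻¹ * g)⁻¹ * g = (e ^ i)⁻¹ := by group
    rw [this]
    exact E.inv_mem (E.pow_mem heE i)
  have hfr : f ^ i • r = r := by
    rw [hfi]
    exact congrArg (conePi E N) htfix
  have d1 : cd d E t (Sum.inl 1) = D r (Sum.inl 1) := by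
    rw [hgeo.symm, hgeo'.symm]; exact hy2
  have d2 : cd d E t (Sum.inl (g * e ^ i * g⁻¹)) = D r (f ^ i • Sum.inl 1) := by
    have h1 : (Sum.inl (g * e ^ i * g⁻¹) : Cone G E) = (g * e ^ i * g⁻¹) • Sum.inl 1 := by
      show _ = (Sum.inl ((g * e ^ i * g⁻¹) * 1) : Cone G E)
      rw [mul_one]
    rw [h1]
    conv_lhs => rw [← htfix]
    conv_rhs => rw [← hfr]
    rw [hC.act.isom, hF.act.isom]
    exact d1
  have hq := hF.q1 t ⟨_, rfl⟩ (Sum.inl 1) (Sum.inl (g * e ^ i * g⁻¹)) (by simp [ht]) (by simp [ht])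
    d1 (by
      rw [d2]
      congr 1
      rw [hfi]
      show (Sum.inl (((g * e ^ i * g⁻¹ : G) : G ⧸ N) * 1) :
        Cone (G ⧸ N) (E.map (QuotientGroup.mk' N))) = Sum.inl ((g * e ^ i * g⁻¹ : G) : G ⧸ N)
      rw [mul_one])
  obtain ⟨j, hj⟩ := hq.2 g rfl
  have hb : β r (Sum.inl 1) (f ^ i • Sum.inl 1) ≤ θ := by
    apply hF.act.cas.small hrS
    · simp [hrdef]
    · rw [hfi]
      intro h1
      have h2 : (Sum.inl (((g * e ^ i * g⁻¹ : G) : G ⧸ N) * 1) :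
        Cone (G ⧸ N) (E.map (QuotientGroup.mk' N))) = r := h1
      simp [hrdef] at h2
    · intro h1
      have h2 := hM i
      unfold Btw at h1
      omega
  have hj2 : α t (Sum.inl 1) ((g * (y0 ^ n) ^ j * g⁻¹) • Sum.inl (g * e ^ i * g⁻¹)) ≤ 9 * θ := by
    have h1 : β (conePi E N t) (conePi E N (Sum.inl 1)) (conePi E N (Sum.inl (g * e ^ i * g⁻¹))) =
        β r (Sum.inl 1) (f ^ i • Sum.inl 1) := by
      congr 1
      rw [hfi]
      show Sum.inl ((g * e ^ i * g⁻¹ : G) : G ⧸ N) = (Sum.inl (((g * e ^ i * g⁻¹ : G) : G ⧸ N) * 1) :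
        Cone (G ⧸ N) (E.map (QuotientGroup.mk' N)))
      rw [mul_one]
    rw [h1] at hj
    omega
  have hzE : (y0 ^ n) ∈ E := E.pow_mem hE.y0_mem n
  obtain ⟨z1, z2⟩ := pow_data hE hE.y0_mem hE.eps_y0 n
  rw [hE.tau_y0] at z2
  obtain ⟨w1, w2⟩ := zpow_data hE hzE z1 j
  obtain ⟨v1, v2⟩ := pow_data hE heE he1 i
  have hu1 : ε ((y0 ^ n) ^ j * e ^ i) = 1 := by
    rw [hE.eps_mul _ (E.zpow_mem hzE j) _ (E.pow_mem heE i), w1, v1, mul_one]
  have hu2 : τ ((y0 ^ n) ^ j * e ^ i) = n * j + i * τ e := by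
    rw [hE.tau_mul _ (E.zpow_mem hzE j) _ (E.pow_mem heE i), w1, w2, v2, z2]; ring
  have hrot := hC.rot _ (E.mul_mem (E.zpow_mem hzE j) (E.pow_mem heE i)) hu1 (Sum.inl g⁻¹) (by simp)
  rw [hu2] at hrot
  have ha := hC.act.a_inv g (Sum.inr ((1 : G) : G ⧸ E)) ⟨_, rfl⟩ (Sum.inl g⁻¹)
    (((y0 ^ n) ^ j * e ^ i) • Sum.inl g⁻¹) (by simp) (by
      intro h1
      have h2 : (Sum.inl (((y0 ^ n) ^ j * e ^ i) * g⁻¹) : Cone G E) = Sum.inr ((1 : G) : G ⧸ E) := h1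
      simp at h2)
  have b1 : g • (Sum.inr ((1 : G) : G ⧸ E) : Cone G E) = t := by
    show (Sum.inr (((g * 1 : G)) : G ⧸ E) : Cone G E) = Sum.inr (g : G ⧸ E)
    rw [mul_one]
  have b2 : g • (Sum.inl g⁻¹ : Cone G E) = Sum.inl 1 := by
    show (Sum.inl (g * g⁻¹) : Cone G E) = Sum.inl 1
    rw [mul_inv_cancel]
  have b3 : g • (((y0 ^ n) ^ j * e ^ i) • (Sum.inl g⁻¹ : Cone G E)) =
      (g * (y0 ^ n) ^ j * g⁻¹) • Sum.inl (g * e ^ i * g⁻¹) := by
    show (Sum.inl (g * (((y0 ^ n) ^ j * e ^ i) * g⁻¹)) : Cone G E) =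
      Sum.inl ((g * (y0 ^ n) ^ j * g⁻¹) * (g * e ^ i * g⁻¹))
    congr 1
    group
  rw [b1, b2, b3] at ha
  rw [ha, hrot] at hj2
  have hij := hi j
  have : ((n * j + i * τ e : ℤ).natAbs : ℤ) = |n * j + i * τ e| := Int.natCast_natAbs _
  omega

end Pool.Agent.Lib.MP_f1646b_al
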