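import Pool.Agent.Lib.MP_f1646b_al.Betw
import Pool.Agent.Lib.MP_f1646b_al.P01
import Pool.Agent.Lib.MP_f1646b_al.P16a
import Pool.Agent.Lib.MP_f1646b_al.P16b
import Pool.Agent.Lib.MP_f1646b_al.P18
import Pool.Agent.Lib.MP_f1646b_al.P21a

set_option autoImplicit false

namespace Pool.Agent.Lib.MP_f1646b_al

open scoped Pointwise

namespace P21b

/-- powers of an element of finite order take only finitely many values -/
theorem exists_bound {H : Type*} [Group H] (f : H) (hf : IsOfFinOrder f) (φ : H → ℕ) :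
    ∃ M, ∀ i : ℕ, φ (f ^ i) ≤ M := by
  have hpos : 0 < orderOf f := orderOf_pos_iff.2 hf
  refine ⟨(Finset.range (orderOf f)).sup (fun i => φ (f ^ i)), fun i => ?_⟩
  rw [← pow_mod_orderOf f i]
  exact Finset.le_sup (f := fun i => φ (f ^ i)) (Finset.mem_range.2 (Nat.mod_lt _ hpos))

/-- deep apices have small angle -/
theorem deep_beta {H X : Type*} [Group H] [MulAction H X] {D : X → X → ℕ} {S : Set X}
    {β : X → X → X → ℕ} {θ : ℕ} (h : ActCAS H D S β θ (4 * θ)) (f : H) (hf : IsOfFinOrder f)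
    (P Q : X) (hP : ∀ g : H, g • P ∉ S) (hQ : ∀ g : H, g • Q ∉ S) (M : ℕ)
    (hPM : ∀ i : ℕ, D P (f ^ i • P) ≤ M) (hQM : ∀ i : ℕ, D Q (f ^ i • Q) ≤ M)
    (hA : ∀ r ∈ S, M < D P r → f • r ≠ r) (r : X) (hr : r ∈ S) (h1 : 2 * M < D P r)
    (h2 : 2 * M < D r Q) : β r P Q ≤ 20 * θ := by
  by_contra hc
  have hgeo := h.cas.geo
  have hP1 : ∀ i : ℕ, f ^ i • P ∉ S := fun i => hP _
  have hQ1 : ∀ i : ℕ, f ^ i • Q ∉ S := fun i => hQ _
  have hPS : P ∉ S := by have := hP1 0; simpa using this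
  have hQS : Q ∉ S := by have := hQ1 0; simpa using this
  have hne : ∀ (j : ℕ) (x : X), x ∉ S → x ≠ f ^ j • r := by
    intro j x hx he
    exact hx (he ▸ h.inS _ r hr)
  have key : f • r = r := by
    apply fixsep h f hf P Q r hr θ le_rfl
    · intro i j
      exact ⟨fun he => hP1 i (he ▸ h.inS _ r hr), fun he => hQ1 i (he ▸ h.inS _ r hr)⟩
    · intro i j
      constructor
      · apply h.cas.small (h.inS _ r hr) (hne j _ hPS) (hne j _ (hP1 i))
        intro hb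
        have e1 : D (f ^ j • P) (f ^ j • r) = D P r := h.isom _ _ _
        have e2 := hgeo.tri (f ^ j • P) P (f ^ j • r)
        have e3 := hPM j
        have e4 := hPM i
        have e5 := hgeo.symm P (f ^ j • P)
        unfold Btw at hb
        omega
      · apply h.cas.small (h.inS _ r hr) (hne j _ hQS) (hne j _ (hQ1 i))
        intro hb
        have e1 : D (f ^ j • Q) (f ^ j • r) = D Q r := h.isom _ _ _
        have e2 := hgeo.tri (f ^ j • Q) Q (f ^ j • r)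
        have e3 := hQM j
        have e4 := hQM i
        have e5 := hgeo.symm Q (f ^ j • Q)
        have e6 := hgeo.symm Q r
        unfold Btw at hb
        omega
    · omega
  exact hA r hr (by omega) key

/-- points in the middle of the interval are moved by `f` with small angles -/
theorem mid_beta {H X : Type*} [Group H] [MulAction H X] {D : X → X → ℕ} {S : Set X}
    {β : X → X → X → ℕ} {θ : ℕ} (h : ActCAS H D S β θ (4 * θ)) (f : H)
    (P Q v : X) (hP : ∀ g : H, g • P ∉ S) (hQ : ∀ g : H, g • Q ∉ S) (hv : ∀ g : H, g • v ∉ S)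
    (M M1 : ℕ)
    (hPM : ∀ i : ℕ, D P (f ^ i • P) ≤ M)
    (hd : ∀ r ∈ S, 2 * M < D P r → 2 * M < D r Q → β r P Q ≤ 20 * θ)
    (hb : Btw D P v Q) (hvM : ∀ i : ℕ, D v (f ^ i • v) ≤ M1)
    (h1 : 2 * M + M1 < D P v) (h2 : 2 * M + M1 < D v Q) (j : ℕ) (s : X) (hs : s ∈ S) :
    β s v (f ^ j • v) ≤ 59 * θ := by
  have hgeo := h.cas.geo
  have hPS : P ∉ S := by have := hP 1; simpa using this
  have hQS : Q ∉ S := by have := hQ 1; simpa using this
  have hvS : v ∉ S := by have := hv 1; simpa using this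
  have hne : ∀ {x t : X}, t ∈ S → x ∉ S → x ≠ t := by
    intro x t ht hx he
    exact hx (he ▸ ht)
  -- near apices
  have near : ∀ t ∈ S, D v t ≤ M1 → M < D P t ∧ β t P v ≤ 25 * θ := by
    intro t ht hvt
    have e1 := hgeo.tri P t v
    have e2 := hgeo.tri v t Q
    have e3 := hgeo.symm v t
    have hd1 := hd t ht (by omega) (by omega)
    refine ⟨by omega, ?_⟩
    by_cases hb1 : Btw D P t v
    · have hb2 : ¬ Btw D v t Q := by
        intro hb2
        exact hne ht hvS (btw_T3 hgeo hb1 hb2 hb).symm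
      have e4 := h.cas.small ht (hne ht hvS) (hne ht hQS) hb2
      have e5 := h.cas.a_tri t ht P Q v (hne ht hPS) (hne ht hQS) (hne ht hvS)
      have e6 := h.cas.a_symm t ht Q v (hne ht hQS) (hne ht hvS)
      omega
    · have e4 := h.cas.small ht (hne ht hPS) (hne ht hvS) hb1
      omega
  by_cases hsm : β s v (f ^ j • v) ≤ θ
  · omega
  push Not at hsm
  have hfv : f ^ j • v ∉ S := hv _
  have hfP : f ^ j • P ∉ S := hP _
  have hb1 := h.cas.k1 s hs v (f ^ j • v) (hne hs hvS) (hne hs hfv) hsm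
  have e0 := hvM j
  have hb1' := hb1
  unfold Btw at hb1'
  set s' := (f ^ j)⁻¹ • s with hs'
  have hs'S : s' ∈ S := h.inS _ s hs
  have hss' : f ^ j • s' = s := smul_inv_smul _ _
  obtain ⟨n1, n2⟩ := near s hs (by omega)
  obtain ⟨n3, n4⟩ := near s' hs'S (by
    have := h.isom (f ^ j) v s'
    rw [hss'] at this
    have e3 := hgeo.symm s (f ^ j • v)
    omega)
  have e1 : β s (f ^ j • P) (f ^ j • v) = β s' P v := by
    conv_lhs => rw [← hss']
    exact h.a_inv _ s' hs'S P v (hne hs'S hPS) (hne hs'S hvS)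
  have e2 : β s P (f ^ j • P) ≤ θ := by
    apply h.cas.small hs (hne hs hPS) (hne hs hfP)
    intro hb3
    have := hPM j
    unfold Btw at hb3
    omega
  have e3 := h.cas.a_tri s hs v P (f ^ j • v) (hne hs hvS) (hne hs hPS) (hne hs hfv)
  have e4 := h.cas.a_tri s hs P (f ^ j • P) (f ^ j • v) (hne hs hPS) (hne hs hfP) (hne hs hfv)
  have e5 := h.cas.a_symm s hs v P (hne hs hvS) (hne hs hPS)
  omega

/-- close points on a geodesic have small angles between them -/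
theorem up_alpha {X : Type*} {d : X → X → ℕ} {S : Set X} {α : X → X → X → ℕ} {θ : ℕ}
    (h : CAS d S α θ 0) (P Q v v' s : X) (hs : s ∈ S) (hP : s ≠ P) (hQ : s ≠ Q) (hv : s ≠ v)
    (hv' : s ≠ v') (h1 : Btw d P v v') (h2 : Btw d v v' Q) (hPQ : α s P Q ≤ 28 * θ) :
    α s v v' ≤ 30 * θ := by
  by_cases hsm : α s v v' ≤ θ
  · omega
  push Not at hsm
  have hb := h.k1 s hs v v' hv.symm hv'.symm hsm
  have e1 : α s P v ≤ θ := by
    apply h.small hs hP.symm hv.symm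
    intro hb1
    exact hv (btw_T3 h.geo hb1 hb h1)
  have e2 : α s v' Q ≤ θ := by
    apply h.small hs hv'.symm hQ.symm
    intro hb1
    exact hv' (btw_T3 h.geo hb hb1 h2)
  have e3 := h.a_tri s hs v P v' hv.symm hP.symm hv'.symm
  have e4 := h.a_tri s hs P Q v' hP.symm hQ.symm hv'.symm
  have e5 := h.a_symm s hs v P hv.symm hP.symm
  have e6 := h.a_symm s hs Q v' hQ.symm hv'.symm
  omega

theorem norm_mul {G : Type*} [Group G] {d : G → G → ℕ} {δ₀ : ℕ} (hH : HypMet G d δ₀) (a b : G) :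
    d 1 (a * b) ≤ d 1 a + d 1 b := by
  have h1 := hH.geo.tri 1 a (a * b)
  have h2 := hH.inv a 1 b
  rw [mul_one] at h2
  omega

theorem norm_inv {G : Type*} [Group G] {d : G → G → ℕ} {δ₀ : ℕ} (hH : HypMet G d δ₀) (a : G) :
    d 1 a⁻¹ = d 1 a := by
  have h2 := hH.inv a 1 a⁻¹
  rw [mul_one, mul_inv_cancel] at h2
  rw [← h2, hH.geo.symm]

theorem local_hom {G : Type*} [Group G] {d : G → G → ℕ} {δ₀ : ℕ} (hH : HypMet G d δ₀)
    {E : Subgroup G} {ε τ : G → ℤ} {θ δ : ℕ} {α : Cone G E → Cone G E → Cone G E → ℕ}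
    (hC : ConePkg d E ε τ θ δ α) {n : ℕ} {z : G} {N : Subgroup G} [N.Normal] {D β}
    (hF : FillPkg d E θ δ n α z N D β) (f : G ⧸ N) (hf : f ≠ 1) (hfo : Odd (orderOf f)) (g : G)
    (B : ℕ) (hB : θ * (3 * B) < n)
    (hl : ∀ j : ℕ, ∃ a : G, (a : G ⧸ N) = (g : G ⧸ N)⁻¹ * f ^ j * g ∧ d 1 a ≤ B) :
    ∃ h : G, (h : G ⧸ N) = (g : G ⧸ N)⁻¹ * f * g ∧ d 1 h ≤ B ∧ h ≠ 1 ∧ Odd (orderOf h) := by
  choose a ha1 ha2 using hl
  have hinj : ∀ u : G, (u : G ⧸ N) = 1 → d 1 u ≤ 3 * B → u = 1 := by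
    intro u hu hd
    apply inj_rad hH hC hF u ((QuotientGroup.eq_one_iff u).1 hu)
    calc θ * d 1 u ≤ θ * (3 * B) := Nat.mul_le_mul_left _ hd
      _ < n := hB
  have hpow : ∀ j : ℕ, a 1 ^ j = a j := by
    intro j
    induction j with
    | zero =>
      have : a 0 = 1 := by
        apply hinj
        · rw [ha1]; simp
        · have := ha2 0; omega
      rw [pow_zero, this]
    | succ j ih =>
      have h1 : (a (j + 1))⁻¹ * (a j * a 1) = 1 := by
        apply hinj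
        · rw [QuotientGroup.mk_mul, QuotientGroup.mk_inv, QuotientGroup.mk_mul, ha1, ha1, ha1,
            pow_one, pow_succ]
          group
        · have e1 := norm_mul hH (a (j + 1))⁻¹ (a j * a 1)
          have e2 := norm_mul hH (a j) (a 1)
          have e3 := norm_inv hH (a (j + 1))
          have e4 := ha2 j
          have e5 := ha2 1
          have e6 := ha2 (j + 1)
          omega
      rw [pow_succ, ih]
      exact (inv_mul_eq_one.1 h1).symm
  have him : ((a 1 : G) : G ⧸ N) = (g : G ⧸ N)⁻¹ * f * g := by rw [ha1, pow_one]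
  refine ⟨a 1, him, ha2 1, ?_, ?_⟩
  · intro h1
    apply hf
    rw [h1] at him
    have : f = (g : G ⧸ N) * ((g : G ⧸ N)⁻¹ * f * g) * (g : G ⧸ N)⁻¹ := by group
    rw [this, ← him]
    simp
  · apply Odd.of_dvd_nat hfo
    apply orderOf_dvd_of_pow_eq_one
    rw [hpow]
    apply hinj
    · rw [ha1, pow_orderOf_eq_one]; simp
    · have := ha2 (orderOf f); omega

theorem same_conj {G : Type*} [Group G] {d : G → G → ℕ} {δ₀ : ℕ} (hH : HypMet G d δ₀)
    {E : Subgroup G} {ε τ : G → ℤ} {θ δ : ℕ} {α : Cone G E → Cone G E → Cone G E → ℕ}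
    (hC : ConePkg d E ε τ θ δ α) {n : ℕ} {z : G} {N : Subgroup G} [N.Normal] {D β}
    (hF : FillPkg d E θ δ n α z N D β) (f : G ⧸ N) (g g' h h' : G) (B B2 : ℕ)
    (hB : θ * (2 * B + 2 * B2) < n) (h1 : (h : G ⧸ N) = (g : G ⧸ N)⁻¹ * f * g)
    (h2 : (h' : G ⧸ N) = (g' : G ⧸ N)⁻¹ * f * g') (h3 : d 1 h ≤ B) (h4 : d 1 h' ≤ B)
    (h5 : d 1 (g⁻¹ * g') ≤ B2) : g * h * g⁻¹ = g' * h' * g'⁻¹ := by
  have key : h⁻¹ * ((g⁻¹ * g') * (h' * (g⁻¹ * g')⁻¹)) = 1 := by
    apply inj_rad hH hC hF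
    · rw [← QuotientGroup.eq_one_iff]
      simp only [QuotientGroup.mk_mul, QuotientGroup.mk_inv, h1, h2]
      group
    · refine lt_of_le_of_lt (Nat.mul_le_mul_left _ ?_) hB
      have e1 := norm_mul hH h⁻¹ ((g⁻¹ * g') * (h' * (g⁻¹ * g')⁻¹))
      have e2 := norm_mul hH (g⁻¹ * g') (h' * (g⁻¹ * g')⁻¹)
      have e3 := norm_mul hH h' (g⁻¹ * g')⁻¹
      have e4 := norm_inv hH h
      have e5 := norm_inv hH (g⁻¹ * g')
      omega
  have e : h = (g⁻¹ * g') * (h' * (g⁻¹ * g')⁻¹) := by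
    exact inv_mul_eq_one.1 key
  rw [e]
  group

theorem pair_finite {G : Type*} [Group G] {d : G → G → ℕ} {δ₀ : ℕ} (hH : HypMet G d δ₀)
    (hA : AInv G) (B : ℕ) :
    {p : G × G | d 1 p.1 ≤ B ∧ p.1 ≠ 1 ∧ Odd (orderOf p.1) ∧ p.2 * p.1 = p.1 * p.2}.Finite := by
  have h1 : ({h : G | d 1 h ≤ B ∧ h ≠ 1 ∧ Odd (orderOf h)}).Finite :=
    (hH.fin B).subset (fun h hh => hh.1)
  apply (h1.biUnion (t := fun h => (fun c => (h, c)) '' {c : G | c * h = h * c}) ?_).subset
  · rintro ⟨h, c⟩ ⟨a1, a2, a3, a4⟩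
    simp only [Set.mem_iUnion]
    exact ⟨h, ⟨a1, a2, a3⟩, c, a4, rfl⟩
  · intro h hh
    exact (hA.i4 h hh.2.1 hh.2.2).image _

/-- the counting argument -/
theorem count {G : Type*} [Group G] (T : Set (G × G)) (hT : T.Finite) (g h : ℕ → G) (F : G)
    (hF : ∀ k < T.ncard + 1, g k * h k * (g k)⁻¹ = F)
    (hTm : ∀ k < T.ncard + 1, ∀ c, c * h k = h k * c → (h k, c) ∈ T)
    (hg : ∀ k < T.ncard + 1, ∀ l < T.ncard + 1, g k = g l → k = l) : False := by
  classical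
  have hr : ∀ x : G, ∃ r : G, (∃ y, y * x * y⁻¹ = F) → r * x * r⁻¹ = F := by
    intro x
    by_cases hx : ∃ y, y * x * y⁻¹ = F
    · obtain ⟨y, hy⟩ := hx
      exact ⟨y, fun _ => hy⟩
    · exact ⟨1, fun h => absurd h hx⟩
  choose r hr using hr
  have hcard : (Finset.range (T.ncard + 1)).card ≤ hT.toFinset.card := by
    apply Finset.card_le_card_of_injOn (fun k => (h k, (r (h k))⁻¹ * g k))
    · intro k hk
      have hk' : k < T.ncard + 1 := by simpa using hk
      have e1 := hF k hk'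
      have e2 := hr (h k) ⟨g k, e1⟩
      simp only [Set.Finite.coe_toFinset]
      apply hTm k hk'
      have e3 : g k * h k * (g k)⁻¹ = r (h k) * h k * (r (h k))⁻¹ := by rw [e1, e2]
      have e4 : g k * h k = r (h k) * h k * (r (h k))⁻¹ * g k := by
        rw [← e3]; group
      rw [mul_assoc, e4]
      group
    · intro k hk l hl hkl
      have hk' : k < T.ncard + 1 := by simpa using hk
      have hl' : l < T.ncard + 1 := by simpa using hl
      simp only [Prod.mk.injEq] at hkl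
      obtain ⟨e1, e2⟩ := hkl
      rw [e1] at e2
      exact hg k hk' l hl' (mul_left_cancel e2)
  rw [Finset.card_range, ← Set.ncard_eq_toFinset_card T hT] at hcard
  omega

end P21b

open P21b in
theorem quot_i4 {G : Type*} [Group G] {d : G → G → ℕ} {δ₀ : ℕ} (hH : HypMet G d δ₀)
    (hA : AInv G) {E : Subgroup G} {ε τ : G → ℤ} {y0 : G} (hE : EData E ε τ y0) {θ δ : ℕ}
    {α : Cone G E → Cone G E → Cone G E → ℕ} (hC : ConePkg d E ε τ θ δ α) :
    ∃ n₀, ∀ n, n₀ ≤ n → Odd n → 3 ∣ n → ∀ (N : Subgroup G) [N.Normal] (D β),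
      FillPkg d E θ δ n α (y0 ^ n) N D β →
      (∀ L, {q : G ⧸ N | D (Sum.inl 1) (Sum.inl q) ≤ L}.Finite) →
      ∀ f : G ⧸ N, f ≠ 1 → Odd (orderOf f) → {c : G ⧸ N | c * f = f * c}.Finite := by
  obtain ⟨B0, hB0⟩ := local_lift hH hC (40 * δ + 40) (59 * θ)
  obtain ⟨B2, hB2⟩ := hC.lb 3 (30 * θ)
  have hTf := pair_finite hH hA B0
  set T : Set (G × G) := {p : G × G | d 1 p.1 ≤ B0 ∧ p.1 ≠ 1 ∧ Odd (orderOf p.1) ∧
    p.2 * p.1 = p.1 * p.2} with hT
  refine ⟨14 * θ + θ * (3 * B0) + θ * (2 * B0 + 2 * B2) + 1, ?_⟩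
  intro n hn hodd h3 N _ D β hF hfin f hf hfo
  by_contra hinf
  have hfof : IsOfFinOrder f := orderOf_pos_iff.1 hfo.pos
  obtain ⟨M, hM⟩ := exists_bound f hfof (fun g => D (Sum.inl 1) (g • Sum.inl 1))
  set K : ℕ := T.ncard + 1 with hK
  set L0 : ℕ := 10 * M + 100 * δ + 100 + 2 * M + (40 * δ + 40) + 5 with hL0
  obtain ⟨c, hc, hcR⟩ : ∃ c : G ⧸ N, c * f = f * c ∧
      2 * L0 + 2 * K + 5 < D (Sum.inl 1) (Sum.inl c) := by
    by_contra hcon
    push Not at hcon
    exact hinf ((hfin (2 * L0 + 2 * K + 5)).subset (fun c hc => hcon c hc))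
  have hgeo := hF.act.cas.geo
  have hgeoX := hC.act.cas.geo
  have hcomm : ∀ i : ℕ, f ^ i * c = c * f ^ i := by
    intro i
    exact ((show Commute c f from hc).pow_right i).symm
  have hnl : ∀ (q g : G ⧸ N), (g • (Sum.inl q : Cone (G ⧸ N) (E.map (QuotientGroup.mk' N)))) ∉
      Apx (G ⧸ N) (E.map (QuotientGroup.mk' N)) := by
    rintro q g ⟨x, hx⟩
    rw [Sum.smul_inl] at hx
    exact Sum.inr_ne_inl hx
  have hQM : ∀ i : ℕ, D (Sum.inl c) (f ^ i • Sum.inl c) ≤ M := by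
    intro i
    have e1 : (Sum.inl c : Cone (G ⧸ N) (E.map (QuotientGroup.mk' N))) = c • Sum.inl 1 := by
      rw [Sum.smul_inl]; simp
    rw [e1, smul_smul, hcomm, mul_smul, hF.act.isom]
    exact hM i
  have hd := deep_beta hF.act f hfof (Sum.inl 1) (Sum.inl c) (hnl 1) (hnl c) M hM hQM
    (fun r hr hrM => no_fixed_apex hH hA hE hC hodd h3 (by omega) N hF f hf hfo M hM r hr hrM)
  obtain ⟨Q, hQ1, hQ2, hQ3⟩ := hF.q2 (Sum.inl 1) (Sum.inl c)
  have hP1 : conePi E N (Sum.inl 1) = Sum.inl 1 := rfl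
  rw [hP1] at hQ2 hQ3
  obtain ⟨γ, hγ, -⟩ := exists_geoPath hgeoX (Sum.inl 1) Q (Sum.inl 1) (btw_left hgeoX _ _)
  set D0 : ℕ := cd d E (Sum.inl 1) Q with hD0
  obtain ⟨hγ0, hγ1, hγd⟩ := hγ
  rw [← hD0] at hγ1 hγd
  have hproj : ∀ i j, i ≤ j → j ≤ D0 →
      D (conePi E N (γ i)) (conePi E N (γ j)) = j - i := by
    intro i j hij hj
    have e1 := hF.le (γ 0) (γ i)
    have e2 := hF.le (γ i) (γ j)
    have e3 := hF.le (γ j) (γ D0)
    rw [hγd _ _ (Nat.zero_le _) (by omega)] at e1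
    rw [hγd _ _ hij hj] at e2
    rw [hγd _ _ hj le_rfl] at e3
    have e4 := hgeo.tri (conePi E N (γ 0)) (conePi E N (γ i)) (conePi E N (γ D0))
    have e5 := hgeo.tri (conePi E N (γ i)) (conePi E N (γ j)) (conePi E N (γ D0))
    have e6 : D (conePi E N (γ 0)) (conePi E N (γ D0)) = D0 := by
      rw [hγ0, hγ1, hQ1, hP1]
      exact hQ2.symm
    omega
  have hPi : ∀ i, i ≤ D0 → D (Sum.inl 1) (conePi E N (γ i)) = i := by
    intro i hi
    have := hproj 0 i (Nat.zero_le _) hi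
    rw [hγ0, hP1] at this
    omega
  have hiQ : ∀ i, i ≤ D0 → D (conePi E N (γ i)) (Sum.inl c) = D0 - i := by
    intro i hi
    have := hproj i D0 hi le_rfl
    rw [hγ1, hQ1] at this
    exact this
  -- local lifts
  have hloc : ∀ (i : ℕ) (g : G), L0 ≤ i → i + L0 ≤ D0 → γ i = Sum.inl g →
      ∃ h : G, (h : G ⧸ N) = (g : G ⧸ N)⁻¹ * f * g ∧ d 1 h ≤ B0 ∧ h ≠ 1 ∧ Odd (orderOf h) := by
    intro i g hi1 hi2 hg
    have hv : conePi E N (γ i) = Sum.inl (g : G ⧸ N) := by rw [hg]; rfl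
    have e1 := hPi i (by omega)
    have e2 := hiQ i (by omega)
    rw [hv] at e1 e2
    have hbt : Btw D (Sum.inl 1) (Sum.inl (g : G ⧸ N)) (Sum.inl c) := by
      unfold Btw
      rw [e1, e2, ← hQ2]
      omega
    have hvM : ∀ j : ℕ, D (Sum.inl (g : G ⧸ N)) (f ^ j • Sum.inl (g : G ⧸ N)) ≤ 40 * δ + 40 :=
      fun j => deep hgeo hF.hyp hF.act.isom f hfof (Sum.inl 1) (Sum.inl c) _ M hM hQM hbt
        (by omega) (by omega) j
    have hβ := fun j s hs => mid_beta hF.act f (Sum.inl 1) (Sum.inl c) (Sum.inl (g : G ⧸ N))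
      (hnl 1) (hnl c) (hnl _) M (40 * δ + 40) hM hd hbt hvM (by omega) (by omega) j s hs
    apply local_hom hH hC hF f hf hfo g B0 (by omega)
    intro j
    have e3 : (g : G ⧸ N) • (Sum.inl 1 : Cone (G ⧸ N) (E.map (QuotientGroup.mk' N))) =
        Sum.inl (g : G ⧸ N) := by
      rw [Sum.smul_inl]; simp
    have e4 : (g : G ⧸ N) • (Sum.inl ((g : G ⧸ N)⁻¹ * f ^ j * g) :
        Cone (G ⧸ N) (E.map (QuotientGroup.mk' N))) = f ^ j • Sum.inl (g : G ⧸ N) := by
      rw [Sum.smul_inl, Sum.smul_inl]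
      congr 1
      simp [smul_eq_mul, mul_assoc]
    apply hB0 n (y0 ^ n) N D β hF
    · rw [← hF.act.isom (g : G ⧸ N), e3, e4]
      exact hvM j
    · intro s
      have hs : (Sum.inr s : Cone (G ⧸ N) (E.map (QuotientGroup.mk' N))) ∈
        Apx (G ⧸ N) (E.map (QuotientGroup.mk' N)) := ⟨s, rfl⟩
      rw [← hF.act.a_inv (g : G ⧸ N) _ hs _ _ Sum.inl_ne_inr Sum.inl_ne_inr, e3, e4]
      exact hβ j _ (hF.act.inS _ _ hs)
  -- choice of the indices
  have hidx : ∀ k : ℕ, ∃ (i : ℕ) (g : G), k < K →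
      (i = L0 + 2 * k ∨ i = L0 + 2 * k + 1) ∧ γ i = Sum.inl g := by
    intro k
    by_cases hk : k < K
    · cases hcase : γ (L0 + 2 * k) with
      | inl g => exact ⟨L0 + 2 * k, g, fun _ => ⟨Or.inl rfl, hcase⟩⟩
      | inr s =>
        cases hcase2 : γ (L0 + 2 * k + 1) with
        | inl g => exact ⟨L0 + 2 * k + 1, g, fun _ => ⟨Or.inr rfl, hcase2⟩⟩
        | inr t =>
          exfalso
          have e1 := hγd (L0 + 2 * k) (L0 + 2 * k + 1) (by omega) (by omega)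
          rw [hcase, hcase2] at e1
          exact hC.act.cas.nadj _ ⟨s, rfl⟩ _ ⟨t, rfl⟩ (by omega)
    · exact ⟨0, 1, fun h => absurd h hk⟩
  choose idx g hig using hidx
  have hhk : ∀ k : ℕ, ∃ h : G, k < K →
      (h : G ⧸ N) = (g k : G ⧸ N)⁻¹ * f * g k ∧ d 1 h ≤ B0 ∧ h ≠ 1 ∧ Odd (orderOf h) := by
    intro k
    by_cases hk : k < K
    · obtain ⟨h1, h2⟩ := hig k hk
      obtain ⟨h, hh⟩ := hloc (idx k) (g k) (by omega) (by omega) h2
      exact ⟨h, fun _ => hh⟩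
    · exact ⟨1, fun h => absurd h hk⟩
  choose h hh using hhk
  have hstep : ∀ k, k + 1 < K → g k * h k * (g k)⁻¹ = g (k + 1) * h (k + 1) * (g (k + 1))⁻¹ := by
    intro k hk
    obtain ⟨a1, a2⟩ := hig k (by omega)
    obtain ⟨b1, b2⟩ := hig (k + 1) hk
    obtain ⟨c1, c2, -, -⟩ := hh k (by omega)
    obtain ⟨d1, d2, -, -⟩ := hh (k + 1) hk
    apply same_conj hH hC hF f (g k) (g (k + 1)) (h k) (h (k + 1)) B0 B2 (by omega) c1 d1 c2 d2
    have e3 : (g k) • (Sum.inl 1 : Cone G E) = Sum.inl (g k) := by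
      rw [Sum.smul_inl]; simp
    have e4 : (g k) • (Sum.inl ((g k)⁻¹ * g (k + 1)) : Cone G E) = Sum.inl (g (k + 1)) := by
      rw [Sum.smul_inl]; simp
    have e5 : cd d E (γ (idx k)) (γ (idx (k + 1))) = idx (k + 1) - idx k :=
      hγd _ _ (by omega) (by omega)
    apply hB2
    · rw [← hC.act.isom (g k), e3, e4, ← a2, ← b2, e5]
      omega
    · intro s
      have hs : (Sum.inr s : Cone G E) ∈ Apx G E := ⟨s, rfl⟩
      rw [← hC.act.a_inv (g k) _ hs _ _ Sum.inl_ne_inr Sum.inl_ne_inr, e3, e4]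
      have hs' := hC.act.inS (g k) _ hs
      obtain ⟨t, ht⟩ := hs'
      rw [← ht]
      by_cases hsm : α (Sum.inr t) (Sum.inl (g k)) (Sum.inl (g (k + 1))) ≤ θ
      · omega
      push Not at hsm
      have hbt := hC.act.cas.k1 (Sum.inr t) ⟨t, rfl⟩ _ _ Sum.inl_ne_inr Sum.inl_ne_inr hsm
      have hb1 : Btw (cd d E) (Sum.inl 1) (Sum.inl (g k)) (Sum.inl (g (k + 1))) := by
        have f1 := hγd 0 (idx k) (by omega) (by omega)
        have f2 := hγd 0 (idx (k + 1)) (by omega) (by omega)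
        rw [hγ0, a2] at f1
        rw [hγ0, b2] at f2
        rw [a2, b2] at e5
        unfold Btw
        omega
      have hb2 : Btw (cd d E) (Sum.inl (g k)) (Sum.inl (g (k + 1))) Q := by
        have f1 := hγd (idx k) D0 (by omega) (by omega)
        have f2 := hγd (idx (k + 1)) D0 (by omega) (by omega)
        rw [hγ1, a2] at f1
        rw [hγ1, b2] at f2
        rw [a2, b2] at e5
        unfold Btw
        omega
      have hQne : (Sum.inr t : Cone G E) ≠ Q := by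
        intro he
        rw [← he] at hQ1
        exact Sum.inr_ne_inl hQ1
      apply up_alpha hC.act.cas (Sum.inl 1) Q (Sum.inl (g k)) (Sum.inl (g (k + 1))) (Sum.inr t)
        ⟨t, rfl⟩ Sum.inr_ne_inl hQne Sum.inr_ne_inl Sum.inr_ne_inl hb1 hb2
      have hq3 := hQ3 (Sum.inr t) ⟨t, rfl⟩ Sum.inr_ne_inl hQne
      have hle := hF.le (Sum.inl (g k)) (Sum.inr t)
      have f1 := hPi (idx k) (by omega)
      have f2 := hiQ (idx k) (by omega)
      rw [a2] at f1 f2
      have f3 := hgeo.tri (Sum.inl 1) (conePi E N (Sum.inr t)) (conePi E N (Sum.inl (g k)))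
      have f4 := hgeo.symm (conePi E N (Sum.inr t)) (conePi E N (Sum.inl (g k)))
      have f5 := hgeo.tri (conePi E N (Sum.inl (g k))) (conePi E N (Sum.inr t)) (Sum.inl c)
      have f6 : cd d E (Sum.inl (g k)) (Sum.inr t) ≤ 3 := by
        rw [a2, b2] at e5
        unfold Btw at hbt
        omega
      have := hd (conePi E N (Sum.inr t)) ⟨_, rfl⟩ (by omega) (by omega)
      omega
  have hF0 : ∀ k < K, g k * h k * (g k)⁻¹ = g 0 * h 0 * (g 0)⁻¹ := by
    intro k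
    induction k with
    | zero => intro _; rfl
    | succ k ih =>
      intro hk
      rw [← hstep k hk, ih (by omega)]
  apply count T hTf g h (g 0 * h 0 * (g 0)⁻¹) hF0
  · intro k hk c hc
    obtain ⟨-, c2, c3, c4⟩ := hh k hk
    exact ⟨c2, c3, c4, hc⟩
  · intro k hk l hl hkl
    obtain ⟨a1, a2⟩ := hig k hk
    obtain ⟨b1, b2⟩ := hig l hl
    rw [hkl, ← b2] at a2
    rcases le_total (idx k) (idx l) with h1 | h1
    · have e5 := hγd _ _ h1 (by omega)
      rw [a2, hgeoX.self] at e5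
      omega
    · have e5 := hγd _ _ h1 (by omega)
      rw [a2, hgeoX.self] at e5
      omega

end Pool.Agent.Lib.MP_f1646b_al
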