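import Pool.Agent.Lib.MP_f1646b_al.Defs

set_option autoImplicit false

namespace Pool.Agent.Lib.MP_f1646b_al

open scoped Pointwise

namespace P22a

variable {G : Type*} [Group G]

/-! ### frames -/

theorem inv_of_sq {w : G} (h : w ^ 2 = 1) : w⁻¹ = w := by
  rw [inv_eq_iff_mul_eq_one, ← pow_two]; exact h

theorem mul_self_of_sq {w : G} (h : w ^ 2 = 1) : w * w = 1 := by rw [← pow_two]; exact h

theorem fr_swap {w w' : G} (h : Frame w w') : Frame w' w :=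
  ⟨h.2.1, h.1, h.2.2.1.symm, h.2.2.2.2.1, h.2.2.2.1, h.2.2.2.2.2.symm⟩

theorem fr_mul_ne {w w' : G} (h : Frame w w') : w * w' ≠ 1 := by
  intro h1
  apply h.2.2.2.2.2
  rw [mul_eq_one_iff_eq_inv] at h1
  rw [h1, inv_of_sq h.2.1]

theorem fr_mul_sq {w w' : G} (h : Frame w w') : (w * w') ^ 2 = 1 := by
  rw [(show Commute w w' from h.2.2.1).mul_pow, h.1, h.2.1, one_mul]

/-- rotation -/
theorem fr_rot {w w' : G} (h : Frame w w') : Frame w' (w * w') := by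
  refine ⟨h.2.1, fr_mul_sq h, ?_, h.2.2.2.2.1, fr_mul_ne h, ?_⟩
  · rw [← mul_assoc, ← h.2.2.1]
  · intro h1
    exact h.2.2.2.1 (by simpa using h1.symm)

theorem fr_rot_rot {w w' : G} (h : Frame w w') : w' * (w * w') = w := by
  rw [← mul_assoc, ← h.2.2.1, mul_assoc, mul_self_of_sq h.2.1, mul_one]

theorem fr_rot2 {w w' : G} (h : Frame w w') : Frame (w * w') w := by
  have := fr_rot (fr_rot h)
  rw [fr_rot_rot h] at this
  exact this

theorem fr_conj {w w' : G} (h : Frame w w') (g : G) :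
    Frame (g * w * g⁻¹) (g * w' * g⁻¹) := by
  obtain ⟨h1, h2, h3, h4, h5, h6⟩ := h
  refine ⟨?_, ?_, ?_, ?_, ?_, ?_⟩
  · rw [conj_pow, h1]; simp
  · rw [conj_pow, h2]; simp
  · rw [conj_mul, conj_mul, h3]
  · intro h; exact h4 (by simpa using h)
  · intro h; exact h5 (by simpa using h)
  · intro h; exact h6 (by simpa using h)

theorem fr_unconj {w w' g : G} (h : Frame (g * w * g⁻¹) (g * w' * g⁻¹)) : Frame w w' := by
  have := fr_conj h g⁻¹
  have e : ∀ x : G, g⁻¹ * (g * x * g⁻¹) * g⁻¹⁻¹ = x := fun x => by group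
  rwa [e, e] at this

theorem frame_iff {w w' u u' : G} (h : FrEq w w' u u') : Frame w w' ↔ Frame u u' := by
  obtain ⟨g, h | h | h⟩ := h
  · obtain ⟨rfl, rfl⟩ := h
    exact ⟨fun h => fr_conj h g, fun h => fr_unconj h⟩
  · obtain ⟨rfl, h2⟩ := h
    constructor
    · intro h
            -- `(gwg⁻¹) * (u * (gwg⁻¹)) = u`
      have h4 : Frame (g * w * g⁻¹) (u * (g * w * g⁻¹)) := by rw [← h2]; exact fr_conj h g
      have h5 : g * w * g⁻¹ * (u * (g * w * g⁻¹)) = u := by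
        have h6 : u * (g * w * g⁻¹) * (g * w * g⁻¹) = u := by
          rw [mul_assoc, mul_self_of_sq h4.1, mul_one]
        rw [h4.2.2.1]; exact h6
      have h7 := fr_rot2 h4
      rw [h5] at h7
      exact h7
    · intro h
      apply fr_unconj (g := g)
      rw [h2]
      exact fr_rot h
  · obtain ⟨h1, rfl⟩ := h
    constructor
    · intro h
      have h4 : Frame (g * w' * g⁻¹ * u') (g * w' * g⁻¹) := by rw [← h1]; exact fr_conj h g
      have h5 : g * w' * g⁻¹ * (g * w' * g⁻¹ * u') = u' := by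
        rw [← mul_assoc, mul_self_of_sq h4.2.1, one_mul]
      have h7 := fr_rot h4
      rw [← h4.2.2.1] at h5
      rw [h5] at h7
      exact h7
    · intro h
      apply fr_unconj (g := g)
      rw [h1]
      exact fr_rot2 h

theorem frEq_rev {w w' u u' : G} (hf : Frame u u') (h : FrEq w w' u u') : FrEq w' w u' u := by
  obtain ⟨g, ⟨h1, h2⟩ | ⟨h1, h2⟩ | ⟨h1, h2⟩⟩ := h
  · exact ⟨g, Or.inl ⟨h2, h1⟩⟩
  · exact ⟨g, Or.inr (Or.inr ⟨by rw [h2, hf.2.2.1], h1⟩)⟩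
  · exact ⟨g, Or.inr (Or.inl ⟨h2, by rw [h1, hf.2.2.1]⟩)⟩

/-! ### the group `E` -/

variable {E : Subgroup G} {ε τ : G → ℤ} {y0 : G}

theorem eps_one (hE : EData E ε τ y0) : ε 1 = 1 := by
  have h1 := hE.eps_mul 1 E.one_mem 1 E.one_mem
  rw [mul_one] at h1
  rcases hE.eps_sq 1 E.one_mem with h | h
  · exact h
  · rw [h] at h1; norm_num at h1

theorem tau_one (hE : EData E ε τ y0) : τ 1 = 0 := by
  have h1 := hE.tau_mul 1 E.one_mem 1 E.one_mem
  rw [mul_one, eps_one hE] at h1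
  omega

theorem y0_zpow_mem (hE : EData E ε τ y0) (m : ℤ) : y0 ^ m ∈ E := E.zpow_mem hE.y0_mem m

theorem eps_inv (hE : EData E ε τ y0) {e : G} (he : e ∈ E) : ε e⁻¹ = ε e := by
  have h1 := hE.eps_mul e he e⁻¹ (E.inv_mem he)
  rw [mul_inv_cancel, eps_one hE] at h1
  rcases hE.eps_sq e he with h | h <;> rcases hE.eps_sq _ (E.inv_mem he) with h' | h' <;>
    rw [h, h'] at h1 ⊢ <;> omega

theorem tau_inv (hE : EData E ε τ y0) {e : G} (he : e ∈ E) : τ e⁻¹ = -(ε e * τ e) := by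
  have h1 := hE.tau_mul e he e⁻¹ (E.inv_mem he)
  rw [mul_inv_cancel, tau_one hE] at h1
  rcases hE.eps_sq e he with h | h <;> rw [h] at h1 ⊢ <;> omega

theorem eps_y0_zpow (hE : EData E ε τ y0) (m : ℤ) : ε (y0 ^ m) = 1 := by
  induction m using Int.induction_on with
  | zero => rw [zpow_zero, eps_one hE]
  | succ i ih =>
    rw [zpow_add, zpow_one, hE.eps_mul _ (y0_zpow_mem hE _) _ hE.y0_mem, ih, hE.eps_y0, mul_one]
  | pred i ih =>
    rw [zpow_sub, zpow_one, hE.eps_mul _ (y0_zpow_mem hE _) _ (E.inv_mem hE.y0_mem), ih,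
      eps_inv hE hE.y0_mem, hE.eps_y0, mul_one]

theorem tau_y0_zpow (hE : EData E ε τ y0) (m : ℤ) : τ (y0 ^ m) = m := by
  induction m using Int.induction_on with
  | zero => rw [zpow_zero, tau_one hE]
  | succ i ih =>
    rw [zpow_add, zpow_one, hE.tau_mul _ (y0_zpow_mem hE _) _ hE.y0_mem, ih, eps_y0_zpow hE,
      hE.tau_y0, mul_one]
  | pred i ih =>
    rw [zpow_sub, zpow_one, hE.tau_mul _ (y0_zpow_mem hE _) _ (E.inv_mem hE.y0_mem), ih,
      eps_y0_zpow hE, tau_inv hE hE.y0_mem, hE.eps_y0, hE.tau_y0]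
    ring

/-- reflections commute with the kernel -/
theorem comm_kr (hE : EData E ε τ y0) {k r : G} (hk : k ∈ E) (hr : r ∈ E) (hk1 : ε k = 1)
    (hk0 : τ k = 0) (hr1 : ε r = -1) : k * r = r * k := by
  have h1 : ε (r * k) = -1 := by rw [hE.eps_mul _ hr _ hk, hr1, hk1]; rfl
  have h2 := hE.refl_sq _ (E.mul_mem hr hk) h1
  have h3 := hE.refl_sq _ hr hr1
  have h4 := hE.ker_sq _ hk hk1 hk0
  have h5 := inv_of_sq h2
  rw [mul_inv_rev, inv_of_sq h3, inv_of_sq h4] at h5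
  exact h5

theorem frame_kr (hE : EData E ε τ y0) {k r : G} (hk : k ∈ E) (hr : r ∈ E) (hk1 : ε k = 1)
    (hk0 : τ k = 0) (hkn : k ≠ 1) (hr1 : ε r = -1) : Frame k r := by
  refine ⟨hE.ker_sq _ hk hk1 hk0, hE.refl_sq _ hr hr1, comm_kr hE hk hr hk1 hk0 hr1, hkn, ?_, ?_⟩
  · rintro rfl
    rw [eps_one hE] at hr1; norm_num at hr1
  · rintro rfl
    rw [hk1] at hr1; norm_num at hr1

theorem eps_mul_y0 (hE : EData E ε τ y0) {r : G} (hr : r ∈ E) (hr1 : ε r = -1) (m : ℤ) :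
    ε (r * y0 ^ m) = -1 := by
  rw [hE.eps_mul _ hr _ (y0_zpow_mem hE m), hr1, eps_y0_zpow hE]; rfl

theorem y0_zpow_refl (hE : EData E ε τ y0) {r : G} (hr : r ∈ E) (hr1 : ε r = -1) (m : ℤ) :
    y0 ^ m * r = r * y0 ^ (-m) := by
  have h1 := hE.refl_sq _ (E.mul_mem hr (y0_zpow_mem hE (-m))) (eps_mul_y0 hE hr hr1 (-m))
  have h2 := inv_of_sq h1
  rw [mul_inv_rev, inv_of_sq (hE.refl_sq _ hr hr1), ← zpow_neg, neg_neg] at h2
  exact h2

theorem frame_iff_rel (hE : EData E ε τ y0) {w w' u u' : G} (h : FrRel E ε τ y0 w w' u u') :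
    Frame w w' ↔ Frame u u' := by
  induction h with
  | eq w w' u u' h => exact frame_iff h
  | kr k r hk hr hk1 hk0 hkn hr1 =>
    have h1 := eps_mul_y0 hE hr hr1 1
    rw [zpow_one] at h1
    exact iff_of_true (frame_kr hE hk hr hk1 hk0 hkn hr1)
      (frame_kr hE hk (E.mul_mem hr hE.y0_mem) hk1 hk0 hkn h1)
  | rk k r hk hr hk1 hk0 hkn hr1 =>
    have h1 := eps_mul_y0 hE hr hr1 1
    rw [zpow_one] at h1
    exact iff_of_true (fr_swap (frame_kr hE hk hr hk1 hk0 hkn hr1))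
      (fr_swap (frame_kr hE hk (E.mul_mem hr hE.y0_mem) hk1 hk0 hkn h1))
  | symm w w' u u' h ih => exact ih.symm
  | trans w w' u u' v v' h h' ih ih' => exact ih.trans ih'

/-- iteration of `kr` -/
theorem kr_zpow (hE : EData E ε τ y0) {k r : G} (hk : k ∈ E) (hr : r ∈ E) (hk1 : ε k = 1)
    (hk0 : τ k = 0) (hkn : k ≠ 1) (hr1 : ε r = -1) (m : ℤ) :
    FrRel E ε τ y0 k r k (r * y0 ^ m) := by
  induction m using Int.induction_on with
  | zero =>
    rw [zpow_zero, mul_one]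
    exact FrRel.eq _ _ _ _ ⟨1, Or.inl ⟨by simp, by simp⟩⟩
  | succ i ih =>
    refine FrRel.trans _ _ _ _ _ _ ih ?_
    rw [zpow_add, zpow_one, ← mul_assoc]
    exact FrRel.kr _ _ hk (E.mul_mem hr (y0_zpow_mem hE _)) hk1 hk0 hkn (eps_mul_y0 hE hr hr1 _)
  | pred i ih =>
    refine FrRel.trans _ _ _ _ _ _ ih (FrRel.symm _ _ _ _ ?_)
    have h1 := FrRel.kr (y0 := y0) k (r * y0 ^ (-(i:ℤ) - 1)) hk
      (E.mul_mem hr (y0_zpow_mem hE _)) hk1 hk0 hkn (eps_mul_y0 hE hr hr1 _)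
    rw [mul_assoc, ← zpow_add_one, sub_add_cancel] at h1
    exact h1

end P22a

open P22a

theorem no_swap_fin {H : Type*} [Group H] (h1 : ∀ x : H, x ^ 4 = 1 → x ^ 2 = 1) (w w' x : H)
    (hw : Frame w w') (hx : IsOfFinOrder x) (hxw : x * w * x⁻¹ = w') : x * w' * x⁻¹ ≠ w := by
  intro hxw'
  have key : ∀ (a : ℕ) (y : H), y ^ 2 ^ a = 1 → y ^ 2 = 1 := by
    intro a
    induction a with
    | zero => intro y hy; rw [pow_zero, pow_one] at hy; rw [hy, one_pow]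
    | succ a ih =>
      intro y hy
      rcases a with _ | b
      · simpa using hy
      · apply ih
        have h2 : (y ^ 2 ^ b) ^ 4 = 1 := by
          rw [← pow_mul, ← hy]; congr 1; ring
        have h3 := h1 _ h2
        rw [← pow_mul] at h3
        rw [pow_succ]; exact h3
  obtain ⟨a, m, hm, ham⟩ := Nat.exists_eq_two_pow_mul_odd (orderOf_pos_iff.2 hx).ne'
  obtain ⟨k, hk⟩ := hm
  have hc : Commute (x ^ 2) w := by
    have : x ^ 2 * w * (x ^ 2)⁻¹ = w := by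
      calc x ^ 2 * w * (x ^ 2)⁻¹ = x * (x * w * x⁻¹) * x⁻¹ := by rw [pow_two]; group
        _ = w := by rw [hxw, hxw']
    exact mul_inv_eq_iff_eq_mul.1 this
  have hc' : Commute (x ^ 2) w' := by
    have : x ^ 2 * w' * (x ^ 2)⁻¹ = w' := by
      calc x ^ 2 * w' * (x ^ 2)⁻¹ = x * (x * w' * x⁻¹) * x⁻¹ := by rw [pow_two]; group
        _ = w' := by rw [hxw', hxw]
    exact mul_inv_eq_iff_eq_mul.1 this
  obtain ⟨y, hy⟩ : ∃ y, y = x ^ m := ⟨_, rfl⟩
  have hyx : y = x * (x ^ 2) ^ k := by rw [hy, hk, ← pow_mul, ← pow_succ']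
  have hyw : y * w * y⁻¹ = w' := by
    have h2 : (x ^ 2) ^ k * w * ((x ^ 2) ^ k)⁻¹ = w := by
      rw [(hc.pow_left k).eq, mul_inv_cancel_right]
    calc y * w * y⁻¹ = x * ((x ^ 2) ^ k * w * ((x ^ 2) ^ k)⁻¹) * x⁻¹ := by rw [hyx]; group
      _ = w' := by rw [h2, hxw]
  have hy2 : y ^ 2 = 1 := by
    apply key a
    rw [hy, ← pow_mul, mul_comm, ← ham, pow_orderOf_eq_one]
  have hyi := inv_of_sq hy2
  have h3 : (w * y) ^ 2 = w * w' := by
    rw [pow_two]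
    calc w * y * (w * y) = w * (y * w * y⁻¹) := by rw [hyi]; group
      _ = w * w' := by rw [hyw]
  have h4 : (w * y) ^ 4 = 1 := by
    rw [show (4:ℕ) = 2 * 2 from rfl, pow_mul, h3, fr_mul_sq hw]
  have h5 := h1 _ h4
  rw [h3] at h5
  exact fr_mul_ne hw h5

theorem frRel_rev {G : Type*} [Group G] {E : Subgroup G} {ε τ : G → ℤ} {y0 : G}
    (hE : EData E ε τ y0) (w w' u u' : G) (hw : Frame w w') (h : FrRel E ε τ y0 w w' u u') :
    FrRel E ε τ y0 w' w u' u := by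
  induction h with
  | eq w w' u u' h => exact FrRel.eq _ _ _ _ (frEq_rev ((frame_iff h).1 hw) h)
  | kr k r hk hr hk1 hk0 hkn hr1 => exact FrRel.rk _ _ hk hr hk1 hk0 hkn hr1
  | rk k r hk hr hk1 hk0 hkn hr1 => exact FrRel.kr _ _ hk hr hk1 hk0 hkn hr1
  | symm w w' u u' h ih =>
    exact FrRel.symm _ _ _ _ (ih ((frame_iff_rel hE h).2 hw))
  | trans w w' u u' v v' h h' ih ih' =>
    exact FrRel.trans _ _ _ _ _ _ (ih hw) (ih' ((frame_iff_rel hE h).1 hw))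

theorem orientE {G : Type*} [Group G] {E : Subgroup G} {ε τ : G → ℤ} {y0 : G}
    (hE : EData E ε τ y0) (n : ℕ) (hn : 0 < n) (u u' v v' : G) (hu : u ∈ E) (hu' : u' ∈ E)
    (hf : Frame u u') (hf' : Frame v v') (i j : ℤ) (h1 : v = (y0 ^ n) ^ i * u)
    (h2 : v' = (y0 ^ n) ^ j * u') : FrRel E ε τ y0 u u' v v' := by
  have hz : ∀ i : ℤ, (y0 ^ n) ^ i = y0 ^ ((n:ℤ) * i) := fun i => by
    rw [zpow_mul, zpow_natCast]
  rw [hz] at h1 h2
  have hn' : (n:ℤ) ≠ 0 := by exact_mod_cast hn.ne'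
  -- involutions of sign `+` have `τ = 0`
  have hτ : ∀ e ∈ E, ε e = 1 → e ^ 2 = 1 → τ e = 0 := by
    intro e he he1 he2
    have h3 := hE.tau_mul e he e he
    rw [← pow_two, he2, tau_one hE, he1] at h3
    omega
  have hv : v ∈ E := by rw [h1]; exact E.mul_mem (y0_zpow_mem hE _) hu
  have hv' : v' ∈ E := by rw [h2]; exact E.mul_mem (y0_zpow_mem hE _) hu'
  have hstep : ∀ (u v : G) (i : ℤ), u ∈ E → u ^ 2 = 1 → v ^ 2 = 1 → ε u = 1 →
      v = y0 ^ ((n:ℤ) * i) * u → v = u := by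
    intro u v i hu hu2 hv2 he h
    have hv : v ∈ E := by rw [h]; exact E.mul_mem (y0_zpow_mem hE _) hu
    have h3 : ε v = 1 := by
      rw [h, hE.eps_mul _ (y0_zpow_mem hE _) _ hu, eps_y0_zpow hE, he, one_mul]
    have h4 := hτ v hv h3 hv2
    rw [h, hE.tau_mul _ (y0_zpow_mem hE _) _ hu, tau_y0_zpow hE, eps_y0_zpow hE,
      hτ u hu he hu2] at h4
    have h5 : i = 0 := by
      rcases mul_eq_zero.1 (show (n:ℤ) * i = 0 by omega) with h5 | h5
      · exact absurd h5 hn'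
      · exact h5
    rw [h, h5, mul_zero, zpow_zero, one_mul]
  have hrefl : ∀ (u v : G) (i : ℤ), u ∈ E → ε u = -1 → v = y0 ^ i * u → v = u * y0 ^ (-i) :=
    fun u v i hu he h => by rw [h, y0_zpow_refl hE hu he]
  rcases hE.eps_sq u hu with he | he <;> rcases hE.eps_sq u' hu' with he' | he'
  · rw [hstep u v i hu hf.1 hf'.1 he h1, hstep u' v' j hu' hf.2.1 hf'.2.1 he' h2]
    exact FrRel.eq _ _ _ _ ⟨1, Or.inl ⟨by simp, by simp⟩⟩
  · rw [hstep u v i hu hf.1 hf'.1 he h1, hrefl u' v' _ hu' he' h2]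
    exact kr_zpow hE hu hu' he (hτ u hu he hf.1) hf.2.2.2.1 he' _
  · rw [hstep u' v' j hu' hf.2.1 hf'.2.1 he' h2, hrefl u v _ hu he h1]
    have h3 := kr_zpow hE hu' hu he' (hτ u' hu' he' hf.2.1) hf.2.2.2.2.1 he (-((n:ℤ) * i))
    exact frRel_rev hE _ _ _ _ (fr_swap hf) h3
  · -- both are reflections
    obtain ⟨k, hk⟩ : ∃ k, k = u * u' := ⟨_, rfl⟩
    have hkE : k ∈ E := by rw [hk]; exact E.mul_mem hu hu'
    have hke : ε k = 1 := by rw [hk, hE.eps_mul _ hu _ hu', he, he']; rfl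
    have hk2 : k ^ 2 = 1 := by rw [hk]; exact fr_mul_sq hf
    have hk0 := hτ k hkE hke hk2
    have hkn : k ≠ 1 := by rw [hk]; exact fr_mul_ne hf
    have hvv : v * v' = k := by
      have h3 : v * v' = y0 ^ ((n:ℤ) * (i - j)) * k := by
        rw [h1, h2, hk]
        calc y0 ^ ((n:ℤ) * i) * u * (y0 ^ ((n:ℤ) * j) * u')
            = y0 ^ ((n:ℤ) * i) * (u * y0 ^ (-(-((n:ℤ) * j)))) * u' := by rw [neg_neg]; group
          _ = y0 ^ ((n:ℤ) * i) * (y0 ^ (-((n:ℤ) * j)) * u) * u' := by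
              rw [y0_zpow_refl hE hu he (-((n:ℤ) * j))]
          _ = y0 ^ ((n:ℤ) * (i - j)) * (u * u') := by
              rw [← mul_assoc, ← zpow_add, mul_assoc]
              congr 2; ring
      exact hstep k (v * v') (i - j) hkE hk2 (fr_mul_sq hf') hke h3
    have hv1 := hrefl u v _ hu he h1
    have a1 : FrRel E ε τ y0 k u u u' :=
      FrRel.eq _ _ _ _ ⟨1, Or.inr (Or.inr ⟨by rw [hk]; simp, by simp⟩)⟩
    have a2 : FrRel E ε τ y0 k v v v' :=
      FrRel.eq _ _ _ _ ⟨1, Or.inr (Or.inr ⟨by rw [← hvv]; simp, by simp⟩)⟩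
    have a3 : FrRel E ε τ y0 k u k v := by
      rw [hv1]
      exact kr_zpow hE hkE hu hke hk0 hkn he _
    exact FrRel.trans _ _ _ _ _ _ (FrRel.symm _ _ _ _ a1) (FrRel.trans _ _ _ _ _ _ a3 a2)

end Pool.Agent.Lib.MP_f1646b_al
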