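import Pool.Agent.Lib.MP_f1646b_al.P22a

set_option autoImplicit false

namespace Pool.Agent.Lib.MP_f1646b_al

open scoped Pointwise

namespace P22b

open P22a

variable {G : Type*} [Group G]

theorem frEq_refl (w w' : G) : FrEq w w' w w' := ⟨1, Or.inl ⟨by simp, by simp⟩⟩

theorem conj_conj (h g x : G) : h * g * x * (h * g)⁻¹ = h * (g * x * g⁻¹) * h⁻¹ := by group

theorem frEq_trans {w w' u u' v v' : G} (hv : Frame v v') (h1 : FrEq w w' u u')
    (h2 : FrEq u u' v v') : FrEq w w' v v' := by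
  obtain ⟨g, hg⟩ := h1
  obtain ⟨h, hh⟩ := h2
  have r1 : v' * (v * v') = v := fr_rot_rot hv
  have r2 : v * v' * v = v' := by
    rw [hv.2.2.1, mul_assoc, mul_self_of_sq hv.1, mul_one]
  refine ⟨h * g, ?_⟩
  rw [conj_conj, conj_conj]
  rcases hg with ⟨a, b⟩ | ⟨a, b⟩ | ⟨a, b⟩ <;> rcases hh with ⟨c, e⟩ | ⟨c, e⟩ | ⟨c, e⟩ <;>
    rw [a, b]
  · exact Or.inl ⟨c, e⟩
  · exact Or.inr (Or.inl ⟨c, e⟩)
  · exact Or.inr (Or.inr ⟨c, e⟩)
  · exact Or.inr (Or.inl ⟨e, by rw [← conj_mul, c, e]⟩)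
  · exact Or.inr (Or.inr ⟨e, by rw [← conj_mul, c, e, r1]⟩)
  · exact Or.inl ⟨e, by rw [← conj_mul, c, e, r2]⟩
  · exact Or.inr (Or.inr ⟨by rw [← conj_mul, c, e], c⟩)
  · exact Or.inl ⟨by rw [← conj_mul, c, e, r1], c⟩
  · exact Or.inr (Or.inl ⟨by rw [← conj_mul, c, e, r2], c⟩)

theorem frEq_symm {w w' u u' : G} (hw : Frame w w') (h : FrEq w w' u u') : FrEq u u' w w' := by
  have hu := (frame_iff h).1 hw
  obtain ⟨g, hg⟩ := h
  have e : ∀ x y : G, g * x * g⁻¹ = y → g⁻¹ * y * g⁻¹⁻¹ = x := by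
    rintro x y rfl; group
  refine ⟨g⁻¹, ?_⟩
  rcases hg with ⟨a, b⟩ | ⟨a, b⟩ | ⟨a, b⟩
  · exact Or.inl ⟨e _ _ a, e _ _ b⟩
  · refine Or.inr (Or.inr ⟨?_, e _ _ a⟩)
    apply e
    rw [← conj_mul, a, b]
    exact fr_rot_rot hu
  · refine Or.inr (Or.inl ⟨e _ _ b, ?_⟩)
    apply e
    rw [← conj_mul, a, b, hu.2.2.1, mul_assoc, mul_self_of_sq hu.1, mul_one]

theorem not_self_rev (hA : AInv G) {w w' : G} (hw : Frame w w') : ¬ FrEq w w' w' w := by
  rintro ⟨g, ⟨a, b⟩ | ⟨a, b⟩ | ⟨a, b⟩⟩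
  · exact hA.i3 w w' g hw a b
  · refine hA.i3 w' (w' * w) g (fr_swap (fr_rot2 (fr_swap hw))) b ?_
    rw [← conj_mul, a, b, mul_assoc, mul_self_of_sq hw.1, mul_one]
  · refine hA.i3 w (w' * w) g (fr_rot (fr_swap hw)) a ?_
    rw [← conj_mul, a, b, ← mul_assoc, mul_self_of_sq hw.2.1, one_mul]

variable {E : Subgroup G} {ε τ : G → ℤ} {y0 : G}

/-- the kernel is `{1, k}` -/
theorem ker_eq (hA : AInv G) (hE : EData E ε τ y0) {k r k' : G} (hk : k ∈ E) (hr : r ∈ E)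
    (hk1 : ε k = 1) (hk0 : τ k = 0) (hkn : k ≠ 1) (hr1 : ε r = -1) (hk' : k' ∈ E)
    (hk1' : ε k' = 1) (hk0' : τ k' = 0) (hkn' : k' ≠ 1) : k' = k := by
  by_contra hne
  have hkk : k * k' = k' * k := by
    have h1 : ε (k * k') = 1 := by rw [hE.eps_mul _ hk _ hk', hk1, hk1']; rfl
    have h2 : τ (k * k') = 0 := by rw [hE.tau_mul _ hk _ hk', hk0, hk0', hk1]; rfl
    have h3 := inv_of_sq (hE.ker_sq _ (E.mul_mem hk hk') h1 h2)
    rw [mul_inv_rev, inv_of_sq (hE.ker_sq _ hk hk1 hk0),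
      inv_of_sq (hE.ker_sq _ hk' hk1' hk0')] at h3
    exact h3.symm
  have hf : Frame k k' := ⟨hE.ker_sq _ hk hk1 hk0, hE.ker_sq _ hk' hk1' hk0', hkk, hkn, hkn',
    fun h => hne h.symm⟩
  have h4 : ε r ≠ 1 := by rw [hr1]; norm_num
  rcases hA.i2 k k' r hf (hE.refl_sq _ hr hr1) (comm_kr hE hk hr hk1 hk0 hr1)
    (comm_kr hE hk' hr hk1' hk0' hr1) with h | h | h | h
  · rw [h] at h4; exact h4 (eps_one hE)
  · rw [h] at h4; exact h4 hk1
  · rw [h] at h4; exact h4 hk1'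
  · rw [h, hE.eps_mul _ hk _ hk', hk1, hk1'] at h4; exact h4 rfl

/-- the positive class -/
def Pos (k r0 y0 w w' : G) : Prop := FrEq w w' k r0 ∨ FrEq w w' k (r0 * y0)

end P22b

open P22a P22b

theorem frRel_ne {G : Type*} [Group G] (hA : AInv G) {E : Subgroup G} {ε τ : G → ℤ} {y0 : G}
    (hE : EData E ε τ y0) (w w' : G) (hw : Frame w w') : ¬ FrRel E ε τ y0 w w' w' w := by
  intro hrel
  by_cases hkr : ∃ k r, k ∈ E ∧ r ∈ E ∧ ε k = 1 ∧ τ k = 0 ∧ k ≠ 1 ∧ ε r = -1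
  swap
  · -- no such pair: `FrRel` is `FrEq`
    have key : ∀ w w' u u', FrRel E ε τ y0 w w' u u' → Frame w w' → FrEq w w' u u' := by
      intro w w' u u' h
      induction h with
      | eq w w' u u' h => exact fun _ => h
      | kr k r hk hr hk1 hk0 hkn hr1 => exact absurd ⟨k, r, hk, hr, hk1, hk0, hkn, hr1⟩ hkr
      | rk k r hk hr hk1 hk0 hkn hr1 => exact absurd ⟨k, r, hk, hr, hk1, hk0, hkn, hr1⟩ hkr
      | symm w w' u u' h ih =>
        intro hu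
        have hw := (frame_iff_rel hE h).2 hu
        exact frEq_symm hw (ih hw)
      | trans w w' u u' v v' h h' ih ih' =>
        intro hw
        have hu := (frame_iff_rel hE h).1 hw
        have hv := (frame_iff_rel hE h').1 hu
        exact frEq_trans hv (ih hw) (ih' hu)
    exact not_self_rev hA hw (key _ _ _ _ hrel hw)
  obtain ⟨k, r0, hk, hr0, hk1, hk0, hkn, hr1⟩ := hkr
  have hk2 := hE.ker_sq _ hk hk1 hk0
  have hr2 := hE.refl_sq _ hr0 hr1
  have hfr : ∀ m : ℤ, Frame k (r0 * y0 ^ m) := fun m =>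
    frame_kr hE hk (E.mul_mem hr0 (y0_zpow_mem hE m)) hk1 hk0 hkn (eps_mul_y0 hE hr0 hr1 m)
  have hfr0 : Frame k r0 := by have := hfr 0; rwa [zpow_zero, mul_one] at this
  have hfr1 : Frame k (r0 * y0) := by have := hfr 1; rwa [zpow_one] at this
  -- `k` commutes with the powers of `y0`
  have hky : ∀ m : ℤ, k * y0 ^ m = y0 ^ m * k := by
    intro m
    have h1 := (hfr m).2.2.1
    rw [← mul_assoc, hfr0.2.2.1, mul_assoc, mul_assoc] at h1
    exact mul_left_cancel h1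
  -- conjugation by powers of `y0`
  have hconj : ∀ i j : ℤ, FrEq k (r0 * y0 ^ j) k (r0 * y0 ^ (j - 2 * i)) := by
    intro i j
    refine ⟨y0 ^ i, Or.inl ⟨?_, ?_⟩⟩
    · rw [← hky, mul_inv_cancel_right]
    · rw [← mul_assoc, y0_zpow_refl hE hr0 hr1, ← zpow_neg, mul_assoc, mul_assoc, ← zpow_add,
        ← zpow_add]
      congr 2; ring
  have hpos : ∀ j : ℤ, Pos k r0 y0 k (r0 * y0 ^ j) := by
    intro j
    rcases Int.even_or_odd' j with ⟨i, h | h⟩
    · left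
      have := hconj i j
      rw [h, sub_self, zpow_zero, mul_one] at this
      rw [h]; exact this
    · right
      have := hconj i j
      rw [h, add_sub_cancel_left, zpow_one] at this
      rw [h]; exact this
  -- transport of `Pos` along `FrEq`
  have htr : ∀ {w w' u u' : G}, FrEq w w' u u' → Pos k r0 y0 u u' → Pos k r0 y0 w w' := by
    intro w w' u u' h1 h2
    rcases h2 with h2 | h2
    · exact Or.inl (frEq_trans hfr0 h1 h2)
    · exact Or.inr (frEq_trans hfr1 h1 h2)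
  -- reflections of the second kind
  have hneg : ∀ j : ℤ, Pos k r0 y0 (r0 * y0 ^ j * k) k := by
    intro j
    refine htr (u := k) (u' := r0 * y0 ^ j) ⟨1, Or.inr (Or.inr ⟨?_, by simp⟩)⟩ (hpos j)
    rw [(hfr j).2.2.1]; simp
  -- not both positive and negative
  have hnb : ∀ w w' : G, Frame w w' → Pos k r0 y0 w w' → ¬ Pos k r0 y0 w' w := by
    intro w w' hw h1 h2
    have hori := hE.ori k hk r0 hr0 hk1 hk0 hkn hr1
    rcases h1 with h1 | h1 <;> rcases h2 with h2 | h2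
    · have h3 := frEq_rev hfr0 h2
      exact not_self_rev hA hfr0 (frEq_trans (fr_swap hfr0) (frEq_symm hw h1) h3)
    · have h3 := frEq_rev hfr1 h2
      exact hori (frEq_trans (fr_swap hfr1) (frEq_symm hw h1) h3)
    · have h3 := frEq_rev hfr0 h2
      have h4 := frEq_trans (fr_swap hfr0) (frEq_symm hw h1) h3
      exact hori (frEq_rev hfr1 (frEq_symm hfr1 h4))
    · have h3 := frEq_rev hfr1 h2
      exact not_self_rev hA hfr1 (frEq_trans (fr_swap hfr1) (frEq_symm hw h1) h3)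
  -- the shape of reflections
  have hdec : ∀ r ∈ E, ε r = -1 → ∃ j : ℤ, r = r0 * y0 ^ j ∨ r = r0 * y0 ^ j * k := by
    intro r hr hre
    have he := E.mul_mem hr0 hr
    have he1 : ε (r0 * r) = 1 := by rw [hE.eps_mul _ hr0 _ hr, hr1, hre]; rfl
    have hκ := E.mul_mem (y0_zpow_mem hE (-τ (r0 * r))) he
    have hκ1 : ε (y0 ^ (-τ (r0 * r)) * (r0 * r)) = 1 := by
      rw [hE.eps_mul _ (y0_zpow_mem hE _) _ he, eps_y0_zpow hE, he1]; rfl
    have hκ0 : τ (y0 ^ (-τ (r0 * r)) * (r0 * r)) = 0 := by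
      rw [hE.tau_mul _ (y0_zpow_mem hE _) _ he, eps_y0_zpow hE, tau_y0_zpow hE]; ring
    have e : r = r0 * y0 ^ (τ (r0 * r)) * (y0 ^ (-τ (r0 * r)) * (r0 * r)) := by
      have h1 : r0 * y0 ^ (τ (r0 * r)) * (y0 ^ (-τ (r0 * r)) * (r0 * r)) = r0 * (r0 * r) := by
        group
      rw [h1, ← mul_assoc, mul_self_of_sq hr2, one_mul]
    refine ⟨τ (r0 * r), ?_⟩
    by_cases hκn : y0 ^ (-τ (r0 * r)) * (r0 * r) = 1
    · left; rw [hκn, mul_one] at e; exact e
    · right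
      rw [ker_eq hA hE hk hr0 hk1 hk0 hkn hr1 hκ hκ1 hκ0 hκn] at e
      exact e
  have hkr' : ∀ r ∈ E, ε r = -1 → (Pos k r0 y0 k r ∧ Pos k r0 y0 k (r * y0)) ∨
      (Pos k r0 y0 r k ∧ Pos k r0 y0 (r * y0) k) := by
    intro r hr hre
    obtain ⟨j, rfl | rfl⟩ := hdec r hr hre
    · left
      refine ⟨hpos j, ?_⟩
      have := hpos (j + 1)
      rwa [zpow_add_one, ← mul_assoc] at this
    · right
      refine ⟨hneg j, ?_⟩
      have h1 := hneg (j + 1)
      have h2 := hky 1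
      rw [zpow_one] at h2
      rw [zpow_add_one, ← mul_assoc, mul_assoc, ← h2, ← mul_assoc] at h1
      exact h1
  have key : ∀ w w' u u', FrRel E ε τ y0 w w' u u' → Frame w w' → FrEq w w' u u' ∨
      (Pos k r0 y0 w w' ∧ Pos k r0 y0 u u') ∨ (Pos k r0 y0 w' w ∧ Pos k r0 y0 u' u) := by
    intro w w' u u' h
    induction h with
    | eq w w' u u' h => exact fun _ => Or.inl h
    | kr k' r hk' hr hk1' hk0' hkn' hre =>
      intro _
      rw [ker_eq hA hE hk hr0 hk1 hk0 hkn hr1 hk' hk1' hk0' hkn']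
      exact Or.inr (hkr' r hr hre)
    | rk k' r hk' hr hk1' hk0' hkn' hre =>
      intro _
      rw [ker_eq hA hE hk hr0 hk1 hk0 hkn hr1 hk' hk1' hk0' hkn']
      exact Or.inr (hkr' r hr hre).symm
    | symm w w' u u' h ih =>
      intro hu
      have hw := (frame_iff_rel hE h).2 hu
      rcases ih hw with h1 | h1 | h1
      · exact Or.inl (frEq_symm hw h1)
      · exact Or.inr (Or.inl h1.symm)
      · exact Or.inr (Or.inr h1.symm)
    | trans w w' u u' v v' h h' ih ih' =>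
      intro hw
      have hu := (frame_iff_rel hE h).1 hw
      have hv := (frame_iff_rel hE h').1 hu
      rcases ih hw with h1 | ⟨h1, h1'⟩ | ⟨h1, h1'⟩ <;>
        rcases ih' hu with h2 | ⟨h2, h2'⟩ | ⟨h2, h2'⟩
      · exact Or.inl (frEq_trans hv h1 h2)
      · exact Or.inr (Or.inl ⟨htr h1 h2, h2'⟩)
      · exact Or.inr (Or.inr ⟨htr (frEq_rev hu h1) h2, h2'⟩)
      · exact Or.inr (Or.inl ⟨h1, htr (frEq_symm hu h2) h1'⟩)
      · exact Or.inr (Or.inl ⟨h1, h2'⟩)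
      · exact absurd h2 (hnb _ _ hu h1')
      · exact Or.inr (Or.inr ⟨h1, htr (frEq_rev hu (frEq_symm hu h2)) h1'⟩)
      · exact absurd h1' (hnb _ _ hu h2)
      · exact Or.inr (Or.inr ⟨h1, h2'⟩)
  rcases key _ _ _ _ hrel hw with h1 | ⟨h1, h2⟩ | ⟨h1, h2⟩
  · exact not_self_rev hA hw h1
  · exact hnb _ _ hw h1 h2
  · exact hnb _ _ hw h2 h1

end Pool.Agent.Lib.MP_f1646b_al
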