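import Pool.Agent.Lib.MP_f1646b_al.P19

set_option autoImplicit false

/-!
# MP_f1646b_al, piece P23a : lifts across a gap (helper41)
-/

namespace Pool.Agent.Lib.MP_f1646b_al

open scoped Pointwise

namespace P23a

variable {G : Type*} [Group G]

lemma smul_inl {E : Subgroup G} (g h : G) :
    g • (Sum.inl h : Cone G E) = Sum.inl (g * h) := rfl

lemma smul_inr {E : Subgroup G} (g h : G) :
    g • (Sum.inr (h : G ⧸ E) : Cone G E) = Sum.inr ((g * h : G) : G ⧸ E) := rfl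

lemma fix_iff {E : Subgroup G} (m g : G) :
    m • (Sum.inr (g : G ⧸ E) : Cone G E) = Sum.inr (g : G ⧸ E) ↔ g⁻¹ * m * g ∈ E := by
  rw [smul_inr, Sum.inr.injEq, QuotientGroup.eq]
  constructor
  · intro h
    have := E.inv_mem h
    have e : ((m * g)⁻¹ * g)⁻¹ = g⁻¹ * m * g := by group
    rwa [e] at this
  · intro h
    have := E.inv_mem h
    have e : (g⁻¹ * m * g)⁻¹ = (m * g)⁻¹ * g := by group
    rwa [e] at this

lemma eps_tau_y0 {E : Subgroup G} {ε τ : G → ℤ} {y0 : G} (hE : EData E ε τ y0) :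
    ∀ k : ℤ, ε (y0 ^ k) = 1 ∧ τ (y0 ^ k) = k := by
  have h1 : ε 1 = 1 := by
    have := hE.eps_mul 1 E.one_mem 1 E.one_mem
    rw [mul_one] at this
    rcases hE.eps_sq 1 E.one_mem with h | h
    · exact h
    · rw [h] at this; norm_num at this
  have h2 : τ 1 = 0 := by
    have := hE.tau_mul 1 E.one_mem 1 E.one_mem
    rw [mul_one, h1] at this
    linarith
  intro k
  induction k using Int.induction_on with
  | zero => exact ⟨by simpa using h1, by simpa using h2⟩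
  | succ i ih =>
    have hm : y0 ^ (i : ℤ) ∈ E := E.zpow_mem hE.y0_mem _
    rw [zpow_add_one]
    refine ⟨?_, ?_⟩
    · rw [hE.eps_mul _ hm _ hE.y0_mem, ih.1, hE.eps_y0]; rfl
    · rw [hE.tau_mul _ hm _ hE.y0_mem, ih.1, ih.2, hE.tau_y0]; ring
  | pred i ih =>
    have hm : y0 ^ (-(i : ℤ) - 1) ∈ E := E.zpow_mem hE.y0_mem _
    have h3 : y0 ^ (-(i : ℤ)) = y0 ^ (-(i : ℤ) - 1) * y0 := by
      rw [← zpow_add_one]; congr 1; ring
    have h4 := ih.1
    have h5 := ih.2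
    rw [h3, hE.eps_mul _ hm _ hE.y0_mem, hE.eps_y0, mul_one] at h4
    rw [h3, hE.tau_mul _ hm _ hE.y0_mem, h4, hE.tau_y0] at h5
    exact ⟨h4, by linarith⟩

/-- the fibres of the projection are orbits -/
lemma conePi_eq {E N : Subgroup G} [N.Normal] {x y : Cone G E}
    (h : conePi E N x = conePi E N y) : ∃ m ∈ N, m • x = y := by
  rcases x with x | x <;> rcases y with y | y
  · have h1 : (x : G ⧸ N) = y := Sum.inl_injective h
    rw [QuotientGroup.eq] at h1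
    refine ⟨y * x⁻¹, ?_, ?_⟩
    · have := Subgroup.Normal.conj_mem (inferInstance : N.Normal) _ h1 x
      have e : x * (x⁻¹ * y) * x⁻¹ = y * x⁻¹ := by group
      rwa [e] at this
    · rw [smul_inl]; congr 1; group
  · exact absurd h (by simp [conePi])
  · exact absurd h (by simp [conePi])
  · induction x using QuotientGroup.induction_on with | _ x => ?_
    induction y using QuotientGroup.induction_on with | _ y => ?_
    have h1 : (Sum.inr (((x : G ⧸ N)) : (G ⧸ N) ⧸ E.map (QuotientGroup.mk' N)) :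
        Cone (G ⧸ N) (E.map (QuotientGroup.mk' N))) = Sum.inr (((y : G ⧸ N))) := h
    have h2 := Sum.inr_injective h1
    rw [QuotientGroup.eq] at h2
    obtain ⟨e, he, hee⟩ := h2
    have h3 : ((e : G) : G ⧸ N) = ((x⁻¹ * y : G) : G ⧸ N) := hee
    rw [QuotientGroup.eq] at h3
    refine ⟨y * (x * e)⁻¹, ?_, ?_⟩
    · have := Subgroup.Normal.conj_mem (inferInstance : N.Normal) _ h3 (x * e)
      have e1 : x * e * (e⁻¹ * (x⁻¹ * y)) * (x * e)⁻¹ = y * (x * e)⁻¹ := by group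
      rwa [e1] at this
    · rw [smul_inr, Sum.inr.injEq, QuotientGroup.eq]
      have e1 : (y * (x * e)⁻¹ * x)⁻¹ * y = e := by group
      rw [e1]; exact he

lemma conePi_smul {E N : Subgroup G} [N.Normal] (g : G) (x : Cone G E) :
    conePi E N (g • x) = (g : G ⧸ N) • conePi E N x := by
  rcases x with x | x
  · rfl
  · induction x using QuotientGroup.induction_on with | _ x => ?_
    rfl

end P23a

open P23a

theorem lift_diff {G : Type*} [Group G] {d : G → G → ℕ} {δ₀ : ℕ} (hH : HypMet G d δ₀)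
    {E : Subgroup G} {ε τ : G → ℤ} {y0 : G} (hE : EData E ε τ y0) {θ δ n : ℕ}
    {α : Cone G E → Cone G E → Cone G E → ℕ} (hC : ConePkg d E ε τ θ δ α) (hodd : Odd n)
    (N : Subgroup G) [N.Normal] {D β} (hF : FillPkg d E θ δ n α (y0 ^ n) N D β) (g f₁ f₂ : G)
    (h1 : f₁ • (Sum.inr (g : G ⧸ E) : Cone G E) = Sum.inr (g : G ⧸ E))
    (h2 : f₂ • (Sum.inr (g : G ⧸ E) : Cone G E) = Sum.inr (g : G ⧸ E))
    (hf : (f₁ : G ⧸ N) = f₂) : ∃ i : ℤ, f₂ = g * (y0 ^ n) ^ i * g⁻¹ * f₁ := by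
  have hm : f₂ * f₁⁻¹ ∈ N := by
    rw [QuotientGroup.eq] at hf
    have := Subgroup.Normal.conj_mem (inferInstance : N.Normal) _ hf f₁
    have e : f₁ * (f₁⁻¹ * f₂) * f₁⁻¹ = f₂ * f₁⁻¹ := by group
    rwa [e] at this
  have hE1 := (fix_iff f₁ g).1 h1
  have hE2 := (fix_iff f₂ g).1 h2
  have hE3 : g⁻¹ * (f₂ * f₁⁻¹) * g ∈ E := by
    have := E.mul_mem hE2 (E.inv_mem hE1)
    have e : g⁻¹ * f₂ * g * (g⁻¹ * f₁ * g)⁻¹ = g⁻¹ * (f₂ * f₁⁻¹) * g := by group
    rwa [e] at this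
  have hN3 : g⁻¹ * (f₂ * f₁⁻¹) * g ∈ N := by
    have := Subgroup.Normal.conj_mem (inferInstance : N.Normal) _ hm g⁻¹
    rwa [inv_inv] at this
  obtain ⟨i, hi⟩ := e_inter hH hE hC hodd N hF _ hE3 hN3
  refine ⟨i, ?_⟩
  rw [← hi]; group

theorem gap_lift {G : Type*} [Group G] {d : G → G → ℕ} {δ₀ : ℕ} (hH : HypMet G d δ₀)
    {E : Subgroup G} {ε τ : G → ℤ} {y0 : G} (hE : EData E ε τ y0) {θ δ n : ℕ}
    {α : Cone G E → Cone G E → Cone G E → ℕ} (hC : ConePkg d E ε τ θ δ α) (hodd : Odd n)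
    (N : Subgroup G) [N.Normal] {D β} (hF : FillPkg d E θ δ n α (y0 ^ n) N D β) (A : ℕ)
    (hn : 2 * A < n) (t t' : Cone G E) (ht : t ∈ Apx G E) (ht' : t' ∈ Apx G E) (hne : t ≠ t')
    (hNG : cd d E t t' = D (conePi E N t) (conePi E N t'))
    (hA : ∀ s ∈ Apx G E, s ≠ t → s ≠ t' → α s t t' ≤ A) (f : G ⧸ N)
    (hf : f • conePi E N t = conePi E N t) (hf' : f • conePi E N t' = conePi E N t') :
    ∃! f' : G, (f' : G ⧸ N) = f ∧ f' • t = t ∧ f' • t' = t' := by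
  have hcas := hC.act.cas
  have hz : y0 ^ n ∈ N := by rw [hF.nc]; exact Subgroup.subset_normalClosure rfl
  have hn0 : 0 < n := lt_of_le_of_lt (Nat.zero_le _) hn
  obtain ⟨c, hc⟩ := ht
  obtain ⟨g, hg⟩ := QuotientGroup.mk_surjective c
  have htg : t = Sum.inr (g : G ⧸ E) := by rw [← hc, ← hg]
  have ht : t ∈ Apx G E := ⟨c, hc⟩
  -- first lift
  obtain ⟨a, ha⟩ := QuotientGroup.mk_surjective f
  have ha1 : conePi E N (a • t) = conePi E N t := by
    rw [conePi_smul]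
    rw [show (a : G ⧸ N) = f from ha]; exact hf
  obtain ⟨m₁, hm₁, hm₁'⟩ := conePi_eq ha1
  set f₁ := m₁ * a with hf₁
  have hf₁t : f₁ • t = t := by rw [hf₁, mul_smul]; exact hm₁'
  have hf₁N : (f₁ : G ⧸ N) = f := by
    rw [hf₁, QuotientGroup.mk_mul, (QuotientGroup.eq_one_iff m₁).2 hm₁, one_mul]; exact ha
  have hbar : conePi E N (f₁ • t') = conePi E N t' := by
    rw [conePi_smul, hf₁N, hf']
  have hd1 : cd d E t (f₁ • t') = D (conePi E N t) (conePi E N (f₁ • t')) := by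
    rw [hbar, ← hNG]
    calc cd d E t (f₁ • t') = cd d E (f₁ • t) (f₁ • t') := by rw [hf₁t]
      _ = cd d E t t' := hC.act.isom _ _ _
  have htf : t ≠ f₁ • t' := by
    intro h
    have h2 : f₁ • t = f₁ • t' := by rw [hf₁t]; exact h
    exact hne (smul_left_cancel _ h2)
  obtain ⟨i, hi⟩ := (hF.q1 t ht t' (f₁ • t') hne htf hNG hd1).2 g htg
  have hne' : conePi E N t' ≠ conePi E N t := by
    intro h
    have h2 : D (conePi E N t) (conePi E N t') = 0 := by
      rw [h]; exact hF.act.cas.geo.self _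
    rw [← hNG] at h2
    exact hne (hcas.geo.eq_of _ _ h2)
  have htS : conePi E N t ∈ Apx (G ⧸ N) (E.map (QuotientGroup.mk' N)) := by
    rw [htg]; exact ⟨_, rfl⟩
  rw [hbar, hF.act.cas.a_self _ htS _ hne', zero_add] at hi
  set ρ := g * (y0 ^ n) ^ i * g⁻¹ with hρ
  have hρN : ρ ∈ N := by
    exact Subgroup.Normal.conj_mem (inferInstance : N.Normal) _ (N.zpow_mem hz i) g
  have hzE : ∀ i : ℤ, (y0 ^ n) ^ i ∈ E := fun i => E.zpow_mem (E.pow_mem hE.y0_mem n) i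
  have hρt : ρ • t = t := by
    rw [htg, fix_iff]
    have e : g⁻¹ * ρ * g = (y0 ^ n) ^ i := by rw [hρ]; group
    rw [e]; exact hzE i
  have hf₂t : (ρ * f₁) • t = t := by rw [mul_smul, hf₁t, hρt]
  have hf₂N : ((ρ * f₁ : G) : G ⧸ N) = f := by
    rw [QuotientGroup.mk_mul, (QuotientGroup.eq_one_iff ρ).2 hρN, one_mul, hf₁N]
  have hf₂t' : (ρ * f₁) • t' = t' := by
    by_contra hcon
    have h1 : conePi E N t' = conePi E N ((ρ * f₁) • t') := by
      rw [conePi_smul, hf₂N, hf']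
    obtain ⟨m, hm, hm'⟩ := conePi_eq h1
    obtain ⟨b, hb1, hb2, hb3, -⟩ := hF.q3 m hm t' (by rw [hm']; exact hcon)
    rw [hm'] at hb2 hb3
    set s : Cone G E := Sum.inr (b : G ⧸ E) with hs
    have hsA : s ∈ Apx G E := ⟨_, rfl⟩
    by_cases hst : s = t
    · rw [hst] at hb3
      have h8 := hF.large
      rw [mul_smul] at hb3
      omega
    · have h2 := hcas.a_tri s hsA t' t ((ρ * f₁) • t') (Ne.symm hb1) (Ne.symm hst) (Ne.symm hb2)
      have h3 : α s t' t ≤ A := by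
        rw [hcas.a_symm s hsA t' t (Ne.symm hb1) (Ne.symm hst)]
        exact hA s hsA hst hb1
      set s' := (ρ * f₁)⁻¹ • s with hs'
      have hss' : (ρ * f₁) • s' = s := by rw [hs', smul_inv_smul]
      have hs'A : s' ∈ Apx G E := hC.act.inS _ _ hsA
      have hs't : s' ≠ t := by
        intro h; rw [h, hf₂t] at hss'; exact hst hss'.symm
      have hs't' : s' ≠ t' := by
        intro h; rw [h] at hss'; exact hb2 hss'.symm
      have h4 : α s t ((ρ * f₁) • t') = α s' t t' := by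
        have := hC.act.a_inv (ρ * f₁) s' hs'A t t' (Ne.symm hs't) (Ne.symm hs't')
        rw [hss', hf₂t] at this
        exact this
      have h5 := hA s' hs'A hs't hs't'
      rw [h4] at h2
      omega
  refine ⟨ρ * f₁, ⟨hf₂N, hf₂t, hf₂t'⟩, ?_⟩
  rintro f' ⟨hfN, hft, hft'⟩
  obtain ⟨j, hj⟩ := lift_diff hH hE hC hodd N hF g (ρ * f₁) f' (by rw [← htg]; exact hf₂t)
    (by rw [← htg]; exact hft) (by rw [hf₂N, hfN])
  -- `g z^j g⁻¹` fixes `t'`
  have h1 : (g * (y0 ^ n) ^ j * g⁻¹) • t' = t' := by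
    have : f' • t' = (g * (y0 ^ n) ^ j * g⁻¹) • ((ρ * f₁) • t') := by
      rw [← mul_smul, ← hj]
    rw [hf₂t', hft'] at this
    exact this.symm
  have hx : g⁻¹ • t' ≠ Sum.inr ((1 : G) : G ⧸ E) := by
    intro h
    apply hne
    have : g • g⁻¹ • t' = g • (Sum.inr ((1 : G) : G ⧸ E) : Cone G E) := by rw [h]
    rw [smul_inv_smul, smul_inr, mul_one] at this
    rw [this, htg]
  have h2 := hC.rot ((y0 ^ n) ^ j) (hzE j) (by
    rw [← zpow_natCast, ← zpow_mul]; exact (eps_tau_y0 hE _).1) (g⁻¹ • t') hx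
  have h3 : (y0 ^ n) ^ j • g⁻¹ • t' = g⁻¹ • t' := by
    have h4 : g⁻¹ • (g * (y0 ^ n) ^ j * g⁻¹) • t' = g⁻¹ • t' := by rw [h1]
    rw [← mul_smul] at h4
    rw [← mul_smul]
    have e : g⁻¹ * (g * (y0 ^ n) ^ j * g⁻¹) = (y0 ^ n) ^ j * g⁻¹ := by group
    rwa [e] at h4
  rw [h3, hcas.a_self _ ⟨_, rfl⟩ _ hx] at h2
  have h4 : τ ((y0 ^ n) ^ j) = n * j := by
    rw [← zpow_natCast, ← zpow_mul]; exact (eps_tau_y0 hE _).2
  rw [h4] at h2
  have h5 : (n : ℤ) * j = 0 := by omega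
  have h6 : j = 0 := by
    rcases mul_eq_zero.1 h5 with h | h
    · omega
    · exact h
  rw [hj, h6]; group

end Pool.Agent.Lib.MP_f1646b_al
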