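import Pool.Agent.Lib.MP_f1646b_al.P16a
import Pool.Agent.Lib.MP_f1646b_al.P18

/-!
Piece P23b: no pair of commuting involutions of the quotient, fixing no apex, is swapped.
-/

set_option autoImplicit false

namespace Pool.Agent.Lib.MP_f1646b_al

namespace P23b

section basic

variable {G : Type*} [Group G] {d : G → G → ℕ} {δ₀ : ℕ}

lemma disp_mul (hH : HypMet G d δ₀) (g u v : G) :
    d g (u * v * g) ≤ d g (u * g) + d g (v * g) := by
  have h1 := hH.geo.tri g (u * g) (u * v * g)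
  have h2 : d (u * g) (u * v * g) = d g (v * g) := by
    rw [mul_assoc u v g, hH.inv]
  omega

lemma disp_inv (hH : HypMet G d δ₀) (g u : G) : d g (u⁻¹ * g) = d g (u * g) := by
  have h1 := hH.inv u g (u⁻¹ * g)
  rw [mul_inv_cancel_left] at h1
  rw [← h1, hH.geo.symm]

lemma disp_one (hH : HypMet G d δ₀) {E : Subgroup G} {ε τ : G → ℤ} {θ δ : ℕ}
    {α : Cone G E → Cone G E → Cone G E → ℕ} (hC : ConePkg d E ε τ θ δ α) {n : ℕ} {z : G}
    {N : Subgroup G} [hN : N.Normal] {D β} (hF : FillPkg d E θ δ n α z N D β) (g m : G)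
    (hm : m ∈ N) {L : ℕ} (hL : d g (m * g) ≤ L) (hn : θ * L < n) : m = 1 := by
  have h1 : g⁻¹ * m * g ∈ N := by
    have := hN.conj_mem m hm g⁻¹
    simpa using this
  have h2 : d 1 (g⁻¹ * m * g) = d g (m * g) := by
    rw [← hH.inv g 1 (g⁻¹ * m * g)]
    congr 1 <;> group
  have h3 := inj_rad hH hC hF _ h1
    (lt_of_le_of_lt (Nat.mul_le_mul_left _ (h2.le.trans hL)) hn)
  have h4 : m = g * (g⁻¹ * m * g) * g⁻¹ := by group
  rw [h4, h3]
  group

/-- two lifts with small displacement coincide -/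
lemma lift_unique (hH : HypMet G d δ₀) {E : Subgroup G} {ε τ : G → ℤ} {θ δ : ℕ}
    {α : Cone G E → Cone G E → Cone G E → ℕ} (hC : ConePkg d E ε τ θ δ α) {n : ℕ} {z : G}
    {N : Subgroup G} [hN : N.Normal] {D β} (hF : FillPkg d E θ δ n α z N D β) (g u v : G)
    (huv : (u : G ⧸ N) = v) {B : ℕ} (hu : d g (u * g) ≤ B) (hv : d g (v * g) ≤ B)
    (hn : θ * (2 * B) < n) : u = v := by
  have h1 : u⁻¹ * v ∈ N := QuotientGroup.eq.1 huv
  have h2 : d g (u⁻¹ * v * g) ≤ 2 * B := by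
    have := disp_mul hH g u⁻¹ v
    rw [disp_inv hH] at this
    omega
  have h3 := disp_one hH hC hF g _ h1 h2 hn
  exact inv_mul_eq_one.1 h3

end basic

end P23b

open P23b in
theorem i3_caseB {G : Type*} [Group G] {d : G → G → ℕ} {δ₀ : ℕ} (hH : HypMet G d δ₀)
    (hA : AInv G) {E : Subgroup G} {ε τ : G → ℤ} {y0 : G} (hE : EData E ε τ y0) {θ δ : ℕ}
    {α : Cone G E → Cone G E → Cone G E → ℕ} (hC : ConePkg d E ε τ θ δ α) (D₂ A₂ : ℕ) :
    ∃ n₀, ∀ n, n₀ ≤ n → Odd n → 3 ∣ n → ∀ (N : Subgroup G) [N.Normal] (D β),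
      FillPkg d E θ δ n α (y0 ^ n) N D β → ∀ w w' x : G ⧸ N, Frame w w' → x * w * x⁻¹ = w' →
      x * w' * x⁻¹ = w → ∀ p,
      Good D (Apx (G ⧸ N) (E.map (QuotientGroup.mk' N))) β
        (Subgroup.zpowers w ⊔ Subgroup.zpowers w') D₂ A₂ p →
      (∀ s ∈ Apx (G ⧸ N) (E.map (QuotientGroup.mk' N)), ¬ (w • s = s ∧ w' • s = s)) →
      False := by
  obtain ⟨B, hB⟩ := local_lift hH hC D₂ A₂
  set A3 := 3 * max A₂ θ + 4 * (4 * θ) + θ with hA3
  set A4 := A3 + 8 * θ with hA4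
  refine ⟨θ * (4 * B) + 2 * A4 + 1, ?_⟩
  intro n hn _ _ N _ D β hF w w' x hfr hxw hxw' p hgood hfix
  set W := Subgroup.zpowers w ⊔ Subgroup.zpowers w' with hW
  set SS := Apx (G ⧸ N) (E.map (QuotientGroup.mk' N)) with hSS
  obtain ⟨hw2, hw'2, hcomm, hw1, hw'1, hww'⟩ := hfr
  have hwW : w ∈ W := Subgroup.mem_sup_left (Subgroup.mem_zpowers w)
  have hw'W : w' ∈ W := Subgroup.mem_sup_right (Subgroup.mem_zpowers w')
  obtain ⟨hg1, hg2, hg3⟩ := hgood
  -- `p` is no apex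
  have hpS : p ∉ SS := fun h => hfix p h ⟨hg1 h w hwW, hg1 h w' hw'W⟩
  have hact := hF.act
  have hnS : ∀ (f : G ⧸ N) (r : Cone (G ⧸ N) (E.map (QuotientGroup.mk' N))), r ∉ SS →
      f • r ∉ SS := by
    intro f r hr h
    apply hr
    have := hact.inS f⁻¹ _ h
    rwa [inv_smul_smul] at this
  have hqS : x • p ∉ SS := hnS x p hpS
  have hne : ∀ (s r : Cone (G ⧸ N) (E.map (QuotientGroup.mk' N))), s ∈ SS → r ∉ SS → s ≠ r :=
    fun s r hs hr h => hr (h ▸ hs)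
  -- `x` normalises `W`
  have hxW : ∀ f ∈ W, x⁻¹ * f * x ∈ W := by
    have h1 : x⁻¹ * w * x = w' := by rw [← hxw']; group
    have h2 : x⁻¹ * w' * x = w := by rw [← hxw]; group
    intro f hf
    have : W ≤ W.comap (MulAut.conj x⁻¹).toMonoidHom := by
      rw [hW]
      refine sup_le ?_ ?_
      · rw [Subgroup.zpowers_le]
        change x⁻¹ * w * x⁻¹⁻¹ ∈ Subgroup.zpowers w ⊔ Subgroup.zpowers w'
        rw [inv_inv, h1]
        exact hw'W
      · rw [Subgroup.zpowers_le]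
        change x⁻¹ * w' * x⁻¹⁻¹ ∈ Subgroup.zpowers w ⊔ Subgroup.zpowers w'
        rw [inv_inv, h2]
        exact hwW
    have h3 := this hf
    have h4 : x⁻¹ * f * x⁻¹⁻¹ ∈ W := h3
    rwa [inv_inv] at h4
  -- almost fixed points
  have hP2 : ∀ f ∈ W, D p (f • p) ≤ D₂ := hg2
  have hP3 : ∀ f ∈ W, ∀ s ∈ SS, β s p (f • p) ≤ A₂ := fun f hf s hs =>
    hg3 f hf s hs (hne _ _ hs hpS) (hne _ _ hs (hnS f p hpS))
  have hconj : ∀ f : G ⧸ N, f • x • p = x • (x⁻¹ * f * x) • p := by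
    intro f
    rw [smul_smul, smul_smul]
    congr 1
    group
  have hQ2 : ∀ f ∈ W, D (x • p) (f • x • p) ≤ D₂ := by
    intro f hf
    rw [hconj, hact.isom]
    exact hP2 _ (hxW f hf)
  have hQ3 : ∀ f ∈ W, ∀ s ∈ SS, β s (x • p) (f • x • p) ≤ A₂ := by
    intro f hf s hs
    have hs' : x⁻¹ • s ∈ SS := hact.inS _ _ hs
    have h1 := hact.a_inv x _ hs' p ((x⁻¹ * f * x) • p) (hne _ _ hs' hpS).symm
      (hne _ _ hs' (hnS _ p hpS)).symm
    rw [smul_inv_smul] at h1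
    rw [hconj, h1]
    exact hP3 _ (hxW f hf) _ hs'
  -- the segment from `p` to `x p` has no big apex
  have hseg : ∀ s ∈ SS, β s p (x • p) ≤ A3 := by
    intro s hs
    by_contra hbig
    rw [not_le] at hbig
    have key : ∀ f ∈ W, f ^ 2 = 1 → f • s = s := by
      intro f hf hf2
      refine fixsep hact f (isOfFinOrder_iff_pow_eq_one.2 ⟨2, by norm_num, hf2⟩) p (x • p) s hs
        (max A₂ θ) (le_max_right _ _) ?_ ?_ hbig
      · intro i j
        have hs' : f ^ j • s ∈ SS := hact.inS _ _ hs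
        exact ⟨hne _ _ hs' (hnS _ _ hpS), hne _ _ hs' (hnS _ _ hqS)⟩
      · intro i j
        have hs' : f ^ j • s ∈ SS := hact.inS _ _ hs
        exact ⟨(hP3 _ (pow_mem hf i) _ hs').trans (le_max_left _ _),
          (hQ3 _ (pow_mem hf i) _ hs').trans (le_max_left _ _)⟩
    exact hfix s hs ⟨key w hwW hw2, key w' hw'W hw'2⟩
  -- base points
  have hinl : ∀ r : Cone (G ⧸ N) (E.map (QuotientGroup.mk' N)), r ∉ SS → ∃ g : G,
      r = Sum.inl (g : G ⧸ N) := by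
    intro r hr
    rcases r with a | c
    · obtain ⟨g, rfl⟩ := QuotientGroup.mk_surjective a
      exact ⟨g, rfl⟩
    · exact absurd ⟨c, rfl⟩ hr
  obtain ⟨g, hg⟩ := hinl p hpS
  obtain ⟨y, hy1, hy2, hy3⟩ := hF.q2 (Sum.inl g) (x • p)
  have hconeS : ∀ s ∈ Apx G E, conePi E N s ∈ SS := by
    rintro _ ⟨c, rfl⟩
    exact ⟨_, rfl⟩
  obtain ⟨h, rfl⟩ : ∃ h : G, y = Sum.inl h := by
    rcases y with h | c
    · exact ⟨h, rfl⟩
    · exact absurd (hy1 ▸ hconeS _ ⟨c, rfl⟩) hqS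
  have hgp : conePi E N (Sum.inl g) = p := hg.symm
  have hxg : ((h * g⁻¹ : G) : G ⧸ N) = x := by
    have h1 : (Sum.inl (h : G ⧸ N) : Cone (G ⧸ N) (E.map (QuotientGroup.mk' N))) = x • p := hy1
    rw [hg] at h1
    have h2 : (h : G ⧸ N) = x * (g : G ⧸ N) := Sum.inl_injective h1
    rw [QuotientGroup.mk_mul, QuotientGroup.mk_inv, h2]
    group
  have hPQ : ∀ c : G ⧸ E, α (Sum.inr c) (Sum.inl g) (Sum.inl h) ≤ A4 := by
    intro c
    have h1 := hy3 (Sum.inr c) ⟨c, rfl⟩ (by simp) (by simp)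
    rw [hgp] at h1
    have h2 := hseg _ (hconeS (Sum.inr c) ⟨c, rfl⟩)
    omega
  -- existence of lifts with small displacement
  have hlift : ∀ (k : G) (r : Cone (G ⧸ N) (E.map (QuotientGroup.mk' N))),
      r = Sum.inl (k : G ⧸ N) → (∀ f ∈ W, D r (f • r) ≤ D₂) →
      (∀ f ∈ W, ∀ s ∈ SS, β s r (f • r) ≤ A₂) → ∀ f ∈ W, ∃ u : G, (u : G ⧸ N) = f ∧
        d k (u * k) ≤ B := by
    intro k r hr h2 h3 f hf
    have e1 : (Sum.inl ((k : G ⧸ N)⁻¹ * f * k) :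
        Cone (G ⧸ N) (E.map (QuotientGroup.mk' N))) = (k : G ⧸ N)⁻¹ • (f • r) := by
      rw [hr]
      show _ = Sum.inl ((k : G ⧸ N)⁻¹ * (f * (k : G ⧸ N)))
      rw [mul_assoc]
    have e2 : (Sum.inl (1 : G ⧸ N) :
        Cone (G ⧸ N) (E.map (QuotientGroup.mk' N))) = (k : G ⧸ N)⁻¹ • r := by
      rw [hr]
      show _ = Sum.inl ((k : G ⧸ N)⁻¹ * (k : G ⧸ N))
      rw [inv_mul_cancel]
    have hrS : r ∉ SS := by
      rw [hr]
      rintro ⟨c, hc⟩
      exact absurd hc (by simp)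
    obtain ⟨u, hu1, hu2⟩ := hB n (y0 ^ n) N D β hF ((k : G ⧸ N)⁻¹ * f * k) (by
      rw [e1, e2, hact.isom]
      exact h2 f hf) (by
      intro c
      rw [e1, e2]
      have hs : (Sum.inr c : Cone (G ⧸ N) (E.map (QuotientGroup.mk' N))) ∈ SS := ⟨c, rfl⟩
      have hs' : (k : G ⧸ N) • (Sum.inr c : Cone (G ⧸ N) (E.map (QuotientGroup.mk' N))) ∈ SS :=
        hact.inS _ _ hs
      have h4 := hact.a_inv (k : G ⧸ N)⁻¹ _ hs' r (f • r) (hne _ _ hs' hrS).symm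
        (hne _ _ hs' (hnS _ _ hrS)).symm
      rw [inv_smul_smul] at h4
      rw [h4]
      exact h3 f hf _ hs')
    refine ⟨k * u * k⁻¹, ?_, ?_⟩
    · rw [QuotientGroup.mk_mul, QuotientGroup.mk_mul, QuotientGroup.mk_inv, hu1]
      group
    · have : k * u * k⁻¹ * k = k * u := by group
      rw [this]
      have h5 := hH.inv k 1 u
      rw [mul_one] at h5
      rw [h5]
      exact hu2
  obtain ⟨wP, hwP, hwPd⟩ := hlift g p hg hP2 hP3 w hwW
  obtain ⟨wP', hwP', hwPd'⟩ := hlift g p hg hP2 hP3 w' hw'W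
  have hqh : x • p = Sum.inl (h : G ⧸ N) := hy1.symm
  obtain ⟨wQ, hwQ, hwQd⟩ := hlift h (x • p) hqh hQ2 hQ3 w hwW
  obtain ⟨wQ', hwQ', hwQd'⟩ := hlift h (x • p) hqh hQ2 hQ3 w' hw'W
  -- lifts at the two points agree
  have hcas := hC.act.cas
  have hsame : ∀ u v : G, (u : G ⧸ N) = v → d g (u * g) ≤ B → d h (v * h) ≤ B → u = v := by
    intro u v huv hu hv
    by_contra hne'
    have hmem : u⁻¹ * v ∈ N := QuotientGroup.eq.1 huv
    have hmove : (u⁻¹ * v) • (Sum.inl h : Cone G E) ≠ Sum.inl h := by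
      intro h1
      have h2 : u⁻¹ * v * h = h := Sum.inl_injective h1
      have h3 : u⁻¹ * v = 1 := by
        calc u⁻¹ * v = u⁻¹ * v * h * h⁻¹ := by group
          _ = 1 := by rw [h2]; group
      exact hne' (inv_mul_eq_one.1 h3)
    obtain ⟨a, -, -, ha, -⟩ := hF.q3 _ hmem _ hmove
    set s : Cone G E := Sum.inr (a : G ⧸ E) with hs
    have hsS : s ∈ Apx G E := ⟨_, rfl⟩
    have hns : ∀ k : G, (Sum.inl k : Cone G E) ≠ s := fun k => by simp [hs]
    have e0 : (u⁻¹ * v) • (Sum.inl h : Cone G E) = Sum.inl (u⁻¹ * v * h) := rfl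
    rw [e0] at ha
    -- triangle inequalities
    have t1 := hcas.a_tri s hsS (Sum.inl h) (Sum.inl (u⁻¹ * h)) (Sum.inl (u⁻¹ * v * h))
      (hns _) (hns _) (hns _)
    have t2 := hcas.a_tri s hsS (Sum.inl h) (Sum.inl g) (Sum.inl (u⁻¹ * h))
      (hns _) (hns _) (hns _)
    have t3 := hcas.a_tri s hsS (Sum.inl g) (Sum.inl (u⁻¹ * g)) (Sum.inl (u⁻¹ * h))
      (hns _) (hns _) (hns _)
    have b1 : α s (Sum.inl (u⁻¹ * h)) (Sum.inl (u⁻¹ * v * h)) ≤ θ * B := by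
      refine (alpha_le hH hC _ _ _).trans (Nat.mul_le_mul_left _ ?_)
      rw [mul_assoc, hH.inv]
      exact hv
    have b2 : α s (Sum.inl h) (Sum.inl g) ≤ A4 := by
      rw [hcas.a_symm s hsS _ _ (hns _) (hns _)]
      exact hPQ _
    have b3 : α s (Sum.inl g) (Sum.inl (u⁻¹ * g)) ≤ θ * B := by
      refine (alpha_le hH hC _ _ _).trans (Nat.mul_le_mul_left _ ?_)
      rw [disp_inv hH]
      exact hu
    have b4 : α s (Sum.inl (u⁻¹ * g)) (Sum.inl (u⁻¹ * h)) ≤ A4 := by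
      have hsu : u • s ∈ Apx G E := hC.act.inS _ _ hsS
      obtain ⟨c, hc⟩ := hsu
      have hns' : ∀ k : G, (Sum.inl k : Cone G E) ≠ u • s := fun k => by rw [← hc]; simp
      have h4 := hC.act.a_inv u⁻¹ (u • s) ⟨c, hc⟩ (Sum.inl g) (Sum.inl h) (hns' _) (hns' _)
      rw [inv_smul_smul] at h4
      have e5 : ∀ k : G, u⁻¹ • (Sum.inl k : Cone G E) = Sum.inl (u⁻¹ * k) := fun k => rfl
      rw [e5, e5] at h4
      rw [h4, ← hc]
      exact hPQ c
    have hB1 : θ * (4 * B) = 4 * (θ * B) := by ring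
    omega
  have hww : wP = wQ := hsame wP wQ (hwP.trans hwQ.symm) hwPd hwQd
  have hww2 : wP' = wQ' := hsame wP' wQ' (hwP'.trans hwQ'.symm) hwPd' hwQd'
  have hθ2 : θ * (2 * B) < n := by
    have : θ * (2 * B) ≤ θ * (4 * B) := Nat.mul_le_mul_left _ (by omega)
    omega
  have hθ4 : θ * (4 * B) < n := by omega
  -- conjugation by the lift of `x`
  have hconjd : ∀ u : G, d h ((h * g⁻¹) * u * (h * g⁻¹)⁻¹ * h) = d g (u * g) := by
    intro u
    have e1 : (h * g⁻¹) * u * (h * g⁻¹)⁻¹ * h = (h * g⁻¹) * (u * g) := by group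
    have e2 : h = (h * g⁻¹) * g := by group
    rw [e1]
    conv_lhs => rw [e2]
    rw [mul_assoc (h * g⁻¹ * g) g⁻¹ (u * g), show (h * g⁻¹ * g) * (g⁻¹ * (u * g)) =
      (h * g⁻¹) * (u * g) by group, hH.inv]
  have hc1 : (h * g⁻¹) * wP * (h * g⁻¹)⁻¹ = wP' := by
    rw [hww2]
    refine lift_unique hH hC hF h _ _ ?_ (B := B) ?_ hwQd' hθ2
    · rw [QuotientGroup.mk_mul, QuotientGroup.mk_mul, QuotientGroup.mk_inv, hxg, hwP, hwQ', hxw]
    · rw [hconjd]; exact hwPd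
  have hc2 : (h * g⁻¹) * wP' * (h * g⁻¹)⁻¹ = wP := by
    rw [hww]
    refine lift_unique hH hC hF h _ _ ?_ (B := B) ?_ hwQd hθ2
    · rw [QuotientGroup.mk_mul, QuotientGroup.mk_mul, QuotientGroup.mk_inv, hxg, hwP', hwQ, hxw']
    · rw [hconjd]; exact hwPd'
  -- the lifts form a frame
  have hsq : ∀ u : G, (u : G ⧸ N) ^ 2 = 1 → d g (u * g) ≤ B → u ^ 2 = 1 := by
    intro u hu hud
    have hmem : u ^ 2 ∈ N := by
      rw [← QuotientGroup.eq_one_iff, QuotientGroup.mk_pow, hu]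
    refine disp_one hH hC hF g _ hmem (L := 2 * B) ?_ hθ2
    rw [pow_two]
    have := disp_mul hH g u u
    omega
  have hframe : Frame wP wP' := by
    refine ⟨hsq _ (by rw [hwP, hw2]) hwPd, hsq _ (by rw [hwP', hw'2]) hwPd', ?_, ?_, ?_, ?_⟩
    · have hmem : wP * wP' * (wP⁻¹ * wP'⁻¹) ∈ N := by
        rw [← QuotientGroup.eq_one_iff]
        rw [QuotientGroup.mk_mul, QuotientGroup.mk_mul, QuotientGroup.mk_mul,
          QuotientGroup.mk_inv, QuotientGroup.mk_inv, hwP, hwP', hcomm]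
        group
      have h1 := disp_mul hH g (wP * wP') (wP⁻¹ * wP'⁻¹)
      have h2 := disp_mul hH g wP wP'
      have h3 := disp_mul hH g wP⁻¹ wP'⁻¹
      rw [disp_inv hH, disp_inv hH] at h3
      have h4 := disp_one hH hC hF g _ hmem (L := 4 * B) (by omega) hθ4
      calc wP * wP' = wP * wP' * (wP⁻¹ * wP'⁻¹) * (wP' * wP) := by group
        _ = wP' * wP := by rw [h4, one_mul]
    · rintro rfl
      exact hw1 (by rw [← hwP]; rfl)
    · rintro rfl
      exact hw'1 (by rw [← hwP']; rfl)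
    · rintro rfl
      exact hww' (hwP.symm.trans hwP')
  exact hA.i3 wP wP' (h * g⁻¹) hframe hc1 hc2

end Pool.Agent.Lib.MP_f1646b_al
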