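import Pool.Agent.Lib.MP_f1646b_al.Betw
import Pool.Agent.Lib.MP_f1646b_al.P16a
import Pool.Agent.Lib.MP_f1646b_al.P17
import Pool.Agent.Lib.MP_f1646b_al.P22a
import Pool.Agent.Lib.MP_f1646b_al.P22b
import Pool.Agent.Lib.MP_f1646b_al.P23a
import Pool.Agent.Lib.MP_f1646b_al.P23b

/-!
# MP_f1646b_al, piece P23c: the invariant i3 of the quotient (helper67)
-/

set_option autoImplicit false

namespace Pool.Agent.Lib.MP_f1646b_al

open scoped Pointwise

namespace P23c

variable {G : Type*} [Group G]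

/-! ### the projection -/

theorem pi_inr (E N : Subgroup G) [N.Normal] (g : G) :
    conePi E N (Sum.inr (g : G ⧸ E)) =
      Sum.inr (((g : G ⧸ N)) : (G ⧸ N) ⧸ (E.map (QuotientGroup.mk' N))) := rfl

theorem pi_inl (E N : Subgroup G) [N.Normal] (g : G) :
    conePi E N (Sum.inl g) = Sum.inl (g : G ⧸ N) := rfl

theorem pi_smul (E N : Subgroup G) [N.Normal] (a : G) (x : Cone G E) :
    conePi E N (a • x) = (a : G ⧸ N) • conePi E N x := by
  rcases x with g | c
  · rfl
  · obtain ⟨g, rfl⟩ := QuotientGroup.mk_surjective c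
    rfl

theorem exists_inr (E N : Subgroup G) [N.Normal] {p : Cone (G ⧸ N) (E.map (QuotientGroup.mk' N))}
    (hp : p ∈ Apx (G ⧸ N) (E.map (QuotientGroup.mk' N))) :
    ∃ P ∈ Apx G E, conePi E N P = p := by
  obtain ⟨c, rfl⟩ := hp
  obtain ⟨q, rfl⟩ := QuotientGroup.mk_surjective c
  obtain ⟨g, rfl⟩ := QuotientGroup.mk_surjective q
  exact ⟨Sum.inr (g : G ⧸ E), ⟨_, rfl⟩, rfl⟩

theorem mem_apx_of_pi (E N : Subgroup G) [N.Normal] {P : Cone G E}
    (hp : conePi E N P ∈ Apx (G ⧸ N) (E.map (QuotientGroup.mk' N))) : P ∈ Apx G E := by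
  rcases P with g | c
  · obtain ⟨c, hc⟩ := hp
    exact absurd hc (by rw [pi_inl]; exact Sum.inr_ne_inl)
  · exact ⟨c, rfl⟩

theorem pi_mem_apx (E N : Subgroup G) [N.Normal] {P : Cone G E}
    (hp : P ∈ Apx G E) : conePi E N P ∈ Apx (G ⧸ N) (E.map (QuotientGroup.mk' N)) := by
  obtain ⟨c, rfl⟩ := hp
  obtain ⟨g, rfl⟩ := QuotientGroup.mk_surjective c
  exact ⟨_, rfl⟩

theorem smul_inr_eq (E : Subgroup G) (u g : G)
    (h : u • (Sum.inr (g : G ⧸ E) : Cone G E) = Sum.inr (g : G ⧸ E)) : g⁻¹ * u * g ∈ E := by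
  have h1 : (Sum.inr ((u * g : G) : G ⧸ E) : Cone G E) = Sum.inr (g : G ⧸ E) := h
  have h2 := Sum.inr_injective h1
  rw [eq_comm, QuotientGroup.eq] at h2
  rwa [← mul_assoc] at h2

/-- apices with the same image differ by an element of `N` -/
theorem exists_mem_of_pi_eq (E N : Subgroup G) [N.Normal] {P Q : Cone G E} (hP : P ∈ Apx G E)
    (hQ : Q ∈ Apx G E) (h : conePi E N P = conePi E N Q) : ∃ m ∈ N, m • P = Q := by
  obtain ⟨c, rfl⟩ := hP
  obtain ⟨c', rfl⟩ := hQ
  obtain ⟨g, rfl⟩ := QuotientGroup.mk_surjective c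
  obtain ⟨h', rfl⟩ := QuotientGroup.mk_surjective c'
  rw [pi_inr, pi_inr] at h
  have h2 := Sum.inr_injective h
  rw [QuotientGroup.eq] at h2
  obtain ⟨e, he, h3⟩ := h2
  have h4 : ((e : G) : G ⧸ N) = ((g⁻¹ * h' : G) : G ⧸ N) := h3
  rw [QuotientGroup.eq] at h4
  refine ⟨g * e * (e⁻¹ * (g⁻¹ * h')) * e⁻¹ * g⁻¹, ?_, ?_⟩
  · have h5 : g * e * (e⁻¹ * (g⁻¹ * h')) * e⁻¹ * g⁻¹ =
        (g * e) * (e⁻¹ * (g⁻¹ * h')) * (g * e)⁻¹ := by group
    rw [h5]
    exact Subgroup.Normal.conj_mem inferInstance _ h4 _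
  · have h6 : (g * e * (e⁻¹ * (g⁻¹ * h')) * e⁻¹ * g⁻¹) • (Sum.inr (g : G ⧸ E) : Cone G E) =
        Sum.inr (((g * e * (e⁻¹ * (g⁻¹ * h')) * e⁻¹ * g⁻¹ * g : G)) : G ⧸ E) := rfl
    rw [h6]
    congr 1
    rw [QuotientGroup.eq]
    have h7 : (g * e * (e⁻¹ * (g⁻¹ * h')) * e⁻¹ * g⁻¹ * g)⁻¹ * h' = e := by group
    rw [h7]; exact he

/-- frames of the quotient lifted to the stabiliser of an apex -/
def Lf (N : Subgroup G) [N.Normal] {E : Subgroup G} (w w' : G ⧸ N) (t : Cone G E) (u u' : G) :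
    Prop :=
  (u : G ⧸ N) = w ∧ (u' : G ⧸ N) = w' ∧ u • t = t ∧ u' • t = t ∧ Frame u u'

theorem frame_conj {u u' : G} (h : Frame u u') (g : G) :
    Frame (g * u * g⁻¹) (g * u' * g⁻¹) := by
  obtain ⟨h1, h2, h3, h4, h5, h6⟩ := h
  refine ⟨?_, ?_, ?_, ?_, ?_, ?_⟩
  · rw [conj_pow, h1]; simp
  · rw [conj_pow, h2]; simp
  · calc g * u * g⁻¹ * (g * u' * g⁻¹) = g * (u * u') * g⁻¹ := by group
      _ = g * (u' * u) * g⁻¹ := by rw [h3]
      _ = g * u' * g⁻¹ * (g * u * g⁻¹) := by group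
  · intro h0; exact h4 (conj_eq_one_iff.1 h0)
  · intro h0; exact h5 (conj_eq_one_iff.1 h0)
  · intro h0
    exact h6 (mul_left_cancel (mul_right_cancel h0))

theorem frame_swap {u u' : G} (h : Frame u u') : Frame u' u :=
  ⟨h.2.1, h.1, h.2.2.1.symm, h.2.2.2.2.1, h.2.2.2.1, h.2.2.2.2.2.symm⟩

/-- two lifts of the same frame to the stabiliser of an apex are related -/
theorem lemA {d : G → G → ℕ} {δ₀ : ℕ} (hH : HypMet G d δ₀)
    {E : Subgroup G} {ε τ : G → ℤ} {y0 : G} (hE : EData E ε τ y0) {θ δ n : ℕ}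
    {α : Cone G E → Cone G E → Cone G E → ℕ} (hC : ConePkg d E ε τ θ δ α) (hodd : Odd n)
    (N : Subgroup G) [N.Normal] {D β} (hF : FillPkg d E θ δ n α (y0 ^ n) N D β)
    {w w' : G ⧸ N} {t : Cone G E} (ht : t ∈ Apx G E) {u u' v v' : G} (hu : Lf N w w' t u u')
    (hv : Lf N w w' t v v') : FrRel E ε τ y0 u u' v v' := by
  obtain ⟨c, rfl⟩ := ht
  obtain ⟨g, rfl⟩ := QuotientGroup.mk_surjective c
  obtain ⟨u1, u2, u3, u4, u5⟩ := hu
  obtain ⟨v1, v2, v3, v4, v5⟩ := hv
  obtain ⟨i, hi⟩ := lift_diff hH hE hC hodd N hF g u v u3 v3 (u1.trans v1.symm)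
  obtain ⟨j, hj⟩ := lift_diff hH hE hC hodd N hF g u' v' u4 v4 (u2.trans v2.symm)
  have hn : 0 < n := hodd.pos
  have h1 := orientE hE n hn (g⁻¹ * u * g) (g⁻¹ * u' * g) (g⁻¹ * v * g) (g⁻¹ * v' * g)
    (smul_inr_eq E u g u3) (smul_inr_eq E u' g u4)
    (by simpa using frame_conj u5 g⁻¹) (by simpa using frame_conj v5 g⁻¹) i j
    (by rw [hi]; group) (by rw [hj]; group)
  have h2 : FrRel E ε τ y0 u u' (g⁻¹ * u * g) (g⁻¹ * u' * g) :=
    FrRel.eq _ _ _ _ ⟨g⁻¹, Or.inl ⟨by simp, by simp⟩⟩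
  have h3 : FrRel E ε τ y0 (g⁻¹ * v * g) (g⁻¹ * v' * g) v v' :=
    FrRel.eq _ _ _ _ ⟨g, Or.inl ⟨by group, by group⟩⟩
  exact FrRel.trans _ _ _ _ _ _ (FrRel.trans _ _ _ _ _ _ h2 h1) h3

/-- lifts over a gap -/
theorem lemB {d : G → G → ℕ} {δ₀ : ℕ} (hH : HypMet G d δ₀)
    {E : Subgroup G} {ε τ : G → ℤ} {y0 : G} (hE : EData E ε τ y0) {θ δ n : ℕ}
    {α : Cone G E → Cone G E → Cone G E → ℕ} (hC : ConePkg d E ε τ θ δ α) (hodd : Odd n)
    (N : Subgroup G) [N.Normal] {D β} (hF : FillPkg d E θ δ n α (y0 ^ n) N D β)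
    {w w' : G ⧸ N} (hw : Frame w w') (A : ℕ) (hn : 2 * A < n) (t t' : Cone G E) (ht : t ∈ Apx G E)
    (ht' : t' ∈ Apx G E) (hne : t ≠ t')
    (hNG : cd d E t t' = D (conePi E N t) (conePi E N t'))
    (hA : ∀ s ∈ Apx G E, s ≠ t → s ≠ t' → α s t t' ≤ A)
    (h1 : w • conePi E N t = conePi E N t) (h2 : w • conePi E N t' = conePi E N t')
    (h3 : w' • conePi E N t = conePi E N t) (h4 : w' • conePi E N t' = conePi E N t') :
    ∃ u u', Lf N w w' t u u' ∧ Lf N w w' t' u u' := by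
  obtain ⟨u, ⟨u1, u2, u3⟩, -⟩ := gap_lift hH hE hC hodd N hF A hn t t' ht ht' hne hNG hA w h1 h2
  obtain ⟨u', ⟨u1', u2', u3'⟩, -⟩ :=
    gap_lift hH hE hC hodd N hF A hn t t' ht ht' hne hNG hA w' h3 h4
  obtain ⟨hw1, hw2, hw3, hw4, hw5, hw6⟩ := hw
  have huniq : ∀ a b : G, (a : G ⧸ N) = b → a • t = t → a • t' = t' → b • t = t → b • t' = t' →
      a = b := by
    intro a b hab a1 a2 b1 b2
    have e1 : (a : G ⧸ N) • conePi E N t = conePi E N t := by rw [← pi_smul, a1]
    have e2 : (a : G ⧸ N) • conePi E N t' = conePi E N t' := by rw [← pi_smul, a2]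
    exact (gap_lift hH hE hC hodd N hF A hn t t' ht ht' hne hNG hA (a : G ⧸ N) e1 e2).unique
      ⟨rfl, a1, a2⟩ ⟨hab.symm, b1, b2⟩
  have hfr : Frame u u' := by
    refine ⟨?_, ?_, ?_, ?_, ?_, ?_⟩
    · apply huniq
      · rw [QuotientGroup.mk_pow, u1, hw1]; rfl
      · rw [pow_two, mul_smul, u2, u2]
      · rw [pow_two, mul_smul, u3, u3]
      · exact one_smul _ _
      · exact one_smul _ _
    · apply huniq
      · rw [QuotientGroup.mk_pow, u1', hw2]; rfl
      · rw [pow_two, mul_smul, u2', u2']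
      · rw [pow_two, mul_smul, u3', u3']
      · exact one_smul _ _
      · exact one_smul _ _
    · apply huniq
      · rw [QuotientGroup.mk_mul, QuotientGroup.mk_mul, u1, u1', hw3]
      · rw [mul_smul, u2', u2]
      · rw [mul_smul, u3', u3]
      · rw [mul_smul, u2, u2']
      · rw [mul_smul, u3, u3']
    · rintro rfl; exact hw4 (u1.symm.trans rfl)
    · rintro rfl; exact hw5 (u1'.symm.trans rfl)
    · rintro rfl; exact hw6 (u1.symm.trans u1')
  exact ⟨u, u', ⟨u1, u1', u2, u2', hfr⟩, ⟨u1, u1', u3, u3', hfr⟩⟩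

/-- elements of the image of `E` have finite order -/
theorem finOrder_map {E : Subgroup G} {ε τ : G → ℤ} {y0 : G} (hE : EData E ε τ y0) {n : ℕ}
    (hn : 0 < n) (N : Subgroup G) [N.Normal] (hz : y0 ^ n ∈ N) {x : G ⧸ N}
    (hx : x ∈ E.map (QuotientGroup.mk' N)) : IsOfFinOrder x := by
  obtain ⟨e, he, rfl⟩ := hx
  rw [isOfFinOrder_iff_pow_eq_one]
  have hone : ε 1 = 1 ∧ τ 1 = 0 := by
    have h1 := hE.eps_mul 1 E.one_mem 1 E.one_mem
    have h2 := hE.tau_mul 1 E.one_mem 1 E.one_mem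
    rw [mul_one] at h1 h2
    have h3 : ε 1 = 1 := by
      rcases hE.eps_sq 1 E.one_mem with h | h
      · exact h
      · rw [h] at h1; norm_num at h1
    rw [h3] at h2
    exact ⟨h3, by linarith⟩
  rcases hE.eps_sq e he with h | h
  · -- `ε e = 1`
    have hpow : ∀ m : ℕ, ε (e ^ m) = 1 ∧ τ (e ^ m) = m * τ e := by
      intro m
      induction m with
      | zero => simpa using hone
      | succ m ih =>
        have hm : e ^ m ∈ E := E.pow_mem he m
        rw [pow_succ]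
        refine ⟨?_, ?_⟩
        · rw [hE.eps_mul _ hm _ he, ih.1, h]; norm_num
        · rw [hE.tau_mul _ hm _ he, ih.1, ih.2]; push_cast; ring
    have hpow0 : ∀ m : ℕ, ε (y0 ^ m) = 1 ∧ τ (y0 ^ m) = m := by
      intro m
      induction m with
      | zero => simpa using hone
      | succ m ih =>
        have hm : y0 ^ m ∈ E := E.pow_mem hE.y0_mem m
        rw [pow_succ]
        refine ⟨?_, ?_⟩
        · rw [hE.eps_mul _ hm _ hE.y0_mem, ih.1, hE.eps_y0]; norm_num
        · rw [hE.tau_mul _ hm _ hE.y0_mem, ih.1, ih.2, hE.tau_y0]; push_cast; ring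
    have hinv : ∀ a ∈ E, ε a = 1 → ε a⁻¹ = 1 ∧ τ a⁻¹ = - τ a := by
      intro a ha h1
      have h2 := hE.eps_mul a ha a⁻¹ (E.inv_mem ha)
      have h3 := hE.tau_mul a ha a⁻¹ (E.inv_mem ha)
      rw [mul_inv_cancel, hone.1, h1] at h2
      rw [mul_inv_cancel, hone.2, h1] at h3
      exact ⟨by linarith, by linarith⟩
    have hz0 : ∀ m : ℤ, ε (y0 ^ m) = 1 ∧ τ (y0 ^ m) = m := by
      intro m
      rcases Int.eq_nat_or_neg m with ⟨k, rfl | rfl⟩
      · rw [zpow_natCast]; exact hpow0 k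
      · rw [zpow_neg, zpow_natCast]
        have h1 := hinv (y0 ^ k) (E.pow_mem hE.y0_mem k) (hpow0 k).1
        rw [(hpow0 k).2] at h1
        exact h1
    -- `k = e^n * y0^(-(n τ e))`
    set k := e ^ n * y0 ^ (-((n : ℤ) * τ e)) with hk
    have hyE : y0 ^ (-((n : ℤ) * τ e)) ∈ E := E.zpow_mem hE.y0_mem _
    have hkE : k ∈ E := E.mul_mem (E.pow_mem he n) hyE
    have hk1 : ε k = 1 := by
      rw [hk, hE.eps_mul _ (E.pow_mem he n) _ hyE, (hpow n).1, (hz0 _).1]; norm_num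
    have hk2 : τ k = 0 := by
      rw [hk, hE.tau_mul _ (E.pow_mem he n) _ hyE, (hpow n).1, (hz0 _).2, (hpow n).2]; ring
    have hk3 := hE.ker_sq k hkE hk1 hk2
    have hyN : y0 ^ (-((n : ℤ) * τ e)) ∈ N := by
      have h1 : y0 ^ (-((n : ℤ) * τ e)) = (y0 ^ n) ^ (-(τ e)) := by
        rw [← zpow_natCast y0 n, ← zpow_mul]; congr 1; ring
      rw [h1]; exact N.zpow_mem hz _
    have h5 : (QuotientGroup.mk' N) k = (QuotientGroup.mk' N) e ^ n := by
      rw [hk, map_mul, map_pow]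
      have h6 : (QuotientGroup.mk' N) (y0 ^ (-((n : ℤ) * τ e))) = 1 :=
        (QuotientGroup.eq_one_iff _).2 hyN
      rw [h6, mul_one]
    refine ⟨n * 2, by omega, ?_⟩
    rw [pow_mul, ← h5, ← map_pow, hk3, map_one]
  · refine ⟨2, by norm_num, ?_⟩
    rw [← map_pow, hE.refl_sq e he h, map_one]

end P23c

open P23c in
theorem quot_i3 {G : Type*} [Group G] {d : G → G → ℕ} {δ₀ : ℕ} (hH : HypMet G d δ₀)
    (hA : AInv G) {E : Subgroup G} {ε τ : G → ℤ} {y0 : G} (hE : EData E ε τ y0) {θ δ : ℕ}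
    {α : Cone G E → Cone G E → Cone G E → ℕ} (hC : ConePkg d E ε τ θ δ α) :
    ∃ n₀, ∀ n, n₀ ≤ n → Odd n → 3 ∣ n → ∀ (N : Subgroup G) [N.Normal] (D β),
      FillPkg d E θ δ n α (y0 ^ n) N D β →
      (∀ x : G ⧸ N, x ^ 4 = 1 → x ^ 2 = 1) →
      ∀ w w' x : G ⧸ N, Frame w w' → x * w * x⁻¹ = w' → x * w' * x⁻¹ ≠ w := by
  obtain ⟨D1, A1, hmid1⟩ := mid δ θ (4 * θ) 0 0
  obtain ⟨D2, A2, hmid2⟩ := mid δ θ (4 * θ) D1 A1
  obtain ⟨n1, hn1⟩ := i3_caseB hH hA hE hC D2 A2
  refine ⟨max n1 (56 * θ + 1), ?_⟩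
  intro n hn hodd h3 N _ D β hF hi1 w w' x hw hxw hxw'
  have hnB : n1 ≤ n := (le_max_left _ _).trans hn
  have hn56 : 2 * (28 * θ) < n := by
    have := (le_max_right n1 (56 * θ + 1)).trans hn
    omega
  -- `x` has infinite order
  have hxinf : ¬ IsOfFinOrder x := fun hx => no_swap_fin hi1 w w' x hw hx hxw hxw'
  obtain ⟨hw1, hw2, hw3, hw4, hw5, hw6⟩ := id hw
  have hwfin : IsOfFinOrder w := isOfFinOrder_iff_pow_eq_one.2 ⟨2, by norm_num, hw1⟩
  have hwfin' : IsOfFinOrder w' := isOfFinOrder_iff_pow_eq_one.2 ⟨2, by norm_num, hw2⟩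
  by_cases hB : ∀ s ∈ Apx (G ⧸ N) (E.map (QuotientGroup.mk' N)), ¬ (w • s = s ∧ w' • s = s)
  · -- no fixed apex
    have hbot : Good D (Apx (G ⧸ N) (E.map (QuotientGroup.mk' N))) β (⊥ : Subgroup (G ⧸ N)) 0 0
        (Sum.inl 1) := by
      refine ⟨?_, ?_, ?_⟩
      · rintro - f hf
        rw [Subgroup.mem_bot] at hf
        rw [hf, one_smul]
      · intro f hf
        rw [Subgroup.mem_bot] at hf
        rw [hf, one_smul, hF.act.cas.geo.self]
      · intro f hf s hs hs1 _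
        rw [Subgroup.mem_bot] at hf
        rw [hf, one_smul, hF.act.cas.a_self s hs _ hs1.symm]
    obtain ⟨p1, hp1⟩ := hmid1 hF.act hF.hyp ⊥ inferInstance w (by
      intro f hf
      rw [Subgroup.mem_bot] at hf ⊢
      rw [hf]; simp) (by rw [hw1]; exact Subgroup.one_mem _) _ hbot
    have hfinw : Finite (⊥ ⊔ Subgroup.zpowers w : Subgroup (G ⧸ N)) := by
      rw [bot_sup_eq]
      exact hwfin.finite_zpowers
    obtain ⟨p2, hp2⟩ := hmid2 hF.act hF.hyp (⊥ ⊔ Subgroup.zpowers w) hfinw w' (by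
      intro f hf
      rw [bot_sup_eq] at hf ⊢
      obtain ⟨i, rfl⟩ := Subgroup.mem_zpowers_iff.1 hf
      have h1 : Commute w' (w ^ i) := Commute.zpow_right hw3.symm i
      rw [h1.eq, mul_inv_cancel_right]
      exact hf) (by rw [hw2]; exact Subgroup.one_mem _) p1 hp1
    rw [bot_sup_eq] at hp2
    exact hn1 n hnB hodd h3 N D β hF w w' x hw hxw hxw' p2 hp2 hB
  · push Not at hB
    obtain ⟨p, hp, hwp, hwp'⟩ := hB
    have hwx : w * x = x * w' := by
      rw [← hxw']; group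
    have hwx' : w' * x = x * w := by
      rw [← hxw]; group
    have hwq : w • x • p = x • p := by rw [← mul_smul, hwx, mul_smul, hwp']
    have hwq' : w' • x • p = x • p := by rw [← mul_smul, hwx', mul_smul, hwp]
    have hq : x • p ∈ Apx (G ⧸ N) (E.map (QuotientGroup.mk' N)) := hF.act.inS x p hp
    obtain ⟨P, hP, hPp⟩ := exists_inr E N hp
    have hgeo := hC.act.cas.geo
    have hgeoD := hF.act.cas.geo
    have hnpos : 0 < n := hodd.pos
    have hzN : y0 ^ n ∈ N := by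
      rw [hF.nc]; exact Subgroup.subset_normalClosure rfl
    -- `x p ≠ p`
    have hpq : p ≠ x • p := by
      intro h0
      apply hxinf
      obtain ⟨c, rfl⟩ := hp
      obtain ⟨g, rfl⟩ := QuotientGroup.mk_surjective c
      have h1 := smul_inr_eq (E.map (QuotientGroup.mk' N)) x g h0.symm
      have h2 := finOrder_map hE hnpos N hzN h1
      have h4 : x = g * (g⁻¹ * x * g) * g⁻¹ := by group
      rw [h4]
      exact (isConj_iff.2 ⟨g, rfl⟩).isOfFinOrder h2
    -- the lift `Q`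
    obtain ⟨Q, hQq, hPQ, hα⟩ := hF.q2 P (x • p)
    rw [hPp] at hPQ hα
    have hQ : Q ∈ Apx G E := mem_apx_of_pi E N (by rw [hQq]; exact hq)
    have hPneQ : P ≠ Q := by
      rintro rfl
      exact hpq (hPp.symm.trans hQq)
    -- the distances in the quotient between points of `[P, Q]`
    have hNG : ∀ t t', Btw (cd d E) P t t' → Btw (cd d E) P t' Q →
        cd d E P t = D p (conePi E N t) ∧ cd d E t t' = D (conePi E N t) (conePi E N t') ∧
          cd d E t' Q = D (conePi E N t') (x • p) := by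
      intro t t' h1 h2
      have e1 := hF.le P t
      have e2 := hF.le t t'
      have e3 := hF.le t' Q
      rw [hPp] at e1
      rw [hQq] at e3
      have e4 := hgeoD.tri p (conePi E N t) (conePi E N t')
      have e5 := hgeoD.tri p (conePi E N t') (x • p)
      unfold Btw at h1 h2
      refine ⟨?_, ?_, ?_⟩ <;> omega
    -- apices with a big angle are fixed
    have hfix : ∀ t ∈ Apx G E, t ≠ P → t ≠ Q → 28 * θ < α t P Q →
        ∀ f : G ⧸ N, IsOfFinOrder f → f • p = p → f • x • p = x • p →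
        f • conePi E N t = conePi E N t := by
      intro t ht htP htQ hbig f hf hfp hfq
      have hb : Btw (cd d E) P t Q := hC.act.cas.k1 t ht P Q htP.symm htQ.symm (by omega)
      have hd := hNG t t (btw_right hgeo P t) hb
      have hne1 : conePi E N t ≠ p := by
        intro h0
        rw [h0, hgeoD.self] at hd
        exact htP (hgeo.eq_of _ _ hd.1).symm
      have hne2 : conePi E N t ≠ x • p := by
        intro h0
        rw [h0, hgeoD.self] at hd
        exact htQ (hgeo.eq_of _ _ hd.2.2)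
      have hfi : ∀ i : ℕ, f ^ i • p = p := by
        intro i
        induction i with
        | zero => rw [pow_zero, one_smul]
        | succ i ih => rw [pow_succ, mul_smul, hfp, ih]
      have hfi' : ∀ i : ℕ, f ^ i • x • p = x • p := by
        intro i
        induction i with
        | zero => rw [pow_zero, one_smul]
        | succ i ih => rw [pow_succ, mul_smul, hfq, ih]
      have hS : ∀ i : ℕ, f ^ i • conePi E N t ∈ Apx (G ⧸ N) (E.map (QuotientGroup.mk' N)) :=
        fun i => hF.act.inS _ _ (pi_mem_apx E N ht)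
      have hn1' : ∀ j : ℕ, f ^ j • conePi E N t ≠ p := by
        intro j h0
        rw [← hfi j] at h0
        exact hne1 (smul_left_cancel _ h0)
      have hn2' : ∀ j : ℕ, f ^ j • conePi E N t ≠ x • p := by
        intro j h0
        rw [← hfi' j] at h0
        exact hne2 (smul_left_cancel _ h0)
      refine fixsep hF.act f hf p (x • p) (conePi E N t) (pi_mem_apx E N ht) θ le_rfl ?_ ?_ ?_
      · intro i j
        rw [hfi i, hfi' i]
        exact ⟨hn1' j, hn2' j⟩
      · intro i j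
        rw [hfi i, hfi' i, hF.act.cas.a_self _ (hS j) _ (hn1' j).symm,
          hF.act.cas.a_self _ (hS j) _ (hn2' j).symm]
        exact ⟨Nat.zero_le _, Nat.zero_le _⟩
      · have h1 := hα t ht htP htQ
        omega
    -- the induction over gaps
    have hind : ∀ L : ℕ, ∀ t t' : Cone G E, cd d E t t' ≤ L → t ∈ Apx G E → t' ∈ Apx G E →
        t ≠ t' → Btw (cd d E) P t t' → Btw (cd d E) P t' Q →
        (t = P ∨ (t ≠ P ∧ t ≠ Q ∧ 28 * θ < α t P Q)) →
        (t' = Q ∨ (t' ≠ P ∧ t' ≠ Q ∧ 28 * θ < α t' P Q)) →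
        (∃ v v', Lf N w w' t' v v') ∧
        ∀ u u' v v', Lf N w w' t u u' → Lf N w w' t' v v' → FrRel E ε τ y0 u u' v v' := by
      intro L
      induction L with
      | zero =>
        intro t t' h0 _ _ hne
        exact absurd (hgeo.eq_of _ _ (Nat.le_zero.1 h0)) hne
      | succ L ih =>
        intro t t' hL ht ht' hne h1 h2 h3 h4
        have hft : ∀ f : G ⧸ N, IsOfFinOrder f → f • p = p → f • x • p = x • p →
            f • conePi E N t = conePi E N t := by
          rcases h3 with rfl | ⟨a1, a2, a3⟩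
          · intro f _ hf _; rw [hPp]; exact hf
          · exact hfix t ht a1 a2 a3
        have hft' : ∀ f : G ⧸ N, IsOfFinOrder f → f • p = p → f • x • p = x • p →
            f • conePi E N t' = conePi E N t' := by
          rcases h4 with rfl | ⟨a1, a2, a3⟩
          · intro f _ _ hf; rw [hQq]; exact hf
          · exact hfix t' ht' a1 a2 a3
        by_cases hgap : ∀ s ∈ Apx G E, s ≠ t → s ≠ t' → α s t t' ≤ 28 * θ
        · obtain ⟨u0, u0', hu0, hu0'⟩ := lemB hH hE hC hodd N hF hw (28 * θ) hn56 t t' ht ht' hne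
            (hNG t t' h1 h2).2.1 hgap (hft w hwfin hwp hwq) (hft' w hwfin hwp hwq)
            (hft w' hwfin' hwp' hwq') (hft' w' hwfin' hwp' hwq')
          refine ⟨⟨u0, u0', hu0'⟩, ?_⟩
          intro u u' v v' hu hv
          exact FrRel.trans _ _ _ _ _ _ (lemA hH hE hC hodd N hF ht hu hu0)
            (lemA hH hE hC hodd N hF ht' hu0' hv)
        · push Not at hgap
          obtain ⟨s, hs, hst, hst', hbig⟩ := hgap
          have hcas := hC.act.cas
          have hb : Btw (cd d E) t s t' := hcas.k1 s hs t t' hst.symm hst'.symm (by omega)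
          -- positions
          have b1 : Btw (cd d E) P s t' ∧ Btw (cd d E) P t s := btw_T1' hgeo hb h1
          have b2 : Btw (cd d E) P s Q := (btw_T1 hgeo b1.1 h2).1
          have b3 : Btw (cd d E) s t' Q := (btw_T1 hgeo b1.1 h2).2
          have b4 : Btw (cd d E) P t Q := (btw_T1 hgeo h1 h2).1
          have htpos : 0 < cd d E t s := dist_pos_of_ne hgeo hst.symm
          have htpos' : 0 < cd d E s t' := dist_pos_of_ne hgeo hst'
          have hsP : s ≠ P := by
            rintro rfl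
            have e1 := b1.2
            unfold Btw at e1
            rw [hgeo.self] at e1
            omega
          have hsQ : s ≠ Q := by
            rintro rfl
            have e1 := b3
            unfold Btw at e1
            rw [hgeo.self] at e1
            omega
          have c1 : α s t P = 0 := by
            rcases h3 with rfl | ⟨a1, a2, a3⟩
            · exact hcas.a_self s hs _ hsP.symm
            · exact (pair_lemma hcas t s P Q ht hs hst.symm a1 a2 hsP hsQ b1.2 b2 (by omega)).1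
          have c2 : α s t' Q = 0 := by
            rcases h4 with rfl | ⟨a1, a2, a3⟩
            · exact hcas.a_self s hs _ hsQ.symm
            · refine (pair_lemma hcas t' s Q P ht' hs hst'.symm a2 a1 hsQ hsP (b3.comm hgeo)
                (b2.comm hgeo) ?_).1
              rw [hcas.a_symm t' ht' Q P a2.symm a1.symm]
              omega
          have c3 : 28 * θ < α s P Q := by
            have e1 := hcas.a_tri s hs t P t' hst.symm hsP.symm hst'.symm
            have e2 := hcas.a_tri s hs P Q t' hsP.symm hsQ.symm hst'.symm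
            have e3 := hcas.a_symm s hs t' Q hst'.symm hsQ.symm
            omega
          have hdist : cd d E t s + cd d E s t' = cd d E t t' := hb
          have i1 := ih t s (by omega) ht hs hst.symm b1.2 b2 h3 (Or.inr ⟨hsP, hsQ, c3⟩)
          have i2 := ih s t' (by omega) hs ht' hst' b1.1 h2 (Or.inr ⟨hsP, hsQ, c3⟩) h4
          refine ⟨i2.1, ?_⟩
          intro u u' v v' hu hv
          obtain ⟨a, a', ha⟩ := i1.1
          exact FrRel.trans _ _ _ _ _ _ (i1.2 u u' a a' hu ha) (i2.2 a a' v v' ha hv)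
    obtain ⟨⟨v, v', hv⟩, hrel⟩ := hind (cd d E P Q) P Q le_rfl hP hQ hPneQ (btw_left hgeo P Q)
      (btw_right hgeo P Q) (Or.inl rfl) (Or.inl rfl)
    -- the lift of `x`
    obtain ⟨a, rfl⟩ := QuotientGroup.mk_surjective x
    obtain ⟨m, hm, hmP⟩ := exists_mem_of_pi_eq E N (P := a • P) (Q := Q)
      (hC.act.inS a P hP) hQ (by rw [pi_smul, hPp, hQq])
    set b := m * a with hb
    have hbx : (b : G ⧸ N) = (a : G ⧸ N) := by
      rw [hb, QuotientGroup.mk_mul, (QuotientGroup.eq_one_iff m).2 hm, one_mul]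
    have hbP : b • P = Q := by rw [hb, mul_smul, hmP]
    have hbQ : b⁻¹ • Q = P := by rw [← hbP, inv_smul_smul]
    obtain ⟨v1, v2, v3, v4, v5⟩ := hv
    have hu : Lf N w w' P (b⁻¹ * v' * b) (b⁻¹ * v * b) := by
      refine ⟨?_, ?_, ?_, ?_, ?_⟩
      · rw [QuotientGroup.mk_mul, QuotientGroup.mk_mul, QuotientGroup.mk_inv, hbx, v2, ← hxw]
        group
      · rw [QuotientGroup.mk_mul, QuotientGroup.mk_mul, QuotientGroup.mk_inv, hbx, v1, ← hxw']
        group
      · rw [mul_smul, mul_smul, hbP, v4, hbQ]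
      · rw [mul_smul, mul_smul, hbP, v3, hbQ]
      · simpa using frame_conj (frame_swap v5) b⁻¹
    have h1 := hrel _ _ _ _ hu ⟨v1, v2, v3, v4, v5⟩
    have h2 : FrRel E ε τ y0 v' v (b⁻¹ * v' * b) (b⁻¹ * v * b) :=
      FrRel.eq _ _ _ _ ⟨b⁻¹, Or.inl ⟨by simp, by simp⟩⟩
    exact frRel_ne hA hE v' v (frame_swap v5) (FrRel.trans _ _ _ _ _ _ h2 h1)

end Pool.Agent.Lib.MP_f1646b_al
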