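import Pool.Agent.Lib.MP_f1646b_al.P16a
import Pool.Agent.Lib.MP_f1646b_al.P18

/-!
# MP_f1646b_al, piece P24: elements of infinite order (helper72)
-/

set_option autoImplicit false

namespace Pool.Agent.Lib.MP_f1646b_al

namespace P24

variable {G : Type*} [Group G] {E : Subgroup G}

/-- the apex of `E` -/
def s0 (E : Subgroup G) : Cone G E := Sum.inr ((1 : G) : G ⧸ E)

theorem s0_mem : s0 E ∈ Apx G E := ⟨_, rfl⟩

theorem smul_s0 (g : G) : g • s0 E = Sum.inr ((g : G) : G ⧸ E) := by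
  show (Sum.inr (g • ((1 : G) : G ⧸ E)) : Cone G E) = _
  congr 1
  show (((g * 1 : G)) : G ⧸ E) = _
  rw [mul_one]

theorem smul_s0_eq (g : G) (hg : g ∈ E) : g • s0 E = s0 E := by
  rw [smul_s0]
  show _ = (Sum.inr ((1 : G) : G ⧸ E) : Cone G E)
  congr 1
  rw [QuotientGroup.eq]
  simpa using hg

theorem smul_s0_ne (g : G) (hg : g ∉ E) : g • s0 E ≠ s0 E := by
  rw [smul_s0]
  intro h
  have h1 : ((g : G) : G ⧸ E) = ((1 : G) : G ⧸ E) := Sum.inr_injective h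
  rw [QuotientGroup.eq] at h1
  apply hg
  simpa using h1

variable {ε τ : G → ℤ} {y0 : G} 

theorem eps_pow (hE : EData E ε τ y0) (x : G) (hx : x ∈ E) (hx1 : ε x = 1) (k : ℕ) :
    ε (x ^ k) = 1 ∧ τ (x ^ k) = k * τ x := by
  induction k with
  | zero =>
    have h1 := hE.eps_mul 1 E.one_mem 1 E.one_mem
    have h2 := hE.tau_mul 1 E.one_mem 1 E.one_mem
    rw [mul_one] at h1 h2
    have h3 : ε 1 = 1 := by
      rcases hE.eps_sq 1 E.one_mem with h | h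
      · exact h
      · rw [h] at h1; norm_num at h1
    rw [h3] at h2
    rw [pow_zero]
    refine ⟨h3, ?_⟩
    push_cast
    linarith
  | succ k ih =>
    rw [pow_succ]
    refine ⟨?_, ?_⟩
    · rw [hE.eps_mul _ (E.pow_mem hx k) _ hx, ih.1, hx1, mul_one]
    · rw [hE.tau_mul _ (E.pow_mem hx k) _ hx, ih.1, ih.2]
      push_cast; ring

theorem eps_inv (hE : EData E ε τ y0) (x : G) (hx : x ∈ E) (hx1 : ε x = 1) :
    ε x⁻¹ = 1 ∧ τ x⁻¹ = - τ x := by
  have h0 := eps_pow hE x hx hx1 0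
  rw [pow_zero] at h0
  have h1 := hE.eps_mul x hx x⁻¹ (E.inv_mem hx)
  have h2 := hE.tau_mul x hx x⁻¹ (E.inv_mem hx)
  rw [mul_inv_cancel, h0.1, hx1, one_mul] at h1
  rw [mul_inv_cancel, h0.2, hx1, one_mul] at h2
  refine ⟨h1.symm, ?_⟩
  push_cast at h2
  linarith

variable {d : G → G → ℕ} {θ δ : ℕ} {α : Cone G E → Cone G E → Cone G E → ℕ}

/-- the angle at `s0` of the orbit of `u = a x ^ k` -/
theorem angle (hE : EData E ε τ y0) (hC : ConePkg d E ε τ θ δ α) (a : G) (ha : a ∉ E)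
    (x : G) (hx : x ∈ E) (hx1 : ε x = 1) (k : ℕ) :
    2 * k * (τ x).natAbs ≤ α (s0 E) ((a * x ^ k)⁻¹ • s0 E) ((a * x ^ k) • s0 E) +
      α (s0 E) (a⁻¹ • s0 E) (a • s0 E) ∧
    α (s0 E) ((a * x ^ k)⁻¹ • s0 E) ((a * x ^ k) • s0 E) ≤ 2 * k * (τ x).natAbs +
      α (s0 E) (a⁻¹ • s0 E) (a • s0 E) := by
  have ha' : a⁻¹ ∉ E := fun h => ha (by simpa using E.inv_mem h)
  set e := (x ^ k)⁻¹ with he
  have hxk := E.pow_mem hx k
  have heE : e ∈ E := E.inv_mem hxk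
  have h1 := eps_pow hE x hx hx1 k
  have h2 := eps_inv hE (x ^ k) hxk h1.1
  have h3 := hC.rot e heE h2.1 (a⁻¹ • s0 E) (smul_s0_ne _ ha')
  change α (s0 E) _ _ = _ at h3
  have h4 : (τ e).natAbs = k * (τ x).natAbs := by
    rw [h2.2, h1.2, Int.natAbs_neg, Int.natAbs_mul, Int.natAbs_natCast]
  rw [h4] at h3
  have h5 : (a * x ^ k)⁻¹ • s0 E = e • a⁻¹ • s0 E := by
    rw [mul_inv_rev, mul_smul]
  have h6 : (a * x ^ k) • s0 E = a • s0 E := by
    rw [mul_smul, smul_s0_eq _ hxk]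
  rw [h5, h6]
  have hn1 : a⁻¹ • s0 E ≠ s0 E := smul_s0_ne _ ha'
  have hn2 : a • s0 E ≠ s0 E := smul_s0_ne _ ha
  have hn3 : e • a⁻¹ • s0 E ≠ s0 E := by
    rw [← mul_smul]
    apply smul_s0_ne
    intro h
    exact ha' ((E.mul_mem_cancel_left heE).1 h)
  have hcas := hC.act.cas
  have t1 := hcas.a_tri _ s0_mem (a⁻¹ • s0 E) (a • s0 E) (e • a⁻¹ • s0 E) hn1 hn2 hn3
  have t2 := hcas.a_symm _ s0_mem (a • s0 E) (e • a⁻¹ • s0 E) hn2 hn3
  have t3 := hcas.a_tri _ s0_mem (e • a⁻¹ • s0 E) (a⁻¹ • s0 E) (a • s0 E) hn3 hn1 hn2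
  have t4 := hcas.a_symm _ s0_mem (a⁻¹ • s0 E) (e • a⁻¹ • s0 E) hn1 hn3
  rw [← t4] at t3
  rw [← mul_assoc] at h3
  constructor <;> omega

theorem ne_succ (a : G) (ha : a ∉ E) (x : G) (hx : x ∈ E) (k i : ℕ) :
    (a * x ^ k) ^ i • s0 E ≠ (a * x ^ k) ^ (i + 1) • s0 E := by
  rw [pow_succ, mul_smul]
  intro h
  have h1 := smul_left_cancel _ h
  rw [mul_smul, smul_s0_eq _ (E.pow_mem hx k)] at h1
  exact smul_s0_ne _ ha h1.symm

theorem shift_angle (hC : ConePkg d E ε τ θ δ α) (u : G) (hu : u • s0 E ≠ s0 E) (i : ℕ) :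
    α (u ^ (i + 1) • s0 E) (u ^ i • s0 E) (u ^ (i + 2) • s0 E) = α (s0 E) (u⁻¹ • s0 E) (u • s0 E) := by
  have hu' : u⁻¹ • s0 E ≠ s0 E := by
    intro h
    apply hu
    rw [← h, smul_inv_smul, h]
  have := hC.act.a_inv (u ^ (i + 1)) (s0 E) s0_mem (u⁻¹ • s0 E) (u • s0 E) hu' hu
  rw [← this]
  congr 1
  · rw [← mul_smul, pow_succ, mul_inv_cancel_right]
  · rw [← mul_smul, ← pow_succ]

end P24

open P24 in
theorem pp {G : Type*} [Group G] {d : G → G → ℕ}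
    {E : Subgroup G} {ε τ : G → ℤ} {y0 : G} (hE : EData E ε τ y0) {θ δ : ℕ}
    {α : Cone G E → Cone G E → Cone G E → ℕ} (hC : ConePkg d E ε τ θ δ α) (a : G) (ha : a ∉ E)
    (x : G) (hx : x ∈ E) (hx1 : ε x = 1) (hx0 : τ x ≠ 0) : ∃ k : ℕ, InfOrd (a * x ^ k) := by
  set C := α (s0 E) (a⁻¹ • s0 E) (a • s0 E) with hCdef
  refine ⟨2 * θ + C + 1, ?_⟩
  set k := 2 * θ + C + 1 with hk
  set u := a * x ^ k with hu
  have hus : u • s0 E ≠ s0 E := by
    have := ne_succ a ha x hx k 0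
    rw [← hu, pow_zero, one_smul, zero_add, pow_one] at this
    exact this.symm
  have hang := (angle hE hC a ha x hx hx1 k).1
  rw [← hu, ← hCdef] at hang
  have hτ : 1 ≤ (τ x).natAbs := by
    have := Int.natAbs_ne_zero.2 hx0
    omega
  have h1 : 2 * k ≤ 2 * k * (τ x).natAbs := Nat.le_mul_of_pos_right _ hτ
  obtain ⟨h2, -, -⟩ := chain_lemma hC.act.cas (fun i => u ^ i • s0 E)
    (fun i => hC.act.inS _ _ s0_mem) (fun i => ne_succ a ha x hx k i)
    (fun i => by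
      show 2 * θ < α (u ^ (i + 1) • s0 E) (u ^ i • s0 E) (u ^ (i + 2) • s0 E)
      rw [shift_angle hC u hus]
      omega)
  intro m hm h3
  apply h2 0 m hm
  simp only [pow_zero, h3]

open P24 in
theorem quot_inf {G : Type*} [Group G] {d : G → G → ℕ} {δ₀ : ℕ} (hH : HypMet G d δ₀)
    {E : Subgroup G} {ε τ : G → ℤ} {y0 : G} (hE : EData E ε τ y0) {θ δ : ℕ}
    {α : Cone G E → Cone G E → Cone G E → ℕ} (hC : ConePkg d E ε τ θ δ α) (a : G) (ha : a ∉ E) :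
    ∃ n₀, ∀ n, n₀ ≤ n → ∀ (N : Subgroup G) [N.Normal] (D β),
      FillPkg d E θ δ n α (y0 ^ n) N D β → ∃ u : G ⧸ N, InfOrd u := by
  set C := α (s0 E) (a⁻¹ • s0 E) (a • s0 E) with hCdef
  refine ⟨4 * C + 8 * θ + 16 + θ * (d 1 a + 2), ?_⟩
  intro n hn N _ D β hF
  set m := n / 4 with hm
  set u := a * y0 ^ m with hu
  have hus : u • s0 E ≠ s0 E := by
    have := ne_succ a ha y0 hE.y0_mem m 0
    rw [← hu, pow_zero, one_smul, zero_add, pow_one] at this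
    exact this.symm
  have hang := angle hE hC a ha y0 hE.y0_mem hE.eps_y0 m
  rw [← hu, ← hCdef, hE.tau_y0, Int.natAbs_one, mul_one] at hang
  obtain ⟨h2, h3, h4⟩ := chain_lemma hC.act.cas (fun i => u ^ i • s0 E)
    (fun i => hC.act.inS _ _ s0_mem) (fun i => ne_succ a ha y0 hE.y0_mem m i)
    (fun i => by
      show 2 * θ < α (u ^ (i + 1) • s0 E) (u ^ i • s0 E) (u ^ (i + 2) • s0 E)
      rw [shift_angle hC u hus]
      omega)
  refine ⟨(u : G ⧸ N), ?_⟩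
  intro N₀ hN₀ h5
  have h6 : u ^ N₀ ∈ N := by
    rw [← QuotientGroup.eq_one_iff]
    exact h5
  have h7 : u ^ N₀ • s0 E ≠ s0 E := by
    have := h2 0 N₀ hN₀
    simp only [pow_zero, one_smul] at this
    exact this.symm
  obtain ⟨b, hb1, hb2, hb3, -⟩ := hF.q3 _ h6 _ h7
  set s : Cone G E := Sum.inr (b : G ⧸ E) with hs
  have hsS : s ∈ Apx G E := ⟨_, rfl⟩
  by_cases hex : ∃ j, j ≤ N₀ ∧ s = u ^ j • s0 E
  · obtain ⟨j, hj, hsj⟩ := hex
    have hj0 : j ≠ 0 := by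
      rintro rfl
      rw [pow_zero, one_smul] at hsj
      exact hb1 hsj
    have hjN : j ≠ N₀ := by
      rintro rfl
      exact hb2 hsj
    have h8 := h3 0 j N₀ (by omega) (by omega)
    simp only [pow_zero, one_smul] at h8
    rw [← hsj] at h8
    obtain ⟨i, rfl⟩ : ∃ i, j = i + 1 := ⟨j - 1, by omega⟩
    rw [hsj] at h8 hb3
    rw [h8] at hb3
    have h9 := shift_angle hC u hus i
    simp only [Nat.add_sub_cancel] at hb3
    rw [h9] at hb3
    omega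
  · push Not at hex
    have h8 : 2 * θ < α s ((fun i => u ^ i • s0 E) 0) ((fun i => u ^ i • s0 E) N₀) := by
      simp only [pow_zero, one_smul]
      omega
    obtain ⟨j, hj, h9⟩ := h4 N₀ s hN₀ hsS hex h8
    simp only [pow_zero, one_smul] at h9
    -- translate back
    have hsj : s ≠ u ^ j • s0 E := hex j (by omega)
    have hsj1 : s ≠ u ^ (j + 1) • s0 E := hex (j + 1) (by omega)
    set s' := (u ^ j)⁻¹ • s with hs'
    have hss : u ^ j • s' = s := by rw [hs', smul_inv_smul]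
    have hs'S : s' ∈ Apx G E := hC.act.inS _ _ hsS
    have hn1 : s0 E ≠ s' := by
      intro h
      apply hsj
      rw [h, hss]
    have hu0 : u • s0 E = a • s0 E := by
      rw [hu, mul_smul, smul_s0_eq _ (E.pow_mem hE.y0_mem m)]
    have hn2 : a • s0 E ≠ s' := by
      intro h
      apply hsj1
      rw [pow_succ, mul_smul, hu0, h, hss]
    have h10 : α s (u ^ j • s0 E) (u ^ (j + 1) • s0 E) = α s' (s0 E) (a • s0 E) := by
      rw [← hC.act.a_inv (u ^ j) s' hs'S (s0 E) (a • s0 E) hn1 hn2, hss, pow_succ, mul_smul, hu0]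
    obtain ⟨c, hc⟩ : ∃ c : G ⧸ E, s' = Sum.inr c := by
      obtain ⟨c, hc⟩ := hs'S
      exact ⟨c, hc.symm⟩
    have hl : ∀ g : G, (Sum.inl g : Cone G E) ≠ s' := by
      intro g h
      rw [hc] at h
      exact Sum.inl_ne_inr h
    have hcas := hC.act.cas
    have t1 := hcas.a_tri s' hs'S (s0 E) (Sum.inl 1) (a • s0 E) hn1 (hl 1) hn2
    have t2 := hcas.a_tri s' hs'S (Sum.inl 1) (Sum.inl a) (a • s0 E) (hl 1) (hl a) hn2
    have e1 : α s' (s0 E) (Sum.inl 1) ≤ θ := by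
      refine hcas.small_adj hs'S hn1 (hl 1) ?_
      rw [hcas.geo.symm]
      exact ((hC.adj_lr 1 _).2 rfl).le
    have e2 : α s' (Sum.inl a) (a • s0 E) ≤ θ := by
      refine hcas.small_adj hs'S (hl a) hn2 ?_
      rw [smul_s0]
      exact ((hC.adj_lr a _).2 rfl).le
    have e3 : α s' (Sum.inl 1) (Sum.inl a) ≤ θ * d 1 a := by
      rw [hc]
      exact alpha_le hH hC c 1 a
    have e4 : θ * (d 1 a + 2) = θ * d 1 a + 2 * θ := by ring
    rw [h10] at h9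
    omega

end Pool.Agent.Lib.MP_f1646b_al
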