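import Pool.Agent.Lib.MP_f1646b_al.P07a
import Pool.Agent.Lib.MP_f1646b_al.P07b
import Pool.Agent.Lib.MP_f1646b_al.P08b
import Pool.Agent.Lib.MP_f1646b_al.P09
import Pool.Agent.Lib.MP_f1646b_al.P10
import Pool.Agent.Lib.MP_f1646b_al.P11e

set_option autoImplicit false

namespace Pool.Agent.Lib.MP_f1646b_al

open scoped Pointwise

theorem exists_setup {G : Type*} [Group G] (hI : IsHyp G) (hA : AInv G) (y : G) (hy : InfOrd y) :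
    ∃ (d : G → G → ℕ) (δ₀ : ℕ) (E : Subgroup G) (ε τ : G → ℤ) (y0 : G) (θ δ : ℕ)
      (α : Cone G E → Cone G E → Cone G E → ℕ), HypMet G d δ₀ ∧ (∀ g, g ∈ E ↔ ElemRel y g) ∧
      EData E ε τ y0 ∧ ConePkg d E ε τ θ δ α ∧ ε y = 1 ∧ τ y ≠ 0 := by
  obtain ⟨d, δ₀, hH⟩ := hI
  obtain ⟨E, hE⟩ := elem_subgroup y
  have hQ := elem_qcsep hH y hy E hE
  obtain ⟨D, hD⟩ := elem_near hH y hy
  have hfin : ∃ F : Finset G, ∀ g ∈ E, ∃ l : ℤ, ∃ f ∈ F, g = y ^ l * f := by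
    refine ⟨(hH.fin D).toFinset, fun g hg => ?_⟩
    obtain ⟨l, hl⟩ := hD g ((hE g).1 hg)
    refine ⟨l, (y ^ l)⁻¹ * g, ?_, by group⟩
    rw [Set.Finite.mem_toFinset, Set.mem_setOf_eq]
    have := hH.inv (y ^ l) 1 ((y ^ l)⁻¹ * g)
    rw [mul_one, mul_inv_cancel_left, hH.geo.symm] at this
    omega
  obtain ⟨ε, τ, y0, hED, h1, h2⟩ := exists_edata hA y hy E hE hfin
  obtain ⟨κ, hκ⟩ := exists_projConst hH E hQ
  obtain ⟨T, hT⟩ := exists_coneHyp hH E hQ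
  obtain ⟨θ, δ', α, hC⟩ := exists_conePkg hH E ε τ y0 hED hκ hT
  exact ⟨d, δ₀, E, ε, τ, y0, θ, δ', α, hH, hE, hED, hC, h1, h2⟩

end Pool.Agent.Lib.MP_f1646b_al
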