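import Pool.Agent.Lib.MP_f1646b_al.Betw

set_option autoImplicit false

namespace Pool.Agent.Lib.MP_f1646b_al

namespace P25b

variable {G : Type*} [Group G] {E : Subgroup G} {ε τ : G → ℤ} {y0 : G}

theorem eps_one (hD : EData E ε τ y0) : ε 1 = 1 := by
  have h := hD.eps_mul 1 E.one_mem 1 E.one_mem
  rw [one_mul] at h
  rcases hD.eps_sq 1 E.one_mem with h' | h'
  · exact h'
  · rw [h'] at h; norm_num at h

theorem tau_one (hD : EData E ε τ y0) : τ 1 = 0 := by
  have h := hD.tau_mul 1 E.one_mem 1 E.one_mem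
  rw [one_mul, eps_one hD] at h
  linarith

theorem eps_pow (hD : EData E ε τ y0) {e : G} (he : e ∈ E) (h1 : ε e = 1) (k : ℕ) :
    ε (e ^ k) = 1 := by
  induction k with
  | zero => rw [pow_zero]; exact eps_one hD
  | succ k ih => rw [pow_succ, hD.eps_mul _ (E.pow_mem he k) _ he, ih, h1]; norm_num

theorem tau_pow (hD : EData E ε τ y0) {e : G} (he : e ∈ E) (h1 : ε e = 1) (k : ℕ) :
    τ (e ^ k) = k * τ e := by
  induction k with
  | zero => rw [pow_zero, tau_one hD]; simp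
  | succ k ih =>
    rw [pow_succ, hD.tau_mul _ (E.pow_mem he k) _ he, ih, eps_pow hD he h1]
    push_cast; ring

theorem eps_inv (hD : EData E ε τ y0) {e : G} (he : e ∈ E) : ε e⁻¹ = ε e := by
  have h := hD.eps_mul _ (E.inv_mem he) _ he
  rw [inv_mul_cancel, eps_one hD] at h
  rcases hD.eps_sq e he with h' | h' <;> rw [h'] at h ⊢ <;> linarith

theorem tau_inv (hD : EData E ε τ y0) {e : G} (he : e ∈ E) (h1 : ε e = 1) : τ e⁻¹ = - τ e := by
  have h := hD.tau_mul _ (E.inv_mem he) _ he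
  rw [inv_mul_cancel, tau_one hD, eps_inv hD he, h1] at h
  linarith

theorem eps_zpow (hD : EData E ε τ y0) {e : G} (he : e ∈ E) (h1 : ε e = 1) (k : ℤ) :
    ε (e ^ k) = 1 := by
  obtain ⟨n, rfl | rfl⟩ := k.eq_nat_or_neg
  · rw [zpow_natCast]; exact eps_pow hD he h1 n
  · rw [zpow_neg, zpow_natCast, eps_inv hD (E.pow_mem he n)]; exact eps_pow hD he h1 n

theorem tau_zpow (hD : EData E ε τ y0) {e : G} (he : e ∈ E) (h1 : ε e = 1) (k : ℤ) :
    τ (e ^ k) = k * τ e := by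
  obtain ⟨n, rfl | rfl⟩ := k.eq_nat_or_neg
  · rw [zpow_natCast]; exact tau_pow hD he h1 n
  · rw [zpow_neg, zpow_natCast, tau_inv hD (E.pow_mem he n) (eps_pow hD he h1 n),
      tau_pow hD he h1 n]; ring

/-- `e = y0 ^ τ e * k` with `k` in the kernel -/
theorem split (hD : EData E ε τ y0) {e : G} (he : e ∈ E) (h1 : ε e = 1) :
    ∃ k ∈ E, ε k = 1 ∧ τ k = 0 ∧ e = y0 ^ (τ e) * k := by
  have hz : y0 ^ (-τ e) ∈ E := E.zpow_mem hD.y0_mem _
  refine ⟨y0 ^ (-τ e) * e, E.mul_mem hz he, ?_, ?_, ?_⟩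
  · rw [hD.eps_mul _ hz _ he, eps_zpow hD hD.y0_mem hD.eps_y0, h1]; norm_num
  · rw [hD.tau_mul _ hz _ he, eps_zpow hD hD.y0_mem hD.eps_y0, tau_zpow hD hD.y0_mem hD.eps_y0,
      hD.tau_y0]; ring
  · rw [← mul_assoc, ← zpow_add]; simp

/-- the power `6 n` for `3 ∣ n` -/
theorem pow_two_mul (hD : EData E ε τ y0) {y : G} (he : y ∈ E) (h1 : ε y = 1) (n : ℕ)
    (h3 : 3 ∣ n) : y ^ (n * 2) = (y0 ^ n) ^ (τ y * 2) := by
  obtain ⟨k, hk, hk1, hk0, hk2⟩ := split hD (E.pow_mem he n) (eps_pow hD he h1 n)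
  have hsq := hD.ker_sq k hk hk1 hk0
  obtain ⟨m, rfl⟩ := h3
  have hc : Commute (y0 ^ 3) k := hD.cube k hk hk1 hk0
  have hc2 : Commute (y0 ^ (τ (y ^ (3 * m)))) k := by
    rw [tau_pow hD he h1]
    have : y0 ^ (((3 * m : ℕ) : ℤ) * τ y) = (y0 ^ 3) ^ ((m : ℤ) * τ y) := by
      rw [← zpow_natCast, ← zpow_mul]
      congr 1
      push_cast; ring
    rw [this]
    exact hc.zpow_left _
  rw [pow_mul, hk2, hc2.mul_pow, hsq, mul_one, tau_pow hD he h1]
  rw [← zpow_natCast, ← zpow_natCast, ← zpow_mul, ← zpow_mul]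
  congr 1
  push_cast; ring

end P25b

open P25b in
theorem ost_alg {G : Type*} [Group G] (y : G) (hy : InfOrd y) (E : Subgroup G)
    (hE : ∀ g, g ∈ E ↔ ElemRel y g) (ε τ : G → ℤ) (y0 : G) (hD : EData E ε τ y0) (h1 : ε y = 1)
    (h2 : τ y ≠ 0) :
    (∀ f : G, f ≠ 1 → Odd (orderOf f) → f ∉ E) ∧
    (∀ n : ℕ, 0 < n → 3 ∣ n → ∀ N : Subgroup G, y0 ^ n ∈ N → ∃ k, 0 < k ∧ y ^ k ∈ N) ∧
    (∀ (Q : Type) [Group Q] (φ : G →* Q) (t M : ℕ), φ (y0 ^ (3 * (2 * M * t + 1))) = 1 →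
      (∀ q : Q, q ^ M = 1) → φ y ^ 6 = 1) ∧
    ∀ a c : G, a ^ 2 = 1 → c ^ 2 = 1 → y = a * c →
        (∀ k : G, k ≠ 1 → IsOfFinOrder k → {c : G | c * k = k * c}.Finite) →
        ∀ n : ℕ, Odd n → ∀ N : Subgroup G, N.Normal → y0 ^ n ∈ N →
        ∃ g : G, g * a * g⁻¹ * c⁻¹ ∈ N := by
  have hyE : y ∈ E := (hE y).2 ⟨1, one_pos, Or.inl (by group)⟩
  refine ⟨?_, ?_, ?_, ?_⟩
  · intro f hf1 hfo hfE
    have hsq : f ^ 2 = 1 := by
      rcases hD.eps_sq f hfE with h | h
      · have h3 := tau_pow hD hfE h (orderOf f)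
        rw [pow_orderOf_eq_one, tau_one hD] at h3
        have h4 : (orderOf f : ℤ) ≠ 0 := by
          intro h5
          have : orderOf f = 0 := by exact_mod_cast h5
          rw [this] at hfo
          exact absurd hfo (by decide)
        have h5 : τ f = 0 := by
          rcases mul_eq_zero.1 h3.symm with h6 | h6
          · exact absurd h6 h4
          · exact h6
        exact hD.ker_sq f hfE h h5
      · exact hD.refl_sq f hfE h
    have h3 : orderOf f ∣ 2 := orderOf_dvd_of_pow_eq_one hsq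
    have h4 : orderOf f = 1 := by
      rcases (Nat.dvd_prime Nat.prime_two).1 h3 with h | h
      · exact h
      · rw [h] at hfo; exact absurd hfo (by decide)
    exact hf1 (orderOf_eq_one_iff.1 h4)
  · intro n hn h3 N hN
    refine ⟨n * 2, by omega, ?_⟩
    rw [pow_two_mul hD hyE h1 n h3]
    exact N.zpow_mem hN _
  · intro Q _ φ t M hφ hM
    have h3 : φ y0 ^ 3 = 1 := by
      rw [map_pow] at hφ
      have : φ y0 ^ (3 * (2 * M * t + 1)) = φ y0 ^ 3 * ((φ y0) ^ M) ^ (6 * t) := by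
        rw [← pow_mul, ← pow_add]; congr 1; ring
      rw [this, hM, one_pow, mul_one] at hφ
      exact hφ
    have h4 := pow_two_mul hD hyE h1 3 (dvd_refl 3)
    have h5 := congrArg φ h4
    rw [map_pow, map_zpow, map_pow, h3, one_zpow] at h5
    exact h5
  · intro a c ha hc hac hcent n hn N _ hN
    have haa : a⁻¹ = a := by
      rw [inv_eq_iff_mul_eq_one, ← pow_two]; exact ha
    have hcc : c⁻¹ = c := by
      rw [inv_eq_iff_mul_eq_one, ← pow_two]; exact hc
    have hcay : c = a * y := by rw [hac, ← mul_assoc, ← pow_two, ha, one_mul]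
    have haE : a ∈ E := by
      refine (hE a).2 ⟨1, one_pos, Or.inr ?_⟩
      rw [pow_one, hac, mul_inv_rev, hcc, ← mul_assoc, ← pow_two, ha, one_mul]
    have hcE : c ∈ E := by rw [hcay]; exact E.mul_mem haE hyE
    have hea : ε a = -1 := by
      rcases hD.eps_sq a haE with h | h
      · exfalso
        -- then a has finite order in the orientation preserving part; `a y a⁻¹ = y⁻¹`
        have h3 : a * y = y⁻¹ * a := by
          rw [← hcay, hac, mul_inv_rev, hcc, haa, mul_assoc, ← pow_two, ha, mul_one]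
        have h4 := congrArg τ h3
        rw [hD.tau_mul a haE y hyE, hD.tau_mul _ (E.inv_mem hyE) a haE, tau_inv hD hyE h1,
          eps_inv hD hyE, h, h1] at h4
        apply h2; linarith
      · exact h
    have hK : ∀ k ∈ E, ε k = 1 → τ k = 0 → k = 1 := by
      intro k hk hk1 hk0
      by_contra hne
      have hsq := hD.ker_sq k hk hk1 hk0
      have hfin := hcent k hne (isOfFinOrder_iff_pow_eq_one.2 ⟨2, by norm_num, hsq⟩)
      have hinj : Function.Injective (fun j : ℕ => y0 ^ (3 * j)) := by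
        intro i j hij
        have h3 := congrArg τ hij
        simp only [tau_pow hD hD.y0_mem hD.eps_y0, hD.tau_y0] at h3
        have : ((3 * i : ℕ) : ℤ) = ((3 * j : ℕ) : ℤ) := by linarith
        have h4 : 3 * i = 3 * j := by exact_mod_cast this
        omega
      have hcube : Commute (y0 ^ 3) k := hD.cube k hk hk1 hk0
      refine Set.infinite_of_injective_forall_mem hinj (s := {c : G | c * k = k * c}) ?_ hfin
      intro j
      show y0 ^ (3 * j) * k = k * y0 ^ (3 * j)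
      rw [pow_mul]
      exact hcube.pow_left j
    have hyb : y = y0 ^ (τ y) := by
      obtain ⟨k, hk, hk1, hk0, hk2⟩ := split hD hyE h1
      rw [hK k hk hk1 hk0, mul_one] at hk2
      exact hk2
    -- `a y0 a⁻¹ = y0⁻¹`
    have hay0 : a * y0 * a⁻¹ = y0⁻¹ := by
      have h3 : ε (a * y0) = -1 := by
        rw [hD.eps_mul a haE y0 hD.y0_mem, hea, hD.eps_y0]; norm_num
      have h4 := hD.refl_sq _ (E.mul_mem haE hD.y0_mem) h3
      rw [eq_inv_iff_mul_eq_one, haa]
      rw [pow_two] at h4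
      simpa [mul_assoc] using h4
    have hconj : ∀ i : ℤ, a * y0 ^ i * a⁻¹ = y0 ^ (-i) := by
      intro i
      rw [← conj_zpow, hay0, inv_zpow, zpow_neg]
    have hcomm : ∀ i : ℤ, y0 ^ i * a = a * y0 ^ (-i) := by
      intro i
      have h3 := hconj (-i)
      rw [neg_neg] at h3
      rw [← h3, inv_mul_cancel_right]
    have key : ∀ i : ℤ, y0 ^ i * a * (y0 ^ i)⁻¹ * c⁻¹ = y0 ^ (2 * i + τ y) := by
      intro i
      have hc' : c = a * y0 ^ (τ y) := by rw [← hyb]; exact hcay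
      rw [hcomm i, hc', mul_inv_rev, ← zpow_neg, ← zpow_neg]
      have : a * y0 ^ (-i) * y0 ^ (-i) * (y0 ^ (-τ y) * a⁻¹) = a * y0 ^ (-(2 * i + τ y)) * a⁻¹ := by
        have : y0 ^ (-(2 * i + τ y)) = y0 ^ (-i) * y0 ^ (-i) * y0 ^ (-τ y) := by
          rw [← zpow_add, ← zpow_add]; congr 1; ring
        rw [this]; simp only [mul_assoc]
      rw [this, hconj, neg_neg]
    rcases Int.even_or_odd' (τ y) with ⟨b, hb | hb⟩
    · refine ⟨y0 ^ (-b), ?_⟩
      rw [key, hb, show 2 * -b + 2 * b = 0 by ring, zpow_zero]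
      exact N.one_mem
    · obtain ⟨m, hm⟩ := hn
      refine ⟨y0 ^ ((m : ℤ) - b), ?_⟩
      rw [key, hb, show 2 * ((m : ℤ) - b) + (2 * b + 1) = ((2 * m + 1 : ℕ) : ℤ) by push_cast; ring,
        zpow_natCast, ← hm]
      exact hN

end Pool.Agent.Lib.MP_f1646b_al
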