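import Pool.Agent.Lib.MP_f1646b_al.P25a
import Pool.Agent.Lib.MP_f1646b_al.P25b
import Pool.Agent.Lib.MP_f1646b_al.P14
import Pool.Agent.Lib.MP_f1646b_al.P15
import Pool.Agent.Lib.MP_f1646b_al.P18
import Pool.Agent.Lib.MP_f1646b_al.P20
import Pool.Agent.Lib.MP_f1646b_al.P21b
import Pool.Agent.Lib.MP_f1646b_al.P23c
import Pool.Agent.Lib.MP_f1646b_al.P24

set_option autoImplicit false

namespace Pool.Agent.Lib.MP_f1646b_al

open scoped Pointwise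

theorem ost {G : Type} [Group G] (hI : IsHyp G) (hA : AInv G) (y : G) (hy : InfOrd y)
    (f : G) (hf1 : f ≠ 1) (hfo : Odd (orderOf f)) (Φ : Finset G) (M : ℕ) (hM : 0 < M) :
    ∃ (N : Subgroup G) (_ : N.Normal), IsHyp (G ⧸ N) ∧ AInv (G ⧸ N) ∧
      (∀ g ∈ Φ, g ∈ N → g = 1) ∧ (∃ k, 0 < k ∧ y ^ k ∈ N) ∧ (∃ u : G ⧸ N, InfOrd u) ∧
      (∀ (Q : Type) [Group Q] (φ : G →* Q), N ≤ φ.ker → (∀ q : Q, q ^ M = 1) → φ y ^ 6 = 1) ∧
      ∀ a c : G, a ^ 2 = 1 → c ^ 2 = 1 → y = a * c →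
        (∀ k : G, k ≠ 1 → IsOfFinOrder k → {c : G | c * k = k * c}.Finite) →
        ∃ g : G, g * a * g⁻¹ * c⁻¹ ∈ N := by
  obtain ⟨d, δ₀, E, ε, τ, y0, θ, δ, α, hH, hEy, hE, hC, h1, h2⟩ := exists_setup hI hA y hy
  obtain ⟨a1, a2, a3, a4⟩ := ost_alg y hy E hEy ε τ y0 hE h1 h2
  have hfE : f ∉ E := a1 f hf1 hfo
  obtain ⟨n1, hn1⟩ := quot_i12 hH hA hE hC
  obtain ⟨n2, hn2⟩ := quot_i4 hH hA hE hC
  obtain ⟨n3, hn3⟩ := quot_i3 hH hA hE hC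
  obtain ⟨n4, hn4⟩ := quot_inf hH hE hC f hfE
  -- the big number
  obtain ⟨m, hm⟩ : ∃ m : ℕ, ∀ g ∈ Φ, θ * d 1 g ≤ m :=
    ⟨∑ g ∈ Φ, θ * d 1 g, fun g hg => Finset.single_le_sum (f := fun g => θ * d 1 g)
      (fun _ _ => Nat.zero_le _) hg⟩
  set t : ℕ := n1 + n2 + n3 + n4 + m + 8 * θ + 1 with ht
  set n : ℕ := 3 * (2 * M * t + 1) with hn
  have hnt : t ≤ n := by
    have : t ≤ M * t := Nat.le_mul_of_pos_left t hM
    rw [hn]; nlinarith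
  have hodd : Odd n := by
    rw [hn]
    refine Odd.mul (by decide) ⟨M * t, by ring⟩
  have h3 : 3 ∣ n := ⟨_, hn⟩
  let N : Subgroup G := Subgroup.normalClosure {y0 ^ n}
  have hNn : N.Normal := Subgroup.normalClosure_normal
  have hz : y0 ^ n ∈ N := Subgroup.subset_normalClosure rfl
  obtain ⟨D, β, hF⟩ := exists_fill hE hC n h3 (by omega) N rfl
  obtain ⟨hyp', hfin⟩ := quot_isHyp hH hE hC N hF
  have i12 := hn1 n (by omega) hodd h3 N D β hF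
  have i4 := hn2 n (by omega) hodd h3 N D β hF hfin
  have i3 := hn3 n (by omega) hodd h3 N D β hF i12.1
  refine ⟨N, hNn, hyp', ⟨i12.1, i12.2, i3, i4⟩, ?_, ?_, ?_, ?_, ?_⟩
  · intro g hg hgN
    exact inj_rad hH hC hF g hgN (lt_of_le_of_lt (hm g hg) (by omega))
  · exact a2 n (by omega) h3 N hz
  · exact hn4 n (by omega) N D β hF
  · intro Q _ φ hφ hQ
    exact a3 Q φ t M (hφ hz) hQ
  · intro a c ha hc hyac hcent
    exact a4 a c ha hc hyac hcent n hodd N hNn hz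

theorem pp_group {G : Type} [Group G] (hI : IsHyp G) (hA : AInv G) (x : G) (hx : InfOrd x)
    (f : G) (hf1 : f ≠ 1) (hfo : Odd (orderOf f)) : ∃ k : ℕ, InfOrd (f * x ^ k) := by
  obtain ⟨d, δ₀, E, ε, τ, y0, θ, δ, α, hH, hEy, hE, hC, h1, h2⟩ := exists_setup hI hA x hx
  obtain ⟨a1, -, -, -⟩ := ost_alg x hx E hEy ε τ y0 hE h1 h2
  refine pp hE hC f (a1 f hf1 hfo) x ?_ h1 h2
  rw [hEy]
  exact ⟨1, one_pos, Or.inl (by simp)⟩

end Pool.Agent.Lib.MP_f1646b_al
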