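import Pool.Agent.Lib.MP_f1646b_al.Betw

/-!
Free products of finite groups: the syllable length gives a proper left invariant geodesic metric
all of whose triangles are degenerate (`δ = 0`).
-/

set_option autoImplicit false

namespace Pool.Agent.Lib.MP_f1646b_al

open scoped Pointwise

namespace P26a

open Monoid Monoid.CoprodI

variable {ι : Type} {H : ι → Type} [∀ i, Group (H i)]

open Classical in
/-- the reduced word of an element -/
noncomputable def toW (g : CoprodI H) : Word H := Word.equiv g

/-- the syllable length -/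
noncomputable def len (g : CoprodI H) : ℕ := (toW g).toList.length

/-- the index of the first letter -/
noncomputable def fst (g : CoprodI H) : Option ι := (toW g).fstIdx

lemma prod_toW (g : CoprodI H) : (toW g).prod = g := by
  classical
  exact Word.equiv.symm_apply_apply g

lemma toW_prod (w : Word H) : toW w.prod = w := by
  classical
  exact Word.equiv.apply_symm_apply w

lemma len_prod (w : Word H) : len w.prod = w.toList.length := by
  unfold len; rw [toW_prod]

lemma fst_prod (w : Word H) : fst w.prod = w.fstIdx := by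
  unfold fst; rw [toW_prod]

lemma len_ne {i j : ι} (w : NeWord H i j) : len w.prod = w.toList.length := len_prod w.toWord

lemma fst_ne {i j : ι} (w : NeWord H i j) : fst w.prod = some i := by
  have h : fst w.prod = w.toWord.fstIdx := fst_prod w.toWord
  rw [h]
  have h2 : w.toWord.toList = w.toList := rfl
  unfold Word.fstIdx
  rw [h2, NeWord.toList_head?]
  rfl

lemma len_one : len (1 : CoprodI H) = 0 := by
  have := len_prod (Word.empty : Word H)
  rw [Word.prod_empty] at this
  exact this

lemma eq_one_of_len {g : CoprodI H} (h : len g = 0) : g = 1 := by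
  have h1 : (toW g).toList = [] := List.length_eq_zero_iff.1 h
  have h2 : toW g = Word.empty := by
    ext1; exact h1
  rw [← prod_toW g, h2, Word.prod_empty]

lemma exists_neWord {g : CoprodI H} (hg : g ≠ 1) : ∃ (i j : ι) (w : NeWord H i j), w.prod = g := by
  have h : toW g ≠ Word.empty := by
    intro h
    exact hg (by rw [← prod_toW g, h, Word.prod_empty])
  obtain ⟨i, j, w, hw⟩ := NeWord.of_word (toW g) h
  refine ⟨i, j, w, ?_⟩
  show w.toWord.prod = g
  rw [hw, prod_toW]

lemma toList_inv_length {i j : ι} (w : NeWord H i j) : w.inv.toList.length = w.toList.length := by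
  induction w with
  | singleton x hx => rfl
  | append w₁ h w₂ ih1 ih2 =>
    simp only [NeWord.inv, NeWord.toList, List.length_append, ih1, ih2]
    omega

lemma len_inv (g : CoprodI H) : len g⁻¹ = len g := by
  by_cases hg : g = 1
  · rw [hg, inv_one]
  · obtain ⟨i, j, w, rfl⟩ := exists_neWord hg
    rw [← NeWord.inv_prod, len_ne, len_ne, toList_inv_length]

/-- additivity of the length -/
lemma len_append {i j k l : ι} (w₁ : NeWord H i j) (w₂ : NeWord H k l) (h : j ≠ k) :
    len (w₁.prod * w₂.prod) = len w₁.prod + len w₂.prod := by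
  rw [← NeWord.append_prod (hne := h), len_ne, len_ne, len_ne]
  simp

/-- decomposition into the first letter and the rest -/
lemma exists_cons {g : CoprodI H} (hg : g ≠ 1) : ∃ (i : ι) (a : H i) (g' : CoprodI H), a ≠ 1 ∧
    g = of a * g' ∧ len g = len g' + 1 ∧ fst g = some i ∧ fst g' ≠ some i := by
  have h : toW g ≠ Word.empty := by
    intro h
    exact hg (by rw [← prod_toW g, h, Word.prod_empty])
  have key : ∀ w : Word H, w ≠ Word.empty → ∃ (i : ι) (a : H i) (w' : Word H)
      (h1 : w'.fstIdx ≠ some i) (h2 : a ≠ 1), w = Word.cons a w' h1 h2 := by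
    intro w
    induction w using Word.consRecOn with
    | empty => intro h; exact absurd rfl h
    | cons i m w h1 h2 _ => intro _; exact ⟨i, m, w, h1, h2, rfl⟩
  obtain ⟨i, a, w', h1, h2, hw⟩ := key _ h
  refine ⟨i, a, w'.prod, h2, ?_, ?_, ?_, ?_⟩
  · rw [← prod_toW g, hw, Word.prod_cons]
  · rw [len_prod]; unfold len; rw [hw]; simp
  · unfold fst; rw [hw]; simp
  · rw [fst_prod]; exact h1

lemma len_cons {i : ι} {a : H i} (ha : a ≠ 1) {g : CoprodI H} (hg : fst g ≠ some i) :
    len (of a * g) = len g + 1 ∧ fst (of a * g) = some i := by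
  have h1 : of a * g = (Word.cons a (toW g) hg ha).prod := by
    rw [Word.prod_cons, prod_toW]
  rw [h1, len_prod, fst_prod]
  simp [len]

/-- multiplication by a letter of the group of the first letter -/
lemma len_same {i : ι} (a : H i) {g : CoprodI H} (hg : fst g = some i) :
    len (of a * g) ≤ len g := by
  have hg1 : g ≠ 1 := by
    rintro rfl
    have : fst (1 : CoprodI H) = none := by
      have := fst_prod (Word.empty : Word H)
      rw [Word.prod_empty] at this
      rw [this]; rfl
    rw [this] at hg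
    cases hg
  obtain ⟨j, b, g', hb, rfl, hl, hf, hf'⟩ := exists_cons hg1
  rw [hg] at hf
  cases hf
  rw [← mul_assoc, ← map_mul, hl]
  by_cases h : a * b = 1
  · rw [h, map_one, one_mul]; omega
  · rw [(len_cons h hf').1]

lemma len_letter {i : ι} (a : H i) (g : CoprodI H) : len (of a * g) ≤ len g + 1 := by
  by_cases hg : fst g = some i
  · exact (len_same a hg).trans (Nat.le_succ _)
  · by_cases ha : a = 1
    · rw [ha, map_one, one_mul]; omega
    · rw [(len_cons ha hg).1]

lemma len_mul (g h : CoprodI H) : len (g * h) ≤ len g + len h := by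
  induction hn : len g generalizing g with
  | zero =>
    rw [eq_one_of_len hn, one_mul]; omega
  | succ n ih =>
    have hg : g ≠ 1 := by
      rintro rfl
      rw [len_one] at hn; omega
    obtain ⟨i, a, g', ha, rfl, hl, hf, hf'⟩ := exists_cons hg
    have h1 := ih g' (by omega)
    have h2 := len_letter a (g' * h)
    rw [mul_assoc]
    omega

lemma fst_one : fst (1 : CoprodI H) = none := by
  have := fst_prod (Word.empty : Word H)
  rw [Word.prod_empty] at this
  rw [this]; rfl

/-- the length of `a⁻¹ b` is additive iff the first letters belong to different groups -/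
lemma len_add_of_fst_ne {a b : CoprodI H} (h : a = 1 ∨ b = 1 ∨ fst a ≠ fst b) :
    len (a⁻¹ * b) = len a + len b := by
  by_cases ha : a = 1
  · rw [ha, inv_one, one_mul, len_one, zero_add]
  by_cases hb : b = 1
  · rw [hb, mul_one, len_one, add_zero, len_inv]
  have h' : fst a ≠ fst b := by tauto
  obtain ⟨i, j, w₁, rfl⟩ := exists_neWord ha
  obtain ⟨k, l, w₂, rfl⟩ := exists_neWord hb
  rw [fst_ne, fst_ne] at h'
  have hik : i ≠ k := fun h => h' (by rw [h])
  rw [← NeWord.inv_prod, len_append _ _ hik, NeWord.inv_prod, len_inv]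

lemma fst_ne_of_len_add {a b : CoprodI H} (h : len (a⁻¹ * b) = len a + len b) :
    a = 1 ∨ b = 1 ∨ fst a ≠ fst b := by
  by_contra hcon
  push Not at hcon
  obtain ⟨ha, hb, hf⟩ := hcon
  obtain ⟨i, x, a', hx, rfl, hl, hfa, hfa'⟩ := exists_cons ha
  obtain ⟨j, y, b', hy, rfl, hl', hfb, hfb'⟩ := exists_cons hb
  rw [hfa, hfb] at hf
  cases hf
  have e : (of x * a')⁻¹ * (of y * b') = a'⁻¹ * (of (x⁻¹ * y) * b') := by
    rw [map_mul, map_inv]; group
  rw [e] at h
  have h1 := len_mul a'⁻¹ (of (x⁻¹ * y) * b')
  have h2 := len_letter (x⁻¹ * y) b'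
  rw [len_inv] at h1
  omega

/-- prefixes -/
lemma exists_prefix (g : CoprodI H) (i : ℕ) (hi : i ≤ len g) :
    ∃ u, len u = i ∧ len (u⁻¹ * g) = len g - i := by
  induction i generalizing g with
  | zero => exact ⟨1, len_one, by simp⟩
  | succ i ih =>
    have hg : g ≠ 1 := by
      rintro rfl
      rw [len_one] at hi; omega
    obtain ⟨j, a, g', ha, rfl, hl, hf, hf'⟩ := exists_cons hg
    obtain ⟨u, hu1, hu2⟩ := ih g' (by omega)
    refine ⟨of a * u, ?_, ?_⟩
    · have h1 := len_letter a u
      have h2 := len_mul (of a * u) ((of a * u)⁻¹ * (of a * g'))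
      rw [mul_inv_cancel_left] at h2
      have e : (of a * u)⁻¹ * (of a * g') = u⁻¹ * g' := by group
      rw [e] at h2
      omega
    · have e : (of a * u)⁻¹ * (of a * g') = u⁻¹ * g' := by group
      rw [e]
      omega

lemma fin_ball [Finite ι] [∀ i, Finite (H i)] (r : ℕ) : {g : CoprodI H | len g ≤ r}.Finite := by
  induction r with
  | zero =>
    refine (Set.finite_singleton (1 : CoprodI H)).subset ?_
    intro g hg
    exact eq_one_of_len (Nat.le_zero.1 hg)
  | succ r ih =>
    have hfin : (⋃ i : ι, Set.range (of : H i → CoprodI H)).Finite :=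
      Set.finite_iUnion fun i => Set.finite_range _
    refine ((hfin.mul ih).union (Set.finite_singleton (1 : CoprodI H))).subset ?_
    intro g hg
    by_cases hg1 : g = 1
    · exact Or.inr hg1
    left
    have hg' : len g ≤ r + 1 := hg
    obtain ⟨i, a, g', ha, rfl, hl, hf, hf'⟩ := exists_cons hg1
    refine Set.mul_mem_mul (Set.mem_iUnion.2 ⟨i, a, rfl⟩) ?_
    show len g' ≤ r
    omega

end P26a

open P26a in
theorem coprod_isHyp {ι : Type} [Finite ι] (H : ι → Type) [∀ i, Group (H i)]
    [∀ i, Finite (H i)] : IsHyp (Monoid.CoprodI H) := by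
  refine ⟨fun g h => len (g⁻¹ * h), 0, ?_, ?_, ?_, ?_⟩
  · refine ⟨?_, ?_, ?_, ?_, ?_⟩
    · intro x
      show len (x⁻¹ * x) = 0
      rw [inv_mul_cancel, len_one]
    · intro x y h
      have h' := eq_one_of_len h
      exact inv_mul_eq_one.1 h'
    · intro x y
      show len (x⁻¹ * y) = len (y⁻¹ * x)
      rw [← len_inv]
      congr 1
      group
    · intro x y z
      show len (x⁻¹ * z) ≤ len (x⁻¹ * y) + len (y⁻¹ * z)
      have := len_mul (x⁻¹ * y) (y⁻¹ * z)
      have e : x⁻¹ * y * (y⁻¹ * z) = x⁻¹ * z := by group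
      rwa [e] at this
    · intro x y i hi
      obtain ⟨u, hu1, hu2⟩ := exists_prefix (x⁻¹ * y) i hi
      refine ⟨x * u, ?_, ?_⟩
      · show len (x⁻¹ * (x * u)) = i
        rw [inv_mul_cancel_left, hu1]
      · show len ((x * u)⁻¹ * y) = len (x⁻¹ * y) - i
        rw [← hu2]
        congr 1
        group
  · intro g x y
    show len ((g * x)⁻¹ * (g * y)) = len (x⁻¹ * y)
    congr 1
    group
  · intro r
    have : {g : Monoid.CoprodI H | len ((1 : Monoid.CoprodI H)⁻¹ * g) ≤ r} =
      {g : Monoid.CoprodI H | len g ≤ r} := by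
      ext g
      simp
    show {g : Monoid.CoprodI H | len ((1 : Monoid.CoprodI H)⁻¹ * g) ≤ r}.Finite
    rw [this]
    exact fin_ball r
  · intro x y z w hw
    have hw' : len (x⁻¹ * w) + len (w⁻¹ * y) = len (x⁻¹ * y) := hw
    have hinv : ∀ p : Monoid.CoprodI H, len (p⁻¹ * w) = len (w⁻¹ * p) := by
      intro p
      rw [← len_inv]
      congr 1
      group
    have e : ∀ p q : Monoid.CoprodI H, len (p⁻¹ * q) = len ((w⁻¹ * p)⁻¹ * (w⁻¹ * q)) := by
      intro p q
      congr 1
      group
    have h1 := fst_ne_of_len_add (a := w⁻¹ * x) (b := w⁻¹ * y) (by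
      rw [← e, ← hw', hinv])
    have h2 : (w⁻¹ * x = 1 ∨ w⁻¹ * z = 1 ∨ fst (w⁻¹ * x) ≠ fst (w⁻¹ * z)) ∨
        (w⁻¹ * z = 1 ∨ w⁻¹ * y = 1 ∨ fst (w⁻¹ * z) ≠ fst (w⁻¹ * y)) := by
      by_contra hcon
      push Not at hcon
      obtain ⟨⟨a1, a2, a3⟩, ⟨b1, b2, b3⟩⟩ := hcon
      rcases h1 with h | h | h
      · exact a1 h
      · exact b2 h
      · exact h (a3.trans b3)
    refine ⟨w, ?_, by show len (w⁻¹ * w) ≤ 0; rw [inv_mul_cancel, len_one]⟩
    rcases h2 with h | h
    · left
      show len (x⁻¹ * w) + len (w⁻¹ * z) = len (x⁻¹ * z)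
      rw [e x z, len_add_of_fst_ne h, hinv]
    · right
      show len (z⁻¹ * w) + len (w⁻¹ * y) = len (z⁻¹ * y)
      rw [e z y, len_add_of_fst_ne h, hinv]

end Pool.Agent.Lib.MP_f1646b_al
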