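import Pool.Agent.Lib.MP_f1646b_al.P26a

/-!
Torsion elements of free products are conjugate into a factor; the factors are malnormal.
-/

set_option autoImplicit false

namespace Pool.Agent.Lib.MP_f1646b_al

open scoped Pointwise

namespace P26b

open Monoid Monoid.CoprodI P26a

variable {ι : Type} {H : ι → Type} [∀ i, Group (H i)]

lemma len_pos_ne {i j : ι} (w : NeWord H i j) : 0 < len w.prod := by
  rw [len_ne]
  exact List.length_pos_of_ne_nil w.toList_ne_nil

/-- powers of a cyclically reduced word -/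
lemma pow_ne {i j : ι} (w : NeWord H i j) (h : j ≠ i) (n : ℕ) :
    ∃ w' : NeWord H i j, w'.prod = w.prod ^ (n + 1) := by
  induction n with
  | zero => exact ⟨w, by simp⟩
  | succ n ih =>
    obtain ⟨w', hw'⟩ := ih
    exact ⟨NeWord.append w' h w, by rw [NeWord.append_prod, hw', pow_succ _ (n + 1)]⟩

/-- one step of the cyclic reduction -/
lemma shorten {i : ι} (w : NeWord H i i) (h2 : 2 ≤ len w.prod) : ∃ (a : H i),
    len ((of a)⁻¹ * w.prod * of a) < len w.prod := by
  have hne : w.prod ≠ 1 := by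
    intro h
    rw [h, len_one] at h2
    omega
  obtain ⟨k, a, g', ha, hg, hl, hf, hf'⟩ := exists_cons hne
  rw [fst_ne] at hf
  cases hf
  refine ⟨a, ?_⟩
  have e : (of a)⁻¹ * w.prod * of a = ((of a⁻¹) * g'⁻¹)⁻¹ := by
    rw [hg, map_inv]; group
  rw [e, len_inv]
  have hg'1 : g' ≠ 1 := by
    rintro rfl
    rw [len_one] at hl
    omega
  -- the last letter of `g'` belongs to `H i`
  have hfst : fst g'⁻¹ = some i := by
    have h3 : fst (w.prod)⁻¹ = some i := by
      rw [← NeWord.inv_prod, fst_ne]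
    obtain ⟨p, q, v, hv⟩ := exists_neWord hg'1
    have hp : i ≠ p := by
      intro h
      apply hf'
      rw [← hv, fst_ne, h]
    have h4 : w.prod = ((NeWord.singleton a ha).append hp v).prod := by
      rw [NeWord.append_prod, NeWord.prod_singleton, hv, hg]
    have h5 : fst (w.prod)⁻¹ = some q := by
      rw [h4, ← NeWord.inv_prod, fst_ne]
    rw [← hv, ← NeWord.inv_prod, fst_ne, ← h5, h3]
  have h6 := len_same (a⁻¹) hfst
  rw [len_inv] at h6
  omega

end P26b

open P26a P26b

theorem coprod_torsion {ι : Type} (H : ι → Type) [∀ i, Group (H i)] (g : Monoid.CoprodI H)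
    (hg : IsOfFinOrder g) : g = 1 ∨ ∃ (h : Monoid.CoprodI H) (i : ι) (a : H i),
      g = h * Monoid.CoprodI.of a * h⁻¹ := by
  induction hn : len g using Nat.strong_induction_on generalizing g with
  | _ n ih =>
  by_cases h1 : g = 1
  · exact Or.inl h1
  right
  obtain ⟨i, j, w, hw⟩ := exists_neWord h1
  by_cases hij : j = i
  · subst hij
    by_cases h2 : 2 ≤ len w.prod
    · obtain ⟨a, ha⟩ := shorten w h2
      rw [hw] at ha
      have hfin : IsOfFinOrder ((Monoid.CoprodI.of a)⁻¹ * g * Monoid.CoprodI.of a) := by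
        obtain ⟨m, hm, hm'⟩ := isOfFinOrder_iff_pow_eq_one.1 hg
        refine isOfFinOrder_iff_pow_eq_one.2 ⟨m, hm, ?_⟩
        have : (Monoid.CoprodI.of a)⁻¹ * g * Monoid.CoprodI.of a =
          (Monoid.CoprodI.of a)⁻¹ * g * ((Monoid.CoprodI.of a)⁻¹)⁻¹ := by rw [inv_inv]
        rw [this, conj_pow, hm']
        simp
      rcases ih _ (by omega) _ hfin rfl with h | ⟨h, k, b, hb⟩
      · exfalso
        apply h1
        have : g = Monoid.CoprodI.of a * ((Monoid.CoprodI.of a)⁻¹ * g * Monoid.CoprodI.of a) *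
          (Monoid.CoprodI.of a)⁻¹ := by group
        rw [this, h]
        simp
      · refine ⟨Monoid.CoprodI.of a * h, k, b, ?_⟩
        have : g = Monoid.CoprodI.of a * ((Monoid.CoprodI.of a)⁻¹ * g * Monoid.CoprodI.of a) *
          (Monoid.CoprodI.of a)⁻¹ := by group
        rw [this, hb]
        group
    · obtain ⟨k, a, g', ha, hg', hl, -, -⟩ := exists_cons h1
      rw [hw] at h2
      have : g' = 1 := eq_one_of_len (by omega)
      exact ⟨1, k, a, by rw [hg', this]; simp⟩
  · exfalso
    obtain ⟨m, hm, hm'⟩ := isOfFinOrder_iff_pow_eq_one.1 hg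
    obtain ⟨w', hw'⟩ := pow_ne w hij (m - 1)
    have h3 : m - 1 + 1 = m := by omega
    rw [h3, hw, hm'] at hw'
    have := len_pos_ne w'
    rw [hw', len_one] at this
    omega

theorem coprod_malnormal {ι : Type} (H : ι → Type) [∀ i, Group (H i)] (i j : ι) (a : H i)
    (ha : a ≠ 1) (b : H j) (c : Monoid.CoprodI H)
    (hc : c * Monoid.CoprodI.of a * c⁻¹ = Monoid.CoprodI.of b) :
    i = j ∧ ∃ e : H i, c = Monoid.CoprodI.of e := by
  have hb : b ≠ 1 := by
    rintro rfl
    rw [map_one] at hc
    apply ha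
    apply Monoid.CoprodI.of_injective i
    rw [map_one]
    have : Monoid.CoprodI.of a = c⁻¹ * (c * Monoid.CoprodI.of a * c⁻¹) * c := by group
    rw [this, hc]
    simp
  induction hn : len c using Nat.strong_induction_on generalizing c a with
  | _ n ih =>
  by_cases h1 : c = 1
  · subst h1
    rw [one_mul, inv_one, mul_one] at hc
    have h2 : fst (Monoid.CoprodI.of a) = some i := by
      rw [← Monoid.CoprodI.NeWord.prod_singleton a ha, fst_ne]
    have h3 : fst (Monoid.CoprodI.of b) = some j := by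
      rw [← Monoid.CoprodI.NeWord.prod_singleton b hb, fst_ne]
    rw [hc, h3] at h2
    cases h2
    exact ⟨rfl, 1, by simp⟩
  have h1' : c⁻¹ ≠ 1 := fun h => h1 (inv_eq_one.1 h)
  obtain ⟨k, x, g', hx, hg', hl, hf, hf'⟩ := exists_cons h1'
  by_cases hki : k = i
  · subst hki
    have hc' : c = g'⁻¹ * Monoid.CoprodI.of x⁻¹ := by
      rw [map_inv, ← mul_inv_rev, ← hg', inv_inv]
    have h4 : g'⁻¹ * Monoid.CoprodI.of (x⁻¹ * a * x) * g'⁻¹⁻¹ = Monoid.CoprodI.of b := by
      rw [← hc, hc', map_mul, map_mul, map_inv]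
      group
    have h5 : x⁻¹ * a * x ≠ 1 := by
      intro h
      apply ha
      have : a = x * (x⁻¹ * a * x) * x⁻¹ := by group
      rw [this, h]
      simp
    have hlen : len g'⁻¹ < n := by
      rw [len_inv, ← hn, ← len_inv c, hl]
      omega
    obtain ⟨h6, e, he⟩ := ih _ hlen (x⁻¹ * a * x) h5 g'⁻¹ h4 rfl
    exact ⟨h6, e * x⁻¹, by rw [hc', he, map_mul]⟩
  · exfalso
    obtain ⟨p, q, w, hw⟩ := exists_neWord h1'
    have hp : p = k := by
      rw [← hw, fst_ne] at hf
      exact Option.some_injective _ hf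
    subst hp
    have h7 : (((w.inv).append hki (Monoid.CoprodI.NeWord.singleton a ha)).append
        (Ne.symm hki) w).prod = Monoid.CoprodI.of b := by
      rw [Monoid.CoprodI.NeWord.append_prod, Monoid.CoprodI.NeWord.append_prod,
        Monoid.CoprodI.NeWord.prod_singleton, Monoid.CoprodI.NeWord.inv_prod, hw, inv_inv, hc]
    have h8 := len_ne (((w.inv).append hki (Monoid.CoprodI.NeWord.singleton a ha)).append
        (Ne.symm hki) w)
    rw [h7, ← Monoid.CoprodI.NeWord.prod_singleton b hb, len_ne] at h8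
    simp only [Monoid.CoprodI.NeWord.toList, List.length_append, List.length_cons,
      List.length_nil, toList_inv_length] at h8
    have := List.length_pos_of_ne_nil w.toList_ne_nil
    omega

end Pool.Agent.Lib.MP_f1646b_al
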