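import Pool.Agent.Lib.MP_f1646b_al.P26a
import Pool.Agent.Lib.MP_f1646b_al.P26b
import Pool.Agent.Lib.MP_f1646b_al.P22a

/-!
# MP_f1646b_al, P26c: the base group, the free product of two copies of `A5`
-/

set_option autoImplicit false

namespace Pool.Agent.Lib.MP_f1646b_al

namespace P26c

/-! ### finite checks -/

theorem a5_i1 : ∀ x : Equiv.Perm (Fin 5), Equiv.Perm.sign x = 1 → x ^ 4 = 1 → x ^ 2 = 1 := by
  decide +kernel

theorem a5_i2 : ∀ a : Equiv.Perm (Fin 5), (a ^ 2 = 1 ∧ a ≠ 1 ∧ Equiv.Perm.sign a = 1) →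
    ∀ b : Equiv.Perm (Fin 5), (b ^ 2 = 1 ∧ a * b = b * a ∧ b ≠ 1 ∧ a ≠ b ∧
      Equiv.Perm.sign b = 1) → ∀ c : Equiv.Perm (Fin 5), (c ^ 2 = 1 ∧ a * c = c * a ∧
        b * c = c * b ∧ Equiv.Perm.sign c = 1) → (c = 1 ∨ c = a ∨ c = b ∨ c = a * b) := by
  decide +kernel

abbrev A5 : Type := alternatingGroup (Fin 5)

theorem A5_i1 (x : A5) (h : x ^ 4 = 1) : x ^ 2 = 1 := by
  have h1 : (x : Equiv.Perm (Fin 5)) ^ 4 = 1 := by
    rw [← Subgroup.coe_pow, h, Subgroup.coe_one]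
  have h2 := a5_i1 x (Equiv.Perm.mem_alternatingGroup.1 x.2) h1
  exact Subtype.ext (by rw [Subgroup.coe_pow, h2, Subgroup.coe_one])

theorem A5_i2 (a b c : A5) (hab : Frame a b) (hc : c ^ 2 = 1) (hac : a * c = c * a)
    (hbc : b * c = c * b) : c = 1 ∨ c = a ∨ c = b ∨ c = a * b := by
  obtain ⟨h1, h2, h3, h4, h5, h6⟩ := hab
  have e1 : ∀ x y : A5, x = y ↔ (x : Equiv.Perm (Fin 5)) = y := fun x y => Subtype.ext_iff
  simp only [e1, Subgroup.coe_pow, Subgroup.coe_mul, Subgroup.coe_one, Ne] at *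
  exact a5_i2 a ⟨h1, h4, Equiv.Perm.mem_alternatingGroup.1 a.2⟩ b
    ⟨h2, h3, h5, h6, Equiv.Perm.mem_alternatingGroup.1 b.2⟩ c
    ⟨hc, hac, hbc, Equiv.Perm.mem_alternatingGroup.1 c.2⟩

theorem a5_sq : a5 ^ 2 = 1 := by
  rw [Subtype.ext_iff]
  decide

theorem a5_ne : a5 ≠ 1 := by
  rw [Ne, Subtype.ext_iff]
  decide

/-! ### the free product -/

abbrev G0 : Type := Monoid.CoprodI (fun _ : Fin 2 => A5)

/-- the inclusion of a factor -/
def inc (i : Fin 2) : A5 →* G0 := Monoid.CoprodI.of (M := fun _ : Fin 2 => A5) (i := i)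

/-- the inclusion of a conjugate of a factor -/
def cinc (h : G0) (i : Fin 2) : A5 →* G0 := (MulAut.conj h).toMonoidHom.comp (inc i)

theorem cinc_apply (h : G0) (i : Fin 2) (a : A5) : cinc h i a = h * inc i a * h⁻¹ := rfl

theorem inc_injective (i : Fin 2) : Function.Injective (inc i) :=
  Monoid.CoprodI.of_injective (M := fun _ : Fin 2 => A5) i

theorem cinc_injective (h : G0) (i : Fin 2) : Function.Injective (cinc h i) :=
  (MulAut.conj h).injective.comp (inc_injective i)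

theorem malnormal (i j : Fin 2) (a b : A5) (ha : a ≠ 1) (c : G0)
    (hc : c * inc i a * c⁻¹ = inc j b) : i = j ∧ ∃ e : A5, c = inc i e :=
  coprod_malnormal (fun _ : Fin 2 => A5) i j a ha b c hc

theorem tors (k : G0) (hk1 : k ≠ 1) (hk : IsOfFinOrder k) : ∃ (h : G0) (i : Fin 2) (a : A5),
    a ≠ 1 ∧ k = cinc h i a ∧
      ∀ (c : G0) (b : A5), c * k * c⁻¹ = cinc h i b → ∃ e, c = cinc h i e := by
  rcases coprod_torsion (fun _ : Fin 2 => A5) k hk with h1 | ⟨h, i, a, ha⟩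
  · exact absurd h1 hk1
  · have hka : k = cinc h i a := ha
    have ha1 : a ≠ 1 := by
      intro h2
      rw [h2, map_one] at hka
      exact hk1 hka
    refine ⟨h, i, a, ha1, hka, fun c b hc => ?_⟩
    rw [hka, cinc_apply, cinc_apply] at hc
    have h3 : (h⁻¹ * c * h) * inc i a * (h⁻¹ * c * h)⁻¹ = inc i b := by
      calc (h⁻¹ * c * h) * inc i a * (h⁻¹ * c * h)⁻¹
          = h⁻¹ * (c * (h * inc i a * h⁻¹) * c⁻¹) * h := by group
        _ = h⁻¹ * (h * inc i b * h⁻¹) * h := by rw [hc]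
        _ = inc i b := by group
    obtain ⟨-, e, he⟩ := malnormal i i a b ha1 _ h3
    refine ⟨e, ?_⟩
    rw [cinc_apply, ← he]
    group

theorem tors_comm {k c : G0} (h : c * k = k * c) : c * k * c⁻¹ = k := by
  rw [h, mul_inv_cancel_right]

theorem fin_of_pow {k : G0} {n : ℕ} (hn : 0 < n) (h : k ^ n = 1) : IsOfFinOrder k :=
  isOfFinOrder_iff_pow_eq_one.2 ⟨n, hn, h⟩

theorem G0_i1 (x : G0) (h : x ^ 4 = 1) : x ^ 2 = 1 := by
  by_cases hx : x = 1
  · rw [hx, one_pow]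
  · obtain ⟨g, i, a, -, ha, -⟩ := tors x hx (fin_of_pow (by norm_num) h)
    have h1 : a ^ 4 = 1 := by
      apply cinc_injective g i
      rw [map_pow, ← ha, h, map_one]
    rw [ha, ← map_pow, A5_i1 a h1, map_one]

theorem frame_of {g : G0} {i : Fin 2} {a b : A5} (h : Frame (cinc g i a) (cinc g i b)) :
    Frame a b := by
  obtain ⟨h1, h2, h3, h4, h5, h6⟩ := h
  refine ⟨?_, ?_, ?_, ?_, ?_, ?_⟩
  · apply cinc_injective g i
    rw [map_pow, h1, map_one]
  · apply cinc_injective g i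
    rw [map_pow, h2, map_one]
  · apply cinc_injective g i
    rw [map_mul, map_mul, h3]
  · intro h
    exact h4 (by rw [h, map_one])
  · intro h
    exact h5 (by rw [h, map_one])
  · intro h
    exact h6 (by rw [h])

theorem G0_i2 (a b c : G0) (hab : Frame a b) (hc : c ^ 2 = 1) (hac : a * c = c * a)
    (hbc : b * c = c * b) : c = 1 ∨ c = a ∨ c = b ∨ c = a * b := by
  obtain ⟨g, i, a', -, ha, hcen⟩ := tors a hab.2.2.2.1 (fin_of_pow two_pos hab.1)
  obtain ⟨b', hb⟩ := hcen b a' (by rw [tors_comm hab.2.2.1.symm, ha])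
  obtain ⟨c', hc'⟩ := hcen c a' (by rw [tors_comm hac.symm, ha])
  subst ha hb hc'
  have h1 : c' ^ 2 = 1 := by
    apply cinc_injective g i
    rw [map_pow, hc, map_one]
  have h2 : a' * c' = c' * a' := by
    apply cinc_injective g i
    rw [map_mul, map_mul, hac]
  have h3 : b' * c' = c' * b' := by
    apply cinc_injective g i
    rw [map_mul, map_mul, hbc]
  rcases A5_i2 a' b' c' (frame_of hab) h1 h2 h3 with h | h | h | h
  · left; rw [h, map_one]
  · right; left; rw [h]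
  · right; right; left; rw [h]
  · right; right; right; rw [h, map_mul]

theorem G0_i3 (w w' x : G0) (hw : Frame w w') (hx : x * w * x⁻¹ = w') : x * w' * x⁻¹ ≠ w := by
  obtain ⟨g, i, a, -, ha, hcen⟩ := tors w hw.2.2.2.1 (fin_of_pow two_pos hw.1)
  obtain ⟨b, hb⟩ := hcen w' a (by rw [tors_comm hw.2.2.1.symm, ha])
  obtain ⟨e, he⟩ := hcen x b (by rw [hx, hb])
  have hfin : IsOfFinOrder x := by
    rw [he]
    exact (cinc g i).isOfFinOrder (isOfFinOrder_of_finite e)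
  exact no_swap_fin G0_i1 w w' x hw hfin hx

theorem G0_fin (k : G0) (hk1 : k ≠ 1) (hk : IsOfFinOrder k) : {c : G0 | c * k = k * c}.Finite := by
  obtain ⟨g, i, a, -, ha, hcen⟩ := tors k hk1 hk
  refine (Set.finite_range (cinc g i)).subset fun c hc => ?_
  obtain ⟨e, he⟩ := hcen c a (by rw [tors_comm hc, ha])
  exact ⟨e, he.symm⟩

theorem G0_AInv : AInv G0 where
  i1 := G0_i1
  i2 := G0_i2
  i3 := G0_i3
  i4 := fun f hf1 hf => G0_fin f hf1 (by
    rw [← orderOf_pos_iff]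
    exact hf.pos)

theorem G0_closure : Subgroup.closure (Set.range (inc 0) ∪ Set.range (inc 1)) = ⊤ := by
  rw [eq_top_iff]
  intro x _
  induction x using Monoid.CoprodI.induction_on with
  | one => exact Subgroup.one_mem _
  | of i m =>
    refine Subgroup.subset_closure ?_
    fin_cases i
    · exact Or.inl ⟨m, rfl⟩
    · exact Or.inr ⟨m, rfl⟩
  | mul x y hx hy => exact Subgroup.mul_mem _ (hx trivial) (hy trivial)

theorem G0_fg : Group.FG G0 := by
  rw [Group.fg_iff]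
  exact ⟨_, G0_closure, (Set.finite_range _).union (Set.finite_range _)⟩

theorem ne01 : (0 : Fin 2) ≠ 1 := by decide

theorem G0_inf : InfOrd (inc 0 a5 * inc 1 a5) := by
  classical
  intro m hm hpow
  set s := inc 0 a5 with hs
  set t := inc 1 a5 with ht
  have hs2 : s * s = 1 := by rw [← pow_two, hs, ← map_pow, a5_sq, map_one]
  have ht2 : t * t = 1 := by rw [← pow_two, ht, ← map_pow, a5_sq, map_one]
  have hsi : s⁻¹ = s := inv_eq_of_mul_eq_one_left hs2
  have hti : t⁻¹ = t := inv_eq_of_mul_eq_one_left ht2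
  have hgs : ∀ k : ℕ, s * (s * t) ^ k * s⁻¹ = ((s * t) ^ k)⁻¹ := by
    intro k
    rw [← conj_pow, ← inv_pow, mul_inv_rev, hsi, hti]
    congr 1
    rw [← mul_assoc, hs2, one_mul]
  have hgt : ∀ k : ℕ, t * (s * t) ^ k * t⁻¹ = ((s * t) ^ k)⁻¹ := by
    intro k
    rw [← conj_pow, ← inv_pow, mul_inv_rev, hsi, hti]
    congr 1
    rw [mul_assoc, mul_assoc, ht2, mul_one]
  have hex : ∃ m : ℕ, 0 < m ∧ (s * t) ^ m = 1 := ⟨m, hm, hpow⟩
  obtain ⟨hm0, hm1⟩ := Nat.find_spec hex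
  rcases Nat.even_or_odd' (Nat.find hex) with ⟨k, hk | hk⟩
  · have hk0 : 0 < k := by omega
    have hkne : (s * t) ^ k ≠ 1 := fun h =>
      Nat.find_min hex (m := k) (by omega) ⟨hk0, h⟩
    rw [hk, two_mul, pow_add] at hm1
    have hinv : ((s * t) ^ k)⁻¹ = (s * t) ^ k := inv_eq_of_mul_eq_one_left hm1
    have h1 : (s * t) ^ k * inc 0 a5 * ((s * t) ^ k)⁻¹ = inc 0 a5 := by
      rw [← hs, mul_inv_eq_iff_eq_mul]
      have := hgs k
      rw [hinv, mul_inv_eq_iff_eq_mul] at this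
      exact this.symm
    have h2 : (s * t) ^ k * inc 1 a5 * ((s * t) ^ k)⁻¹ = inc 1 a5 := by
      rw [← ht, mul_inv_eq_iff_eq_mul]
      have := hgt k
      rw [hinv, mul_inv_eq_iff_eq_mul] at this
      exact this.symm
    obtain ⟨-, e, he⟩ := malnormal 0 0 a5 a5 a5_ne _ h1
    obtain ⟨-, e', he'⟩ := malnormal 1 1 a5 a5 a5_ne _ h2
    have hene : e ≠ 1 := by
      intro h
      rw [h, map_one] at he
      exact hkne he
    obtain ⟨h3, -⟩ := malnormal 0 1 e e' hene 1 (by rw [one_mul, inv_one, mul_one, ← he, ← he'])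
    exact ne01 h3
  · rw [hk, two_mul, pow_succ, pow_add] at hm1
    have h1 : (s * t) ^ k * inc 0 a5 * ((s * t) ^ k)⁻¹ = inc 1 a5 := by
      rw [← hs, ← ht]
      have h2 := hgs k
      rw [mul_inv_eq_iff_eq_mul] at h2
      -- `s g^k = g^{-k} s`
      have h3 : (s * t) ^ k * s * ((s * t) ^ k)⁻¹ = (s * t) ^ k * (s * t) ^ k * s := by
        rw [mul_inv_eq_iff_eq_mul, mul_assoc ((s * t) ^ k * (s * t) ^ k), h2]
        group
      rw [h3, eq_comm, ← mul_inv_eq_iff_eq_mul, hsi]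
      have h4 : (s * t) ^ k * (s * t) ^ k = (s * t)⁻¹ := eq_inv_of_mul_eq_one_left hm1
      rw [h4, mul_inv_rev, hsi, hti]
    exact ne01 (malnormal 0 1 a5 a5 a5_ne _ h1).1

end P26c

theorem base_group : ∃ (G : Type) (_ : Group G), Group.FG G ∧ IsHyp G ∧ AInv G ∧
    (∀ k : G, k ≠ 1 → IsOfFinOrder k → {c : G | c * k = k * c}.Finite) ∧
    ∃ φ ψ : alternatingGroup (Fin 5) →* G, Function.Injective φ ∧ Function.Injective ψ ∧
      Subgroup.closure (Set.range φ ∪ Set.range ψ) = ⊤ ∧ InfOrd (φ a5 * ψ a5) :=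
  ⟨P26c.G0, inferInstance, P26c.G0_fg, coprod_isHyp _, P26c.G0_AInv, P26c.G0_fin, P26c.inc 0,
    P26c.inc 1, P26c.inc_injective 0, P26c.inc_injective 1, P26c.G0_closure, P26c.G0_inf⟩

end Pool.Agent.Lib.MP_f1646b_al
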