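import Pool.Agent.Lib.MP_f1646b_al.Betw

set_option autoImplicit false

namespace Pool.Agent.Lib.MP_f1646b_al

/-! ### P27a : transport along isomorphisms -/

theorem isHyp_congr {G H : Type} [Group G] [Group H] (e : G ≃* H) (h : IsHyp G) : IsHyp H := by
  obtain ⟨d, δ, hd⟩ := h
  refine ⟨fun x y => d (e.symm x) (e.symm y), δ, ?_, ?_, ?_, ?_⟩
  · refine ⟨fun x => hd.geo.self _, fun x y h => e.symm.injective (hd.geo.eq_of _ _ h),
      fun x y => hd.geo.symm _ _, fun x y z => hd.geo.tri _ _ _, fun x y i hi => ?_⟩
    obtain ⟨w, h1, h2⟩ := hd.geo.geo _ _ i hi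
    exact ⟨e w, by simpa using h1, by simpa using h2⟩
  · intro g x y
    simp only [map_mul]
    exact hd.inv _ _ _
  · intro r
    refine ((hd.fin r).image e).subset ?_
    intro g hg
    refine ⟨e.symm g, ?_, by simp⟩
    simpa using hg
  · intro x y z w hw
    obtain ⟨v, hv, hv'⟩ := hd.hyp (e.symm x) (e.symm y) (e.symm z) (e.symm w) hw
    refine ⟨e v, ?_, by simpa using hv'⟩
    unfold Btw at *
    simpa using hv

theorem aInv_congr {G H : Type} [Group G] [Group H] (e : G ≃* H) (h : AInv G) : AInv H := by
  have hf : ∀ a b : H, Frame a b → Frame (e.symm a) (e.symm b) := by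
    rintro a b ⟨h1, h2, h3, h4, h5, h6⟩
    refine ⟨by rw [← map_pow, h1, map_one], by rw [← map_pow, h2, map_one],
      by rw [← map_mul, h3, map_mul], fun h => h4 (e.symm.injective (by rw [h, map_one])),
      fun h => h5 (e.symm.injective (by rw [h, map_one])), fun h => h6 (e.symm.injective h)⟩
  refine ⟨?_, ?_, ?_, ?_⟩
  · intro x hx
    apply e.symm.injective
    rw [map_pow, map_one]
    exact h.i1 _ (by rw [← map_pow, hx, map_one])
  · intro a b c hab hc hac hbc
    have := h.i2 _ _ (e.symm c) (hf a b hab) (by rw [← map_pow, hc, map_one])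
      (by rw [← map_mul, hac, map_mul]) (by rw [← map_mul, hbc, map_mul])
    rcases this with h | h | h | h
    · left; exact e.symm.injective (by rw [h, map_one])
    · right; left; exact e.symm.injective h
    · right; right; left; exact e.symm.injective h
    · right; right; right; exact e.symm.injective (by rw [h, map_mul])
  · intro w w' x hw h1 h2
    exact h.i3 _ _ (e.symm x) (hf w w' hw) (by rw [← map_inv, ← map_mul, ← map_mul, h1])
      (by rw [← map_inv, ← map_mul, ← map_mul, h2])
  · intro f hf1 hfo
    have h1 := h.i4 (e.symm f) (fun h => hf1 (e.symm.injective (by rw [h, map_one])))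
      (by rw [MulEquiv.orderOf_eq]; exact hfo)
    refine (h1.image e).subset ?_
    intro c hc
    refine ⟨e.symm c, ?_, by simp⟩
    change e.symm c * e.symm f = e.symm f * e.symm c
    rw [← map_mul, ← map_mul]
    exact congrArg e.symm hc

end Pool.Agent.Lib.MP_f1646b_al
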