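import Pool.Agent.Lib.MP_f1646b_al.P25c
import Pool.Agent.Lib.MP_f1646b_al.P26c
import Pool.Agent.Lib.MP_f1646b_al.P27a

set_option autoImplicit false

namespace Pool.Agent.Lib.MP_f1646b_al

open scoped Pointwise

/-! ### the iteration -/

namespace P27b

variable {G : Type} [Group G]

theorem infOrd_congr {G H : Type} [Group G] [Group H] (e : G ≃* H) {u : G} (h : InfOrd u) :
    InfOrd (e u) := by
  intro m hm h1
  apply h m hm
  apply e.injective
  rw [map_pow, h1, map_one]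

/-- the property kept by the iteration -/
def Ok (φ : alternatingGroup (Fin 5) →* G) (N : Subgroup G) : Prop :=
  ∃ _ : N.Normal, IsHyp (G ⧸ N) ∧ AInv (G ⧸ N) ∧ (∃ u : G ⧸ N, InfOrd u) ∧ ∀ g, φ g ∈ N → g = 1

theorem d5_pow : d5 ^ 5 = 1 := by decide

theorem d5_ne : d5 ≠ 1 := by decide

theorem d5_odd {H : Type} [Group H] (χ : alternatingGroup (Fin 5) →* H) (h : χ d5 ≠ 1) :
    Odd (orderOf (χ d5)) := by
  have h1 : χ d5 ^ 5 = 1 := by rw [← map_pow, d5_pow, map_one]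
  have := Fact.mk Nat.prime_five
  have h2 : orderOf (χ d5) = 5 := orderOf_eq_prime h1 h
  rw [h2]; decide

/-- one step, formulated for subgroups of `G` -/
theorem step (φ : alternatingGroup (Fin 5) →* G) (N : Subgroup G) (hN : N.Normal)
    (h1 : IsHyp (G ⧸ N)) (h2 : AInv (G ⧸ N)) (h3 : ∀ g, φ g ∈ N → g = 1) (y : G)
    (hy : ∀ m : ℕ, 0 < m → y ^ m ∉ N) (M : ℕ) (hM : 0 < M) :
    ∃ N' : Subgroup G, N ≤ N' ∧ Ok φ N' ∧ (∃ k, 0 < k ∧ y ^ k ∈ N') ∧
      (∀ (Q : Type) [Group Q] (χ : G →* Q), N' ≤ χ.ker → (∀ q : Q, q ^ M = 1) → χ y ^ 6 = 1) ∧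
      ∀ a c : G, a ^ 2 = 1 → c ^ 2 = 1 → y = a * c →
        (∀ k : G ⧸ N, k ≠ 1 → IsOfFinOrder k → {c : G ⧸ N | c * k = k * c}.Finite) →
        ∃ g : G, g * a * g⁻¹ * c⁻¹ ∈ N' := by
  classical
  let q : G →* G ⧸ N := QuotientGroup.mk' N
  have hq : ∀ g, q g = 1 ↔ g ∈ N := fun g => QuotientGroup.eq_one_iff g
  have hyI : InfOrd (q y) := by
    intro m hm h
    apply hy m hm
    rw [← hq, map_pow, h]
  have hd : q (φ d5) ≠ 1 := by
    rw [Ne, hq]
    exact fun h => d5_ne (h3 _ h)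
  obtain ⟨K, hK, a1, a2, a3, a4, a5', a6, a7⟩ := ost h1 h2 (q y) hyI (q (φ d5)) hd
    (d5_odd (q.comp φ) hd) (Finset.univ.image fun g => q (φ g)) M hM
  let r : G →* (G ⧸ N) ⧸ K := (QuotientGroup.mk' K).comp q
  have hr : Function.Surjective r :=
    (QuotientGroup.mk'_surjective K).comp (QuotientGroup.mk'_surjective N)
  have hker : ∀ g, g ∈ r.ker ↔ q g ∈ K := by
    intro g
    rw [MonoidHom.mem_ker]
    exact QuotientGroup.eq_one_iff (q g)
  let e : G ⧸ r.ker ≃* (G ⧸ N) ⧸ K := QuotientGroup.quotientKerEquivOfSurjective r hr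
  have hNK : N ≤ r.ker := by
    intro g hg
    rw [hker, (hq g).2 hg]
    exact K.one_mem
  refine ⟨r.ker, hNK, ⟨inferInstance, isHyp_congr e.symm a1, aInv_congr e.symm a2, ?_, ?_⟩,
    ?_, ?_, ?_⟩
  · obtain ⟨u, hu⟩ := a5'
    exact ⟨e.symm u, infOrd_congr e.symm hu⟩
  · intro g hg
    rw [hker] at hg
    have := a3 (q (φ g)) (Finset.mem_image_of_mem _ (Finset.mem_univ g)) hg
    exact h3 g ((hq _).1 this)
  · obtain ⟨k, hk, hk'⟩ := a4
    exact ⟨k, hk, by rw [hker, map_pow]; exact hk'⟩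
  · intro Q _ χ hχ hQ
    have hNχ : N ≤ χ.ker := hNK.trans hχ
    let χ' : G ⧸ N →* Q := QuotientGroup.lift N χ hNχ
    have hc : ∀ g, χ' (q g) = χ g := fun g => QuotientGroup.lift_mk' N hNχ g
    have := a6 Q χ' (by
      intro x hx
      obtain ⟨g, rfl⟩ := QuotientGroup.mk'_surjective N x
      rw [MonoidHom.mem_ker]
      change χ' (q g) = 1
      rw [hc]
      apply hχ
      rw [hker]
      exact hx) hQ
    rwa [hc] at this
  · intro a c ha hc hyac hcent
    obtain ⟨g, hg⟩ := a7 (q a) (q c) (by rw [← map_pow, ha, map_one])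
      (by rw [← map_pow, hc, map_one]) (by rw [hyac, map_mul]) hcent
    obtain ⟨g, rfl⟩ := QuotientGroup.mk'_surjective N g
    refine ⟨g, ?_⟩
    rw [hker]
    rw [map_mul, map_mul, map_mul, map_inv, map_inv]
    exact hg

/-- one stage of the iteration -/
theorem stage (φ : alternatingGroup (Fin 5) →* G) (N : Subgroup G) (hN : Ok φ N) (x : G) (j : ℕ) :
    ∃ N' : Subgroup G, N ≤ N' ∧ Ok φ N' ∧ (∃ k, 0 < k ∧ x ^ k ∈ N') ∧
      ∀ (Q : Type) [Group Q] (χ : G →* Q), N' ≤ χ.ker → (∀ q : Q, q ^ (Nat.factorial j) = 1) →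
        χ (φ d5) = 1 := by
  obtain ⟨N1, hNN1, hN1, k, hk, hxk⟩ : ∃ N1 : Subgroup G, N ≤ N1 ∧ Ok φ N1 ∧
      ∃ k, 0 < k ∧ x ^ k ∈ N1 := by
    by_cases hx : ∀ m : ℕ, 0 < m → x ^ m ∉ N
    · obtain ⟨hn, h1, h2, -, h3⟩ := hN
      obtain ⟨N', a1, a2, a3, -⟩ := step φ N hn h1 h2 h3 x hx 1 one_pos
      exact ⟨N', a1, a2, a3⟩
    · push Not at hx
      obtain ⟨m, hm, hm'⟩ := hx
      exact ⟨N, le_rfl, hN, m, hm, hm'⟩
  obtain ⟨hn, h1, h2, ⟨u, hu⟩, h3⟩ := hN1
  set M := Nat.factorial j with hM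
  have hMpos : 0 < M := Nat.factorial_pos j
  obtain ⟨v, rfl⟩ := QuotientGroup.mk'_surjective N1 u
  let q : G →* G ⧸ N1 := QuotientGroup.mk' N1
  have hq : ∀ g, q g = 1 ↔ g ∈ N1 := fun g => QuotientGroup.eq_one_iff g
  have huM : InfOrd (q v ^ M) := by
    intro m hm h
    exact hu (M * m) (Nat.mul_pos hMpos hm) (by rw [pow_mul]; exact h)
  have hd : q (φ d5) ≠ 1 := by
    rw [Ne, hq]
    exact fun h => d5_ne (h3 _ h)
  obtain ⟨l, hl⟩ := pp_group h1 h2 (q v ^ M) huM (q (φ d5)) hd (d5_odd (q.comp φ) hd)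
  obtain ⟨N', a1, a2, a3, a4, -⟩ := step φ N1 hn h1 h2 h3 (φ d5 * (v ^ M) ^ l) (by
    intro m hm hmem
    apply hl m hm
    rw [← hq, map_pow, map_mul, map_pow, map_pow] at hmem
    exact hmem) M hMpos
  refine ⟨N', hNN1.trans a1, a2, ⟨k, hk, a1 hxk⟩, ?_⟩
  intro Q _ χ hχ hQ
  have h6 := a4 Q χ hχ hQ
  have e1 : χ (φ d5 * (v ^ M) ^ l) = χ (φ d5) := by
    rw [map_mul, map_pow, map_pow, hQ (χ v), one_pow, mul_one]
  rw [e1] at h6
  have h5 : χ (φ d5) ^ 5 = 1 := by rw [← map_pow, ← map_pow, d5_pow, map_one, map_one]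
  have : χ (φ d5) ^ 6 = χ (φ d5) ^ 5 * χ (φ d5) := pow_succ _ 5
  rw [h6, h5, one_mul] at this
  exact this.symm

theorem countable_of_fg (h : Group.FG G) : Countable G := by
  obtain ⟨α, _, f, hf⟩ := Group.fg_iff_exists_freeGroup_hom_surjective_finite.1 h
  have : Countable α := Finite.to_countable
  exact hf.countable

end P27b

open P27b in
theorem torsion_limit : ∃ (Γ : Type) (_ : Group Γ), Group.FG Γ ∧ IsMulTorsion Γ ∧
    (∀ x : Γ, x ^ 4 = 1 → x ^ 2 = 1) ∧
    (∀ a b c : Γ, Frame a b → c ^ 2 = 1 → a * c = c * a → b * c = c * b →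
      c = 1 ∨ c = a ∨ c = b ∨ c = a * b) ∧
    ∃ φ : alternatingGroup (Fin 5) →* Γ, Function.Injective φ ∧
      (∀ M : Subgroup Γ, M.Normal → φ a5 ∈ M → M = ⊤) ∧
      ∀ M : Subgroup Γ, M.Normal → M.FiniteIndex → M = ⊤ := by
  classical
  obtain ⟨G, _, hfg, hI, hA, hcent, φ, ψ, hφ, hψ, hgen, hinf⟩ := base_group
  have : Countable G := countable_of_fg hfg
  obtain ⟨en, hen⟩ := exists_surjective_nat G
  -- the trivial subgroup
  have ebot : G ⧸ (⊥ : Subgroup G) ≃* G := QuotientGroup.quotientBot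
  -- first step
  have a5sq : a5 ^ 2 = 1 := by decide
  obtain ⟨N0, hN0, g0, hg0⟩ : ∃ N0 : Subgroup G, Ok φ N0 ∧
      ∃ g : G, g * φ a5 * g⁻¹ * (ψ a5)⁻¹ ∈ N0 := by
    obtain ⟨N', -, a2, -, -, a5'⟩ := step φ ⊥ inferInstance (isHyp_congr ebot.symm hI)
      (aInv_congr ebot.symm hA) (fun g hg => hφ (by rw [map_one]; exact Subgroup.mem_bot.1 hg))
      (φ a5 * ψ a5) (fun m hm h => hinf m hm (Subgroup.mem_bot.1 h)) 1 one_pos
    refine ⟨N', a2, a5' _ _ (by rw [← map_pow, a5sq, map_one]) (by rw [← map_pow, a5sq, map_one])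
      rfl ?_⟩
    intro k hk hk'
    have h1 : ebot k ≠ 1 := fun h => hk (ebot.injective (by rw [h, map_one]))
    have h2 : IsOfFinOrder (ebot k) := ebot.toMonoidHom.isOfFinOrder hk'
    refine (hcent (ebot k) h1 h2).preimage (f := ebot) ebot.injective.injOn |>.subset ?_
    intro c hc
    change ebot c * ebot k = ebot k * ebot c
    rw [← map_mul, ← map_mul]
    exact congrArg ebot hc
  -- the sequence
  choose! nx b1 b2 b3 b4 using fun (N : Subgroup G) (j : ℕ) (hN : Ok φ N) => stage φ N hN (en j) j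
  obtain ⟨N, hNz, hNs⟩ : ∃ N : ℕ → Subgroup G, N 0 = N0 ∧ ∀ j, N (j + 1) = nx (N j) j :=
    ⟨fun j => Nat.rec N0 (fun j K => nx K j) j, rfl, fun _ => rfl⟩
  have hOk : ∀ j, Ok φ (N j) := by
    intro j
    induction j with
    | zero => rw [hNz]; exact hN0
    | succ j ih => rw [hNs]; exact b2 _ _ ih
  have hmono : Monotone N := monotone_nat_of_le_succ fun j => by
    rw [hNs]; exact b1 _ _ (hOk j)
  have hdir : Directed (· ≤ ·) N := hmono.directed_le
  set K : Subgroup G := ⨆ j, N j with hK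
  have hmem : ∀ g, g ∈ K ↔ ∃ j, g ∈ N j := fun g => Subgroup.mem_iSup_of_directed hdir
  have hle : ∀ j, N j ≤ K := fun j => le_iSup N j
  have hKn : K.Normal := by
    refine ⟨fun g hg h => ?_⟩
    obtain ⟨j, hj⟩ := (hmem g).1 hg
    obtain ⟨hn, -⟩ := hOk j
    exact (hmem _).2 ⟨j, hn.conj_mem g hj h⟩
  let q : G →* G ⧸ K := QuotientGroup.mk' K
  have hqs : Function.Surjective q := QuotientGroup.mk'_surjective K
  have hq : ∀ g, q g = 1 ↔ g ∈ K := fun g => QuotientGroup.eq_one_iff g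
  -- relations hold at a finite stage
  have hst : ∀ g, g ∈ K → ∃ j, ∀ i, j ≤ i → g ∈ N i := by
    intro g hg
    obtain ⟨j, hj⟩ := (hmem g).1 hg
    exact ⟨j, fun i hi => hmono hi hj⟩
  have hφK : ∀ g, φ g ∈ K → g = 1 := by
    intro g hg
    obtain ⟨j, hj⟩ := (hmem _).1 hg
    obtain ⟨-, -, -, -, h3⟩ := hOk j
    exact h3 g hj
  have hd5 : ∀ M : Subgroup (G ⧸ K), M.Normal → q (φ d5) ∈ M → q (φ a5) ∈ M := by
    intro M hM hd
    have h1 : (M.comap (q.comp φ)).Normal := hM.comap _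
    rcases h1.eq_bot_or_eq_top with h2 | h2
    · have : d5 ∈ M.comap (q.comp φ) := hd
      rw [h2, Subgroup.mem_bot] at this
      exact absurd this d5_ne
    · have : a5 ∈ M.comap (q.comp φ) := by rw [h2]; trivial
      exact this
  have ha5 : ∀ M : Subgroup (G ⧸ K), M.Normal → q (φ a5) ∈ M → M = ⊤ := by
    intro M hM ha
    have hane : a5 ≠ 1 := by decide
    have h1 : (M.comap (q.comp φ)).Normal := hM.comap _
    have h1' : M.comap (q.comp φ) = ⊤ := by
      rcases h1.eq_bot_or_eq_top with h2 | h2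
      · have : a5 ∈ M.comap (q.comp φ) := ha
        rw [h2, Subgroup.mem_bot] at this
        exact absurd this hane
      · exact h2
    have hb : q (ψ a5) ∈ M := by
      have e1 : q (g0 * φ a5 * g0⁻¹ * (ψ a5)⁻¹) = 1 := (hq _).2 (hle 0 (by rw [hNz]; exact hg0))
      have e2 : q (ψ a5) = q g0 * q (φ a5) * (q g0)⁻¹ := by
        rw [map_mul, map_inv, mul_inv_eq_one, map_mul, map_mul, map_inv] at e1
        exact e1.symm
      rw [e2]
      exact hM.conj_mem _ ha _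
    have h2 : (M.comap (q.comp ψ)).Normal := hM.comap _
    have h2' : M.comap (q.comp ψ) = ⊤ := by
      rcases h2.eq_bot_or_eq_top with h3 | h3
      · have : a5 ∈ M.comap (q.comp ψ) := hb
        rw [h3, Subgroup.mem_bot] at this
        exact absurd this hane
      · exact h3
    have h4 : (⊤ : Subgroup G) ≤ M.comap q := by
      rw [← hgen, Subgroup.closure_le]
      rintro x (⟨g, rfl⟩ | ⟨g, rfl⟩)
      · have : g ∈ M.comap (q.comp φ) := by rw [h1']; trivial
        exact this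
      · have : g ∈ M.comap (q.comp ψ) := by rw [h2']; trivial
        exact this
    rw [eq_top_iff]
    intro x _
    obtain ⟨g, rfl⟩ := hqs x
    exact h4 trivial
  refine ⟨G ⧸ K, inferInstance, ?_, ?_, ?_, ?_, q.comp φ, ?_, ha5, ?_⟩
  · have := hfg
    infer_instance
  · intro x
    obtain ⟨g, rfl⟩ := hqs x
    obtain ⟨j, rfl⟩ := hen g
    obtain ⟨k, hk, hk'⟩ := b3 (N j) j (hOk j)
    rw [isOfFinOrder_iff_pow_eq_one]
    refine ⟨k, hk, ?_⟩
    rw [← map_pow, hq]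
    exact hle (j + 1) (by rw [hNs]; exact hk')
  · intro x hx
    obtain ⟨g, rfl⟩ := hqs x
    rw [← map_pow, hq] at hx
    obtain ⟨j, hj⟩ := hst _ hx
    obtain ⟨hn, -, hA', -⟩ := hOk j
    let p : G →* G ⧸ N j := QuotientGroup.mk' (N j)
    have hp : ∀ g, p g = 1 ↔ g ∈ N j := fun g => QuotientGroup.eq_one_iff g
    have := hA'.i1 (p g) (by rw [← map_pow, hp]; exact hj j le_rfl)
    rw [← map_pow, hp] at this
    rw [← map_pow, hq]
    exact hle j this
  · intro a b c hab hc hac hbc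
    obtain ⟨a, rfl⟩ := hqs a
    obtain ⟨b, rfl⟩ := hqs b
    obtain ⟨c, rfl⟩ := hqs c
    obtain ⟨ha2, hb2, hcomm, ha1, hb1, hne⟩ := hab
    have key : ∀ g h : G, q g = q h ↔ g * h⁻¹ ∈ K := by
      intro g h
      rw [← hq, map_mul, map_inv, mul_inv_eq_one]
    rw [← map_pow, hq] at ha2 hb2 hc
    rw [← map_mul, ← map_mul, key] at hcomm hac hbc
    obtain ⟨j1, hj1⟩ := hst _ ha2
    obtain ⟨j2, hj2⟩ := hst _ hb2
    obtain ⟨j3, hj3⟩ := hst _ hc
    obtain ⟨j4, hj4⟩ := hst _ hcomm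
    obtain ⟨j5, hj5⟩ := hst _ hac
    obtain ⟨j6, hj6⟩ := hst _ hbc
    set j := j1 + j2 + j3 + j4 + j5 + j6 with hj
    obtain ⟨hn, -, hA', -⟩ := hOk j
    let p : G →* G ⧸ N j := QuotientGroup.mk' (N j)
    have hp : ∀ g, p g = 1 ↔ g ∈ N j := fun g => QuotientGroup.eq_one_iff g
    have keyp : ∀ g h : G, p g = p h ↔ g * h⁻¹ ∈ N j := by
      intro g h
      rw [← hp, map_mul, map_inv, mul_inv_eq_one]
    have up : ∀ g h : G, p g = p h → q g = q h := by
      intro g h hgh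
      rw [key]
      exact hle j ((keyp g h).1 hgh)
    have := hA'.i2 (p a) (p b) (p c) ⟨by rw [← map_pow, hp]; exact hj1 j (by omega),
      by rw [← map_pow, hp]; exact hj2 j (by omega),
      by rw [← map_mul, ← map_mul, keyp]; exact hj4 j (by omega),
      fun h => ha1 (by rw [← map_one q]; exact up _ _ (by rw [h, map_one])),
      fun h => hb1 (by rw [← map_one q]; exact up _ _ (by rw [h, map_one])),
      fun h => hne (up _ _ h)⟩ (by rw [← map_pow, hp]; exact hj3 j (by omega))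
      (by rw [← map_mul, ← map_mul, keyp]; exact hj5 j (by omega))
      (by rw [← map_mul, ← map_mul, keyp]; exact hj6 j (by omega))
    rcases this with h | h | h | h
    · left; rw [← map_one q]; exact up _ _ (by rw [h, map_one])
    · right; left; exact up _ _ h
    · right; right; left; exact up _ _ h
    · right; right; right; rw [← map_mul]; exact up _ _ (by rw [h, map_mul])
  · intro g h hgh
    have : (q.comp φ) (g * h⁻¹) = 1 := by rw [map_mul, map_inv, hgh, mul_inv_cancel]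
    have := hφK _ ((hq _).1 this)
    rwa [mul_inv_eq_one] at this
  · intro M hM hfin
    apply ha5 M hM
    apply hd5 M hM
    set j := M.index with hj
    have hjpos : 0 < j := Nat.pos_of_ne_zero hfin.index_ne_zero
    have := b4 (N j) j (hOk j) ((G ⧸ K) ⧸ M) ((QuotientGroup.mk' M).comp q) (by
      intro g hg
      rw [MonoidHom.mem_ker, MonoidHom.comp_apply, (hq g).2 (hle (j + 1) (by rw [hNs]; exact hg)), map_one]) (by
      intro x
      have h1 : x ^ j = 1 := by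
        have : Nat.card ((G ⧸ K) ⧸ M) = j := rfl
        rw [← this]
        exact pow_card_eq_one'
      obtain ⟨l, hl⟩ := Nat.dvd_factorial hjpos le_rfl
      rw [hl, pow_mul, h1, one_pow])
    exact (QuotientGroup.eq_one_iff _).1 this

end Pool.Agent.Lib.MP_f1646b_al
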