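import Pool.Agent.Lib.MP_f1646b_al.Betw

set_option autoImplicit false

namespace Pool.Agent.Lib.MP_f1646b_al

theorem psl2_locally_finite (P : Type) [Field P] (p : ℕ) (hp : p.Prime) [CharP P p]
    (hP : ∀ x : P, IsIntegral ℤ x) (G : Type) [Group G] (hfg : Group.FG G)
    (e : G ≃* (Matrix.SpecialLinearGroup (Fin 2) P ⧸
          Subgroup.center (Matrix.SpecialLinearGroup (Fin 2) P))) : Finite G := by
  classical
  haveI : Fact p.Prime := ⟨hp⟩
  letI : Algebra (ZMod p) P := ZMod.algebra P p
  -- lift the generators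
  obtain ⟨S, hS⟩ := Group.fg_def.1 hfg
  have hlift : ∀ g : G, ∃ M : Matrix.SpecialLinearGroup (Fin 2) P,
      (QuotientGroup.mk M : Matrix.SpecialLinearGroup (Fin 2) P ⧸
        Subgroup.center (Matrix.SpecialLinearGroup (Fin 2) P)) = e g := fun g =>
    QuotientGroup.mk_surjective (e g)
  choose L hL using hlift
  -- the finite set of entries
  let T : Set P := ⋃ s ∈ (S : Set G), ⋃ i : Fin 2, ⋃ j : Fin 2, {(L s).1 i j}
  have hTfin : T.Finite := by
    refine Set.Finite.biUnion S.finite_toSet fun s _ => ?_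
    refine Set.finite_iUnion fun i => Set.finite_iUnion fun j => Set.finite_singleton _
  have hT : ∀ s ∈ S, ∀ i j, (L s).1 i j ∈ T := by
    intro s hs i j
    simp only [T, Set.mem_iUnion, Set.mem_singleton_iff]
    exact ⟨s, hs, i, j, rfl⟩
  let A : Subalgebra (ZMod p) P := Algebra.adjoin (ZMod p) T
  have hint : ∀ x : P, IsIntegral (ZMod p) x := fun x => (hP x).tower_top
  have hAfg : (Subalgebra.toSubmodule A).FG := fg_adjoin_of_finite hTfin fun x _ => hint x
  haveI : Module.Finite (ZMod p) A := Module.Finite.iff_fg.2 hAfg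
  haveI : Finite A := Module.finite_of_finite (ZMod p)
  haveI : Finite (Matrix (Fin 2) (Fin 2) A) := by
    unfold Matrix; infer_instance
  haveI : Finite (Matrix.SpecialLinearGroup (Fin 2) A) := Subtype.finite
  let f : Matrix.SpecialLinearGroup (Fin 2) A →* G :=
    e.symm.toMonoidHom.comp ((QuotientGroup.mk' _).comp
      (Matrix.SpecialLinearGroup.map (A.val : A →+* P)))
  have hf : Function.Surjective f := by
    rw [← MonoidHom.range_eq_top, eq_top_iff, ← hS, Subgroup.closure_le]
    intro s hs
    have hA : ∀ i j, (L s).1 i j ∈ A := fun i j => Algebra.subset_adjoin (hT s hs i j)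
    let M : Matrix (Fin 2) (Fin 2) A := fun i j => ⟨(L s).1 i j, hA i j⟩
    have hM : M.map (A.val : A →+* P) = (L s).1 := by
      ext i j; rfl
    have hdet : M.det = 1 := by
      have h1 : (A.val : A →+* P) M.det = 1 := by
        rw [RingHom.map_det]
        have : (A.val : A →+* P).mapMatrix M = (L s).1 := hM
        rw [this]; exact (L s).2
      exact Subtype.ext h1
    refine ⟨⟨M, hdet⟩, ?_⟩
    have h2 : Matrix.SpecialLinearGroup.map (A.val : A →+* P) ⟨M, hdet⟩ = L s :=
      Subtype.ext hM
    change e.symm (QuotientGroup.mk (Matrix.SpecialLinearGroup.map (A.val : A →+* P) ⟨M, hdet⟩)) = s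
    rw [h2, hL, MulEquiv.symm_apply_apply]
  exact Finite.of_surjective f hf

end Pool.Agent.Lib.MP_f1646b_al
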