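import Pool.Agent.Lib.MP_f1646b_al.Betw

set_option autoImplicit false
set_option linter.unusedSimpArgs false

/-!
# MP_f1646b_al, piece P28b : the final step (helper78)
-/

namespace Pool.Agent.Lib.MP_f1646b_al

namespace P28b

/-- without elements of order four, `2`-elements have square one -/
theorem sq_of_two_pow {Γ : Type*} [Group Γ] (h1 : ∀ x : Γ, x ^ 4 = 1 → x ^ 2 = 1) (k : ℕ) (x : Γ)
    (hx : x ^ (2 ^ k) = 1) : x ^ 2 = 1 := by
  induction k with
  | zero =>
    have : x = 1 := by simpa using hx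
    simp [this]
  | succ k ih =>
    cases k with
    | zero => simpa using hx
    | succ k =>
      apply ih
      have h2 : (x ^ (2 ^ k)) ^ 4 = 1 := by
        rw [← pow_mul, ← hx]
        congr 1
        ring
      have h3 := h1 _ h2
      rw [← pow_mul] at h3
      rw [pow_succ]
      exact h3

theorem exists_odd_pow {Γ : Type*} [Group Γ] (h1 : ∀ x : Γ, x ^ 4 = 1 → x ^ 2 = 1) (x : Γ)
    (hx : IsOfFinOrder x) : ∃ m, Odd m ∧ (x ^ m) ^ 2 = 1 := by
  obtain ⟨n, hn, hxn⟩ := isOfFinOrder_iff_pow_eq_one.1 hx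
  obtain ⟨k, m, hm, rfl⟩ := Nat.exists_eq_two_pow_mul_odd hn.ne'
  refine ⟨m, hm, sq_of_two_pow h1 k _ ?_⟩
  rw [← pow_mul, mul_comm m]
  exact hxn

theorem pow_odd_of_sq {Γ : Type*} [Group Γ] {x : Γ} (hx : x ^ 2 = 1) {m : ℕ} (hm : Odd m) :
    x ^ m = x := by
  obtain ⟨r, rfl⟩ := hm
  rw [pow_succ, pow_mul, hx, one_pow, one_mul]

/-- lifting of elements of order dividing four -/
theorem lift_sq {Γ S : Type*} [Group Γ] [Group S] (h1 : ∀ x : Γ, x ^ 4 = 1 → x ^ 2 = 1)
    (htor : ∀ x : Γ, IsOfFinOrder x) (π : Γ →* S) (hπ : Function.Surjective π) (s : S)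
    (hs : s ^ 4 = 1) : ∃ x : Γ, π x = s ∧ x ^ 2 = 1 := by
  obtain ⟨x, rfl⟩ := hπ s
  obtain ⟨m, hm, hx⟩ := exists_odd_pow h1 x (htor x)
  refine ⟨x ^ (m * m), ?_, ?_⟩
  · rw [map_pow]
    obtain ⟨r, rfl⟩ := hm
    have h2 : (2 * r + 1) * (2 * r + 1) = 4 * (r * r + r) + 1 := by ring
    rw [h2, pow_succ, pow_mul, hs, one_pow, one_mul]
  · rw [pow_mul, ← pow_mul, mul_comm m 2, pow_mul, hx, one_pow]

/-- making a lift commute with an involution -/
theorem fix {Γ S : Type*} [Group Γ] [Group S] (h1 : ∀ x : Γ, x ^ 4 = 1 → x ^ 2 = 1)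
    (htor : ∀ x : Γ, IsOfFinOrder x) (π : Γ →* S) (c a : Γ) (hc : c ^ 2 = 1) (ha : a ^ 2 = 1)
    (hca : π c * π a = π a * π c) :
    ∃ c' : Γ, c' ^ 2 = 1 ∧ c' * a = a * c' ∧ π c' = π c ∧
      ∀ g, g * c = c * g → g * a = a * g → g * c' = c' * g := by
  obtain ⟨m, hm, hx⟩ := exists_odd_pow h1 (c * a) (htor _)
  have ha' : a⁻¹ = a := inv_eq_of_mul_eq_one_right (by rw [← sq, ha])
  have hc' : c⁻¹ = c := inv_eq_of_mul_eq_one_right (by rw [← sq, hc])
  have haa : a * a = 1 := by rw [← sq, ha]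
  -- `a` inverts `c a`
  have hinv : a * (c * a) ^ m * a⁻¹ = ((c * a) ^ m)⁻¹ := by
    rw [← conj_pow, ← inv_pow]
    congr 1
    rw [mul_inv_rev, ha', hc']
    simp only [mul_assoc, haa, mul_one]
  have hself : ((c * a) ^ m)⁻¹ = (c * a) ^ m :=
    inv_eq_of_mul_eq_one_right (by rw [← sq, hx])
  have hacm : a * (c * a) ^ m * a = (c * a) ^ m := by
    have := hinv
    rw [ha', hself] at this
    exact this
  refine ⟨(c * a) ^ m * a, ?_, ?_, ?_, ?_⟩
  · rw [sq]
    calc (c * a) ^ m * a * ((c * a) ^ m * a) = (c * a) ^ m * (a * (c * a) ^ m * a) := by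
          simp only [mul_assoc]
      _ = 1 := by rw [hacm, ← sq, hx]
  · rw [mul_assoc, haa, mul_one, ← mul_assoc, hacm]
  · rw [map_mul, map_pow, map_mul]
    have h2 : (π c * π a) ^ 2 = 1 := by
      have hcomm : Commute (π c) (π a) := hca
      rw [hcomm.mul_pow, ← map_pow, ← map_pow, hc, ha, map_one, one_mul]
    rw [pow_odd_of_sq h2 hm, mul_assoc, ← map_mul, haa, map_one, mul_one]
  · intro g hgc hga
    have h2 : Commute g (c * a) := Commute.mul_right hgc hga
    exact ((h2.pow_right m).mul_right hga).eq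

/-- the Klein four subgroup generated by a frame -/
theorem exists_klein {S : Type*} [Group S] {a b : S} (h : Frame a b) :
    ∃ V : Subgroup S, (∀ x, x ∈ V ↔ x = 1 ∨ x = a ∨ x = b ∨ x = a * b) ∧ IsKleinFour V := by
  obtain ⟨ha, hb, hab, ha1, hb1, hne⟩ := h
  have haa : a * a = 1 := by rw [← sq, ha]
  have hbb : b * b = 1 := by rw [← sq, hb]
  have haa' : ∀ x, a * (a * x) = x := fun x => by rw [← mul_assoc, haa, one_mul]
  have hbb' : ∀ x, b * (b * x) = x := fun x => by rw [← mul_assoc, hbb, one_mul]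
  have hba : b * a = a * b := hab.symm
  have hba' : ∀ x, b * (a * x) = a * (b * x) := fun x => by rw [← mul_assoc, hba, mul_assoc]
  let V : Subgroup S :=
    { carrier := {x | x = 1 ∨ x = a ∨ x = b ∨ x = a * b}
      mul_mem' := by
        rintro x y (rfl | rfl | rfl | rfl) (rfl | rfl | rfl | rfl) <;>
          simp [mul_assoc, haa, haa', hbb, hbb', hba, hba']
      one_mem' := Or.inl rfl
      inv_mem' := by
        have ha' : a⁻¹ = a := inv_eq_of_mul_eq_one_right haa
        have hb' : b⁻¹ = b := inv_eq_of_mul_eq_one_right hbb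
        rintro x (rfl | rfl | rfl | rfl)
        · left; exact inv_one
        · right; left; exact ha'
        · right; right; left; exact hb'
        · right; right; right
          rw [mul_inv_rev, ha', hb', hba] }
  have hV : ∀ x, x ∈ V ↔ x = 1 ∨ x = a ∨ x = b ∨ x = a * b := fun x => Iff.rfl
  refine ⟨V, hV, ?_⟩
  have hab1 : a * b ≠ 1 := by
    intro h
    apply hne
    have := haa' b
    rw [h, mul_one] at this
    exact this
  have haab : a ≠ a * b := by
    intro h
    apply hb1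
    have := haa' b
    rw [← h, haa] at this
    exact this.symm
  have hbab : b ≠ a * b := by
    intro h
    apply ha1
    -- `b = a b` gives `a = 1`
    have h3 : b * b = a * b * b := congrArg (· * b) h
    rw [hbb, mul_assoc, hbb, mul_one] at h3
    exact h3.symm
  constructor
  · have h1 : (V : Set S) = {1, a, b, a * b} := by
      ext x
      simp only [SetLike.mem_coe, hV, Set.mem_insert_iff, Set.mem_singleton_iff]
    have h2 : Nat.card V = (V : Set S).ncard := rfl
    rw [h2, h1, Set.ncard_insert_of_notMem, Set.ncard_insert_of_notMem,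
      Set.ncard_insert_of_notMem, Set.ncard_singleton]
    · simpa using hbab
    · simp only [Set.mem_insert_iff, Set.mem_singleton_iff, not_or]
      exact ⟨hne, haab⟩
    · simp only [Set.mem_insert_iff, Set.mem_singleton_iff, not_or]
      exact ⟨ha1.symm, hb1.symm, hab1.symm⟩
  · have hsq : ∀ x : V, x ^ 2 = 1 := by
      rintro ⟨x, hx⟩
      apply Subtype.ext
      rw [Subgroup.coe_pow, Subgroup.coe_one]
      rcases (hV x).1 hx with rfl | rfl | rfl | rfl
      · exact one_pow 2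
      · exact ha
      · exact hb
      · rw [sq]
        simp [mul_assoc, haa, haa', hbb, hbb', hba, hba']
    have hd : Monoid.exponent V ∣ 2 := Monoid.exponent_dvd_of_forall_pow_eq_one hsq
    rcases (Nat.dvd_prime Nat.prime_two).1 hd with h1 | h2
    · exfalso
      have h3 := Monoid.pow_exponent_eq_one (⟨a, (hV a).2 (Or.inr (Or.inl rfl))⟩ : V)
      rw [h1, pow_one] at h3
      exact ha1 (congrArg Subtype.val h3)
    · exact h2

/-- the second involution of the alternating group -/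
def b5 : alternatingGroup (Fin 5) :=
  ⟨Equiv.swap 0 2 * Equiv.swap 1 3, Equiv.Perm.mem_alternatingGroup.2 (by decide)⟩

theorem frame5 : Frame a5 b5 := by
  refine ⟨?_, ?_, ?_, ?_, ?_, ?_⟩ <;> decide

theorem frame_map {G H : Type*} [Group G] [Group H] (f : G →* H) (hf : Function.Injective f)
    {a b : G} (h : Frame a b) : Frame (f a) (f b) := by
  obtain ⟨h1, h2, h3, h4, h5, h6⟩ := h
  refine ⟨?_, ?_, ?_, ?_, ?_, ?_⟩
  · rw [← map_pow, h1, map_one]
  · rw [← map_pow, h2, map_one]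
  · rw [← map_mul, h3, map_mul]
  · exact fun h => h4 (hf (h.trans (map_one f).symm))
  · exact fun h => h5 (hf (h.trans (map_one f).symm))
  · exact fun h => h6 (hf h)

end P28b

open P28b

theorem final_step (h : ∃ (Γ : Type) (_ : Group Γ), Group.FG Γ ∧ IsMulTorsion Γ ∧
    (∀ x : Γ, x ^ 4 = 1 → x ^ 2 = 1) ∧
    (∀ a b c : Γ, Frame a b → c ^ 2 = 1 → a * c = c * a → b * c = c * b →
      c = 1 ∨ c = a ∨ c = b ∨ c = a * b) ∧
    ∃ φ : alternatingGroup (Fin 5) →* Γ, Function.Injective φ ∧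
      (∀ M : Subgroup Γ, M.Normal → φ a5 ∈ M → M = ⊤) ∧
      ∀ M : Subgroup Γ, M.Normal → M.FiniteIndex → M = ⊤) :
    ∃ (G : Type) (_ : Group G), Infinite G ∧ IsSimpleGroup G ∧ IsMulTorsion G ∧ Group.FG G ∧
      ∃ (S : Sylow 2 G), Nonempty (↥(S : Subgroup G) ≃* DihedralGroup 2) := by
  obtain ⟨Γ, _, hfg, htor, h1, h2, φ, hφ, hn, hf⟩ := h
  -- a maximal normal subgroup avoiding the involution
  have hφa : φ a5 ≠ 1 := fun h => frame5.2.2.2.1 (hφ (h.trans (map_one φ).symm))
  obtain ⟨N, -, hN⟩ := zorn_le_nonempty₀ {N : Subgroup Γ | N.Normal ∧ φ a5 ∉ N} (by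
    intro c hc hchain y hy
    refine ⟨sSup c, ⟨Subgroup.sSup_normal c fun H hH => (hc hH).1, ?_⟩, fun z hz => le_sSup hz⟩
    intro hmem
    obtain ⟨K, hK, hmK⟩ := (Subgroup.mem_sSup_of_directedOn ⟨y, hy⟩ hchain.directedOn).1 hmem
    exact (hc hK).2 hmK) ⊥ ⟨inferInstance, fun h => hφa (Subgroup.mem_bot.1 h)⟩
  have hNn : N.Normal := hN.prop.1
  have hNa : φ a5 ∉ N := hN.prop.2
  have hNmax : ∀ K : Subgroup Γ, K.Normal → N ≤ K → φ a5 ∉ K → K = N := by
    intro K hK hNK haK
    exact le_antisymm (hN.le_of_ge ⟨hK, haK⟩ hNK) hNK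
  set π : Γ →* Γ ⧸ N := QuotientGroup.mk' N with hπdef
  have hπ : Function.Surjective π := QuotientGroup.mk'_surjective N
  have hNtop : N ≠ ⊤ := fun h => hNa (h ▸ Subgroup.mem_top _)
  -- the composition is injective
  have hinj : Function.Injective (π.comp φ) := by
    rw [← MonoidHom.ker_eq_bot_iff]
    rcases (MonoidHom.normal_ker (π.comp φ)).eq_bot_or_eq_top with h | h
    · exact h
    · exfalso
      apply hNa
      have h3 : a5 ∈ (π.comp φ).ker := h ▸ Subgroup.mem_top _
      rw [MonoidHom.mem_ker, MonoidHom.comp_apply] at h3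
      exact (QuotientGroup.eq_one_iff _).1 h3
  have hframe : Frame (π (φ a5)) (π (φ b5)) := frame_map (π.comp φ) hinj frame5
  have hframe0 : Frame (φ a5) (φ b5) := frame_map φ hφ frame5
  -- invariants of the quotient
  have i1 : ∀ s : Γ ⧸ N, s ^ 4 = 1 → s ^ 2 = 1 := by
    intro s hs
    obtain ⟨x, rfl, hx⟩ := lift_sq h1 htor π hπ s hs
    rw [← map_pow, hx, map_one]
  have i2 : ∀ s : Γ ⧸ N, s ^ 2 = 1 → s * π (φ a5) = π (φ a5) * s → s * π (φ b5) = π (φ b5) * s →
      s = 1 ∨ s = π (φ a5) ∨ s = π (φ b5) ∨ s = π (φ a5) * π (φ b5) := by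
    intro s hs hsa hsb
    obtain ⟨c, rfl, hc⟩ := lift_sq h1 htor π hπ s (by
      rw [show (4 : ℕ) = 2 * 2 from rfl, pow_mul, hs, one_pow])
    obtain ⟨c1, hc1, hc1a, hc1π, -⟩ := fix h1 htor π c (φ a5) hc hframe0.1 hsa
    obtain ⟨c2, hc2, hc2b, hc2π, hc2g⟩ := fix h1 htor π c1 (φ b5) hc1 hframe0.2.1 (by
      rw [hc1π]; exact hsb)
    have hc2a : φ a5 * c2 = c2 * φ a5 := hc2g _ hc1a.symm hframe0.2.2.1
    have h3 := h2 (φ a5) (φ b5) c2 hframe0 hc2 hc2a hc2b.symm
    have h4 : π c = π c2 := by rw [hc2π, hc1π]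
    rw [h4]
    rcases h3 with h | h | h | h
    · left; rw [h, map_one]
    · right; left; rw [h]
    · right; right; left; rw [h]
    · right; right; right; rw [h, map_mul]
  obtain ⟨V, hV, hV4⟩ := exists_klein hframe
  refine ⟨Γ ⧸ N, inferInstance, ?_, ?_, ?_, ?_, ?_⟩
  · -- infinite
    by_contra hfin
    rw [not_infinite_iff_finite] at hfin
    exact hNtop (hf N hNn (Subgroup.finiteIndex_of_finite_quotient))
  · -- simple
    refine @IsSimpleGroup.mk _ _ ⟨⟨1, π (φ a5), hframe.2.2.2.1.symm⟩⟩ ?_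
    intro K hK
    have hle : N ≤ K.comap π := by
      intro x hx
      rw [Subgroup.mem_comap]
      have : π x = 1 := (QuotientGroup.eq_one_iff _).2 hx
      rw [this]
      exact one_mem _
    by_cases ha : φ a5 ∈ K.comap π
    · right
      have h3 := hn (K.comap π) (hK.comap π) ha
      rw [eq_top_iff]
      intro s _
      obtain ⟨x, rfl⟩ := hπ s
      have : x ∈ K.comap π := h3 ▸ Subgroup.mem_top _
      exact this
    · left
      have h3 := hNmax (K.comap π) (hK.comap π) hle ha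
      rw [eq_bot_iff]
      intro s hs
      obtain ⟨x, rfl⟩ := hπ s
      have h4 : x ∈ K.comap π := hs
      rw [h3] at h4
      exact Subgroup.mem_bot.2 ((QuotientGroup.eq_one_iff _).2 h4)
  · exact IsMulTorsion.of_surjective hπ htor
  · exact QuotientGroup.fg N
  · refine ⟨⟨V, ?_, ?_⟩, ?_⟩
    · intro x
      refine ⟨1, ?_⟩
      rw [pow_one]
      have h3 : Monoid.exponent V = 2 := hV4.exponent_two
      rw [← h3]
      exact Monoid.pow_exponent_eq_one x
    · intro Q hQ hVQ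
      refine le_antisymm ?_ hVQ
      -- every element of `Q` has square one
      have hsq : ∀ q ∈ Q, q ^ 2 = 1 := by
        intro q hq
        obtain ⟨k, hk⟩ := hQ ⟨q, hq⟩
        have h3 : q ^ (2 ^ k) = 1 := congrArg Subtype.val hk
        exact sq_of_two_pow i1 k q h3
      have hcomm : ∀ q ∈ Q, ∀ r ∈ Q, q * r = r * q := by
        intro q hq r hr
        have h3 := hsq _ (mul_mem hq hr)
        have hqi : q⁻¹ = q := inv_eq_of_mul_eq_one_right (by rw [← sq, hsq q hq])
        have hri : r⁻¹ = r := inv_eq_of_mul_eq_one_right (by rw [← sq, hsq r hr])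
        have h4 : (q * r)⁻¹ = q * r := inv_eq_of_mul_eq_one_right (by rw [← sq, h3])
        rw [mul_inv_rev, hqi, hri] at h4
        exact h4.symm
      intro q hq
      rw [hV]
      exact i2 q (hsq q hq) (hcomm q hq _ (hVQ ((hV _).2 (Or.inr (Or.inl rfl)))))
        (hcomm q hq _ (hVQ ((hV _).2 (Or.inr (Or.inr (Or.inl rfl))))))
    · have := hV4
      exact IsKleinFour.nonempty_mulEquiv (G₁ := V) (G₂ := DihedralGroup 2)

end Pool.Agent.Lib.MP_f1646b_al
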